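import Pool.Agent.Lib.MP_02e52a_al.M7.Fin3

/-! # The groups of the list are special -/

namespace MP_02e52a.M7

open scoped commutatorElement

variable {p : ℕ} [Fact p.Prime]

theorem grp_zero_mul (d : Dat p) (w w' : WW p) : (⟨0, w⟩ : Grp d) * ⟨0, w'⟩ = ⟨0, w + w'⟩ := by
  ext1
  · simp
  · simp [carry_zero_left]

theorem grp_zero_pow (d : Dat p) (w : WW p) (n : ℕ) : (⟨0, w⟩ : Grp d) ^ n = ⟨0, n • w⟩ := by
  induction n with
  | zero => rw [pow_zero, zero_smul]; rfl
  | succ n ih => rw [pow_succ, ih, grp_zero_mul, succ_nsmul]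

theorem grp_zero_mem (hp : p ≠ 2) (d : Dat p) (ho : d.Onto) (w : WW p) :
    (⟨0, w⟩ : Grp d) ∈ commutator (Grp d) := by
  have hw : w ∈ Submodule.span (ZMod p) {w | ∃ u v, w = d.β u v} := by rw [ho]; trivial
  induction hw using Submodule.span_induction with
  | mem w hw =>
    obtain ⟨u, v, rfl⟩ := hw
    have h := grp_comm hp d ⟨u, 0⟩ ⟨v, 0⟩
    have h1 : (⟨0, d.β u v⟩ : Grp d) = ⁅(⟨u, 0⟩ : Grp d), (⟨v, 0⟩ : Grp d)⁆ := by
      ext1
      · exact h.1.symm
      · exact h.2.symm
    rw [h1]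
    exact Subgroup.commutator_mem_commutator (Subgroup.mem_top _) (Subgroup.mem_top _)
  | zero => exact one_mem _
  | add w w' _ _ h h' => rw [← grp_zero_mul]; exact mul_mem h h'
  | smul c w _ h =>
    have : (⟨0, c • w⟩ : Grp d) = (⟨0, w⟩ : Grp d) ^ c.val := by
      rw [grp_zero_pow]
      congr 1
      rw [← Nat.cast_smul_eq_nsmul (ZMod p), ZMod.natCast_zmod_val]
    rw [this]
    exact pow_mem h _

theorem grp_special (hp : p ≠ 2) (d : Dat p) (ho : d.Onto) (hn : d.Nondeg) :
    commutator (Grp d) = Subgroup.center (Grp d) ∧ Nat.card (Subgroup.center (Grp d)) = p ^ 3 ∧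
      (∀ x : Grp d, x ^ p ∈ Subgroup.center (Grp d)) ∧ ∀ z ∈ Subgroup.center (Grp d), z ^ p = 1 := by
  refine ⟨le_antisymm ?_ ?_, ?_, ?_, ?_⟩
  · rw [commutator_def, Subgroup.commutator_le]
    intro x _ y _
    rw [grp_center hp d hn]
    exact (grp_comm hp d x y).1
  · intro x hx
    rw [grp_center hp d hn] at hx
    have : x = ⟨0, x.w⟩ := by
      ext1
      · exact hx
      · rfl
    rw [this]
    exact grp_zero_mem hp d ho _
  · have e : Subgroup.center (Grp d) ≃ WW p :=
      { toFun := fun x => x.1.w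
        invFun := fun w => ⟨⟨0, w⟩, (grp_center hp d hn _).2 rfl⟩
        left_inv := by
          rintro ⟨x, hx⟩
          apply Subtype.ext
          ext1
          · exact ((grp_center hp d hn _).1 hx).symm
          · rfl
        right_inv := fun _ => rfl }
    rw [Nat.card_congr e]
    simp
  · intro x
    rw [grp_center hp d hn]
    exact (grp_pow d x).1
  · intro z hz
    rw [grp_center hp d hn] at hz
    have h := grp_pow d z
    ext1
    · exact h.1
    · rw [h.2, hz, map_zero]; rfl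

end MP_02e52a.M7
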