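import Mathlib

/-!
# The groups `Grp d`: class two, order `p^7`, commutator map `β` and `p`-power map `π`
-/

namespace MP_02e52a.M7

/-- `Aut G` is abelian. -/
def AutComm (G : Type*) [Group G] : Prop := ∀ a b : MulAut G, a * b = b * a

/-- `V = (ZMod p)^4` -/
abbrev VV (p : ℕ) := Fin 4 → ZMod p
/-- `W = (ZMod p)^3` -/
abbrev WW (p : ℕ) := Fin 3 → ZMod p

/-- An alternating bilinear map `β : V × V → W` and a linear map `π : V → W`. -/
structure Dat (p : ℕ) where
  β : VV p →ₗ[ZMod p] VV p →ₗ[ZMod p] WW p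
  alt : ∀ v, β v v = 0
  π : VV p →ₗ[ZMod p] WW p

/-- carries of the addition of the representatives in `[0, p)` -/
def carry {p : ℕ} (u v : VV p) : VV p := fun i => if p ≤ (u i).val + (v i).val then 1 else 0

variable {p : ℕ} [hp : Fact p.Prime]

theorem carry_scalar (a b c : ZMod p) :
    ((if p ≤ a.val + b.val then 1 else 0 : ZMod p) + (if p ≤ (a + b).val + c.val then 1 else 0)) =
      ((if p ≤ b.val + c.val then 1 else 0) + (if p ≤ a.val + (b + c).val then 1 else 0)) := by
  have hpos : 0 < p := hp.1.pos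
  have ha := a.val_lt
  have hb := b.val_lt
  have hc := c.val_lt
  have h1 : (a + b).val = if p ≤ a.val + b.val then a.val + b.val - p else a.val + b.val := by
    rw [ZMod.val_add]
    split_ifs with h
    · rw [Nat.mod_eq_sub_mod h, Nat.mod_eq_of_lt (by omega)]
    · rw [Nat.mod_eq_of_lt (by omega)]
  have h2 : (b + c).val = if p ≤ b.val + c.val then b.val + c.val - p else b.val + c.val := by
    rw [ZMod.val_add]
    split_ifs with h
    · rw [Nat.mod_eq_sub_mod h, Nat.mod_eq_of_lt (by omega)]
    · rw [Nat.mod_eq_of_lt (by omega)]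
  rw [h1, h2]
  split_ifs <;> first | omega | simp

theorem carry_assoc (u v w : VV p) : carry u v + carry (u + v) w = carry v w + carry u (v + w) := by
  funext i
  simp only [carry, Pi.add_apply]
  exact carry_scalar (u i) (v i) (w i)

theorem carry_zero_left (v : VV p) : carry 0 v = 0 := by
  funext i
  have := (v i).val_lt
  simp [carry, this]

theorem carry_comm (u v : VV p) : carry u v = carry v u := by
  funext i
  simp [carry, add_comm]

/-- The group attached to `(β, π)`: the set `V × W` with the multiplication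
`(v, w) (v', w') = (v + v', w + w' + β v v' / 2 + π (carry v v'))`. -/
@[ext]
structure Grp (d : Dat p) where
  v : VV p
  w : WW p

namespace Grp

variable {d : Dat p}

instance : Mul (Grp d) := ⟨fun x y => ⟨x.v + y.v, x.w + y.w + (2 : ZMod p)⁻¹ • d.β x.v y.v + d.π (carry x.v y.v)⟩⟩
instance : One (Grp d) := ⟨⟨0, 0⟩⟩
instance : Inv (Grp d) := ⟨fun x => ⟨-x.v, -x.w - d.π (carry x.v (-x.v))⟩⟩

@[simp] theorem mul_v (x y : Grp d) : (x * y).v = x.v + y.v := rfl
@[simp] theorem mul_w (x y : Grp d) :
    (x * y).w = x.w + y.w + (2 : ZMod p)⁻¹ • d.β x.v y.v + d.π (carry x.v y.v) := rfl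
@[simp] theorem one_v : (1 : Grp d).v = 0 := rfl
@[simp] theorem one_w : (1 : Grp d).w = 0 := rfl
@[simp] theorem inv_v (x : Grp d) : (x⁻¹).v = -x.v := rfl
@[simp] theorem inv_w (x : Grp d) : (x⁻¹).w = -x.w - d.π (carry x.v (-x.v)) := rfl

instance : Group (Grp d) := Group.ofLeftAxioms
  (by
    intro x y z
    ext1
    · simp [add_assoc]
    · simp only [mul_w, mul_v, map_add, LinearMap.add_apply, smul_add]
      have h := congrArg d.π (carry_assoc x.v y.v z.v)
      simp only [map_add] at h
      have h' : d.π (carry x.v y.v) = d.π (carry y.v z.v) + d.π (carry x.v (y.v + z.v)) -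
          d.π (carry (x.v + y.v) z.v) := by rw [← h]; abel
      rw [h']
      abel)
  (by
    intro x
    ext1
    · simp
    · simp [carry_zero_left])
  (by
    intro x
    ext1
    · simp
    · simp only [mul_w, inv_w, inv_v, map_neg, LinearMap.neg_apply, d.alt, neg_zero, smul_zero, one_w]
      rw [carry_comm (-x.v) x.v]
      abel)

end Grp

/-- the values of `β` span `W` -/
def Dat.Onto (d : Dat p) : Prop := Submodule.span (ZMod p) {w | ∃ u v, w = d.β u v} = ⊤

/-- `β` is nondegenerate -/
def Dat.Nondeg (d : Dat p) : Prop := ∀ u, (∀ v, d.β u v = 0) → u = 0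

/-- `(g, h)` transports `d` to `d'` -/
def Dat.Trans (d d' : Dat p) (g : VV p ≃ₗ[ZMod p] VV p) (h : WW p ≃ₗ[ZMod p] WW p) : Prop :=
  (∀ u v, h (d.β u v) = d'.β (g u) (g v)) ∧ ∀ v, h (d.π v) = d'.π (g v)

/-- the stabiliser of `d` in `GL(V) × GL(W)` is trivial on `V` -/
def Dat.Free (d : Dat p) : Prop := ∀ g h, d.Trans d g h → ∀ v, g v = v

end MP_02e52a.M7
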