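import Pool.Agent.Lib.MP_02e52a_al.M7.Defs

namespace MP_02e52a.M7

open Module

private lemma A1_core (p : ℕ) [Fact p.Prime] {V Z : Type*} [AddCommGroup V] [AddCommGroup Z]
    [Module (ZMod p) V] (t : TD p V Z) (E : AddSubgroup Z) (u v w : V)
    (hli : ∀ a b c : ZMod p, a • u + b • v + c • w = 0 → a = 0 ∧ b = 0 ∧ c = 0)
    (S : Submodule (ZMod p) V) (hu : u ∈ S) (hv : v ∈ S) (hw : w ∈ S) (n0 n1 n2 : ℤ)
    (h0 : (n0 : ZMod p) ≠ 0) (hE : n0 • t.β v w + n1 • t.β w u + n2 • t.β u v ∈ E) :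
    ∃ x ∈ S, ∃ y ∈ S, LinearIndependent (ZMod p) ![x, y] ∧ t.β x y ∈ E := by
  have hz : ∀ (n : ℤ) (x : V), n • x = (n : ZMod p) • x := fun n x =>
    (Int.cast_smul_eq_zsmul (ZMod p) n x).symm
  refine ⟨(-n1) • u + n0 • v, ?_, (-n2) • u + n0 • w, ?_, ?_, ?_⟩
  · rw [hz, hz]
    exact S.add_mem (S.smul_mem _ hu) (S.smul_mem _ hv)
  · rw [hz, hz]
    exact S.add_mem (S.smul_mem _ hu) (S.smul_mem _ hw)
  · rw [LinearIndependent.pair_iff]
    intro a b hab
    rw [hz, hz, hz, hz] at hab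
    have h1 : (a * ((-n1 : ℤ) : ZMod p) + b * ((-n2 : ℤ) : ZMod p)) • u + (a * (n0 : ZMod p)) • v +
        (b * (n0 : ZMod p)) • w = 0 := by
      rw [← hab]
      simp only [smul_add, smul_smul, add_smul]
      abel
    obtain ⟨_, h2, h3⟩ := hli _ _ _ h1
    exact ⟨(mul_eq_zero.1 h2).resolve_right h0, (mul_eq_zero.1 h3).resolve_right h0⟩
  · have h1 : t.β ((-n1) • u + n0 • v) ((-n2) • u + n0 • w) =
        n0 • (n0 • t.β v w + n1 • t.β w u + n2 • t.β u v) := by
      simp only [map_add, map_zsmul, AddMonoidHom.add_apply, AddMonoidHom.smul_apply, t.alt]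
      rw [t.skew u w, t.skew v u]
      simp only [smul_add, smul_smul, smul_neg, neg_smul, smul_zero]
      module
    rw [h1]
    exact E.zsmul_mem hE _

/-- [M7 A1] Isotropic planes modulo a subgroup `E`. PROOF: put `c 0 = β (k 1) (k 2)`, `c 1 = β (k 2) (k 0)`,
`c 2 = β (k 0) (k 1)`, elements of `t.D`. The map `(Fin 3 → ZMod p) → t.D ⧸ (t.D ⊓ E)`,
`a ↦ ∑ (a i).val • c i` is additive (`p • c i = β (p • k 1) (k 2) = 0`), and the target has at most `p ^ 2` elements,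
so there is `a ≠ 0` with `∑ (a i).val • c i ∈ E`. If `a 0 ≠ 0` take `x = -a 1 • k 0 + a 0 • k 1`,
`y = -a 2 • k 0 + a 0 • k 2`; then `β x y = (a 0).val • ∑ (a i).val • c i ∈ E` (cross product computation) and `x, y` are
independent. The other two cases are cyclic permutations. -/
theorem exists_isotropic_add (p : ℕ) [Fact p.Prime] {V Z : Type*} [AddCommGroup V] [AddCommGroup Z] [Finite Z]
    [Module (ZMod p) V] (t : TD p V Z) (k : Fin 3 → V) (hk : LinearIndependent (ZMod p) k)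
    (E : AddSubgroup Z) (hE : Nat.card t.D ≤ p ^ 2 * Nat.card (t.D ⊓ E : AddSubgroup Z)) :
    ∃ x ∈ Submodule.span (ZMod p) (Set.range k), ∃ y ∈ Submodule.span (ZMod p) (Set.range k),
      LinearIndependent (ZMod p) ![x, y] ∧ t.β x y ∈ E := by
  have hp : p.Prime := Fact.out
  have hNe : NeZero p := ⟨hp.ne_zero⟩
  let c : Fin 3 → Z := ![t.β (k 1) (k 2), t.β (k 2) (k 0), t.β (k 0) (k 1)]
  have hcD : ∀ i, c i ∈ t.D := by
    intro i
    fin_cases i
    · exact t.β_mem_D _ _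
    · exact t.β_mem_D _ _
    · exact t.β_mem_D _ _
  let E' : AddSubgroup t.D := E.addSubgroupOf t.D
  have hfin : Finite t.D := inferInstance
  have hcE' : Nat.card E' = Nat.card (t.D ⊓ E : AddSubgroup Z) := by
    have h1 : (E'.map t.D.subtype) = t.D ⊓ E := by
      show (E.addSubgroupOf t.D).map t.D.subtype = _
      rw [AddSubgroup.addSubgroupOf_map_subtype, inf_comm]
    rw [← h1]
    exact (Nat.card_congr (AddSubgroup.equivMapOfInjective E' t.D.subtype
      (AddSubgroup.subtype_injective _)).toEquiv)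
  have hq : Nat.card (t.D ⧸ E') ≤ p ^ 2 := by
    have h1 : Nat.card t.D = Nat.card (t.D ⧸ E') * Nat.card E' :=
      AddSubgroup.card_eq_card_quotient_mul_card_addSubgroup E'
    rw [← hcE', h1] at hE
    have h2 : 0 < Nat.card E' := Nat.card_pos
    exact Nat.le_of_mul_le_mul_right hE h2
  let Φ : (Fin 3 → ZMod p) → t.D ⧸ E' := fun a =>
    QuotientAddGroup.mk (⟨∑ i, ((a i).val : ℤ) • c i, t.D.sum_mem fun i _ => t.D.zsmul_mem (hcD i) _⟩ : t.D)
  have hnotinj : ¬ Function.Injective Φ := by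
    intro hinj
    have h1 := Nat.card_le_card_of_injective Φ hinj
    have h2 : Nat.card (Fin 3 → ZMod p) = p ^ 3 := by
      rw [Nat.card_fun, Nat.card_zmod, Nat.card_fin]
    rw [h2] at h1
    have h3 : p ^ 2 < p ^ 3 := Nat.pow_lt_pow_right hp.one_lt (by norm_num)
    omega
  unfold Function.Injective at hnotinj
  push Not at hnotinj
  obtain ⟨a, a', hΦ, hne⟩ := hnotinj
  have hmem : ∑ i, (((a i).val : ℤ) - ((a' i).val : ℤ)) • c i ∈ E := by
    have h1 := QuotientAddGroup.eq.1 hΦ.symm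
    rw [AddSubgroup.mem_addSubgroupOf] at h1
    have h2 : ∑ i, (((a i).val : ℤ) - ((a' i).val : ℤ)) • c i =
        -(∑ i, ((a' i).val : ℤ) • c i) + ∑ i, ((a i).val : ℤ) • c i := by
      rw [← Finset.sum_neg_distrib, ← Finset.sum_add_distrib]
      refine Finset.sum_congr rfl fun i _ => ?_
      rw [sub_smul]; abel
    rw [h2]
    exact h1
  set n : Fin 3 → ℤ := fun i => ((a i).val : ℤ) - ((a' i).val : ℤ) with hn
  have hncast : ∀ i, (n i : ZMod p) = a i - a' i := by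
    intro i
    simp [hn, ZMod.natCast_zmod_val]
  have hmem' : n 0 • t.β (k 1) (k 2) + n 1 • t.β (k 2) (k 0) + n 2 • t.β (k 0) (k 1) ∈ E := by
    have : ∑ i, n i • c i ∈ E := hmem
    simpa [Fin.sum_univ_three, c] using this
  have hli : ∀ x y z : ZMod p, x • k 0 + y • k 1 + z • k 2 = 0 → x = 0 ∧ y = 0 ∧ z = 0 := by
    intro x y z h
    have h1 := Fintype.linearIndependent_iff.1 hk ![x, y, z] (by simpa [Fin.sum_univ_three] using h)
    exact ⟨h1 0, h1 1, h1 2⟩
  have hs : ∀ i, k i ∈ Submodule.span (ZMod p) (Set.range k) := fun i =>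
    Submodule.subset_span ⟨i, rfl⟩
  have hex : ∃ i, (n i : ZMod p) ≠ 0 := by
    by_contra h
    push Not at h
    apply hne
    funext i
    have := h i
    rw [hncast, sub_eq_zero] at this
    exact this
  obtain ⟨i, hi⟩ := hex
  fin_cases i
  · exact A1_core p t E (k 0) (k 1) (k 2) hli _ (hs 0) (hs 1) (hs 2) (n 0) (n 1) (n 2) hi hmem'
  · refine A1_core p t E (k 1) (k 2) (k 0) ?_ _ (hs 1) (hs 2) (hs 0) (n 1) (n 2) (n 0) hi ?_
    · intro x y z h
      obtain ⟨h1, h2, h3⟩ := hli z x y (by rw [← h]; abel)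
      exact ⟨h2, h3, h1⟩
    · have e : n 1 • t.β (k 2) (k 0) + n 2 • t.β (k 0) (k 1) + n 0 • t.β (k 1) (k 2) =
        n 0 • t.β (k 1) (k 2) + n 1 • t.β (k 2) (k 0) + n 2 • t.β (k 0) (k 1) := by abel
      rw [e]; exact hmem'
  · refine A1_core p t E (k 2) (k 0) (k 1) ?_ _ (hs 2) (hs 0) (hs 1) (n 2) (n 0) (n 1) hi ?_
    · intro x y z h
      obtain ⟨h1, h2, h3⟩ := hli y z x (by rw [← h]; abel)
      exact ⟨h3, h1, h2⟩
    · have e : n 2 • t.β (k 0) (k 1) + n 0 • t.β (k 1) (k 2) + n 1 • t.β (k 2) (k 0) =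
        n 0 • t.β (k 1) (k 2) + n 1 • t.β (k 2) (k 0) + n 2 • t.β (k 0) (k 1) := by abel
      rw [e]; exact hmem'

end MP_02e52a.M7
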