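import Pool.Agent.Lib.MP_02e52a_al.M7.Defs

namespace MP_02e52a.M7

open Module

/-- [M7 A2] Structure of `Z` when `Z ⧸ D` has order `p`, `p D = 0` and `p Z ≠ 0`: there are `φ : Z →+ ZMod p` with
kernel `D` and, for every `ζ` with `φ ζ = 1`, `p • ζ ≠ 0`, `p • ζ ∈ D`, `p • z = (φ z).val • (p • ζ)`;
and `D = {z | p • z = 0}`. PROOF: `Z ⧸ D` has order `p`, so it is isomorphic to `ZMod p`
(`zmodCyclicAddEquiv` or `AddCommGroup` of prime order is cyclic); `φ` = projection followed by the isomorphism.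
`z - (φ z).val • ζ ∈ D` is killed by `p`. `p • ζ ≠ 0` since otherwise `p Z = 0`. `φ (p • z) = p • φ z = 0`. If
`p • z = 0` then `(φ z).val • (p • ζ) = 0`, `p • ζ` has order `p` (`p • (p • ζ) = 0` because `p • ζ ∈ D`), so
`φ z = 0`. -/
theorem exists_phi (p : ℕ) [Fact p.Prime] {Z : Type*} [AddCommGroup Z] [Finite Z] (D : AddSubgroup Z)
    (hD : ∀ d ∈ D, p • d = 0) (hc : Nat.card Z = p * Nat.card D) (hpZ : ∃ z : Z, p • z ≠ 0) :
    ∃ φ : Z →+ ZMod p, (∀ z, φ z = 0 ↔ z ∈ D) ∧ (∃ ζ, φ ζ = 1) ∧ (∀ z, φ z = 0 ↔ p • z = 0) ∧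
      ∀ ζ, φ ζ = 1 → p • ζ ≠ 0 ∧ p • ζ ∈ D ∧ ∀ z, p • z = (φ z).val • (p • ζ) := by
  have hcard : Nat.card (Z ⧸ D) = p := by
    have h1 := AddSubgroup.card_eq_card_quotient_mul_card_addSubgroup D
    have h2 : 0 < Nat.card D := Nat.card_pos
    rw [hc] at h1
    exact (Nat.eq_of_mul_eq_mul_right h2 h1).symm
  have hcardZ : Nat.card (ZMod p) = p := Nat.card_zmod p
  have e : (Z ⧸ D) ≃+ ZMod p := addEquivOfPrimeCardEq (p := p) hcard hcardZ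
  set φ : Z →+ ZMod p := e.toAddMonoidHom.comp (QuotientAddGroup.mk' D) with hφ
  have hφz : ∀ z, φ z = e (QuotientAddGroup.mk' D z) := fun _ => rfl
  have hker : ∀ z, φ z = 0 ↔ z ∈ D := by
    intro z
    rw [hφz, map_eq_zero_iff e e.injective, QuotientAddGroup.mk'_apply,
      QuotientAddGroup.eq_zero_iff]
  have hsurj : ∃ ζ, φ ζ = 1 := by
    obtain ⟨y, hy⟩ := e.surjective 1
    obtain ⟨z, hz⟩ := QuotientAddGroup.mk'_surjective D y
    exact ⟨z, by rw [hφz, hz, hy]⟩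
  have hrel : ∀ ζ, φ ζ = 1 → ∀ z, p • z = (φ z).val • (p • ζ) := by
    intro ζ hζ z
    have h1 : z - (φ z).val • ζ ∈ D := by
      rw [← hker, map_sub, map_nsmul, hζ, nsmul_one, ZMod.natCast_val, ZMod.cast_id', id, sub_self]
    have h2 := hD _ h1
    rw [nsmul_sub, sub_eq_zero] at h2
    rw [h2, smul_comm]
  have hmem : ∀ z, p • z ∈ D := by
    intro z
    rw [← hker, map_nsmul]
    simp
  have hne : ∀ ζ, φ ζ = 1 → p • ζ ≠ 0 := by
    intro ζ hζ h0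
    obtain ⟨z, hz⟩ := hpZ
    exact hz (by rw [hrel ζ hζ z, h0, smul_zero])
  refine ⟨φ, hker, hsurj, fun z => ⟨fun h => hD z ((hker z).1 h), fun h => ?_⟩, fun ζ hζ =>
    ⟨hne ζ hζ, hmem ζ, hrel ζ hζ⟩⟩
  obtain ⟨ζ, hζ⟩ := hsurj
  by_contra hz
  have h1 : (φ z).val • (p • ζ) = 0 := by rw [← hrel ζ hζ z, h]
  have h2 : p • (p • ζ) = 0 := hD _ (hmem ζ)
  have hord : addOrderOf (p • ζ) = p := addOrderOf_eq_prime h2 (hne ζ hζ)
  have h3 : p ∣ (φ z).val := hord.symm.dvd.trans (addOrderOf_dvd_of_nsmul_eq_zero h1)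
  have h4 : (φ z).val < p := ZMod.val_lt _
  have h5 : (φ z).val = 0 := Nat.eq_zero_of_dvd_of_lt h3 h4
  exact hz ((ZMod.val_eq_zero _).1 h5)

end MP_02e52a.M7
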