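import Pool.Agent.Lib.MP_02e52a_al.M7.Defs

namespace MP_02e52a.M7

open Module

/-- [M7 A3] Additive automorphism of the form `z ↦ z + φ z • l` (`φ : Z →+ ZMod p`, `p • l = 0`, `φ l = 0`). The
inverse is `z ↦ z - φ z • l`. -/
theorem exists_transvection (p : ℕ) [Fact p.Prime] {Z : Type*} [AddCommGroup Z] (φ : Z →+ ZMod p) (l : Z)
    (hl : p • l = 0) (hφ : φ l = 0) :
    ∃ c : Z ≃+ Z, ∀ z, c z = z + (φ z).val • l := by
  have hmod : ∀ n : ℕ, (n % p) • l = n • l := by
    intro n
    conv_rhs => rw [← Nat.mod_add_div n p]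
    rw [add_smul, mul_comm, mul_smul, hl, smul_zero, add_zero]
  have hadd : ∀ a b : ZMod p, (a + b).val • l = a.val • l + b.val • l := by
    intro a b
    rw [ZMod.val_add, hmod, add_smul]
  have hzero : ∀ n : ℕ, φ (n • l) = 0 := by
    intro n
    rw [map_nsmul, hφ, smul_zero]
  refine ⟨{ toFun := fun z => z + (φ z).val • l
            invFun := fun z => z - (φ z).val • l
            left_inv := fun z => ?_
            right_inv := fun z => ?_
            map_add' := fun z w => ?_ }, fun z => rfl⟩
  · simp only [map_add, hzero, add_zero]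
    exact add_sub_cancel_right _ _
  · simp only [map_sub, hzero, sub_zero]
    exact sub_add_cancel _ _
  · simp only [map_add, hadd]
    abel

end MP_02e52a.M7
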