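import Pool.Agent.Lib.MP_02e52a_al.M7.ExtHom

namespace MP_02e52a.M7

open Module

/-- [M7 A4] Extension of an automorphism of `D` to `Z`, `Z ⧸ D` of order `p`. PROOF: `ext_equiv` with `S = D`,
`ι = Fin 1` (or `Unit`), `x = ζ`, `N = p`, `y = w`. `gen`: `z - (φ z).val • ζ ∈ D`; `ind`: `k • ζ ∈ D → φ (k • ζ) = k = 0`
in `ZMod p`. `indy`: `k • w ∈ D` gives `k * φ w = 0`. -/
theorem exists_extend (p : ℕ) [Fact p.Prime] {Z : Type*} [AddCommGroup Z] [Finite Z] (D : AddSubgroup Z)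
    (φ : Z →+ ZMod p) (hφ : ∀ z, φ z = 0 ↔ z ∈ D) (ζ : Z) (hζ : φ ζ = 1) (hpζ : p • ζ ∈ D)
    (cD : D ≃+ D) (w : Z) (hw : φ w ≠ 0) (h : p • w = (cD ⟨p • ζ, hpζ⟩ : Z)) :
    ∃ c : Z ≃+ Z, (∀ d : D, c d = cD d) ∧ c ζ = w := by
  obtain ⟨F, hF1, hF2⟩ := ext_equiv (ι := Unit) D (fun _ => ζ) (fun _ => p) (fun _ => hpζ)
    (fun b => ⟨fun _ => ((φ b).val : ℤ), by
      rw [← hφ]
      simp only [Finset.univ_unique, Finset.sum_const, Finset.card_singleton, one_smul, map_sub,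
        map_zsmul, hζ]
      simp⟩)
    (fun k hk i => by
      rw [← hφ] at hk
      simp only [Finset.univ_unique, Finset.sum_singleton, map_zsmul, hζ] at hk
      rw [← ZMod.intCast_zmod_eq_zero_iff_dvd]
      simpa using hk)
    (cD : D →+ D) cD.injective (fun _ => w) (fun _ => h)
    (fun k hk i => by
      rw [← hφ] at hk
      simp only [Finset.univ_unique, Finset.sum_singleton, map_zsmul] at hk
      rw [zsmul_eq_mul, mul_eq_zero] at hk
      rw [← ZMod.intCast_zmod_eq_zero_iff_dvd]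
      rcases hk with hk | hk
      · simpa using hk
      · exact absurd hk hw)
  exact ⟨F, hF1, hF2 ()⟩

end MP_02e52a.M7
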