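import Pool.Agent.Lib.MP_02e52a_al.M7.Defs

namespace MP_02e52a.M7

open Module

private theorem aut_three_aux (p : ℕ) [Fact p.Prime] {E : Type*} [AddCommGroup E] [Finite E]
    [Module (ZMod p) E] (hc : Nat.card E = p ^ 3) (v : Fin 3 → E)
    (gen : AddSubgroup.closure (Set.range v) = ⊤) (M : Matrix (Fin 3) (Fin 3) (ZMod p))
    (hM : M.det ≠ 0) : ∃ c : E ≃+ E, ∀ i, c (v i) = ∑ j, (M i j).val • v j := by
  classical
  have hp := (Fact.out : p.Prime)
  have hfin : Module.Finite (ZMod p) E := Module.Finite.of_finite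
  have hfr : finrank (ZMod p) E = 3 := by
    have h1 : Nat.card E = Nat.card (ZMod p) ^ finrank (ZMod p) E :=
      Module.natCard_eq_pow_finrank (K := ZMod p) (V := E)
    rw [Nat.card_zmod, hc] at h1
    exact (Nat.pow_right_injective hp.two_le h1).symm
  have hspan : ⊤ ≤ Submodule.span (ZMod p) (Set.range v) := by
    rw [top_le_iff, Submodule.eq_top_iff']
    intro x
    have h1 : AddSubgroup.closure (Set.range v) ≤
        (Submodule.span (ZMod p) (Set.range v)).toAddSubgroup := by
      rw [AddSubgroup.closure_le]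
      exact Submodule.subset_span
    have h2 : x ∈ AddSubgroup.closure (Set.range v) := by rw [gen]; exact AddSubgroup.mem_top x
    exact h1 h2
  let b : Basis (Fin 3) (ZMod p) E :=
    basisOfTopLeSpanOfCardEqFinrank v hspan (by rw [hfr, Fintype.card_fin])
  have hb : ∀ i, b i = v i := fun i => by
    rw [show b i = v i from congrFun (coe_basisOfTopLeSpanOfCardEqFinrank v hspan _) i]
  have hdet : IsUnit (M.transpose).det := by
    rw [Matrix.det_transpose]
    exact isUnit_iff_ne_zero.2 hM
  let e : E ≃ₗ[ZMod p] E := Matrix.toLinearEquiv b M.transpose hdet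
  refine ⟨e.toAddEquiv, fun i => ?_⟩
  have h1 : e (v i) = ∑ j, M i j • v j := by
    have h2 : e (v i) = Matrix.toLin b b M.transpose (b i) := by rw [hb]; rfl
    rw [h2, Matrix.toLin_self]
    exact Finset.sum_congr rfl fun j _ => by rw [Matrix.transpose_apply, hb]
  have h4 : e.toAddEquiv (v i) = e (v i) := rfl
  rw [h4, h1]
  refine Finset.sum_congr rfl fun j _ => ?_
  rw [← Nat.cast_smul_eq_nsmul (ZMod p), ZMod.natCast_zmod_val]

/-- [M7 A5] The same as `exists_extend` with `cD` given on three generators: `D` killed by `p` with basis `d 0, d 1, d 2`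
(`Nat.card D = p ^ 3` and generated by the `d i`), `cD (d i) = ∑ M i j • d j` for a matrix `M` over `ZMod p` with
nonzero determinant. Here only the construction of `cD`. PROOF: `D` is a `ZMod p`-vector space of dimension 3 with basis
`d`; `cD` is the linear map with matrix `M`. -/
theorem exists_aut_three (p : ℕ) [Fact p.Prime] {Z : Type*} [AddCommGroup Z] [Finite Z] (D : AddSubgroup Z)
    (hD : ∀ d ∈ D, p • d = 0) (hc : Nat.card D = p ^ 3) (d : Fin 3 → Z) (hd : ∀ i, d i ∈ D)
    (gen : AddSubgroup.closure (Set.range d) = D) (M : Matrix (Fin 3) (Fin 3) (ZMod p)) (hM : M.det ≠ 0) :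
    ∃ cD : D ≃+ D, ∀ i, (cD ⟨d i, hd i⟩ : Z) = ∑ j, (M i j).val • d j := by
  have hD' : ∀ x : D, p • x = 0 := fun x => Subtype.ext (by
    rw [AddSubgroup.coe_nsmul]; exact hD x x.2)
  have hcl : AddSubgroup.closure (Set.range (fun i => (⟨d i, hd i⟩ : D))) = ⊤ := by
    have h1 : (AddSubgroup.closure (Set.range (fun i => (⟨d i, hd i⟩ : D)))).map D.subtype =
        AddSubgroup.closure (Set.range d) := by
      rw [AddMonoidHom.map_closure]
      congr 1
      rw [← Set.range_comp]
      rfl
    rw [eq_top_iff]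
    intro x _
    have h2 : (x : Z) ∈
        (AddSubgroup.closure (Set.range (fun i => (⟨d i, hd i⟩ : D)))).map D.subtype := by
      rw [h1, gen]
      exact x.2
    obtain ⟨y, hy, hyx⟩ := h2
    have : y = x := Subtype.ext hyx
    rwa [← this]
  obtain ⟨c, hcc⟩ := @aut_three_aux p _ D _ _ (AddCommGroup.zmodModule hD') hc
    (fun i => (⟨d i, hd i⟩ : D)) hcl M hM
  refine ⟨c, fun i => ?_⟩
  rw [hcc i]
  push_cast
  rfl

end MP_02e52a.M7
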