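import Pool.Agent.Lib.MP_02e52a_al.M7.Defs

namespace MP_02e52a.M7

open Module

/-- [M7 A6] Linear automorphism of a three-dimensional space given on a basis by an invertible matrix. -/
theorem exists_equiv_three (p : ℕ) [Fact p.Prime] {V : Type*} [AddCommGroup V] [Module (ZMod p) V]
    (hV : finrank (ZMod p) V = 3) (k : Fin 3 → V) (hk : LinearIndependent (ZMod p) k)
    (M : Matrix (Fin 3) (Fin 3) (ZMod p)) (hM : M.det ≠ 0) :
    ∃ g : V ≃+ V, ∀ i, g (k i) = ∑ j, M i j • k j := by
  have hcard : Fintype.card (Fin 3) = finrank (ZMod p) V := by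
    rw [hV, Fintype.card_fin]
  set b : Basis (Fin 3) (ZMod p) V := basisOfLinearIndependentOfCardEqFinrank hk hcard with hb
  have hbk : ∀ i, b i = k i := fun i => by
    rw [hb, coe_basisOfLinearIndependentOfCardEqFinrank]
  have hdet : IsUnit (M.transpose).det := by
    rw [Matrix.det_transpose]
    exact isUnit_iff_ne_zero.2 hM
  refine ⟨(Matrix.toLinearEquiv b M.transpose hdet).toAddEquiv, fun i => ?_⟩
  have h1 : (Matrix.toLinearEquiv b M.transpose hdet) (b i) = ∑ j, M i j • b j := by
    have : (Matrix.toLinearEquiv b M.transpose hdet) (b i) =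
        Matrix.toLin b b M.transpose (b i) := rfl
    rw [this, Matrix.toLin_self]
    rfl
  have h2 : (Matrix.toLinearEquiv b M.transpose hdet) (k i) = ∑ j, M i j • k j := by
    rw [← hbk i, h1]
    exact Finset.sum_congr rfl fun j _ => by rw [hbk]
  exact h2

end MP_02e52a.M7
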