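import Pool.Agent.Lib.MP_02e52a_al.M7.Defs

namespace MP_02e52a.M7

open Module

private lemma A7_ind {p : ℕ} [Fact p.Prime] {V : Type*} [AddCommGroup V] [Module (ZMod p) V] {n : ℕ}
    (k : Fin n → V) (hspan : Submodule.span (ZMod p) (Set.range k) = ⊤) (P : V → Prop)
    (h0 : P 0) (hadd : ∀ u v, P u → P v → P (u + v)) (hk : ∀ i, P (k i)) : ∀ v, P v := by
  intro v
  have hv : v ∈ Submodule.span (ZMod p) (Set.range k) := by rw [hspan]; trivial
  have hn : ∀ (m : ℕ) (x : V), P x → P (m • x) := by
    intro m x hx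
    induction m with
    | zero => rw [zero_smul]; exact h0
    | succ m ih => rw [succ_nsmul]; exact hadd _ _ ih hx
  induction hv using Submodule.span_induction with
  | mem x hx =>
    obtain ⟨i, rfl⟩ := hx
    exact hk i
  | zero => exact h0
  | add x y _ _ hx hy => exact hadd x y hx hy
  | smul a x _ hx =>
    have h : a • x = a.val • x := by
      rw [← Nat.cast_smul_eq_nsmul (ZMod p) a.val x, ZMod.natCast_zmod_val]
    rw [h]
    exact hn _ _ hx

/-- [M7 A7] Criterion for `NonFree` on a basis, `dim V = 3`. If `(g, c)` is compatible with `β` on the pairs of basis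
vectors and with `π` modulo `p Z` on the basis vectors, it is compatible everywhere. PROOF: both sides of the
`β` condition are biadditive and alternating; for `π` use `t.add` (so `v ↦ t.π (g v) - c (t.π v)` is additive modulo the subgroup
`p Z` - induct over the coordinates; the set of `v` with the property is a subgroup containing the basis, hence a
`ZMod p`-subspace). -/
theorem nonFree_of_basis (p : ℕ) [Fact p.Prime] {V Z : Type*} [AddCommGroup V] [AddCommGroup Z]
    [Module (ZMod p) V] (t : TD p V Z) {n : ℕ} (k : Fin n → V)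
    (hspan : Submodule.span (ZMod p) (Set.range k) = ⊤) (g : V ≃+ V) (c : Z ≃+ Z) (hg : ∃ v, g v ≠ v)
    (h1 : ∀ i j, c (t.β (k i) (k j)) = t.β (g (k i)) (g (k j)))
    (h2 : ∀ i, ∃ z, t.π (g (k i)) - c (t.π (k i)) = p • z) :
    t.NonFree := by
  refine ⟨g, c, hg, fun u v => ?_, ?_⟩
  · have hA : ∀ u, ∀ j, c (t.β u (k j)) = t.β (g u) (g (k j)) := by
      refine A7_ind k hspan _ ?_ ?_ ?_
      · intro j
        simp
      · intro x y hx hy j
        rw [map_add, AddMonoidHom.add_apply, map_add, hx j, hy j, map_add, map_add,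
          AddMonoidHom.add_apply]
      · intro i j
        exact h1 i j
    revert v
    refine A7_ind k hspan _ ?_ ?_ ?_
    · simp
    · intro x y hx hy
      rw [map_add, map_add, hx, hy, map_add, map_add]
    · intro j
      exact hA u j
  · refine A7_ind k hspan _ ?_ ?_ ?_
    · obtain ⟨z, hz⟩ := t.add 0 0
      have h3 : t.π 0 = p • (-z) := by
        rw [add_zero, sub_self, zero_sub] at hz
        rw [smul_neg, ← hz, neg_neg]
      refine ⟨-z - c (-z), ?_⟩
      rw [map_zero, h3, map_nsmul, smul_sub]
    · rintro x y ⟨z1, hz1⟩ ⟨z2, hz2⟩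
      obtain ⟨z3, hz3⟩ := t.add x y
      obtain ⟨z4, hz4⟩ := t.add (g x) (g y)
      refine ⟨z1 + z2 + z4 - c z3, ?_⟩
      have e1 : t.π (x + y) = t.π x + t.π y + p • z3 := by rw [← hz3]; abel
      have e2 : t.π (g (x + y)) = t.π (g x) + t.π (g y) + p • z4 := by
        rw [map_add, ← hz4]; abel
      rw [e1, e2, map_add, map_add, map_nsmul, smul_sub, smul_add, smul_add, ← hz1, ← hz2]
      abel
    · intro i
      exact h2 i

end MP_02e52a.M7
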