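import Pool.Agent.Lib.MP_02e52a_al.M7.ExtHom

namespace MP_02e52a.M7

private lemma A8_ind (p : ℕ) [Fact p.Prime] {Z : Type*} [AddCommGroup Z] [Finite Z] (hZ : Nat.card Z = p ^ 4)
    (ζ z l : Z) (hζ : (p ^ 2) • ζ = 0) (hz : p • z = 0) (hl : p • l = 0)
    (gen : ∀ x : Z, ∃ i j k : ℤ, x = i • ζ + j • z + k • l) (i j k : ℤ)
    (h : i • ζ + j • z + k • l = 0) : ((p ^ 2 : ℕ) : ℤ) ∣ i ∧ (p : ℤ) ∣ j ∧ (p : ℤ) ∣ k := by
  have hp : p.Prime := Fact.out
  have hNe : NeZero (p ^ 2) := ⟨pow_ne_zero 2 hp.ne_zero⟩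
  let φ1 : ZMod (p ^ 2) →+ Z := ZMod.lift (p ^ 2) ⟨zmultiplesHom Z ζ, by
    show ((p ^ 2 : ℕ) : ℤ) • ζ = 0
    rw [natCast_zsmul]; exact hζ⟩
  let φ2 : ZMod p →+ Z := ZMod.lift p ⟨zmultiplesHom Z z, by
    show ((p : ℕ) : ℤ) • z = 0
    rw [natCast_zsmul]; exact hz⟩
  let φ3 : ZMod p →+ Z := ZMod.lift p ⟨zmultiplesHom Z l, by
    show ((p : ℕ) : ℤ) • l = 0
    rw [natCast_zsmul]; exact hl⟩
  have e1 : ∀ n : ℤ, φ1 (n : ZMod (p ^ 2)) = n • ζ := fun n => by
    simp only [φ1, ZMod.lift_coe]; rfl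
  have e2 : ∀ n : ℤ, φ2 (n : ZMod p) = n • z := fun n => by
    simp only [φ2, ZMod.lift_coe]; rfl
  have e3 : ∀ n : ℤ, φ3 (n : ZMod p) = n • l := fun n => by
    simp only [φ3, ZMod.lift_coe]; rfl
  let Φ : ZMod (p ^ 2) × ZMod p × ZMod p →+ Z :=
    AddMonoidHom.coprod φ1 (AddMonoidHom.coprod φ2 φ3)
  have eΦ : ∀ i j k : ℤ, Φ ((i : ZMod (p ^ 2)), (j : ZMod p), (k : ZMod p)) = i • ζ + j • z + k • l := by
    intro i j k
    simp only [Φ, AddMonoidHom.coprod_apply, e1, e2, e3, add_assoc]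
  have hsurj : Function.Surjective Φ := by
    intro x
    obtain ⟨i, j, k, hx⟩ := gen x
    exact ⟨_, (eΦ i j k).trans hx.symm⟩
  have hcard : Nat.card (ZMod (p ^ 2) × ZMod p × ZMod p) = Nat.card Z := by
    rw [hZ, Nat.card_prod, Nat.card_prod, Nat.card_zmod, Nat.card_zmod]; ring
  have hbij : Function.Bijective Φ := (Nat.bijective_iff_surjective_and_card _).2 ⟨hsurj, hcard⟩
  have h0 : Φ ((i : ZMod (p ^ 2)), (j : ZMod p), (k : ZMod p)) = Φ 0 := by
    rw [eΦ, h, map_zero]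
  have h1 := hbij.1 h0
  rw [Prod.ext_iff, Prod.ext_iff] at h1
  obtain ⟨h2, h3, h4⟩ := h1
  exact ⟨(ZMod.intCast_zmod_eq_zero_iff_dvd _ _).1 h2, (ZMod.intCast_zmod_eq_zero_iff_dvd _ _).1 h3,
    (ZMod.intCast_zmod_eq_zero_iff_dvd _ _).1 h4⟩

private lemma A8_cop (p : ℕ) [Fact p.Prime] (a : ZMod p) (ha : a ≠ 0) : IsCoprime (p : ℤ) (a.val : ℤ) := by
  have hp : p.Prime := Fact.out
  rw [Nat.isCoprime_iff_coprime]
  refine (Nat.Prime.coprime_iff_not_dvd hp).2 fun h => ?_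
  have h1 : a.val < p := ZMod.val_lt a
  have h2 : a.val = 0 := Nat.eq_zero_of_dvd_of_lt h h1
  exact ha ((ZMod.val_eq_zero a).1 h2)

/-- [M7 A8] Automorphisms of `Z ≅ ZMod (p^2) × ZMod p × ZMod p` given on the generators `ζ, z, l`. PROOF. The map
`ZMod (p^2) × ZMod p × ZMod p → Z` given by the generators is onto (`gen`) and both sides have order `p^4`, so
`i • ζ + j • z + k • l = 0` implies `p^2 ∣ i`, `p ∣ j`, `p ∣ k`. Use `ext_equiv` with `S = ⊥`, `x = ![ζ, z, l]`, `N = ![p^2, p, p]`,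
`y = ![a.val • ζ + b.val • z, c.val • z, d.val • l + e.val • (p • ζ) + f.val • z]` (or `ext_hom` with `S = ⊥` and then surjectivity). `indy`:
if `i y0 + j y1 + k y2 = 0` then comparing coefficients: `p ∣ k d` so `p ∣ k`; `p^2 ∣ i a + k e p`, so `p^2 ∣ i a` (as `p ∣ k`), `p^2 ∣ i`; then
`p ∣ j c`. (`a.val, c.val, d.val` are prime to `p`.) -/
theorem exists_aut_Z (p : ℕ) [Fact p.Prime] {Z : Type*} [AddCommGroup Z] [Finite Z] (hZ : Nat.card Z = p ^ 4)
    (ζ z l : Z) (hζ : (p ^ 2) • ζ = 0) (hz : p • z = 0) (hl : p • l = 0)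
    (gen : ∀ x : Z, ∃ i j k : ℤ, x = i • ζ + j • z + k • l) (a b c d e f : ZMod p)
    (ha : a ≠ 0) (hc : c ≠ 0) (hd : d ≠ 0) :
    ∃ s : Z ≃+ Z, s ζ = a.val • ζ + b.val • z ∧ s z = c.val • z ∧
      s l = d.val • l + e.val • (p • ζ) + f.val • z := by
  have hp : p.Prime := Fact.out
  have ca := A8_cop p a ha
  have cc := A8_cop p c hc
  have cd := A8_cop p d hd
  have hpζ : p • (p • ζ) = 0 := by rw [smul_smul, ← pow_two]; exact hζ
  obtain ⟨F, _, hF⟩ := ext_equiv (B := Z) (ι := Fin 3) (⊥ : AddSubgroup Z) ![ζ, z, l] ![p ^ 2, p, p]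
    (by
      intro i
      fin_cases i
      · simpa using hζ
      · simpa using hz
      · simpa using hl)
    (by
      intro x
      obtain ⟨i, j, k, hx⟩ := gen x
      refine ⟨![i, j, k], ?_⟩
      rw [AddSubgroup.mem_bot, sub_eq_zero, hx]
      simp [Fin.sum_univ_three])
    (by
      intro k hk
      rw [AddSubgroup.mem_bot] at hk
      have hk' : k 0 • ζ + k 1 • z + k 2 • l = 0 := by
        simpa [Fin.sum_univ_three] using hk
      obtain ⟨h1, h2, h3⟩ := A8_ind p hZ ζ z l hζ hz hl gen _ _ _ hk'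
      intro i
      fin_cases i
      · exact h1
      · exact h2
      · exact h3)
    (AddMonoidHom.id _) (fun _ _ h => h)
    ![a.val • ζ + b.val • z, c.val • z, d.val • l + e.val • (p • ζ) + f.val • z]
    (by
      intro i
      fin_cases i
      · show (p ^ 2) • (a.val • ζ + b.val • z) = (p ^ 2) • ζ
        rw [hζ, smul_add, smul_comm, hζ, smul_comm (p ^ 2) b.val z, pow_two, mul_smul, hz]; simp
      · show p • (c.val • z) = p • z
        rw [hz, smul_comm, hz, smul_zero]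
      · show p • (d.val • l + e.val • (p • ζ) + f.val • z) = p • l
        rw [hl, smul_add, smul_add, smul_comm p d.val l, hl, smul_comm p e.val, hpζ,
          smul_comm p f.val z, hz]; simp)
    (by
      intro k hk
      rw [AddSubgroup.mem_bot] at hk
      have hk' : (k 0 * a.val + k 2 * e.val * p) • ζ + (k 0 * b.val + k 1 * c.val + k 2 * f.val) • z +
          (k 2 * d.val) • l = 0 := by
        rw [← hk]
        simp only [Fin.sum_univ_three, Matrix.cons_val_zero, Matrix.cons_val_one, Matrix.cons_val_two,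
          Matrix.cons_val, Matrix.head_cons, Matrix.tail_cons]
        simp only [← natCast_zsmul, smul_add, smul_smul, add_smul, mul_assoc]
        abel
      obtain ⟨h1, h2, h3⟩ := A8_ind p hZ ζ z l hζ hz hl gen _ _ _ hk'
      have g3 : (p : ℤ) ∣ k 2 := cd.dvd_of_dvd_mul_right h3
      have g1 : ((p ^ 2 : ℕ) : ℤ) ∣ k 0 := by
        have h4 : ((p ^ 2 : ℕ) : ℤ) ∣ k 2 * e.val * p := by
          obtain ⟨m, hm⟩ := g3
          exact ⟨m * e.val, by rw [hm]; push_cast; ring⟩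
        have h5 : ((p ^ 2 : ℕ) : ℤ) ∣ k 0 * a.val := (dvd_add_left h4).1 h1
        have h6 : IsCoprime ((p ^ 2 : ℕ) : ℤ) (a.val : ℤ) := by push_cast; exact ca.pow_left
        exact h6.dvd_of_dvd_mul_right h5
      have g2 : (p : ℤ) ∣ k 1 := by
        have h4 : (p : ℤ) ∣ k 0 * b.val := by
          have : (p : ℤ) ∣ k 0 := (Dvd.intro_left _ (by push_cast; ring : (p : ℤ) * p = ((p ^ 2 : ℕ) : ℤ))).trans g1
          exact this.mul_right _
        have h5 : (p : ℤ) ∣ k 2 * f.val := g3.mul_right _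
        have h6 : (p : ℤ) ∣ k 0 * b.val + k 1 * c.val := (dvd_add_left h5).1 h2
        have h7 : (p : ℤ) ∣ k 1 * c.val := (dvd_add_right h4).1 h6
        exact cc.dvd_of_dvd_mul_right h7
      intro i
      fin_cases i
      · exact g1
      · exact g2
      · exact g3)
  refine ⟨F, ?_, ?_, ?_⟩
  · simpa using hF 0
  · simpa using hF 1
  · simpa using hF 2

end MP_02e52a.M7
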