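import Pool.Agent.Lib.MP_02e52a_al.M7.A1
import Pool.Agent.Lib.MP_02e52a_al.M7.A2
import Pool.Agent.Lib.MP_02e52a_al.M7.A3
import Pool.Agent.Lib.MP_02e52a_al.M7.A4
import Pool.Agent.Lib.MP_02e52a_al.M7.A5
import Pool.Agent.Lib.MP_02e52a_al.M7.A6
import Pool.Agent.Lib.MP_02e52a_al.M7.A7
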