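import Pool.Agent.Lib.MP_02e52a_al.M7.Defs
import Pool.Agent.Lib.MP_02e52a_al.M7.GrpDefs

namespace MP_02e52a.M7

/-- Baer correspondence: `φ : G ≃ A` identifies the group `G` with the Lie ring `(A, L)`;
`x y = x + y + k [x, y]` where `2 k` acts as `1` on the values of the bracket. -/
structure IsBaer {G A : Type*} [Group G] [AddCommGroup A] (L : LR A) (φ : G ≃ A) (k : ℕ) : Prop where
  mul : ∀ x y, φ (x * y) = φ x + φ y + k • L.b (φ x) (φ y)
  two : ∀ x y, (2 * k) • L.b x y = L.b x y

end MP_02e52a.M7
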