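import Pool.Agent.Lib.MP_02e52a_al.M7.LiftIso

namespace MP_02e52a.M7

private noncomputable def brIn {A : Type*} [AddCommGroup A] (L : LR A) (x : A) :
    (A ⧸ L.Z) →+ L.Z :=
  QuotientAddGroup.lift L.Z ((L.b x).codRestrict L.Z (fun y => L.b_mem_Z x y))
    (fun _ hy => Subtype.ext ((L.mem_Z'.1 hy) x))

private theorem brIn_mk {A : Type*} [AddCommGroup A] (L : LR A) (x y : A) :
    ((brIn L x (y : A ⧸ L.Z) : L.Z) : A) = L.b x y := rfl

private noncomputable def brOut {A : Type*} [AddCommGroup A] (L : LR A) :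
    A →+ (A ⧸ L.Z) →+ L.Z :=
  AddMonoidHom.mk' (brIn L) (by
    intro x y
    refine AddMonoidHom.ext fun v => ?_
    obtain ⟨w, rfl⟩ := QuotientAddGroup.mk_surjective v
    refine Subtype.ext ?_
    rw [AddMonoidHom.add_apply, AddSubgroup.coe_add, brIn_mk, brIn_mk, brIn_mk, map_add,
      AddMonoidHom.add_apply])

/-- [M7 X3] The data `(V, Z, β, π)` attached to a Lie ring with `p A ≤ Z`. PROOF: `β` is obtained by lifting
`L.b` to the quotient in both variables (`QuotientAddGroup.lift`, using `L.mem_Z`, `L.mem_Z'`), with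
values in `L.Z` by `L.b_mem_Z`. `π v = ⟨p • Quotient.out v, _⟩` (any section). `add`:
`p • out (u+v) - p • out u - p • out v = p • (out (u+v) - out u - out v)` and the bracket argument is in `L.Z`. -/
theorem exists_td {A : Type*} [AddCommGroup A] (p : ℕ) (L : LR A) (hp : ∀ x, p • x ∈ L.Z) :
    ∃ t : TD p (A ⧸ L.Z) L.Z, (∀ x y : A, ((t.β (x : A ⧸ L.Z) (y : A ⧸ L.Z) : L.Z) : A) = L.b x y) ∧
      ∀ x : A, ∃ z ∈ L.Z, p • x - ((t.π (x : A ⧸ L.Z) : L.Z) : A) = p • z := by
  have hout : ∀ v : A ⧸ L.Z, ((Quotient.out v : A) : A ⧸ L.Z) = v := fun v =>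
    QuotientAddGroup.out_eq' v
  have hker : L.Z ≤ (brOut L).ker := by
    intro x hx
    rw [AddMonoidHom.mem_ker]
    refine AddMonoidHom.ext fun v => ?_
    obtain ⟨w, rfl⟩ := QuotientAddGroup.mk_surjective v
    refine Subtype.ext ?_
    exact hx w
  refine ⟨{ β := QuotientAddGroup.lift L.Z (brOut L) hker
            alt := ?_
            π := fun v => ⟨p • (Quotient.out v : A), hp _⟩
            add := ?_ }, ?_, ?_⟩
  · intro v
    obtain ⟨w, rfl⟩ := QuotientAddGroup.mk_surjective v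
    exact Subtype.ext (L.alt w)
  · intro u v
    refine ⟨⟨(Quotient.out (u + v) : A) - Quotient.out u - Quotient.out v, ?_⟩, ?_⟩
    · rw [← QuotientAddGroup.eq_zero_iff]
      have e : (((Quotient.out (u + v) : A) - Quotient.out u - Quotient.out v : A) : A ⧸ L.Z) =
          ((Quotient.out (u + v) : A) : A ⧸ L.Z) - ((Quotient.out u : A) : A ⧸ L.Z) -
            ((Quotient.out v : A) : A ⧸ L.Z) := rfl
      rw [e, hout, hout, hout]
      abel
    · refine Subtype.ext ?_
      simp only [AddSubgroup.coe_sub, AddSubgroup.coe_nsmul, smul_sub]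
  · intro x y
    rfl
  · intro x
    refine ⟨x - Quotient.out (x : A ⧸ L.Z), ?_, ?_⟩
    · rw [← QuotientAddGroup.eq_zero_iff]
      have e : ((x - (Quotient.out (x : A ⧸ L.Z) : A) : A) : A ⧸ L.Z) =
          (x : A ⧸ L.Z) - ((Quotient.out (x : A ⧸ L.Z) : A) : A ⧸ L.Z) := rfl
      rw [e, hout, sub_self]
    · rw [smul_sub]

/-- [M7 X3] If all automorphisms are central there is no compatible pair `(g, c)` with `g ≠ 1`. PROOF: apply
`lift_iso` with `L' = L` to `g, c`: `h1` from the compatibility with `β` (and `hβ`), `h2`: for `x'` in the class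
`g x`: `p • x' = t.π (g x) + p • z₁`, `p • x = t.π x + p • z₂`, `t.π (g x) - c (t.π x) = p • z₃`. We get an
automorphism `e` with class of `e x` equal to `g x`; by `L.Rig` `e x - x ∈ L.Z`, so `g x = x`
for all classes: contradiction. -/
theorem not_nonFree {A : Type*} [AddCommGroup A] [Finite A] (p : ℕ) [Fact p.Prime] (L : LR A)
    (hp : ∀ x, p • x ∈ L.Z) (hr : L.Rig) (t : TD p (A ⧸ L.Z) L.Z)
    (hβ : ∀ x y : A, ((t.β (x : A ⧸ L.Z) (y : A ⧸ L.Z) : L.Z) : A) = L.b x y)
    (hπ : ∀ x : A, ∃ z ∈ L.Z, p • x - ((t.π (x : A ⧸ L.Z) : L.Z) : A) = p • z) :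
    ¬ t.NonFree := by
  rintro ⟨g, c, ⟨v, hv⟩, hb, hpi⟩
  obtain ⟨e, he1, he2, -⟩ := lift_iso p L L hp g c
    (by
      intro x y x' y' hx hy
      have h3 : (⟨L.b x y, L.b_mem_Z x y⟩ : L.Z) = t.β (x : A ⧸ L.Z) (y : A ⧸ L.Z) :=
        Subtype.ext (hβ x y).symm
      rw [h3, hb, ← hx, ← hy, hβ])
    (by
      intro x x' hx
      obtain ⟨z1, hz1, e1⟩ := hπ x'
      obtain ⟨z2, hz2, e2⟩ := hπ x
      obtain ⟨z3, e3⟩ := hpi (x : A ⧸ L.Z)
      have h3 : (⟨p • x, hp x⟩ : L.Z) = t.π (x : A ⧸ L.Z) + p • (⟨z2, hz2⟩ : L.Z) := by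
        refine Subtype.ext ?_
        simp only [AddSubgroup.coe_add, AddSubgroup.coe_nsmul]
        rw [← e2]; abel
      refine ⟨z1 + (z3 : A) - ((c ⟨z2, hz2⟩ : L.Z) : A), ?_, ?_⟩
      · exact L.Z.sub_mem (L.Z.add_mem hz1 z3.2) (c ⟨z2, hz2⟩).2
      · rw [h3, map_add, map_nsmul]
        have e3' := congrArg (fun w : L.Z => (w : A)) e3
        simp only [AddSubgroup.coe_sub, AddSubgroup.coe_nsmul] at e3'
        simp only [AddSubgroup.coe_add, AddSubgroup.coe_nsmul]
        rw [hx] at e1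
        rw [smul_sub, smul_add, ← e1, ← e3']
        abel)
  apply hv
  obtain ⟨w, rfl⟩ := QuotientAddGroup.mk_surjective v
  have h4 := he2 w
  rw [← h4]
  have h5 := hr e he1 w
  rw [← QuotientAddGroup.eq_zero_iff] at h5
  have e6 : ((e w - w : A) : A ⧸ L.Z) = ((e w : A) : A ⧸ L.Z) - (w : A ⧸ L.Z) := rfl
  rw [e6, sub_eq_zero] at h5
  exact h5

/-- [M7 X3] Commutative automorphism group: all automorphisms are central. PROOF: let `e` be an automorphism
and `a : A`. The map `τ x = x + L.b a x` is an automorphism (inverse `x - L.b a x`; it preserves the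
bracket because brackets are central and `L.b a (L.b x y) = 0`). From `e (τ x) = τ (e x)`:
`e (L.b a x) = L.b a (e x)`, and `e (L.b a x) = L.b (e a) (e x)`, so `L.b (e a - a) (e x) = 0` for all `x`, i.e.
`e a - a ∈ L.Z` as `e` is surjective. -/
theorem rig_of_comm {A : Type*} [AddCommGroup A] (L : LR A) (hc : L.Comm) : L.Rig := by
  intro e he a
  have nil' : ∀ x y z, L.b x (L.b y z) = 0 := fun x y z => by
    rw [L.skew, L.nil, neg_zero]
  let τ : A ≃+ A :=
    { toFun := fun x => x + L.b a x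
      invFun := fun x => x - L.b a x
      left_inv := by
        intro x
        simp only [map_add, nil', add_zero, add_sub_cancel_right]
      right_inv := by
        intro x
        simp only [map_sub, nil', sub_zero, sub_add_cancel]
      map_add' := by
        intro x y
        simp only [map_add]
        abel }
  have hτ : L.IsAut τ := by
    intro x y
    change L.b x y + L.b a (L.b x y) = L.b (x + L.b a x) (y + L.b a y)
    simp only [map_add, AddMonoidHom.add_apply, nil', L.nil, add_zero]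
  rw [L.mem_Z]
  intro y
  obtain ⟨x, rfl⟩ := e.surjective y
  have h1 := hc e τ he hτ x
  change e (x + L.b a x) = e x + L.b a (e x) at h1
  rw [map_add, add_right_inj, he] at h1
  rw [map_sub, AddMonoidHom.sub_apply, h1, sub_self]

end MP_02e52a.M7
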