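import Pool.Agent.Lib.MP_02e52a_al.M7.Defs

namespace MP_02e52a.M7

private theorem cnt_gens0 {V : Type*} [AddCommGroup V] [Finite V] (p : ℕ) [Fact p.Prime]
    [Module (ZMod p) V] {n : ℕ} (hn : Nat.card V = p ^ n) :
    ∃ g : Fin n → V, ∀ v, ∃ c : Fin n → ℤ, v = ∑ i, c i • g i := by
  have hf : Module.finrank (ZMod p) V = n := by
    have h1 := Module.natCard_eq_pow_finrank (K := ZMod p) (V := V)
    rw [hn, Nat.card_zmod] at h1
    exact (Nat.pow_right_injective (Fact.out : p.Prime).two_le h1).symm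
  let B := Module.finBasisOfFinrankEq (ZMod p) V hf
  refine ⟨B, fun v => ⟨fun i => ((B.repr v i).val : ℤ), ?_⟩⟩
  conv_lhs => rw [← B.sum_repr v]
  refine Finset.sum_congr rfl fun i _ => ?_
  rw [natCast_zsmul, ← Nat.cast_smul_eq_nsmul (ZMod p), ZMod.natCast_zmod_val]

private theorem cnt_gens {V : Type*} [AddCommGroup V] [Finite V] (p : ℕ) [Fact p.Prime]
    (h : ∀ v : V, p • v = 0) {n : ℕ} (hn : Nat.card V = p ^ n) :
    ∃ g : Fin n → V, ∀ v, ∃ c : Fin n → ℤ, v = ∑ i, c i • g i :=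
  @cnt_gens0 V _ _ p _ (AddCommGroup.zmodModule h) n hn

private theorem cnt_red {A : Type*} [AddCommGroup A] (p : ℕ) [Fact p.Prime] {u : A}
    (hu : p • u = 0) (i : ℤ) : ∃ r : Fin p, i • u = (r : ℕ) • u := by
  have hp : (0 : ℤ) < p := by exact_mod_cast (Fact.out : p.Prime).pos
  have h0 := Int.emod_nonneg i hp.ne'
  have h1 := Int.emod_lt_of_pos i hp
  refine ⟨⟨(i % p).toNat, by omega⟩, ?_⟩
  have h2 : ((i % p).toNat : ℤ) = i % p := Int.toNat_of_nonneg h0
  rw [← natCast_zsmul]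
  simp only
  rw [h2]
  conv_lhs => rw [← Int.emod_add_mul_ediv i p]
  rw [add_zsmul, mul_comm, mul_zsmul, natCast_zsmul, hu, smul_zero, add_zero]

/-- [M7 CNT] PROOF. `p x ∈ Z` for all `x`, `V = A ⧸ Z` is a `ZMod p`-space of dimension `n`, `|Z| = p^(7-n)`, `D` a `ZMod p`-space of order `p^m`, `D ≤ Z` so `m ≤ 7 - n`; `m ≥ 2` because groups of order `1`, `p` are cyclic.
`n ≥ 3`: if `n ≤ 2` then `A = Z + ℤ x + ℤ y` for some `x, y` and `D = ℤ b x y` is cyclic. `n ≤ 5` from `2 ≤ m ≤ 7 - n`. If `n = 3`, `A = Z + ℤ x + ℤ y + ℤ z`, `D` is generated by three elements killed by `p`, so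
`|D| ≤ p^3`. -/
theorem counting {A : Type*} [AddCommGroup A] [Finite A] (p : ℕ) [Fact p.Prime] (L : LR A)
    (hA : Nat.card A = p ^ 7) (hcyc : ¬ IsAddCyclic L.D) (hD : ∀ d ∈ L.D, p • d = 0) :
    (∀ x, p • x ∈ L.Z) ∧ ∃ n m : ℕ, Nat.card (A ⧸ L.Z) = p ^ n ∧ Nat.card L.Z = p ^ (7 - n) ∧
      Nat.card L.D = p ^ m ∧ 2 ≤ m ∧ m ≤ 7 - n ∧ 3 ≤ n ∧ n ≤ 5 ∧ (n = 3 → m ≤ 3) := by
  have hp : p.Prime := Fact.out
  have hZ : ∀ x, p • x ∈ L.Z := by
    intro x
    rw [L.mem_Z]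
    intro y
    rw [map_nsmul, AddMonoidHom.nsmul_apply]
    exact hD _ (L.b_mem_D x y)
  refine ⟨hZ, ?_⟩
  have hmul := AddSubgroup.card_eq_card_quotient_mul_card_addSubgroup L.Z
  rw [hA] at hmul
  obtain ⟨n, hn7, hn⟩ := (Nat.dvd_prime_pow hp).1 (Dvd.intro _ hmul.symm)
  have hcZ : Nat.card L.Z = p ^ (7 - n) := by
    rw [hn] at hmul
    have h1 : p ^ n * p ^ (7 - n) = p ^ 7 := by
      rw [← pow_add]
      congr 1
      omega
    exact (Nat.eq_of_mul_eq_mul_left (pow_pos hp.pos n) (h1.trans hmul)).symm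
  have hdvd : Nat.card L.D ∣ p ^ (7 - n) := by
    rw [← hcZ]
    exact AddSubgroup.card_dvd_of_le L.D_le_Z
  obtain ⟨m, hm7, hm⟩ := (Nat.dvd_prime_pow hp).1 hdvd
  have hm2 : 2 ≤ m := by
    by_contra hlt
    apply hcyc
    have hm01 : m = 0 ∨ m = 1 := by omega
    rcases hm01 with rfl | rfl
    · rw [pow_zero] at hm
      have : Subsingleton L.D := (Nat.card_eq_one_iff_unique.1 hm).1
      infer_instance
    · rw [pow_one] at hm
      exact isAddCyclic_of_prime_card hm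
  have hVp : ∀ v : A ⧸ L.Z, p • v = 0 := by
    intro v
    induction v using QuotientAddGroup.induction_on with
    | H a =>
      rw [← QuotientAddGroup.mk_nsmul, QuotientAddGroup.eq_zero_iff]
      exact hZ a
  obtain ⟨g, hg⟩ := cnt_gens p hVp hn
  choose s hs using fun i => QuotientAddGroup.mk_surjective (g i)
  have hrep : ∀ a : A, ∃ c : Fin n → ℤ, ∃ z ∈ L.Z, a = ∑ i, c i • s i + z := by
    intro a
    obtain ⟨c, hc⟩ := hg (a : A ⧸ L.Z)
    refine ⟨c, a - ∑ i, c i • s i, ?_, by abel⟩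
    rw [← QuotientAddGroup.eq_zero_iff, QuotientAddGroup.mk_sub, sub_eq_zero, hc]
    rw [← QuotientAddGroup.coe_mk', map_sum]
    refine Finset.sum_congr rfl fun i _ => ?_
    rw [map_zsmul, QuotientAddGroup.coe_mk', hs]
  have key2 : ∀ x y : A, (∀ a, ∃ i j : ℤ, ∃ z ∈ L.Z, a = i • x + j • y + z) → False := by
    intro x y h
    apply hcyc
    have hle : ∀ d ∈ L.D, ∃ k : ℤ, d = k • L.b x y := by
      intro d hd
      induction hd using AddSubgroup.closure_induction with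
      | mem w hw =>
        obtain ⟨a, c, rfl⟩ := hw
        obtain ⟨i, j, z, hz, rfl⟩ := h a
        obtain ⟨i', j', z', hz', rfl⟩ := h c
        refine ⟨i * j' - j * i', ?_⟩
        have e1 : ∀ t, L.b z t = 0 := fun t => L.mem_Z.1 hz t
        have e2 : ∀ t, L.b t z' = 0 := fun t => L.mem_Z'.1 hz' t
        simp only [map_add, map_zsmul, AddMonoidHom.add_apply, AddMonoidHom.zsmul_apply, L.alt, e1,
          e2, L.skew y x, smul_zero, add_zero, zero_add]
        module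
      | zero => exact ⟨0, by simp⟩
      | add a c _ _ iha ihc =>
        obtain ⟨k, rfl⟩ := iha
        obtain ⟨k', rfl⟩ := ihc
        exact ⟨k + k', by rw [add_zsmul]⟩
      | neg a _ iha =>
        obtain ⟨k, rfl⟩ := iha
        exact ⟨-k, by rw [neg_zsmul]⟩
    refine ⟨⟨⟨L.b x y, L.b_mem_D x y⟩, ?_⟩⟩
    rintro ⟨d, hd⟩
    obtain ⟨k, rfl⟩ := hle d hd
    exact ⟨k, Subtype.ext (by simp)⟩
  have hn3 : 3 ≤ n := by
    by_contra hlt
    have hn012 : n = 0 ∨ n = 1 ∨ n = 2 := by omega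
    rcases hn012 with rfl | rfl | rfl
    · refine key2 0 0 fun a => ?_
      obtain ⟨c, z, hz, e⟩ := hrep a
      exact ⟨0, 0, z, hz, by simpa using e⟩
    · refine key2 (s 0) 0 fun a => ?_
      obtain ⟨c, z, hz, e⟩ := hrep a
      exact ⟨c 0, 0, z, hz, by simpa using e⟩
    · refine key2 (s 0) (s 1) fun a => ?_
      obtain ⟨c, z, hz, e⟩ := hrep a
      exact ⟨c 0, c 1, z, hz, by simpa [Fin.sum_univ_two] using e⟩
  refine ⟨n, m, hn, hcZ, hm, hm2, hm7, hn3, by omega, ?_⟩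
  rintro rfl
  set x := s 0 with hx
  set y := s 1 with hy
  set w := s 2 with hw
  have h3 : ∀ a, ∃ i j k : ℤ, ∃ z ∈ L.Z, a = i • x + j • y + k • w + z := by
    intro a
    obtain ⟨c, z, hz, e⟩ := hrep a
    exact ⟨c 0, c 1, c 2, z, hz, by rw [Fin.sum_univ_three] at e; exact e⟩
  have hle : ∀ d ∈ L.D, ∃ i j k : ℤ, d = i • L.b x y + j • L.b x w + k • L.b y w := by
    intro d hd
    induction hd using AddSubgroup.closure_induction with
    | mem v hv =>
      obtain ⟨a, c, rfl⟩ := hv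
      obtain ⟨i, j, k, z, hz, rfl⟩ := h3 a
      obtain ⟨i', j', k', z', hz', rfl⟩ := h3 c
      refine ⟨i * j' - j * i', i * k' - k * i', j * k' - k * j', ?_⟩
      have e1 : ∀ t, L.b z t = 0 := fun t => L.mem_Z.1 hz t
      have e2 : ∀ t, L.b t z' = 0 := fun t => L.mem_Z'.1 hz' t
      simp only [map_add, map_zsmul, AddMonoidHom.add_apply, AddMonoidHom.zsmul_apply, L.alt, e1,
        e2, L.skew y x, L.skew w x, L.skew w y, smul_zero, add_zero, zero_add]
      module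
    | zero => exact ⟨0, 0, 0, by simp⟩
    | add a c _ _ iha ihc =>
      obtain ⟨i, j, k, rfl⟩ := iha
      obtain ⟨i', j', k', rfl⟩ := ihc
      exact ⟨i + i', j + j', k + k', by module⟩
    | neg a _ iha =>
      obtain ⟨i, j, k, rfl⟩ := iha
      exact ⟨-i, -j, -k, by module⟩
  have hfin : ∀ d : L.D, ∃ t : Fin p × Fin p × Fin p,
      (t.1 : ℕ) • L.b x y + (t.2.1 : ℕ) • L.b x w + (t.2.2 : ℕ) • L.b y w = (d : A) := by
    rintro ⟨d, hd⟩
    obtain ⟨i, j, k, e⟩ := hle d hd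
    obtain ⟨r1, h1⟩ := cnt_red p (hD _ (L.b_mem_D x y)) i
    obtain ⟨r2, h2⟩ := cnt_red p (hD _ (L.b_mem_D x w)) j
    obtain ⟨r3, h3⟩ := cnt_red p (hD _ (L.b_mem_D y w)) k
    refine ⟨(r1, r2, r3), ?_⟩
    simp only
    rw [← h1, ← h2, ← h3, e]
  choose f hf using hfin
  have hinj : Function.Injective f := by
    intro d d' h
    apply Subtype.ext
    rw [← hf d, ← hf d', h]
  have hcard := Nat.card_le_card_of_injective f hinj
  rw [hm, Nat.card_prod, Nat.card_prod, Nat.card_eq_fintype_card, Fintype.card_fin] at hcard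
  have : p ^ m ≤ p ^ 3 := by
    calc p ^ m ≤ p * (p * p) := hcard
      _ = p ^ 3 := by ring
  exact (Nat.pow_le_pow_iff_right hp.one_lt).1 this

end MP_02e52a.M7
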