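import Pool.Agent.Lib.MP_02e52a_al.M7.Defs

namespace MP_02e52a.M7

/-- [M7 CY0] Transvections, `D` cyclic of order `n`. PROOF. Let `e x = x + (χ (b w x)).val • u`. It is additive because
`n • u = 0` (`ZMod.val` is additive modulo `n`). Inverse `x - (χ (b w x)).val • u`, because `b w u = - b u w = - r b w w = 0`. Bracket:
`b (e x) (e y) = b x y + k(x) r b w y - k(y) r b w x` with `k(x) = (χ (b w x)).val`, (`b u u = 0`), and `k(x) • b w y = k(y) • b w x` since applying the
injective `χ` both sides become `χ (b w x) * χ (b w y)`. `e (b x y) = b x y` because `b w (b x y) = 0`. So `e` is an automorphism and `L.Rig` gives the claim. -/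
theorem cyc_transvection {A : Type*} [AddCommGroup A] (L : LR A) (hr : L.Rig) (n : ℕ) [NeZero n]
    (χ : L.D ≃+ ZMod n) (w u : A) (hu : n • u = 0) (r : ℤ) (hur : ∀ y, L.b u y = r • L.b w y) (x : A) :
    (χ ⟨L.b w x, L.b_mem_D w x⟩).val • u ∈ L.Z := by
  classical
  set ψ : A →+ L.D := (L.b w).codRestrict L.D (fun y => L.b_mem_D w y) with hψ
  set ℓ : ZMod n →+ A := ZMod.lift n ⟨zmultiplesHom A u, by
    rw [zmultiplesHom_apply]
    simpa using hu⟩ with hℓ
  have hℓv : ∀ m : ZMod n, ℓ m = m.val • u := by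
    intro m
    conv_lhs => rw [← ZMod.natCast_zmod_val m]
    have : ((m.val : ℕ) : ZMod n) = ((m.val : ℤ) : ZMod n) := by push_cast; rfl
    rw [this, hℓ, ZMod.lift_coe]
    exact natCast_zsmul u m.val
  set φ : A →+ A := (ℓ.comp χ.toAddMonoidHom).comp ψ with hφ
  have hφv : ∀ y, φ y = (χ ⟨L.b w y, L.b_mem_D w y⟩).val • u := by
    intro y
    exact hℓv _
  have hwu : L.b w u = 0 := by
    rw [L.skew, hur w, L.alt, smul_zero, neg_zero]
  have hψ0 : ∀ y, L.b w y = 0 → φ y = 0 := by
    intro y hy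
    have : (⟨L.b w y, L.b_mem_D w y⟩ : L.D) = 0 := Subtype.ext hy
    rw [hφv, this, map_zero, ZMod.val_zero, zero_smul]
  have hφu : φ u = 0 := hψ0 u hwu
  have hφφ : ∀ y, φ (φ y) = 0 := by
    intro y
    rw [hφv y, map_nsmul, hφu, smul_zero]
  have hcomm : ∀ y z, (χ ⟨L.b w y, L.b_mem_D w y⟩).val • L.b w z =
      (χ ⟨L.b w z, L.b_mem_D w z⟩).val • L.b w y := by
    intro y z
    have h1 : (χ ⟨L.b w y, L.b_mem_D w y⟩).val • (⟨L.b w z, L.b_mem_D w z⟩ : L.D) =
        (χ ⟨L.b w z, L.b_mem_D w z⟩).val • (⟨L.b w y, L.b_mem_D w y⟩ : L.D) := by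
      apply χ.injective
      rw [map_nsmul, map_nsmul, nsmul_eq_mul, nsmul_eq_mul, ZMod.natCast_zmod_val,
        ZMod.natCast_zmod_val, mul_comm]
    have h2 := congrArg Subtype.val h1
    simpa using h2
  set e : A ≃+ A :=
    { toFun := fun y => y + φ y
      invFun := fun y => y - φ y
      left_inv := by
        intro y
        simp only [map_add, hφφ, add_zero]
        abel
      right_inv := by
        intro y
        simp only [map_sub, hφφ, sub_zero]
        abel
      map_add' := by
        intro y z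
        simp only [map_add]
        abel } with he
  have hev : ∀ y, e y = y + φ y := fun y => rfl
  have hAut : L.IsAut e := by
    intro y z
    rw [hev, hev, hev]
    have h0 : L.b w (L.b y z) = 0 := by
      rw [L.skew, L.nil, neg_zero]
    rw [hψ0 _ h0, add_zero]
    simp only [map_add, AddMonoidHom.add_apply]
    have h1 : L.b (φ y) (φ z) = 0 := by
      rw [hφv y, hφv z, map_nsmul, map_nsmul, AddMonoidHom.nsmul_apply, L.alt, smul_zero, smul_zero]
    have h2 : L.b (φ y) z + L.b y (φ z) = 0 := by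
      rw [L.skew y (φ z), hφv y, hφv z, map_nsmul, map_nsmul, AddMonoidHom.nsmul_apply,
        AddMonoidHom.nsmul_apply, hur, hur, smul_comm _ r, smul_comm _ r, hcomm y z]
      abel
    rw [h1, add_zero, add_assoc, h2, add_zero]
  have := hr e hAut x
  rw [hev, add_sub_cancel_left, hφv] at this
  exact this

end MP_02e52a.M7
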