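import Pool.Agent.Lib.MP_02e52a_al.M7.Defs

namespace MP_02e52a.M7

open Module

variable {F : Type*} [Field F] {V W : Type*} [AddCommGroup V] [Module F V] [AddCommGroup W] [Module F W]

/-- [M7 L3] Kernel vector of an alternating form in dimension three: every alternating form on a
three-dimensional space has a nonzero vector in its kernel. PROOF: same as L1 with values in `F`: if
`f = 0` trivial, otherwise `f (k i) (k j)` gives the vector `a` with `a 0 = f (k 1) (k 2)` etc., and
`v = ∑ a i k i` satisfies `f v x = det (a, a, x)`-type expression `= 0`; check on the basis. -/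
theorem exists_ker_three (hV : finrank F V = 3) (f : V →ₗ[F] V →ₗ[F] F) (alt : ∀ v, f v v = 0) :
    ∃ v : V, v ≠ 0 ∧ ∀ x, f v x = 0 := by
  have : FiniteDimensional F V := FiniteDimensional.of_finrank_pos (by rw [hV]; norm_num)
  let k : Basis (Fin 3) F V := finBasisOfFinrankEq F V hV
  have hsym : ∀ x y, f x y = -f y x := by
    intro x y
    have h := alt (x + y)
    simp only [map_add, LinearMap.add_apply, alt, zero_add, add_zero] at h
    exact eq_neg_of_add_eq_zero_right h
  by_cases h0 : f (k 1) (k 2) = 0 ∧ f (k 2) (k 0) = 0 ∧ f (k 0) (k 1) = 0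
  · refine ⟨k 0, k.ne_zero 0, ?_⟩
    have : f (k 0) = 0 := by
      apply k.ext
      intro i
      rw [LinearMap.zero_apply]
      fin_cases i
      · exact alt _
      · exact h0.2.2
      · change f (k 0) (k 2) = 0
        rw [hsym, h0.2.1, neg_zero]
    intro x
    rw [this, LinearMap.zero_apply]
  · set a := f (k 1) (k 2) with ha
    set b := f (k 2) (k 0) with hb
    set c := f (k 0) (k 1) with hc
    refine ⟨a • k 0 + b • k 1 + c • k 2, ?_, ?_⟩
    · intro hv
      apply h0
      have hli := k.linearIndependent
      rw [Fintype.linearIndependent_iff] at hli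
      have h := hli ![a, b, c] (by simpa [Fin.sum_univ_three] using hv)
      exact ⟨h 0, h 1, h 2⟩
    · have h10 : f (k 1) (k 0) = -c := by rw [hsym]
      have h21 : f (k 2) (k 1) = -a := by rw [hsym]
      have h02 : f (k 0) (k 2) = -b := by rw [hsym]
      have : f (a • k 0 + b • k 1 + c • k 2) = 0 := by
        apply k.ext
        intro i
        simp only [map_add, map_smul, LinearMap.add_apply, LinearMap.smul_apply, smul_eq_mul,
          LinearMap.zero_apply]
        fin_cases i
        · change a * f (k 0) (k 0) + b * f (k 1) (k 0) + c * f (k 2) (k 0) = 0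
          rw [alt, h10, ← hb]; ring
        · change a * f (k 0) (k 1) + b * f (k 1) (k 1) + c * f (k 2) (k 1) = 0
          rw [alt, h21, ← hc]; ring
        · change a * f (k 0) (k 2) + b * f (k 1) (k 2) + c * f (k 2) (k 2) = 0
          rw [alt, h02, ← ha]; ring
      intro x
      rw [this, LinearMap.zero_apply]

end MP_02e52a.M7
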