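import Pool.Agent.Lib.MP_02e52a_al.M7.CY0
import Pool.Agent.Lib.MP_02e52a_al.M7.L3

namespace MP_02e52a.M7

/-- [M7 CY1] `|D| = p`: elements of order `p` are central. PROOF: `L.D ≃+ ZMod p`. If `p y = 0` apply `cyc_transvection` with `n = p`, `w = u = y`, `r = 1`:
`(χ (b y x)).val • y ∈ Z` for all `x`; if `y ∉ Z` choose `x` with `b y x ≠ 0`: the coefficient is prime to `p`, `p y = 0`, so `y ∈ Z`. -/
theorem cyc_socle {A : Type*} [AddCommGroup A] [Finite A] (p : ℕ) [Fact p.Prime] (L : LR A)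
    (hr : L.Rig) (hD : Nat.card L.D = p) (y : A) (hy : p • y = 0) : y ∈ L.Z := by
  have hp : p.Prime := Fact.out
  have χ : L.D ≃+ ZMod p := addEquivOfPrimeCardEq hD (Nat.card_zmod p)
  by_contra hyZ
  rw [L.mem_Z] at hyZ
  push Not at hyZ
  obtain ⟨x, hx⟩ := hyZ
  have h1 := cyc_transvection L hr p χ y y hy 1 (fun z => by rw [one_smul]) x
  set c := (χ ⟨L.b y x, L.b_mem_D y x⟩).val with hc
  have hcne : χ ⟨L.b y x, L.b_mem_D y x⟩ ≠ 0 := by
    intro h0
    have h2 : (⟨L.b y x, L.b_mem_D y x⟩ : L.D) = 0 := χ.injective (by rw [h0, map_zero])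
    exact hx (congrArg Subtype.val h2)
  have hcp : Nat.Coprime c p := by
    rw [Nat.coprime_comm, hp.coprime_iff_not_dvd]
    intro hd
    apply hcne
    rw [← ZMod.natCast_zmod_val (χ ⟨L.b y x, L.b_mem_D y x⟩)]
    exact (ZMod.natCast_eq_zero_iff _ _).2 hd
  have hb := Nat.gcd_eq_gcd_ab c p
  rw [hcp] at hb
  have h3 : y = (Nat.gcdA c p) • (c • y) := by
    have h4 : (1 : ℤ) • y = ((c : ℤ) * Nat.gcdA c p + p * Nat.gcdB c p) • y := by
      rw [← hb]
      rfl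
    rw [one_smul, add_smul] at h4
    have h5 : ((p : ℤ) * Nat.gcdB c p) • y = 0 := by
      rw [mul_comm, mul_smul, natCast_zsmul, hy, smul_zero]
    rw [h5, add_zero, mul_comm, mul_smul, natCast_zsmul] at h4
    exact h4
  have h6 : y ∈ L.Z := by
    rw [h3]
    exact L.Z.zsmul_mem h1 _
  rw [L.mem_Z] at h6
  exact hx (h6 x)

/-- the form on the quotient -/
private noncomputable def cy1F {A : Type*} [AddCommGroup A] {p : ℕ} (L : LR A)
    (χ : L.D ≃+ ZMod p) (v w : A ⧸ L.Z) : ZMod p :=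
  χ ⟨L.b v.out w.out, L.b_mem_D _ _⟩

private lemma cy1F_mk {A : Type*} [AddCommGroup A] {p : ℕ} (L : LR A)
    (χ : L.D ≃+ ZMod p) (a c : A) :
    cy1F L χ (a : A ⧸ L.Z) (c : A ⧸ L.Z) = χ ⟨L.b a c, L.b_mem_D a c⟩ := by
  unfold cy1F
  congr 1
  apply Subtype.ext
  obtain ⟨z, hz⟩ := QuotientAddGroup.mk_out_eq_add L.Z a
  obtain ⟨z', hz'⟩ := QuotientAddGroup.mk_out_eq_add L.Z c
  show L.b (a : A ⧸ L.Z).out (c : A ⧸ L.Z).out = L.b a c
  rw [hz, hz', map_add, map_add, AddMonoidHom.add_apply, AddMonoidHom.add_apply,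
    L.mem_Z.1 z.2, L.mem_Z'.1 z'.2, L.mem_Z.1 z.2]
  simp

private lemma cy1F_ex {A : Type*} [AddCommGroup A] (L : LR A) (v : A ⧸ L.Z) :
    ∃ a : A, (a : A ⧸ L.Z) = v := ⟨v.out, QuotientAddGroup.out_eq' v⟩

private lemma cy1F_add_left {A : Type*} [AddCommGroup A] {p : ℕ} (L : LR A)
    (χ : L.D ≃+ ZMod p) (u v w : A ⧸ L.Z) : cy1F L χ (u + v) w = cy1F L χ u w + cy1F L χ v w := by
  obtain ⟨a, rfl⟩ := cy1F_ex L u
  obtain ⟨b, rfl⟩ := cy1F_ex L v
  obtain ⟨c, rfl⟩ := cy1F_ex L w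
  rw [← QuotientAddGroup.mk_add, cy1F_mk, cy1F_mk, cy1F_mk, ← map_add]
  congr 1
  apply Subtype.ext
  simp

private lemma cy1F_add_right {A : Type*} [AddCommGroup A] {p : ℕ} (L : LR A)
    (χ : L.D ≃+ ZMod p) (u v w : A ⧸ L.Z) : cy1F L χ u (v + w) = cy1F L χ u v + cy1F L χ u w := by
  obtain ⟨a, rfl⟩ := cy1F_ex L u
  obtain ⟨b, rfl⟩ := cy1F_ex L v
  obtain ⟨c, rfl⟩ := cy1F_ex L w
  rw [← QuotientAddGroup.mk_add, cy1F_mk, cy1F_mk, cy1F_mk, ← map_add]
  congr 1
  apply Subtype.ext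
  simp

private lemma cy1_three_aux {V : Type*} [AddCommGroup V] [Finite V] {p : ℕ} [Fact p.Prime]
    [Module (ZMod p) V] (hc : Nat.card V = p ^ 3) (F : V → V → ZMod p)
    (hl : ∀ u v w, F (u + v) w = F u w + F v w) (hr : ∀ u v w, F u (v + w) = F u v + F u w)
    (halt : ∀ v, F v v = 0) : ∃ v : V, v ≠ 0 ∧ ∀ x, F v x = 0 := by
  have hp : p.Prime := Fact.out
  have hmf : Module.Finite (ZMod p) V := Module.Finite.of_finite
  have hfin : Module.finrank (ZMod p) V = 3 := by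
    have h1 : Nat.card V = Nat.card (ZMod p) ^ Module.finrank (ZMod p) V :=
      Module.natCard_eq_pow_finrank
    rw [hc, Nat.card_zmod] at h1
    exact (Nat.pow_right_injective hp.two_le h1).symm
  let gl : V → (V →+ ZMod p) := fun v =>
    { toFun := fun w => F v w
      map_zero' := by
        have := hr v 0 0
        rw [add_zero] at this
        exact left_eq_add.1 this
      map_add' := fun w w' => hr v w w' }
  let gr : V → (V →+ ZMod p) := fun w =>
    { toFun := fun v => F v w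
      map_zero' := by
        have := hl 0 0 w
        rw [add_zero] at this
        exact left_eq_add.1 this
      map_add' := fun v v' => hl v v' w }
  let f : V →ₗ[ZMod p] V →ₗ[ZMod p] ZMod p :=
    LinearMap.mk₂ (ZMod p) F hl (fun c v w => ZMod.map_smul (gr w) c v) hr
      (fun c v w => ZMod.map_smul (gl v) c w)
  exact exists_ker_three hfin f halt

private lemma cy1_three {V : Type*} [AddCommGroup V] [Finite V] {p : ℕ} [Fact p.Prime]
    (hV : ∀ v : V, p • v = 0) (hc : Nat.card V = p ^ 3) (F : V → V → ZMod p)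
    (hl : ∀ u v w, F (u + v) w = F u w + F v w) (hr : ∀ u v w, F u (v + w) = F u v + F u w)
    (halt : ∀ v, F v v = 0) : ∃ v : V, v ≠ 0 ∧ ∀ x, F v x = 0 :=
  @cy1_three_aux V _ _ p _ (AddCommGroup.zmodModule hV) hc F hl hr halt

/-- [M7 CY1] `|D| = p` and `|A| = p^7`: `A ⧸ Z` has order `p^2`. PROOF: `p x ∈ Z` for all `x` (`b (p x) y = p b x y = 0`), so
`|A ⧸ Z| ≤ |A ⧸ p A| = |A[p]| ≤ |Z|` by `cyc_socle` (`|A / pA| = |A[p]|` for the endomorphism `x ↦ p x` of a finite group). `|A ⧸ Z| |Z| = p^7`, so `|A ⧸ Z| = p^n`, `n ≤ 3`.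
`n ≠ 0, 1` because `b ≠ 0` (`|D| = p`; if `A ⧸ Z` is cyclic then `b = 0`). `n ≠ 3`: `V = A ⧸ Z` is a `ZMod p`-space of dimension 3 and `χ ∘ b`
(`χ : D ≃+ ZMod p`) is an alternating form on it; by `exists_ker_three` there is `v ≠ 0` in its kernel, i.e. `v` is the class of a central element, contradiction. -/
theorem cyc_quot {A : Type*} [AddCommGroup A] [Finite A] (p : ℕ) [Fact p.Prime] (L : LR A)
    (hr : L.Rig) (hA : Nat.card A = p ^ 7) (hD : Nat.card L.D = p) : Nat.card (A ⧸ L.Z) = p ^ 2 := by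
  have hp : p.Prime := Fact.out
  have hp1 : 1 < p := hp.one_lt
  have χ : L.D ≃+ ZMod p := addEquivOfPrimeCardEq hD (Nat.card_zmod p)
  have hpb : ∀ x y, p • L.b x y = 0 := by
    intro x y
    have h1 : Nat.card L.D • (⟨L.b x y, L.b_mem_D x y⟩ : L.D) = 0 := card_nsmul_eq_zero'
    rw [hD] at h1
    have h2 := congrArg Subtype.val h1
    simpa using h2
  have hpZ : ∀ x, p • x ∈ L.Z := by
    intro x
    rw [L.mem_Z]
    intro y
    rw [map_nsmul, AddMonoidHom.nsmul_apply, hpb]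
  -- orders
  have hlag : Nat.card A = Nat.card (A ⧸ L.Z) * Nat.card L.Z :=
    AddSubgroup.card_eq_card_quotient_mul_card_addSubgroup L.Z
  let φ : A →+ A := nsmulAddMonoidHom p
  have hφ : ∀ x, φ x = p • x := fun x => rfl
  have hker : φ.ker ≤ L.Z := by
    intro y hy
    rw [AddMonoidHom.mem_ker, hφ] at hy
    exact cyc_socle p L hr hD y hy
  have hran : φ.range ≤ L.Z := by
    rintro _ ⟨x, rfl⟩
    exact hpZ x
  have hcard : Nat.card A = Nat.card φ.range * Nat.card φ.ker := by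
    have h1 := AddSubgroup.card_eq_card_quotient_mul_card_addSubgroup φ.ker
    rw [h1]
    congr 1
    exact Nat.card_congr (QuotientAddGroup.quotientKerEquivRange φ).toEquiv
  have hle1 : Nat.card φ.ker ≤ Nat.card L.Z := AddSubgroup.card_le_of_le hker
  have hle2 : Nat.card φ.range ≤ Nat.card L.Z := AddSubgroup.card_le_of_le hran
  have hsq : p ^ 7 ≤ Nat.card L.Z * Nat.card L.Z := by
    rw [← hA, hcard]
    exact Nat.mul_le_mul hle2 hle1
  obtain ⟨n, hn7, hn⟩ : ∃ n ≤ 7, Nat.card (A ⧸ L.Z) = p ^ n := by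
    have : Nat.card (A ⧸ L.Z) ∣ p ^ 7 := by
      rw [← hA, hlag]
      exact Dvd.intro _ rfl
    exact (Nat.dvd_prime_pow hp).1 this
  have hZc : Nat.card L.Z = p ^ (7 - n) := by
    have h1 : p ^ n * Nat.card L.Z = p ^ n * p ^ (7 - n) := by
      rw [← hn, ← hlag, hA, hn, ← pow_add, Nat.add_sub_cancel' hn7]
    exact Nat.eq_of_mul_eq_mul_left (pow_pos hp.pos n) h1
  have hn3 : n ≤ 3 := by
    rw [hZc, ← pow_add] at hsq
    have := (Nat.pow_le_pow_iff_right hp1).1 hsq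
    omega
  -- the bracket is not zero
  have hbne : ∃ x y, L.b x y ≠ 0 := by
    by_contra hcon
    push Not at hcon
    have h1 : L.D = ⊥ := by
      rw [eq_bot_iff]
      unfold LR.D
      rw [AddSubgroup.closure_le]
      rintro w ⟨x, y, rfl⟩
      exact (AddSubgroup.mem_bot).2 (hcon x y)
    rw [h1] at hD
    simp at hD
    omega
  obtain ⟨x₀, y₀, hxy⟩ := hbne
  have hn0 : n ≠ 0 := by
    rintro rfl
    rw [pow_zero] at hn
    have hsub : Subsingleton (A ⧸ L.Z) := (Nat.card_eq_one_iff_unique.1 hn).1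
    have h1 : (x₀ : A ⧸ L.Z) = 0 := Subsingleton.elim _ _
    have h2 : x₀ ∈ L.Z := (QuotientAddGroup.eq_zero_iff x₀).1 h1
    exact hxy (L.mem_Z.1 h2 y₀)
  have hn1 : n ≠ 1 := by
    rintro rfl
    rw [pow_one] at hn
    have hcyc : IsAddCyclic (A ⧸ L.Z) := isAddCyclic_of_prime_card hn
    obtain ⟨g, hg⟩ := hcyc.exists_generator
    obtain ⟨a, rfl⟩ := cy1F_ex L g
    have hrep : ∀ x : A, ∃ (k : ℤ) (z : A), z ∈ L.Z ∧ x = k • a + z := by
      intro x
      obtain ⟨k, hk⟩ := AddSubgroup.mem_zmultiples_iff.1 (hg (x : A ⧸ L.Z))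
      refine ⟨k, x - k • a, ?_, by abel⟩
      rw [← QuotientAddGroup.eq_zero_iff, QuotientAddGroup.mk_sub, QuotientAddGroup.mk_zsmul, hk,
        sub_self]
    obtain ⟨k, z, hz, hx⟩ := hrep x₀
    obtain ⟨k', z', hz', hy⟩ := hrep y₀
    apply hxy
    have e1 : L.b (k • a + z) (k' • a + z') = L.b (k • a) (k' • a) := by
      rw [map_add (L.b (k • a + z)), L.mem_Z'.1 hz', add_zero, map_add L.b,
        AddMonoidHom.add_apply, L.mem_Z.1 hz, add_zero]
    rw [hx, hy, e1, map_zsmul, map_zsmul, AddMonoidHom.zsmul_apply, L.alt, smul_zero, smul_zero]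
  have hn3' : n ≠ 3 := by
    rintro rfl
    have hV : ∀ v : A ⧸ L.Z, p • v = 0 := by
      intro v
      obtain ⟨a, rfl⟩ := cy1F_ex L v
      rw [← QuotientAddGroup.mk_nsmul, QuotientAddGroup.eq_zero_iff]
      exact hpZ a
    have halt : ∀ v : A ⧸ L.Z, cy1F L χ v v = 0 := by
      intro v
      obtain ⟨a, rfl⟩ := cy1F_ex L v
      rw [cy1F_mk]
      have : (⟨L.b a a, L.b_mem_D a a⟩ : L.D) = 0 := Subtype.ext (L.alt a)
      rw [this, map_zero]
    obtain ⟨v, hv, hvk⟩ := cy1_three hV hn (cy1F L χ) (cy1F_add_left L χ) (cy1F_add_right L χ) halt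
    obtain ⟨a, rfl⟩ := cy1F_ex L v
    apply hv
    rw [QuotientAddGroup.eq_zero_iff, L.mem_Z]
    intro x
    have h1 : cy1F L χ (a : A ⧸ L.Z) (x : A ⧸ L.Z) = 0 := hvk (x : A ⧸ L.Z)
    rw [cy1F_mk] at h1
    have h2 : (⟨L.b a x, L.b_mem_D a x⟩ : L.D) = 0 := χ.injective (by rw [h1, map_zero])
    exact congrArg Subtype.val h2
  have : n = 2 := by omega
  rw [hn, this]

end MP_02e52a.M7
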