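import Pool.Agent.Lib.MP_02e52a_al.M7.CY0

namespace MP_02e52a.M7

/-- [M7 CY2] If `D` is cyclic then it has order `p`. PROOF. `|D| = p^e`, `e ≥ 1` by `hb`. Suppose `e ≥ 2`. `D` is a cyclic `p`-group
generated by the values of the bracket, so one value `b x0 y0` generates `D` (all values in `p D` would give `D = p D`; an element of a
cyclic `p`-group outside `p D` is a generator). The map `(i, j) ↦ i x0 + j y0` from `ZMod (p^e) × ZMod (p^e)` to `A ⧸ Z` is well defined and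
injective (bracket with `y0` and `x0`), so `|A ⧸ Z| ≥ p^(2e)`; `|Z| ≥ |D| = p^e`; so `3 e ≤ 7`, `e = 2`, `|Z| ≤ p^3`. All `p^2 • x ∈ Z`.
`|p Z / p^2 Z| ≤ p`: `|Z| = |Z / p Z| |p Z / p^2 Z| |p^2 Z|` and `|Z / p Z| ≥ |p Z / p^2 Z|`. The additive map
`A → p Z / p^2 Z`, `w ↦ p^3 w` has kernel `N` of index `≤ p`; the subgroup `B = {w | p w ∈ Z}` has index `≥ p^2` (`i x0 + j y0 ∈ B` implies `p ∣ i`, `p ∣ j`). So there is
`w ∈ N`, `w ∉ B`: `p^3 w = p^2 z` with `z ∈ Z`, `p w ∉ Z`. Put `u = p w - z`: `p^2 u = 0`, `b u y = p b w y`. Choose an isomorphism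
`χ : D ≃+ ZMod (p^2)`; `cyc_transvection` (`n = p^2`, `r = p`): `(χ (b w x)).val • u ∈ Z` for all `x`. As `p w ∉ Z` there is `x` with `p • b w x ≠ 0`, so
`(χ (b w x)).val` is prime to `p`, and since `p^2 u = 0 ∈ Z` we get `u ∈ Z`, `p w = u + z ∈ Z`: contradiction. -/
theorem cyc_card {A : Type*} [AddCommGroup A] [Finite A] (p : ℕ) [Fact p.Prime] (L : LR A)
    (hr : L.Rig) (hA : Nat.card A = p ^ 7) (hb : ∃ x y, L.b x y ≠ 0) (hcyc : IsAddCyclic L.D) :
    Nat.card L.D = p := by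
  classical
  have hp : p.Prime := Fact.out
  have hdvd : Nat.card L.D ∣ p ^ 7 := by rw [← hA]; exact AddSubgroup.card_addSubgroup_dvd_card L.D
  obtain ⟨e, he7, hcard⟩ := (Nat.dvd_prime_pow hp).1 hdvd
  obtain ⟨χ⟩ : Nonempty (L.D ≃+ ZMod (p ^ e)) := by
    rw [← hcard]; exact ⟨(zmodAddCyclicAddEquiv hcyc).symm⟩
  have he0 : e ≠ 0 := by
    intro h0
    obtain ⟨x, y, hxy⟩ := hb
    rw [h0, pow_zero] at hcard
    have h1 : Subsingleton L.D := (Nat.card_eq_one_iff_unique.1 hcard).1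
    apply hxy
    have h2 : (⟨L.b x y, L.b_mem_D x y⟩ : L.D) = 0 := Subsingleton.elim _ _
    exact congrArg Subtype.val h2
  by_cases he1 : e = 1
  · rw [hcard, he1, pow_one]
  exfalso
  have he2 : 2 ≤ e := by omega
  have hNe : NeZero (p ^ e) := ⟨pow_ne_zero _ hp.ne_zero⟩
  have hpe : p ∣ p ^ e := dvd_pow_self p he0
  -- a generating value
  obtain ⟨x0, y0, hxy0⟩ : ∃ x0 y0, ZMod.castHom hpe (ZMod p) (χ ⟨L.b x0 y0, L.b_mem_D x0 y0⟩) ≠ 0 := by
    by_contra hall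
    push Not at hall
    have h1 : ∀ d (hd : d ∈ L.D), ZMod.castHom hpe (ZMod p) (χ ⟨d, hd⟩) = 0 := by
      intro d hd
      induction hd using AddSubgroup.closure_induction with
      | mem x hx =>
        obtain ⟨a, b, rfl⟩ := hx
        exact hall a b
      | zero =>
        have : (⟨0, L.D.zero_mem⟩ : L.D) = 0 := rfl
        rw [this, map_zero, map_zero]
      | add x y hx hy h1 h2 =>
        have : (⟨x + y, L.D.add_mem hx hy⟩ : L.D) = ⟨x, hx⟩ + ⟨y, hy⟩ := rfl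
        rw [this, map_add, map_add, h1, h2, add_zero]
      | neg x hx h1 =>
        have : (⟨-x, L.D.neg_mem hx⟩ : L.D) = -⟨x, hx⟩ := rfl
        rw [this, map_neg, map_neg, h1, neg_zero]
    obtain ⟨d, hd⟩ := χ.surjective 1
    have h2 := h1 d.1 d.2
    rw [hd, map_one] at h2
    exact one_ne_zero h2
  have hunit : IsUnit (χ ⟨L.b x0 y0, L.b_mem_D x0 y0⟩) := by
    set c := χ ⟨L.b x0 y0, L.b_mem_D x0 y0⟩ with hc
    have h1 : ¬ p ∣ c.val := by
      intro h1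
      apply hxy0
      have h2 : c = ((c.val : ℕ) : ZMod (p ^ e)) := (ZMod.natCast_zmod_val c).symm
      rw [h2, map_natCast]
      exact (ZMod.natCast_eq_zero_iff _ _).2 h1
    rw [← ZMod.natCast_zmod_val c, ZMod.isUnit_iff_coprime]
    exact (Nat.Coprime.pow_left e ((Nat.Prime.coprime_iff_not_dvd hp).2 h1)).symm
  have hD0 : ∀ i : ℤ, i • L.b x0 y0 = 0 → ((p ^ e : ℕ) : ℤ) ∣ i := by
    intro i hi
    have h1 : i • (⟨L.b x0 y0, L.b_mem_D x0 y0⟩ : L.D) = 0 := Subtype.ext (by simpa using hi)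
    have h2 := congrArg χ h1
    rw [map_zsmul, map_zero, zsmul_eq_mul] at h2
    have h3 : (i : ZMod (p ^ e)) = 0 := (hunit.mul_left_eq_zero).1 h2
    exact (ZMod.intCast_zmod_eq_zero_iff_dvd _ _).1 h3
  have hD0' : ∀ i : ℤ, i • L.b y0 x0 = 0 → ((p ^ e : ℕ) : ℤ) ∣ i := by
    intro i hi
    apply hD0
    rw [L.skew, smul_neg, hi, neg_zero]
  have hbr : ∀ i j : ℤ, i • x0 + j • y0 ∈ L.Z → ((p ^ e : ℕ) : ℤ) ∣ i ∧ ((p ^ e : ℕ) : ℤ) ∣ j := by
    intro i j hij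
    constructor
    · apply hD0
      have := hij y0
      simpa [L.alt] using this
    · apply hD0'
      have := hij x0
      simpa [L.alt] using this
  -- counting
  have hcnt1 : p ^ e * p ^ e ≤ Nat.card (A ⧸ L.Z) := by
    let f : ZMod (p ^ e) × ZMod (p ^ e) → A ⧸ L.Z := fun ij =>
      QuotientAddGroup.mk ((ij.1.val : ℤ) • x0 + (ij.2.val : ℤ) • y0)
    have hf : Function.Injective f := by
      rintro ⟨i, j⟩ ⟨i', j'⟩ hij
      have h1 := QuotientAddGroup.eq.1 hij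
      have h2 : (((i'.val : ℤ) - (i.val : ℤ)) • x0 + ((j'.val : ℤ) - (j.val : ℤ)) • y0) ∈ L.Z := by
        have h3 : (((i'.val : ℤ) - (i.val : ℤ)) • x0 + ((j'.val : ℤ) - (j.val : ℤ)) • y0) =
            -((i.val : ℤ) • x0 + (j.val : ℤ) • y0) + ((i'.val : ℤ) • x0 + (j'.val : ℤ) • y0) := by
          simp only [sub_smul]; abel
        rw [h3]; exact h1
      obtain ⟨h3, h4⟩ := hbr _ _ h2
      have h5 : ∀ a b : ZMod (p ^ e), ((p ^ e : ℕ) : ℤ) ∣ (b.val : ℤ) - (a.val : ℤ) → a = b := by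
        intro a b hab
        have h6 := (ZMod.intCast_zmod_eq_zero_iff_dvd _ _).2 hab
        push_cast at h6
        rw [ZMod.natCast_zmod_val, ZMod.natCast_zmod_val, sub_eq_zero] at h6
        exact h6.symm
      rw [h5 _ _ h3, h5 _ _ h4]
    have := Nat.card_le_card_of_injective f hf
    rwa [Nat.card_prod, Nat.card_zmod] at this
  have hcnt2 : p ^ e ≤ Nat.card L.Z := by
    rw [← hcard]
    exact Nat.card_le_card_of_injective (AddSubgroup.inclusion L.D_le_Z)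
      (AddSubgroup.inclusion_injective _)
  have hcnt3 : Nat.card (A ⧸ L.Z) * Nat.card L.Z = p ^ 7 := by
    rw [← hA]; exact (AddSubgroup.card_eq_card_quotient_mul_card_addSubgroup L.Z).symm
  have hp1 : 1 < p := hp.one_lt
  have he3 : e = 2 := by
    have h1 : p ^ (3 * e) ≤ p ^ 7 := by
      rw [← hcnt3]
      calc p ^ (3 * e) = (p ^ e * p ^ e) * p ^ e := by ring
        _ ≤ _ := Nat.mul_le_mul hcnt1 hcnt2
    have h2 : 3 * e ≤ 7 := (Nat.pow_le_pow_iff_right hp1).1 h1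
    omega
  subst he3
  have hZ3 : Nat.card L.Z ≤ p ^ 3 := by
    have h1 : p ^ 2 * p ^ 2 * Nat.card L.Z ≤ p ^ 2 * p ^ 2 * p ^ 3 := by
      calc p ^ 2 * p ^ 2 * Nat.card L.Z ≤ Nat.card (A ⧸ L.Z) * Nat.card L.Z :=
            Nat.mul_le_mul_right _ hcnt1
        _ = p ^ 7 := hcnt3
        _ = _ := by ring
    exact Nat.le_of_mul_le_mul_left h1 (by positivity)
  have hDp : ∀ d ∈ L.D, (p ^ 2) • d = 0 := by
    intro d hd
    have h1 : Nat.card L.D • (⟨d, hd⟩ : L.D) = 0 := card_nsmul_eq_zero'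
    rw [hcard] at h1
    exact congrArg Subtype.val h1
  have hp2 : ∀ x, (p ^ 2) • x ∈ L.Z := by
    intro x y
    rw [map_nsmul, AddMonoidHom.nsmul_apply]
    exact hDp _ (L.b_mem_D _ _)
  -- the dependency
  obtain ⟨i, j, z, hz, hij, hnd⟩ : ∃ (i j : ℤ) (z : A), z ∈ L.Z ∧
      (p : ℤ) • (i • ((p ^ 2) • x0) + j • ((p ^ 2) • y0)) = (p ^ 2 : ℤ) • z ∧ ¬ ((p : ℤ) ∣ i ∧ (p : ℤ) ∣ j) := by
    by_contra hall
    push Not at hall
    set a := (p ^ 2) • x0 with ha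
    set c := (p ^ 2) • y0 with hc
    have haZ : a ∈ L.Z := hp2 x0
    have hcZ : c ∈ L.Z := hp2 y0
    have hall' : ∀ (i j : ℤ) (z : A), z ∈ L.Z → (p : ℤ) • (i • a + j • c) = (p ^ 2 : ℤ) • z →
        (p : ℤ) ∣ i ∧ (p : ℤ) ∣ j := by
      intro i j z hz h
      by_contra hn
      exact hn (by
        have := hall i j z hz h
        exact this)
    let f : (ZMod p × ZMod p) × (ZMod p × ZMod p) → L.Z := fun q =>
      ⟨((q.1.1.val : ℤ) • a + (q.1.2.val : ℤ) • c) + (p : ℤ) • ((q.2.1.val : ℤ) • a + (q.2.2.val : ℤ) • c),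
        L.Z.add_mem (L.Z.add_mem (L.Z.zsmul_mem haZ _) (L.Z.zsmul_mem hcZ _))
          (L.Z.zsmul_mem (L.Z.add_mem (L.Z.zsmul_mem haZ _) (L.Z.zsmul_mem hcZ _)) _)⟩
    have hNp : NeZero p := ⟨hp.ne_zero⟩
    have h5 : ∀ a b : ZMod p, (p : ℤ) ∣ (b.val : ℤ) - (a.val : ℤ) → a = b := by
      intro a b hab
      have h6 := (ZMod.intCast_zmod_eq_zero_iff_dvd _ p).2 hab
      push_cast at h6
      rw [ZMod.natCast_zmod_val, ZMod.natCast_zmod_val, sub_eq_zero] at h6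
      exact h6.symm
    have hf : Function.Injective f := by
      rintro ⟨⟨i1, j1⟩, ⟨k1, l1⟩⟩ ⟨⟨i2, j2⟩, ⟨k2, l2⟩⟩ hq
      have hq' : ((i1.val : ℤ) • a + (j1.val : ℤ) • c) + (p : ℤ) • ((k1.val : ℤ) • a + (l1.val : ℤ) • c) =
        ((i2.val : ℤ) • a + (j2.val : ℤ) • c) + (p : ℤ) • ((k2.val : ℤ) • a + (l2.val : ℤ) • c) :=
        congrArg Subtype.val hq
      have h1 : (p : ℤ) • ((((i2.val : ℤ) - i1.val)) • a + ((j2.val : ℤ) - j1.val) • c) = (p ^ 2 : ℤ) •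
          (((k1.val : ℤ) - k2.val) • a + ((l1.val : ℤ) - l2.val) • c) := by
        have h2 : (p : ℤ) • ((((i2.val : ℤ) - i1.val)) • a + ((j2.val : ℤ) - j1.val) • c) - (p ^ 2 : ℤ) •
          (((k1.val : ℤ) - k2.val) • a + ((l1.val : ℤ) - l2.val) • c) =
          (p : ℤ) • ((((i2.val : ℤ) • a + (j2.val : ℤ) • c) + (p : ℤ) • ((k2.val : ℤ) • a + (l2.val : ℤ) • c)) -
          (((i1.val : ℤ) • a + (j1.val : ℤ) • c) + (p : ℤ) • ((k1.val : ℤ) • a + (l1.val : ℤ) • c))) := by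
          module
        rw [← sub_eq_zero, h2, hq', sub_self, smul_zero]
      obtain ⟨g1, g2⟩ := hall' _ _ _ (L.Z.add_mem (L.Z.zsmul_mem haZ _) (L.Z.zsmul_mem hcZ _)) h1
      have e1 := h5 _ _ g1
      have e2 := h5 _ _ g2
      subst e1; subst e2
      have h3 : (p : ℤ) • (((k2.val : ℤ) - k1.val) • a + ((l2.val : ℤ) - l1.val) • c) = (p ^ 2 : ℤ) • (0 : A) := by
        rw [smul_zero]
        have h4 := add_left_cancel hq'
        have h6 : (p : ℤ) • (((k2.val : ℤ) - k1.val) • a + ((l2.val : ℤ) - l1.val) • c) =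
          (p : ℤ) • ((k2.val : ℤ) • a + (l2.val : ℤ) • c) - (p : ℤ) • ((k1.val : ℤ) • a + (l1.val : ℤ) • c) := by
          module
        rw [h6, h4, sub_self]
      obtain ⟨g3, g4⟩ := hall' _ _ _ L.Z.zero_mem h3
      have e3 := h5 _ _ g3
      have e4 := h5 _ _ g4
      subst e3; subst e4
      rfl
    have h6 := Nat.card_le_card_of_injective f hf
    rw [Nat.card_prod, Nat.card_prod, Nat.card_zmod] at h6
    have h7 : p * p * (p * p) ≤ p ^ 3 := h6.trans hZ3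
    have h8 : p ^ 4 ≤ p ^ 3 := by
      calc p ^ 4 = p * p * (p * p) := by ring
        _ ≤ _ := h7
    have h9 := (Nat.pow_le_pow_iff_right hp1).1 h8
    omega
  set w := i • x0 + j • y0 with hw
  have hpw : (p : ℤ) • w ∉ L.Z := by
    intro hpw
    apply hnd
    have h1 : ((p : ℤ) * i) • x0 + ((p : ℤ) * j) • y0 ∈ L.Z := by
      have : ((p : ℤ) * i) • x0 + ((p : ℤ) * j) • y0 = (p : ℤ) • w := by rw [hw]; module
      rw [this]; exact hpw
    obtain ⟨h2, h3⟩ := hbr _ _ h1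
    have hp0 : (p : ℤ) ≠ 0 := by exact_mod_cast hp.ne_zero
    push_cast at h2 h3
    rw [pow_two] at h2 h3
    exact ⟨(mul_dvd_mul_iff_left hp0).1 h2, (mul_dvd_mul_iff_left hp0).1 h3⟩
  set u := (p : ℤ) • w - z with hu
  have hpu : (p ^ 2) • u = 0 := by
    have h1 : ((p ^ 2 : ℕ) : ℤ) • u = 0 := by
      have h2 : ((p ^ 2 : ℕ) : ℤ) • u =
        (p : ℤ) • (i • ((p ^ 2) • x0) + j • ((p ^ 2) • y0)) - (p ^ 2 : ℤ) • z := by
        rw [hu, hw]
        have h3 : ∀ x : A, (p ^ 2) • x = ((p : ℤ) ^ 2) • x := fun x => by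
          rw [← natCast_zsmul]; push_cast; rfl
        rw [h3, h3]
        push_cast
        module
      rw [h2, hij, sub_self]
    rw [← natCast_zsmul]; exact h1
  have hbu : ∀ y, L.b u y = (p : ℤ) • L.b w y := by
    intro y
    rw [hu, map_sub, AddMonoidHom.sub_apply, hz y, sub_zero, map_zsmul, AddMonoidHom.zsmul_apply]
  apply hpw
  have huZ : u ∈ L.Z := by
    by_contra huZ
    have hex : ∃ x, L.b ((p : ℤ) • w) x ≠ 0 := by
      by_contra hh
      push Not at hh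
      exact hpw hh
    obtain ⟨x, hx⟩ := hex
    have h1 := cyc_transvection L hr (p ^ 2) χ w u hpu (p : ℤ) hbu x
    set c := χ ⟨L.b w x, L.b_mem_D w x⟩ with hc
    have h2 : ¬ p ∣ c.val := by
      rintro ⟨m, hm⟩
      apply hx
      have h3 : (p : ℤ) • (⟨L.b w x, L.b_mem_D w x⟩ : L.D) = 0 := by
        apply χ.injective
        rw [map_zsmul, ← hc, map_zero, zsmul_eq_mul, ← ZMod.natCast_zmod_val c, hm]
        have : ((p ^ 2 * m : ℕ) : ZMod (p ^ 2)) = 0 := by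
          rw [ZMod.natCast_eq_zero_iff]; exact dvd_mul_right _ _
        push_cast at this ⊢
        rw [← this]; ring
      have h4 := congrArg Subtype.val h3
      rw [map_zsmul, AddMonoidHom.zsmul_apply]
      simpa using h4
    have h3 : IsCoprime ((c.val : ℕ) : ℤ) ((p ^ 2 : ℕ) : ℤ) := by
      rw [Nat.isCoprime_iff_coprime]
      exact (Nat.Coprime.pow_left 2 ((Nat.Prime.coprime_iff_not_dvd hp).2 h2)).symm
    obtain ⟨s, t, hst⟩ := h3
    apply huZ
    have h4 : u = s • (c.val • u) := by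
      have h5 : (s * (c.val : ℤ) + t * ((p ^ 2 : ℕ) : ℤ)) • u = u := by rw [hst, one_smul]
      rw [add_smul, mul_smul, mul_smul, natCast_zsmul, natCast_zsmul, hpu, smul_zero, add_zero] at h5
      exact h5.symm
    rw [h4]
    exact L.Z.zsmul_mem h1 _
  have : (p : ℤ) • w = u + z := by rw [hu]; abel
  rw [this]
  exact L.Z.add_mem huZ hz

end MP_02e52a.M7
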