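import Pool.Agent.Lib.MP_02e52a_al.M7.Defs

namespace MP_02e52a.M7

/-- the homomorphism `a ↦ a.val • u` -/
private def cy3Hom {A : Type*} [AddCommGroup A] (n : ℕ) (u : A) (hu : n • u = 0) : ZMod n →+ A :=
  ZMod.lift n ⟨zmultiplesHom A u, by
    rw [zmultiplesHom_apply]
    simpa using hu⟩

private theorem cy3Hom_nat {A : Type*} [AddCommGroup A] (n : ℕ) (u : A) (hu : n • u = 0) (m : ℕ) :
    cy3Hom n u hu (m : ZMod n) = m • u := by
  unfold cy3Hom
  have h := ZMod.lift_coe n ⟨zmultiplesHom A u, by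
    rw [zmultiplesHom_apply]
    simpa using hu⟩ (m : ℤ)
  rw [Int.cast_natCast] at h
  rw [h]
  change zmultiplesHom A u (m : ℤ) = m • u
  rw [zmultiplesHom_apply]
  simp

private theorem cy3Hom_val {A : Type*} [AddCommGroup A] (n : ℕ) [NeZero n] (u : A)
    (hu : n • u = 0) (a : ZMod n) : cy3Hom n u hu a = a.val • u := by
  conv_lhs => rw [← ZMod.natCast_zmod_val a]
  exact cy3Hom_nat n u hu a.val

private theorem cy3_nil (p k : ℕ) [Fact p.Prime] (hk : p ∣ p ^ k) [NeZero (p ^ k)]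
    (a : ZMod (p ^ k)) (h : ZMod.castHom hk (ZMod p) a = 0) : IsNilpotent a := by
  have h1 : ((a.val : ℕ) : ZMod p) = 0 := by
    rw [← h, ZMod.castHom_apply]
    exact ZMod.natCast_val a
  obtain ⟨c, hc⟩ := (ZMod.natCast_eq_zero_iff _ _).mp h1
  refine ⟨k, ?_⟩
  rw [← ZMod.natCast_zmod_val a, hc]
  push_cast
  rw [mul_pow, ← Nat.cast_pow, ZMod.natCast_self, zero_mul]

private theorem cy3_mem {A : Type*} [AddCommGroup A] (Z : AddSubgroup A) (u : A) (m p : ℕ)
    (hm : Nat.Coprime m p) (h1 : m • u ∈ Z) (h2 : p • u ∈ Z) : u ∈ Z := by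
  obtain ⟨a, b, hab⟩ := (Nat.isCoprime_iff_coprime.mpr hm)
  have h3 : u = a • (m • u) + b • (p • u) := by
    rw [← natCast_zsmul u m, ← natCast_zsmul u p, ← mul_zsmul', ← mul_zsmul', ← add_zsmul]
    rw [show (m : ℤ) * a + (p : ℤ) * b = 1 by linarith, one_zsmul]
  rw [h3]
  exact Z.add_mem (Z.zsmul_mem h1 a) (Z.zsmul_mem h2 b)

/-- [M7 CY3] PROOF. Let `χ a = castHom (ψ a) : ZMod p`. `e x = x + (ψ x).val • u` is additive (`p^k u = 0`). Injective: if `x = -(ψ x).val • u` then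
`ψ x (1 + ψ u) = 0`, `ψ u` is divisible by `p` (`χ u = 0`), so `1 + ψ u` is a unit of `ZMod (p^k)`, `ψ x = 0`, `x = 0`. So bijective (finite). Bracket: let `x0` with
`χ x0 ≠ 0`; `ker χ` has index `p` in `A`, contains `Z` and `u`, `|A ⧸ Z| = p^2`, `u ∉ Z`, `p u ∈ Z`, so `ker χ = Z + ℤ u`. Scaling we may take `χ x0 = 1`. Every `y` is
`y = (χ y).val • x0 + i u + z`, so `b u y = (χ y).val • b u x0`. Hence `b (e x) (e y) = b x y + ψ x b u y - ψ y b u x = b x y + (χ x χ y - χ y χ x) b u x0 = b x y` (`D` is killed by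
`p`, so integers act through `ZMod p`). `e (b x y) = b x y` since `ψ` vanishes on `D`. `e x0 - x0 = (ψ x0).val • u ∉ Z` because `(ψ x0).val` is prime to `p` and `p u ∈ Z`, `u ∉ Z`. Contradiction with
`L.Rig`. -/
theorem cyc_no_lift {A : Type*} [AddCommGroup A] [Finite A] (p : ℕ) [Fact p.Prime] (L : LR A)
    (hr : L.Rig) (hpZ : ∀ x, p • x ∈ L.Z) (hD : ∀ d ∈ L.D, p • d = 0) (hV : Nat.card (A ⧸ L.Z) = p ^ 2)
    (k : ℕ) (hk : 1 ≤ k) (ψ : A →+ ZMod (p ^ k)) (u : A) (hu : (p ^ k) • u = 0) (huZ : u ∉ L.Z)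
    (hψZ : ∀ z ∈ L.Z, ZMod.castHom (dvd_pow_self p (Nat.one_le_iff_ne_zero.mp hk)) (ZMod p) (ψ z) = 0)
    (hψu : ZMod.castHom (dvd_pow_self p (Nat.one_le_iff_ne_zero.mp hk)) (ZMod p) (ψ u) = 0)
    (hψ : ∃ x, ZMod.castHom (dvd_pow_self p (Nat.one_le_iff_ne_zero.mp hk)) (ZMod p) (ψ x) ≠ 0)
    (hψD : ∀ d ∈ L.D, ψ d = 0) : False := by
  have hp : p.Prime := Fact.out
  have hpk : NeZero (p ^ k) := ⟨pow_ne_zero k hp.ne_zero⟩
  obtain ⟨x0, hx0⟩ := hψ
  -- the reduction `χ`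
  let χ : A →+ ZMod p :=
    (ZMod.castHom (dvd_pow_self p (Nat.one_le_iff_ne_zero.mp hk)) (ZMod p)).toAddMonoidHom.comp ψ
  have hχ : ∀ x, ZMod.castHom (dvd_pow_self p (Nat.one_le_iff_ne_zero.mp hk)) (ZMod p) (ψ x) = χ x :=
    fun _ => rfl
  have hχv : ∀ x, (((ψ x).val : ℕ) : ZMod p) = χ x := by
    intro x
    rw [← hχ, ZMod.castHom_apply]
    exact ZMod.natCast_val (ψ x)
  rw [hχ] at hx0 hψu
  -- the kernel of `χ`
  have hker : χ.ker ≤ L.Z ⊔ AddSubgroup.zmultiples u := by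
    have hB : L.Z ⊔ AddSubgroup.zmultiples u ≤ χ.ker := by
      rw [sup_le_iff]
      refine ⟨fun z hz => hψZ z hz, ?_⟩
      rw [AddSubgroup.zmultiples_le]
      exact hψu
    have hZi : L.Z.index = p ^ 2 := hV
    have hki : χ.ker.index = p := by
      have hsurj : Function.Surjective χ := by
        intro c
        refine ⟨(c * (χ x0)⁻¹).val • x0, ?_⟩
        rw [map_nsmul, nsmul_eq_mul, ZMod.natCast_zmod_val, mul_assoc, inv_mul_cancel₀ hx0,
          mul_one]
      rw [AddSubgroup.index_ker, AddMonoidHom.range_eq_top.mpr hsurj, AddSubgroup.card_top,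
        Nat.card_zmod]
    have h1 : L.Z.relIndex (L.Z ⊔ AddSubgroup.zmultiples u) *
        (L.Z ⊔ AddSubgroup.zmultiples u).index = p ^ 2 := by
      rw [← hZi]
      exact AddSubgroup.relIndex_mul_index le_sup_left
    have h2 : (L.Z ⊔ AddSubgroup.zmultiples u).relIndex χ.ker * p =
        (L.Z ⊔ AddSubgroup.zmultiples u).index := by
      have := AddSubgroup.relIndex_mul_index hB
      rwa [hki] at this
    have h3 : L.Z.relIndex (L.Z ⊔ AddSubgroup.zmultiples u) ≠ 1 := by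
      intro h
      rw [AddSubgroup.relIndex_eq_one] at h
      exact huZ (h (AddSubgroup.mem_sup_right (AddSubgroup.mem_zmultiples u)))
    have h4 : L.Z.relIndex (L.Z ⊔ AddSubgroup.zmultiples u) *
        (L.Z ⊔ AddSubgroup.zmultiples u).relIndex χ.ker = p := by
      rw [← h2, ← mul_assoc, pow_two] at h1
      exact Nat.eq_of_mul_eq_mul_right hp.pos h1
    have h5 : (L.Z ⊔ AddSubgroup.zmultiples u).relIndex χ.ker = 1 := by
      rcases hp.eq_one_or_self_of_dvd _ (Dvd.intro _ h4) with h | h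
      · exact absurd h h3
      · rw [h] at h4
        have : p * (L.Z ⊔ AddSubgroup.zmultiples u).relIndex χ.ker = p * 1 := by rw [h4, mul_one]
        exact Nat.eq_of_mul_eq_mul_left hp.pos this
    exact AddSubgroup.relIndex_eq_one.mp h5
  have hbu : ∀ y, χ y = 0 → L.b u y = 0 := by
    intro y hy
    have h1 := hker hy
    rw [AddSubgroup.mem_sup] at h1
    obtain ⟨z, hz, w, hw, rfl⟩ := h1
    obtain ⟨i, rfl⟩ := AddSubgroup.mem_zmultiples_iff.mp hw
    rw [map_add, map_zsmul, L.alt, smul_zero, add_zero]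
    exact L.mem_Z'.mp hz u
  have hw0 : p • L.b u x0 = 0 := hD _ (L.b_mem_D u x0)
  have hby : ∀ y, L.b u y = cy3Hom p (L.b u x0) hw0 (χ y * (χ x0)⁻¹) := by
    intro y
    rw [cy3Hom_val]
    have h1 : χ (y - (χ y * (χ x0)⁻¹).val • x0) = 0 := by
      rw [map_sub, map_nsmul, nsmul_eq_mul, ZMod.natCast_zmod_val, mul_assoc,
        inv_mul_cancel₀ hx0, mul_one, sub_self]
    have h2 := hbu _ h1
    rw [map_sub, map_nsmul, sub_eq_zero] at h2
    exact h2
  have hsym : ∀ x y, (ψ x).val • L.b u y = (ψ y).val • L.b u x := by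
    intro x y
    rw [hby y, hby x, ← map_nsmul, ← map_nsmul, nsmul_eq_mul, nsmul_eq_mul, hχv, hχv]
    congr 1
    ring
  -- the automorphism
  let e₀ : A →+ A := AddMonoidHom.id A + (cy3Hom (p ^ k) u hu).comp ψ
  have he₀ : ∀ x, e₀ x = x + (ψ x).val • u := by
    intro x
    change x + cy3Hom (p ^ k) u hu (ψ x) = _
    rw [cy3Hom_val]
  have hinj : Function.Injective e₀ := by
    rw [injective_iff_map_eq_zero]
    intro x hx
    rw [he₀] at hx
    have h1 : ψ x * (1 + ψ u) = 0 := by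
      have h2 : ψ (x + (ψ x).val • u) = 0 := by rw [hx, map_zero]
      rw [map_add, map_nsmul, nsmul_eq_mul, ZMod.natCast_zmod_val] at h2
      linear_combination h2
    have h3 : IsUnit (1 + ψ u) :=
      (cy3_nil p k (dvd_pow_self p (Nat.one_le_iff_ne_zero.mp hk)) (ψ u) hψu).isUnit_one_add
    have h4 : ψ x = 0 := by
      rwa [h3.mul_left_eq_zero] at h1
    rwa [h4, ZMod.val_zero, zero_smul, add_zero] at hx
  let e : A ≃+ A := AddEquiv.ofBijective e₀ (Finite.injective_iff_bijective.mp hinj)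
  have he : ∀ x, e x = x + (ψ x).val • u := he₀
  have haut : L.IsAut e := by
    intro x y
    rw [he, he, he, hψD _ (L.b_mem_D x y), ZMod.val_zero, zero_smul, add_zero]
    simp only [map_add, map_nsmul, AddMonoidHom.add_apply, AddMonoidHom.nsmul_apply, L.alt,
      smul_zero, add_zero]
    rw [L.skew x u, smul_neg, hsym x y]
    abel
  have hfin := hr e haut x0
  rw [he, add_sub_cancel_left] at hfin
  refine huZ (cy3_mem L.Z u (ψ x0).val p ?_ hfin (hpZ u))
  rw [Nat.coprime_comm, hp.coprime_iff_not_dvd]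
  intro h
  rw [← ZMod.natCast_eq_zero_iff, hχv] at h
  exact hx0 h

end MP_02e52a.M7
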