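import Mathlib

namespace MP_02e52a.M7

/-- [M7 DUAL] A character of order `p` of a finite abelian group that vanishes on the elements killed by `p^(k-1)` lifts to `ZMod (p^k)`. PROOF: by
`AddCommGroup.equiv_directSum_zmod_of_finite` (or the `finite'` version) `A` is a finite direct sum of groups `ZMod (q^e)`, `q` prime. It suffices
to lift `χ` on every summand, generated by `g` (image of `1`). If `q ≠ p` or `e ≤ k - 1`: every element of the summand is a sum of an element killed by `p^(k-1)`..., precisely: if `q ≠ p`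
then `χ g = 0` because `q^e g = 0` and `q^e` is invertible modulo `p`; if `q = p` and `e ≤ k-1` then `p^(k-1) g = 0` and `χ g = 0` by hypothesis; put `ψ g = 0`. If
`q = p` and `e ≥ k` put `ψ g = ((χ g).val : ZMod (p^k))`, well defined since `p^k ∣ p^e`. -/
theorem exists_lift_char {A : Type*} [AddCommGroup A] [Finite A] (p : ℕ) [Fact p.Prime] (k : ℕ) (hk : 1 ≤ k)
    (χ : A →+ ZMod p) (h : ∀ a : A, (p ^ (k - 1)) • a = 0 → χ a = 0) :
    ∃ ψ : A →+ ZMod (p ^ k), ∀ a, ZMod.castHom (dvd_pow_self p (Nat.one_le_iff_ne_zero.mp hk)) (ZMod p) (ψ a) = χ a := by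
  classical
  have hp : p.Prime := Fact.out
  obtain ⟨ι, _, q, hq, e, ⟨iso⟩⟩ := AddCommGroup.equiv_directSum_zmod_of_finite A
  let g : ι → A := fun i => iso.symm (DirectSum.of (fun i => ZMod (q i ^ e i)) i 1)
  have hg : ∀ i, (q i ^ e i) • g i = 0 := by
    intro i
    show (q i ^ e i) • iso.symm (DirectSum.of (fun i => ZMod (q i ^ e i)) i 1) = 0
    rw [← map_nsmul, ← map_nsmul, nsmul_eq_mul, ZMod.natCast_self, zero_mul, map_zero, map_zero]
  have key : ∀ i, ∃ c : ZMod (p ^ k), (q i ^ e i) • c = 0 ∧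
      ZMod.castHom (dvd_pow_self p (Nat.one_le_iff_ne_zero.mp hk)) (ZMod p) c = χ (g i) := by
    intro i
    by_cases h0 : χ (g i) = 0
    · exact ⟨0, by simp, by rw [map_zero, h0]⟩
    · refine ⟨((χ (g i)).val : ZMod (p ^ k)), ?_, ?_⟩
      · have h1 : ((q i ^ e i : ℕ) : ZMod p) * χ (g i) = 0 := by
          rw [← nsmul_eq_mul, ← map_nsmul, hg, map_zero]
        have h2 : ((q i ^ e i : ℕ) : ZMod p) = 0 := by
          rcases mul_eq_zero.1 h1 with h | h
          · exact h
          · exact absurd h h0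
        have h3 : p ∣ q i ^ e i := (ZMod.natCast_eq_zero_iff _ _).1 h2
        have h4 : p = q i := (Nat.prime_dvd_prime_iff_eq hp (hq i)).1 (hp.dvd_of_dvd_pow h3)
        have h5 : k ≤ e i := by
          by_contra h6
          push Not at h6
          apply h0
          apply h
          have h7 : e i ≤ k - 1 := by omega
          obtain ⟨r, hr⟩ := Nat.exists_eq_add_of_le h7
          rw [hr, pow_add, mul_comm, mul_smul]
          have := hg i
          rw [← h4] at this
          rw [this, smul_zero]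
        have h6 : p ^ k ∣ q i ^ e i := by rw [← h4]; exact pow_dvd_pow p h5
        rw [nsmul_eq_mul, (ZMod.natCast_eq_zero_iff _ _).2 h6, zero_mul]
      · rw [map_natCast, ZMod.natCast_zmod_val]
  choose c hc1 hc2 using key
  let ψi : ∀ i, ZMod (q i ^ e i) →+ ZMod (p ^ k) := fun i =>
    ZMod.lift (q i ^ e i) ⟨zmultiplesHom _ (c i), by
      show ((q i ^ e i : ℕ) : ℤ) • c i = 0
      rw [natCast_zsmul]; exact hc1 i⟩
  have hψi : ∀ i (n : ℤ), ψi i (n : ZMod (q i ^ e i)) = n • c i := fun i n => by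
    simp only [ψi, ZMod.lift_coe]; rfl
  let Ψ : (DirectSum ι fun i => ZMod (q i ^ e i)) →+ ZMod (p ^ k) := DirectSum.toAddMonoid ψi
  refine ⟨Ψ.comp iso.toAddMonoidHom, ?_⟩
  have hmain : ((ZMod.castHom (dvd_pow_self p (Nat.one_le_iff_ne_zero.mp hk)) (ZMod p)).toAddMonoidHom.comp Ψ) =
      χ.comp iso.symm.toAddMonoidHom := by
    apply DirectSum.addHom_ext
    intro i y
    obtain ⟨n, rfl⟩ := ZMod.intCast_surjective y
    have e1 : Ψ (DirectSum.of (fun i => ZMod (q i ^ e i)) i (n : ZMod (q i ^ e i))) = n • c i := by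
      simp only [Ψ, DirectSum.toAddMonoid_of, hψi]
    have e2 : iso.symm (DirectSum.of (fun i => ZMod (q i ^ e i)) i (n : ZMod (q i ^ e i))) = n • g i := by
      show _ = n • iso.symm (DirectSum.of (fun i => ZMod (q i ^ e i)) i 1)
      rw [← map_zsmul, ← map_zsmul, zsmul_eq_mul, mul_one]
    show ZMod.castHom (dvd_pow_self p (Nat.one_le_iff_ne_zero.mp hk)) (ZMod p) (Ψ (DirectSum.of (fun i => ZMod (q i ^ e i)) i (n : ZMod (q i ^ e i)))) =
      χ (iso.symm (DirectSum.of (fun i => ZMod (q i ^ e i)) i (n : ZMod (q i ^ e i))))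
    rw [e1, e2, map_zsmul, map_zsmul, hc2]
  intro a
  have := DFunLike.congr_fun hmain (iso a)
  simpa using this

end MP_02e52a.M7
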