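import Pool.Agent.Lib.MP_02e52a_al.M7.CY2
import Pool.Agent.Lib.MP_02e52a_al.M7.CY1
import Pool.Agent.Lib.MP_02e52a_al.M7.CY3
import Pool.Agent.Lib.MP_02e52a_al.M7.Dual

namespace MP_02e52a.M7

private theorem cy4_vec' {V : Type*} [AddCommGroup V] (p : ℕ) [Fact p.Prime] [Module (ZMod p) V]
    (x : V) (hx : x ≠ 0) : ∃ χ : V →+ ZMod p, χ x = 1 := by
  obtain ⟨f, hf⟩ := Module.Projective.exists_dual_eq_one (ZMod p) hx
  exact ⟨f.toAddMonoidHom, hf⟩

private theorem cy4_vec {V : Type*} [AddCommGroup V] (p : ℕ) [Fact p.Prime]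
    (hp : ∀ x : V, p • x = 0) (x : V) (hx : x ≠ 0) : ∃ χ : V →+ ZMod p, χ x = 1 :=
  @cy4_vec' V _ p _ (AddCommGroup.zmodModule hp) x hx

private theorem cy4_char {A : Type*} [AddCommGroup A] (p : ℕ) [Fact p.Prime] (H : AddSubgroup A)
    (hp : ∀ x, p • x ∈ H) (x : A) (hx : x ∉ H) :
    ∃ χ : A →+ ZMod p, (∀ h ∈ H, χ h = 0) ∧ χ x = 1 := by
  obtain ⟨f, hf⟩ := cy4_vec (V := A ⧸ H) p (by
    intro y
    obtain ⟨a, rfl⟩ := QuotientAddGroup.mk_surjective y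
    rw [← QuotientAddGroup.mk_nsmul]
    exact (QuotientAddGroup.eq_zero_iff _).2 (hp a)) (QuotientAddGroup.mk x)
    (fun h => hx ((QuotientAddGroup.eq_zero_iff _).1 h))
  refine ⟨f.comp (QuotientAddGroup.mk' H), ?_, hf⟩
  intro h hh
  have h1 : (QuotientAddGroup.mk' H) h = 0 := (QuotientAddGroup.eq_zero_iff _).2 hh
  rw [AddMonoidHom.comp_apply, h1, map_zero]

private theorem cy4_comb (p k : ℕ) [Fact p.Prime] (hk : 1 ≤ k) (a b : ZMod (p ^ k))
    (ha : p • a = 0) (hb : p • b = 0) (hb0 : b ≠ 0) : ∃ m : ℕ, a + m • b = 0 := by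
  have hp : p.Prime := Fact.out
  have hNe : NeZero (p ^ k) := ⟨pow_ne_zero _ hp.ne_zero⟩
  have key : ∀ c : ZMod (p ^ k), p • c = 0 → ∃ c' : ℕ, c = ((p ^ (k - 1) * c' : ℕ) : ZMod (p ^ k)) := by
    intro c hc
    have h1 : ((p * c.val : ℕ) : ZMod (p ^ k)) = 0 := by
      push_cast
      rw [ZMod.natCast_zmod_val, ← nsmul_eq_mul, hc]
    have h2 : p ^ k ∣ p * c.val := (ZMod.natCast_eq_zero_iff _ _).1 h1
    have h3 : p ^ k = p * p ^ (k - 1) := by
      rw [← pow_succ']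
      congr 1
      omega
    obtain ⟨c', hc'⟩ := Nat.dvd_of_mul_dvd_mul_left hp.pos ((dvd_of_eq h3.symm).trans h2)
    exact ⟨c', by rw [← hc', ZMod.natCast_zmod_val]⟩
  obtain ⟨a', ha'⟩ := key a ha
  obtain ⟨b', hb'⟩ := key b hb
  have hbp : ¬ p ∣ b' := by
    rintro ⟨c, rfl⟩
    apply hb0
    rw [hb', ← mul_assoc, ← pow_succ, Nat.sub_add_cancel hk]
    push_cast
    rw [← Nat.cast_pow, ZMod.natCast_self, zero_mul]
  have hu : IsUnit ((b' : ℕ) : ZMod (p ^ k)) := by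
    rw [ZMod.isUnit_iff_coprime]
    exact Nat.Coprime.pow_right _ ((Nat.Prime.coprime_iff_not_dvd hp).2 hbp).symm
  obtain ⟨v, hv⟩ := hu
  refine ⟨((v⁻¹ : (ZMod (p ^ k))ˣ) * -(a' : ZMod (p ^ k)) : ZMod (p ^ k)).val, ?_⟩
  rw [nsmul_eq_mul, ZMod.natCast_zmod_val, ha', hb']
  push_cast
  rw [← hv]
  have h4 : ((v⁻¹ : (ZMod (p ^ k))ˣ) : ZMod (p ^ k)) * (v : ZMod (p ^ k)) = 1 := by simp
  linear_combination (-(a' : ZMod (p ^ k)) * (p : ZMod (p ^ k)) ^ (k - 1)) * h4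

/-- [M7 CY4] `D` is not cyclic. PROOF. Suppose it is. By `cyc_card` `|D| = p`, `D = ℤ ζ0`, `p ζ0 = 0`, `p A ≤ Z`, by `cyc_quot` `|A ⧸ Z| = p^2`, by `cyc_socle` all elements killed by
`p` are in `Z`. Let `k` be minimal such that some `u ∉ Z` has `p^k u = 0` (exists: `A` is a finite `p`-group and `A ≠ Z`); `k ≥ 2`; all elements killed by `p^(k-1)` are in `Z`.
Case (i): all elements killed by `p^k` are in `Z + ℤ u`. Let `χ : A →+ ZMod p` be nonzero with kernel `Z + ℤ u` (index `p`). By `exists_lift_char` with `k + 1` there is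
`ψ' : A →+ ZMod (p^(k+1))` lifting `χ`; `ψ` = `ψ'` reduced modulo `p^k`. `p ψ' ζ0 = 0` so `ψ' ζ0 ∈ p^k ZMod (p^(k+1))`, `ψ ζ0 = 0`. `cyc_no_lift` gives a contradiction.
Case (ii): there is `u'` with `p^k u' = 0`, `u' ∉ Z + ℤ u`; the classes of `u, u'` are a basis of `A ⧸ Z`. Let `χ, χ' : A →+ ZMod p` vanish on `Z` with `χ u = 0`, `χ u' = 1`, `χ' u = 1`, `χ' u' = 0`;
by `exists_lift_char` (`k`) lift them to `ψ, ψ' : A →+ ZMod (p^k)`. If `ψ ζ0 = 0` use `(ψ, u)`; if `ψ' ζ0 = 0` use `(ψ', u')`. Otherwise both are nonzero elements killed by `p` of the cyclic group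
`ZMod (p^k)`, so `ψ ζ0 + m ψ' ζ0 = 0` for an integer `m` prime to `p`. Use `ψ + m ψ'` and `u'' = u - m u'`: `(χ + m χ') u'' = m - m = 0`... (`χ u'' = -m`, `χ' u'' = 1`), `p^k u'' = 0`, `u'' ∉ Z`. -/
theorem not_cyclic {A : Type*} [AddCommGroup A] [Finite A] (p : ℕ) [Fact p.Prime] (L : LR A)
    (hr : L.Rig) (hA : Nat.card A = p ^ 7) (hb : ∃ x y, L.b x y ≠ 0) : ¬ IsAddCyclic L.D := by
  classical
  intro hcyc
  have hp : p.Prime := Fact.out
  have hDp := cyc_card p L hr hA hb hcyc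
  have hV := cyc_quot p L hr hA hDp
  have hD : ∀ d ∈ L.D, p • d = 0 := by
    intro d hd
    have h1 : Nat.card L.D • (⟨d, hd⟩ : L.D) = 0 := card_nsmul_eq_zero'
    rw [hDp] at h1
    exact congrArg Subtype.val h1
  have hpZ : ∀ x, p • x ∈ L.Z := by
    intro x
    rw [L.mem_Z]
    intro y
    rw [map_nsmul, AddMonoidHom.nsmul_apply]
    exact hD _ (L.b_mem_D x y)
  obtain ⟨ζ, hζ⟩ := hcyc.exists_generator
  have hgen : ∀ {n : ℕ} (ψ : A →+ ZMod n), ψ ζ = 0 → ∀ d ∈ L.D, ψ d = 0 := by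
    intro n ψ h d hd
    obtain ⟨m, hm⟩ := AddSubgroup.mem_zmultiples_iff.1 (hζ ⟨d, hd⟩)
    have h1 : d = m • (ζ : A) := by
      have := congrArg Subtype.val hm
      exact this.symm
    rw [h1, map_zsmul, h, smul_zero]
  have hζp : p • (ζ : A) = 0 := hD _ ζ.2
  -- minimal k
  have hex : ∃ k, ∃ u, u ∉ L.Z ∧ p ^ k • u = 0 := by
    obtain ⟨x, y, hxy⟩ := hb
    refine ⟨7, x, fun h => hxy (h y), ?_⟩
    rw [← hA]
    exact card_nsmul_eq_zero'
  obtain ⟨k, ⟨u, huZ, hu⟩, hmin⟩ : ∃ k, (∃ u, u ∉ L.Z ∧ p ^ k • u = 0) ∧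
      ∀ j, j < k → ∀ a, p ^ j • a = 0 → a ∈ L.Z := by
    refine ⟨Nat.find hex, Nat.find_spec hex, ?_⟩
    intro j hj a ha
    by_contra h
    exact Nat.find_min hex hj ⟨a, h, ha⟩
  have hk : 1 ≤ k := by
    by_contra h
    have h0 : k = 0 := by omega
    rw [h0, pow_zero, one_smul] at hu
    exact huZ (hu ▸ L.Z.zero_mem)
  have hk1 : ∀ a, p ^ (k - 1) • a = 0 → a ∈ L.Z := hmin (k - 1) (by omega)
  set H : AddSubgroup A := L.Z ⊔ AddSubgroup.zmultiples u with hH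
  have hZH : L.Z ≤ H := le_sup_left
  have huH : u ∈ H := (le_sup_right : AddSubgroup.zmultiples u ≤ H) (AddSubgroup.mem_zmultiples u)
  by_cases hcase : ∀ a, p ^ k • a = 0 → a ∈ H
  · -- case (i)
    obtain ⟨x, hx⟩ : ∃ x, x ∉ H := by
      by_contra hall
      push Not at hall
      have hc : IsAddCyclic (A ⧸ L.Z) := by
        refine ⟨⟨QuotientAddGroup.mk u, ?_⟩⟩
        intro y
        obtain ⟨a, rfl⟩ := QuotientAddGroup.mk_surjective y
        obtain ⟨z, hz, w, hw, hzw⟩ := AddSubgroup.mem_sup.1 (hall a)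
        obtain ⟨m, rfl⟩ := AddSubgroup.mem_zmultiples_iff.1 hw
        refine AddSubgroup.mem_zmultiples_iff.2 ⟨m, ?_⟩
        rw [← hzw, QuotientAddGroup.mk_add, (QuotientAddGroup.eq_zero_iff z).2 hz, zero_add,
          QuotientAddGroup.mk_zsmul]
      have h1 : AddMonoid.exponent (A ⧸ L.Z) ∣ p := by
        apply AddMonoid.exponent_dvd_of_forall_nsmul_eq_zero
        intro y
        obtain ⟨a, rfl⟩ := QuotientAddGroup.mk_surjective y
        rw [← QuotientAddGroup.mk_nsmul]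
        exact (QuotientAddGroup.eq_zero_iff _).2 (hpZ a)
      rw [IsAddCyclic.exponent_eq_card, hV] at h1
      have h2 := Nat.le_of_dvd hp.pos h1
      nlinarith [hp.two_le]
    obtain ⟨χ, hχH, hχx⟩ := cy4_char p H (fun y => hZH (hpZ y)) x hx
    obtain ⟨ψ', hψ'⟩ := exists_lift_char p (k + 1) (by omega) χ (by
      intro a ha
      rw [Nat.add_sub_cancel] at ha
      exact hχH a (hcase a ha))
    have hdvd : p ^ k ∣ p ^ (k + 1) := pow_dvd_pow p (Nat.le_succ k)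
    set ψ : A →+ ZMod (p ^ k) := (ZMod.castHom hdvd (ZMod (p ^ k))).toAddMonoidHom.comp ψ' with hψdef
    have hψv : ∀ a, ψ a = ZMod.castHom hdvd (ZMod (p ^ k)) (ψ' a) := fun a => rfl
    have hψ : ∀ a, ZMod.castHom (dvd_pow_self p (Nat.one_le_iff_ne_zero.mp hk)) (ZMod p) (ψ a) = χ a := by
      intro a
      rw [hψv, ← hψ' a, ← RingHom.comp_apply]
      congr 1
      exact Subsingleton.elim _ _
    have hψζ : ψ ζ = 0 := by
      have h1 : p • ψ' ζ = 0 := by rw [← map_nsmul, hζp, map_zero]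
      have hNe : NeZero (p ^ (k + 1)) := ⟨pow_ne_zero _ hp.ne_zero⟩
      have h2 : ((p * (ψ' ζ).val : ℕ) : ZMod (p ^ (k + 1))) = 0 := by
        push_cast
        rw [ZMod.natCast_zmod_val, ← nsmul_eq_mul, h1]
      have h3 : p ^ (k + 1) ∣ p * (ψ' ζ).val := (ZMod.natCast_eq_zero_iff _ _).1 h2
      have h4 := Nat.dvd_of_mul_dvd_mul_left hp.pos ((dvd_of_eq (pow_succ' p k).symm).trans h3)
      rw [hψv, ← ZMod.natCast_zmod_val (ψ' ζ), map_natCast]
      exact (ZMod.natCast_eq_zero_iff _ _).2 h4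
    refine cyc_no_lift p L hr hpZ hD hV k hk ψ u hu huZ ?_ ?_ ⟨x, ?_⟩ (hgen ψ hψζ)
    · intro z hz; rw [hψ, hχH z (hZH hz)]
    · rw [hψ, hχH u huH]
    · rw [hψ, hχx]; exact one_ne_zero
  · -- case (ii)
    push Not at hcase
    obtain ⟨u', hu', hu'H⟩ := hcase
    set H' : AddSubgroup A := L.Z ⊔ AddSubgroup.zmultiples u' with hH'
    have hZH' : L.Z ≤ H' := le_sup_left
    have hu'H' : u' ∈ H' := (le_sup_right : AddSubgroup.zmultiples u' ≤ H') (AddSubgroup.mem_zmultiples u')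
    have huH' : u ∉ H' := by
      intro h
      obtain ⟨z, hz, w, hw, hzw⟩ := AddSubgroup.mem_sup.1 h
      obtain ⟨m, rfl⟩ := AddSubgroup.mem_zmultiples_iff.1 hw
      by_cases hm : (p : ℤ) ∣ m
      · obtain ⟨c, rfl⟩ := hm
        apply huZ
        rw [← hzw]
        refine L.Z.add_mem hz ?_
        rw [mul_comm, mul_zsmul, natCast_zsmul]
        exact L.Z.zsmul_mem (hpZ _) c
      · apply hu'H
        obtain ⟨a, b, hab⟩ : IsCoprime (p : ℤ) m := by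
          rw [Int.isCoprime_iff_gcd_eq_one]
          exact (Int.isCoprime_iff_gcd_eq_one.1 ((Prime.coprime_iff_not_dvd (Nat.prime_iff_prime_int.1 hp)).2 hm))
        have h1 : u' = a • (p • u') + b • (u - z) := by
          rw [← hzw, add_sub_cancel_left, ← natCast_zsmul u' p, ← mul_zsmul, ← mul_zsmul, ← add_zsmul, hab, one_zsmul]
        rw [h1]
        exact H.add_mem (H.zsmul_mem (hZH (hpZ _)) a) (H.zsmul_mem (H.sub_mem huH (hZH hz)) b)
    obtain ⟨χ, hχH, hχu'⟩ := cy4_char p H (fun y => hZH (hpZ y)) u' hu'H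
    obtain ⟨χ', hχ'H, hχ'u⟩ := cy4_char p H' (fun y => hZH' (hpZ y)) u huH'
    obtain ⟨ψ, hψ⟩ := exists_lift_char p k hk χ (fun a ha => hχH a (hZH (hk1 a ha)))
    obtain ⟨ψ', hψ'⟩ := exists_lift_char p k hk χ' (fun a ha => hχ'H a (hZH' (hk1 a ha)))
    by_cases hb0 : ψ' ζ = 0
    · refine cyc_no_lift p L hr hpZ hD hV k hk ψ' u' hu' (fun h => hu'H (hZH h)) ?_ ?_ ⟨u, ?_⟩ (hgen ψ' hb0)
      · intro z hz; rw [hψ', hχ'H z (hZH' hz)]
      · rw [hψ', hχ'H u' hu'H']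
      · rw [hψ', hχ'u]; exact one_ne_zero
    · obtain ⟨m, hm⟩ := cy4_comb p k hk (ψ ζ) (ψ' ζ) (by rw [← map_nsmul, hζp, map_zero])
        (by rw [← map_nsmul, hζp, map_zero]) hb0
      have hv : ∀ a, ZMod.castHom (dvd_pow_self p (Nat.one_le_iff_ne_zero.mp hk)) (ZMod p)
          ((ψ + m • ψ') a) = χ a + m • χ' a := by
        intro a
        rw [AddMonoidHom.add_apply, AddMonoidHom.nsmul_apply, map_add, map_nsmul, hψ, hψ']
      refine cyc_no_lift p L hr hpZ hD hV k hk (ψ + m • ψ') (u - m • u') ?_ ?_ ?_ ?_ ⟨u', ?_⟩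
        (hgen _ (by rw [AddMonoidHom.add_apply, AddMonoidHom.nsmul_apply]; exact hm))
      · rw [smul_sub, hu, smul_comm, hu', smul_zero, sub_zero]
      · intro h
        have h1 := hχ'H _ (hZH' h)
        rw [map_sub, map_nsmul, hχ'u, hχ'H u' hu'H', smul_zero, sub_zero] at h1
        exact one_ne_zero h1
      · intro z hz; rw [hv, hχH z (hZH hz), hχ'H z (hZH' hz), smul_zero, add_zero]
      · rw [hv, map_sub, map_sub, map_nsmul, map_nsmul, hχH u huH, hχu', hχ'u, hχ'H u' hu'H', smul_zero, sub_zero,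
          zero_sub, neg_add_cancel]
      · rw [hv, hχu', hχ'H u' hu'H', smul_zero, add_zero]; exact one_ne_zero

end MP_02e52a.M7
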