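import Mathlib

/-!
# MP_02e52a_al (Miller p-groups of order p^7): definitions

A group of odd order and class at most two is the same thing as an abelian group `A` with a biadditive
alternating bracket `b` with `b (b x y) z = 0` (Baer correspondence).
-/

namespace MP_02e52a.M7

/-- An additive group with a biadditive alternating bracket of class at most two. -/
structure LR (A : Type*) [AddCommGroup A] where
  /-- the bracket -/
  b : A →+ A →+ A
  alt : ∀ x, b x x = 0
  nil : ∀ x y z, b (b x y) z = 0

namespace LR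

variable {A : Type*} [AddCommGroup A] (L : LR A)

theorem skew (x y : A) : L.b x y = - L.b y x := by
  have h := L.alt (x + y)
  simp only [map_add, AddMonoidHom.add_apply, L.alt, zero_add, add_zero] at h
  exact eq_neg_of_add_eq_zero_right h

/-- the centre -/
def Z : AddSubgroup A where
  carrier := {z | ∀ x, L.b z x = 0}
  add_mem' := by
    intro a c ha hc x
    simp only [Set.mem_setOf_eq] at ha hc
    simp [ha x, hc x]
  zero_mem' := by intro x; simp
  neg_mem' := by
    intro a ha x
    simp only [Set.mem_setOf_eq] at ha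
    simp [ha x]

theorem mem_Z {z : A} : z ∈ L.Z ↔ ∀ x, L.b z x = 0 := Iff.rfl

theorem mem_Z' {z : A} : z ∈ L.Z ↔ ∀ x, L.b x z = 0 := by
  rw [mem_Z]
  constructor
  · intro h x; rw [L.skew, h x, neg_zero]
  · intro h x; rw [L.skew, h x, neg_zero]

/-- the derived subgroup -/
def D : AddSubgroup A := AddSubgroup.closure {w | ∃ x y, w = L.b x y}

theorem b_mem_D (x y : A) : L.b x y ∈ L.D := AddSubgroup.subset_closure ⟨x, y, rfl⟩

theorem b_mem_Z (x y : A) : L.b x y ∈ L.Z := fun z => L.nil x y z

theorem D_le_Z : L.D ≤ L.Z := by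
  unfold D
  rw [AddSubgroup.closure_le]
  rintro w ⟨x, y, rfl⟩
  exact L.b_mem_Z x y

/-- `e` is an automorphism of the Lie ring -/
def IsAut (e : A ≃+ A) : Prop := ∀ x y, e (L.b x y) = L.b (e x) (e y)

/-- the automorphism group is commutative -/
def Comm : Prop := ∀ e f : A ≃+ A, L.IsAut e → L.IsAut f → ∀ x, e (f x) = f (e x)

/-- all automorphisms are central -/
def Rig : Prop := ∀ e : A ≃+ A, L.IsAut e → ∀ x, e x - x ∈ L.Z

end LR

/-- The data `(V, Z, β, π)` of a class-two Lie ring `A` with `p A ≤ Z`: here `V = A / Z`, `β` is the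
bracket and `π` is multiplication by `p` (on representatives), which is additive modulo `p Z`. -/
structure TD (p : ℕ) (V Z : Type*) [AddCommGroup V] [AddCommGroup Z] where
  β : V →+ V →+ Z
  alt : ∀ v, β v v = 0
  π : V → Z
  add : ∀ u v, ∃ z, π (u + v) - π u - π v = p • z

namespace TD

variable {p : ℕ} {V Z : Type*} [AddCommGroup V] [AddCommGroup Z] (t : TD p V Z)

/-- span of the values of `β` -/
def D : AddSubgroup Z := AddSubgroup.closure {w | ∃ u v, w = t.β u v}

theorem β_mem_D (u v : V) : t.β u v ∈ t.D := AddSubgroup.subset_closure ⟨u, v, rfl⟩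

/-- There is a pair `(g, c)`, `g ≠ 1`, compatible with `β` and `π`. -/
def NonFree : Prop :=
  ∃ (g : V ≃+ V) (c : Z ≃+ Z), (∃ v, g v ≠ v) ∧ (∀ u v, c (t.β u v) = t.β (g u) (g v)) ∧
    ∀ v, ∃ z, t.π (g v) - c (t.π v) = p • z

theorem skew (x y : V) : t.β x y = - t.β y x := by
  have h := t.alt (x + y)
  simp only [map_add, AddMonoidHom.add_apply, t.alt, zero_add, add_zero] at h
  exact eq_neg_of_add_eq_zero_right h

end TD

end MP_02e52a.M7
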