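import Pool.Agent.Lib.MP_02e52a_al.M7.NetDefs

namespace MP_02e52a.M7

variable {p : ℕ} [Fact p.Prime]

private theorem s0_expand (g : VV p ≃ₗ[ZMod p] VV p) (x : VV p) :
    g x = x 0 • g ![1, 0, 0, 0] + x 1 • g ![0, 1, 0, 0] + x 2 • g ![0, 0, 1, 0] + x 3 • g ![0, 0, 0, 1] := by
  have hx : x = x 0 • ![1, 0, 0, 0] + x 1 • ![0, 1, 0, 0] + x 2 • ![0, 0, 1, 0] + x 3 • ![0, 0, 0, 1] := by
    ext i; fin_cases i <;> simp
  conv_lhs => rw [hx]
  simp only [map_add, map_smul]

/-- [M7 S0] Stabiliser of `netK 0`. PROOF (by centralisers of vectors). Put `g j = g (e j)`. `(←)` is a computation. `(→)`: `β (e1) (e3) = β (e2) (e3) = 0`, so `g 1, g 2` are in the centraliser of `g 3`, which has dimension 1 if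
`g 3 0 ≠ 0`, dimension 2 if `g 3 0 = 0` and `(g 3 1, g 3 2) ≠ 0`; so `g 3 = b e3` and then `g 1 0 = g 2 0 = 0`. `β (e0) (e3) = β (e1) (e2)` gives `a b = det M`. -/
theorem stab_net0 (g : VV p ≃ₗ[ZMod p] VV p) :
    (∃ h : WW p ≃ₗ[ZMod p] WW p, ∀ u v, h (netK 0 u v) = netK 0 (g u) (g v)) ↔
      ∃ (a b m1 m2 c0 c1 c2 : ZMod p) (M : Matrix (Fin 2) (Fin 2) (ZMod p)), a * b = M.det ∧ M.det ≠ 0 ∧
        ∀ x, g x = ![a * x 0, M 0 0 * x 1 + M 0 1 * x 2 + m1 * x 0, M 1 0 * x 1 + M 1 1 * x 2 + m2 * x 0,
          b * x 3 + c0 * x 0 + c1 * x 1 + c2 * x 2] := by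
  constructor
  · rintro ⟨h, hh⟩
    set g0 : VV p := g ![1, 0, 0, 0] with hg0
    set g1 : VV p := g ![0, 1, 0, 0] with hg1
    set g2 : VV p := g ![0, 0, 1, 0] with hg2
    set g3 : VV p := g ![0, 0, 0, 1] with hg3
    have inj : ∀ x : VV p, g x = 0 → x = 0 := fun x hx => by
      have := g.injective (a₁ := x) (a₂ := 0) (by rw [hx, map_zero])
      exact this
    have comb : ∀ r s t q : ZMod p, r • g0 + s • g1 + t • g2 + q • g3 = 0 → r = 0 ∧ s = 0 ∧ t = 0 ∧ q = 0 := by
      intro r s t q hq
      have h1 := s0_expand g ![r, s, t, q]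
      simp only [Matrix.cons_val_zero, Matrix.cons_val_one, Matrix.cons_val] at h1
      rw [← hg0, ← hg1, ← hg2, ← hg3, hq] at h1
      have h2 := inj _ h1
      refine ⟨?_, ?_, ?_, ?_⟩
      · have := congrFun h2 0; simpa using this
      · have := congrFun h2 1; simpa using this
      · have := congrFun h2 2; simpa using this
      · have := congrFun h2 3; simpa using this
    have e13 : netK 0 g1 g3 = 0 := by
      rw [hg1, hg3, ← hh]
      have : netK 0 (![0, 1, 0, 0] : VV p) ![0, 0, 0, 1] = 0 := by
        ext i; fin_cases i <;> simp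
      rw [this, map_zero]
    have e23 : netK 0 g2 g3 = 0 := by
      rw [hg2, hg3, ← hh]
      have : netK 0 (![0, 0, 1, 0] : VV p) ![0, 0, 0, 1] = 0 := by
        ext i; fin_cases i <;> simp
      rw [this, map_zero]
    have e03 : netK 0 g0 g3 = netK 0 g1 g2 := by
      rw [hg0, hg3, hg1, hg2, ← hh, ← hh]
      congr 1
      ext i; fin_cases i <;> simp
    have a13 := congrFun e13 0
    have b13 := congrFun e13 1
    have c13 := congrFun e13 2
    have a23 := congrFun e23 0
    have b23 := congrFun e23 1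
    have c23 := congrFun e23 2
    have b03 := congrFun e03 1
    simp only [netK_apply, Matrix.cons_val_zero, Matrix.cons_val_one, Matrix.cons_val, Pi.zero_apply, zero_mul,
      add_zero] at a13 b13 c13 a23 b23 c23 b03
    -- `g3 0 = 0`
    have h30 : g3 0 = 0 := by
      by_contra hne
      have := comb 0 (g3 0) 0 (- g1 0) (by
        ext i; fin_cases i
        · simp; ring
        · simp; linear_combination (-1 : ZMod p) * c13
        · simp; linear_combination (-1 : ZMod p) * a13
        · simp
          have : g3 0 * (g3 0 * g1 3 - g1 0 * g3 3) = 0 := by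
            linear_combination (- g3 0) * b13 + g3 1 * a13 - g3 2 * c13
          rcases mul_eq_zero.1 this with h | h
          · exact absurd h hne
          · linear_combination h)
      exact hne this.2.1
    rw [h30] at a13 b13 c13 a23 b23 c23
    simp only [mul_zero, sub_zero] at a13 b13 c13 a23 b23 c23
    -- `g3 1 = g3 2 = 0`
    have h312 : g3 1 = 0 ∧ g3 2 = 0 := by
      by_contra hne
      have hg10 : g1 0 = 0 := by
        by_contra h'
        exact hne ⟨(mul_eq_zero.1 c13).resolve_left h', (mul_eq_zero.1 a13).resolve_left h'⟩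
      have hg20 : g2 0 = 0 := by
        by_contra h'
        exact hne ⟨(mul_eq_zero.1 c23).resolve_left h', (mul_eq_zero.1 a23).resolve_left h'⟩
      rw [hg10] at b13
      rw [hg20] at b23
      have key1 : g3 1 = 0 := by
        by_contra hk
        have k1 := comb 0 (g3 1 * (g3 1 * g2 3 - g2 1 * g3 3)) (- g3 1 * (g3 1 * g1 3 - g1 1 * g3 3))
          (g2 1 * (g3 1 * g1 3 - g1 1 * g3 3) - g1 1 * (g3 1 * g2 3 - g2 1 * g3 3)) (by
            ext i; fin_cases i
            · simp [hg10, hg20, h30]
            · simp; ring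
            · simp; linear_combination (- (g3 1 * g2 3 - g2 1 * g3 3)) * b13 + (g3 1 * g1 3 - g1 1 * g3 3) * b23
            · simp; ring)
        have w2 : g3 1 * g2 3 - g2 1 * g3 3 = 0 := (mul_eq_zero.1 k1.2.1).resolve_left hk
        have k2 := comb 0 0 (g3 1) (- g2 1) (by
            ext i; fin_cases i
            · simp [hg20, h30]
            · simp; ring
            · simp; linear_combination - b23
            · simp; linear_combination w2)
        exact hk k2.2.2.1
      have key2 : g3 2 = 0 := by
        by_contra hk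
        have k1 := comb 0 (g3 2 * (g3 2 * g2 3 - g2 2 * g3 3)) (- g3 2 * (g3 2 * g1 3 - g1 2 * g3 3))
          (g2 2 * (g3 2 * g1 3 - g1 2 * g3 3) - g1 2 * (g3 2 * g2 3 - g2 2 * g3 3)) (by
            ext i; fin_cases i
            · simp [hg10, hg20, h30]
            · simp; linear_combination (g3 2 * g2 3 - g2 2 * g3 3) * b13 - (g3 2 * g1 3 - g1 2 * g3 3) * b23
            · simp; ring
            · simp; ring)
        have w2 : g3 2 * g2 3 - g2 2 * g3 3 = 0 := (mul_eq_zero.1 k1.2.1).resolve_left hk
        have k2 := comb 0 0 (g3 2) (- g2 2) (by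
            ext i; fin_cases i
            · simp [hg20, h30]
            · simp; linear_combination b23
            · simp; ring
            · simp; linear_combination w2)
        exact hk k2.2.2.1
      exact hne ⟨key1, key2⟩
    obtain ⟨h31, h32⟩ := h312
    have hb : g3 3 ≠ 0 := by
      intro hb
      have := comb 0 0 0 1 (by ext i; fin_cases i <;> simp [h30, h31, h32, hb])
      exact one_ne_zero this.2.2.2
    rw [h31, h32] at b13 b23
    simp only [mul_zero, sub_zero, add_zero] at b13 b23
    have hg10 : g1 0 = 0 := (mul_eq_zero.1 b13).resolve_right hb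
    have hg20 : g2 0 = 0 := (mul_eq_zero.1 b23).resolve_right hb
    rw [h30, h31, h32, hg10, hg20] at b03
    have hdet : g1 1 * g2 2 - g2 1 * g1 2 ≠ 0 := by
      intro hd
      have k1 := comb 0 (g3 3 * g2 1) (- g3 3 * g1 1) (- (g2 1 * g1 3 - g1 1 * g2 3)) (by
        ext i; fin_cases i
        · simp [hg10, hg20, h30]
        · simp [h31]; ring
        · simp [h32]; linear_combination (- g3 3) * hd
        · simp; ring)
      have k2 := comb 0 (g3 3 * g2 2) (- g3 3 * g1 2) (- (g2 2 * g1 3 - g1 2 * g2 3)) (by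
        ext i; fin_cases i
        · simp [hg10, hg20, h30]
        · simp [h31]; linear_combination (g3 3) * hd
        · simp [h32]; ring
        · simp; ring)
      have z1 : g1 1 = 0 := (mul_eq_zero.1 k1.2.2.1).resolve_left (neg_ne_zero.2 hb)
      have z2 : g1 2 = 0 := (mul_eq_zero.1 k2.2.2.1).resolve_left (neg_ne_zero.2 hb)
      have k3 := comb 0 (g3 3) 0 (- g1 3) (by
        ext i; fin_cases i
        · simp [hg10, h30]
        · simp [h31, z1]
        · simp [h32, z2]
        · simp; ring)
      exact hb k3.2.1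
    have hMdet : (!![g1 1, g2 1; g1 2, g2 2] : Matrix (Fin 2) (Fin 2) (ZMod p)).det =
        g1 1 * g2 2 - g2 1 * g1 2 := by rw [Matrix.det_fin_two_of]
    refine ⟨g0 0, g3 3, g0 1, g0 2, g0 3, g1 3, g2 3, !![g1 1, g2 1; g1 2, g2 2], ?_, ?_, fun x => ?_⟩
    · rw [hMdet]; linear_combination b03
    · rw [hMdet]; exact hdet
    · rw [s0_expand g x, ← hg0, ← hg1, ← hg2, ← hg3]
      ext i; fin_cases i
      · simp [hg10, hg20, h30]; ring
      · simp [h31]; ring
      · simp [h32]; ring
      · simp; ring
  · rintro ⟨a, b, m1, m2, c0, c1, c2, M, hab, hM, hg⟩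
    have ha : a ≠ 0 := by rintro rfl; rw [zero_mul] at hab; exact hM hab.symm
    have hb : b ≠ 0 := by rintro rfl; rw [mul_zero] at hab; exact hM hab.symm
    rw [Matrix.det_fin_two] at hab hM
    let H : WW p →ₗ[ZMod p] WW p :=
      { toFun := fun w => ![a * (M 1 1 * w 0 + M 1 0 * w 2),
          (a * c2 + m1 * M 1 1 - m2 * M 0 1) * w 0 + a * b * w 1 + (a * c1 + m1 * M 1 0 - m2 * M 0 0) * w 2,
          a * (M 0 1 * w 0 + M 0 0 * w 2)]
        map_add' := by intro w w'; ext i; fin_cases i <;> simp <;> ring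
        map_smul' := by intro c w; ext i; fin_cases i <;> simp <;> ring }
    have hH : ∀ w, H w = ![a * (M 1 1 * w 0 + M 1 0 * w 2),
          (a * c2 + m1 * M 1 1 - m2 * M 0 1) * w 0 + a * b * w 1 + (a * c1 + m1 * M 1 0 - m2 * M 0 0) * w 2,
          a * (M 0 1 * w 0 + M 0 0 * w 2)] := fun w => rfl
    have hinj : Function.Injective H := by
      rw [injective_iff_map_eq_zero]
      intro w hw
      rw [hH] at hw
      have e0 := congrFun hw 0
      have e1 := congrFun hw 1
      have e2 := congrFun hw 2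
      simp only [Matrix.cons_val_zero, Matrix.cons_val_one, Matrix.cons_val, Pi.zero_apply] at e0 e1 e2
      have f0 := (mul_eq_zero.1 e0).resolve_left ha
      have f2 := (mul_eq_zero.1 e2).resolve_left ha
      have w0 : w 0 = 0 := by
        have : (M 0 0 * M 1 1 - M 0 1 * M 1 0) * w 0 = 0 := by
          linear_combination M 0 0 * f0 - M 1 0 * f2
        exact (mul_eq_zero.1 this).resolve_left hM
      have w2 : w 2 = 0 := by
        have : (M 0 0 * M 1 1 - M 0 1 * M 1 0) * w 2 = 0 := by
          linear_combination M 1 1 * f2 - M 0 1 * f0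
        exact (mul_eq_zero.1 this).resolve_left hM
      have w1 : w 1 = 0 := by
        rw [w0, w2] at e1
        have : (a * b) * w 1 = 0 := by linear_combination e1
        exact (mul_eq_zero.1 this).resolve_left (mul_ne_zero ha hb)
      ext i; fin_cases i
      · exact w0
      · exact w1
      · exact w2
    refine ⟨LinearEquiv.ofInjectiveEndo H hinj, fun u v => ?_⟩
    rw [LinearEquiv.coe_ofInjectiveEndo, hH, hg u, hg v, netK_apply, netK_apply]
    ext i; fin_cases i
    · simp; ring
    · simp; linear_combination (u 1 * v 2 - u 2 * v 1) * hab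
    · simp; ring

end MP_02e52a.M7
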