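import Pool.Agent.Lib.MP_02e52a_al.M7.TypeDefs
import Pool.Agent.Lib.MP_02e52a_al.M7.S0

namespace MP_02e52a.M7

variable {p : ℕ} [Fact p.Prime]

private theorem ed1_pi (α ε φ : ZMod p) (x : VV p) :
    piD α ε φ x = ![α * x 0 + x 1, ε * x 0 + φ * x 2, x 3] := by
  ext i
  fin_cases i <;> simp [piD, mkπ, Matrix.mulVec, dotProduct, Fin.sum_univ_succ]

private theorem ed1_core {α ε φ α' ε' φ' : ZMod p} (hφ : φ ≠ 0) (g : VV p ≃ₗ[ZMod p] VV p)
    (h : WW p ≃ₗ[ZMod p] WW p)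
    (ht : (datK 0 (piD α ε φ)).Trans (datK 0 (piD α' ε' φ')) g h) :
    ∃ r : ZMod p, r ≠ 0 ∧ α' = r ^ 2 * α ∧ ε' = r ^ 4 * ε ∧ φ' = r ^ 3 * φ ∧
      ∀ x, g x = ![r * x 0, r ^ 3 * x 1, r ^ 2 * x 2, r ^ 4 * x 3] := by
  obtain ⟨h1, h2⟩ := ht
  change ∀ u v, h (netK 0 u v) = netK 0 (g u) (g v) at h1
  change ∀ v, h (piD α ε φ v) = piD α' ε' φ' (g v) at h2
  obtain ⟨a, b, m1, m2, c0, c1, c2, M, hab, hM, hg⟩ := (stab_net0 g).1 ⟨h, h1⟩
  have ha : a ≠ 0 := by rintro rfl; rw [zero_mul] at hab; exact hM hab.symm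
  have hb : b ≠ 0 := by rintro rfl; rw [mul_zero] at hab; exact hM hab.symm
  rw [Matrix.det_fin_two] at hab hM
  -- values of h on the basis
  have w0 : h ![1, 0, 0] = ![a * M 1 1, a * c2 + (m1 * M 1 1 - m2 * M 0 1), a * M 0 1] := by
    have := h1 ![1, 0, 0, 0] ![0, 0, 1, 0]
    rw [hg, hg] at this
    simp only [netK_apply, Matrix.cons_val_zero, Matrix.cons_val_one, Matrix.cons_val] at this
    have e : (![1 * 1 - 0 * 0 + 0 * (0 * 0 - 0 * 0), 1 * 0 - 0 * 0 + (0 * 1 - 0 * 0),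
      1 * 0 - 0 * 0] : WW p) = ![1, 0, 0] := by ext i; fin_cases i <;> simp
    rw [e] at this
    rw [this]
    ext i; fin_cases i <;> simp
  have w1 : h ![0, 1, 0] = ![0, a * b, 0] := by
    have := h1 ![1, 0, 0, 0] ![0, 0, 0, 1]
    rw [hg, hg] at this
    simp only [netK_apply, Matrix.cons_val_zero, Matrix.cons_val_one, Matrix.cons_val] at this
    have e : (![1 * 0 - 0 * 0 + 0 * (0 * 1 - 0 * 0), 1 * 1 - 0 * 0 + (0 * 0 - 0 * 0),
      1 * 0 - 0 * 0] : WW p) = ![0, 1, 0] := by ext i; fin_cases i <;> simp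
    rw [e] at this
    rw [this]
    ext i; fin_cases i <;> simp
  have w2 : h ![0, 0, 1] = ![a * M 1 0, a * c1 + (m1 * M 1 0 - m2 * M 0 0), a * M 0 0] := by
    have := h1 ![1, 0, 0, 0] ![0, 1, 0, 0]
    rw [hg, hg] at this
    simp only [netK_apply, Matrix.cons_val_zero, Matrix.cons_val_one, Matrix.cons_val] at this
    have e : (![1 * 0 - 0 * 0 + 0 * (0 * 0 - 0 * 1), 1 * 0 - 0 * 0 + (0 * 0 - 0 * 1),
      1 * 1 - 0 * 0] : WW p) = ![0, 0, 1] := by ext i; fin_cases i <;> simp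
    rw [e] at this
    rw [this]
    ext i; fin_cases i <;> simp
  have hlin : ∀ s t q : ZMod p, h ![s, t, q] = s • h ![1, 0, 0] + t • h ![0, 1, 0] + q • h ![0, 0, 1] := by
    intro s t q
    rw [← map_smul, ← map_smul, ← map_smul, ← map_add, ← map_add]
    congr 1
    ext i; fin_cases i <;> simp
  -- compare
  have q3 := h2 ![0, 0, 0, 1]
  have q2 := h2 ![0, 0, 1, 0]
  have q1 := h2 ![0, 1, 0, 0]
  have q0 := h2 ![1, 0, 0, 0]
  rw [hg, ed1_pi, ed1_pi, hlin, w0, w1, w2] at q0 q1 q2 q3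
  have q00 := congrFun q0 0
  have q01 := congrFun q0 1
  have q02 := congrFun q0 2
  have q10 := congrFun q1 0
  have q11 := congrFun q1 1
  have q12 := congrFun q1 2
  have q20 := congrFun q2 0
  have q21 := congrFun q2 1
  have q22 := congrFun q2 2
  have q30 := congrFun q3 0
  have q31 := congrFun q3 1
  have q32 := congrFun q3 2
  simp only [Matrix.cons_val_zero, Matrix.cons_val_one, Matrix.cons_val, Pi.add_apply,
    Pi.smul_apply, smul_eq_mul, mul_zero, mul_one, zero_mul, zero_add, add_zero, one_mul]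
    at q00 q01 q02 q10 q11 q12 q20 q21 q22 q30 q31 q32
  have M10 : M 1 0 = 0 := (mul_eq_zero.1 q30).resolve_left ha
  have M01 : M 0 1 = 0 := q20.symm
  have hc2 : c2 = 0 := q22.symm
  have hc1 : c1 = 0 := by rw [← q12, M01, mul_zero]
  have hc0 : c0 = 0 := by rw [← q02, M01, mul_zero, mul_zero]
  have hdet : a * b = M 0 0 * M 1 1 := by rw [hab, M01]; ring
  have hM00 : M 0 0 ≠ 0 := by
    intro h0; apply mul_ne_zero ha hb; rw [hdet, h0, zero_mul]
  have hM11 : M 1 1 ≠ 0 := by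
    intro h0; apply mul_ne_zero ha hb; rw [hdet, h0, mul_zero]
  have hm2 : m2 = 0 := by
    have : m2 * M 0 0 = 0 := by
      rw [hc1, M10] at q31; linear_combination -q31
    exact (mul_eq_zero.1 this).resolve_right hM00
  have hm1 : m1 = 0 := by
    have : m1 * M 1 1 = 0 := by
      rw [hc2, M10, M01] at q11; linear_combination q11
    exact (mul_eq_zero.1 this).resolve_right hM11
  have e11 : M 1 1 = a ^ 2 := by
    have : M 0 0 * (M 1 1 - a ^ 2) = 0 := by
      linear_combination -hdet - a * q32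
    have := (mul_eq_zero.1 this).resolve_left hM00
    linear_combination this
  have e00 : M 0 0 = a ^ 3 := by rw [← q10, e11]; ring
  have eb : b = a ^ 4 := by rw [← q32, e00]; ring
  refine ⟨a, ha, ?_, ?_, ?_, ?_⟩
  · have : a * (α' - a ^ 2 * α) = 0 := by
      rw [hm1, e11] at q00; linear_combination -q00
    have := (mul_eq_zero.1 this).resolve_left ha
    linear_combination this
  · have : a * (ε' - a ^ 4 * ε) = 0 := by
      rw [hm1, hm2, hc2, eb] at q01; linear_combination -q01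
    have := (mul_eq_zero.1 this).resolve_left ha
    linear_combination this
  · have : a ^ 2 * (φ' - a ^ 3 * φ) = 0 := by
      rw [e11, eb] at q21; linear_combination -q21
    have := (mul_eq_zero.1 this).resolve_left (pow_ne_zero 2 ha)
    linear_combination this
  · intro x
    rw [hg x, M10, M01, hc0, hc1, hc2, hm1, hm2, e11, e00, eb]
    ext i; fin_cases i <;> simp

private theorem ed1_mk (α ε φ : ZMod p) (r : ZMod p) (hr : r ≠ 0) :
    ∃ (g : VV p ≃ₗ[ZMod p] VV p) (h : WW p ≃ₗ[ZMod p] WW p),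
      (datK 0 (piD α ε φ)).Trans (datK 0 (piD (r ^ 2 * α) (r ^ 4 * ε) (r ^ 3 * φ))) g h ∧
      ∀ x, g x = ![r * x 0, r ^ 3 * x 1, r ^ 2 * x 2, r ^ 4 * x 3] := by
  let g : VV p ≃ₗ[ZMod p] VV p :=
    { toFun := fun x => ![r * x 0, r ^ 3 * x 1, r ^ 2 * x 2, r ^ 4 * x 3]
      invFun := fun x => ![r⁻¹ * x 0, (r⁻¹) ^ 3 * x 1, (r⁻¹) ^ 2 * x 2, (r⁻¹) ^ 4 * x 3]
      map_add' := by intro x y; ext i; fin_cases i <;> simp <;> ring
      map_smul' := by intro c x; ext i; fin_cases i <;> simp <;> ring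
      left_inv := by intro x; ext i; fin_cases i <;> simp [hr]
      right_inv := by intro x; ext i; fin_cases i <;> simp [hr] }
  let h : WW p ≃ₗ[ZMod p] WW p :=
    { toFun := fun w => ![r ^ 3 * w 0, r ^ 5 * w 1, r ^ 4 * w 2]
      invFun := fun w => ![(r⁻¹) ^ 3 * w 0, (r⁻¹) ^ 5 * w 1, (r⁻¹) ^ 4 * w 2]
      map_add' := by intro x y; ext i; fin_cases i <;> simp <;> ring
      map_smul' := by intro c x; ext i; fin_cases i <;> simp <;> ring
      left_inv := by intro x; ext i; fin_cases i <;> simp [hr]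
      right_inv := by intro x; ext i; fin_cases i <;> simp [hr] }
  refine ⟨g, h, ⟨?_, ?_⟩, fun x => rfl⟩
  · intro u v
    change h (netK 0 u v) = netK 0 (g u) (g v)
    have hg : ∀ x, g x = ![r * x 0, r ^ 3 * x 1, r ^ 2 * x 2, r ^ 4 * x 3] := fun x => rfl
    have hh : ∀ w, h w = ![r ^ 3 * w 0, r ^ 5 * w 1, r ^ 4 * w 2] := fun w => rfl
    rw [hh, hg, hg, netK_apply, netK_apply]
    ext i; fin_cases i <;> simp <;> ring
  · intro v
    change h (piD α ε φ v) = piD (r ^ 2 * α) (r ^ 4 * ε) (r ^ 3 * φ) (g v)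
    have hg : ∀ x, g x = ![r * x 0, r ^ 3 * x 1, r ^ 2 * x 2, r ^ 4 * x 3] := fun x => rfl
    have hh : ∀ w, h w = ![r ^ 3 * w 0, r ^ 5 * w 1, r ^ 4 * w 2] := fun w => rfl
    rw [hh, hg, ed1_pi, ed1_pi]
    ext i; fin_cases i <;> simp <;> ring

/-- [M7 ED1] Isomorphism among the data `(netK 0, piD α ε φ)`, `φ ≠ 0`. PROOF (←): `g x = ![r * x 0, r^3 * x 1, r^2 * x 2, r^4 * x 3]`, `h w = ![r^3 * w 0, r^5 * w 1, r^4 * w 2]`. (→): by `stab_net0` `g x = ![a x0, M00 x1 + M01 x2 + m1 x0, M10 x1 + M11 x2 + m2 x0, b x3 + c0 x0 + c1 x1 + c2 x2]`, `a b = det M`. Write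
`u = (w 2, w 0)` (`= x0 ∧ (x1, x2)`), `w = w 1`; `h u = a M u`, `h w = a b w + a (c1, c2)·u + det (m, M u)` (determinant of the two vectors `m = (m1, m2)` and `M u`). `π = piD α ε φ`: `u = (x3, α x0 + x1)`, `w = ε x0 + φ x2`. Compare `π' (g x) = h (π x)`: coefficient of `x3` in `u`: `b (1, 0) = a M (1, 0)`: `M10 = 0`, `M00 = b / a`, so
`M11 = a²` (`det M = a b`); coefficient of `x3` in `w`: `0 = a c1 + det (m, M (1,0)) = a c1 - (b/a) m2`. Coefficient of `x1` in `u` : `(c1, M00) = a M (0, 1) = (a M01, a M11)`: `b / a = a³`, `c1 = a M01`; of `x2`: `(c2, M01) = 0`. So `b = a⁴`, `M01 = 0`, `c1 = c2 = 0`, `m2 = 0`. Coefficient of `x1` in `w`: `φ' M10 = 0 = det (m, M (0,1)) = m1 a²`: `m1 = 0`; of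
`x2`: `φ' a² = a⁵ φ`. Coefficient of `x0` in `u`: `(c0, α' a + m1) = a M (0, α) = (0, a³ α)`: `c0 = 0`, `α' = a² α`; in `w`: `ε' a = a⁵ ε`. -/
theorem piD_eqv (α ε φ α' ε' φ' : ZMod p) (hφ : φ ≠ 0) :
    (datK 0 (piD α ε φ)).Eqv (datK 0 (piD α' ε' φ')) ↔
      ∃ r : ZMod p, r ≠ 0 ∧ α' = r ^ 2 * α ∧ ε' = r ^ 4 * ε ∧ φ' = r ^ 3 * φ := by
  constructor
  · rintro ⟨g, h, ht⟩
    obtain ⟨r, hr, e1, e2, e3, -⟩ := ed1_core hφ g h ht
    exact ⟨r, hr, e1, e2, e3⟩
  · rintro ⟨r, hr, e1, e2, e3⟩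
    obtain ⟨g, h, ht, -⟩ := ed1_mk α ε φ r hr
    rw [e1, e2, e3]
    exact ⟨g, h, ht⟩

/-- [M7 ED1] PROOF: by the same computation the stabilising `g` are exactly `![r x0, r³ x1, r² x2, r⁴ x3]` with `r² α = α`, `r⁴ ε = ε`, `r³ φ = φ`, i.e. `r³ = 1` and (`α ≠ 0 → r² = 1`), (`ε ≠ 0 → r⁴ = 1`). -/
theorem piD_free (α ε φ : ZMod p) (hφ : φ ≠ 0) :
    (datK 0 (piD α ε φ)).Free ↔ α ≠ 0 ∨ ε ≠ 0 ∨ ∀ r : ZMod p, r ^ 3 = 1 → r = 1 := by
  constructor
  · intro hf
    by_cases hα : α = 0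
    · by_cases hε : ε = 0
      · right; right
        intro r h3
        have hr : r ≠ 0 := by rintro rfl; simp at h3
        obtain ⟨g, h, ht, hg⟩ := ed1_mk α ε φ r hr
        rw [hα, hε, h3, mul_zero, mul_zero, one_mul] at ht
        rw [hα, hε] at hf
        have := hf g h ht ![1, 0, 0, 0]
        rw [hg] at this
        have := congrFun this 0
        simpa using this
      · exact Or.inr (Or.inl hε)
    · exact Or.inl hα
  · intro hc g h ht
    obtain ⟨r, hr, e1, e2, e3, hg⟩ := ed1_core hφ g h ht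
    have h3 : r ^ 3 = 1 := by
      have : φ * (r ^ 3 - 1) = 0 := by linear_combination -e3
      have := (mul_eq_zero.1 this).resolve_left hφ
      linear_combination this
    have hr1 : r = 1 := by
      rcases hc with hα | hε | hc
      · have h2 : r ^ 2 = 1 := by
          have : α * (r ^ 2 - 1) = 0 := by linear_combination -e1
          have := (mul_eq_zero.1 this).resolve_left hα
          linear_combination this
        calc r = r ^ 3 * r⁻¹ ^ 2 := by field_simp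
          _ = 1 := by rw [h3, inv_pow, h2]; simp
      · have h4 : r ^ 4 = 1 := by
          have : ε * (r ^ 4 - 1) = 0 := by linear_combination -e2
          have := (mul_eq_zero.1 this).resolve_left hε
          linear_combination this
        calc r = r ^ 4 := by rw [pow_succ, h3, one_mul]
          _ = 1 := h4
      · exact hc r h3
    intro v
    rw [hg v, hr1]
    ext i; fin_cases i <;> simp

end MP_02e52a.M7
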