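import Pool.Agent.Lib.MP_02e52a_al.M7.TypeDefs
import Pool.Agent.Lib.MP_02e52a_al.M7.S0

namespace MP_02e52a.M7

variable {p : ℕ} [Fact p.Prime]

/-- coefficients of `π` -/
structure ED2Cf (p : ℕ) where
  α1 : ZMod p
  α2 : ZMod p
  B11 : ZMod p
  B12 : ZMod p
  B21 : ZMod p
  B22 : ZMod p
  γ1 : ZMod p
  γ2 : ZMod p
  ε : ZMod p
  φ1 : ZMod p
  φ2 : ZMod p
  κ : ZMod p

/-- the linear map with coefficients `C` -/
def ED2Cf.map (C : ED2Cf p) : VV p →ₗ[ZMod p] WW p :=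
  mkπ !![C.α2, C.B21, C.B22, C.γ2; C.ε, C.φ1, C.φ2, C.κ; C.α1, C.B11, C.B12, C.γ1]

theorem ED2Cf.map_apply (C : ED2Cf p) (x : VV p) : C.map x =
    ![C.α2 * x 0 + C.B21 * x 1 + C.B22 * x 2 + C.γ2 * x 3, C.ε * x 0 + C.φ1 * x 1 + C.φ2 * x 2 + C.κ * x 3,
      C.α1 * x 0 + C.B11 * x 1 + C.B12 * x 2 + C.γ1 * x 3] := by
  ext i
  fin_cases i <;> simp [ED2Cf.map, mkπ, Matrix.mulVec, dotProduct, Fin.sum_univ_four]

theorem ED2_exists (π : VV p →ₗ[ZMod p] WW p) : ∃ C : ED2Cf p, π = C.map := by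
  refine ⟨⟨π ![1, 0, 0, 0] 2, π ![1, 0, 0, 0] 0, π ![0, 1, 0, 0] 2, π ![0, 0, 1, 0] 2, π ![0, 1, 0, 0] 0,
    π ![0, 0, 1, 0] 0, π ![0, 0, 0, 1] 2, π ![0, 0, 0, 1] 0, π ![1, 0, 0, 0] 1, π ![0, 1, 0, 0] 1,
    π ![0, 0, 1, 0] 1, π ![0, 0, 0, 1] 1⟩, ?_⟩
  refine LinearMap.ext fun x => ?_
  have hx : x = x 0 • ![1, 0, 0, 0] + x 1 • ![0, 1, 0, 0] + x 2 • ![0, 0, 1, 0] + x 3 • ![0, 0, 0, 1] := by
    ext i; fin_cases i <;> simp
  rw [ED2Cf.map_apply]
  conv_lhs => rw [hx]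
  simp only [map_add, map_smul]
  ext i
  fin_cases i <;> simp <;> ring

/-- parameters of an element of the stabiliser of `netK 0` -/
structure ED2Pm (p : ℕ) where
  a : ZMod p
  b : ZMod p
  m1 : ZMod p
  m2 : ZMod p
  c0 : ZMod p
  c1 : ZMod p
  c2 : ZMod p
  r : ZMod p
  s : ZMod p
  t : ZMod p
  u : ZMod p

structure ED2Pm.Ok (P : ED2Pm p) : Prop where
  det : P.a * P.b = P.r * P.u - P.s * P.t
  ha : P.a ≠ 0
  hb : P.b ≠ 0

def ED2Pm.G (P : ED2Pm p) : VV p →ₗ[ZMod p] VV p :=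
  { toFun := fun x => ![P.a * x 0, P.r * x 1 + P.s * x 2 + P.m1 * x 0, P.t * x 1 + P.u * x 2 + P.m2 * x 0,
      P.b * x 3 + P.c0 * x 0 + P.c1 * x 1 + P.c2 * x 2]
    map_add' := by intro w w'; ext i; fin_cases i <;> simp <;> ring
    map_smul' := by intro c w; ext i; fin_cases i <;> simp <;> ring }

theorem ED2Pm.G_apply (P : ED2Pm p) (x : VV p) : P.G x =
    ![P.a * x 0, P.r * x 1 + P.s * x 2 + P.m1 * x 0, P.t * x 1 + P.u * x 2 + P.m2 * x 0,
      P.b * x 3 + P.c0 * x 0 + P.c1 * x 1 + P.c2 * x 2] := rfl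

def ED2Pm.H (P : ED2Pm p) : WW p →ₗ[ZMod p] WW p :=
  { toFun := fun w => ![P.a * (P.u * w 0 + P.t * w 2),
      (P.a * P.c2 + P.m1 * P.u - P.m2 * P.s) * w 0 + P.a * P.b * w 1 +
        (P.a * P.c1 + P.m1 * P.t - P.m2 * P.r) * w 2,
      P.a * (P.s * w 0 + P.r * w 2)]
    map_add' := by intro w w'; ext i; fin_cases i <;> simp <;> ring
    map_smul' := by intro c w; ext i; fin_cases i <;> simp <;> ring }

theorem ED2Pm.H_apply (P : ED2Pm p) (w : WW p) : P.H w =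
    ![P.a * (P.u * w 0 + P.t * w 2),
      (P.a * P.c2 + P.m1 * P.u - P.m2 * P.s) * w 0 + P.a * P.b * w 1 +
        (P.a * P.c1 + P.m1 * P.t - P.m2 * P.r) * w 2,
      P.a * (P.s * w 0 + P.r * w 2)] := rfl

theorem ED2Pm.Ok.det0 {P : ED2Pm p} (hP : P.Ok) : P.r * P.u - P.s * P.t ≠ 0 := by
  rw [← hP.det]
  exact mul_ne_zero hP.ha hP.hb

theorem ED2Pm.Ok.Ginj {P : ED2Pm p} (hP : P.Ok) : Function.Injective P.G := by
  rw [injective_iff_map_eq_zero]
  intro x hx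
  rw [ED2Pm.G_apply] at hx
  have e0 := congrFun hx 0
  have e1 := congrFun hx 1
  have e2 := congrFun hx 2
  have e3 := congrFun hx 3
  simp only [Matrix.cons_val_zero, Matrix.cons_val_one, Matrix.cons_val, Pi.zero_apply] at e0 e1 e2 e3
  have x0 := (mul_eq_zero.1 e0).resolve_left hP.ha
  rw [x0] at e1 e2 e3
  have x1 : x 1 = 0 := by
    have : (P.r * P.u - P.s * P.t) * x 1 = 0 := by linear_combination P.u * e1 - P.s * e2
    exact (mul_eq_zero.1 this).resolve_left hP.det0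
  have x2 : x 2 = 0 := by
    have : (P.r * P.u - P.s * P.t) * x 2 = 0 := by linear_combination P.r * e2 - P.t * e1
    exact (mul_eq_zero.1 this).resolve_left hP.det0
  rw [x1, x2] at e3
  have x3 : x 3 = 0 := by
    have : P.b * x 3 = 0 := by linear_combination e3
    exact (mul_eq_zero.1 this).resolve_left hP.hb
  ext i; fin_cases i
  · exact x0
  · exact x1
  · exact x2
  · exact x3

theorem ED2Pm.Ok.Hinj {P : ED2Pm p} (hP : P.Ok) : Function.Injective P.H := by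
  rw [injective_iff_map_eq_zero]
  intro w hw
  rw [ED2Pm.H_apply] at hw
  have e0 := congrFun hw 0
  have e1 := congrFun hw 1
  have e2 := congrFun hw 2
  simp only [Matrix.cons_val_zero, Matrix.cons_val_one, Matrix.cons_val, Pi.zero_apply] at e0 e1 e2
  have f0 := (mul_eq_zero.1 e0).resolve_left hP.ha
  have f2 := (mul_eq_zero.1 e2).resolve_left hP.ha
  have w0 : w 0 = 0 := by
    have : (P.r * P.u - P.s * P.t) * w 0 = 0 := by linear_combination P.r * f0 - P.t * f2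
    exact (mul_eq_zero.1 this).resolve_left hP.det0
  have w2 : w 2 = 0 := by
    have : (P.r * P.u - P.s * P.t) * w 2 = 0 := by linear_combination P.u * f2 - P.s * f0
    exact (mul_eq_zero.1 this).resolve_left hP.det0
  have w1 : w 1 = 0 := by
    rw [w0, w2] at e1
    have : (P.a * P.b) * w 1 = 0 := by linear_combination e1
    exact (mul_eq_zero.1 this).resolve_left (mul_ne_zero hP.ha hP.hb)
  ext i; fin_cases i
  · exact w0
  · exact w1
  · exact w2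

theorem ED2Pm.Ok.net {P : ED2Pm p} (hP : P.Ok) (x y : VV p) :
    P.H (netK 0 x y) = netK 0 (P.G x) (P.G y) := by
  rw [ED2Pm.H_apply, ED2Pm.G_apply, ED2Pm.G_apply, netK_apply, netK_apply]
  have hd := hP.det
  ext i; fin_cases i
  · simp; ring
  · simp; linear_combination (x 1 * y 2 - x 2 * y 1) * hd
  · simp; ring

/-- the twelve equations for `π' g = h π` -/
structure ED2Eq (P : ED2Pm p) (C C' : ED2Cf p) : Prop where
  z1 : P.b * C'.γ1 = P.a * (P.r * C.γ1 + P.s * C.γ2)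
  z2 : P.b * C'.γ2 = P.a * (P.t * C.γ1 + P.u * C.γ2)
  z3 : P.b * C'.κ = P.a * P.b * C.κ + P.a * (P.c1 * C.γ1 + P.c2 * C.γ2) +
    (P.m1 * (P.t * C.γ1 + P.u * C.γ2) - P.m2 * (P.r * C.γ1 + P.s * C.γ2))
  y11 : C'.B11 * P.r + C'.B12 * P.t + C'.γ1 * P.c1 = P.a * (P.r * C.B11 + P.s * C.B21)
  y12 : C'.B11 * P.s + C'.B12 * P.u + C'.γ1 * P.c2 = P.a * (P.r * C.B12 + P.s * C.B22)
  y21 : C'.B21 * P.r + C'.B22 * P.t + C'.γ2 * P.c1 = P.a * (P.t * C.B11 + P.u * C.B21)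
  y22 : C'.B21 * P.s + C'.B22 * P.u + C'.γ2 * P.c2 = P.a * (P.t * C.B12 + P.u * C.B22)
  y31 : C'.φ1 * P.r + C'.φ2 * P.t + C'.κ * P.c1 = P.a * P.b * C.φ1 + P.a * (P.c1 * C.B11 + P.c2 * C.B21) +
    (P.m1 * (P.t * C.B11 + P.u * C.B21) - P.m2 * (P.r * C.B11 + P.s * C.B21))
  y32 : C'.φ1 * P.s + C'.φ2 * P.u + C'.κ * P.c2 = P.a * P.b * C.φ2 + P.a * (P.c1 * C.B12 + P.c2 * C.B22) +
    (P.m1 * (P.t * C.B12 + P.u * C.B22) - P.m2 * (P.r * C.B12 + P.s * C.B22))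
  x1 : P.a * C'.α1 + C'.B11 * P.m1 + C'.B12 * P.m2 + P.c0 * C'.γ1 = P.a * (P.r * C.α1 + P.s * C.α2)
  x2 : P.a * C'.α2 + C'.B21 * P.m1 + C'.B22 * P.m2 + P.c0 * C'.γ2 = P.a * (P.t * C.α1 + P.u * C.α2)
  x3 : P.a * C'.ε + C'.φ1 * P.m1 + C'.φ2 * P.m2 + P.c0 * C'.κ = P.a * P.b * C.ε +
    P.a * (P.c1 * C.α1 + P.c2 * C.α2) +
    (P.m1 * (P.t * C.α1 + P.u * C.α2) - P.m2 * (P.r * C.α1 + P.s * C.α2))

theorem ED2_comm {P : ED2Pm p} {C C' : ED2Cf p} (h : ED2Eq P C C') (x : VV p) :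
    P.H (C.map x) = C'.map (P.G x) := by
  rw [ED2Pm.H_apply, ED2Pm.G_apply, ED2Cf.map_apply, ED2Cf.map_apply]
  ext i; fin_cases i
  · simp only [Matrix.cons_val_zero, Matrix.cons_val_one, Matrix.cons_val, Fin.zero_eta, Fin.mk_one,
      Fin.reduceFinMk]
    linear_combination - (x 0 * h.x2 + x 1 * h.y21 + x 2 * h.y22 + x 3 * h.z2)
  · simp only [Matrix.cons_val_zero, Matrix.cons_val_one, Matrix.cons_val, Fin.zero_eta, Fin.mk_one,
      Fin.reduceFinMk]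
    linear_combination - (x 0 * h.x3 + x 1 * h.y31 + x 2 * h.y32 + x 3 * h.z3)
  · simp only [Matrix.cons_val_zero, Matrix.cons_val_one, Matrix.cons_val, Fin.zero_eta, Fin.mk_one,
      Fin.reduceFinMk]
    linear_combination - (x 0 * h.x1 + x 1 * h.y11 + x 2 * h.y12 + x 3 * h.z1)

theorem ED2_eqs {P : ED2Pm p} {C C' : ED2Cf p} (h : ∀ x, P.H (C.map x) = C'.map (P.G x)) :
    ED2Eq P C C' := by
  have f : ∀ x : VV p, ∀ i, P.H (C.map x) i = C'.map (P.G x) i := fun x i => by rw [h x]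
  simp only [ED2Pm.H_apply, ED2Pm.G_apply, ED2Cf.map_apply] at f
  have a0 := f ![1, 0, 0, 0] 0
  have a1 := f ![1, 0, 0, 0] 1
  have a2 := f ![1, 0, 0, 0] 2
  have b0 := f ![0, 1, 0, 0] 0
  have b1 := f ![0, 1, 0, 0] 1
  have b2 := f ![0, 1, 0, 0] 2
  have c0 := f ![0, 0, 1, 0] 0
  have c1 := f ![0, 0, 1, 0] 1
  have c2 := f ![0, 0, 1, 0] 2
  have d0 := f ![0, 0, 0, 1] 0
  have d1 := f ![0, 0, 0, 1] 1
  have d2 := f ![0, 0, 0, 1] 2
  simp only [Matrix.cons_val_zero, Matrix.cons_val_one, Matrix.cons_val] at a0 a1 a2 b0 b1 b2 c0 c1 c2 d0 d1 d2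
  exact ⟨by linear_combination -d2, by linear_combination -d0, by linear_combination -d1,
    by linear_combination -b2, by linear_combination -c2, by linear_combination -b0,
    by linear_combination -c0, by linear_combination -b1, by linear_combination -c1,
    by linear_combination -a2, by linear_combination -a0, by linear_combination -a1⟩

theorem ED2_move {P : ED2Pm p} (hP : P.Ok) (C : ED2Cf p) :
    ∃ C' : ED2Cf p, ED2Eq P C C' ∧ (datK 0 C.map).Eqv (datK 0 C'.map) := by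
  let g : VV p ≃ₗ[ZMod p] VV p := LinearEquiv.ofInjectiveEndo P.G hP.Ginj
  let h : WW p ≃ₗ[ZMod p] WW p := LinearEquiv.ofInjectiveEndo P.H hP.Hinj
  have hg : ∀ x, g x = P.G x := fun x => by rw [LinearEquiv.coe_ofInjectiveEndo]
  have hh : ∀ x, h x = P.H x := fun x => by rw [LinearEquiv.coe_ofInjectiveEndo]
  obtain ⟨C', hC'⟩ := ED2_exists (h.toLinearMap ∘ₗ C.map ∘ₗ g.symm.toLinearMap)
  have key : ∀ x, h (C.map x) = C'.map (g x) := by
    intro x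
    rw [← hC']
    simp
  refine ⟨C', ED2_eqs fun x => ?_, g, h, ?_, ?_⟩
  · rw [← hh, ← hg, key]
  · intro u v
    simp only [datK]
    rw [hh, hg, hg, hP.net]
  · exact key

theorem ED2_rigid {P : ED2Pm p} (hP : P.Ok) {C : ED2Cf p} (hf : (datK 0 C.map).Free)
    (h : ED2Eq P C C) : P.a = 1 ∧ P.b = 1 ∧ P.m1 = 0 ∧ P.m2 = 0 ∧ P.c0 = 0 ∧ P.c1 = 0 ∧ P.c2 = 0 ∧
      P.r = 1 ∧ P.s = 0 ∧ P.t = 0 ∧ P.u = 1 := by
  let g : VV p ≃ₗ[ZMod p] VV p := LinearEquiv.ofInjectiveEndo P.G hP.Ginj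
  let h' : WW p ≃ₗ[ZMod p] WW p := LinearEquiv.ofInjectiveEndo P.H hP.Hinj
  have hg : ∀ x, g x = P.G x := fun x => by rw [LinearEquiv.coe_ofInjectiveEndo]
  have hh : ∀ x, h' x = P.H x := fun x => by rw [LinearEquiv.coe_ofInjectiveEndo]
  have k := hf g h' ⟨fun u v => by simp only [datK]; rw [hh, hg, hg, hP.net],
    fun v => by simp only [datK]; rw [hh, hg]; exact ED2_comm h v⟩
  have f : ∀ x : VV p, ∀ i, P.G x i = x i := fun x i => by rw [← hg, k x]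
  simp only [ED2Pm.G_apply] at f
  have a0 := f ![1, 0, 0, 0] 0
  have a1 := f ![1, 0, 0, 0] 1
  have a2 := f ![1, 0, 0, 0] 2
  have a3 := f ![1, 0, 0, 0] 3
  have b1 := f ![0, 1, 0, 0] 1
  have b2 := f ![0, 1, 0, 0] 2
  have b3 := f ![0, 1, 0, 0] 3
  have c1 := f ![0, 0, 1, 0] 1
  have c2 := f ![0, 0, 1, 0] 2
  have c3 := f ![0, 0, 1, 0] 3
  have d3 := f ![0, 0, 0, 1] 3
  simp only [Matrix.cons_val_zero, Matrix.cons_val_one, Matrix.cons_val] at a0 a1 a2 a3 b1 b2 b3 c1 c2 c3 d3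
  exact ⟨by linear_combination a0, by linear_combination d3, by linear_combination a1,
    by linear_combination a2, by linear_combination a3, by linear_combination b3,
    by linear_combination c3, by linear_combination b1, by linear_combination c1,
    by linear_combination b2, by linear_combination c2⟩

theorem ED2_trans {d d' d'' : Dat p} (h1 : d.Eqv d') (h2 : d'.Eqv d'') : d.Eqv d'' := by
  obtain ⟨g, h, a, b⟩ := h1
  obtain ⟨g', h', a', b'⟩ := h2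
  refine ⟨g.trans g', h.trans h', fun u v => ?_, fun v => ?_⟩
  · simp only [LinearEquiv.trans_apply]
    rw [a, a']
  · simp only [LinearEquiv.trans_apply]
    rw [b, b']

theorem ED2_free {d d' : Dat p} (h1 : d.Eqv d') (hf : d.Free) : d'.Free := by
  obtain ⟨g, h, a, b⟩ := h1
  intro g' h' hT v
  obtain ⟨a', b'⟩ := hT
  have k := hf ((g.trans g').trans g.symm) ((h.trans h').trans h.symm) ⟨fun x y => by
      simp only [LinearEquiv.trans_apply]
      rw [a, a', LinearEquiv.symm_apply_eq, a]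
      simp, fun x => by
      simp only [LinearEquiv.trans_apply]
      rw [b, b', LinearEquiv.symm_apply_eq, b]
      simp⟩ (g.symm v)
  simp only [LinearEquiv.trans_apply, LinearEquiv.apply_symm_apply] at k
  exact g.symm.injective k

/-- linear systems of size two -/
theorem ED2_solve (a b c d e f : ZMod p) (h : a * d - b * c ≠ 0) :
    ∃ x y, a * x + b * y = e ∧ c * x + d * y = f := by
  refine ⟨(d * e - b * f) / (a * d - b * c), (a * f - c * e) / (a * d - b * c), ?_, ?_⟩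
  · have h1 : a * ((d * e - b * f) / (a * d - b * c)) + b * ((a * f - c * e) / (a * d - b * c)) =
        (a * d - b * c) * e / (a * d - b * c) := by ring
    rw [h1, mul_div_cancel_left₀ _ h]
  · have h1 : c * ((d * e - b * f) / (a * d - b * c)) + d * ((a * f - c * e) / (a * d - b * c)) =
        (a * d - b * c) * f / (a * d - b * c) := by ring
    rw [h1, mul_div_cancel_left₀ _ h]

theorem ED2_kernel (a b c d : ZMod p) (h : a * d - b * c = 0) :
    ∃ x y, (x ≠ 0 ∨ y ≠ 0) ∧ a * x + b * y = 0 ∧ c * x + d * y = 0 := by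
  by_cases h1 : a = 0 ∧ b = 0
  · obtain ⟨rfl, rfl⟩ := h1
    by_cases h2 : c = 0 ∧ d = 0
    · obtain ⟨rfl, rfl⟩ := h2
      exact ⟨1, 0, Or.inl one_ne_zero, by ring, by ring⟩
    · refine ⟨d, -c, ?_, by ring, by ring⟩
      by_contra h3
      push Not at h3
      exact h2 ⟨by simpa using h3.2, h3.1⟩
  · refine ⟨b, -a, ?_, by ring, by linear_combination -h⟩
    by_contra h3
    push Not at h3
    exact h1 ⟨by simpa using h3.2, h3.1⟩

theorem ED2_two (hp : p ≠ 2) : (-1 : ZMod p) ≠ 1 := by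
  have h3 : Fact (2 < p) := ⟨lt_of_le_of_ne (Fact.out : p.Prime).two_le (Ne.symm hp)⟩
  exact ZMod.neg_one_ne_one

/-- case `γ = 0` -/
theorem ED2_g0 (hp : p ≠ 2) (C : ED2Cf p) (hf : (datK 0 C.map).Free) : C.γ1 ≠ 0 ∨ C.γ2 ≠ 0 := by
  by_contra hcon
  push Not at hcon
  obtain ⟨g1, g2⟩ := hcon
  by_cases hk : C.κ = 0
  · have := ED2_rigid (P := ⟨1, 1, 0, 0, 1, 0, 0, 1, 0, 0, 1⟩) ⟨by ring, one_ne_zero, one_ne_zero⟩ hf
      (by constructor <;> simp [g1, g2, hk])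
    exact one_ne_zero this.2.2.2.2.1
  by_cases hd : (C.κ - C.B11) * (C.κ - C.B22) - (- C.B21) * (- C.B12) = 0
  · obtain ⟨c1, c2, hne, e1, e2⟩ := ED2_kernel _ _ _ _ hd
    have := ED2_rigid (P := ⟨1, 1, 0, 0, (c1 * C.α1 + c2 * C.α2) / C.κ, c1, c2, 1, 0, 0, 1⟩)
      ⟨by ring, one_ne_zero, one_ne_zero⟩ hf (by
        constructor <;> simp [g1, g2]
        · linear_combination e1
        · linear_combination e2
        · field_simp)
    rcases hne with h | h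
    · exact h this.2.2.2.2.2.1
    · exact h this.2.2.2.2.2.2.1
  by_cases hB : C.B11 * C.B22 - C.B12 * C.B21 = 0
  · obtain ⟨m1, m2, hne, e1, e2⟩ := ED2_kernel _ _ _ _ hB
    obtain ⟨c1, c2, f1, f2⟩ := ED2_solve _ _ _ _ (m1 * C.B21 - m2 * C.B11) (m1 * C.B22 - m2 * C.B12) hd
    have := ED2_rigid (P := ⟨1, 1, m1, m2,
      (c1 * C.α1 + c2 * C.α2 + (m1 * C.α2 - m2 * C.α1) - C.φ1 * m1 - C.φ2 * m2) / C.κ, c1, c2, 1, 0, 0, 1⟩)
      ⟨by ring, one_ne_zero, one_ne_zero⟩ hf (by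
        constructor <;> simp [g1, g2]
        · linear_combination f1
        · linear_combination f2
        · linear_combination e1
        · linear_combination e2
        · field_simp; ring)
    rcases hne with h | h
    · exact h this.2.2.1
    · exact h this.2.2.2.1
  · obtain ⟨m1, m2, e1, e2⟩ := ED2_solve _ _ _ _ (- 2 * C.α1) (- 2 * C.α2) hB
    obtain ⟨c1, c2, f1, f2⟩ := ED2_solve _ _ _ _ (2 * C.φ1 - (m1 * C.B21 - m2 * C.B11))
      (2 * C.φ2 - (m1 * C.B22 - m2 * C.B12)) hd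
    have := ED2_rigid (P := ⟨1, 1, m1, m2,
      (c1 * C.α1 + c2 * C.α2 - (m1 * C.α2 - m2 * C.α1) - C.φ1 * m1 - C.φ2 * m2) / C.κ, c1, c2, -1, 0, 0, -1⟩)
      ⟨by ring, one_ne_zero, one_ne_zero⟩ hf (by
        constructor <;> simp [g1, g2]
        · linear_combination f1
        · linear_combination f2
        · linear_combination e1
        · linear_combination e2
        · field_simp; ring)
    exact ED2_two hp this.2.2.2.2.2.2.2.1

/-- normalisation of `γ` -/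
theorem ED2_s1 (C : ED2Cf p) (hg : C.γ1 ≠ 0 ∨ C.γ2 ≠ 0) :
    ∃ C' : ED2Cf p, (datK 0 C.map).Eqv (datK 0 C'.map) ∧ C'.γ1 = 1 ∧ C'.γ2 = 0 := by
  by_cases h1 : C.γ1 = 0
  · have h2 : C.γ2 ≠ 0 := hg.resolve_left (fun h => h h1)
    obtain ⟨C', hE, hq⟩ := ED2_move (P := ⟨1, 1, 0, 0, 0, 0, 0, 0, 1 / C.γ2, - C.γ2, 0⟩)
      ⟨by field_simp; ring, one_ne_zero, one_ne_zero⟩ C
    have z1 := hE.z1
    have z2 := hE.z2
    refine ⟨C', hq, ?_, ?_⟩
    · simp only [h1] at z1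
      field_simp at z1
      linear_combination z1
    · simp only [h1] at z2
      linear_combination z2
  · obtain ⟨C', hE, hq⟩ := ED2_move (P := ⟨1, 1, 0, 0, 0, 0, 0, 1 / C.γ1, 0, - C.γ2, C.γ1⟩)
      ⟨by field_simp; ring, one_ne_zero, one_ne_zero⟩ C
    have z1 := hE.z1
    have z2 := hE.z2
    refine ⟨C', hq, ?_, ?_⟩
    · simp only at z1
      field_simp at z1
      linear_combination z1
    · simp only at z2
      linear_combination z2

/-- normalisation of the first row of `B` and of `κ` -/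
theorem ED2_s2 (C : ED2Cf p) (g1 : C.γ1 = 1) (g2 : C.γ2 = 0) :
    ∃ C' : ED2Cf p, (datK 0 C.map).Eqv (datK 0 C'.map) ∧ C'.γ1 = 1 ∧ C'.γ2 = 0 ∧ C'.κ = 0 ∧
      C'.B11 = 0 ∧ C'.B12 = 0 := by
  obtain ⟨C', hE, hq⟩ := ED2_move (P := ⟨1, 1, 0, C.κ + C.B11, 0, C.B11, C.B12, 1, 0, 0, 1⟩)
      ⟨by ring, one_ne_zero, one_ne_zero⟩ C
  have z1 := hE.z1
  have z2 := hE.z2
  have z3 := hE.z3
  have y11 := hE.y11
  have y12 := hE.y12
  simp only [g1, g2] at z1 z2 z3 y11 y12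
  have k1 : C'.γ1 = 1 := by linear_combination z1
  simp only [k1] at y11 y12
  refine ⟨C', hq, k1, ?_, ?_, ?_, ?_⟩
  · linear_combination z2
  · linear_combination z3
  · linear_combination y11
  · linear_combination y12

/-- normalisation of the second row of `B` -/
theorem ED2_s3 (C : ED2Cf p) (g1 : C.γ1 = 1) (g2 : C.γ2 = 0) (hk : C.κ = 0) (b1 : C.B11 = 0)
    (b2 : C.B12 = 0) (b3 : C.B21 ≠ 0) :
    ∃ C' : ED2Cf p, (datK 0 C.map).Eqv (datK 0 C'.map) ∧ C'.γ1 = 1 ∧ C'.γ2 = 0 ∧ C'.κ = 0 ∧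
      C'.B11 = 0 ∧ C'.B12 = 0 ∧ C'.B21 = 1 ∧ C'.B22 = 0 := by
  obtain ⟨C', hE, hq⟩ := ED2_move (P := ⟨1, C.B21, 0, C.B22, 0, C.B22 * C.B21, C.B22 * C.B22, C.B21, C.B22, 0, 1⟩)
      ⟨by ring, one_ne_zero, b3⟩ C
  have z1 := hE.z1
  have z2 := hE.z2
  have z3 := hE.z3
  have y11 := hE.y11
  have y12 := hE.y12
  have y21 := hE.y21
  have y22 := hE.y22
  simp only [g1, g2, hk, b1, b2] at z1 z2 z3 y11 y12 y21 y22
  have k1 : C'.γ1 = 1 := mul_left_cancel₀ b3 (by linear_combination z1)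
  have k2 : C'.γ2 = 0 := mul_left_cancel₀ b3 (by linear_combination z2)
  simp only [k1, k2] at y11 y12 y21 y22
  have k3 : C'.B11 = 0 := mul_left_cancel₀ b3 (by linear_combination y11)
  have k4 : C'.B21 = 1 := mul_left_cancel₀ b3 (by linear_combination y21)
  simp only [k3, k4] at y12 y22
  refine ⟨C', hq, k1, k2, ?_, k3, ?_, k4, ?_⟩
  · exact mul_left_cancel₀ b3 (by linear_combination z3)
  · linear_combination y12
  · linear_combination y22

/-- last normalisation -/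
theorem ED2_s4 (C : ED2Cf p) (g1 : C.γ1 = 1) (g2 : C.γ2 = 0) (hk : C.κ = 0) (b1 : C.B11 = 0)
    (b2 : C.B12 = 0) (b3 : C.B21 = 1) (b4 : C.B22 = 0) :
    ∃ C' : ED2Cf p, (datK 0 C.map).Eqv (datK 0 C'.map) ∧ C'.γ1 = 1 ∧ C'.γ2 = 0 ∧ C'.κ = 0 ∧
      C'.B11 = 0 ∧ C'.B12 = 0 ∧ C'.B21 = 1 ∧ C'.B22 = 0 ∧ C'.α1 = 0 ∧ C'.φ1 = 0 := by
  obtain ⟨C', hE, hq⟩ := ED2_move (P := ⟨1, 1, -C.φ1, 0, C.α1, 0, 0, 1, 0, 0, 1⟩)
      ⟨by ring, one_ne_zero, one_ne_zero⟩ C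
  have z1 := hE.z1
  have z2 := hE.z2
  have z3 := hE.z3
  have y11 := hE.y11
  have y12 := hE.y12
  have y21 := hE.y21
  have y22 := hE.y22
  have y31 := hE.y31
  have x1 := hE.x1
  simp only [g1, g2, hk, b1, b2, b3, b4] at z1 z2 z3 y11 y12 y21 y22 y31 x1
  have k1 : C'.γ1 = 1 := by linear_combination z1
  have k2 : C'.γ2 = 0 := by linear_combination z2
  have k3 : C'.B11 = 0 := by linear_combination y11
  have k4 : C'.B12 = 0 := by linear_combination y12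
  simp only [k1, k2, k3, k4] at x1
  refine ⟨C', hq, k1, k2, ?_, k3, k4, ?_, ?_, ?_, ?_⟩
  · linear_combination z3
  · linear_combination y21
  · linear_combination y22
  · linear_combination x1
  · linear_combination y31

/-- the case `B21 = 0` -/
theorem ED2_b0 (hp : p ≠ 2) (C : ED2Cf p) (hf : (datK 0 C.map).Free) (g1 : C.γ1 = 1) (g2 : C.γ2 = 0)
    (hk : C.κ = 0) (b1 : C.B11 = 0) (b2 : C.B12 = 0) : C.B21 ≠ 0 := by
  intro b3
  by_cases hd : (C.B22 ^ 2 - C.φ1) * (C.α2 - C.φ1) - C.B22 * (C.B22 * C.α2) = 0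
  · obtain ⟨n, m1, hne, e1, e2⟩ := ED2_kernel _ _ _ _ hd
    have := ED2_rigid (P := ⟨1, 1, m1, 0, n * C.α2, 0, n * C.B22, 1, n, 0, 1⟩)
      ⟨by ring, one_ne_zero, one_ne_zero⟩ hf (by
        constructor <;> simp [g1, g2, hk, b1, b2, b3]
        · linear_combination -e1
        · linear_combination -e2)
    rcases hne with h | h
    · exact h this.2.2.2.2.2.2.2.2.1
    · exact h this.2.2.1
  · obtain ⟨n, m1, e1, e2⟩ := ED2_solve _ _ _ _ (2 * C.φ2) (2 * C.ε) hd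
    have := ED2_rigid (P := ⟨1, -1, m1, 0, - 2 * C.α1 + n * C.α2, 0, n * C.B22, -1, n, 0, 1⟩)
      ⟨by ring, one_ne_zero, neg_ne_zero.2 one_ne_zero⟩ hf (by
        constructor <;> simp [g1, g2, hk, b1, b2, b3]
        · linear_combination -e1
        · ring
        · linear_combination -e2)
    exact ED2_two hp this.2.1

/-- [M7 ED2] Normal form for `netK 0`. NOTATION: `y = (x 1, x 2)`, `z = x 3`, `u = (w 2, w 0)`, `w = w 1`: `u = x0 ∧ y`, `w = x0 ∧ z + det (y, y')`. Stabiliser (see S0): `g : x0 ↦ a x0, y ↦ M y + m x0, z ↦ b z + c0 x0 + c·y`, `a b = det M`, with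
`h : u ↦ a M u, w ↦ a b w + a c·u + det (m, M u)`. `π : u = α x0 + B y + γ z, w = ε x0 + φ·y + κ z` (`α, γ ∈ F²`, `B` 2 by 2, `φ` a row). `π' g = h π` means
(z) `b γ' = a M γ`, `b κ' = a b κ + a c·γ + det (m, M γ)`; (y) `B' M + γ' c = a M B`, `φ' M + κ' c = a b φ + a c B + det (m, M B ·)`; (x0) `a α' + B' m + c0 γ' = a M α`, `a ε' + φ'·m + c0 κ' = a b ε + a c·α + det (m, M α)`.
CASE `γ = 0`: not free. `κ ≠ 0`: normalise `κ = 1`, `φ = 0` (by `c`), `ε = 0` (by `c0`); if `B` is singular take `m ≠ 0` with `B m = 0`, `a = b = 1`, `M = 1` and `c, c0` chosen so that (y), (x0) for `φ, ε` hold (`κ = 1`); if `B` is invertible take `M = -1`, `a = b = 1` (`det M = 1`), `m` with `B m = -2 α`, and `c, c0` accordingly. `κ = 0`: `c0` acts trivially: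
`g = (x0, y, z + x0)` stabilises.
CASE `γ ≠ 0`: normalise `γ = (1, 0)` and `κ = 0` (by `c`). Remaining: `M = [[b/a, n], [0, a²]]`, `c1 = (b/a²) m2`. Normalise the first row of `B` to `0` (by `c2` and by `m2, c1`): remaining `c1 = a n B21`, `c2 = a n B22`, `m2 = a² c1 / b`. Second row: `B21' = (a⁴/b) B21`, `a² B22' = a³ B22 - n B21'`.
 If `B21 ≠ 0`: normalise `B21 = 1` (`b = a⁴`), `B22 = 0` (by `n`; then `n = 0, c = 0, m2 = 0` remain), `φ1 = 0` (by `m1`), `α1 = 0` (by `c0`): `π = piD α2 ε φ2` (`u = (z, α2 x0 + y1)`, `w = ε x0 + φ2 y2`). If `φ2 = 0`: `g = (-x0, -y1, y2, z)` (`r = -1`) stabilises, so `φ2 ≠ 0`.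
 If `B21 = 0`: not free: (`n, m1` free, `c1 = 0`, `m2 = 0`, `c2 = a n B22`), normalise `α1 = 0` by `c0` (`c0 = a n α2`). The translations by `(n, m1)` (`a = b = 1`) move `(φ2, ε)` by `(n (B22² - φ1) + m1 B22, n B22 α2 + m1 (α2 - φ1))`. If this linear map is singular, a nonzero `(n, m1)` stabilises; otherwise normalise `φ2 = ε = 0`, and then
 `b` arbitrary, `a = 1`, `M = diag (b, 1)`, rest `0` stabilises. -/
theorem dual_normal (hp : p ≠ 2) (π : VV p →ₗ[ZMod p] WW p) (hf : (datK 0 π).Free) :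
    ∃ α ε φ, φ ≠ 0 ∧ (datK 0 π).Eqv (datK 0 (piD α ε φ)) := by
  obtain ⟨C0, rfl⟩ := ED2_exists π
  obtain ⟨C1, q1, g1, g2⟩ := ED2_s1 C0 (ED2_g0 hp C0 hf)
  have hf1 := ED2_free q1 hf
  obtain ⟨C2, q2, g1', g2', hk, b1, b2⟩ := ED2_s2 C1 g1 g2
  have hf2 := ED2_free q2 hf1
  have b3 := ED2_b0 hp C2 hf2 g1' g2' hk b1 b2
  obtain ⟨C3, q3, g1'', g2'', hk', b1', b2', b3', b4'⟩ := ED2_s3 C2 g1' g2' hk b1 b2 b3
  obtain ⟨C4, q4, g1_, g2_, hk_, b1_, b2_, b3_, b4_, a1_, f1_⟩ := ED2_s4 C3 g1'' g2'' hk' b1' b2' b3' b4'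
  have hf4 := ED2_free q4 (ED2_free q3 hf2)
  refine ⟨C4.α2, C4.ε, C4.φ2, ?_, ?_⟩
  · intro hφ
    have := ED2_rigid (P := ⟨-1, 1, 0, 0, 0, 0, 0, -1, 0, 0, 1⟩)
      ⟨by ring, neg_ne_zero.2 one_ne_zero, one_ne_zero⟩ hf4 (by
        constructor <;> simp [g1_, g2_, hk_, b1_, b2_, b3_, b4_, a1_, f1_, hφ])
    exact ED2_two hp this.1
  · have e : C4.map = piD C4.α2 C4.ε C4.φ2 := by
      unfold ED2Cf.map piD
      rw [g1_, g2_, hk_, b1_, b2_, b3_, b4_, a1_, f1_]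
    rw [← e]
    exact ED2_trans (ED2_trans (ED2_trans q1 q2) q3) q4

end MP_02e52a.M7
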