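import Pool.Agent.Lib.MP_02e52a_al.M7.NetDefs

namespace MP_02e52a.M7

variable {p : ℕ} [Fact p.Prime]

private theorem lin4 (g : VV p ≃ₗ[ZMod p] VV p) (x : VV p) (i : Fin 4) :
    g x i = g (Pi.single 0 1) i * x 0 + g (Pi.single 1 1) i * x 1 + g (Pi.single 2 1) i * x 2 +
      g (Pi.single 3 1) i * x 3 := by
  have hx : x = x 0 • (Pi.single 0 1 : VV p) + x 1 • (Pi.single 1 1 : VV p) + x 2 • (Pi.single 2 1 : VV p) +
      x 3 • (Pi.single 3 1 : VV p) := by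
    ext j; fin_cases j <;> simp
  conv_lhs => rw [hx]
  simp only [map_add, map_smul, Pi.add_apply, Pi.smul_apply, smul_eq_mul]
  ring

private theorem lin3 (h : WW p ≃ₗ[ZMod p] WW p) (x : WW p) (i : Fin 3) :
    h x i = h (Pi.single 0 1) i * x 0 + h (Pi.single 1 1) i * x 1 + h (Pi.single 2 1) i * x 2 := by
  have hx : x = x 0 • (Pi.single 0 1 : WW p) + x 1 • (Pi.single 1 1 : WW p) + x 2 • (Pi.single 2 1 : WW p) := by
    ext j; fin_cases j <;> simp
  conv_lhs => rw [hx]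
  simp only [map_add, map_smul, Pi.add_apply, Pi.smul_apply, smul_eq_mul]
  ring

private theorem sk_bwd (δ : ZMod p) (g : VV p ≃ₗ[ZMod p] VV p) (s a0 a1 c0 c1 : ZMod p)
    (R : Matrix (Fin 2) (Fin 2) (ZMod p)) (hs : s = 1 ∨ s = -1)
    (ha : a0 ^ 2 - δ * a1 ^ 2 ≠ 0) (hc : c0 ^ 2 - δ * c1 ^ 2 ≠ 0)
    (hg : ∀ x, g x =
        ![a0 * x 0 + s * δ * a1 * x 1, a1 * x 0 + s * a0 * x 1,
          c0 * x 2 + s * δ * c1 * x 3 + (R 0 0 * x 0 + R 0 1 * x 1),
          c1 * x 2 + s * c0 * x 3 + (R 1 0 * x 0 + R 1 1 * x 1)]) :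
    ∃ h : WW p ≃ₗ[ZMod p] WW p, ∀ u v, h (netK δ u v) = netK δ (g u) (g v) := by
  have hs2 : s * s = 1 := by rcases hs with rfl | rfl <;> ring
  have hs0 : s ≠ 0 := by
    intro h0; rw [h0] at hs2; simp at hs2
  let m0 : ZMod p := a0 * c0 + δ * (a1 * c1)
  let m1 : ZMod p := a0 * c1 + a1 * c0
  let t0 : ZMod p := a0 * (R 0 1 - s * δ * R 1 0) + δ * a1 * (R 1 1 - s * R 0 0)
  let t1 : ZMod p := a0 * (R 1 1 - s * R 0 0) + a1 * (R 0 1 - s * δ * R 1 0)
  let n : ZMod p := s * (a0 ^ 2 - δ * a1 ^ 2)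
  have hn : n ≠ 0 := mul_ne_zero hs0 ha
  have hm : m0 ^ 2 - δ * m1 ^ 2 ≠ 0 := by
    have : m0 ^ 2 - δ * m1 ^ 2 = (a0 ^ 2 - δ * a1 ^ 2) * (c0 ^ 2 - δ * c1 ^ 2) := by
      simp only [m0, m1]; ring
    rw [this]
    exact mul_ne_zero ha hc
  let f : WW p →ₗ[ZMod p] WW p :=
    { toFun := fun w => ![m0 * w 0 + s * δ * m1 * w 1 + t0 * w 2, m1 * w 0 + s * m0 * w 1 + t1 * w 2, n * w 2]
      map_add' := by intro x y; ext i; fin_cases i <;> simp <;> ring
      map_smul' := by intro c x; ext i; fin_cases i <;> simp <;> ring }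
  have hf : ∀ w, f w = ![m0 * w 0 + s * δ * m1 * w 1 + t0 * w 2, m1 * w 0 + s * m0 * w 1 + t1 * w 2, n * w 2] :=
    fun w => rfl
  have hinj : Function.Injective f := by
    rw [← LinearMap.ker_eq_bot, LinearMap.ker_eq_bot']
    intro w hw
    rw [hf] at hw
    have h0 : m0 * w 0 + s * δ * m1 * w 1 + t0 * w 2 = 0 := by simpa using congrFun hw 0
    have h1 : m1 * w 0 + s * m0 * w 1 + t1 * w 2 = 0 := by simpa using congrFun hw 1
    have h2 : n * w 2 = 0 := by simpa using congrFun hw 2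
    have w2 : w 2 = 0 := (mul_eq_zero.mp h2).resolve_left hn
    rw [w2, mul_zero, add_zero] at h0 h1
    have w0 : w 0 = 0 := by
      have : (m0 ^ 2 - δ * m1 ^ 2) * w 0 = 0 := by linear_combination m0 * h0 - δ * m1 * h1
      exact (mul_eq_zero.mp this).resolve_left hm
    have w1 : w 1 = 0 := by
      have : (m0 ^ 2 - δ * m1 ^ 2) * (s * w 1) = 0 := by linear_combination m0 * h1 - m1 * h0
      exact (mul_eq_zero.mp ((mul_eq_zero.mp this).resolve_left hm)).resolve_left hs0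
    ext i
    fin_cases i
    · exact w0
    · exact w1
    · exact w2
  refine ⟨LinearEquiv.ofInjectiveEndo f hinj, fun u v => ?_⟩
  rw [LinearEquiv.coe_ofInjectiveEndo, hf, hg u, hg v]
  ext i
  fin_cases i
  · simp only [netK_apply, m0, m1, t0, Fin.zero_eta, Matrix.cons_val_zero, Matrix.cons_val_one, Matrix.cons_val]
    rcases hs with rfl | rfl <;> ring
  · simp only [netK_apply, m0, m1, t1, Fin.mk_one, Matrix.cons_val_zero, Matrix.cons_val_one, Matrix.cons_val]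
    rcases hs with rfl | rfl <;> ring
  · simp only [netK_apply, n, Fin.reduceFinMk, Matrix.cons_val_zero, Matrix.cons_val_one, Matrix.cons_val]
    rcases hs with rfl | rfl <;> ring

private theorem sk_fwd (hp : p ≠ 2) (δ : ZMod p) (hδ : δ ≠ 0) (g : VV p ≃ₗ[ZMod p] VV p)
    (h : WW p ≃ₗ[ZMod p] WW p) (hh : ∀ u v, h (netK δ u v) = netK δ (g u) (g v)) :
      ∃ (s a0 a1 c0 c1 : ZMod p) (R : Matrix (Fin 2) (Fin 2) (ZMod p)), (s = 1 ∨ s = -1) ∧
        a0 ^ 2 - δ * a1 ^ 2 ≠ 0 ∧ c0 ^ 2 - δ * c1 ^ 2 ≠ 0 ∧ ∀ x, g x =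
        ![a0 * x 0 + s * δ * a1 * x 1, a1 * x 0 + s * a0 * x 1,
          c0 * x 2 + s * δ * c1 * x 3 + (R 0 0 * x 0 + R 0 1 * x 1),
          c1 * x 2 + s * c0 * x 3 + (R 1 0 * x 0 + R 1 1 * x 1)] := by
  have h2 : (2 : ZMod p) ≠ 0 := by
    intro h0
    have : (p : ℕ) ∣ 2 := by
      have := (ZMod.natCast_eq_zero_iff 2 p).mp (by exact_mod_cast h0)
      exact this
    exact hp ((Nat.prime_dvd_prime_iff_eq (Fact.out) Nat.prime_two).mp this)
  -- rows of h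
  have H : ∀ u v, ∀ i, h (Pi.single 0 1) i * (netK δ u v 0) + h (Pi.single 1 1) i * (netK δ u v 1) +
      h (Pi.single 2 1) i * (netK δ u v 2) = netK δ (g u) (g v) i := by
    intro u v i
    rw [← hh u v, lin3 h (netK δ u v) i]
  -- E_ij
  have E01 := fun i => H (Pi.single 0 1) (Pi.single 1 1) i
  have E02 := fun i => H (Pi.single 0 1) (Pi.single 2 1) i
  have E03 := fun i => H (Pi.single 0 1) (Pi.single 3 1) i
  have E12 := fun i => H (Pi.single 1 1) (Pi.single 2 1) i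
  have E13 := fun i => H (Pi.single 1 1) (Pi.single 3 1) i
  have E23 := fun i => H (Pi.single 2 1) (Pi.single 3 1) i
  have U2 : ∀ u, h (Pi.single 0 1) 2 * u 0 + h (Pi.single 1 1) 2 * u 1 = netK δ (g u) (g (Pi.single 2 1)) 2 := by
    intro u
    have := H u (Pi.single 2 1) 2
    simpa using this
  have U3 : ∀ u, h (Pi.single 0 1) 2 * (δ * u 1) + h (Pi.single 1 1) 2 * u 0 =
      netK δ (g u) (g (Pi.single 3 1)) 2 := by
    intro u
    have := H u (Pi.single 3 1) 2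
    simpa using this
  have G := lin4 g
  have Hl := lin3 h
  generalize hg0 : g (Pi.single 0 1) = g0 at *
  generalize hg1 : g (Pi.single 1 1) = g1 at *
  generalize hg2 : g (Pi.single 2 1) = g2 at *
  generalize hg3 : g (Pi.single 3 1) = g3 at *
  generalize hh0 : h (Pi.single 0 1) = k0 at *
  generalize hh1 : h (Pi.single 1 1) = k1 at *
  generalize hh2 : h (Pi.single 2 1) = k2 at *
  have E01' : ∀ i, k2 i = netK δ g0 g1 i := by intro i; simpa using E01 i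
  have E02' : ∀ i, k0 i = netK δ g0 g2 i := by intro i; simpa using E02 i
  have E03' : ∀ i, k1 i = netK δ g0 g3 i := by intro i; simpa using E03 i
  have E12' : ∀ i, k1 i = netK δ g1 g2 i := by intro i; simpa using E12 i
  have E13' : ∀ i, k0 i * δ = netK δ g1 g3 i := by intro i; simpa using E13 i
  have E23' : ∀ i, 0 = netK δ g2 g3 i := by intro i; simpa using E23 i
  -- expand
  have w01 : ∀ x y : VV p, netK δ x y 0 = x 0 * y 2 - x 2 * y 0 + δ * (x 1 * y 3 - x 3 * y 1) := fun x y => rfl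
  have w02 : ∀ x y : VV p, netK δ x y 1 = x 0 * y 3 - x 3 * y 0 + (x 1 * y 2 - x 2 * y 1) := fun x y => rfl
  have w03 : ∀ x y : VV p, netK δ x y 2 = x 0 * y 1 - x 1 * y 0 := fun x y => rfl
  -- the wedge identities
  have id0 : netK δ g0 g1 0 * netK δ g2 g3 2 + netK δ g0 g1 2 * netK δ g2 g3 0
      - netK δ g0 g2 0 * netK δ g1 g3 2 - netK δ g0 g2 2 * netK δ g1 g3 0
      + netK δ g0 g3 0 * netK δ g1 g2 2 + netK δ g0 g3 2 * netK δ g1 g2 0 = 0 := by
    simp only [w01, w03]; ring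
  have id1 : netK δ g0 g1 1 * netK δ g2 g3 2 + netK δ g0 g1 2 * netK δ g2 g3 1
      - netK δ g0 g2 1 * netK δ g1 g3 2 - netK δ g0 g2 2 * netK δ g1 g3 1
      + netK δ g0 g3 1 * netK δ g1 g2 2 + netK δ g0 g3 2 * netK δ g1 g2 1 = 0 := by
    simp only [w02, w03]; ring
  have id2 : netK δ g0 g1 2 * netK δ g2 g3 2 + netK δ g0 g1 2 * netK δ g2 g3 2
      - netK δ g0 g2 2 * netK δ g1 g3 2 - netK δ g0 g2 2 * netK δ g1 g3 2
      + netK δ g0 g3 2 * netK δ g1 g2 2 + netK δ g0 g3 2 * netK δ g1 g2 2 = 0 := by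
    simp only [w03]; ring
  simp only [← E01', ← E02', ← E13', ← E23'] at id0 id1 id2
  rw [← E03', ← E03', ← E12', ← E12'] at id0 id1
  rw [← E03', ← E12'] at id2
  have kv : k0 * (fun _ => -(δ * k0 2)) + k1 * (fun _ => k1 2) = 0 := by
    ext i
    fin_cases i
    · show k0 0 * (-(δ * k0 2)) + k1 0 * k1 2 = 0
      exact (mul_eq_zero.mp (show (2 : ZMod p) * (k0 0 * (-(δ * k0 2)) + k1 0 * k1 2) = 0 by
        linear_combination id0)).resolve_left h2
    · show k0 1 * (-(δ * k0 2)) + k1 1 * k1 2 = 0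
      exact (mul_eq_zero.mp (show (2 : ZMod p) * (k0 1 * (-(δ * k0 2)) + k1 1 * k1 2) = 0 by
        linear_combination id1)).resolve_left h2
    · show k0 2 * (-(δ * k0 2)) + k1 2 * k1 2 = 0
      exact (mul_eq_zero.mp (show (2 : ZMod p) * (k0 2 * (-(δ * k0 2)) + k1 2 * k1 2) = 0 by
        linear_combination id2)).resolve_left h2
  have hz : (![-(δ * k0 2), k1 2, 0] : WW p) = 0 := by
    apply h.injective
    rw [map_zero]
    ext i
    rw [Hl]
    have := congrFun kv i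
    simpa using this
  have hk02 : k0 2 = 0 := by
    have := congrFun hz 0
    simp at this
    exact this.resolve_left hδ
  have hk12 : k1 2 = 0 := by simpa using congrFun hz 1
  -- g2, g3 in U
  have g21 : g2 1 = 0 := by
    have := U2 (g.symm (Pi.single 0 1))
    rw [hk02, hk12, LinearEquiv.apply_symm_apply, w03] at this
    simpa using this.symm
  have g20 : g2 0 = 0 := by
    have := U2 (g.symm (Pi.single 1 1))
    rw [hk02, hk12, LinearEquiv.apply_symm_apply, w03] at this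
    simpa using this.symm
  have g31 : g3 1 = 0 := by
    have := U3 (g.symm (Pi.single 0 1))
    rw [hk02, hk12, LinearEquiv.apply_symm_apply, w03] at this
    simpa using this.symm
  have g30 : g3 0 = 0 := by
    have := U3 (g.symm (Pi.single 1 1))
    rw [hk02, hk12, LinearEquiv.apply_symm_apply, w03] at this
    simpa using this.symm
  -- coordinates
  have a00 : k0 0 = g0 0 * g2 2 + δ * (g0 1 * g2 3) := by rw [E02', w01, g20, g21]; ring
  have a01 : k0 1 = g0 0 * g2 3 + g0 1 * g2 2 := by rw [E02', w02, g20, g21]; ring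
  have a10 : k1 0 = g0 0 * g3 2 + δ * (g0 1 * g3 3) := by rw [E03', w01, g30, g31]; ring
  have a11 : k1 1 = g0 0 * g3 3 + g0 1 * g3 2 := by rw [E03', w02, g30, g31]; ring
  have b10 : k1 0 = g1 0 * g2 2 + δ * (g1 1 * g2 3) := by rw [E12', w01, g20, g21]; ring
  have b11 : k1 1 = g1 0 * g2 3 + g1 1 * g2 2 := by rw [E12', w02, g20, g21]; ring
  have c00 : k0 0 * δ = g1 0 * g3 2 + δ * (g1 1 * g3 3) := by rw [E13', w01, g30, g31]; ring
  have c01 : k0 1 * δ = g1 0 * g3 3 + g1 1 * g3 2 := by rw [E13', w02, g30, g31]; ring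
  -- surjectivity
  obtain ⟨w, hw⟩ := h.surjective (![1, 0, 0] : WW p)
  obtain ⟨w', hw'⟩ := h.surjective (![0, 0, 1] : WW p)
  have k22 : k2 2 ≠ 0 := by
    intro h0
    have := congrFun hw' 2
    rw [Hl, hk02, hk12, h0] at this
    simp at this
  have w2 : w 2 = 0 := by
    have := congrFun hw 2
    rw [Hl, hk02, hk12] at this
    simp at this
    exact this.resolve_left k22
  have q0 : k0 0 * w 0 + k1 0 * w 1 = 1 := by
    have := congrFun hw 0
    rw [Hl, w2] at this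
    simpa using this
  have q1 : k0 1 * w 0 + k1 1 * w 1 = 0 := by
    have := congrFun hw 1
    rw [Hl, w2] at this
    simpa using this
  have NP : g0 0 ^ 2 - δ * g0 1 ^ 2 ≠ 0 := by
    intro h0
    have e : (g0 0 ^ 2 - δ * g0 1 ^ 2) * ((g2 2 * w 0 + g3 2 * w 1) ^ 2 - δ * (g2 3 * w 0 + g3 3 * w 1) ^ 2) = 1 := by
      have e1 : (g0 0 * (g2 2 * w 0 + g3 2 * w 1) + δ * g0 1 * (g2 3 * w 0 + g3 3 * w 1)) = 1 := by
        rw [← q0, a00, a10]; ring
      have e2 : (g0 0 * (g2 3 * w 0 + g3 3 * w 1) + g0 1 * (g2 2 * w 0 + g3 2 * w 1)) = 0 := by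
        rw [← q1, a01, a11]; ring
      calc _ = (g0 0 * (g2 2 * w 0 + g3 2 * w 1) + δ * g0 1 * (g2 3 * w 0 + g3 3 * w 1)) ^ 2 -
            δ * (g0 0 * (g2 3 * w 0 + g3 3 * w 1) + g0 1 * (g2 2 * w 0 + g3 2 * w 1)) ^ 2 := by ring
        _ = 1 := by rw [e1, e2]; ring
    rw [h0, zero_mul] at e
    exact zero_ne_one e
  have NQ : g2 2 ^ 2 - δ * g2 3 ^ 2 ≠ 0 := by
    intro h0
    have e : (g2 2 ^ 2 - δ * g2 3 ^ 2) * ((g0 0 * w 0 + g1 0 * w 1) ^ 2 - δ * (g0 1 * w 0 + g1 1 * w 1) ^ 2) = 1 := by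
      have e1 : (g2 2 * (g0 0 * w 0 + g1 0 * w 1) + δ * g2 3 * (g0 1 * w 0 + g1 1 * w 1)) = 1 := by
        rw [← q0, a00, b10]; ring
      have e2 : (g2 3 * (g0 0 * w 0 + g1 0 * w 1) + g2 2 * (g0 1 * w 0 + g1 1 * w 1)) = 0 := by
        rw [← q1, a01, b11]; ring
      calc _ = (g2 2 * (g0 0 * w 0 + g1 0 * w 1) + δ * g2 3 * (g0 1 * w 0 + g1 1 * w 1)) ^ 2 -
            δ * (g2 3 * (g0 0 * w 0 + g1 0 * w 1) + g2 2 * (g0 1 * w 0 + g1 1 * w 1)) ^ 2 := by ring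
        _ = 1 := by rw [e1, e2]; ring
    rw [h0, zero_mul] at e
    exact zero_ne_one e
  -- cancellation in K
  have canc : ∀ a b x y : ZMod p, a ^ 2 - δ * b ^ 2 ≠ 0 → a * x + δ * b * y = 0 → b * x + a * y = 0 →
      x = 0 ∧ y = 0 := by
    intro a b x y hN h0 h1
    constructor
    · exact (mul_eq_zero.mp (show (a ^ 2 - δ * b ^ 2) * x = 0 by
        linear_combination a * h0 - δ * b * h1)).resolve_left hN
    · exact (mul_eq_zero.mp (show (a ^ 2 - δ * b ^ 2) * y = 0 by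
        linear_combination a * h1 - b * h0)).resolve_left hN
  obtain ⟨x, hx⟩ : ∃ x, x * (g0 0 ^ 2 - δ * g0 1 ^ 2) = g1 0 * g0 0 - δ * (g1 1 * g0 1) :=
    ⟨_, div_mul_cancel₀ _ NP⟩
  obtain ⟨y, hy⟩ : ∃ y, y * (g0 0 ^ 2 - δ * g0 1 ^ 2) = g1 1 * g0 0 - g1 0 * g0 1 :=
    ⟨_, div_mul_cancel₀ _ NP⟩
  have p10 : g1 0 = x * g0 0 + δ * (y * g0 1) := by
    have : (g0 0 ^ 2 - δ * g0 1 ^ 2) * (g1 0 - (x * g0 0 + δ * (y * g0 1))) = 0 := by
      linear_combination (-g0 0) * hx - δ * g0 1 * hy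
    exact sub_eq_zero.mp ((mul_eq_zero.mp this).resolve_left NP)
  have p11 : g1 1 = x * g0 1 + y * g0 0 := by
    have : (g0 0 ^ 2 - δ * g0 1 ^ 2) * (g1 1 - (x * g0 1 + y * g0 0)) = 0 := by
      linear_combination (-g0 1) * hx - g0 0 * hy
    exact sub_eq_zero.mp ((mul_eq_zero.mp this).resolve_left NP)
  have q1' := canc (g0 0) (g0 1) (g3 2 - (x * g2 2 + δ * (y * g2 3))) (g3 3 - (x * g2 3 + y * g2 2)) NP
    (by
      have := a10.symm.trans b10
      rw [p10, p11] at this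
      linear_combination this)
    (by
      have := a11.symm.trans b11
      rw [p10, p11] at this
      linear_combination this)
  have r2 : g3 2 = x * g2 2 + δ * (y * g2 3) := sub_eq_zero.mp q1'.1
  have r3 : g3 3 = x * g2 3 + y * g2 2 := sub_eq_zero.mp q1'.2
  have NPQ : (g0 0 * g2 2 + δ * (g0 1 * g2 3)) ^ 2 - δ * (g0 0 * g2 3 + g0 1 * g2 2) ^ 2 ≠ 0 := by
    have : (g0 0 * g2 2 + δ * (g0 1 * g2 3)) ^ 2 - δ * (g0 0 * g2 3 + g0 1 * g2 2) ^ 2 =
      (g0 0 ^ 2 - δ * g0 1 ^ 2) * (g2 2 ^ 2 - δ * g2 3 ^ 2) := by ring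
    rw [this]
    exact mul_ne_zero NP NQ
  have xy := canc _ _ (x ^ 2 + δ * y ^ 2 - δ) (2 * x * y) NPQ
    (by
      rw [a00, p10, p11, r2, r3] at c00
      linear_combination -c00)
    (by
      rw [a01, p10, p11, r2, r3] at c01
      linear_combination -c01)
  have y0 : y ≠ 0 := by
    intro h0
    have hz : (![-x, 1, 0] : WW p) = 0 := by
      apply h.injective
      rw [map_zero]
      ext i
      rw [Hl]
      fin_cases i
      · show k0 0 * (-x) + k1 0 * 1 + k2 0 * 0 = 0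
        rw [a00, a10, r2, r3, h0]; ring
      · show k0 1 * (-x) + k1 1 * 1 + k2 1 * 0 = 0
        rw [a01, a11, r2, r3, h0]; ring
      · show k0 2 * (-x) + k1 2 * 1 + k2 2 * 0 = 0
        rw [hk02, hk12]; ring
    have := congrFun hz 1
    simp at this
  have x0 : x = 0 := by
    have := xy.2
    simpa [h2, y0] using this
  have hy2 : y = 1 ∨ y = -1 := by
    have h1 := xy.1
    rw [x0] at h1
    have h3 : δ * ((y - 1) * (y + 1)) = 0 := by linear_combination h1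
    rcases mul_eq_zero.mp ((mul_eq_zero.mp h3).resolve_left hδ) with h4 | h4
    · exact Or.inl (sub_eq_zero.mp h4)
    · exact Or.inr (eq_neg_of_add_eq_zero_left h4)
  refine ⟨y, g0 0, g0 1, g2 2, g2 3, !![g0 2, g1 2; g0 3, g1 3], hy2, NP, NQ, fun z => ?_⟩
  ext i
  rw [G]
  fin_cases i
  · show g0 0 * z 0 + g1 0 * z 1 + g2 0 * z 2 + g3 0 * z 3 = g0 0 * z 0 + y * δ * g0 1 * z 1
    rw [g20, g30, p10, x0]; ring
  · show g0 1 * z 0 + g1 1 * z 1 + g2 1 * z 2 + g3 1 * z 3 = g0 1 * z 0 + y * g0 0 * z 1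
    rw [g21, g31, p11, x0]; ring
  · show g0 2 * z 0 + g1 2 * z 1 + g2 2 * z 2 + g3 2 * z 3 =
      g2 2 * z 2 + y * δ * g2 3 * z 3 + (g0 2 * z 0 + g1 2 * z 1)
    rw [r2, x0]; ring
  · show g0 3 * z 0 + g1 3 * z 1 + g2 3 * z 2 + g3 3 * z 3 =
      g2 3 * z 2 + y * g2 2 * z 3 + (g0 3 * z 0 + g1 3 * z 1)
    rw [r3, x0]; ring

/-- [M7 SK] Stabiliser of `netK δ`, `δ ≠ 0`: `K = F[τ]/(τ² - δ)`, `(ξ, η) ↦ (a σ(ξ), c σ(η) + R ξ)`, `a, c ∈ Kˣ`, `σ ∈ {1, conjugation}` (`s = 1` or `-1`), `R` any `F`-linear map. PROOF (←): `e0, e1 ↦` the first two coordinates: the third component `ω = e0 ∧ e1` is multiplied by `s N(a)`; the `K`-determinant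
`ξ η' - ξ' η` is mapped to `a c σ(ξ η' - ξ' η) + a (σ(ξ) R ξ' - σ(ξ') R ξ)` and the last term is an element of `K` times `ω`. So `h (κ, f) = (a c σ(κ) + t f, s N(a) f)` for some `t ∈ K`. (→): The degenerate forms in the net: `t 1 ^ 2 = δ t 0 ^ 2` (`degSet_netK` in NU). The form `ω` is characterised
(up to scalars): it is degenerate and `ω + f` is degenerate for every degenerate `f` of the net (for `δ ≠ 0`: the radical of the quadratic form `t 1 ^ 2 - δ t 0 ^ 2`), so `g` preserves `ω` up to a scalar and its kernel `U = {x | x 0 = x 1 = 0}`: `g = [[P, 0], [R, Q]]`, `P, Q ∈ GL2`. The first two components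
are `X1 = [[1, 0], [0, δ]]`, `X2 = [[0, 1], [1, 0]]` as cross matrices, i.e. `(ξ, η) ↦` coordinates of `ξ η ∈ K`; the condition is that the `F`-bilinear map `(ξ, η) ↦ P(ξ) Q(η)` is of the form `h0 (ξ η)` with `h0 ∈ GL_F(K)`. Put `η = 1` and `ξ = 1`: `h0 ξ = P(ξ) Q(1)`, `h0 η = P(1) Q(η)`, so `P(1), Q(1)` are
units of `K` (`h0` is onto), and `h0 (ξ η) P(1) Q(1) = h0 ξ h0 η`, `h0 1 = P(1) Q(1)`. So `σ = h0 / h0(1)` is a ring automorphism of `K` over `F`, `σ τ = s τ` with `s = ±1` (`(σ τ)² = δ`; write `σ τ = x + y τ`: `x² + δ y² = δ`, `2 x y = 0`; `y = 0` is impossible by injectivity). `P = σ h0(1)/Q(1)`, `Q = σ h0(1)/P(1)`. -/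
theorem stab_netK (hp : p ≠ 2) (δ : ZMod p) (hδ : δ ≠ 0) (g : VV p ≃ₗ[ZMod p] VV p) :
    (∃ h : WW p ≃ₗ[ZMod p] WW p, ∀ u v, h (netK δ u v) = netK δ (g u) (g v)) ↔
      ∃ (s a0 a1 c0 c1 : ZMod p) (R : Matrix (Fin 2) (Fin 2) (ZMod p)), (s = 1 ∨ s = -1) ∧
        a0 ^ 2 - δ * a1 ^ 2 ≠ 0 ∧ c0 ^ 2 - δ * c1 ^ 2 ≠ 0 ∧ ∀ x, g x =
        ![a0 * x 0 + s * δ * a1 * x 1, a1 * x 0 + s * a0 * x 1,
          c0 * x 2 + s * δ * c1 * x 3 + (R 0 0 * x 0 + R 0 1 * x 1),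
          c1 * x 2 + s * c0 * x 3 + (R 1 0 * x 0 + R 1 1 * x 1)] := by
  constructor
  · rintro ⟨h, hh⟩
    exact sk_fwd hp δ hδ g h hh
  · rintro ⟨s, a0, a1, c0, c1, R, hs, ha, hc, hg⟩
    exact sk_bwd δ g s a0 a1 c0 c1 R hs ha hc hg

end MP_02e52a.M7
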