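import Pool.Agent.Lib.MP_02e52a_al.M7.TypeDefs
import Pool.Agent.Lib.MP_02e52a_al.M7.SK

namespace MP_02e52a.M7

variable {p : ℕ} [Fact p.Prime]

private theorem ef1_lin3 (h : WW p ≃ₗ[ZMod p] WW p) (x : WW p) (i : Fin 3) :
    h x i = h (![1, 0, 0] : WW p) i * x 0 + h (![0, 1, 0] : WW p) i * x 1 +
      h (![0, 0, 1] : WW p) i * x 2 := by
  have hx : x = x 0 • (![1, 0, 0] : WW p) + x 1 • (![0, 1, 0] : WW p) + x 2 • (![0, 0, 1] : WW p) := by
    ext j; fin_cases j <;> simp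
  conv_lhs => rw [hx]
  simp only [map_add, map_smul, Pi.add_apply, Pi.smul_apply, smul_eq_mul]
  ring

private theorem ef1_pi (A : Matrix (Fin 2) (Fin 2) (ZMod p)) (x : VV p) :
    piA A x = ![A 0 0 * x 0 + A 0 1 * x 1 + x 2, A 1 0 * x 0 + A 1 1 * x 1 + x 3, x 2] := by
  unfold piA mkπ
  rw [Matrix.mulVecLin_apply]
  ext i
  fin_cases i <;> simp [Matrix.mulVec, dotProduct, Fin.sum_univ_four]

private theorem ef1_two (hp : p ≠ 2) : (2 : ZMod p) ≠ 0 := by
  intro h0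
  have : (p : ℕ) ∣ 2 := (ZMod.natCast_eq_zero_iff 2 p).mp (by exact_mod_cast h0)
  exact hp ((Nat.prime_dvd_prime_iff_eq (Fact.out) Nat.prime_two).mp this)

/-- the transporters -/
private theorem ef1_core (hp : p ≠ 2) (δ : ZMod p) (hδ : δ ≠ 0)
    (A A' : Matrix (Fin 2) (Fin 2) (ZMod p)) (g : VV p ≃ₗ[ZMod p] VV p)
    (h : WW p ≃ₗ[ZMod p] WW p) (ht : (datK δ (piA A)).Trans (datK δ (piA A')) g h) :
    ∃ s : ZMod p, (s = 1 ∨ s = -1) ∧ (∀ x, g x = ![x 0, s * x 1, s * x 2, x 3]) ∧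
      A' 0 0 = s * A 0 0 ∧ A' 0 1 = A 0 1 ∧ A' 1 0 = A 1 0 ∧ A' 1 1 = s * A 1 1 := by
  obtain ⟨hβ, hπ⟩ := ht
  have hβ' : ∀ u v, h (netK δ u v) = netK δ (g u) (g v) := hβ
  have hπ' : ∀ v, h (piA A v) = piA A' (g v) := hπ
  obtain ⟨s, a0, a1, c0, c1, R, hs, ha, hc, hg⟩ := (stab_netK hp δ hδ g).1 ⟨h, hβ'⟩
  have hs2 : s * s = 1 := by rcases hs with rfl | rfl <;> ring
  have hs0 : s ≠ 0 := by
    intro h0; rw [h0] at hs2; simp at hs2
  have g0 : g (![1, 0, 0, 0] : VV p) = ![a0, a1, R 0 0, R 1 0] := by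
    rw [hg]; ext i; fin_cases i <;> simp
  have g1 : g (![0, 1, 0, 0] : VV p) = ![s * δ * a1, s * a0, R 0 1, R 1 1] := by
    rw [hg]; ext i; fin_cases i <;> simp
  have g2 : g (![0, 0, 1, 0] : VV p) = ![0, 0, c0, c1] := by
    rw [hg]; ext i; fin_cases i <;> simp
  have g3 : g (![0, 0, 0, 1] : VV p) = ![0, 0, s * δ * c1, s * c0] := by
    rw [hg]; ext i; fin_cases i <;> simp
  have k0 : h (![1, 0, 0] : WW p) = ![a0 * c0 + δ * (a1 * c1), a0 * c1 + a1 * c0, 0] := by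
    have := hβ' (![1, 0, 0, 0] : VV p) (![0, 0, 1, 0] : VV p)
    rw [g0, g2, netK_apply, netK_apply] at this
    have e : (![(1 : ZMod p), 0, 0] : WW p) = ![(![1, 0, 0, 0] : VV p) 0 * (![0, 0, 1, 0] : VV p) 2 -
        (![1, 0, 0, 0] : VV p) 2 * (![0, 0, 1, 0] : VV p) 0 + δ * ((![1, 0, 0, 0] : VV p) 1 *
        (![0, 0, 1, 0] : VV p) 3 - (![1, 0, 0, 0] : VV p) 3 * (![0, 0, 1, 0] : VV p) 1),
        (![1, 0, 0, 0] : VV p) 0 * (![0, 0, 1, 0] : VV p) 3 - (![1, 0, 0, 0] : VV p) 3 *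
        (![0, 0, 1, 0] : VV p) 0 + ((![1, 0, 0, 0] : VV p) 1 * (![0, 0, 1, 0] : VV p) 2 -
        (![1, 0, 0, 0] : VV p) 2 * (![0, 0, 1, 0] : VV p) 1), (![1, 0, 0, 0] : VV p) 0 *
        (![0, 0, 1, 0] : VV p) 1 - (![1, 0, 0, 0] : VV p) 1 * (![0, 0, 1, 0] : VV p) 0] := by
      ext i; fin_cases i <;> simp
    rw [e, this]
    ext i; fin_cases i <;> simp
  have k1 : h (![0, 1, 0] : WW p) = ![s * δ * (a0 * c1 + a1 * c0), s * (a0 * c0 + δ * (a1 * c1)), 0] := by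
    have := hβ' (![1, 0, 0, 0] : VV p) (![0, 0, 0, 1] : VV p)
    rw [g0, g3, netK_apply, netK_apply] at this
    have e : (![(0 : ZMod p), 1, 0] : WW p) = ![(![1, 0, 0, 0] : VV p) 0 * (![0, 0, 0, 1] : VV p) 2 -
        (![1, 0, 0, 0] : VV p) 2 * (![0, 0, 0, 1] : VV p) 0 + δ * ((![1, 0, 0, 0] : VV p) 1 *
        (![0, 0, 0, 1] : VV p) 3 - (![1, 0, 0, 0] : VV p) 3 * (![0, 0, 0, 1] : VV p) 1),
        (![1, 0, 0, 0] : VV p) 0 * (![0, 0, 0, 1] : VV p) 3 - (![1, 0, 0, 0] : VV p) 3 *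
        (![0, 0, 0, 1] : VV p) 0 + ((![1, 0, 0, 0] : VV p) 1 * (![0, 0, 0, 1] : VV p) 2 -
        (![1, 0, 0, 0] : VV p) 2 * (![0, 0, 0, 1] : VV p) 1), (![1, 0, 0, 0] : VV p) 0 *
        (![0, 0, 0, 1] : VV p) 1 - (![1, 0, 0, 0] : VV p) 1 * (![0, 0, 0, 1] : VV p) 0] := by
      ext i; fin_cases i <;> simp
    rw [e, this]
    ext i; fin_cases i <;> simp <;> ring
  have k2 : h (![0, 0, 1] : WW p) = ![a0 * (R 0 1 - s * δ * R 1 0) + δ * a1 * (R 1 1 - s * R 0 0),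
      a0 * (R 1 1 - s * R 0 0) + a1 * (R 0 1 - s * δ * R 1 0), s * (a0 ^ 2 - δ * a1 ^ 2)] := by
    have := hβ' (![1, 0, 0, 0] : VV p) (![0, 1, 0, 0] : VV p)
    rw [g0, g1, netK_apply, netK_apply] at this
    have e : (![(0 : ZMod p), 0, 1] : WW p) = ![(![1, 0, 0, 0] : VV p) 0 * (![0, 1, 0, 0] : VV p) 2 -
        (![1, 0, 0, 0] : VV p) 2 * (![0, 1, 0, 0] : VV p) 0 + δ * ((![1, 0, 0, 0] : VV p) 1 *
        (![0, 1, 0, 0] : VV p) 3 - (![1, 0, 0, 0] : VV p) 3 * (![0, 1, 0, 0] : VV p) 1),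
        (![1, 0, 0, 0] : VV p) 0 * (![0, 1, 0, 0] : VV p) 3 - (![1, 0, 0, 0] : VV p) 3 *
        (![0, 1, 0, 0] : VV p) 0 + ((![1, 0, 0, 0] : VV p) 1 * (![0, 1, 0, 0] : VV p) 2 -
        (![1, 0, 0, 0] : VV p) 2 * (![0, 1, 0, 0] : VV p) 1), (![1, 0, 0, 0] : VV p) 0 *
        (![0, 1, 0, 0] : VV p) 1 - (![1, 0, 0, 0] : VV p) 1 * (![0, 1, 0, 0] : VV p) 0] := by
      ext i; fin_cases i <;> simp
    rw [e, this]
    ext i; fin_cases i <;> simp <;> ring
  set m0 := a0 * c0 + δ * (a1 * c1) with hm0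
  set m1 := a0 * c1 + a1 * c0 with hm1
  set t0 := a0 * (R 0 1 - s * δ * R 1 0) + δ * a1 * (R 1 1 - s * R 0 0) with ht0
  set t1 := a0 * (R 1 1 - s * R 0 0) + a1 * (R 0 1 - s * δ * R 1 0) with ht1
  have hL := ef1_lin3 h
  -- the conditions on the power maps
  have P : ∀ v i, h (![1, 0, 0] : WW p) i * (A 0 0 * v 0 + A 0 1 * v 1 + v 2) +
      h (![0, 1, 0] : WW p) i * (A 1 0 * v 0 + A 1 1 * v 1 + v 3) + h (![0, 0, 1] : WW p) i * v 2 =
      piA A' (g v) i := by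
    intro v i
    rw [← hπ' v, hL (piA A v) i, ef1_pi]
    simp
  have P3 := P (![0, 0, 0, 1] : VV p)
  have P2 := P (![0, 0, 1, 0] : VV p)
  have P0 := P (![1, 0, 0, 0] : VV p)
  have P1 := P (![0, 1, 0, 0] : VV p)
  rw [g3, ef1_pi] at P3
  rw [g2, ef1_pi] at P2
  rw [g0, ef1_pi] at P0
  rw [g1, ef1_pi] at P1
  simp only [k0, k1, k2] at P0 P1 P2 P3
  have P30 := P3 0
  have P31 := P3 1
  have P32 := P3 2
  have P20 := P2 0
  have P21 := P2 1
  have P22 := P2 2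
  have P00 := P0 0
  have P01 := P0 1
  have P02 := P0 2
  have P10 := P1 0
  have P11 := P1 1
  have P12 := P1 2
  clear P0 P1 P2 P3 P
  simp at P30 P31 P32 P20 P21 P22 P00 P01 P02 P10 P11 P12
  have c1z : c1 = 0 := by
    rcases P32 with h' | h'
    · rcases h' with h' | h'
      · exact absurd h' hs0
      · exact absurd h' hδ
    · exact h'
  have c0n : c0 ≠ 0 := by
    intro h0
    apply hc
    rw [h0, c1z]
    ring
  have m0c : m0 = c0 := by
    rcases P31 with h' | h'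
    · exact h'
    · exact absurd h' hs0
  have m1z : m1 = 0 := by
    rcases P30 with h' | h'
    · rw [h', c1z]
    · rcases h' with h' | h'
      · exact absurd h' hs0
      · exact absurd h' hδ
  have a0o : a0 = 1 := by
    have : (a0 - 1) * c0 = 0 := by
      rw [hm0, c1z] at m0c
      linear_combination m0c
    exact sub_eq_zero.1 ((mul_eq_zero.1 this).resolve_right c0n)
  have a1z : a1 = 0 := by
    rw [hm1, c1z] at m1z
    have : a1 * c0 = 0 := by linear_combination m1z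
    exact (mul_eq_zero.1 this).resolve_right c0n
  have c0s : c0 = s := by
    rw [a0o, a1z] at P22
    linear_combination -P22
  have t0z : t0 = 0 := by
    rw [m0c] at P20
    linear_combination P20
  have t1z : t1 = 0 := by
    rw [m1z, c1z] at P21
    linear_combination P21
  have R00 : R 0 0 = 0 := by
    linear_combination -P02
  have R01 : R 0 1 = 0 := by
    linear_combination -P12
  have R10 : R 1 0 = 0 := by
    rw [ht0, a0o, a1z, R01] at t0z
    have : s * δ * R 1 0 = 0 := by linear_combination -t0z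
    exact (mul_eq_zero.1 this).resolve_left (mul_ne_zero hs0 hδ)
  have R11 : R 1 1 = 0 := by
    rw [ht1, a0o, a1z, R00] at t1z
    linear_combination t1z
  refine ⟨s, hs, ?_, ?_, ?_, ?_, ?_⟩
  · intro x
    rw [hg, a0o, a1z, c0s, c1z, R00, R01, R10, R11]
    ext i
    fin_cases i
    · simp
    · simp
    · simp
    · simp only [Fin.reduceFinMk, Matrix.cons_val]
      linear_combination (x 3) * hs2
  · rw [m0c, m1z, a0o, a1z, c0s, R00] at P00
    linear_combination -P00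
  · rw [m0c, m1z, a0o, a1z, c0s, R01] at P10
    have : s * (A' 0 1 - A 0 1) = 0 := by linear_combination -P10
    exact sub_eq_zero.1 ((mul_eq_zero.1 this).resolve_left hs0)
  · rw [m0c, m1z, a0o, a1z, c0s, R10] at P01
    linear_combination -P01 + A 1 0 * hs2
  · rw [m0c, m1z, a0o, a1z, c0s, R11] at P11
    have : s * (A' 1 1 - s * A 1 1) = 0 := by linear_combination -P11
    exact sub_eq_zero.1 ((mul_eq_zero.1 this).resolve_left hs0)

private def ef1_gl : VV p →ₗ[ZMod p] VV p where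
  toFun x := ![x 0, -x 1, -x 2, x 3]
  map_add' := by intro x y; ext i; fin_cases i <;> simp <;> ring
  map_smul' := by intro c x; ext i; fin_cases i <;> simp

private def ef1_hl : WW p →ₗ[ZMod p] WW p where
  toFun x := ![-x 0, x 1, -x 2]
  map_add' := by intro x y; ext i; fin_cases i <;> simp <;> ring
  map_smul' := by intro c x; ext i; fin_cases i <;> simp

private theorem ef1_gl_apply (x : VV p) : ef1_gl x = ![x 0, -x 1, -x 2, x 3] := rfl

private theorem ef1_hl_apply (x : WW p) : ef1_hl x = ![-x 0, x 1, -x 2] := rfl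

private theorem ef1_neg (δ : ZMod p) (A A' : Matrix (Fin 2) (Fin 2) (ZMod p))
    (h00 : A' 0 0 = -A 0 0) (h01 : A' 0 1 = A 0 1) (h10 : A' 1 0 = A 1 0) (h11 : A' 1 1 = -A 1 1) :
    ∃ (g : VV p ≃ₗ[ZMod p] VV p) (h : WW p ≃ₗ[ZMod p] WW p),
      (datK δ (piA A)).Trans (datK δ (piA A')) g h ∧ ∀ x, g x = ![x 0, -x 1, -x 2, x 3] := by
  refine ⟨LinearEquiv.ofInvolutive ef1_gl ?_, LinearEquiv.ofInvolutive ef1_hl ?_, ⟨?_, ?_⟩, ?_⟩
  · intro x
    rw [ef1_gl_apply, ef1_gl_apply]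
    ext i
    fin_cases i <;> simp
  · intro x
    rw [ef1_hl_apply, ef1_hl_apply]
    ext i
    fin_cases i <;> simp
  · intro u v
    change ef1_hl (netK δ u v) = netK δ (ef1_gl u) (ef1_gl v)
    rw [ef1_hl_apply, ef1_gl_apply, ef1_gl_apply, netK_apply, netK_apply]
    ext i
    fin_cases i <;> simp <;> ring
  · intro v
    change ef1_hl (piA A v) = piA A' (ef1_gl v)
    rw [ef1_hl_apply, ef1_pi, ef1_pi, ef1_gl_apply, h00, h01, h10, h11]
    ext i
    fin_cases i <;> simp <;> ring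
  · intro x
    rfl

/-- [M7 EF1] Among the data `(netK δ, π_A)`, `δ ≠ 0`: `A ~ A'` iff `A' = A` or `A' = - σ A σ` (`σ = diag (1, -1)`). PROOF (←): `g = 1, h = 1`, respectively `g x = ![x 0, -x 1, -x 2, x 3]` (i.e. `s = -1, a = 1, c = -1, R = 0`), with
`h = ` `![-w 0, w 1, -w 2]`: check `netK δ (g x) (g y) = h (netK δ x y)` and `π_{A'} (g x) = h (π_A x)`. (→): `Trans` gives `(g, h)` with `h (netK δ u v) = netK δ (g u) (g v)`; by `stab_netK` `g (ξ, η) = (a σ^s ξ, c σ^s η + R ξ)`; `h` is determined by `g` (compute it on `netK δ (e i) (e j)`):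
`h (κ, f) = (a c σ^s κ + t f, s N(a) f)`, `N(a) = a0² - δ a1²`. `π_A (ξ, η) = (A ξ + η, Re η)`. Compare `π_{A'} (g (0, η)) = h (π_A (0, η))`: `F`-part: `Re (c σ^s η) = s N(a) Re η` for all `η`, so `c = s N(a) ∈ F`; `K`-part: `c σ^s η = a c σ^s η + t Re η`; take `η = τ`: `a = 1`, then `t = 0`, `c = s`. `π_{A'} (g (ξ, 0))`:
`F`-part: `Re (R ξ) = 0`, so `R` has values in `F τ`; `t = 0` is `R τ = s τ R 1` (the formula `t = a (R τ - s τ R 1)`): `R τ ∈ F τ` and `τ R 1 ∈ F` (`δ ≠ 0`), so `R = 0`. `K`-part: `A' σ^s ξ = s σ^s A ξ`. -/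
theorem piA_eqv (hp : p ≠ 2) (δ : ZMod p) (hδ : δ ≠ 0) (A A' : Matrix (Fin 2) (Fin 2) (ZMod p)) :
    (datK δ (piA A)).Eqv (datK δ (piA A')) ↔ A' = A ∨ A' = !![-A 0 0, A 0 1; A 1 0, -A 1 1] := by
  constructor
  · rintro ⟨g, h, ht⟩
    obtain ⟨s, hs, -, h00, h01, h10, h11⟩ := ef1_core hp δ hδ A A' g h ht
    rcases hs with rfl | rfl
    · left
      ext i j
      fin_cases i <;> fin_cases j <;> simp [h00, h01, h10, h11]
    · right
      ext i j
      fin_cases i <;> fin_cases j <;> simp [h00, h01, h10, h11]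
  · rintro (rfl | rfl)
    · exact ⟨LinearEquiv.refl _ _, LinearEquiv.refl _ _, fun u v => rfl, fun v => rfl⟩
    · obtain ⟨g, h, ht, -⟩ := ef1_neg δ A !![-A 0 0, A 0 1; A 1 0, -A 1 1] (by simp) (by simp)
        (by simp) (by simp)
      exact ⟨g, h, ht⟩

/-- [M7 EF1] PROOF: the computation of the previous theorem with `A' = A` shows that a stabilising `(g, h)` has `g = 1` or (`s = -1`, `g x = ![x 0, -x 1, -x 2, x 3]`, `A = - σ A σ`), and the latter stabilises iff `A 0 0 = - A 0 0`, `A 1 1 = - A 1 1`. -/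
theorem piA_free (hp : p ≠ 2) (δ : ZMod p) (hδ : δ ≠ 0) (A : Matrix (Fin 2) (Fin 2) (ZMod p)) :
    (datK δ (piA A)).Free ↔ A 0 0 ≠ 0 ∨ A 1 1 ≠ 0 := by
  have h2 := ef1_two hp
  constructor
  · intro hF
    by_contra hcon
    push Not at hcon
    obtain ⟨z0, z1⟩ := hcon
    obtain ⟨g, h, ht, hg⟩ := ef1_neg δ A A (by rw [z0, neg_zero]) rfl rfl (by rw [z1, neg_zero])
    have h3 := hF g h ht (![0, 1, 0, 0] : VV p)
    rw [hg] at h3
    have h4 := congrFun h3 1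
    simp at h4
    apply h2
    linear_combination -h4
  · intro hA g h ht v
    obtain ⟨s, hs, hg, h00, -, -, h11⟩ := ef1_core hp δ hδ A A g h ht
    rcases hs with rfl | rfl
    · rw [hg]
      ext i
      fin_cases i <;> simp
    · exfalso
      have e0 : A 0 0 = 0 := by
        have : (2 : ZMod p) * A 0 0 = 0 := by linear_combination h00
        exact (mul_eq_zero.1 this).resolve_left h2
      have e1 : A 1 1 = 0 := by
        have : (2 : ZMod p) * A 1 1 = 0 := by linear_combination h11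
        exact (mul_eq_zero.1 this).resolve_left h2
      rcases hA with h' | h'
      · exact h' e0
      · exact h' e1

end MP_02e52a.M7
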