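import Pool.Agent.Lib.MP_02e52a_al.M7.TypeDefs
import Pool.Agent.Lib.MP_02e52a_al.M7.SK

namespace MP_02e52a.M7

variable {p : ℕ} [Fact p.Prime]

private theorem EF2_norm {ν : ZMod p} (hν : ¬ IsSquare ν) {x y : ZMod p}
    (h : x ^ 2 - ν * y ^ 2 = 0) : x = 0 ∧ y = 0 := by
  by_cases hy : y = 0
  · subst hy
    refine ⟨?_, rfl⟩
    have h' : x ^ 2 = 0 := by linear_combination h
    exact pow_eq_zero_iff (two_ne_zero) |>.1 h'
  · exfalso
    apply hν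
    refine ⟨x / y, ?_⟩
    field_simp
    linear_combination -h

private theorem EF2_mk (ν a0 a1 c0 c1 r00 r01 r10 r11 : ZMod p)
    (ha : a0 ^ 2 - ν * a1 ^ 2 ≠ 0) (hc : c0 ^ 2 - ν * c1 ^ 2 ≠ 0) :
    ∃ (g : VV p ≃ₗ[ZMod p] VV p) (h : WW p ≃ₗ[ZMod p] WW p),
      (∀ x, g x = ![a0 * x 0 + ν * a1 * x 1, a1 * x 0 + a0 * x 1,
          c0 * x 2 + ν * c1 * x 3 + (r00 * x 0 + r01 * x 1),
          c1 * x 2 + c0 * x 3 + (r10 * x 0 + r11 * x 1)]) ∧
      (∀ w, h w = ![(a0 * c0 + ν * (a1 * c1)) * w 0 + ν * (a0 * c1 + a1 * c0) * w 1 +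
            (a0 * (r01 - ν * r10) + ν * a1 * (r11 - r00)) * w 2,
          (a0 * c1 + a1 * c0) * w 0 + (a0 * c0 + ν * (a1 * c1)) * w 1 +
            (a0 * (r11 - r00) + a1 * (r01 - ν * r10)) * w 2,
          (a0 ^ 2 - ν * a1 ^ 2) * w 2]) ∧
      ∀ u v, h (netK ν u v) = netK ν (g u) (g v) := by
  let G : VV p →ₗ[ZMod p] VV p :=
    { toFun := fun x => ![a0 * x 0 + ν * a1 * x 1, a1 * x 0 + a0 * x 1,
          c0 * x 2 + ν * c1 * x 3 + (r00 * x 0 + r01 * x 1),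
          c1 * x 2 + c0 * x 3 + (r10 * x 0 + r11 * x 1)]
      map_add' := by intro x y; ext i; fin_cases i <;> simp <;> ring
      map_smul' := by intro c x; ext i; fin_cases i <;> simp <;> ring }
  let H : WW p →ₗ[ZMod p] WW p :=
    { toFun := fun w => ![(a0 * c0 + ν * (a1 * c1)) * w 0 + ν * (a0 * c1 + a1 * c0) * w 1 +
            (a0 * (r01 - ν * r10) + ν * a1 * (r11 - r00)) * w 2,
          (a0 * c1 + a1 * c0) * w 0 + (a0 * c0 + ν * (a1 * c1)) * w 1 +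
            (a0 * (r11 - r00) + a1 * (r01 - ν * r10)) * w 2,
          (a0 ^ 2 - ν * a1 ^ 2) * w 2]
      map_add' := by intro x y; ext i; fin_cases i <;> simp <;> ring
      map_smul' := by intro c x; ext i; fin_cases i <;> simp <;> ring }
  have hG : ∀ x, G x = ![a0 * x 0 + ν * a1 * x 1, a1 * x 0 + a0 * x 1,
          c0 * x 2 + ν * c1 * x 3 + (r00 * x 0 + r01 * x 1),
          c1 * x 2 + c0 * x 3 + (r10 * x 0 + r11 * x 1)] := fun x => rfl
  have hH : ∀ w, H w = ![(a0 * c0 + ν * (a1 * c1)) * w 0 + ν * (a0 * c1 + a1 * c0) * w 1 +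
            (a0 * (r01 - ν * r10) + ν * a1 * (r11 - r00)) * w 2,
          (a0 * c1 + a1 * c0) * w 0 + (a0 * c0 + ν * (a1 * c1)) * w 1 +
            (a0 * (r11 - r00) + a1 * (r01 - ν * r10)) * w 2,
          (a0 ^ 2 - ν * a1 ^ 2) * w 2] := fun w => rfl
  have hGi : Function.Injective G := by
    rw [← LinearMap.ker_eq_bot, LinearMap.ker_eq_bot']
    intro x hx
    rw [hG] at hx
    have h0 : a0 * x 0 + ν * a1 * x 1 = 0 := by simpa using congrFun hx 0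
    have h1 : a1 * x 0 + a0 * x 1 = 0 := by simpa using congrFun hx 1
    have h2 : c0 * x 2 + ν * c1 * x 3 + (r00 * x 0 + r01 * x 1) = 0 := by
      simpa using congrFun hx 2
    have h3 : c1 * x 2 + c0 * x 3 + (r10 * x 0 + r11 * x 1) = 0 := by
      simpa using congrFun hx 3
    have x0 : x 0 = 0 := by
      have : (a0 ^ 2 - ν * a1 ^ 2) * x 0 = 0 := by linear_combination a0 * h0 - ν * a1 * h1
      exact (mul_eq_zero.mp this).resolve_left ha
    have x1 : x 1 = 0 := by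
      have : (a0 ^ 2 - ν * a1 ^ 2) * x 1 = 0 := by linear_combination a0 * h1 - a1 * h0
      exact (mul_eq_zero.mp this).resolve_left ha
    rw [x0, x1] at h2 h3
    have x2 : x 2 = 0 := by
      have : (c0 ^ 2 - ν * c1 ^ 2) * x 2 = 0 := by linear_combination c0 * h2 - ν * c1 * h3
      exact (mul_eq_zero.mp this).resolve_left hc
    have x3 : x 3 = 0 := by
      have : (c0 ^ 2 - ν * c1 ^ 2) * x 3 = 0 := by linear_combination c0 * h3 - c1 * h2
      exact (mul_eq_zero.mp this).resolve_left hc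
    ext i
    fin_cases i
    · exact x0
    · exact x1
    · exact x2
    · exact x3
  have hHi : Function.Injective H := by
    rw [← LinearMap.ker_eq_bot, LinearMap.ker_eq_bot']
    intro w hw
    rw [hH] at hw
    have h0 : (a0 * c0 + ν * (a1 * c1)) * w 0 + ν * (a0 * c1 + a1 * c0) * w 1 +
            (a0 * (r01 - ν * r10) + ν * a1 * (r11 - r00)) * w 2 = 0 := by
      have := congrFun hw 0
      exact this
    have h1 : (a0 * c1 + a1 * c0) * w 0 + (a0 * c0 + ν * (a1 * c1)) * w 1 +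
            (a0 * (r11 - r00) + a1 * (r01 - ν * r10)) * w 2 = 0 := by
      have := congrFun hw 1
      exact this
    have h2 : (a0 ^ 2 - ν * a1 ^ 2) * w 2 = 0 := by
      have := congrFun hw 2
      exact this
    have w2 : w 2 = 0 := (mul_eq_zero.mp h2).resolve_left ha
    rw [w2, mul_zero, add_zero] at h0 h1
    have hm : (a0 * c0 + ν * (a1 * c1)) ^ 2 - ν * (a0 * c1 + a1 * c0) ^ 2 ≠ 0 := by
      have : (a0 * c0 + ν * (a1 * c1)) ^ 2 - ν * (a0 * c1 + a1 * c0) ^ 2 =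
          (a0 ^ 2 - ν * a1 ^ 2) * (c0 ^ 2 - ν * c1 ^ 2) := by ring
      rw [this]
      exact mul_ne_zero ha hc
    have w0 : w 0 = 0 := by
      have : ((a0 * c0 + ν * (a1 * c1)) ^ 2 - ν * (a0 * c1 + a1 * c0) ^ 2) * w 0 = 0 := by
        linear_combination (a0 * c0 + ν * (a1 * c1)) * h0 - ν * (a0 * c1 + a1 * c0) * h1
      exact (mul_eq_zero.mp this).resolve_left hm
    have w1 : w 1 = 0 := by
      have : ((a0 * c0 + ν * (a1 * c1)) ^ 2 - ν * (a0 * c1 + a1 * c0) ^ 2) * w 1 = 0 := by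
        linear_combination (a0 * c0 + ν * (a1 * c1)) * h1 - (a0 * c1 + a1 * c0) * h0
      exact (mul_eq_zero.mp this).resolve_left hm
    ext i
    fin_cases i
    · exact w0
    · exact w1
    · exact w2
  refine ⟨LinearEquiv.ofInjectiveEndo G hGi, LinearEquiv.ofInjectiveEndo H hHi, ?_, ?_, ?_⟩
  · intro x
    rw [LinearEquiv.coe_ofInjectiveEndo, hG]
  · intro w
    rw [LinearEquiv.coe_ofInjectiveEndo, hH]
  · intro u v
    rw [LinearEquiv.coe_ofInjectiveEndo, LinearEquiv.coe_ofInjectiveEndo, hH, hG u, hG v]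
    ext i
    fin_cases i
    · simp only [netK_apply, Fin.zero_eta, Matrix.cons_val_zero, Matrix.cons_val_one,
        Matrix.cons_val]
      ring
    · simp only [netK_apply, Fin.mk_one, Matrix.cons_val_zero, Matrix.cons_val_one,
        Matrix.cons_val]
      ring
    · simp only [netK_apply, Fin.reduceFinMk, Matrix.cons_val_zero, Matrix.cons_val_one,
        Matrix.cons_val]
      ring

private theorem EF2_lin (π : VV p →ₗ[ZMod p] WW p) (x : VV p) (i : Fin 3) :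
    π x i = π (Pi.single 0 1) i * x 0 + π (Pi.single 1 1) i * x 1 + π (Pi.single 2 1) i * x 2 +
      π (Pi.single 3 1) i * x 3 := by
  have hx : x = x 0 • (Pi.single 0 1 : VV p) + x 1 • (Pi.single 1 1 : VV p) +
      x 2 • (Pi.single 2 1 : VV p) + x 3 • (Pi.single 3 1 : VV p) := by
    ext j; fin_cases j <;> simp
  conv_lhs => rw [hx]
  simp only [map_add, map_smul, Pi.add_apply, Pi.smul_apply, smul_eq_mul]
  ring

private theorem EF2_piA (A : Matrix (Fin 2) (Fin 2) (ZMod p)) (x : VV p) :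
    piA A x = ![A 0 0 * x 0 + A 0 1 * x 1 + x 2, A 1 0 * x 0 + A 1 1 * x 1 + x 3, x 2] := by
  ext i
  fin_cases i <;> simp [piA, mkπ, Matrix.mulVec, dotProduct, Fin.sum_univ_four]

private theorem EF2_final (ν : ZMod p) (hν : ¬ IsSquare ν) (π : VV p →ₗ[ZMod p] WW p)
    (p00 p01 u0 v0 p10 p11 u1 v1 q0 q1 d0 d1 : ZMod p)
    (hπ0 : ∀ x, π x 0 = p00 * x 0 + p01 * x 1 + u0 * x 2 + v0 * x 3)
    (hπ1 : ∀ x, π x 1 = p10 * x 0 + p11 * x 1 + u1 * x 2 + v1 * x 3)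
    (hπ2 : ∀ x, π x 2 = q0 * x 0 + q1 * x 1 + d0 * x 2 + ν * d1 * x 3)
    (hd : d0 ^ 2 - ν * d1 ^ 2 ≠ 0)
    (hβ : (-(ν * d1) * u0 + d0 * v0) ^ 2 - ν * (-(ν * d1) * u1 + d0 * v1) ^ 2 ≠ 0) :
    ∃ A, (datK ν π).Eqv (datK ν (piA A)) := by
  have hν0 : ν ≠ 0 := by
    rintro rfl
    exact hν ⟨0, by ring⟩
  obtain ⟨k, hk⟩ : ∃ k, (d0 ^ 2 - ν * d1 ^ 2) * k = 1 := ⟨_, mul_inv_cancel₀ hd⟩
  obtain ⟨l, hl⟩ : ∃ l, ν * l = 1 := ⟨_, mul_inv_cancel₀ hν0⟩
  obtain ⟨a0, a1, E0, E1⟩ : ∃ a0 a1,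
      a0 * (-(ν * d1) * u0 + d0 * v0) + ν * a1 * (-(ν * d1) * u1 + d0 * v1) - (-(ν * d1)) = 0 ∧
      a0 * (-(ν * d1) * u1 + d0 * v1) + a1 * (-(ν * d1) * u0 + d0 * v0) - d0 = 0 := by
    generalize hb0 : -(ν * d1) * u0 + d0 * v0 = β0 at *
    generalize hb1 : -(ν * d1) * u1 + d0 * v1 = β1 at *
    obtain ⟨m, hm⟩ : ∃ m, (β0 ^ 2 - ν * β1 ^ 2) * m = 1 := ⟨_, mul_inv_cancel₀ hβ⟩
    refine ⟨(-ν * d1 * β0 - ν * d0 * β1) * m, (d0 * β0 + ν * d1 * β1) * m, ?_, ?_⟩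
    · linear_combination (-(ν * d1)) * hm
    · linear_combination d0 * hm
  have hn : a0 ^ 2 - ν * a1 ^ 2 ≠ 0 := by
    intro h
    obtain ⟨rfl, rfl⟩ := EF2_norm hν h
    apply hd
    linear_combination (-d0) * E1 - d1 * E0
  obtain ⟨n, hn'⟩ : ∃ n, a0 ^ 2 - ν * a1 ^ 2 = n := ⟨_, rfl⟩
  obtain ⟨ni, hni⟩ : ∃ ni, (a0 ^ 2 - ν * a1 ^ 2) * ni = 1 := ⟨_, mul_inv_cancel₀ hn⟩
  have hc : (n * d0) ^ 2 - ν * (n * d1) ^ 2 ≠ 0 := by
    have : (n * d0) ^ 2 - ν * (n * d1) ^ 2 = n ^ 2 * (d0 ^ 2 - ν * d1 ^ 2) := by ring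
    rw [this]
    exact mul_ne_zero (pow_ne_zero 2 (hn' ▸ hn)) hd
  obtain ⟨s0, hs0⟩ : ∃ s0, s0 = a0 - k * n * (d0 * (d0 * u0 - d1 * v0) +
    ν * d1 * (d0 * u1 - d1 * v1)) := ⟨_, rfl⟩
  obtain ⟨s1, hs1⟩ : ∃ s1, s1 = -a1 - k * n * (d0 * (d0 * u1 - d1 * v1) +
    d1 * (d0 * u0 - d1 * v0)) := ⟨_, rfl⟩
  obtain ⟨r10, hr10⟩ : ∃ r10, n * q1 - ν * r10 = s0 :=
    ⟨(n * q1 - s0) * l, by linear_combination (s0 - n * q1) * hl⟩
  obtain ⟨r11, hr11⟩ : ∃ r11, r11 - n * q0 = s1 := ⟨s1 + n * q0, by ring⟩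
  obtain ⟨g, h, hg, hh, hgh⟩ := EF2_mk ν a0 a1 (n * d0) (n * d1) (n * q0) (n * q1) r10 r11 hn hc
  rw [hr10, hr11] at hh
  obtain ⟨A00, A01, hA0, hA1⟩ : ∃ A00 A01, A00 * a0 + A01 * a1 =
      (a0 * (n * d0) + ν * (a1 * (n * d1))) * p00 + ν * (a0 * (n * d1) + a1 * (n * d0)) * p10 +
        (a0 * s0 + ν * a1 * s1) * q0 - n * q0 ∧ ν * A00 * a1 + A01 * a0 =
      (a0 * (n * d0) + ν * (a1 * (n * d1))) * p01 + ν * (a0 * (n * d1) + a1 * (n * d0)) * p11 +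
        (a0 * s0 + ν * a1 * s1) * q1 - n * q1 := by
    generalize (a0 * (n * d0) + ν * (a1 * (n * d1))) * p00 +
      ν * (a0 * (n * d1) + a1 * (n * d0)) * p10 + (a0 * s0 + ν * a1 * s1) * q0 - n * q0 = X
    generalize (a0 * (n * d0) + ν * (a1 * (n * d1))) * p01 +
      ν * (a0 * (n * d1) + a1 * (n * d0)) * p11 + (a0 * s0 + ν * a1 * s1) * q1 - n * q1 = Y
    refine ⟨(a0 * X - a1 * Y) * ni, (a0 * Y - ν * a1 * X) * ni, ?_, ?_⟩
    · linear_combination X * hni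
    · linear_combination Y * hni
  obtain ⟨A10, A11, hA2, hA3⟩ : ∃ A10 A11, A10 * a0 + A11 * a1 =
      (a0 * (n * d1) + a1 * (n * d0)) * p00 + (a0 * (n * d0) + ν * (a1 * (n * d1))) * p10 +
        (a0 * s1 + a1 * s0) * q0 - r10 ∧ ν * A10 * a1 + A11 * a0 =
      (a0 * (n * d1) + a1 * (n * d0)) * p01 + (a0 * (n * d0) + ν * (a1 * (n * d1))) * p11 +
        (a0 * s1 + a1 * s0) * q1 - r11 := by
    generalize (a0 * (n * d1) + a1 * (n * d0)) * p00 +
      (a0 * (n * d0) + ν * (a1 * (n * d1))) * p10 + (a0 * s1 + a1 * s0) * q0 - r10 = X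
    generalize (a0 * (n * d1) + a1 * (n * d0)) * p01 +
      (a0 * (n * d0) + ν * (a1 * (n * d1))) * p11 + (a0 * s1 + a1 * s0) * q1 - r11 = Y
    refine ⟨(a0 * X - a1 * Y) * ni, (a0 * Y - ν * a1 * X) * ni, ?_, ?_⟩
    · linear_combination X * hni
    · linear_combination Y * hni
  have F1 : (a0 * (n * d0) + ν * (a1 * (n * d1))) * u0 + ν * (a0 * (n * d1) + a1 * (n * d0)) * u1 +
      (a0 * s0 + ν * a1 * s1) * d0 - n * d0 = 0 := by
    rw [hs0, hs1]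
    linear_combination n * k * d1 * d0 * E0 + n * k * d1 * ν * d1 * E1 -
      n * ((a0 * d0 + ν * a1 * d1) * u0 + ν * (a0 * d1 + a1 * d0) * u1) * hk + d0 * hn'
  have F2 : (a0 * (n * d1) + a1 * (n * d0)) * u0 + (a0 * (n * d0) + ν * (a1 * (n * d1))) * u1 +
      (a0 * s1 + a1 * s0) * d0 - n * d1 = 0 := by
    rw [hs0, hs1]
    linear_combination n * k * d1 * d0 * E1 + n * k * d1 * d1 * E0 -
      n * ((a0 * d0 + ν * a1 * d1) * u1 + (a0 * d1 + a1 * d0) * u0 - d1) * hk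
  have F3 : (a0 * (n * d0) + ν * (a1 * (n * d1))) * v0 + ν * (a0 * (n * d1) + a1 * (n * d0)) * v1 +
      (a0 * s0 + ν * a1 * s1) * (ν * d1) - ν * (n * d1) = 0 := by
    rw [hs0, hs1]
    linear_combination n * k * d0 * d0 * E0 + n * k * d0 * ν * d1 * E1 -
      n * ((a0 * d0 + ν * a1 * d1) * v0 + ν * (a0 * d1 + a1 * d0) * v1) * hk + ν * d1 * hn'
  have F4 : (a0 * (n * d1) + a1 * (n * d0)) * v0 + (a0 * (n * d0) + ν * (a1 * (n * d1))) * v1 +
      (a0 * s1 + a1 * s0) * (ν * d1) - n * d0 = 0 := by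
    rw [hs0, hs1]
    linear_combination n * k * d0 * d0 * E1 + n * k * d0 * d1 * E0 -
      n * ((a0 * d0 + ν * a1 * d1) * v1 + (a0 * d1 + a1 * d0) * v0 - d0) * hk
  refine ⟨!![A00, A01; A10, A11], g, h, hgh, fun x => ?_⟩
  change h (π x) = piA !![A00, A01; A10, A11] (g x)
  rw [EF2_piA, hh, hg, hπ0, hπ1, hπ2]
  ext i
  fin_cases i
  · simp only [Fin.zero_eta, Matrix.cons_val_zero, Matrix.cons_val_one, Matrix.cons_val,
      Matrix.of_apply]
    linear_combination (-x 0) * hA0 - x 1 * hA1 + x 2 * F1 + x 3 * F3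
  · simp only [Fin.mk_one, Matrix.cons_val_zero, Matrix.cons_val_one, Matrix.cons_val,
      Matrix.of_apply]
    linear_combination (-x 0) * hA2 - x 1 * hA3 + x 2 * F2 + x 3 * F4
  · simp only [Fin.reduceFinMk, Matrix.cons_val_zero, Matrix.cons_val_one, Matrix.cons_val]
    rw [hn']
    ring

private theorem EF2_B0 (hp : p ≠ 2) (ν : ZMod p) (hν : ¬ IsSquare ν) (π : VV p →ₗ[ZMod p] WW p)
    (p00 p01 u0 v0 p10 p11 u1 v1 q0 q1 d0 d1 : ZMod p)
    (hπ0 : ∀ x, π x 0 = p00 * x 0 + p01 * x 1 + u0 * x 2 + v0 * x 3)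
    (hπ1 : ∀ x, π x 1 = p10 * x 0 + p11 * x 1 + u1 * x 2 + v1 * x 3)
    (hπ2 : ∀ x, π x 2 = q0 * x 0 + q1 * x 1 + d0 * x 2 + ν * d1 * x 3)
    (hd : d0 ^ 2 - ν * d1 ^ 2 ≠ 0)
    (hβ0 : -(ν * d1) * u0 + d0 * v0 = 0) (hβ1 : -(ν * d1) * u1 + d0 * v1 = 0)
    (hf : (datK ν π).Free) : False := by
  have h2 : (2 : ZMod p) ≠ 0 := by
    intro h0
    have : (p : ℕ) ∣ 2 := by
      have := (ZMod.natCast_eq_zero_iff 2 p).mp (by exact_mod_cast h0)
      exact this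
    exact hp ((Nat.prime_dvd_prime_iff_eq (Fact.out) Nat.prime_two).mp this)
  have hν0 : ν ≠ 0 := by
    rintro rfl
    exact hν ⟨0, by ring⟩
  obtain ⟨k, hk⟩ : ∃ k, (d0 ^ 2 - ν * d1 ^ 2) * k = 1 := ⟨_, mul_inv_cancel₀ hd⟩
  obtain ⟨l, hl⟩ : ∃ l, ν * l = 1 := ⟨_, mul_inv_cancel₀ hν0⟩
  obtain ⟨b0, hb0, hb0'⟩ : ∃ b0, u0 = b0 * d0 ∧ v0 = b0 * (ν * d1) := by
    refine ⟨k * (d0 * u0 - d1 * v0), ?_, ?_⟩
    · linear_combination (-u0) * hk + k * d1 * hβ0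
    · linear_combination (-v0) * hk + k * d0 * hβ0
  obtain ⟨b1, hb1, hb1'⟩ : ∃ b1, u1 = b1 * d0 ∧ v1 = b1 * (ν * d1) := by
    refine ⟨k * (d0 * u1 - d1 * v1), ?_, ?_⟩
    · linear_combination (-u1) * hk + k * d1 * hβ1
    · linear_combination (-v1) * hk + k * d0 * hβ1
  -- `R`
  obtain ⟨r, hr⟩ : ∃ r, 2 * q1 - ν * r = -2 * (b0 * d0 + ν * b1 * d1) :=
    ⟨(2 * q1 + 2 * (b0 * d0 + ν * b1 * d1)) * l, by
      linear_combination (-(2 * q1 + 2 * (b0 * d0 + ν * b1 * d1))) * hl⟩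
  obtain ⟨r', hr'⟩ : ∃ r', r' - 2 * q0 = -2 * (b0 * d1 + b1 * d0) :=
    ⟨2 * q0 - 2 * (b0 * d1 + b1 * d0), by ring⟩
  obtain ⟨r00, r01, r10, r11, T0, T1, S0, S1⟩ : ∃ r00 r01 r10 r11,
      (-1) * (r01 - ν * r10) = 2 * b0 ∧ (-1) * (r11 - r00) = 2 * b1 ∧
      d0 * r00 + ν * d1 * r10 = 2 * q0 ∧ d0 * r01 + ν * d1 * r11 = 2 * q1 := by
    refine ⟨k * (2 * q0 * d0 - ν * r * d1), k * (2 * q1 * d0 - ν * r' * d1),
      k * (r * d0 - 2 * q0 * d1), k * (r' * d0 - 2 * q1 * d1), ?_, ?_, ?_, ?_⟩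
    · linear_combination (-k * d0) * hr + k * ν * d1 * hr' + 2 * b0 * hk
    · linear_combination (-k * d0) * hr' + k * d1 * hr + 2 * b1 * hk
    · linear_combination 2 * q0 * hk
    · linear_combination 2 * q1 * hk
  obtain ⟨g, h, hg, hh, hgh⟩ := EF2_mk ν (-1) 0 1 0 r00 r01 r10 r11
    (by norm_num) (by norm_num)
  have hfix := hf g h ⟨hgh, fun x => ?_⟩ (Pi.single 0 1)
  · rw [hg] at hfix
    have h3 := congrFun hfix 0
    simp at h3
    apply h2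
    linear_combination -h3
  · change h (π x) = π (g x)
    subst hb0 hb0' hb1 hb1'
    have e0 := hπ0 (g x)
    have e1 := hπ1 (g x)
    have e2 := hπ2 (g x)
    rw [hg] at e0 e1 e2
    rw [hh]
    ext i
    fin_cases i
    · simp only [Fin.zero_eta, Matrix.cons_val_zero, Matrix.cons_val_one, Matrix.cons_val] at e0 ⊢
      rw [hg, e0, hπ0, hπ1, hπ2]
      linear_combination (q0 * x 0 + q1 * x 1 + d0 * x 2 + ν * d1 * x 3) * T0 -
        b0 * x 0 * S0 - b0 * x 1 * S1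
    · simp only [Fin.mk_one, Matrix.cons_val_zero, Matrix.cons_val_one, Matrix.cons_val] at e1 ⊢
      rw [hg, e1, hπ0, hπ1, hπ2]
      linear_combination (q0 * x 0 + q1 * x 1 + d0 * x 2 + ν * d1 * x 3) * T1 -
        b1 * x 0 * S0 - b1 * x 1 * S1
    · simp only [Fin.reduceFinMk, Matrix.cons_val_zero, Matrix.cons_val_one,
        Matrix.cons_val] at e2 ⊢
      rw [hg, e2, hπ2]
      linear_combination (-x 0) * S0 - x 1 * S1

private theorem EF2_D0 (hp : p ≠ 2) (ν : ZMod p) (π : VV p →ₗ[ZMod p] WW p)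
    (p00 p01 u0 v0 p10 p11 u1 v1 q0 q1 : ZMod p)
    (hπ0 : ∀ x, π x 0 = p00 * x 0 + p01 * x 1 + u0 * x 2 + v0 * x 3)
    (hπ1 : ∀ x, π x 1 = p10 * x 0 + p11 * x 1 + u1 * x 2 + v1 * x 3)
    (hπ2 : ∀ x, π x 2 = q0 * x 0 + q1 * x 1)
    (hf : (datK ν π).Free) : False := by
  have h2 : (2 : ZMod p) ≠ 0 := by
    intro h0
    have : (p : ℕ) ∣ 2 := by
      have := (ZMod.natCast_eq_zero_iff 2 p).mp (by exact_mod_cast h0)
      exact this
    exact hp ((Nat.prime_dvd_prime_iff_eq (Fact.out) Nat.prime_two).mp this)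
  let Φ : VV p →ₗ[ZMod p] VV p :=
    { toFun := fun y => ![u0 * y 0 + v0 * y 2 - q0 * (y 1 - ν * y 2),
          u1 * y 0 + v1 * y 2 - q0 * (y 3 - y 0),
          u0 * y 1 + v0 * y 3 - q1 * (y 1 - ν * y 2),
          u1 * y 1 + v1 * y 3 - q1 * (y 3 - y 0)]
      map_add' := by intro x y; ext i; fin_cases i <;> simp <;> ring
      map_smul' := by intro c x; ext i; fin_cases i <;> simp <;> ring }
  have hΦ : ∀ y, Φ y = ![u0 * y 0 + v0 * y 2 - q0 * (y 1 - ν * y 2),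
          u1 * y 0 + v1 * y 2 - q0 * (y 3 - y 0),
          u0 * y 1 + v0 * y 3 - q1 * (y 1 - ν * y 2),
          u1 * y 1 + v1 * y 3 - q1 * (y 3 - y 0)] := fun y => rfl
  by_cases hinj : Function.Injective Φ
  · have hsur : Function.Surjective Φ := LinearMap.injective_iff_surjective.1 hinj
    obtain ⟨y, hy⟩ := hsur ![-2 * p00, -2 * p10, -2 * p01, -2 * p11]
    rw [hΦ] at hy
    have y0 : u0 * y 0 + v0 * y 2 - q0 * (y 1 - ν * y 2) = -2 * p00 := congrFun hy 0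
    have y1 : u1 * y 0 + v1 * y 2 - q0 * (y 3 - y 0) = -2 * p10 := congrFun hy 1
    have y2 : u0 * y 1 + v0 * y 3 - q1 * (y 1 - ν * y 2) = -2 * p01 := congrFun hy 2
    have y3 : u1 * y 1 + v1 * y 3 - q1 * (y 3 - y 0) = -2 * p11 := congrFun hy 3
    obtain ⟨g, h, hg, hh, hgh⟩ := EF2_mk ν 1 0 (-1) 0 (y 0) (y 1) (y 2) (y 3)
      (by norm_num) (by norm_num)
    have hfix := hf g h ⟨hgh, fun x => ?_⟩ (Pi.single 2 1)
    · rw [hg] at hfix
      have h3 := congrFun hfix 2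
      simp at h3
      apply h2
      linear_combination -h3
    · change h (π x) = π (g x)
      have e0 := hπ0 (g x)
      have e1 := hπ1 (g x)
      have e2 := hπ2 (g x)
      rw [hg] at e0 e1 e2
      rw [hh]
      ext i
      fin_cases i
      · simp only [Fin.zero_eta, Matrix.cons_val_zero, Matrix.cons_val_one,
          Matrix.cons_val] at e0 ⊢
        rw [hg, e0, hπ0, hπ1, hπ2]
        linear_combination (-x 0) * y0 - x 1 * y2
      · simp only [Fin.mk_one, Matrix.cons_val_zero, Matrix.cons_val_one, Matrix.cons_val] at e1 ⊢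
        rw [hg, e1, hπ0, hπ1, hπ2]
        linear_combination (-x 0) * y1 - x 1 * y3
      · simp only [Fin.reduceFinMk, Matrix.cons_val_zero, Matrix.cons_val_one,
          Matrix.cons_val] at e2 ⊢
        rw [hg, e2, hπ2]
        ring
  · rw [← LinearMap.ker_eq_bot, LinearMap.ker_eq_bot'] at hinj
    push Not at hinj
    obtain ⟨y, hy, hy0⟩ := hinj
    rw [hΦ] at hy
    have y0 : u0 * y 0 + v0 * y 2 - q0 * (y 1 - ν * y 2) = 0 := congrFun hy 0
    have y1 : u1 * y 0 + v1 * y 2 - q0 * (y 3 - y 0) = 0 := congrFun hy 1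
    have y2 : u0 * y 1 + v0 * y 3 - q1 * (y 1 - ν * y 2) = 0 := congrFun hy 2
    have y3 : u1 * y 1 + v1 * y 3 - q1 * (y 3 - y 0) = 0 := congrFun hy 3
    obtain ⟨g, h, hg, hh, hgh⟩ := EF2_mk ν 1 0 1 0 (y 0) (y 1) (y 2) (y 3)
      (by norm_num) (by norm_num)
    have key : ∀ x, h (π x) = π (g x) := by
      intro x
      have e0 := hπ0 (g x)
      have e1 := hπ1 (g x)
      have e2 := hπ2 (g x)
      rw [hg] at e0 e1 e2
      rw [hh]
      ext i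
      fin_cases i
      · simp only [Fin.zero_eta, Matrix.cons_val_zero, Matrix.cons_val_one,
          Matrix.cons_val] at e0 ⊢
        rw [hg, e0, hπ0, hπ1, hπ2]
        linear_combination (-x 0) * y0 - x 1 * y2
      · simp only [Fin.mk_one, Matrix.cons_val_zero, Matrix.cons_val_one, Matrix.cons_val] at e1 ⊢
        rw [hg, e1, hπ0, hπ1, hπ2]
        linear_combination (-x 0) * y1 - x 1 * y3
      · simp only [Fin.reduceFinMk, Matrix.cons_val_zero, Matrix.cons_val_one,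
          Matrix.cons_val] at e2 ⊢
        rw [hg, e2, hπ2]
        ring
    have f0 := hf g h ⟨hgh, key⟩ (Pi.single 0 1)
    have f1 := hf g h ⟨hgh, key⟩ (Pi.single 1 1)
    rw [hg] at f0 f1
    apply hy0
    have a2 := congrFun f0 2
    have a3 := congrFun f0 3
    have b2 := congrFun f1 2
    have b3 := congrFun f1 3
    simp at a2 a3 b2 b3
    ext i
    fin_cases i
    · exact a2
    · exact b2
    · exact a3
    · exact b3

/-- [M7 EF2] Field type: every free datum is equivalent to some `(netK ν, π_A)`. PROOF. Write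
`π (ξ, η) = (A ξ + B η, C ξ + D η)` with `A, B : K → K`, `C, D : K → F` linear over `F`
(`K = F[τ]/(τ² - ν)` is a field). If `D = 0`, or if `D η = Re (d η)` and `B (τ / d) = 0`, then an
element `g = (1, 1, R)`, `(1, -1, R)`, resp. `(-1, 1, R)` stabilises `π`. Otherwise there is a
unique `(a, c, R)` for which `π` is transported to a map `π_A`. -/
theorem field_normal (hp : p ≠ 2) (ν : ZMod p) (hν : ¬ IsSquare ν) (π : VV p →ₗ[ZMod p] WW p)
    (hf : (datK ν π).Free) : ∃ A, (datK ν π).Eqv (datK ν (piA A)) := by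
  have hν0 : ν ≠ 0 := by
    rintro rfl
    exact hν ⟨0, by ring⟩
  have hπ0 := fun x => EF2_lin π x 0
  have hπ1 := fun x => EF2_lin π x 1
  have hπ2 := fun x => EF2_lin π x 2
  generalize π (Pi.single 0 1) 0 = p00 at *
  generalize π (Pi.single 1 1) 0 = p01 at *
  generalize π (Pi.single 2 1) 0 = u0 at *
  generalize π (Pi.single 3 1) 0 = v0 at *
  generalize π (Pi.single 0 1) 1 = p10 at *
  generalize π (Pi.single 1 1) 1 = p11 at *
  generalize π (Pi.single 2 1) 1 = u1 at *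
  generalize π (Pi.single 3 1) 1 = v1 at *
  generalize π (Pi.single 0 1) 2 = q0 at *
  generalize π (Pi.single 1 1) 2 = q1 at *
  generalize π (Pi.single 2 1) 2 = d0 at *
  generalize π (Pi.single 3 1) 2 = D1 at *
  obtain ⟨d1, rfl⟩ : ∃ d1, D1 = ν * d1 := ⟨ν⁻¹ * D1, by field_simp⟩
  by_cases hd : d0 ^ 2 - ν * d1 ^ 2 = 0
  · obtain ⟨rfl, rfl⟩ := EF2_norm hν hd
    exact (EF2_D0 hp ν π p00 p01 u0 v0 p10 p11 u1 v1 q0 q1 hπ0 hπ1
      (fun x => by rw [hπ2]; ring) hf).elim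
  by_cases hβ : (-(ν * d1) * u0 + d0 * v0) ^ 2 - ν * (-(ν * d1) * u1 + d0 * v1) ^ 2 = 0
  · obtain ⟨h1, h2⟩ := EF2_norm hν hβ
    exact (EF2_B0 hp ν hν π p00 p01 u0 v0 p10 p11 u1 v1 q0 q1 d0 d1 hπ0 hπ1 hπ2 hd h1 h2 hf).elim
  exact EF2_final ν hν π p00 p01 u0 v0 p10 p11 u1 v1 q0 q1 d0 d1 hπ0 hπ1 hπ2 hd hβ

end MP_02e52a.M7
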