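import Pool.Agent.Lib.MP_02e52a_al.M7.TypeDefs

namespace MP_02e52a.M7

variable {p : ℕ} [Fact p.Prime]

/-- [M7 EH0] `netK 1` is equivalent to `netH`. PROOF: `g x = ![x 0 + x 1, x 2 + x 3, x 0 - x 1, x 2 - x 3]`; the components `w 0, w 1, w 2` of `netH (g x) (g y)` are `A + B`, `A - B`, `-2 C` where `(A, B, C) = netK 1 x y`. -/
theorem netK_one_eqv (hp : p ≠ 2) : EqvBil (netK (1 : ZMod p)) netH := by
  have h2 : (2 : ZMod p) ≠ 0 := by
    intro h0
    have : (p : ℕ) ∣ 2 := (ZMod.natCast_eq_zero_iff 2 p).mp (by exact_mod_cast h0)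
    exact hp ((Nat.prime_dvd_prime_iff_eq (Fact.out) Nat.prime_two).mp this)
  let f : VV p →ₗ[ZMod p] VV p :=
    { toFun := fun x => ![x 0 + x 1, x 2 + x 3, x 0 - x 1, x 2 - x 3]
      map_add' := by intro x y; ext i; fin_cases i <;> simp <;> ring
      map_smul' := by intro c x; ext i; fin_cases i <;> simp <;> ring }
  have hf : ∀ x, f x = ![x 0 + x 1, x 2 + x 3, x 0 - x 1, x 2 - x 3] := fun _ => rfl
  let k : WW p →ₗ[ZMod p] WW p :=
    { toFun := fun w => ![w 0 + w 1, w 0 - w 1, -2 * w 2]
      map_add' := by intro x y; ext i; fin_cases i <;> simp <;> ring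
      map_smul' := by intro c x; ext i; fin_cases i <;> simp <;> ring }
  have hk : ∀ w, k w = ![w 0 + w 1, w 0 - w 1, -2 * w 2] := fun _ => rfl
  have fi : Function.Injective f := by
    rw [← LinearMap.ker_eq_bot, LinearMap.ker_eq_bot']
    intro x hx
    rw [hf] at hx
    have q0 : x 0 + x 1 = 0 := by simpa using congrFun hx 0
    have q1 : x 2 + x 3 = 0 := by simpa using congrFun hx 1
    have q2 : x 0 - x 1 = 0 := by simpa using congrFun hx 2
    have q3 : x 2 - x 3 = 0 := by simpa using congrFun hx 3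
    have r0 : x 0 = 0 := (mul_eq_zero.mp (show (2 : ZMod p) * x 0 = 0 by linear_combination q0 + q2)).resolve_left h2
    have r1 : x 1 = 0 := (mul_eq_zero.mp (show (2 : ZMod p) * x 1 = 0 by linear_combination q0 - q2)).resolve_left h2
    have r2 : x 2 = 0 := (mul_eq_zero.mp (show (2 : ZMod p) * x 2 = 0 by linear_combination q1 + q3)).resolve_left h2
    have r3 : x 3 = 0 := (mul_eq_zero.mp (show (2 : ZMod p) * x 3 = 0 by linear_combination q1 - q3)).resolve_left h2
    ext i
    fin_cases i
    · exact r0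
    · exact r1
    · exact r2
    · exact r3
  have ki : Function.Injective k := by
    rw [← LinearMap.ker_eq_bot, LinearMap.ker_eq_bot']
    intro w hw
    rw [hk] at hw
    have q0 : w 0 + w 1 = 0 := by simpa using congrFun hw 0
    have q1 : w 0 - w 1 = 0 := by simpa using congrFun hw 1
    have q2 : -2 * w 2 = 0 := congrFun hw 2
    have r0 : w 0 = 0 := (mul_eq_zero.mp (show (2 : ZMod p) * w 0 = 0 by linear_combination q0 + q1)).resolve_left h2
    have r1 : w 1 = 0 := (mul_eq_zero.mp (show (2 : ZMod p) * w 1 = 0 by linear_combination q0 - q1)).resolve_left h2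
    have r2 : w 2 = 0 := (mul_eq_zero.mp (show (2 : ZMod p) * w 2 = 0 by linear_combination - q2)).resolve_left h2
    ext i
    fin_cases i
    · exact r0
    · exact r1
    · exact r2
  refine ⟨LinearEquiv.ofInjectiveEndo f fi, LinearEquiv.ofInjectiveEndo k ki, fun u v => ?_⟩
  rw [LinearEquiv.coe_ofInjectiveEndo, LinearEquiv.coe_ofInjectiveEndo, hk, hf u, hf v]
  ext i
  fin_cases i
  · simp only [netK_apply, netH_apply, Fin.zero_eta, Matrix.cons_val_zero, Matrix.cons_val_one, Matrix.cons_val]
    ring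
  · simp only [netK_apply, netH_apply, Fin.mk_one, Matrix.cons_val_zero, Matrix.cons_val_one, Matrix.cons_val]
    ring
  · simp only [netK_apply, netH_apply, Fin.reduceFinMk, Matrix.cons_val_zero, Matrix.cons_val_one, Matrix.cons_val]
    ring

private theorem eh0_expand (g : VV p ≃ₗ[ZMod p] VV p) (x : VV p) :
    g x = x 0 • g ![1, 0, 0, 0] + x 1 • g ![0, 1, 0, 0] + x 2 • g ![0, 0, 1, 0] + x 3 • g ![0, 0, 0, 1] := by
  have hx : x = x 0 • ![1, 0, 0, 0] + x 1 • ![0, 1, 0, 0] + x 2 • ![0, 0, 1, 0] + x 3 • ![0, 0, 0, 1] := by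
    ext i; fin_cases i <;> simp
  conv_lhs => rw [hx]
  simp only [map_add, map_smul]

/-- vectors with a centraliser of dimension at least `3` -/
private theorem eh0_cent (v x y : VV p) (comb : ∀ r s t : ZMod p, r • v + s • x + t • y = 0 → r = 0 ∧ s = 0 ∧ t = 0)
    (hx : netH v x = 0) (hy : netH v y = 0) :
    v 0 = 0 ∧ v 2 = 0 ∧ ((v 1 = 0 ∧ v 3 ≠ 0) ∨ (v 3 = 0 ∧ v 1 ≠ 0)) := by
  have x0 : v 0 * x 1 - v 1 * x 0 = 0 := congrFun hx 0
  have x1 : v 2 * x 3 - v 3 * x 2 = 0 := congrFun hx 1
  have x2 : v 0 * x 2 - v 2 * x 0 = 0 := congrFun hx 2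
  have y0 : v 0 * y 1 - v 1 * y 0 = 0 := congrFun hy 0
  have y1 : v 2 * y 3 - v 3 * y 2 = 0 := congrFun hy 1
  have y2 : v 0 * y 2 - v 2 * y 0 = 0 := congrFun hy 2
  have h0 : v 0 = 0 := by
    by_contra hne
    have k1 := comb (- (v 0 * y 3 - y 0 * v 3) * x 0 + (v 0 * x 3 - x 0 * v 3) * y 0)
      ((v 0 * y 3 - y 0 * v 3) * v 0) (- (v 0 * x 3 - x 0 * v 3) * v 0) (by
        ext i; fin_cases i
        · simp; ring
        · simp; linear_combination (v 0 * y 3 - y 0 * v 3) * x0 - (v 0 * x 3 - x 0 * v 3) * y0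
        · simp; linear_combination (v 0 * y 3 - y 0 * v 3) * x2 - (v 0 * x 3 - x 0 * v 3) * y2
        · simp; ring)
    have d3 : v 0 * x 3 - x 0 * v 3 = 0 := by
      have := k1.2.2
      rcases mul_eq_zero.1 this with h | h
      · linear_combination - h
      · exact absurd h hne
    have k2 := comb (- x 0) (v 0) 0 (by
        ext i; fin_cases i
        · simp; ring
        · simp; linear_combination x0
        · simp; linear_combination x2
        · simp; linear_combination d3)
    exact hne k2.2.1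
  rw [h0] at x0 x2 y0 y2
  simp only [zero_mul, zero_sub, neg_eq_zero] at x0 x2 y0 y2
  have h2 : v 2 = 0 := by
    by_contra hne
    have x00 : x 0 = 0 := (mul_eq_zero.1 x2).resolve_left hne
    have y00 : y 0 = 0 := (mul_eq_zero.1 y2).resolve_left hne
    have k1 := comb (- (v 2 * y 1 - y 2 * v 1) * x 2 + (v 2 * x 1 - x 2 * v 1) * y 2)
      ((v 2 * y 1 - y 2 * v 1) * v 2) (- (v 2 * x 1 - x 2 * v 1) * v 2) (by
        ext i; fin_cases i
        · simp [h0, x00, y00]
        · simp; ring
        · simp; ring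
        · simp; linear_combination (v 2 * y 1 - y 2 * v 1) * x1 - (v 2 * x 1 - x 2 * v 1) * y1)
    have d3 : v 2 * x 1 - x 2 * v 1 = 0 := by
      have := k1.2.2
      rcases mul_eq_zero.1 this with h | h
      · linear_combination - h
      · exact absurd h hne
    have k2 := comb (- x 2) (v 2) 0 (by
        ext i; fin_cases i
        · simp [h0, x00]
        · simp; linear_combination d3
        · simp; ring
        · simp; linear_combination x1)
    exact hne k2.2.1
  refine ⟨h0, h2, ?_⟩
  rw [h2] at x1 y1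
  simp only [zero_mul, zero_sub, neg_eq_zero] at x1 y1
  by_cases h1 : v 1 = 0
  · left
    refine ⟨h1, fun h3 => ?_⟩
    have := comb 1 0 0 (by
      ext i; fin_cases i
      · simp [h0]
      · simp [h1]
      · simp [h2]
      · simp [h3])
    exact one_ne_zero this.1
  · right
    refine ⟨?_, h1⟩
    by_contra h3
    have x00 : x 0 = 0 := (mul_eq_zero.1 x0).resolve_left h1
    have y00 : y 0 = 0 := (mul_eq_zero.1 y0).resolve_left h1
    have x20 : x 2 = 0 := (mul_eq_zero.1 x1).resolve_left h3
    have y20 : y 2 = 0 := (mul_eq_zero.1 y1).resolve_left h3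
    have k1 := comb (x 1 * y 3 - x 3 * y 1) (- (v 1 * y 3 - v 3 * y 1)) (v 1 * x 3 - v 3 * x 1) (by
      ext i; fin_cases i
      · simp [h0, x00, y00]
      · simp; ring
      · simp [h2, x20, y20]
      · simp; ring)
    have k2 := comb (- x 1) (v 1) 0 (by
      ext i; fin_cases i
      · simp [h0, x00]
      · simp; ring
      · simp [h2, x20]
      · simp; linear_combination k1.2.2)
    exact h1 k2.2.1

/-- triangular maps of `W` -/
private theorem eh0_W (s t a b c d e : ZMod p) (hs : s ≠ 0) (ht : t ≠ 0) (hc : c ≠ 0) :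
    ∃ h : WW p ≃ₗ[ZMod p] WW p, ∀ w, h w = ![s * w 0 + a * w 2 + (d - d) * w 1, t * w 1 + b * w 2 + (e - e) * w 0, c * w 2] := by
  let k : WW p →ₗ[ZMod p] WW p :=
    { toFun := fun w => ![s * w 0 + a * w 2 + (d - d) * w 1, t * w 1 + b * w 2 + (e - e) * w 0, c * w 2]
      map_add' := by intro x y; ext i; fin_cases i <;> simp <;> ring
      map_smul' := by intro c x; ext i; fin_cases i <;> simp <;> ring }
  have hk : ∀ w, k w = ![s * w 0 + a * w 2 + (d - d) * w 1, t * w 1 + b * w 2 + (e - e) * w 0, c * w 2] := fun _ => rfl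
  have ki : Function.Injective k := by
    rw [← LinearMap.ker_eq_bot, LinearMap.ker_eq_bot']
    intro w hw
    rw [hk] at hw
    have q0 : s * w 0 + a * w 2 + (d - d) * w 1 = 0 := congrFun hw 0
    have q1 : t * w 1 + b * w 2 + (e - e) * w 0 = 0 := congrFun hw 1
    have q2 : c * w 2 = 0 := congrFun hw 2
    have r2 : w 2 = 0 := (mul_eq_zero.mp q2).resolve_left hc
    rw [r2] at q0 q1
    have r0 : w 0 = 0 := (mul_eq_zero.mp (show s * w 0 = 0 by linear_combination q0)).resolve_left hs
    have r1 : w 1 = 0 := (mul_eq_zero.mp (show t * w 1 = 0 by linear_combination q1)).resolve_left ht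
    ext i
    fin_cases i
    · exact r0
    · exact r1
    · exact r2
  exact ⟨LinearEquiv.ofInjectiveEndo k ki, fun w => by rw [LinearEquiv.coe_ofInjectiveEndo, hk]⟩

/-- triangular maps of `W` composed with the exchange -/
private theorem eh0_W' (s t a b c : ZMod p) (hs : s ≠ 0) (ht : t ≠ 0) (hc : c ≠ 0) :
    ∃ h : WW p ≃ₗ[ZMod p] WW p, ∀ w, h w = ![t * w 1 + b * w 2, s * w 0 + a * w 2, c * w 2] := by
  let k : WW p →ₗ[ZMod p] WW p :=
    { toFun := fun w => ![t * w 1 + b * w 2, s * w 0 + a * w 2, c * w 2]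
      map_add' := by intro x y; ext i; fin_cases i <;> simp <;> ring
      map_smul' := by intro c x; ext i; fin_cases i <;> simp <;> ring }
  have hk : ∀ w, k w = ![t * w 1 + b * w 2, s * w 0 + a * w 2, c * w 2] := fun _ => rfl
  have ki : Function.Injective k := by
    rw [← LinearMap.ker_eq_bot, LinearMap.ker_eq_bot']
    intro w hw
    rw [hk] at hw
    have q1 : t * w 1 + b * w 2 = 0 := congrFun hw 0
    have q0 : s * w 0 + a * w 2 = 0 := congrFun hw 1
    have q2 : c * w 2 = 0 := congrFun hw 2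
    have r2 : w 2 = 0 := (mul_eq_zero.mp q2).resolve_left hc
    rw [r2] at q0 q1
    have r0 : w 0 = 0 := (mul_eq_zero.mp (show s * w 0 = 0 by linear_combination q0)).resolve_left hs
    have r1 : w 1 = 0 := (mul_eq_zero.mp (show t * w 1 = 0 by linear_combination q1)).resolve_left ht
    ext i
    fin_cases i
    · exact r0
    · exact r1
    · exact r2
  exact ⟨LinearEquiv.ofInjectiveEndo k ki, fun w => by rw [LinearEquiv.coe_ofInjectiveEndo, hk]⟩

/-- [M7 EH0] Stabiliser of `netH`: diagonal `a1, c1, a2, c2` with lower terms `r`, possibly composed with the exchange `x 0 ↔ x 2, x 1 ↔ x 3`. PROOF (←): `x0∧x1 ↦ a1 c1 x0∧x1 + a1 r12 x0∧x2`, `x2∧x3 ↦ a2 c2 x2∧x3 - a2 r21 x0∧x2`, `x0∧x2 ↦ a1 a2 x0∧x2`; exchange: `w 0 ↔ w 1`, `w 2 ↦ -w 2`.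
(→) the vectors with a centraliser of dimension `≥ 3` are the multiples of `e1` and `e3` (`eh0_cent`). -/
theorem stab_netH (g : VV p ≃ₗ[ZMod p] VV p) :
    (∃ h : WW p ≃ₗ[ZMod p] WW p, ∀ u v, h (netH u v) = netH (g u) (g v)) ↔
      ∃ a1 a2 c1 c2 r11 r12 r21 r22 : ZMod p, a1 ≠ 0 ∧ a2 ≠ 0 ∧ c1 ≠ 0 ∧ c2 ≠ 0 ∧
        ((∀ x, g x = ![a1 * x 0, c1 * x 1 + r11 * x 0 + r12 * x 2, a2 * x 2, c2 * x 3 + r21 * x 0 + r22 * x 2]) ∨
          (∀ x, g x = ![a2 * x 2, c2 * x 3 + r21 * x 0 + r22 * x 2, a1 * x 0, c1 * x 1 + r11 * x 0 + r12 * x 2])) := by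
  constructor
  · rintro ⟨h, hh⟩
    set g0 : VV p := g ![1, 0, 0, 0] with hg0
    set g1 : VV p := g ![0, 1, 0, 0] with hg1
    set g2 : VV p := g ![0, 0, 1, 0] with hg2
    set g3 : VV p := g ![0, 0, 0, 1] with hg3
    have inj : ∀ x : VV p, g x = 0 → x = 0 := fun x hx => by
      have := g.injective (a₁ := x) (a₂ := 0) (by rw [hx, map_zero])
      exact this
    have comb : ∀ r s t q : ZMod p, r • g0 + s • g1 + t • g2 + q • g3 = 0 → r = 0 ∧ s = 0 ∧ t = 0 ∧ q = 0 := by
      intro r s t q hq
      have h1 := eh0_expand g ![r, s, t, q]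
      simp only [Matrix.cons_val_zero, Matrix.cons_val_one, Matrix.cons_val] at h1
      rw [← hg0, ← hg1, ← hg2, ← hg3, hq] at h1
      have h2 := inj _ h1
      refine ⟨?_, ?_, ?_, ?_⟩
      · have := congrFun h2 0; simpa using this
      · have := congrFun h2 1; simpa using this
      · have := congrFun h2 2; simpa using this
      · have := congrFun h2 3; simpa using this
    have hz : ∀ u v : VV p, netH u v = 0 → netH (g u) (g v) = 0 := by
      intro u v huv
      rw [← hh, huv, map_zero]
    have e12 : netH g1 g2 = 0 := hz _ _ (by ext i; fin_cases i <;> simp)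
    have e13 : netH g1 g3 = 0 := hz _ _ (by ext i; fin_cases i <;> simp)
    have e30 : netH g3 g0 = 0 := hz _ _ (by ext i; fin_cases i <;> simp)
    have e31 : netH g3 g1 = 0 := hz _ _ (by ext i; fin_cases i <;> simp)
    obtain ⟨p0, p2, pc⟩ := eh0_cent g1 g2 g3 (fun r s t hr => by
      have := comb 0 r s t (by rw [zero_smul, zero_add]; exact hr)
      exact this.2) e12 e13
    obtain ⟨q0, q2, qc⟩ := eh0_cent g3 g0 g1 (fun r s t hr => by
      have := comb s t 0 r (by
        rw [zero_smul, add_zero, ← hr]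
        abel)
      exact ⟨this.2.2.2, this.1, this.2.1⟩) e30 e31
    have ex := eh0_expand g
    rw [← hg0, ← hg1, ← hg2, ← hg3] at ex
    rcases pc with ⟨p1, p3⟩ | ⟨p3, p1⟩
    · rcases qc with ⟨q1, q3⟩ | ⟨q3, q1⟩
      · exfalso
        have := comb 0 (g3 3) 0 (- g1 3) (by
          ext i; fin_cases i
          · simp [p0, q0]
          · simp [p1, q1]
          · simp [p2, q2]
          · simp; ring)
        exact q3 this.2.1
      · -- exchange
        have t2 : g2 2 = 0 := by
          have : g1 2 * g2 3 - g1 3 * g2 2 = 0 := congrFun e12 1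
          rw [p2, zero_mul, zero_sub, neg_eq_zero] at this
          exact (mul_eq_zero.1 this).resolve_left p3
        have t0 : g0 0 = 0 := by
          have : g3 0 * g0 1 - g3 1 * g0 0 = 0 := congrFun e30 0
          rw [q0, zero_mul, zero_sub, neg_eq_zero] at this
          exact (mul_eq_zero.1 this).resolve_left q1
        refine ⟨g0 2, g2 0, g1 3, g3 1, g0 3, g2 3, g0 1, g2 1, ?_, ?_, p3, q1, Or.inr ?_⟩
        · intro h0
          have := comb (g1 3 * g3 1) (- g3 1 * g0 3) 0 (- g1 3 * g0 1) (by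
            ext i; fin_cases i
            · simp [p0, q0, t0]
            · simp [p1]; ring
            · simp [p2, q2, h0]
            · simp [q3]; ring)
          exact mul_ne_zero p3 q1 this.1
        · intro h0
          have := comb 0 (- g3 1 * g2 3) (g1 3 * g3 1) (- g1 3 * g2 1) (by
            ext i; fin_cases i
            · simp [p0, q0, h0]
            · simp [p1]; ring
            · simp [p2, q2, t2]
            · simp [q3]; ring)
          exact mul_ne_zero p3 q1 this.2.2.1
        · intro x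
          rw [ex x]
          ext i; fin_cases i
          · simp [p0, q0, t0]; ring
          · simp [p1]; ring
          · simp [p2, q2, t2]; ring
          · simp [q3]; ring
    · rcases qc with ⟨q1, q3⟩ | ⟨q3, q1⟩
      · have t2 : g2 0 = 0 := by
          have : g1 0 * g2 1 - g1 1 * g2 0 = 0 := congrFun e12 0
          rw [p0, zero_mul, zero_sub, neg_eq_zero] at this
          exact (mul_eq_zero.1 this).resolve_left p1
        have t0 : g0 2 = 0 := by
          have : g3 2 * g0 3 - g3 3 * g0 2 = 0 := congrFun e30 1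
          rw [q2, zero_mul, zero_sub, neg_eq_zero] at this
          exact (mul_eq_zero.1 this).resolve_left q3
        refine ⟨g0 0, g2 2, g1 1, g3 3, g0 1, g2 1, g0 3, g2 3, ?_, ?_, p1, q3, Or.inl ?_⟩
        · intro h0
          have := comb (g1 1 * g3 3) (- g3 3 * g0 1) 0 (- g1 1 * g0 3) (by
            ext i; fin_cases i
            · simp [p0, q0, h0]
            · simp [q1]; ring
            · simp [p2, q2, t0]
            · simp [p3]; ring)
          exact mul_ne_zero p1 q3 this.1
        · intro h0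
          have := comb 0 (- g3 3 * g2 1) (g1 1 * g3 3) (- g1 1 * g2 3) (by
            ext i; fin_cases i
            · simp [p0, q0, t2]
            · simp [q1]; ring
            · simp [p2, q2, h0]
            · simp [p3]; ring)
          exact mul_ne_zero p1 q3 this.2.2.1
        · intro x
          rw [ex x]
          ext i; fin_cases i
          · simp [p0, q0, t2]; ring
          · simp [q1]; ring
          · simp [p2, q2, t0]; ring
          · simp [p3]; ring
      · exfalso
        have := comb 0 (g3 1) 0 (- g1 1) (by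
          ext i; fin_cases i
          · simp [p0, q0]
          · simp; ring
          · simp [p2, q2]
          · simp [p3, q3])
        exact q1 this.2.1
  · rintro ⟨a1, a2, c1, c2, r11, r12, r21, r22, ha1, ha2, hc1, hc2, hg | hg⟩
    · obtain ⟨h, hh⟩ := eh0_W (a1 * c1) (a2 * c2) (a1 * r12) (- (a2 * r21)) (a1 * a2) 0 0
        (mul_ne_zero ha1 hc1) (mul_ne_zero ha2 hc2) (mul_ne_zero ha1 ha2)
      refine ⟨h, fun u v => ?_⟩
      rw [hh, hg u, hg v]
      ext i
      fin_cases i
      · simp only [netH_apply, Fin.zero_eta, Matrix.cons_val_zero, Matrix.cons_val_one, Matrix.cons_val]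
        ring
      · simp only [netH_apply, Fin.mk_one, Matrix.cons_val_zero, Matrix.cons_val_one, Matrix.cons_val]
        ring
      · simp only [netH_apply, Fin.reduceFinMk, Matrix.cons_val_zero, Matrix.cons_val_one, Matrix.cons_val]
        ring
    · obtain ⟨h, hh⟩ := eh0_W' (a1 * c1) (a2 * c2) (a1 * r12) (- (a2 * r21)) (- (a1 * a2))
        (mul_ne_zero ha1 hc1) (mul_ne_zero ha2 hc2) (neg_ne_zero.2 (mul_ne_zero ha1 ha2))
      refine ⟨h, fun u v => ?_⟩
      rw [hh, hg u, hg v]
      ext i
      fin_cases i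
      · simp only [netH_apply, Fin.zero_eta, Matrix.cons_val_zero, Matrix.cons_val_one, Matrix.cons_val]
        ring
      · simp only [netH_apply, Fin.mk_one, Matrix.cons_val_zero, Matrix.cons_val_one, Matrix.cons_val]
        ring
      · simp only [netH_apply, Fin.reduceFinMk, Matrix.cons_val_zero, Matrix.cons_val_one, Matrix.cons_val]
        ring

end MP_02e52a.M7
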