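import Pool.Agent.Lib.MP_02e52a_al.M7.EH0

namespace MP_02e52a.M7

variable {p : ℕ} [Fact p.Prime]

open Matrix

private theorem EH1_gen (G : Matrix (Fin 4) (Fin 4) (ZMod p)) (H : Matrix (Fin 3) (Fin 3) (ZMod p))
    (hG : ∀ v, G *ᵥ v = 0 → v = 0) (hH : ∀ w, H *ᵥ w = 0 → w = 0)
    (hn : ∀ u v : VV p, H *ᵥ (netH u v) = netH (G *ᵥ u) (G *ᵥ v))
    (M M' : Matrix (Fin 3) (Fin 4) (ZMod p)) (hE : H * M = M' * G) :
    ∃ g h, (datH (mkπ M)).Trans (datH (mkπ M')) g h ∧ ∀ v, g v = G *ᵥ v := by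
  refine ⟨LinearEquiv.ofInjectiveEndo G.mulVecLin ((injective_iff_map_eq_zero _).2 hG),
    LinearEquiv.ofInjectiveEndo H.mulVecLin ((injective_iff_map_eq_zero _).2 hH),
    ⟨fun u v => hn u v, fun v => ?_⟩, fun v => rfl⟩
  change H *ᵥ (M *ᵥ v) = M' *ᵥ (G *ᵥ v)
  rw [Matrix.mulVec_mulVec, Matrix.mulVec_mulVec, hE]

private def EH1_G (a1 a2 c1 c2 r11 r12 r21 r22 : ZMod p) : Matrix (Fin 4) (Fin 4) (ZMod p) :=
  !![a1, 0, 0, 0; r11, c1, r12, 0; 0, 0, a2, 0; r21, 0, r22, c2]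

private def EH1_H (a1 a2 c1 c2 r12 r21 : ZMod p) : Matrix (Fin 3) (Fin 3) (ZMod p) :=
  !![a1 * c1, 0, a1 * r12; 0, a2 * c2, -(a2 * r21); 0, 0, a1 * a2]

private theorem EH1_G_apply (a1 a2 c1 c2 r11 r12 r21 r22 : ZMod p) (v : VV p) :
    EH1_G a1 a2 c1 c2 r11 r12 r21 r22 *ᵥ v =
      ![a1 * v 0, r11 * v 0 + c1 * v 1 + r12 * v 2, a2 * v 2, r21 * v 0 + r22 * v 2 + c2 * v 3] := by
  ext i
  fin_cases i <;> simp [EH1_G, Matrix.mulVec, dotProduct, Fin.sum_univ_four]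

private theorem EH1_H_apply (a1 a2 c1 c2 r12 r21 : ZMod p) (w : WW p) :
    EH1_H a1 a2 c1 c2 r12 r21 *ᵥ w =
      ![a1 * c1 * w 0 + a1 * r12 * w 2, a2 * c2 * w 1 - a2 * r21 * w 2, a1 * a2 * w 2] := by
  ext i
  fin_cases i <;> simp [EH1_H, Matrix.mulVec, dotProduct, Fin.sum_univ_three]
  ring

private theorem EH1_tr {a1 a2 c1 c2 : ZMod p} (r11 r12 r21 r22 : ZMod p) (ha1 : a1 ≠ 0)
    (ha2 : a2 ≠ 0) (hc1 : c1 ≠ 0) (hc2 : c2 ≠ 0) (M M' : Matrix (Fin 3) (Fin 4) (ZMod p))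
    (hE : EH1_H a1 a2 c1 c2 r12 r21 * M = M' * EH1_G a1 a2 c1 c2 r11 r12 r21 r22) :
    ∃ g h, (datH (mkπ M)).Trans (datH (mkπ M')) g h ∧
      ∀ v, g v = EH1_G a1 a2 c1 c2 r11 r12 r21 r22 *ᵥ v := by
  refine EH1_gen _ _ (fun v hv => ?_) (fun w hw => ?_) (fun u v => ?_) M M' hE
  · rw [EH1_G_apply] at hv
    have h0 : a1 * v 0 = 0 := congrFun hv 0
    have h2 : a2 * v 2 = 0 := congrFun hv 2
    have h1 : r11 * v 0 + c1 * v 1 + r12 * v 2 = 0 := congrFun hv 1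
    have h3 : r21 * v 0 + r22 * v 2 + c2 * v 3 = 0 := congrFun hv 3
    have e0 : v 0 = 0 := (mul_eq_zero.1 h0).resolve_left ha1
    have e2 : v 2 = 0 := (mul_eq_zero.1 h2).resolve_left ha2
    rw [e0, e2, mul_zero, mul_zero, zero_add, add_zero] at h1
    rw [e0, e2, mul_zero, mul_zero, zero_add, zero_add] at h3
    have e1 : v 1 = 0 := (mul_eq_zero.1 h1).resolve_left hc1
    have e3 : v 3 = 0 := (mul_eq_zero.1 h3).resolve_left hc2
    ext i
    fin_cases i <;> assumption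
  · rw [EH1_H_apply] at hw
    have h0 : a1 * c1 * w 0 + a1 * r12 * w 2 = 0 := congrFun hw 0
    have h1 : a2 * c2 * w 1 - a2 * r21 * w 2 = 0 := congrFun hw 1
    have h2 : a1 * a2 * w 2 = 0 := congrFun hw 2
    have e2 : w 2 = 0 := (mul_eq_zero.1 h2).resolve_left (mul_ne_zero ha1 ha2)
    rw [e2, mul_zero, add_zero] at h0
    rw [e2, mul_zero, sub_zero] at h1
    have e0 : w 0 = 0 := (mul_eq_zero.1 h0).resolve_left (mul_ne_zero ha1 hc1)
    have e1 : w 1 = 0 := (mul_eq_zero.1 h1).resolve_left (mul_ne_zero ha2 hc2)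
    ext i
    fin_cases i <;> assumption
  · rw [EH1_H_apply, EH1_G_apply, EH1_G_apply, netH_apply, netH_apply]
    ext i
    fin_cases i <;> simp <;> ring1

private theorem EH1_exch (A11 B11 A12 B12 A21 B21 A22 B22 C1 D1 C2 D2 : ZMod p) :
    (datH (mkπ !![A11, B11, A12, B12; A21, B21, A22, B22; C1, D1, C2, D2])).Eqv
      (datH (mkπ !![A22, B22, A21, B21; A12, B12, A11, B11; -C2, -D2, -C1, -D1])) := by
  obtain ⟨g, h, hT, -⟩ := EH1_gen (p := p) !![0, 0, 1, 0; 0, 0, 0, 1; 1, 0, 0, 0; 0, 1, 0, 0]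
    !![0, 1, 0; 1, 0, 0; 0, 0, -1]
    (fun v hv => by
      have h0 := congrFun hv 0
      have h1 := congrFun hv 1
      have h2 := congrFun hv 2
      have h3 := congrFun hv 3
      simp [Matrix.mulVec, dotProduct, Fin.sum_univ_four] at h0 h1 h2 h3
      ext i
      fin_cases i <;> assumption)
    (fun w hw => by
      have h0 := congrFun hw 0
      have h1 := congrFun hw 1
      have h2 := congrFun hw 2
      simp [Matrix.mulVec, dotProduct, Fin.sum_univ_three] at h0 h1 h2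
      ext i
      fin_cases i <;> assumption)
    (fun u v => by
      rw [netH_apply, netH_apply]
      ext i
      fin_cases i <;>
        simp [Matrix.mulVec, dotProduct, Fin.sum_univ_three, Fin.sum_univ_four])
    !![A11, B11, A12, B12; A21, B21, A22, B22; C1, D1, C2, D2]
    !![A22, B22, A21, B21; A12, B12, A11, B11; -C2, -D2, -C1, -D1]
    (by
      ext i j
      fin_cases i <;> fin_cases j <;>
        simp [Matrix.mul_apply, Fin.sum_univ_three, Fin.sum_univ_four])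
  exact ⟨g, h, hT⟩

private theorem EH1_free {d d' : Dat p} (e : d.Eqv d') (hf : d.Free) : d'.Free := by
  obtain ⟨g, h, h1, h2⟩ := e
  rintro g' h' ⟨h3, h4⟩ v
  have h5 := hf (g.trans (g'.trans g.symm)) (h.trans (h'.trans h.symm)) ⟨fun u v => by
      simp only [LinearEquiv.trans_apply]
      rw [LinearEquiv.symm_apply_eq, h1, h1, h3, LinearEquiv.apply_symm_apply,
        LinearEquiv.apply_symm_apply], fun v => by
      simp only [LinearEquiv.trans_apply]
      rw [LinearEquiv.symm_apply_eq, h2, h2, h4, LinearEquiv.apply_symm_apply]⟩ (g.symm v)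
  simp only [LinearEquiv.trans_apply, LinearEquiv.apply_symm_apply] at h5
  exact g.symm.injective h5

private theorem EH1_trans {d d' d'' : Dat p} (e : d.Eqv d') (e' : d'.Eqv d'') : d.Eqv d'' := by
  obtain ⟨g, h, h1, h2⟩ := e
  obtain ⟨g', h', h1', h2'⟩ := e'
  refine ⟨g.trans g', h.trans h', fun u v => ?_, fun v => ?_⟩
  · simp only [LinearEquiv.trans_apply]
    rw [h1, h1']
  · simp only [LinearEquiv.trans_apply]
    rw [h2, h2']

private theorem EH1_two (hp : p ≠ 2) : (2 : ZMod p) ≠ 0 := by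
  intro h
  have h1 : ((2 : ℕ) : ZMod p) = 0 := by exact_mod_cast h
  rw [ZMod.natCast_eq_zero_iff] at h1
  exact hp ((Nat.prime_dvd_prime_iff_eq Fact.out Nat.prime_two).1 h1)

/-- case `D = 0` -/
private theorem EH1_c0 (hp : p ≠ 2) (A11 B11 A12 B12 A21 B21 A22 B22 C1 C2 : ZMod p) :
    ¬ (datH (mkπ !![A11, B11, A12, B12; A21, B21, A22, B22; C1, 0, C2, 0])).Free := by
  intro hf
  set T : (Fin 4 → ZMod p) →ₗ[ZMod p] (Fin 4 → ZMod p) :=
    (!![B11, -C1, B12, 0; 0, B11 - C2, 0, B12; B21, 0, B22 + C1, 0; 0, B21, C2, B22] :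
      Matrix (Fin 4) (Fin 4) (ZMod p)).mulVecLin with hT
  have hTa : ∀ r, T r = ![B11 * r 0 + -(C1 * r 1) + B12 * r 2, (B11 - C2) * r 1 + B12 * r 3,
      B21 * r 0 + (B22 + C1) * r 2, B21 * r 1 + C2 * r 2 + B22 * r 3] := by
    intro r
    ext i
    fin_cases i <;> simp [hT, Matrix.mulVec, dotProduct, Fin.sum_univ_four]
  by_cases hinj : Function.Injective T
  · obtain ⟨r, hr⟩ := (LinearMap.injective_iff_surjective.1 hinj)
      ![-(2 * A11), -(2 * A12), -(2 * A21), -(2 * A22)]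
    rw [hTa] at hr
    have e0 : B11 * r 0 + -(C1 * r 1) + B12 * r 2 = -(2 * A11) := congrFun hr 0
    have e1 : (B11 - C2) * r 1 + B12 * r 3 = -(2 * A12) := congrFun hr 1
    have e2 : B21 * r 0 + (B22 + C1) * r 2 = -(2 * A21) := congrFun hr 2
    have e3 : B21 * r 1 + C2 * r 2 + B22 * r 3 = -(2 * A22) := congrFun hr 3
    obtain ⟨g, h, hTr, hg⟩ := EH1_tr (a1 := 1) (a2 := 1) (c1 := -1) (c2 := -1) (r 0) (r 1) (r 2)
      (r 3) one_ne_zero one_ne_zero (neg_ne_zero.2 one_ne_zero) (neg_ne_zero.2 one_ne_zero)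
      !![A11, B11, A12, B12; A21, B21, A22, B22; C1, 0, C2, 0]
      !![A11, B11, A12, B12; A21, B21, A22, B22; C1, 0, C2, 0]
      (by
        ext i j
        fin_cases i <;> fin_cases j <;>
          simp [EH1_H, EH1_G, Matrix.mul_apply, Fin.sum_univ_three, Fin.sum_univ_four]
        · linear_combination -e0
        · linear_combination -e1
        · linear_combination -e2
        · linear_combination -e3)
    have h1 := congrFun (hf g h hTr ![0, 1, 0, 0]) 1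
    rw [hg, EH1_G_apply] at h1
    simp at h1
    exact EH1_two hp (by linear_combination -h1)
  · rw [injective_iff_map_eq_zero] at hinj
    push Not at hinj
    obtain ⟨r, hr, hr0⟩ := hinj
    rw [hTa] at hr
    have e0 : B11 * r 0 + -(C1 * r 1) + B12 * r 2 = 0 := congrFun hr 0
    have e1 : (B11 - C2) * r 1 + B12 * r 3 = 0 := congrFun hr 1
    have e2 : B21 * r 0 + (B22 + C1) * r 2 = 0 := congrFun hr 2
    have e3 : B21 * r 1 + C2 * r 2 + B22 * r 3 = 0 := congrFun hr 3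
    obtain ⟨g, h, hTr, hg⟩ := EH1_tr (a1 := 1) (a2 := 1) (c1 := 1) (c2 := 1) (r 0) (r 1) (r 2)
      (r 3) one_ne_zero one_ne_zero one_ne_zero one_ne_zero
      !![A11, B11, A12, B12; A21, B21, A22, B22; C1, 0, C2, 0]
      !![A11, B11, A12, B12; A21, B21, A22, B22; C1, 0, C2, 0]
      (by
        ext i j
        fin_cases i <;> fin_cases j <;>
          simp [EH1_H, EH1_G, Matrix.mul_apply, Fin.sum_univ_three, Fin.sum_univ_four]
        · linear_combination -e0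
        · linear_combination -e1
        · linear_combination -e2
        · linear_combination -e3)
    have h0 := hf g h hTr ![1, 0, 0, 0]
    have h2 := hf g h hTr ![0, 0, 1, 0]
    rw [hg, EH1_G_apply] at h0 h2
    have f0 := congrFun h0 1
    have f1 := congrFun h2 1
    have f2 := congrFun h0 3
    have f3 := congrFun h2 3
    simp at f0 f1 f2 f3
    apply hr0
    ext i
    fin_cases i <;> assumption

/-- normalisation for `D1 D2 ≠ 0` -/
private theorem EH1_n2 (A11 B11 A12 B12 A21 B21 A22 B22 C1 D1 C2 D2 : ZMod p) (h1 : D1 ≠ 0)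
    (h2 : D2 ≠ 0) : ∃ a s b c d u : ZMod p,
    (datH (mkπ !![A11, B11, A12, B12; A21, B21, A22, B22; C1, D1, C2, D2])).Eqv
      (datH (mkπ !![a, s, b, 0; c, 0, d, u; 0, 1, 0, 1])) := by
  obtain ⟨r12, hr12⟩ : ∃ r12 : ZMod p, r12 * D2 = -(D1 * B12) :=
    ⟨-(D1 * B12) * D2⁻¹, by rw [mul_assoc, inv_mul_cancel₀ h2, mul_one]⟩
  obtain ⟨r21, hr21⟩ : ∃ r21 : ZMod p, r21 * D1 = D2 * B21 :=
    ⟨D2 * B21 * D1⁻¹, by rw [mul_assoc, inv_mul_cancel₀ h1, mul_one]⟩
  obtain ⟨g, h, hT, -⟩ := EH1_tr (a1 := 1) (a2 := 1) (c1 := D1) (c2 := D2) (C1 - r21) r12 r21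
    (C2 - r12) one_ne_zero one_ne_zero h1 h2
    !![A11, B11, A12, B12; A21, B21, A22, B22; C1, D1, C2, D2]
    !![D1 * A11 + r12 * C1 - (B11 + r12) * (C1 - r21), B11 + r12,
      D1 * A12 + r12 * C2 - (B11 + r12) * r12, 0;
      D2 * A21 - r21 * C1 - (B22 - r21) * r21, 0,
      D2 * A22 - r21 * C2 - (B22 - r21) * (C2 - r12), B22 - r21; 0, 1, 0, 1]
    (by
      ext i j
      fin_cases i <;> fin_cases j <;>
        simp [EH1_H, EH1_G, Matrix.mul_apply, Fin.sum_univ_three, Fin.sum_univ_four] <;>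
        first
          | ring1
          | linear_combination hr12
          | linear_combination -hr12
          | linear_combination hr21
          | linear_combination -hr21)
  exact ⟨_, _, _, _, _, _, g, h, hT⟩

/-- scaling for `D1 D2 ≠ 0` -/
private theorem EH1_sc (a s b c d u : ZMod p) {a1 a2 D1 D2 : ZMod p} (ha1 : a1 ≠ 0) (ha2 : a2 ≠ 0)
    (h1 : D1 ≠ 0) (h2 : D2 ≠ 0) :
    (datH (mkπ !![a, s, b, 0; c, 0, d, u; 0, D1, 0, D2])).Eqv
      (datH (mkπ !![a1 * a2 * D1 * a, a1 * s, a1 ^ 2 * D1 * b, 0;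
        a2 ^ 2 * D2 * c, 0, a1 * a2 * D2 * d, a2 * u; 0, 1, 0, 1])) := by
  obtain ⟨g, h, hT, -⟩ := EH1_tr (a1 := a1) (a2 := a2) (c1 := a1 * a2 * D1) (c2 := a1 * a2 * D2)
    0 0 0 0 ha1 ha2 (mul_ne_zero (mul_ne_zero ha1 ha2) h1) (mul_ne_zero (mul_ne_zero ha1 ha2) h2)
    !![a, s, b, 0; c, 0, d, u; 0, D1, 0, D2]
    !![a1 * a2 * D1 * a, a1 * s, a1 ^ 2 * D1 * b, 0;
        a2 ^ 2 * D2 * c, 0, a1 * a2 * D2 * d, a2 * u; 0, 1, 0, 1]
    (by
      ext i j
      fin_cases i <;> fin_cases j <;>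
        simp [EH1_H, EH1_G, Matrix.mul_apply, Fin.sum_univ_three, Fin.sum_univ_four] <;> ring)
  exact ⟨g, h, hT⟩

/-- both diagonal entries are zero -/
private theorem EH1_c2 (hp : p ≠ 2) (a b c d : ZMod p) :
    ¬ (datH (mkπ !![a, 0, b, 0; c, 0, d, 0; 0, 1, 0, 1])).Free := by
  intro hf
  obtain ⟨g, h, hTr, hg⟩ := EH1_tr (a1 := -1) (a2 := -1) (c1 := 1) (c2 := 1) 0 0 0 0
    (neg_ne_zero.2 one_ne_zero) (neg_ne_zero.2 one_ne_zero) one_ne_zero one_ne_zero
    !![a, 0, b, 0; c, 0, d, 0; 0, 1, 0, 1] !![a, 0, b, 0; c, 0, d, 0; 0, 1, 0, 1]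
    (by
      ext i j
      fin_cases i <;> fin_cases j <;>
        simp [EH1_H, EH1_G, Matrix.mul_apply, Fin.sum_univ_three, Fin.sum_univ_four])
  have h1 := congrFun (hf g h hTr ![1, 0, 0, 0]) 0
  rw [hg, EH1_G_apply] at h1
  simp at h1
  exact EH1_two hp (by linear_combination -h1)

/-- normalisation for `D1 ≠ 0`, `D2 = 0` -/
private theorem EH1_n3 (A11 B11 A12 B12 A21 B21 A22 B22 C1 D1 C2 : ZMod p) (h1 : D1 ≠ 0) :
    ∃ a b c d s t u : ZMod p,
    (datH (mkπ !![A11, B11, A12, B12; A21, B21, A22, B22; C1, D1, C2, 0])).Eqv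
      (datH (piH3 a b c d s t u)) := by
  obtain ⟨r21, hr21⟩ : ∃ r21 : ZMod p, r21 * D1 = B21 :=
    ⟨B21 * D1⁻¹, by rw [mul_assoc, inv_mul_cancel₀ h1, mul_one]⟩
  obtain ⟨g, h, hT, -⟩ := EH1_tr (a1 := 1) (a2 := 1) (c1 := D1) (c2 := 1) C1 C2 r21 0
    one_ne_zero one_ne_zero h1 one_ne_zero
    !![A11, B11, A12, B12; A21, B21, A22, B22; C1, D1, C2, 0]
    !![D1 * A11 + C2 * C1 - (B11 + C2) * C1 - D1 * B12 * r21, B11 + C2,
      D1 * A12 + C2 * C2 - (B11 + C2) * C2, D1 * B12;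
      A21 - r21 * C1 - B22 * r21, 0, A22 - r21 * C2, B22; 0, 1, 0, 0]
    (by
      ext i j
      fin_cases i <;> fin_cases j <;>
        simp [EH1_H, EH1_G, Matrix.mul_apply, Fin.sum_univ_three, Fin.sum_univ_four] <;>
        first
          | ring1
          | linear_combination hr21
          | linear_combination -hr21)
  exact ⟨_, _, _, _, _, _, _, g, h, hT⟩

/-- `t = u = 0` -/
private theorem EH1_c3 (a b c d s : ZMod p) : ¬ (datH (piH3 a b c d s 0 0)).Free := by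
  intro hf
  obtain ⟨g, h, hTr, hg⟩ := EH1_tr (a1 := 1) (a2 := 1) (c1 := 1) (c2 := 1) 0 0 0 1
    one_ne_zero one_ne_zero one_ne_zero one_ne_zero
    !![a, s, b, 0; c, 0, d, 0; 0, 1, 0, (0 : ZMod p)] !![a, s, b, 0; c, 0, d, 0; 0, 1, 0, 0]
    (by
      ext i j
      fin_cases i <;> fin_cases j <;>
        simp [EH1_H, EH1_G, Matrix.mul_apply, Fin.sum_univ_three, Fin.sum_univ_four])
  have h1 := congrFun (hf g h hTr ![0, 0, 1, 0]) 3
  rw [hg, EH1_G_apply] at h1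
  simp at h1

private theorem EH1_three (A11 B11 A12 B12 A21 B21 A22 B22 C1 D1 C2 : ZMod p) (h1 : D1 ≠ 0)
    (hf : (datH (mkπ !![A11, B11, A12, B12; A21, B21, A22, B22; C1, D1, C2, 0])).Free) :
    ∃ a b c d s t u : ZMod p, (t ≠ 0 ∨ u ≠ 0) ∧
    (datH (mkπ !![A11, B11, A12, B12; A21, B21, A22, B22; C1, D1, C2, 0])).Eqv
      (datH (piH3 a b c d s t u)) := by
  obtain ⟨a, b, c, d, s, t, u, he⟩ := EH1_n3 A11 B11 A12 B12 A21 B21 A22 B22 C1 D1 C2 h1
  refine ⟨a, b, c, d, s, t, u, ?_, he⟩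
  by_contra hcon
  push Not at hcon
  obtain ⟨rfl, rfl⟩ := hcon
  exact EH1_c3 a b c d s (EH1_free he hf)

private theorem EH1_main (hp : p ≠ 2) (A11 B11 A12 B12 A21 B21 A22 B22 C1 D1 C2 D2 : ZMod p)
    (hf : (datH (mkπ !![A11, B11, A12, B12; A21, B21, A22, B22; C1, D1, C2, D2])).Free) :
    (∃ a b c d, (datH (mkπ !![A11, B11, A12, B12; A21, B21, A22, B22; C1, D1, C2, D2])).Eqv
      (datH (piH1 a b c d))) ∨
    (∃ a b c d, (datH (mkπ !![A11, B11, A12, B12; A21, B21, A22, B22; C1, D1, C2, D2])).Eqv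
      (datH (piH2 a b c d))) ∨
      ∃ a b c d s t u, (t ≠ 0 ∨ u ≠ 0) ∧
        (datH (mkπ !![A11, B11, A12, B12; A21, B21, A22, B22; C1, D1, C2, D2])).Eqv
          (datH (piH3 a b c d s t u)) := by
  by_cases h1 : D1 = 0
  · by_cases h2 : D2 = 0
    · subst h1 h2
      exact absurd hf (EH1_c0 hp A11 B11 A12 B12 A21 B21 A22 B22 C1 C2)
    · subst h1
      right
      right
      have he := EH1_exch A11 B11 A12 B12 A21 B21 A22 B22 C1 0 C2 D2
      rw [neg_zero] at he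
      obtain ⟨a, b, c, d, s, t, u, htu, he'⟩ :=
        EH1_three A22 B22 A21 B21 A12 B12 A11 B11 (-C2) (-D2) (-C1) (neg_ne_zero.2 h2)
          (EH1_free he hf)
      exact ⟨a, b, c, d, s, t, u, htu, EH1_trans he he'⟩
  · by_cases h2 : D2 = 0
    · subst h2
      right
      right
      exact EH1_three A11 B11 A12 B12 A21 B21 A22 B22 C1 D1 C2 h1 hf
    · obtain ⟨a, s, b, c, d, u, he⟩ := EH1_n2 A11 B11 A12 B12 A21 B21 A22 B22 C1 D1 C2 D2 h1 h2
      by_cases hs : s = 0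
      · by_cases hu : u = 0
        · subst hs hu
          exact absurd (EH1_free he hf) (EH1_c2 hp a b c d)
        · subst hs
          right
          left
          have he' := EH1_sc a 0 b c d u (a1 := 1) (a2 := u⁻¹) (D1 := 1) (D2 := 1) one_ne_zero
            (inv_ne_zero hu) one_ne_zero one_ne_zero
          rw [mul_zero, inv_mul_cancel₀ hu] at he'
          exact ⟨_, _, _, _, EH1_trans he he'⟩
      · by_cases hu : u = 0
        · subst hu
          right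
          left
          have he1 := EH1_exch a s b 0 c 0 d 0 0 1 0 1
          have he' := EH1_sc d 0 c b a s (a1 := 1) (a2 := s⁻¹) (D1 := -1) (D2 := -1) one_ne_zero
            (inv_ne_zero hs) (neg_ne_zero.2 one_ne_zero) (neg_ne_zero.2 one_ne_zero)
          rw [neg_zero] at he1
          rw [mul_zero, inv_mul_cancel₀ hs] at he'
          exact ⟨_, _, _, _, EH1_trans he (EH1_trans he1 he')⟩
        · left
          have he' := EH1_sc a s b c d u (a1 := s⁻¹) (a2 := u⁻¹) (D1 := 1) (D2 := 1)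
            (inv_ne_zero hs) (inv_ne_zero hu) one_ne_zero one_ne_zero
          rw [inv_mul_cancel₀ hs, inv_mul_cancel₀ hu] at he'
          exact ⟨_, _, _, _, EH1_trans he he'⟩

/-- [M7 EH1] Normal forms for the split type. PROOF. Write the rows of `π` as `w0 = A11 x0 + B11 x1 + A12 x2 + B12 x3`, `w1 = A21 x0 + B21 x1 + A22 x2 + B22 x3`, `w2 = C1 x0 + D1 x1 + C2 x2 + D2 x3`. For `g` as in `stab_netH` (no exchange), `h w = (a1 c1 w0 + a1 r12 w2, a2 c2 w1 - a2 r21 w2, a1 a2 w2)` and `π' g = h π` means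
`D_i' c_i = a1 a2 D_i`, `C_j' a_j + ∑ D_i' r_ij = a1 a2 C_j`, `B1j' c_j = a1 c1 B1j + a1 r12 D_j`, `B2j' c_j = a2 c2 B2j - a2 r21 D_j`, `A1j' a_j + ∑ B1i' r_ij = a1 c1 A1j + a1 r12 C_j`, `A2j' a_j + ∑ B2i' r_ij = a2 c2 A2j - a2 r21 C_j`.
* `D1 = D2 = 0`: not free. The linear map `r ↦ (∑ B1i r_ij - r12 C_j, ∑ B2i r_ij + r21 C_j)_j`, `F^4 → F^4`: if it is not injective a nonzero `r` (with `a = c = 1`) stabilises; otherwise choose `r` with value `-2 A`: `a = 1`, `c = -1` and this `r` stabilises.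
* `D1 D2 ≠ 0`: normalise `D = (1, 1)` (by `c`), `C = 0` (by `r`: `r1j + r2j = C_j`); then with `r2j = - r1j` normalise `B12 = 0` (by `r12`), `B21 = 0` (by `r11 = -r21`). If `B11 B22 ≠ 0` scale (`a1, a2`, `c1 = c2 = a1 a2`) to `B11 = B22 = 1`: family 1. If exactly one is zero, apply the exchange if necessary
  (the exchange followed by the same normalisations interchanges the roles) to get `B11 = 0`, and scale `B22 = 1`: family 2. If both are zero: `g x = ![-x 0, x 1, -x 2, x 3]` stabilises (`h w = (-w0, -w1, w2)`).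
* exactly one of `D1, D2` is zero: by the exchange `D2 = 0`, scale `D1 = 1`; `C = 0` by `r1j`; `B21 = 0` by `r21`: family 3 with `s = B11, t = B12, u = B22`. If `t = u = 0`, `g x = ![x 0, x 1, x 2, x 3 + x 2]` (`r22 = 1`) stabilises. -/
theorem split_normal (hp : p ≠ 2) (π : VV p →ₗ[ZMod p] WW p) (hf : (datH π).Free) :
    (∃ a b c d, (datH π).Eqv (datH (piH1 a b c d))) ∨ (∃ a b c d, (datH π).Eqv (datH (piH2 a b c d))) ∨
      ∃ a b c d s t u, (t ≠ 0 ∨ u ≠ 0) ∧ (datH π).Eqv (datH (piH3 a b c d s t u)) := by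
  obtain ⟨M, rfl⟩ : ∃ M : Matrix (Fin 3) (Fin 4) (ZMod p), π = mkπ M :=
    ⟨LinearMap.toMatrix' π, (Matrix.toLin'_toMatrix' π).symm⟩
  have hM : M = !![M 0 0, M 0 1, M 0 2, M 0 3; M 1 0, M 1 1, M 1 2, M 1 3;
      M 2 0, M 2 1, M 2 2, M 2 3] := by
    ext i j
    fin_cases i <;> fin_cases j <;> rfl
  rw [hM] at hf ⊢
  exact EH1_main hp _ _ _ _ _ _ _ _ _ _ _ _ hf

end MP_02e52a.M7
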