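import Pool.Agent.Lib.MP_02e52a_al.M7.EH0

namespace MP_02e52a.M7

variable {p : ℕ} [Fact p.Prime]

private theorem eh2_elim (g : VV p ≃ₗ[ZMod p] VV p) (h : WW p ≃ₗ[ZMod p] WW p)
    (hgh : ∀ u v, h (netH u v) = netH (g u) (g v)) :
    ∃ a1 a2 c1 c2 r11 r12 r21 r22 : ZMod p, a1 ≠ 0 ∧ a2 ≠ 0 ∧ c1 ≠ 0 ∧ c2 ≠ 0 ∧
      (((∀ x, g x = ![a1 * x 0, c1 * x 1 + r11 * x 0 + r12 * x 2, a2 * x 2,
            c2 * x 3 + r21 * x 0 + r22 * x 2]) ∧
          ∀ w, h w = ![a1 * c1 * w 0 + a1 * r12 * w 2, a2 * c2 * w 1 - a2 * r21 * w 2,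
            a1 * a2 * w 2]) ∨
        ((∀ x, g x = ![a2 * x 2, c2 * x 3 + r21 * x 0 + r22 * x 2, a1 * x 0,
            c1 * x 1 + r11 * x 0 + r12 * x 2]) ∧
          ∀ w, h w = ![a2 * c2 * w 1 - a2 * r21 * w 2, a1 * c1 * w 0 + a1 * r12 * w 2,
            -(a1 * a2 * w 2)])) := by
  have hdet : ∀ w, h w = netH (g ![1, 0, 0, 0]) (g ![0, w 0, w 2, 0]) +
      netH (g ![0, 0, 1, 0]) (g ![0, 0, 0, w 1]) := by
    intro w
    rw [← hgh, ← hgh, ← map_add]
    congr 1
    ext i
    fin_cases i <;> simp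
  obtain ⟨a1, a2, c1, c2, r11, r12, r21, r22, h1, h2, h3, h4, hg⟩ := (stab_netH g).1 ⟨h, hgh⟩
  refine ⟨a1, a2, c1, c2, r11, r12, r21, r22, h1, h2, h3, h4, ?_⟩
  rcases hg with hg | hg
  · left
    refine ⟨hg, fun w => ?_⟩
    rw [hdet, hg, hg, hg, hg]
    ext i
    fin_cases i
    · simp; ring
    · simp; ring
    · simp; ring
  · right
    refine ⟨hg, fun w => ?_⟩
    rw [hdet, hg, hg, hg, hg]
    ext i
    fin_cases i
    · simp; ring
    · simp; ring
    · simp; ring

private theorem piH1_apply (a b c d : ZMod p) (x : VV p) : piH1 a b c d x =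
    ![a * x 0 + x 1 + b * x 2, c * x 0 + d * x 2 + x 3, x 1 + x 3] := by
  ext i
  fin_cases i <;> simp [piH1, mkπ, Matrix.mulVec, dotProduct, Fin.sum_univ_four]

private theorem piH2_apply (a b c d : ZMod p) (x : VV p) : piH2 a b c d x =
    ![a * x 0 + b * x 2, c * x 0 + d * x 2 + x 3, x 1 + x 3] := by
  ext i
  fin_cases i <;> simp [piH2, mkπ, Matrix.mulVec, dotProduct, Fin.sum_univ_four]

/-- the exchange on `V` -/
private def exV : VV p →ₗ[ZMod p] VV p where
  toFun x := ![x 2, -x 3, x 0, -x 1]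
  map_add' x y := by ext i; fin_cases i <;> simp <;> ring
  map_smul' c x := by ext i; fin_cases i <;> simp

/-- the exchange on `W` -/
private def exW : WW p →ₗ[ZMod p] WW p where
  toFun w := ![-w 1, -w 0, -w 2]
  map_add' x y := by ext i; fin_cases i <;> simp <;> ring
  map_smul' c x := by ext i; fin_cases i <;> simp

private theorem exV_apply (x : VV p) : exV x = ![x 2, -x 3, x 0, -x 1] := rfl
private theorem exW_apply (w : WW p) : exW w = ![-w 1, -w 0, -w 2] := rfl

private theorem exV_exV (x : VV p) : exV (exV x) = x := by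
  ext i
  fin_cases i <;> simp [exV_apply]

private theorem exW_exW (x : WW p) : exW (exW x) = x := by
  ext i
  fin_cases i <;> simp [exW_apply]

private theorem ex_trans (a b c d : ZMod p) : (datH (piH1 a b c d)).Trans
    (datH (piH1 (-d) (-c) (-b) (-a)))
    (LinearEquiv.ofLinear exV exV (LinearMap.ext exV_exV) (LinearMap.ext exV_exV))
    (LinearEquiv.ofLinear exW exW (LinearMap.ext exW_exW) (LinearMap.ext exW_exW)) := by
  constructor
  · intro u v
    show exW (netH u v) = netH (exV u) (exV v)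
    rw [netH_apply, netH_apply, exW_apply, exV_apply, exV_apply]
    ext i
    fin_cases i
    · simp; ring
    · simp; ring
    · simp
  · intro v
    show exW (piH1 a b c d v) = piH1 (-d) (-c) (-b) (-a) (exV v)
    rw [piH1_apply, piH1_apply, exW_apply, exV_apply]
    ext i
    fin_cases i
    · simp; ring
    · simp; ring
    · simp

/-- the diagonal map on `V` -/
private def dgV (r : ZMod p) : VV p →ₗ[ZMod p] VV p where
  toFun x := ![r * x 0, r * x 1, x 2, r * x 3]
  map_add' x y := by ext i; fin_cases i <;> simp <;> ring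
  map_smul' c x := by ext i; fin_cases i <;> simp <;> ring

/-- the diagonal map on `W` -/
private def dgW (r : ZMod p) : WW p →ₗ[ZMod p] WW p where
  toFun w := ![r ^ 2 * w 0, r * w 1, r * w 2]
  map_add' x y := by ext i; fin_cases i <;> simp <;> ring
  map_smul' c x := by ext i; fin_cases i <;> simp <;> ring

private theorem dgV_apply (r : ZMod p) (x : VV p) : dgV r x = ![r * x 0, r * x 1, x 2, r * x 3] := rfl
private theorem dgW_apply (r : ZMod p) (w : WW p) : dgW r w = ![r ^ 2 * w 0, r * w 1, r * w 2] := rfl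

private theorem dgV_dgV (r s : ZMod p) (h : r * s = 1) (x : VV p) : dgV r (dgV s x) = x := by
  ext i
  fin_cases i <;> simp [dgV_apply, ← mul_assoc, h]

private theorem dgW_dgW (r s : ZMod p) (h : r * s = 1) (x : WW p) : dgW r (dgW s x) = x := by
  ext i
  fin_cases i <;> simp [dgW_apply, ← mul_assoc, h, ← mul_pow]

private theorem dg_trans (a b c d r : ZMod p) (hr : r ≠ 0) : ∃ g h, (datH (piH2 a b c d)).Trans
    (datH (piH2 (r * a) (r ^ 2 * b) c (r * d))) g h ∧ ∀ x, g x = ![r * x 0, r * x 1, x 2, r * x 3] := by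
  have h1 : r * r⁻¹ = 1 := mul_inv_cancel₀ hr
  have h2 : r⁻¹ * r = 1 := inv_mul_cancel₀ hr
  refine ⟨LinearEquiv.ofLinear (dgV r) (dgV r⁻¹) (LinearMap.ext (dgV_dgV r _ h1))
    (LinearMap.ext (dgV_dgV _ r h2)),
    LinearEquiv.ofLinear (dgW r) (dgW r⁻¹) (LinearMap.ext (dgW_dgW r _ h1))
    (LinearMap.ext (dgW_dgW _ r h2)), ⟨?_, ?_⟩, fun x => rfl⟩
  · intro u v
    show dgW r (netH u v) = netH (dgV r u) (dgV r v)
    rw [netH_apply, netH_apply, dgW_apply, dgV_apply, dgV_apply]
    ext i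
    fin_cases i
    · simp; ring
    · simp; ring
    · simp; ring
  · intro v
    show dgW r (piH2 a b c d v) = piH2 (r * a) (r ^ 2 * b) c (r * d) (dgV r v)
    rw [piH2_apply, piH2_apply, dgW_apply, dgV_apply]
    ext i
    fin_cases i
    · simp; ring
    · simp; ring
    · simp; ring

/-- the equations for family 1 -/
private theorem eh2_one {a b c d a' b' c' d' : ZMod p} {g h}
    (ht : (datH (piH1 a b c d)).Trans (datH (piH1 a' b' c' d')) g h) :
    ((∀ x, g x = x) ∧ a' = a ∧ b' = b ∧ c' = c ∧ d' = d) ∨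
      (a' = -d ∧ b' = -c ∧ c' = -b ∧ d' = -a) := by
  obtain ⟨hg1, hg2⟩ := ht
  obtain ⟨a1, a2, c1, c2, r11, r12, r21, r22, h1, h2, h3, h4, H⟩ := eh2_elim g h hg1
  have hg2' : ∀ v, h (piH1 a b c d v) = piH1 a' b' c' d' (g v) := hg2
  simp only [piH1_apply] at hg2'
  rcases H with ⟨hg, hh⟩ | ⟨hg, hh⟩
  · simp only [hg, hh] at hg2'
    have e0 := hg2' ![1, 0, 0, 0]
    have e1 := hg2' ![0, 1, 0, 0]
    have e2 := hg2' ![0, 0, 1, 0]
    have e3 := hg2' ![0, 0, 0, 1]
    simp at e0 e1 e2 e3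
    obtain rfl : r21 = 0 := e1.2.1.resolve_left h2
    obtain rfl : r12 = 0 := e3.1.resolve_left h1
    obtain rfl : r11 = 0 := by linear_combination -e0.2.2
    obtain rfl : r22 = 0 := by linear_combination -e2.2.2
    obtain rfl : a1 = 1 := mul_right_cancel₀ h3 (by linear_combination e1.1)
    obtain rfl : a2 = 1 := mul_right_cancel₀ h4 (by linear_combination e3.2.1)
    obtain rfl : c1 = 1 := by linear_combination -e1.2.2
    obtain rfl : c2 = 1 := by linear_combination -e3.2.2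
    left
    refine ⟨fun x => ?_, by linear_combination -e0.1, by linear_combination -e2.1,
      by linear_combination -e0.2.1, by linear_combination -e2.2.1⟩
    rw [hg]
    ext i
    fin_cases i <;> simp
  · simp only [hg, hh] at hg2'
    have e0 := hg2' ![1, 0, 0, 0]
    have e1 := hg2' ![0, 1, 0, 0]
    have e2 := hg2' ![0, 0, 1, 0]
    have e3 := hg2' ![0, 0, 0, 1]
    simp at e0 e1 e2 e3
    obtain rfl : r21 = 0 := e1.1.resolve_left h2
    obtain rfl : r12 = 0 := e3.2.1.resolve_left h1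
    obtain rfl : r11 = 0 := by linear_combination -e0.2.2
    obtain rfl : r22 = 0 := by linear_combination -e2.2.2
    obtain rfl : a1 = 1 := mul_right_cancel₀ h3 (by linear_combination e1.2.1)
    obtain rfl : a2 = 1 := mul_right_cancel₀ h4 (by linear_combination e3.1)
    obtain rfl : c1 = -1 := by linear_combination -e1.2.2
    obtain rfl : c2 = -1 := by linear_combination -e3.2.2
    right
    exact ⟨by linear_combination -e2.1, by linear_combination -e0.1,
      by linear_combination -e2.2.1, by linear_combination -e0.2.1⟩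

/-- the equations for family 2 -/
private theorem eh2_two {a b c d a' b' c' d' : ZMod p} {g h}
    (ht : (datH (piH2 a b c d)).Trans (datH (piH2 a' b' c' d')) g h) :
    ∃ r : ZMod p, r ≠ 0 ∧ (∀ x, g x = ![r * x 0, r * x 1, x 2, r * x 3]) ∧
      a' = r * a ∧ b' = r ^ 2 * b ∧ c' = c ∧ d' = r * d := by
  obtain ⟨hg1, hg2⟩ := ht
  obtain ⟨a1, a2, c1, c2, r11, r12, r21, r22, h1, h2, h3, h4, H⟩ := eh2_elim g h hg1
  have hg2' : ∀ v, h (piH2 a b c d v) = piH2 a' b' c' d' (g v) := hg2
  simp only [piH2_apply] at hg2'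
  rcases H with ⟨hg, hh⟩ | ⟨hg, hh⟩
  · simp only [hg, hh] at hg2'
    have e0 := hg2' ![1, 0, 0, 0]
    have e1 := hg2' ![0, 1, 0, 0]
    have e2 := hg2' ![0, 0, 1, 0]
    have e3 := hg2' ![0, 0, 0, 1]
    simp at e0 e1 e2 e3
    obtain rfl : r21 = 0 := e1.2.1.resolve_left h2
    obtain rfl : r12 = 0 := e3.1.resolve_left h1
    obtain rfl : r11 = 0 := by linear_combination -e0.2.2
    obtain rfl : r22 = 0 := by linear_combination -e2.2.2
    obtain rfl : a2 = 1 := mul_right_cancel₀ h4 (by linear_combination e3.2.1)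
    obtain rfl : c1 = a1 := by linear_combination -e1.2.2
    obtain rfl : c2 = c1 := by linear_combination -e3.2.2
    refine ⟨c2, h1, fun x => ?_, mul_right_cancel₀ h1 (by linear_combination -e0.1),
      by linear_combination -e2.1, mul_right_cancel₀ h1 (by linear_combination -e0.2.1),
      by linear_combination -e2.2.1⟩
    rw [hg]
    ext i
    fin_cases i <;> simp
  · simp only [hg, hh] at hg2'
    have e0 := hg2' ![1, 0, 0, 0]
    have e1 := hg2' ![0, 1, 0, 0]
    have e2 := hg2' ![0, 0, 1, 0]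
    have e3 := hg2' ![0, 0, 0, 1]
    simp at e0 e1 e2 e3
    obtain rfl : r21 = 0 := e1.1.resolve_left h2
    exact absurd (by linear_combination e3.1 : a2 * c2 = 0) (mul_ne_zero h2 h4)

/-- [M7 EH2] Isomorphisms inside family 1. PROOF: use the equations of EH1 (docstring of `split_normal`) with `D = D' = (1,1)`, `C = C' = 0`, `B = B' = 1`: without exchange `c1 = c2 = a1 a2`, `r2j = - r1j`, `r12 = 0`, `r11 = 0`, `a1 = a2 = 1`: `g = 1`. With exchange the same computation gives `g x = ![x 2, -x 3, x 0, -x 1]`,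
`h w = ![-w 1, -w 0, -w 2]` and `(a', b', c', d') = (-d, -c, -b, -a)`. -/
theorem piH1_eqv (hp : p ≠ 2) (a b c d a' b' c' d' : ZMod p) :
    (datH (piH1 a b c d)).Eqv (datH (piH1 a' b' c' d')) ↔
      (a' = a ∧ b' = b ∧ c' = c ∧ d' = d) ∨ (a' = -d ∧ b' = -c ∧ c' = -b ∧ d' = -a) := by
  constructor
  · rintro ⟨g, h, ht⟩
    rcases eh2_one ht with ⟨-, H⟩ | H
    · exact Or.inl H
    · exact Or.inr H
  · rintro (⟨rfl, rfl, rfl, rfl⟩ | ⟨rfl, rfl, rfl, rfl⟩)
    · exact ⟨LinearEquiv.refl _ _, LinearEquiv.refl _ _, fun u v => rfl, fun v => rfl⟩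
    · exact ⟨_, _, ex_trans a b c d⟩

/-- [M7 EH2] -/
theorem piH1_free (hp : p ≠ 2) (a b c d : ZMod p) :
    (datH (piH1 a b c d)).Free ↔ a + d ≠ 0 ∨ b + c ≠ 0 := by
  constructor
  · intro hf
    by_contra hcon
    rw [not_or, not_not, not_not] at hcon
    obtain ⟨h1, h2⟩ := hcon
    have ht := ex_trans a b c d
    have e1 : -d = a := by linear_combination -h1
    have e2 : -c = b := by linear_combination -h2
    have e3 : -b = c := by linear_combination -h2
    have e4 : -a = d := by linear_combination -h1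
    rw [e1, e2, e3, e4] at ht
    have h3 := congrFun (hf _ _ ht ![1, 0, 0, 0]) 0
    have h4 : (exV (![1, 0, 0, 0] : VV p)) 0 = (![1, 0, 0, 0] : VV p) 0 := h3
    simp [exV_apply] at h4
  · intro hne g h ht
    rcases eh2_one ht with ⟨H, -⟩ | ⟨h1, h2, -, -⟩
    · exact H
    · exfalso
      rcases hne with h3 | h3
      · exact h3 (by linear_combination h1)
      · exact h3 (by linear_combination h2)

/-- [M7 EH2] Family 2: `g x = ![r x0, r x1, x2, r x3]`, `h w = ![r² w0, r w1, r w2]`. An exchange is impossible (`B11 = 0`, `B22 = 1` would become `B11 ≠ 0`). -/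
theorem piH2_eqv (hp : p ≠ 2) (a b c d a' b' c' d' : ZMod p) :
    (datH (piH2 a b c d)).Eqv (datH (piH2 a' b' c' d')) ↔
      ∃ r : ZMod p, r ≠ 0 ∧ a' = r * a ∧ b' = r ^ 2 * b ∧ c' = c ∧ d' = r * d := by
  constructor
  · rintro ⟨g, h, ht⟩
    obtain ⟨r, hr, -, H⟩ := eh2_two ht
    exact ⟨r, hr, H⟩
  · rintro ⟨r, hr, rfl, rfl, rfl, rfl⟩
    obtain ⟨g, h, ht, -⟩ := dg_trans a b c' d r hr
    exact ⟨g, h, ht⟩

/-- [M7 EH2] -/
theorem piH2_free (hp : p ≠ 2) (a b c d : ZMod p) :
    (datH (piH2 a b c d)).Free ↔ a ≠ 0 ∨ d ≠ 0 := by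
  constructor
  · intro hf
    by_contra hcon
    rw [not_or, not_not, not_not] at hcon
    obtain ⟨rfl, rfl⟩ := hcon
    obtain ⟨g, h, ht, hg⟩ := dg_trans (0 : ZMod p) b c 0 (-1) (by simp)
    rw [mul_zero, neg_one_sq, one_mul] at ht
    have h3 := congrFun (hf _ _ ht ![1, 0, 0, 0]) 0
    rw [hg] at h3
    simp at h3
    have h2 : (2 : ZMod p) = 0 := by linear_combination -h3
    have h4 : ((2 : ℕ) : ZMod p) = 0 := by exact_mod_cast h2
    rw [ZMod.natCast_eq_zero_iff] at h4
    have h5 := (Nat.prime_dvd_prime_iff_eq (Fact.out : p.Prime) Nat.prime_two).1 h4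
    exact hp h5
  · intro hne g h ht
    obtain ⟨r, hr, hg, h1, -, -, h4⟩ := eh2_two ht
    have hr1 : r = 1 := by
      rcases hne with h3 | h3
      · exact mul_right_cancel₀ h3 (by linear_combination -h1)
      · exact mul_right_cancel₀ h3 (by linear_combination -h4)
    intro v
    rw [hg, hr1]
    ext i
    fin_cases i <;> simp

end MP_02e52a.M7
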