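import Pool.Agent.Lib.MP_02e52a_al.M7.EH0

namespace MP_02e52a.M7

variable {p : ℕ} [Fact p.Prime]

private theorem EH3_pi1 (a b c d : ZMod p) (x : VV p) :
    piH1 a b c d x = ![a * x 0 + x 1 + b * x 2, c * x 0 + d * x 2 + x 3, x 1 + x 3] := by
  unfold piH1 mkπ
  ext i
  fin_cases i <;> simp [Matrix.mulVec, dotProduct, Fin.sum_univ_four]

private theorem EH3_pi2 (a b c d : ZMod p) (x : VV p) :
    piH2 a b c d x = ![a * x 0 + b * x 2, c * x 0 + d * x 2 + x 3, x 1 + x 3] := by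
  unfold piH2 mkπ
  ext i
  fin_cases i <;> simp [Matrix.mulVec, dotProduct, Fin.sum_univ_four]

private theorem EH3_pi3 (a b c d s t u : ZMod p) (x : VV p) :
    piH3 a b c d s t u x = ![a * x 0 + s * x 1 + b * x 2 + t * x 3, c * x 0 + d * x 2 + u * x 3, x 1] := by
  unfold piH3 mkπ
  ext i
  fin_cases i <;> simp [Matrix.mulVec, dotProduct, Fin.sum_univ_four]

private theorem EH3_w (w : WW p) : w = netH ![1, 0, 1, 0] ![0, w 0, w 2, w 1] := by
  ext i
  fin_cases i <;> simp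

/-- the form of a pair `(g, h)` -/
private theorem EH3_form (π π' : VV p →ₗ[ZMod p] WW p) (g : VV p ≃ₗ[ZMod p] VV p)
    (h : WW p ≃ₗ[ZMod p] WW p) (hT : (datH π).Trans (datH π') g h) :
    ∃ a1 a2 c1 c2 r11 r12 r21 r22 : ZMod p, a1 ≠ 0 ∧ a2 ≠ 0 ∧ c1 ≠ 0 ∧ c2 ≠ 0 ∧
      (((∀ x, g x = ![a1 * x 0, c1 * x 1 + r11 * x 0 + r12 * x 2, a2 * x 2,
          c2 * x 3 + r21 * x 0 + r22 * x 2]) ∧
        (∀ w, h w = ![a1 * c1 * w 0 + a1 * r12 * w 2, a2 * c2 * w 1 - a2 * r21 * w 2,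
          a1 * a2 * w 2])) ∨
       ((∀ x, g x = ![a2 * x 2, c2 * x 3 + r21 * x 0 + r22 * x 2, a1 * x 0,
          c1 * x 1 + r11 * x 0 + r12 * x 2]) ∧
        (∀ w, h w = ![a2 * c2 * w 1 - a2 * r21 * w 2, a1 * c1 * w 0 + a1 * r12 * w 2,
          -(a1 * a2 * w 2)]))) := by
  have hT1 : ∀ u v, h (netH u v) = netH (g u) (g v) := hT.1
  obtain ⟨a1, a2, c1, c2, r11, r12, r21, r22, h1, h2, h3, h4, hg⟩ := (stab_netH g).1 ⟨h, hT1⟩
  refine ⟨a1, a2, c1, c2, r11, r12, r21, r22, h1, h2, h3, h4, ?_⟩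
  rcases hg with hg | hg
  · left
    refine ⟨hg, fun w => ?_⟩
    have e1 := hT1 ![1, 0, 1, 0] ![0, w 0, w 2, w 1]
    rw [← EH3_w w, hg, hg] at e1
    rw [e1]
    ext i
    fin_cases i <;> simp <;> ring
  · right
    refine ⟨hg, fun w => ?_⟩
    have e1 := hT1 ![1, 0, 1, 0] ![0, w 0, w 2, w 1]
    rw [← EH3_w w, hg, hg] at e1
    rw [e1]
    ext i
    fin_cases i <;> simp <;> ring

/-- the change of variables of family 3 -/
private noncomputable def EH3_g (a1 a2 c2 r : ZMod p) (h1 : a1 ≠ 0) (h2 : a2 ≠ 0) (h3 : c2 ≠ 0) :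
    VV p ≃ₗ[ZMod p] VV p where
  toFun x := ![a1 * x 0, a1 * a2 * x 1, a2 * x 2, c2 * x 3 + r * x 2]
  invFun y := ![a1⁻¹ * y 0, (a1 * a2)⁻¹ * y 1, a2⁻¹ * y 2, c2⁻¹ * (y 3 - r * (a2⁻¹ * y 2))]
  map_add' x y := by
    ext i
    fin_cases i <;> simp <;> ring
  map_smul' k x := by
    ext i
    fin_cases i <;> simp <;> ring
  left_inv x := by
    ext i
    fin_cases i <;> simp <;> field_simp <;> ring
  right_inv y := by
    ext i
    fin_cases i <;> simp <;> field_simp <;> ring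

private noncomputable def EH3_h (a1 a2 c2 : ZMod p) (h1 : a1 ≠ 0) (h2 : a2 ≠ 0) (h3 : c2 ≠ 0) :
    WW p ≃ₗ[ZMod p] WW p where
  toFun x := ![a1 ^ 2 * a2 * x 0, a2 * c2 * x 1, a1 * a2 * x 2]
  invFun y := ![(a1 ^ 2 * a2)⁻¹ * y 0, (a2 * c2)⁻¹ * y 1, (a1 * a2)⁻¹ * y 2]
  map_add' x y := by
    ext i
    fin_cases i <;> simp <;> ring
  map_smul' k x := by
    ext i
    fin_cases i <;> simp <;> ring
  left_inv x := by
    ext i
    fin_cases i <;> simp <;> field_simp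
  right_inv y := by
    ext i
    fin_cases i <;> simp <;> field_simp

private theorem EH3_mk (a b c d s t u a' b' c' d' s' t' u' : ZMod p) (a1 a2 c2 r : ZMod p)
    (h1 : a1 ≠ 0) (h2 : a2 ≠ 0) (h3 : c2 ≠ 0) (e1 : a' = a1 * a2 * a) (e2 : s' = a1 * s)
    (e3 : u' = a2 * u) (e4 : c2 * t' = a1 ^ 2 * a2 * t) (e5 : a1 * c' = a2 * c2 * c)
    (e6 : a2 * b' + t' * r = a1 ^ 2 * a2 * b) (e7 : a2 * d' + u' * r = a2 * c2 * d) :
    (datH (piH3 a b c d s t u)).Trans (datH (piH3 a' b' c' d' s' t' u'))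
      (EH3_g a1 a2 c2 r h1 h2 h3) (EH3_h a1 a2 c2 h1 h2 h3) := by
  constructor
  · intro x y
    show EH3_h a1 a2 c2 h1 h2 h3 (netH x y) =
      netH (EH3_g a1 a2 c2 r h1 h2 h3 x) (EH3_g a1 a2 c2 r h1 h2 h3 y)
    show ![a1 ^ 2 * a2 * (x 0 * y 1 - x 1 * y 0), a2 * c2 * (x 2 * y 3 - x 3 * y 2),
      a1 * a2 * (x 0 * y 2 - x 2 * y 0)] =
      netH ![a1 * x 0, a1 * a2 * x 1, a2 * x 2, c2 * x 3 + r * x 2]
        ![a1 * y 0, a1 * a2 * y 1, a2 * y 2, c2 * y 3 + r * y 2]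
    ext i
    fin_cases i <;> simp <;> ring
  · intro x
    show EH3_h a1 a2 c2 h1 h2 h3 (piH3 a b c d s t u x) =
      piH3 a' b' c' d' s' t' u' (EH3_g a1 a2 c2 r h1 h2 h3 x)
    rw [EH3_pi3, EH3_pi3]
    show ![a1 ^ 2 * a2 * (a * x 0 + s * x 1 + b * x 2 + t * x 3),
        a2 * c2 * (c * x 0 + d * x 2 + u * x 3), a1 * a2 * x 1] =
      ![a' * (a1 * x 0) + s' * (a1 * a2 * x 1) + b' * (a2 * x 2) + t' * (c2 * x 3 + r * x 2),
        c' * (a1 * x 0) + d' * (a2 * x 2) + u' * (c2 * x 3 + r * x 2), a1 * a2 * x 1]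
    congr 1
    · linear_combination (-a1 * x 0) * e1 - (a1 * a2 * x 1) * e2 - x 3 * e4 - x 2 * e6
    · congr 1
      linear_combination (-c2 * x 3) * e3 - x 0 * e5 - x 2 * e7

private theorem EH3_eqs (a b c d s t u a' b' c' d' s' t' u' : ZMod p)
    (g : VV p ≃ₗ[ZMod p] VV p) (h : WW p ≃ₗ[ZMod p] WW p)
    (hT : (datH (piH3 a b c d s t u)).Trans (datH (piH3 a' b' c' d' s' t' u')) g h) :
    ∃ a1 a2 c2 r : ZMod p, a1 ≠ 0 ∧ a2 ≠ 0 ∧ c2 ≠ 0 ∧
      (∀ x, g x = ![a1 * x 0, a1 * a2 * x 1, a2 * x 2, c2 * x 3 + r * x 2]) ∧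
      a' = a1 * a2 * a ∧ s' = a1 * s ∧ u' = a2 * u ∧
        c2 * t' = a1 ^ 2 * a2 * t ∧ a1 * c' = a2 * c2 * c ∧ a2 * b' + t' * r = a1 ^ 2 * a2 * b ∧
        a2 * d' + u' * r = a2 * c2 * d := by
  obtain ⟨a1, a2, c1, c2, r11, r12, r21, r22, h1, h2, h3, h4, hf⟩ := EH3_form _ _ g h hT
  have hT2 : ∀ x, h (piH3 a b c d s t u x) = piH3 a' b' c' d' s' t' u' (g x) := hT.2
  rcases hf with ⟨hg, hh⟩ | ⟨hg, hh⟩
  · have E : ∀ x0 x1 x2 x3 : ZMod p,
        ![a1 * c1 * (a * x0 + s * x1 + b * x2 + t * x3) + a1 * r12 * x1,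
          a2 * c2 * (c * x0 + d * x2 + u * x3) - a2 * r21 * x1, a1 * a2 * x1] =
        ![a' * (a1 * x0) + s' * (c1 * x1 + r11 * x0 + r12 * x2) + b' * (a2 * x2) +
            t' * (c2 * x3 + r21 * x0 + r22 * x2),
          c' * (a1 * x0) + d' * (a2 * x2) + u' * (c2 * x3 + r21 * x0 + r22 * x2),
          c1 * x1 + r11 * x0 + r12 * x2] := by
      intro x0 x1 x2 x3
      have e := hT2 ![x0, x1, x2, x3]
      rw [EH3_pi3, EH3_pi3, hg, hh] at e
      exact e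
    have E0 : ∀ x0 x1 x2 x3 : ZMod p,
        a1 * c1 * (a * x0 + s * x1 + b * x2 + t * x3) + a1 * r12 * x1 =
        a' * (a1 * x0) + s' * (c1 * x1 + r11 * x0 + r12 * x2) + b' * (a2 * x2) +
            t' * (c2 * x3 + r21 * x0 + r22 * x2) := fun x0 x1 x2 x3 => congrFun (E x0 x1 x2 x3) 0
    have E1 : ∀ x0 x1 x2 x3 : ZMod p,
        a2 * c2 * (c * x0 + d * x2 + u * x3) - a2 * r21 * x1 =
        c' * (a1 * x0) + d' * (a2 * x2) + u' * (c2 * x3 + r21 * x0 + r22 * x2) :=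
      fun x0 x1 x2 x3 => congrFun (E x0 x1 x2 x3) 1
    have E2 : ∀ x0 x1 x2 x3 : ZMod p, a1 * a2 * x1 = c1 * x1 + r11 * x0 + r12 * x2 :=
      fun x0 x1 x2 x3 => congrFun (E x0 x1 x2 x3) 2
    have hc1 : c1 = a1 * a2 := by linear_combination -(E2 0 1 0 0)
    have hr11 : r11 = 0 := by linear_combination -(E2 1 0 0 0)
    have hr12 : r12 = 0 := by linear_combination -(E2 0 0 1 0)
    have hr21 : r21 = 0 := by
      have e : a2 * r21 = 0 := by linear_combination -(E1 0 1 0 0)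
      exact (mul_eq_zero.1 e).resolve_left h2
    subst hc1 hr11 hr12 hr21
    refine ⟨a1, a2, c2, r22, h1, h2, h4, ?_, ?_, ?_, ?_, ?_, ?_, ?_, ?_⟩
    · intro x
      rw [hg x]
      congr 1
      congr 1
      · ring
      · congr 1
        congr 1
        ring
    · apply mul_left_cancel₀ h1
      linear_combination -(E0 1 0 0 0)
    · apply mul_left_cancel₀ h3
      linear_combination -(E0 0 1 0 0)
    · apply mul_left_cancel₀ h4
      linear_combination -(E1 0 0 0 1)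
    · linear_combination -(E0 0 0 0 1)
    · linear_combination -(E1 1 0 0 0)
    · linear_combination -(E0 0 0 1 0)
    · linear_combination -(E1 0 0 1 0)
  · exfalso
    have e := congrFun (hT2 ![0, 0, 0, 1]) 2
    rw [EH3_pi3, EH3_pi3, hg, hh] at e
    have e2 : -(a1 * a2 * 0) = c2 * 1 + r21 * 0 + r22 * 0 := e
    exact h4 (by linear_combination -e2)

/-- [M7 EH3] Family 3: `g x = ![a1 x0, a1 a2 x1, a2 x2, c2 x3 + r x2]`, `h w = ![a1² a2 w0, a2 c2 w1, a1 a2 w2]` (equations of EH1 with `D = (1, 0)`, `C = 0`, `B21 = 0`: `c1 = a1 a2`, `r11 = r12 = 0`, `r21 = 0`; an exchange is impossible since it exchanges `D1` and `D2` up to nonzero factors). -/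
theorem piH3_eqv (a b c d s t u a' b' c' d' s' t' u' : ZMod p) :
    (datH (piH3 a b c d s t u)).Eqv (datH (piH3 a' b' c' d' s' t' u')) ↔
      ∃ a1 a2 c2 r : ZMod p, a1 ≠ 0 ∧ a2 ≠ 0 ∧ c2 ≠ 0 ∧ a' = a1 * a2 * a ∧ s' = a1 * s ∧ u' = a2 * u ∧
        c2 * t' = a1 ^ 2 * a2 * t ∧ a1 * c' = a2 * c2 * c ∧ a2 * b' + t' * r = a1 ^ 2 * a2 * b ∧
        a2 * d' + u' * r = a2 * c2 * d := by
  constructor
  · rintro ⟨g, h, hT⟩
    obtain ⟨a1, a2, c2, r, h1, h2, h3, -, h4⟩ := EH3_eqs _ _ _ _ _ _ _ _ _ _ _ _ _ _ g h hT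
    exact ⟨a1, a2, c2, r, h1, h2, h3, h4⟩
  · rintro ⟨a1, a2, c2, r, h1, h2, h3, e1, e2, e3, e4, e5, e6, e7⟩
    exact ⟨_, _, EH3_mk a b c d s t u a' b' c' d' s' t' u' a1 a2 c2 r h1 h2 h3 e1 e2 e3 e4 e5 e6 e7⟩

/-- [M7 EH3] PROOF: the stabiliser consists of the `(a1, a2, c2, r)` with the equations above for `' = ` same. If `t = u = 0` then `(1, 1, 1, r)` stabilises. If `(t, u) ≠ 0`, then `r` is determined by `(a1, a2, c2)`, and it exists iff `(a1² a2 - 1) (b u - d t) = 0`... precisely: given `a1 ≠ 0` etc. with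
`c2 t = a1² a2 t`, `u = a2 u`, the two equations `t r = a2 (a1² - 1) b`, `u r = a2 (c2 - 1) d` are solvable in `r` iff `u a2 (a1² - 1) b = t a2 (c2 - 1) d`; using `u a2 = u` and `t c2 = a1² a2 t` this reads `(a1² a2 - 1) ... `: `u (a1² a2 - a2) b = (a1² a2 u - u) b` (as `a2 u = u`, `a1² a2 u = a1² u`) and
`t a2 (c2 - 1) d = (a2 a1² a2 t - a2 t) d`; if `u ≠ 0` then `a2 = 1` and the condition is `(a1² - 1) (u b - t d) = 0`; if `u = 0`, `t ≠ 0`: the condition is `a2 (c2 - 1) d t = 0`, i.e. `(a1² a2 - 1) t d = 0`. In both cases it is `(a1² a2 - 1) (b u - d t) = 0`. If all these hold only for `a1 = a2 = c2 = 1`, then also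
`r = 0`. -/
theorem piH3_free (a b c d s t u : ZMod p) :
    (datH (piH3 a b c d s t u)).Free ↔ (t ≠ 0 ∨ u ≠ 0) ∧
      ∀ a1 a2 c2 : ZMod p, a1 ≠ 0 → a2 ≠ 0 → c2 ≠ 0 → a1 * a2 * a = a → a1 * s = s → a2 * u = u →
        a1 ^ 2 * a2 * t = c2 * t → a2 * c2 * c = a1 * c → a1 ^ 2 * a2 * (b * u - d * t) = b * u - d * t →
        a1 = 1 ∧ a2 = 1 ∧ c2 = 1 := by
  constructor
  · intro hF
    have htu : t ≠ 0 ∨ u ≠ 0 := by
      by_contra hcon
      push Not at hcon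
      obtain ⟨ht, hu⟩ := hcon
      have hT := EH3_mk a b c d s t u a b c d s t u 1 1 1 1 one_ne_zero one_ne_zero one_ne_zero
        (by ring) (by ring) (by ring) (by ring) (by ring) (by rw [ht]; ring) (by rw [hu]; ring)
      have e := congrFun (hF _ _ hT ![0, 0, 1, 0]) 3
      have e2 : (1 : ZMod p) * 0 + 1 * 1 = 0 := e
      simp at e2
    refine ⟨htu, ?_⟩
    intro a1 a2 c2 h1 h2 h3 e1 e2 e3 e4 e5 e6
    have hr : ∃ r : ZMod p, a2 * b + t * r = a1 ^ 2 * a2 * b ∧ a2 * d + u * r = a2 * c2 * d := by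
      by_cases hu : u = 0
      · have ht : t ≠ 0 := htu.resolve_right (fun h => h hu)
        subst hu
        have hc2 : a1 ^ 2 * a2 = c2 := mul_right_cancel₀ ht e4
        refine ⟨(a1 ^ 2 * a2 * b - a2 * b) * t⁻¹, ?_, ?_⟩
        · have h5 : t * t⁻¹ = 1 := mul_inv_cancel₀ ht
          linear_combination (a1 ^ 2 * a2 * b - a2 * b) * h5
        · have h6 : c2 * d = d := by
            apply mul_right_cancel₀ ht
            linear_combination -e6 - d * e4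
          linear_combination -a2 * h6
      · have ha2 : a2 = 1 := by
          apply mul_right_cancel₀ hu
          rw [e3, one_mul]
        subst ha2
        refine ⟨(c2 * d - d) * u⁻¹, ?_, ?_⟩
        · have h5 : u * u⁻¹ = 1 := mul_inv_cancel₀ hu
          apply mul_right_cancel₀ hu
          linear_combination (t * (c2 * d - d)) * h5 - e6 - d * e4
        · have h5 : u * u⁻¹ = 1 := mul_inv_cancel₀ hu
          linear_combination (c2 * d - d) * h5
    obtain ⟨r, e7, e8⟩ := hr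
    have hT := EH3_mk a b c d s t u a b c d s t u a1 a2 c2 r h1 h2 h3 e1.symm e2.symm e3.symm
      e4.symm e5.symm e7 e8
    refine ⟨?_, ?_, ?_⟩
    · have e := congrFun (hF _ _ hT ![1, 0, 0, 0]) 0
      have e' : a1 * 1 = 1 := e
      rwa [mul_one] at e'
    · have e := congrFun (hF _ _ hT ![0, 0, 1, 0]) 2
      have e' : a2 * 1 = 1 := e
      rwa [mul_one] at e'
    · have e := congrFun (hF _ _ hT ![0, 0, 0, 1]) 3
      have e' : c2 * 1 + r * 0 = 1 := e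
      rwa [mul_one, mul_zero, add_zero] at e'
  · rintro ⟨htu, hcond⟩ g h hT
    obtain ⟨a1, a2, c2, r, h1, h2, h3, hg, e1, e2, e3, e4, e5, e6, e7⟩ :=
      EH3_eqs _ _ _ _ _ _ _ _ _ _ _ _ _ _ g h hT
    have e8 : a1 ^ 2 * a2 * (b * u - d * t) = b * u - d * t := by
      by_cases hu : u = 0
      · subst hu
        apply mul_left_cancel₀ h2
        linear_combination t * e7 + a2 * d * e4
      · have ha2 : a2 = 1 := by
          apply mul_right_cancel₀ hu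
          rw [← e3, one_mul]
        subst ha2
        linear_combination -u * e6 + t * e7 + d * e4
    obtain ⟨i1, i2, i3⟩ := hcond a1 a2 c2 h1 h2 h3 e1.symm e2.symm e3.symm e4.symm e5.symm e8
    subst i1 i2 i3
    have hr : r = 0 := by
      rcases htu with ht | hu
      · have h5 : t * r = 0 := by linear_combination e6
        exact (mul_eq_zero.1 h5).resolve_left ht
      · have h5 : u * r = 0 := by linear_combination e7
        exact (mul_eq_zero.1 h5).resolve_left hu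
    subst hr
    intro v
    rw [hg v]
    ext i
    fin_cases i <;> simp

/-- [M7 EH3] The three families are disjoint. PROOF: by the equations of EH1 (and the exchange), the number of nonzero elements among `D1, D2` is invariant, and if `D = D' = (1, 1)`, `C = C' = 0`, `B12 = B21 = 0`, the number of nonzero elements among `B11, B22` is invariant. -/
theorem split_disjoint (hp : p ≠ 2) (a b c d a' b' c' d' s t u : ZMod p) :
    ¬ (datH (piH1 a b c d)).Eqv (datH (piH2 a' b' c' d')) ∧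
      ¬ (datH (piH1 a b c d)).Eqv (datH (piH3 a' b' c' d' s t u)) ∧
      ¬ (datH (piH2 a b c d)).Eqv (datH (piH3 a' b' c' d' s t u)) := by
  refine ⟨?_, ?_, ?_⟩
  · rintro ⟨g, h, hT⟩
    obtain ⟨a1, a2, c1, c2, r11, r12, r21, r22, h1, h2, h3, h4, hf⟩ := EH3_form _ _ g h hT
    have hT2 : ∀ x, h (piH1 a b c d x) = piH2 a' b' c' d' (g x) := hT.2
    rcases hf with ⟨hg, hh⟩ | ⟨hg, hh⟩
    · have e1 := congrFun (hT2 ![0, 1, 0, 0]) 0
      have e3 := congrFun (hT2 ![0, 0, 0, 1]) 0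
      rw [EH3_pi1, EH3_pi2, hg, hh] at e1 e3
      have f1 : a1 * c1 * (a * 0 + 1 + b * 0) + a1 * r12 * (1 + 0) = a' * (a1 * 0) + b' * (a2 * 0) := e1
      have f3 : a1 * c1 * (a * 0 + 0 + b * 0) + a1 * r12 * (0 + 1) = a' * (a1 * 0) + b' * (a2 * 0) := e3
      have f : a1 * c1 = 0 := by linear_combination f1 - f3
      exact (mul_ne_zero h1 h3) f
    · have e1 := congrFun (hT2 ![0, 1, 0, 0]) 0
      have e3 := congrFun (hT2 ![0, 0, 0, 1]) 0
      rw [EH3_pi1, EH3_pi2, hg, hh] at e1 e3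
      have f1 : a2 * c2 * (c * 0 + d * 0 + 0) - a2 * r21 * (1 + 0) = a' * (a2 * 0) + b' * (a1 * 0) := e1
      have f3 : a2 * c2 * (c * 0 + d * 0 + 1) - a2 * r21 * (0 + 1) = a' * (a2 * 0) + b' * (a1 * 0) := e3
      have f : a2 * c2 = 0 := by linear_combination f3 - f1
      exact (mul_ne_zero h2 h4) f
  · rintro ⟨g, h, hT⟩
    obtain ⟨a1, a2, c1, c2, r11, r12, r21, r22, h1, h2, h3, h4, hf⟩ := EH3_form _ _ g h hT
    have hT2 : ∀ x, h (piH1 a b c d x) = piH3 a' b' c' d' s t u (g x) := hT.2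
    rcases hf with ⟨hg, hh⟩ | ⟨hg, hh⟩
    · have e3 := congrFun (hT2 ![0, 0, 0, 1]) 2
      rw [EH3_pi1, EH3_pi3, hg, hh] at e3
      have f3 : a1 * a2 * (0 + 1) = c1 * 0 + r11 * 0 + r12 * 0 := e3
      have f : a1 * a2 = 0 := by linear_combination f3
      exact (mul_ne_zero h1 h2) f
    · have e1 := congrFun (hT2 ![0, 1, 0, 0]) 2
      rw [EH3_pi1, EH3_pi3, hg, hh] at e1
      have f1 : -(a1 * a2 * (1 + 0)) = c2 * 0 + r21 * 0 + r22 * 0 := e1
      have f : a1 * a2 = 0 := by linear_combination -f1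
      exact (mul_ne_zero h1 h2) f
  · rintro ⟨g, h, hT⟩
    obtain ⟨a1, a2, c1, c2, r11, r12, r21, r22, h1, h2, h3, h4, hf⟩ := EH3_form _ _ g h hT
    have hT2 : ∀ x, h (piH2 a b c d x) = piH3 a' b' c' d' s t u (g x) := hT.2
    rcases hf with ⟨hg, hh⟩ | ⟨hg, hh⟩
    · have e3 := congrFun (hT2 ![0, 0, 0, 1]) 2
      rw [EH3_pi2, EH3_pi3, hg, hh] at e3
      have f3 : a1 * a2 * (0 + 1) = c1 * 0 + r11 * 0 + r12 * 0 := e3
      have f : a1 * a2 = 0 := by linear_combination f3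
      exact (mul_ne_zero h1 h2) f
    · have e1 := congrFun (hT2 ![0, 1, 0, 0]) 2
      rw [EH3_pi2, EH3_pi3, hg, hh] at e1
      have f1 : -(a1 * a2 * (1 + 0)) = c2 * 0 + r21 * 0 + r22 * 0 := e1
      have f : a1 * a2 = 0 := by linear_combination -f1
      exact (mul_ne_zero h1 h2) f

end MP_02e52a.M7
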