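import Pool.Agent.Lib.MP_02e52a_al.M7.NetDefs

namespace MP_02e52a.M7

variable {p : ℕ} [Fact p.Prime]

private theorem sm_expand (q : WW p →ₗ[ZMod p] ZMod p) (w : WW p) :
    q w = q ![1, 0, 0] * w 0 + q ![0, 1, 0] * w 1 + q ![0, 0, 1] * w 2 := by
  have h : w = w 0 • (![1, 0, 0] : WW p) + w 1 • (![0, 1, 0] : WW p) +
      w 2 • (![0, 0, 1] : WW p) := by
    ext i
    fin_cases i <;> simp
  conv_lhs => rw [h]
  simp only [map_add, map_smul, smul_eq_mul]
  ring

private theorem sm_plane {g : VV p ≃ₗ[ZMod p] VV p} {h : WW p ≃ₗ[ZMod p] WW p}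
    (hh : ∀ u v, h (netM u v) = netM (g u) (g v)) (q : WW p →ₗ[ZMod p] ZMod p)
    (hq : ∃ u v : VV p, q (netM u v) ≠ 0) :
    ∃ s t : ZMod p, (s ≠ 0 ∨ t ≠ 0) ∧ ∀ E : VV p, (∀ v, q (netM E v) = 0) →
      s * g E 0 + t * g E 2 = 0 ∧ s * g E 1 + t * g E 3 = 0 := by
  obtain ⟨ψ, hψ⟩ : ∃ ψ : WW p →ₗ[ZMod p] ZMod p, ψ = q.comp (h.symm : WW p →ₗ[ZMod p] WW p) :=
    ⟨_, rfl⟩
  have hψ1 : ∀ u v, ψ (netM (g u) (g v)) = q (netM u v) := by
    intro u v
    rw [hψ, ← hh]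
    simp
  obtain ⟨α, hα⟩ : ∃ α, α = ψ ![1, 0, 0] := ⟨_, rfl⟩
  obtain ⟨β, hβ⟩ : ∃ β, β = ψ ![0, 1, 0] := ⟨_, rfl⟩
  obtain ⟨γ, hγ⟩ : ∃ γ, γ = ψ ![0, 0, 1] := ⟨_, rfl⟩
  have hex : ∀ w, ψ w = α * w 0 + β * w 1 + γ * w 2 := by
    intro w
    rw [hα, hβ, hγ]
    exact sm_expand ψ w
  have hker : ∀ E : VV p, (∀ v, q (netM E v) = 0) →
      (α * g E 0 + γ * g E 2 = 0 ∧ α * g E 1 + γ * g E 3 = 0) ∧
      (γ * g E 0 + β * g E 2 = 0 ∧ γ * g E 1 + β * g E 3 = 0) := by
    intro E hE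
    have h1 : ∀ y : VV p, α * (netM (g E) y) 0 + β * (netM (g E) y) 1 +
        γ * (netM (g E) y) 2 = 0 := by
      intro y
      obtain ⟨v, rfl⟩ := g.surjective y
      rw [← hex, hψ1, hE]
    have y0 := h1 ![1, 0, 0, 0]
    have y1 := h1 ![0, 1, 0, 0]
    have y2 := h1 ![0, 0, 1, 0]
    have y3 := h1 ![0, 0, 0, 1]
    simp at y0 y1 y2 y3
    refine ⟨⟨?_, ?_⟩, ?_, ?_⟩
    · linear_combination y1
    · linear_combination -y0
    · linear_combination y3
    · linear_combination -y2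
  by_cases h0 : α ≠ 0 ∨ γ ≠ 0
  · exact ⟨α, γ, h0, fun E hE => (hker E hE).1⟩
  · by_cases h1 : γ ≠ 0 ∨ β ≠ 0
    · exact ⟨γ, β, h1, fun E hE => (hker E hE).2⟩
    · exfalso
      push Not at h0 h1
      obtain ⟨u, v, huv⟩ := hq
      apply huv
      rw [← hψ1, hex, h0.1, h0.2, h1.2]
      ring

private theorem sm_rank {s t : ZMod p} (hst : s ≠ 0 ∨ t ≠ 0) {x0 x1 x2 x3 : ZMod p}
    (h1 : s * x0 + t * x2 = 0) (h2 : s * x1 + t * x3 = 0) :
    ∃ y z : ZMod p, x0 = t * y ∧ x1 = t * z ∧ x2 = -s * y ∧ x3 = -s * z := by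
  by_cases ht : t = 0
  · have hs : s ≠ 0 := by
      rcases hst with h | h
      · exact h
      · exact absurd ht h
    subst ht
    refine ⟨-x2 / s, -x3 / s, ?_, ?_, ?_, ?_⟩
    · have : s * x0 = 0 := by linear_combination h1
      rw [zero_mul]
      exact (mul_eq_zero.1 this).resolve_left hs
    · have : s * x1 = 0 := by linear_combination h2
      rw [zero_mul]
      exact (mul_eq_zero.1 this).resolve_left hs
    · field_simp
    · field_simp
  · refine ⟨x0 / t, x1 / t, ?_, ?_, ?_, ?_⟩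
    · field_simp
    · field_simp
    · field_simp
      linear_combination h1
    · field_simp
      linear_combination h2

private theorem sm_basis (g : VV p ≃ₗ[ZMod p] VV p) (x : VV p) (i : Fin 4) :
    g x i = x 0 * g ![1, 0, 0, 0] i + x 1 * g ![0, 1, 0, 0] i + x 2 * g ![0, 0, 1, 0] i +
      x 3 * g ![0, 0, 0, 1] i := by
  have h : x = x 0 • (![1, 0, 0, 0] : VV p) + x 1 • (![0, 1, 0, 0] : VV p) +
      x 2 • (![0, 0, 1, 0] : VV p) + x 3 • (![0, 0, 0, 1] : VV p) := by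
    ext i
    fin_cases i <;> simp
  conv_lhs => rw [h]
  simp only [map_add, map_smul, Pi.add_apply, Pi.smul_apply, smul_eq_mul]

private theorem sm_surj (g : VV p ≃ₗ[ZMod p] VV p) {i j : Fin 4} (hij : i ≠ j) {s t : ZMod p}
    (h : ∀ x, s * g x i + t * g x j = 0) : s = 0 ∧ t = 0 := by
  have h1 := h (g.symm (Pi.single i 1))
  have h2 := h (g.symm (Pi.single j 1))
  rw [LinearEquiv.apply_symm_apply] at h1 h2
  rw [Pi.single_eq_same, Pi.single_eq_of_ne hij.symm] at h1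
  rw [Pi.single_eq_same, Pi.single_eq_of_ne hij] at h2
  constructor
  · linear_combination h1
  · linear_combination h2

private theorem sm_ne (g : VV p ≃ₗ[ZMod p] VV p) {E : VV p} (hE : E ≠ 0)
    (h0 : g E 0 = 0) (h1 : g E 1 = 0) (h2 : g E 2 = 0) (h3 : g E 3 = 0) : False := by
  apply hE
  apply g.injective
  rw [map_zero]
  ext i
  fin_cases i
  · exact h0
  · exact h1
  · exact h2
  · exact h3

/-- [M7 SM] Stabiliser of `netM`: `x ↦ a X bᵀ` where `X` is the matrix with rows `(x 0, x 1)`, `(x 2, x 3)`. PROOF (←): with rows `r1, r2` of `X`, `netM = (r1∧r1', r2∧r2', r1∧r2' + r2∧r1')`; new rows are `a i 0 r1 bᵀ + a i 1 r2 bᵀ`, so `h` is `det b` times the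
matrix `[[a00², a01², a00 a01], [a10², a11², a10 a11], [2 a00 a10, 2 a01 a11, a00 a11 + a01 a10]]`, whose determinant is `(det a)³ (det b)³ ≠ 0`. (→): for `(s, t) ≠ 0` the form `f_(s,t) = (s r1 + t r2) ∧ (s r1 + t r2)'` is `s² f0 + t² f1 + s t f2` (`f k` the components of `netM`); it is degenerate with kernel
`{X | s r1 + t r2 = 0} = {(−t, s)ᵀ ⊗ y}`, and the degenerate forms in the net are, up to scalars, exactly these (`t 0 t 1 = t 2^2`, `degSet_netM` in NU; or directly). `g` maps the net to itself (via `h`), hence permutes these `p + 1` planes `P_ℓ = ℓ ⊗ F²`, `ℓ` a line in `F²`. Let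
`g P_(e0) = P_(ℓ0)`, `g P_(e1) = P_(ℓ1)`, `g P_(e0+e1) = P_(ℓ2)`, three different lines; choose `a ∈ GL2` with `a e0 ∈ ℓ0, a e1 ∈ ℓ1, a (e0 + e1) ∈ ℓ2`; composing with `a⁻¹ ⊗ 1` we may assume that `g` fixes the three planes: `g (e0 ⊗ y) = e0 ⊗ b y`, `g (e1 ⊗ y) = e1 ⊗ b' y`, and
`g ((e0 + e1) ⊗ y) ∈ (e0 + e1) ⊗ F²` gives `b = b'`. -/
theorem stab_netM (hp : p ≠ 2) (g : VV p ≃ₗ[ZMod p] VV p) :
    (∃ h : WW p ≃ₗ[ZMod p] WW p, ∀ u v, h (netM u v) = netM (g u) (g v)) ↔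
      ∃ a b : Matrix (Fin 2) (Fin 2) (ZMod p), a.det ≠ 0 ∧ b.det ≠ 0 ∧ ∀ x, g x =
        ![a 0 0 * (b 0 0 * x 0 + b 0 1 * x 1) + a 0 1 * (b 0 0 * x 2 + b 0 1 * x 3),
          a 0 0 * (b 1 0 * x 0 + b 1 1 * x 1) + a 0 1 * (b 1 0 * x 2 + b 1 1 * x 3),
          a 1 0 * (b 0 0 * x 0 + b 0 1 * x 1) + a 1 1 * (b 0 0 * x 2 + b 0 1 * x 3),
          a 1 0 * (b 1 0 * x 0 + b 1 1 * x 1) + a 1 1 * (b 1 0 * x 2 + b 1 1 * x 3)] := by
  have _ := hp
  constructor
  · rintro ⟨h, hh⟩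
    -- the three planes
    obtain ⟨s0, t0, hst0, H0⟩ := sm_plane hh (LinearMap.proj 1)
      ⟨![0, 0, 1, 0], ![0, 0, 0, 1], by simp⟩
    obtain ⟨s1, t1, hst1, H1⟩ := sm_plane hh (LinearMap.proj 0)
      ⟨![1, 0, 0, 0], ![0, 1, 0, 0], by simp⟩
    obtain ⟨q, hq⟩ : ∃ q : WW p →ₗ[ZMod p] ZMod p, ∀ w, q w = w 0 + w 1 - w 2 :=
      ⟨((LinearMap.proj 0 : WW p →ₗ[ZMod p] ZMod p) + (LinearMap.proj 1 : WW p →ₗ[ZMod p] ZMod p)) -
        (LinearMap.proj 2 : WW p →ₗ[ZMod p] ZMod p), fun w => by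
          rw [LinearMap.sub_apply, LinearMap.add_apply]
          rfl⟩
    obtain ⟨s2, t2, hst2, H2⟩ := sm_plane hh q
      ⟨![1, 0, 0, 0], ![0, 1, 0, 0], by rw [hq]; simp⟩
    obtain ⟨k0, k0'⟩ := H0 ![1, 0, 0, 0] (by intro v; simp)
    obtain ⟨k1, k1'⟩ := H0 ![0, 1, 0, 0] (by intro v; simp)
    obtain ⟨k2, k2'⟩ := H1 ![0, 0, 1, 0] (by intro v; simp)
    obtain ⟨k3, k3'⟩ := H1 ![0, 0, 0, 1] (by intro v; simp)
    obtain ⟨k4, k4'⟩ := H2 (![1, 0, 0, 0] + ![0, 0, 1, 0]) (by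
      intro v
      rw [hq]
      simp
      try ring)
    obtain ⟨k5, k5'⟩ := H2 (![0, 1, 0, 0] + ![0, 0, 0, 1]) (by
      intro v
      rw [hq]
      simp
      try ring)
    obtain ⟨y0, y1, a0, a1, a2, a3⟩ := sm_rank hst0 k0 k0'
    obtain ⟨z0, z1, b0, b1, b2, b3⟩ := sm_rank hst0 k1 k1'
    obtain ⟨y0', y1', c0, c1, c2, c3⟩ := sm_rank hst1 k2 k2'
    obtain ⟨z0', z1', d0, d1, d2, d3⟩ := sm_rank hst1 k3 k3'
    rw [map_add] at k4 k4' k5 k5'
    simp only [Pi.add_apply] at k4 k4' k5 k5'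
    obtain ⟨A, hA⟩ : ∃ A, A = s2 * t0 - t2 * s0 := ⟨_, rfl⟩
    obtain ⟨B, hB⟩ : ∃ B, B = s2 * t1 - t2 * s1 := ⟨_, rfl⟩
    have e1 : A * y0 + B * y0' = 0 := by
      rw [hA, hB]
      linear_combination k4 - s2 * a0 - s2 * c0 - t2 * a2 - t2 * c2
    have e2 : A * y1 + B * y1' = 0 := by
      rw [hA, hB]
      linear_combination k4' - s2 * a1 - s2 * c1 - t2 * a3 - t2 * c3
    have e3 : A * z0 + B * z0' = 0 := by
      rw [hA, hB]
      linear_combination k5 - s2 * b0 - s2 * d0 - t2 * b2 - t2 * d2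
    have e4 : A * z1 + B * z1' = 0 := by
      rw [hA, hB]
      linear_combination k5' - s2 * b1 - s2 * d1 - t2 * b3 - t2 * d3
    have hx0 : ∀ x, g x 0 = t0 * (x 0 * y0 + x 1 * z0) + t1 * (x 2 * y0' + x 3 * z0') := by
      intro x
      rw [sm_basis, a0, b0, c0, d0]
      ring
    have hx1 : ∀ x, g x 1 = t0 * (x 0 * y1 + x 1 * z1) + t1 * (x 2 * y1' + x 3 * z1') := by
      intro x
      rw [sm_basis, a1, b1, c1, d1]
      ring
    have hx2 : ∀ x, g x 2 = -s0 * (x 0 * y0 + x 1 * z0) - s1 * (x 2 * y0' + x 3 * z0') := by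
      intro x
      rw [sm_basis, a2, b2, c2, d2]
      ring
    have hx3 : ∀ x, g x 3 = -s0 * (x 0 * y1 + x 1 * z1) - s1 * (x 2 * y1' + x 3 * z1') := by
      intro x
      rw [sm_basis, a3, b3, c3, d3]
      ring
    have hyne : y0 ≠ 0 ∨ y1 ≠ 0 := by
      by_contra hcon
      push Not at hcon
      refine sm_ne g (E := ![1, 0, 0, 0]) ?_ ?_ ?_ ?_ ?_
      · intro h0
        simpa using congrFun h0 0
      · rw [a0, hcon.1, mul_zero]
      · rw [a1, hcon.2, mul_zero]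
      · rw [a2, hcon.1, mul_zero]
      · rw [a3, hcon.2, mul_zero]
    have hyne' : y0' ≠ 0 ∨ y1' ≠ 0 := by
      by_contra hcon
      push Not at hcon
      refine sm_ne g (E := ![0, 0, 1, 0]) ?_ ?_ ?_ ?_ ?_
      · intro h0
        simpa using congrFun h0 2
      · rw [c0, hcon.1, mul_zero]
      · rw [c1, hcon.2, mul_zero]
      · rw [c2, hcon.1, mul_zero]
      · rw [c3, hcon.2, mul_zero]
    have hAB : A ≠ 0 ∨ B ≠ 0 := by
      by_contra hcon
      push Not at hcon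
      have := sm_surj g (i := 0) (j := 2) (by decide) (s := s2) (t := t2) (by
        intro x
        rw [hx0, hx2]
        have e5 : s2 * t0 - t2 * s0 = 0 := by rw [← hA, hcon.1]
        have e6 : s2 * t1 - t2 * s1 = 0 := by rw [← hB, hcon.2]
        linear_combination (x 0 * y0 + x 1 * z0) * e5 + (x 2 * y0' + x 3 * z0') * e6)
      rcases hst2 with h0 | h0
      · exact h0 this.1
      · exact h0 this.2
    have hB0 : B ≠ 0 := by
      intro h0
      rw [h0] at e1 e2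
      have hA0 : A ≠ 0 := by
        rcases hAB with h1 | h1
        · exact h1
        · exact absurd h0 h1
      have f1 : A * y0 = 0 := by linear_combination e1
      have f2 : A * y1 = 0 := by linear_combination e2
      rcases hyne with h1 | h1
      · exact h1 ((mul_eq_zero.1 f1).resolve_left hA0)
      · exact h1 ((mul_eq_zero.1 f2).resolve_left hA0)
    obtain ⟨c, hc⟩ : ∃ c, c = -A / B := ⟨_, rfl⟩
    have f1 : y0' = c * y0 := by
      rw [hc]
      field_simp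
      linear_combination e1
    have f2 : y1' = c * y1 := by
      rw [hc]
      field_simp
      linear_combination e2
    have f3 : z0' = c * z0 := by
      rw [hc]
      field_simp
      linear_combination e3
    have f4 : z1' = c * z1 := by
      rw [hc]
      field_simp
      linear_combination e4
    have hcne : c ≠ 0 := by
      intro h0
      rw [h0, zero_mul] at f1 f2
      rcases hyne' with h1 | h1
      · exact h1 f1
      · exact h1 f2
    refine ⟨!![t0, c * t1; -s0, -(c * s1)], !![y0, z0; y1, z1], ?_, ?_, ?_⟩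
    · rw [Matrix.det_fin_two_of]
      intro h0
      have := sm_surj g (i := 0) (j := 2) (by decide) (s := s0) (t := t0) (by
        intro x
        rw [hx0, hx2, f1, f3]
        linear_combination (x 2 * y0 + x 3 * z0) * h0)
      rcases hst0 with h1 | h1
      · exact h1 this.1
      · exact h1 this.2
    · rw [Matrix.det_fin_two_of]
      intro h0
      have := sm_surj g (i := 0) (j := 1) (by decide) (s := y1) (t := -y0) (by
        intro x
        rw [hx0, hx1, f1, f2, f3, f4]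
        linear_combination (-(t0 * x 1) - t1 * c * x 3) * h0)
      rcases hyne with h1 | h1
      · exact h1 (neg_eq_zero.1 this.2)
      · exact h1 this.1
    · intro x
      ext i
      fin_cases i
      · change g x 0 = _
        rw [hx0, f1, f3]
        simp
        ring
      · change g x 1 = _
        rw [hx1, f2, f4]
        simp
        ring
      · change g x 2 = _
        rw [hx2, f1, f3]
        simp
        ring
      · change g x 3 = _
        rw [hx3, f2, f4]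
        simp
        ring
  · rintro ⟨a, b, ha, hb, hg⟩
    rw [Matrix.det_fin_two] at ha hb
    obtain ⟨D, hD⟩ : ∃ D, D = b 0 0 * b 1 1 - b 0 1 * b 1 0 := ⟨_, rfl⟩
    obtain ⟨M, hM⟩ : ∃ M : Matrix (Fin 3) (Fin 3) (ZMod p), M =
      !![D * a 0 0 ^ 2, D * a 0 1 ^ 2, D * (a 0 0 * a 0 1);
         D * a 1 0 ^ 2, D * a 1 1 ^ 2, D * (a 1 0 * a 1 1);
         D * (2 * (a 0 0 * a 1 0)), D * (2 * (a 0 1 * a 1 1)),
          D * (a 0 0 * a 1 1 + a 0 1 * a 1 0)] := ⟨_, rfl⟩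
    have hdet : M.det = (D * (a 0 0 * a 1 1 - a 0 1 * a 1 0)) ^ 3 := by
      rw [hM, Matrix.det_fin_three]
      simp
      ring
    have hunit : IsUnit M.det := by
      rw [hdet]
      exact (pow_ne_zero 3 (mul_ne_zero (hD ▸ hb) ha)).isUnit
    refine ⟨Matrix.toLinearEquiv' M (Matrix.invertibleOfIsUnitDet M hunit), fun u v => ?_⟩
    have hap : ∀ w : WW p, (Matrix.toLinearEquiv' M (Matrix.invertibleOfIsUnitDet M hunit)) w =
        M.mulVec w := fun w => rfl
    rw [hap, hg u, hg v, netM_apply, netM_apply, hM, hD]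
    ext i
    fin_cases i
    · simp [Matrix.mulVec, dotProduct, Fin.sum_univ_three]
      ring
    · simp [Matrix.mulVec, dotProduct, Fin.sum_univ_three]
      ring
    · simp [Matrix.mulVec, dotProduct, Fin.sum_univ_three]
      ring

end MP_02e52a.M7
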