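import Pool.Agent.Lib.MP_02e52a_al.M7.FinDefs
import Pool.Agent.Lib.MP_02e52a_al.M7.SM

namespace MP_02e52a.M7

variable {p : ℕ} [Fact p.Prime]

/-- the map `x ↦ a X bᵀ` -/
private def em_F (a b : Matrix (Fin 2) (Fin 2) (ZMod p)) (x : VV p) : VV p :=
  ![a 0 0 * (b 0 0 * x 0 + b 0 1 * x 1) + a 0 1 * (b 0 0 * x 2 + b 0 1 * x 3),
    a 0 0 * (b 1 0 * x 0 + b 1 1 * x 1) + a 0 1 * (b 1 0 * x 2 + b 1 1 * x 3),
    a 1 0 * (b 0 0 * x 0 + b 0 1 * x 1) + a 1 1 * (b 0 0 * x 2 + b 0 1 * x 3),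
    a 1 0 * (b 1 0 * x 0 + b 1 1 * x 1) + a 1 1 * (b 1 0 * x 2 + b 1 1 * x 3)]

private theorem em_F_comp (a b a' b' : Matrix (Fin 2) (Fin 2) (ZMod p)) (x : VV p) :
    em_F a b (em_F a' b' x) = em_F (a * a') (b * b') x := by
  ext i
  fin_cases i <;> simp [em_F, Matrix.mul_apply, Fin.sum_univ_two] <;> ring

private theorem em_F_one (x : VV p) : em_F 1 1 x = x := by
  ext i
  fin_cases i <;> simp [em_F]

private def em_lin (a b : Matrix (Fin 2) (Fin 2) (ZMod p)) : VV p →ₗ[ZMod p] VV p where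
  toFun := em_F a b
  map_add' x y := by
    ext i
    fin_cases i <;> simp [em_F] <;> ring
  map_smul' c x := by
    ext i
    fin_cases i <;> simp [em_F] <;> ring

private theorem em_inv (a : Matrix (Fin 2) (Fin 2) (ZMod p)) (ha : a.det ≠ 0) :
    a * a⁻¹ = 1 ∧ a⁻¹ * a = 1 :=
  ⟨Matrix.mul_nonsing_inv a (isUnit_iff_ne_zero.2 ha),
    Matrix.nonsing_inv_mul a (isUnit_iff_ne_zero.2 ha)⟩

private noncomputable def em_equiv (a b : Matrix (Fin 2) (Fin 2) (ZMod p)) (ha : a.det ≠ 0) (hb : b.det ≠ 0) :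
    VV p ≃ₗ[ZMod p] VV p :=
  LinearEquiv.ofLinear (em_lin a b) (em_lin a⁻¹ b⁻¹)
    (by
      apply LinearMap.ext
      intro x
      change em_F a b (em_F a⁻¹ b⁻¹ x) = x
      rw [em_F_comp, (em_inv a ha).1, (em_inv b hb).1, em_F_one])
    (by
      apply LinearMap.ext
      intro x
      change em_F a⁻¹ b⁻¹ (em_F a b x) = x
      rw [em_F_comp, (em_inv a ha).2, (em_inv b hb).2, em_F_one])

private theorem em_equiv_apply (a b : Matrix (Fin 2) (Fin 2) (ZMod p)) (ha : a.det ≠ 0)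
    (hb : b.det ≠ 0) (x : VV p) : em_equiv a b ha hb x = em_F a b x := rfl

private theorem em_val (w : WW p) : netM ![1, 0, 0, 1] ![0, w 0, -w 1, w 2] = w := by
  ext i
  fin_cases i <;> simp

private theorem em_h (a b : Matrix (Fin 2) (Fin 2) (ZMod p)) (h : WW p → WW p)
    (hh : ∀ u v, h (netM u v) = netM (em_F a b u) (em_F a b v)) (w : WW p) :
    h w = b.det • (sq a).mulVec w := by
  conv_lhs => rw [← em_val w, hh]
  ext i
  fin_cases i <;>
    simp [em_F, Matrix.det_fin_two, sq, Matrix.mulVec, dotProduct, Fin.sum_univ_three] <;> ring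

private theorem em_pi (π : VV p →ₗ[ZMod p] WW p) (x : VV p) (k : Fin 3) :
    π x k = x 0 * TM π 0 k 0 + x 1 * TM π 1 k 0 + x 2 * TM π 0 k 1 + x 3 * TM π 1 k 1 := by
  have h : x = x 0 • (Pi.single 0 1 : VV p) + x 1 • (Pi.single 1 1 : VV p) +
      x 2 • (Pi.single 2 1 : VV p) + x 3 • (Pi.single 3 1 : VV p) := by
    ext i
    fin_cases i <;> simp
  conv_lhs => rw [h]
  simp only [map_add, map_smul, Pi.add_apply, Pi.smul_apply, smul_eq_mul]
  rfl

/-- the condition, without adjugate -/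
private theorem em_cond (a b : Matrix (Fin 2) (Fin 2) (ZMod p)) (π π' : VV p →ₗ[ZMod p] WW p) :
    (∀ x, b.det • (sq a).mulVec (π x) = π' (em_F a b x)) ↔
      ∀ j, b.det • (sq a * TM π j) = (b 0 j • TM π' 0 + b 1 j • TM π' 1) * a := by
  constructor
  · intro H j
    ext k i
    have h1 := congrFun (H (Pi.single (finProdFinEquiv (i, j)) 1)) k
    rw [em_pi π'] at h1
    have e1 : ∀ l, π (Pi.single (finProdFinEquiv (i, j)) 1) l = TM π j l i := fun l => rfl
    simp only [Pi.smul_apply, smul_eq_mul, Matrix.mulVec, dotProduct, e1] at h1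
    simp only [Matrix.smul_apply, smul_eq_mul, Matrix.mul_apply, Matrix.add_apply,
      Fin.sum_univ_two]
    rw [h1]
    have f00 : (finProdFinEquiv ((0 : Fin 2), (0 : Fin 2)) : Fin 4) = 0 := rfl
    have f01 : (finProdFinEquiv ((0 : Fin 2), (1 : Fin 2)) : Fin 4) = 1 := rfl
    have f10 : (finProdFinEquiv ((1 : Fin 2), (0 : Fin 2)) : Fin 4) = 2 := rfl
    have f11 : (finProdFinEquiv ((1 : Fin 2), (1 : Fin 2)) : Fin 4) = 3 := rfl
    fin_cases i <;> fin_cases j <;>
      simp [em_F, f00, f01, f10, f11] <;> ring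
  · intro H x
    ext k
    rw [em_pi π']
    have h00 := congrFun (congrFun (H 0) k) 0
    have h01 := congrFun (congrFun (H 0) k) 1
    have h10 := congrFun (congrFun (H 1) k) 0
    have h11 := congrFun (congrFun (H 1) k) 1
    simp only [Matrix.smul_apply, smul_eq_mul, Matrix.mul_apply, Matrix.add_apply,
      Fin.sum_univ_two, Fin.sum_univ_three] at h00 h01 h10 h11
    simp only [Pi.smul_apply, smul_eq_mul, Matrix.mulVec, dotProduct, Fin.sum_univ_three]
    rw [em_pi π, em_pi π, em_pi π]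
    have e0 : em_F a b x 0 =
      a 0 0 * (b 0 0 * x 0 + b 0 1 * x 1) + a 0 1 * (b 0 0 * x 2 + b 0 1 * x 3) := rfl
    have e1 : em_F a b x 1 =
      a 0 0 * (b 1 0 * x 0 + b 1 1 * x 1) + a 0 1 * (b 1 0 * x 2 + b 1 1 * x 3) := rfl
    have e2 : em_F a b x 2 =
      a 1 0 * (b 0 0 * x 0 + b 0 1 * x 1) + a 1 1 * (b 0 0 * x 2 + b 0 1 * x 3) := rfl
    have e3 : em_F a b x 3 =
      a 1 0 * (b 1 0 * x 0 + b 1 1 * x 1) + a 1 1 * (b 1 0 * x 2 + b 1 1 * x 3) := rfl
    rw [e0, e1, e2, e3]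
    linear_combination x 0 * h00 + x 1 * h10 + x 2 * h01 + x 3 * h11

/-- the condition with the action on the `3 × 2` matrices -/
private theorem em_adj (a b : Matrix (Fin 2) (Fin 2) (ZMod p)) (ha : a.det ≠ 0)
    (π π' : VV p →ₗ[ZMod p] WW p) :
    (∀ j, b.det • (sq a * TM π j) = (b 0 j • TM π' 0 + b 1 j • TM π' 1) * a) ↔
      ∀ j, b.det • actM a (TM π j) = a.det • (b 0 j • TM π' 0 + b 1 j • TM π' 1) := by
  constructor
  · intro H j
    change b.det • (sq a * TM π j * a.adjugate) = _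
    rw [← Matrix.smul_mul, H j, Matrix.mul_assoc, Matrix.mul_adjugate, Matrix.mul_smul,
      Matrix.mul_one]
  · intro H j
    have h1 : b.det • (sq a * TM π j * a.adjugate) * a =
        a.det • (b 0 j • TM π' 0 + b 1 j • TM π' 1) * a := congrArg (· * a) (H j)
    rw [Matrix.smul_mul, Matrix.mul_assoc _ a.adjugate a, Matrix.adjugate_mul, Matrix.mul_smul,
      Matrix.mul_one, Matrix.smul_mul, smul_comm] at h1
    exact smul_right_injective _ ha h1

private theorem em_trans {π π' : VV p →ₗ[ZMod p] WW p} (hp : p ≠ 2) {g : VV p ≃ₗ[ZMod p] VV p}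
    {h : WW p ≃ₗ[ZMod p] WW p} (ht : (datM π).Trans (datM π') g h) :
    ∃ a b : Matrix (Fin 2) (Fin 2) (ZMod p), a.det ≠ 0 ∧ b.det ≠ 0 ∧ (∀ x, g x = em_F a b x) ∧
      ∀ j, b.det • actM a (TM π j) = a.det • (b 0 j • TM π' 0 + b 1 j • TM π' 1) := by
  obtain ⟨a, b, ha, hb, hg⟩ := (stab_netM hp g).1 ⟨h, ht.1⟩
  have hg' : ∀ x, g x = em_F a b x := hg
  refine ⟨a, b, ha, hb, hg', ?_⟩
  rw [← em_adj a b ha, ← em_cond]
  intro x
  have h1 : ∀ u v, h (netM u v) = netM (em_F a b u) (em_F a b v) := by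
    intro u v
    rw [← hg', ← hg']
    exact ht.1 u v
  rw [← em_h a b h h1, ← hg']
  exact ht.2 x

private theorem em_mk {π π' : VV p →ₗ[ZMod p] WW p} (hp : p ≠ 2)
    (a b : Matrix (Fin 2) (Fin 2) (ZMod p)) (ha : a.det ≠ 0) (hb : b.det ≠ 0)
    (H : ∀ j, b.det • actM a (TM π j) = a.det • (b 0 j • TM π' 0 + b 1 j • TM π' 1)) :
    ∃ g h, (datM π).Trans (datM π') g h ∧ ∀ x, g x = em_F a b x := by
  obtain ⟨h, hh⟩ := (stab_netM hp (em_equiv a b ha hb)).2 ⟨a, b, ha, hb, fun x => rfl⟩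
  refine ⟨em_equiv a b ha hb, h, ⟨hh, ?_⟩, fun x => rfl⟩
  intro x
  rw [← em_adj a b ha, ← em_cond] at H
  have h1 : ∀ u v, h (netM u v) = netM (em_F a b u) (em_F a b v) := fun u v => hh u v
  change h (π x) = π' (em_F a b x)
  rw [em_h a b h h1]
  exact H x

private theorem em_mem {π : VV p →ₗ[ZMod p] WW p} {T : Matrix (Fin 3) (Fin 2) (ZMod p)} :
    T ∈ planeM π ↔ ∃ s t : ZMod p, T = s • TM π 0 + t • TM π 1 := by
  have h1 : Set.range (TM π) = {TM π 0, TM π 1} := by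
    ext T
    constructor
    · rintro ⟨j, rfl⟩
      fin_cases j
      · left; rfl
      · right; rfl
    · rintro (h | h)
      · exact ⟨0, h.symm⟩
      · exact ⟨1, h.symm⟩
  unfold planeM
  rw [h1, Submodule.mem_span_pair]
  constructor
  · rintro ⟨s, t, h⟩
    exact ⟨s, t, h.symm⟩
  · rintro ⟨s, t, h⟩
    exact ⟨s, t, h.symm⟩

private theorem em_plane {π π' : VV p →ₗ[ZMod p] WW p}
    (a b : Matrix (Fin 2) (Fin 2) (ZMod p)) (ha : a.det ≠ 0) (hb : b.det ≠ 0)
    (H : ∀ j, b.det • actM a (TM π j) = a.det • (b 0 j • TM π' 0 + b 1 j • TM π' 1)) :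
    (planeM π).map (actM a) = planeM π' := by
  have H' : ∀ j, actM a (TM π j) = (a.det / b.det) • (b 0 j • TM π' 0 + b 1 j • TM π' 1) := by
    intro j
    rw [div_eq_inv_mul, mul_smul, ← H j, smul_smul, inv_mul_cancel₀ hb, one_smul]
  apply le_antisymm
  · rintro _ ⟨T, hT, rfl⟩
    obtain ⟨s, t, rfl⟩ := em_mem.1 hT
    rw [map_add, map_smul, map_smul, H' 0, H' 1]
    rw [em_mem]
    refine ⟨s * (a.det / b.det) * b 0 0 + t * (a.det / b.det) * b 0 1,
      s * (a.det / b.det) * b 1 0 + t * (a.det / b.det) * b 1 1, ?_⟩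
    module
  · intro T hT
    obtain ⟨s, t, rfl⟩ := em_mem.1 hT
    have hd : b.det = b 0 0 * b 1 1 - b 0 1 * b 1 0 := Matrix.det_fin_two b
    have h0 : actM a ((a.det)⁻¹ • (b 1 1 • TM π 0 - b 1 0 • TM π 1)) = TM π' 0 := by
      rw [map_smul, map_sub, map_smul, map_smul, H' 0, H' 1]
      have : (a.det)⁻¹ • (b 1 1 • (a.det / b.det) • (b 0 0 • TM π' 0 + b 1 0 • TM π' 1) -
          b 1 0 • (a.det / b.det) • (b 0 1 • TM π' 0 + b 1 1 • TM π' 1)) =
          ((a.det)⁻¹ * (a.det / b.det) * (b 0 0 * b 1 1 - b 0 1 * b 1 0)) • TM π' 0 := by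
        module
      rw [this, ← hd]
      have : (a.det)⁻¹ * (a.det / b.det) * b.det = 1 := by field_simp
      rw [this, one_smul]
    have h1 : actM a ((a.det)⁻¹ • (b 0 0 • TM π 1 - b 0 1 • TM π 0)) = TM π' 1 := by
      rw [map_smul, map_sub, map_smul, map_smul, H' 0, H' 1]
      have : (a.det)⁻¹ • (b 0 0 • (a.det / b.det) • (b 0 1 • TM π' 0 + b 1 1 • TM π' 1) -
          b 0 1 • (a.det / b.det) • (b 0 0 • TM π' 0 + b 1 0 • TM π' 1)) =
          ((a.det)⁻¹ * (a.det / b.det) * (b 0 0 * b 1 1 - b 0 1 * b 1 0)) • TM π' 1 := by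
        module
      rw [this, ← hd]
      have : (a.det)⁻¹ * (a.det / b.det) * b.det = 1 := by field_simp
      rw [this, one_smul]
    refine ⟨s • ((a.det)⁻¹ • (b 1 1 • TM π 0 - b 1 0 • TM π 1)) +
      t • ((a.det)⁻¹ • (b 0 0 • TM π 1 - b 0 1 • TM π 0)), ?_, ?_⟩
    · rw [SetLike.mem_coe, em_mem]
      refine ⟨s * (a.det)⁻¹ * b 1 1 - t * (a.det)⁻¹ * b 0 1,
        t * (a.det)⁻¹ * b 0 0 - s * (a.det)⁻¹ * b 1 0, ?_⟩
      module
    · rw [map_add, map_smul (actM a) s, map_smul (actM a) t, h0, h1]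

private theorem em_li {π : VV p →ₗ[ZMod p] WW p} (hπ : LinearIndependent (ZMod p) (TM π))
    {s t s' t' : ZMod p} (h : s • TM π 0 + t • TM π 1 = s' • TM π 0 + t' • TM π 1) :
    s = s' ∧ t = t' := by
  have h1 : (s - s') • TM π 0 + (t - t') • TM π 1 = 0 := by
    have : (s - s') • TM π 0 + (t - t') • TM π 1 =
      (s • TM π 0 + t • TM π 1) - (s' • TM π 0 + t' • TM π 1) := by module
    rw [this, h, sub_self]
  have h2 := Fintype.linearIndependent_iff.1 hπ ![s - s', t - t'] (by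
    rw [Fin.sum_univ_two]
    exact h1)
  have h3 := h2 0
  have h4 := h2 1
  simp at h3 h4
  exact ⟨sub_eq_zero.1 h3, sub_eq_zero.1 h4⟩

private theorem em_coef {π π' : VV p →ₗ[ZMod p] WW p} (hπ' : LinearIndependent (ZMod p) (TM π'))
    (a : Matrix (Fin 2) (Fin 2) (ZMod p)) (ha : a.det ≠ 0)
    (H : (planeM π).map (actM a) = planeM π') :
    ∃ b : Matrix (Fin 2) (Fin 2) (ZMod p), b.det ≠ 0 ∧
      ∀ j, b.det • actM a (TM π j) = a.det • (b 0 j • TM π' 0 + b 1 j • TM π' 1) := by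
  have hmem : ∀ j, ∃ s t : ZMod p, actM a (TM π j) = s • TM π' 0 + t • TM π' 1 := by
    intro j
    rw [← em_mem, ← H]
    exact Submodule.mem_map_of_mem (Submodule.subset_span ⟨j, rfl⟩)
  obtain ⟨s0, t0, h0⟩ := hmem 0
  obtain ⟨s1, t1, h1⟩ := hmem 1
  have hinv : ∀ T ∈ planeM π', ∃ x y : ZMod p,
      T = (x * s0 + y * s1) • TM π' 0 + (x * t0 + y * t1) • TM π' 1 := by
    intro T hT
    rw [← H] at hT
    obtain ⟨R, hR, rfl⟩ := hT
    obtain ⟨x, y, rfl⟩ := em_mem.1 hR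
    refine ⟨x, y, ?_⟩
    rw [map_add, map_smul (actM a) x, map_smul (actM a) y, h0, h1]
    module
  obtain ⟨x0, y0, e0⟩ := hinv (TM π' 0) (Submodule.subset_span ⟨0, rfl⟩)
  obtain ⟨x1, y1, e1⟩ := hinv (TM π' 1) (Submodule.subset_span ⟨1, rfl⟩)
  have e0' : (1 : ZMod p) • TM π' 0 + (0 : ZMod p) • TM π' 1 =
      (x0 * s0 + y0 * s1) • TM π' 0 + (x0 * t0 + y0 * t1) • TM π' 1 := by
    rw [one_smul, zero_smul, add_zero]
    exact e0
  have e1' : (0 : ZMod p) • TM π' 0 + (1 : ZMod p) • TM π' 1 =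
      (x1 * s0 + y1 * s1) • TM π' 0 + (x1 * t0 + y1 * t1) • TM π' 1 := by
    rw [one_smul, zero_smul, zero_add]
    exact e1
  obtain ⟨f1, f2⟩ := em_li hπ' e0'
  obtain ⟨f3, f4⟩ := em_li hπ' e1'
  have hD : s0 * t1 - s1 * t0 ≠ 0 := by
    intro hD
    have : (1 : ZMod p) = 0 := by
      linear_combination f1 * 1 * 1 + (x0 * s0 + y0 * s1) * f4 - (x0 * t0 + y0 * t1) * f3 +
        (x0 * y1 - x1 * y0) * hD
    exact one_ne_zero this
  set μ : ZMod p := a.det / (s0 * t1 - s1 * t0) with hμ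
  have hμ0 : μ ≠ 0 := div_ne_zero ha hD
  have hμD : μ * (s0 * t1 - s1 * t0) = a.det := by
    rw [hμ]
    field_simp
  refine ⟨!![μ * s0, μ * s1; μ * t0, μ * t1], ?_, ?_⟩
  · rw [Matrix.det_fin_two_of]
    have : μ * s0 * (μ * t1) - μ * s1 * (μ * t0) = μ * (μ * (s0 * t1 - s1 * t0)) := by ring
    rw [this, hμD]
    exact mul_ne_zero hμ0 ha
  · intro j
    rw [Matrix.det_fin_two_of]
    have : μ * s0 * (μ * t1) - μ * s1 * (μ * t0) = a.det * μ := by
      rw [← hμD]; ring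
    rw [this]
    fin_cases j
    · change (a.det * μ) • actM a (TM π 0) = a.det • ((μ * s0) • TM π' 0 + (μ * t0) • TM π' 1)
      rw [h0]
      module
    · change (a.det * μ) • actM a (TM π 1) = a.det • ((μ * s1) • TM π' 0 + (μ * t1) • TM π' 1)
      rw [h1]
      module

private theorem em_scalar {a b : Matrix (Fin 2) (Fin 2) (ZMod p)}
    (h : ∀ x : VV p, em_F a b x = x) :
    a 0 0 * b 0 0 = 1 ∧ a 1 1 * b 0 0 = 1 ∧ a 0 1 * b 0 0 = 0 ∧ a 1 0 * b 0 0 = 0 ∧
      a 0 0 * b 0 1 = 0 ∧ a 0 0 * b 1 0 = 0 ∧ a 0 0 * b 1 1 = 1 := by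
  have c0 := h ![1, 0, 0, 0]
  have c1 := h ![0, 1, 0, 0]
  have c2 := h ![0, 0, 1, 0]
  have d00 := congrFun c0 0
  have d01 := congrFun c0 1
  have d02 := congrFun c0 2
  have d10 := congrFun c1 0
  have d11 := congrFun c1 1
  have d20 := congrFun c2 0
  have d22 := congrFun c2 2
  simp [em_F] at d00 d01 d02 d10 d11 d20 d22
  refine ⟨d00, d22, ?_, ?_, ?_, ?_, d11⟩
  · rcases d20 with h | h <;> rw [h] <;> ring
  · rcases d02 with h | h <;> rw [h] <;> ring
  · rcases d10 with h | h <;> rw [h] <;> ring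
  · rcases d01 with h | h <;> rw [h] <;> ring

/-- [M7 EM] Type M: freeness. PROOF. For `v, y ∈ F²` let `v ⊗ y ∈ V` be `x (2 i + j) = v i * y j`; `π (v ⊗ y) = (∑ j, y j • T_j) v =: T_y v`. By `stab_netM` a stabilising `g` is `g (v ⊗ y) = a v ⊗ b y` with `h = det b • sq a` (compute `h` on `netM (e i) (e j)`); the condition `π (g x) = h (π x)` is `T_{b y} a = det b • sq a * T_y`, i.e. (*)
`T_{b y} = det b / det a • sq a * T_y * adj a`.
(→) If `T_0, T_1` are dependent there is `y0 ≠ 0` with `T_{y0} = 0`; complete to a basis `y0, y1`, `b y0 = y0`, `b y1 = y1 + y0`, `a = 1` satisfies (*) (`det b = 1`): not free. If `a` (`det a ≠ 0`) preserves `planeM π`, there is a unique `b' ∈ GL2` with `T_{b' y} = sq a * T_y * adj a / det a`; `b = b' / det b'` satisfies `det b = 1 / det b'` and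
(*) so `a ⊗ b` stabilises; by freeness `a ⊗ b = 1`, so `a` is scalar. (←) If `(a, b)` satisfies (*) then `a` preserves the plane, so `a = λ • 1`, `sq a = λ² • 1`, (*) becomes `T_{b y} = λ det b • T_y`, so `b = λ det b • 1 =: μ • 1` (independence), `μ = λ μ²`, `λ μ = 1`, `g = λ μ = 1`. -/
theorem datM_free (hp : p ≠ 2) (π : VV p →ₗ[ZMod p] WW p) :
    (datM π).Free ↔ LinearIndependent (ZMod p) (TM π) ∧
      ∀ a : Matrix (Fin 2) (Fin 2) (ZMod p), a.det ≠ 0 → (planeM π).map (actM a) = planeM π →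
        a 0 1 = 0 ∧ a 1 0 = 0 ∧ a 0 0 = a 1 1 := by
  constructor
  · intro hf
    have hli : LinearIndependent (ZMod p) (TM π) := by
      rw [Fintype.linearIndependent_iff]
      intro c hc
      rw [Fin.sum_univ_two] at hc
      have hdet : (!![1 - c 0 * c 1, c 0 ^ 2; -c 1 ^ 2, 1 + c 0 * c 1] :
          Matrix (Fin 2) (Fin 2) (ZMod p)).det = 1 := by
        rw [Matrix.det_fin_two_of]; ring
      have hsq : sq (1 : Matrix (Fin 2) (Fin 2) (ZMod p)) = 1 := by
        ext i j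
        fin_cases i <;> fin_cases j <;> simp [sq]
      have hact : ∀ T : Matrix (Fin 3) (Fin 2) (ZMod p),
          actM (1 : Matrix (Fin 2) (Fin 2) (ZMod p)) T = T := by
        intro T
        change sq (1 : Matrix (Fin 2) (Fin 2) (ZMod p)) * T *
          (1 : Matrix (Fin 2) (Fin 2) (ZMod p)).adjugate = T
        rw [hsq, Matrix.adjugate_one, Matrix.one_mul, Matrix.mul_one]
      obtain ⟨g, h, ht, hg⟩ := em_mk (π := π) (π' := π) hp 1
        !![1 - c 0 * c 1, c 0 ^ 2; -c 1 ^ 2, 1 + c 0 * c 1] (by rw [Matrix.det_one]; exact one_ne_zero)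
        (by rw [hdet]; exact one_ne_zero) (by
          intro j
          rw [hact, hdet, Matrix.det_one, one_smul, one_smul]
          fin_cases j
          · change TM π 0 = (1 - c 0 * c 1) • TM π 0 + (-c 1 ^ 2) • TM π 1
            have : (1 - c 0 * c 1) • TM π 0 + (-c 1 ^ 2) • TM π 1 =
              TM π 0 - c 1 • (c 0 • TM π 0 + c 1 • TM π 1) := by module
            rw [this, hc, smul_zero, sub_zero]
          · change TM π 1 = (c 0 ^ 2) • TM π 0 + (1 + c 0 * c 1) • TM π 1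
            have : (c 0 ^ 2) • TM π 0 + (1 + c 0 * c 1) • TM π 1 =
              TM π 1 + c 0 • (c 0 • TM π 0 + c 1 • TM π 1) := by module
            rw [this, hc, smul_zero, add_zero])
      have hid : ∀ x, em_F 1 !![1 - c 0 * c 1, c 0 ^ 2; -c 1 ^ 2, 1 + c 0 * c 1] x = x := by
        intro x
        rw [← hg]
        exact hf g h ht x
      obtain ⟨-, -, -, -, k1, k2, -⟩ := em_scalar hid
      simp at k1 k2
      intro i
      fin_cases i
      · exact k1
      · exact k2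
    refine ⟨hli, ?_⟩
    intro a ha hpl
    obtain ⟨b, hb, H⟩ := em_coef hli a ha hpl
    obtain ⟨g, h, ht, hg⟩ := em_mk hp a b ha hb H
    have hid : ∀ x, em_F a b x = x := by
      intro x
      rw [← hg]
      exact hf g h ht x
    obtain ⟨k1, k2, k3, k4, -, -, -⟩ := em_scalar hid
    have hb0 : b 0 0 ≠ 0 := by
      intro h0
      rw [h0, mul_zero] at k1
      exact one_ne_zero k1.symm
    refine ⟨(mul_eq_zero.1 k3).resolve_right hb0, (mul_eq_zero.1 k4).resolve_right hb0, ?_⟩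
    exact mul_right_cancel₀ hb0 (k1.trans k2.symm)
  · rintro ⟨hli, hpl⟩ g h ht v
    obtain ⟨a, b, ha, hb, hg, H⟩ := em_trans hp ht
    obtain ⟨a01, a10, a00⟩ := hpl a ha (em_plane a b ha hb H)
    obtain ⟨l, hl⟩ : ∃ l, l = a 1 1 := ⟨_, rfl⟩
    have ha' : a = !![l, 0; 0, l] := by
      ext i j
      fin_cases i <;> fin_cases j
      · exact a00.trans hl.symm
      · exact a01
      · exact a10
      · exact hl.symm
    have hdeta : a.det = l ^ 2 := by
      rw [ha', Matrix.det_fin_two_of]; ring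
    have hl0 : l ≠ 0 := by
      intro h0
      rw [hdeta, h0] at ha
      simp at ha
    have hact : ∀ T : Matrix (Fin 3) (Fin 2) (ZMod p), actM a T = l ^ 3 • T := by
      intro T
      change sq a * T * a.adjugate = l ^ 3 • T
      have e1 : sq a = l ^ 2 • (1 : Matrix (Fin 3) (Fin 3) (ZMod p)) := by
        rw [ha']
        ext i j
        fin_cases i <;> fin_cases j <;> simp [sq] <;> ring
      have e2 : a.adjugate = l • (1 : Matrix (Fin 2) (Fin 2) (ZMod p)) := by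
        rw [ha', Matrix.adjugate_fin_two_of]
        ext i j
        fin_cases i <;> fin_cases j <;> simp
      rw [e1, e2, Matrix.smul_mul, Matrix.one_mul, Matrix.mul_smul, Matrix.mul_one, smul_smul]
      congr 1
      ring
    have H0 := H 0
    have H1 := H 1
    rw [hact, hdeta] at H0 H1
    have H0' : (b.det * l ^ 3) • TM π 0 + (0 : ZMod p) • TM π 1 =
        (l ^ 2 * b 0 0) • TM π 0 + (l ^ 2 * b 1 0) • TM π 1 := by
      rw [zero_smul, add_zero, mul_smul, H0]
      module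
    have H1' : (0 : ZMod p) • TM π 0 + (b.det * l ^ 3) • TM π 1 =
        (l ^ 2 * b 0 1) • TM π 0 + (l ^ 2 * b 1 1) • TM π 1 := by
      rw [zero_smul, zero_add, mul_smul, H1]
      module
    obtain ⟨m1, m2⟩ := em_li hli H0'
    obtain ⟨m3, m4⟩ := em_li hli H1'
    have hl2 : l ^ 2 ≠ 0 := pow_ne_zero 2 hl0
    have b10 : b 1 0 = 0 := (mul_eq_zero.1 m2.symm).resolve_left hl2
    have b01 : b 0 1 = 0 := (mul_eq_zero.1 m3.symm).resolve_left hl2
    have b00 : b 0 0 = b.det * l := by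
      apply mul_left_cancel₀ hl2
      rw [← m1]; ring
    have b11 : b 1 1 = b.det * l := by
      apply mul_left_cancel₀ hl2
      rw [← m4]; ring
    have hdetb : b.det = (b.det * l) ^ 2 := by
      conv_lhs => rw [Matrix.det_fin_two, b01, b10, b00, b11]
      ring
    have hlb : l * (b.det * l) = 1 := by
      apply mul_left_cancel₀ hb
      linear_combination -hdetb
    rw [hg]
    ext i
    have e00 : a 0 0 = l := by rw [ha']; rfl
    have e11 : a 1 1 = l := by rw [ha']; rfl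
    fin_cases i
    · simp only [em_F, a01, a10, b01, b10, e00, e11, b00, b11]
      simp
      linear_combination v 0 * hlb
    · simp only [em_F, a01, a10, b01, b10, e00, e11, b00, b11]
      simp
      linear_combination v 1 * hlb
    · simp only [em_F, a01, a10, b01, b10, e00, e11, b00, b11]
      simp
      linear_combination v 2 * hlb
    · simp only [em_F, a01, a10, b01, b10, e00, e11, b00, b11]
      simp
      linear_combination v 3 * hlb

/-- [M7 EM] Type M: isomorphism. PROOF: as before the condition `π' (g x) = h (π x)` for `g = a ⊗ b` is `T'_{b y} = det b / det a • sq a * T_y * adj a`. (→) clear. (←) if `planeM π' = a • planeM π`, let `b'` be defined by `T'_{b' y} = sq a * T_y * adj a / det a` and `b = b' / det b'`. -/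
theorem datM_eqv (hp : p ≠ 2) (π π' : VV p →ₗ[ZMod p] WW p) (hπ : LinearIndependent (ZMod p) (TM π))
    (hπ' : LinearIndependent (ZMod p) (TM π')) :
    (datM π).Eqv (datM π') ↔
      ∃ a : Matrix (Fin 2) (Fin 2) (ZMod p), a.det ≠ 0 ∧ (planeM π).map (actM a) = planeM π' := by
  have _ := hπ
  constructor
  · rintro ⟨g, h, ht⟩
    obtain ⟨a, b, ha, hb, -, H⟩ := em_trans hp ht
    exact ⟨a, ha, em_plane a b ha hb H⟩
  · rintro ⟨a, ha, hpl⟩
    obtain ⟨b, hb, H⟩ := em_coef hπ' a ha hpl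
    obtain ⟨g, h, ht, -⟩ := em_mk hp a b ha hb H
    exact ⟨g, h, ht⟩

end MP_02e52a.M7
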