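import Pool.Agent.Lib.MP_02e52a_al.M7.Defs

namespace MP_02e52a.M7

private theorem key_zero {B C : Type*} [AddCommGroup B] [AddCommGroup C] {ι : Type*} [Fintype ι]
    (S : AddSubgroup B) (x : ι → B) (N : ι → ℕ)
    (hN : ∀ i, N i • x i ∈ S)
    (ind : ∀ k : ι → ℤ, ∑ i, k i • x i ∈ S → ∀ i, (N i : ℤ) ∣ k i)
    (f : S →+ C) (y : ι → C) (hy : ∀ i, N i • y i = f ⟨N i • x i, hN i⟩)
    (s : S) (k : ι → ℤ) (h : (s : B) + ∑ i, k i • x i = 0) : f s + ∑ i, k i • y i = 0 := by
  have h1 : ∑ i, k i • x i = -(s : B) := by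
    rw [eq_neg_iff_add_eq_zero, add_comm]
    exact h
  have h2 : ∑ i, k i • x i ∈ S := by
    rw [h1]
    exact S.neg_mem s.2
  choose m hm using ind k h2
  have h3 : s = -∑ i, m i • (⟨N i • x i, hN i⟩ : S) := by
    apply Subtype.ext
    rw [AddSubgroup.coe_neg, AddSubgroup.val_finsetSum]
    rw [eq_neg_iff_add_eq_zero, ← h]
    congr 1
    refine Finset.sum_congr rfl fun i _ => ?_
    rw [AddSubgroup.coe_zsmul, hm i, mul_comm, mul_zsmul, natCast_zsmul]
  rw [h3, map_neg, map_sum, neg_add_eq_zero]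
  refine Finset.sum_congr rfl fun i _ => ?_
  rw [map_zsmul, ← hy i, hm i, mul_comm, mul_zsmul, natCast_zsmul]

private noncomputable def phi {B C : Type*} [AddCommGroup B] [AddCommGroup C] {ι : Type*} [Fintype ι]
    (S : AddSubgroup B) (f : S →+ C) (y : ι → C) : S × (ι → ℤ) →+ C where
  toFun p := f p.1 + ∑ i, p.2 i • y i
  map_zero' := by simp
  map_add' p q := by
    simp only [Prod.fst_add, Prod.snd_add, Pi.add_apply, add_zsmul, Finset.sum_add_distrib,
      map_add]
    abel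

private theorem phi_apply {B C : Type*} [AddCommGroup B] [AddCommGroup C] {ι : Type*} [Fintype ι]
    (S : AddSubgroup B) (f : S →+ C) (y : ι → C) (s : S) (k : ι → ℤ) :
    phi S f y (s, k) = f s + ∑ i, k i • y i := rfl

/-- [M7 X1] Extension of homomorphisms. PROOF: consider `Φ : S × (ι → ℤ) →+ B`, `Φ (s, k) = s + ∑ k i • x i`
(surjective by `gen`) and `Ψ : S × (ι → ℤ) →+ C`, `Ψ (s, k) = f s + ∑ k i • y i`. Claim: `Φ (s, k) = 0`
implies `Ψ (s, k) = 0`: then `∑ k i • x i = -s ∈ S`, so by `ind` `k i = N i * m i`, hence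
`s = - ∑ m i • (N i • x i)` in `S`, and `f s = - ∑ m i • (N i • y i)` by `hy`, so `Ψ = 0`. Therefore `Ψ`
factors through `Φ`: define `F b = Ψ (any preimage)` (e.g. `AddMonoidHom.liftOfRightInverse` with
`Function.surjInv`, or define `F` by choice and prove additivity directly). Then `F s = Ψ (s, 0) = f s`,
`F (x i) = Ψ (0, Pi.single i 1) = y i`. -/
theorem ext_hom {B C : Type*} [AddCommGroup B] [AddCommGroup C] {ι : Type*} [Fintype ι]
    (S : AddSubgroup B) (x : ι → B) (N : ι → ℕ)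
    (hN : ∀ i, N i • x i ∈ S)
    (gen : ∀ b : B, ∃ k : ι → ℤ, b - ∑ i, k i • x i ∈ S)
    (ind : ∀ k : ι → ℤ, ∑ i, k i • x i ∈ S → ∀ i, (N i : ℤ) ∣ k i)
    (f : S →+ C) (y : ι → C) (hy : ∀ i, N i • y i = f ⟨N i • x i, hN i⟩) :
    ∃ F : B →+ C, (∀ s : S, F s = f s) ∧ ∀ i, F (x i) = y i := by
  classical
  have hsurj : Function.Surjective (phi S S.subtype x) := by
    intro b
    obtain ⟨k, hk⟩ := gen b
    refine ⟨(⟨_, hk⟩, k), ?_⟩
    rw [phi_apply]
    simp
  have hker : (phi S S.subtype x).ker ≤ (phi S f y).ker := by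
    rintro ⟨s, k⟩ h
    rw [AddMonoidHom.mem_ker, phi_apply] at h ⊢
    exact key_zero S x N hN ind f y hy s k h
  have hr := Function.rightInverse_surjInv hsurj
  refine ⟨(phi S S.subtype x).liftOfRightInverse _ hr ⟨phi S f y, hker⟩, ?_, ?_⟩
  · intro s
    have h := AddMonoidHom.liftOfRightInverse_comp_apply (phi S S.subtype x) _ hr
      ⟨phi S f y, hker⟩ (s, 0)
    simpa [phi_apply] using h
  · intro i
    have h := AddMonoidHom.liftOfRightInverse_comp_apply (phi S S.subtype x) _ hr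
      ⟨phi S f y, hker⟩ (0, Pi.single i 1)
    simpa [phi_apply, Pi.single_apply, ite_smul] using h

/-- [M7 X1] Version with an automorphism: if in addition `B = C` is finite, `f` is injective with values in
`S`, and `∑ k i • y i ∈ S → ∀ i, N i ∣ k i`, then `F` is bijective. PROOF: injective: if
`F b = 0` write `b = s + ∑ k i • x i`, so `f s + ∑ k i • y i = 0`, hence `∑ k i • y i = - f s ∈ S`,
`k i = N i * m i`, so `b = s + ∑ m i • (N i • x i) ∈ S`, and `0 = F b = f b` gives `b = 0`. A finite injective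
endomorphism is bijective (`Finite.injective_iff_bijective`). -/
theorem ext_equiv {B : Type*} [AddCommGroup B] [Finite B] {ι : Type*} [Fintype ι]
    (S : AddSubgroup B) (x : ι → B) (N : ι → ℕ)
    (hN : ∀ i, N i • x i ∈ S)
    (gen : ∀ b : B, ∃ k : ι → ℤ, b - ∑ i, k i • x i ∈ S)
    (ind : ∀ k : ι → ℤ, ∑ i, k i • x i ∈ S → ∀ i, (N i : ℤ) ∣ k i)
    (f : S →+ S) (hf : Function.Injective f) (y : ι → B)
    (hy : ∀ i, N i • y i = (f ⟨N i • x i, hN i⟩ : B))
    (indy : ∀ k : ι → ℤ, ∑ i, k i • y i ∈ S → ∀ i, (N i : ℤ) ∣ k i) :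
    ∃ F : B ≃+ B, (∀ s : S, F s = f s) ∧ ∀ i, F (x i) = y i := by
  obtain ⟨F, hF1, hF2⟩ := ext_hom S x N hN gen ind (S.subtype.comp f) y hy
  have hinj : Function.Injective F := by
    rw [injective_iff_map_eq_zero]
    intro b hb
    obtain ⟨k, hk⟩ := gen b
    have h1 : (f ⟨_, hk⟩ : B) + ∑ i, k i • y i = 0 := by
      have h2 := hF1 ⟨_, hk⟩
      have h3 : F (∑ i, k i • x i) = ∑ i, k i • y i := by
        rw [map_sum]
        exact Finset.sum_congr rfl fun i _ => by rw [map_zsmul, hF2]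
      rw [← h3]
      have h4 : (f ⟨_, hk⟩ : B) = F (b - ∑ i, k i • x i) := h2.symm
      rw [h4, ← map_add, sub_add_cancel, hb]
    have h2 : ∑ i, k i • y i ∈ S := by
      have : ∑ i, k i • y i = -(f ⟨_, hk⟩ : B) := by
        rw [eq_neg_iff_add_eq_zero, add_comm]
        exact h1
      rw [this]
      exact S.neg_mem (f ⟨_, hk⟩).2
    choose m hm using indy k h2
    have h5 : b ∈ S := by
      have h6 : ∑ i, k i • x i ∈ S := by
        refine S.sum_mem fun i _ => ?_
        rw [hm i, mul_comm, mul_zsmul, natCast_zsmul]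
        exact S.zsmul_mem (hN i) _
      have := S.add_mem hk h6
      rwa [sub_add_cancel] at this
    have h6 := hF1 ⟨b, h5⟩
    rw [hb] at h6
    have h7 : f ⟨b, h5⟩ = 0 := by
      apply Subtype.ext
      exact h6.symm
    have h8 := (injective_iff_map_eq_zero f).1 hf _ h7
    exact congrArg Subtype.val h8
  have hbij := Finite.injective_iff_bijective.1 hinj
  exact ⟨AddEquiv.ofBijective F hbij, fun s => hF1 s, fun i => hF2 i⟩

end MP_02e52a.M7
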