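import Pool.Agent.Lib.MP_02e52a_al.M7.G8

namespace MP_02e52a.M7

variable {p : ℕ} [Fact p.Prime]

private theorem g9_split (d : Dat p) (x : Grp d) : x = (⟨x.v, 0⟩ : Grp d) * ⟨0, x.w⟩ := by
  ext1
  · simp
  · simp only [Grp.mul_w, map_zero, smul_zero, add_zero, zero_add, carry_comm x.v 0,
      carry_zero_left]

/-- structure of the automorphisms of a free group datum -/
private theorem g9_dec (hp2 : p ≠ 2) (d : Dat p) (ho : d.Onto) (hn : d.Nondeg) (hf : d.Free)
    (a : MulAut (Grp d)) :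
    ∃ τ : VV p →ₗ[ZMod p] WW p, ∀ x : Grp d, a x = ⟨x.v, x.w + τ x.v⟩ := by
  obtain ⟨g, h, ht, h1, h2⟩ := trans_of_mulEquiv hp2 d d hn hn a
  have hg : ∀ v, g v = v := hf g h ht
  have hh : ∀ w, h w = w := by
    intro w
    have hw : w ∈ Submodule.span (ZMod p) {w | ∃ u v, w = d.β u v} := by
      rw [show Submodule.span (ZMod p) {w | ∃ u v, w = d.β u v} = ⊤ from ho]; trivial
    induction hw using Submodule.span_induction with
    | mem x hx =>
      obtain ⟨u, v, rfl⟩ := hx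
      rw [ht.1, hg, hg]
    | zero => exact map_zero h
    | add x y _ _ hx hy => rw [map_add, hx, hy]
    | smul c x _ hx => rw [map_smul, hx]
  have hv : ∀ x : Grp d, (a x).v = x.v := fun x => (h1 x).trans (hg _)
  have hw : ∀ w, a ⟨0, w⟩ = ⟨0, w⟩ := fun w => by rw [h2, hh]
  have hform : ∀ x : Grp d, a x = ⟨x.v, x.w + (a ⟨x.v, 0⟩).w⟩ := by
    intro x
    ext1
    · exact hv x
    · conv_lhs => rw [g9_split d x, map_mul, hw]
      simp only [Grp.mul_w, hv, map_zero, smul_zero, add_zero,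
        carry_comm x.v 0, carry_zero_left]
      exact add_comm _ _
  have hadd : ∀ u v : VV p, (a ⟨u + v, 0⟩).w = (a ⟨u, 0⟩).w + (a ⟨v, 0⟩).w := by
    intro u v
    have e1 : a ((⟨u, 0⟩ : Grp d) * ⟨v, 0⟩) = a ⟨u, 0⟩ * a ⟨v, 0⟩ := map_mul a _ _
    rw [hform ((⟨u, 0⟩ : Grp d) * ⟨v, 0⟩)] at e1
    have e2 := congrArg Grp.w e1
    simp only [Grp.mul_w, Grp.mul_v, hv, zero_add] at e2
    have e3 : (2 : ZMod p)⁻¹ • (d.β u) v + d.π (carry u v) + (a ⟨u + v, 0⟩).w =
        (2 : ZMod p)⁻¹ • (d.β u) v + d.π (carry u v) + ((a ⟨u, 0⟩).w + (a ⟨v, 0⟩).w) := by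
      rw [e2]; abel
    exact add_left_cancel e3
  refine ⟨(AddMonoidHom.mk' (fun v => (a ⟨v, 0⟩).w) hadd).toZModLinearMap p, fun x => ?_⟩
  exact hform x

/-- the automorphism attached to a linear map -/
private def g9_mk (d : Dat p) (τ : VV p →ₗ[ZMod p] WW p) : MulAut (Grp d) where
  toFun x := ⟨x.v, x.w + τ x.v⟩
  invFun x := ⟨x.v, x.w - τ x.v⟩
  left_inv x := by
    ext1
    · rfl
    · simp
  right_inv x := by
    ext1
    · rfl
    · simp
  map_mul' x y := by
    ext1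
    · rfl
    · simp only [Grp.mul_w, Grp.mul_v, map_add]
      abel

private theorem g9_mk_apply (d : Dat p) (τ : VV p →ₗ[ZMod p] WW p) (x : Grp d) :
    g9_mk d τ x = ⟨x.v, x.w + τ x.v⟩ := rfl

private theorem g9_bij (hp2 : p ≠ 2) (d : Dat p) (ho : d.Onto) (hn : d.Nondeg) (hf : d.Free) :
    Function.Bijective (g9_mk d) := by
  constructor
  · intro τ τ' h
    refine LinearMap.ext fun v => ?_
    have h1 := congrArg (fun f : MulAut (Grp d) => (f ⟨v, 0⟩).w) h
    simpa only [g9_mk_apply, zero_add] using h1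
  · intro a
    obtain ⟨τ, hτ⟩ := g9_dec hp2 d ho hn hf a
    exact ⟨τ, MulEquiv.ext fun x => by rw [hτ x, g9_mk_apply]⟩

private theorem g9_mk_pow (d : Dat p) (τ : VV p →ₗ[ZMod p] WW p) (n : ℕ) :
    g9_mk d τ ^ n = g9_mk d (n • τ) := by
  induction n with
  | zero =>
    refine MulEquiv.ext fun x => ?_
    rw [pow_zero, zero_smul, g9_mk_apply]
    ext1
    · rfl
    · simp
  | succ n ih =>
    rw [pow_succ, ih]
    refine MulEquiv.ext fun x => ?_
    rw [MulAut.mul_apply, g9_mk_apply, g9_mk_apply, g9_mk_apply]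
    ext1
    · rfl
    · simp only [succ_nsmul, LinearMap.add_apply]
      abel

/-- [M7 G9] PROOF. (→) If `(g, h)` stabilises `d`, `mulEquiv_of_trans` gives an automorphism `f` with `(f x).v = g x.v`. `f` commutes with the inner automorphism by `x`: `f (x y x⁻¹) = x f(y) x⁻¹` for all `y`, so `f x` and `x` induce the same inner
automorphism (`f` onto), `x⁻¹ * f x` is central, `g x.v = x.v` by `grp_center`. (←) Let `a` be an automorphism; `trans_of_mulEquiv` (`d' = d`) gives `g, h` stabilising `d`, so `g = 1`, and `h = 1` on the values of `β`, so `h = 1` by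
`Onto`. Hence `(a x).v = x.v`, `a (0, w) = (0, w)`, and `a x = x * (0, τ x)` with `τ x = (a x).w - x.w`; `τ (x * (0, w)) = τ x`. For two automorphisms `a (b x) = a (x * (0, τ_b x)) = x (0, τ_a x) (0, τ_b x) = b (a x)`. -/
theorem autComm_iff_free (hp2 : p ≠ 2) (d : Dat p) (ho : d.Onto) (hn : d.Nondeg) : AutComm (Grp d) ↔ d.Free := by
  constructor
  · intro hc g h ht v
    obtain ⟨f, hf⟩ := mulEquiv_of_trans d d g h ht
    have hcen : (⟨v, 0⟩ : Grp d)⁻¹ * f ⟨v, 0⟩ ∈ Subgroup.center (Grp d) := by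
      rw [Subgroup.mem_center_iff]
      intro z
      obtain ⟨y, rfl⟩ := f.surjective z
      have h1 := congrArg (fun e : MulAut (Grp d) => e y) (hc f (MulAut.conj ⟨v, 0⟩))
      simp only [MulAut.mul_apply, MulAut.conj_apply] at h1
      have h1' : f ((⟨v, 0⟩ : Grp d) * y * (⟨v, 0⟩ : Grp d)⁻¹) =
        (⟨v, 0⟩ : Grp d) * f y * (⟨v, 0⟩ : Grp d)⁻¹ := h1
      rw [map_mul, map_mul, map_inv] at h1'
      have h2 : f ⟨v, 0⟩ * f y = (⟨v, 0⟩ : Grp d) * f y * (⟨v, 0⟩ : Grp d)⁻¹ * f ⟨v, 0⟩ := by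
        rw [← h1']; group
      have h3 : (⟨v, 0⟩ : Grp d)⁻¹ * (f ⟨v, 0⟩ * f y) =
          f y * ((⟨v, 0⟩ : Grp d)⁻¹ * f ⟨v, 0⟩) := by
        rw [h2]; group
      rw [← h3]; group
    rw [grp_center hp2 d hn] at hcen
    rw [Grp.mul_v, Grp.inv_v, hf] at hcen
    have h4 : -v + g v = 0 := hcen
    rw [neg_add_eq_zero] at h4
    exact h4.symm
  · intro hf a b
    obtain ⟨τ, hτ⟩ := g9_dec hp2 d ho hn hf a
    obtain ⟨σ, hσ⟩ := g9_dec hp2 d ho hn hf b
    refine MulEquiv.ext fun x => ?_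
    rw [MulAut.mul_apply, MulAut.mul_apply, hσ x, hτ x, hτ, hσ]
    ext1
    · rfl
    · simp only
      abel

/-- [M7 G9] If `d` is free, `Aut (Grp d)` is elementary abelian of order `p^12`. PROOF. As above every automorphism has the form `a x = x * (0, τ x)` where `τ` depends only on `x.v` and is additive in `x.v`, i.e. `τ ∈ Hom (V, W)`; conversely every linear
`τ : V → W` gives an automorphism `x ↦ x * (0, τ x.v)`, and composition is addition of `τ`. `|Hom (V, W)| = p^12`. -/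
theorem aut_free (hp2 : p ≠ 2) (d : Dat p) (ho : d.Onto) (hn : d.Nondeg) (hf : d.Free) :
    (∀ a : MulAut (Grp d), a ^ p = 1) ∧ Nat.card (MulAut (Grp d)) = p ^ 12 := by
  have hb := g9_bij hp2 d ho hn hf
  constructor
  · intro a
    obtain ⟨τ, rfl⟩ := hb.2 a
    rw [g9_mk_pow]
    have h0 : p • τ = 0 := by
      rw [← Nat.cast_smul_eq_nsmul (ZMod p), ZMod.natCast_self, zero_smul]
    rw [h0]
    refine MulEquiv.ext fun x => ?_
    rw [g9_mk_apply]
    ext1
    · rfl
    · simp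
  · rw [← Nat.card_congr (Equiv.ofBijective _ hb),
      Module.natCard_eq_pow_finrank (K := ZMod p), Module.finrank_linearMap, Nat.card_zmod]
    simp

end MP_02e52a.M7
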