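import Pool.Agent.Lib.MP_02e52a_al.M7.FinDefs
import Pool.Agent.Lib.MP_02e52a_al.M7.G9

/-! # Equivalence of data, transport -/

namespace MP_02e52a.M7

variable {p : ℕ} [Fact p.Prime]

theorem Dat.Eqv.refl (d : Dat p) : d.Eqv d :=
  ⟨LinearEquiv.refl _ _, LinearEquiv.refl _ _, fun _ _ => rfl, fun _ => rfl⟩

theorem Dat.Eqv.symm {d d' : Dat p} (h : d.Eqv d') : d'.Eqv d := by
  obtain ⟨g, k, h1, h2⟩ := h
  refine ⟨g.symm, k.symm, fun u v => ?_, fun v => ?_⟩
  · have := h1 (g.symm u) (g.symm v)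
    rw [LinearEquiv.apply_symm_apply, LinearEquiv.apply_symm_apply] at this
    rw [← this, LinearEquiv.symm_apply_apply]
  · have := h2 (g.symm v)
    rw [LinearEquiv.apply_symm_apply] at this
    rw [← this, LinearEquiv.symm_apply_apply]

theorem Dat.Eqv.trans {d d' d'' : Dat p} (h : d.Eqv d') (h' : d'.Eqv d'') : d.Eqv d'' := by
  obtain ⟨g, k, h1, h2⟩ := h
  obtain ⟨g', k', h1', h2'⟩ := h'
  refine ⟨g.trans g', k.trans k', fun u v => ?_, fun v => ?_⟩
  · simp only [LinearEquiv.trans_apply]; rw [h1, h1']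
  · simp only [LinearEquiv.trans_apply]; rw [h2, h2']

theorem Dat.Eqv.free {d d' : Dat p} (h : d.Eqv d') (hf : d.Free) : d'.Free := by
  obtain ⟨g, k, h1, h2⟩ := h
  intro g' k' ⟨a1, a2⟩ v
  have := hf (g.trans (g'.trans g.symm)) (k.trans (k'.trans k.symm)) ?_ (g.symm v)
  · simp only [LinearEquiv.trans_apply, LinearEquiv.apply_symm_apply] at this
    exact g.symm.injective this
  · refine ⟨fun u v => ?_, fun v => ?_⟩
    · simp only [LinearEquiv.trans_apply]
      rw [h1, a1, LinearEquiv.symm_apply_eq, h1, LinearEquiv.apply_symm_apply,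
        LinearEquiv.apply_symm_apply]
    · simp only [LinearEquiv.trans_apply]
      rw [h2, a2, LinearEquiv.symm_apply_eq, h2, LinearEquiv.apply_symm_apply]

theorem Dat.Eqv.free_iff {d d' : Dat p} (h : d.Eqv d') : d.Free ↔ d'.Free :=
  ⟨h.free, h.symm.free⟩

theorem Dat.Eqv.eqvBil {d d' : Dat p} (h : d.Eqv d') : EqvBil d.β d'.β := by
  obtain ⟨g, k, h1, _⟩ := h
  exact ⟨g, k, h1⟩

/-- transport of `π` along an equivalence of the alternating maps -/
theorem exists_transport (d : Dat p) (β' : VV p →ₗ[ZMod p] VV p →ₗ[ZMod p] WW p)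
    (alt' : ∀ v, β' v v = 0) (e : EqvBil d.β β') : ∃ π', d.Eqv ⟨β', alt', π'⟩ := by
  obtain ⟨g, k, h⟩ := e
  refine ⟨k.toLinearMap ∘ₗ d.π ∘ₗ g.symm.toLinearMap, g, k, h, fun v => ?_⟩
  simp

theorem nondeg_netK (δ : ZMod p) (π) : (datK δ π).Nondeg := by
  intro u hu
  have h0 := hu (Pi.single 0 1)
  have h1 := hu (Pi.single 1 1)
  have h2 := hu (Pi.single 2 1)
  have h3 := hu (Pi.single 3 1)
  have e10 := congrFun h1 2
  have e00 := congrFun h0 2
  have e02 := congrFun h0 0
  have e03 := congrFun h0 1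
  simp [datK] at e10 e00 e02 e03
  ext i
  fin_cases i
  · simpa using e10
  · simpa using e00
  · simpa using e02
  · simpa using e03

theorem onto_netK (δ : ZMod p) (π) : (datK δ π).Onto := by
  rw [Dat.Onto, eq_top_iff]
  intro w _
  have key : w = w 0 • (datK δ π).β (Pi.single 0 1) (Pi.single 2 1) +
      w 1 • (datK δ π).β (Pi.single 0 1) (Pi.single 3 1) +
      w 2 • (datK δ π).β (Pi.single 0 1) (Pi.single 1 1) := by
    ext i; fin_cases i <;> simp [datK]
  rw [key]
  refine Submodule.add_mem _ (Submodule.add_mem _ (Submodule.smul_mem _ _ ?_)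
    (Submodule.smul_mem _ _ ?_)) (Submodule.smul_mem _ _ ?_) <;>
  exact Submodule.subset_span ⟨_, _, rfl⟩

theorem nondeg_netM (π : VV p →ₗ[ZMod p] WW p) : (datM π).Nondeg := by
  intro u hu
  have h0 := hu (Pi.single 0 1)
  have h1 := hu (Pi.single 1 1)
  have h2 := hu (Pi.single 2 1)
  have h3 := hu (Pi.single 3 1)
  have e1 := congrFun h1 0
  have e0 := congrFun h0 0
  have e2 := congrFun h2 1
  have e3 := congrFun h3 1
  simp [datM] at e1 e0 e2 e3
  ext i
  fin_cases i
  · simpa using e1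
  · simpa using e0
  · simpa using e3
  · simpa using e2

theorem onto_netM (π : VV p →ₗ[ZMod p] WW p) : (datM π).Onto := by
  rw [Dat.Onto, eq_top_iff]
  intro w _
  have key : w = w 0 • (datM π).β (Pi.single 0 1) (Pi.single 1 1) +
      w 1 • (datM π).β (Pi.single 2 1) (Pi.single 3 1) +
      w 2 • (datM π).β (Pi.single 0 1) (Pi.single 3 1) := by
    ext i; fin_cases i <;> simp [datM]
  rw [key]
  refine Submodule.add_mem _ (Submodule.add_mem _ (Submodule.smul_mem _ _ ?_)
    (Submodule.smul_mem _ _ ?_)) (Submodule.smul_mem _ _ ?_) <;>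
  exact Submodule.subset_span ⟨_, _, rfl⟩

theorem nondeg_netH (π : VV p →ₗ[ZMod p] WW p) : (datH π).Nondeg := by
  intro u hu
  have h0 := hu (Pi.single 0 1)
  have h1 := hu (Pi.single 1 1)
  have h2 := hu (Pi.single 2 1)
  have h3 := hu (Pi.single 3 1)
  have e1 := congrFun h1 0
  have e0 := congrFun h0 0
  have e2 := congrFun h2 1
  have e3 := congrFun h3 1
  simp [datH] at e1 e0 e2 e3
  ext i
  fin_cases i
  · simpa using e1
  · simpa using e0
  · simpa using e3
  · simpa using e2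

theorem onto_netH (π : VV p →ₗ[ZMod p] WW p) : (datH π).Onto := by
  rw [Dat.Onto, eq_top_iff]
  intro w _
  have key : w = w 0 • (datH π).β (Pi.single 0 1) (Pi.single 1 1) +
      w 1 • (datH π).β (Pi.single 2 1) (Pi.single 3 1) +
      w 2 • (datH π).β (Pi.single 0 1) (Pi.single 2 1) := by
    ext i; fin_cases i <;> simp [datH]
  rw [key]
  refine Submodule.add_mem _ (Submodule.add_mem _ (Submodule.smul_mem _ _ ?_)
    (Submodule.smul_mem _ _ ?_)) (Submodule.smul_mem _ _ ?_) <;>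
  exact Submodule.subset_span ⟨_, _, rfl⟩

/-- isomorphic groups have equivalent data and conversely -/
theorem grp_iso_iff (hp : p ≠ 2) (d d' : Dat p) (hn : d.Nondeg) (hn' : d'.Nondeg) :
    Nonempty (Grp d ≃* Grp d') ↔ d.Eqv d' := by
  constructor
  · rintro ⟨f⟩
    obtain ⟨g, h, ht, _⟩ := trans_of_mulEquiv hp d d' hn hn' f
    exact ⟨g, h, ht⟩
  · rintro ⟨g, h, ht⟩
    obtain ⟨f, _⟩ := mulEquiv_of_trans d d' g h ht
    exact ⟨f⟩

end MP_02e52a.M7
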