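import Pool.Agent.Lib.MP_02e52a_al.M7.NetDefs

namespace MP_02e52a.M7

variable {p : ℕ} [Fact p.Prime]

/-- the functionals `t` (coefficient vectors) whose form `∑ t k * β u v k` is degenerate -/
def degSet (β : VV p →ₗ[ZMod p] VV p →ₗ[ZMod p] WW p) : Set (Fin 3 → ZMod p) :=
  {t | ∃ v : VV p, v ≠ 0 ∧ ∀ x, ∑ k, t k * β v x k = 0}

/-- [M7 NU] PROOF: an alternating form on `F^4` with matrix entries `f i j` is degenerate iff its Pfaffian `f01 f23 - f02 f13 + f03 f12` is `0` (if the Pfaffian is `0` see the explicit kernel vectors in N1; if a nonzero `v` is in the kernel, then the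
determinant of the matrix, which is the square of the Pfaffian, vanishes). For `netK δ`: `f01 = t 2, f02 = t 0, f13 = δ t 0, f03 = t 1, f12 = t 1, f23 = 0`: Pfaffian `t 1 ^ 2 - δ t 0 ^ 2`. -/
theorem degSet_netK (δ : ZMod p) : degSet (netK δ) = {t | t 1 ^ 2 = δ * t 0 ^ 2} := by
  ext t
  simp only [degSet, Set.mem_ofPred_eq, netK_apply, Fin.sum_univ_three]
  constructor
  · rintro ⟨v, hv, h⟩
    by_contra hD
    have hD' : t 1 ^ 2 - δ * t 0 ^ 2 ≠ 0 := sub_ne_zero.2 hD
    have h0 := h (Pi.single 0 1)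
    have h1 := h (Pi.single 1 1)
    have h2 := h (Pi.single 2 1)
    have h3 := h (Pi.single 3 1)
    simp at h0 h1 h2 h3
    have e0 : (t 1 ^ 2 - δ * t 0 ^ 2) * v 0 = 0 := by linear_combination t 1 * h3 - δ * t 0 * h2
    have e1 : (t 1 ^ 2 - δ * t 0 ^ 2) * v 1 = 0 := by linear_combination t 1 * h2 - t 0 * h3
    have v0 : v 0 = 0 := (mul_eq_zero.1 e0).resolve_left hD'
    have v1 : v 1 = 0 := (mul_eq_zero.1 e1).resolve_left hD'
    have e2 : (t 1 ^ 2 - δ * t 0 ^ 2) * v 2 = 0 := by
      linear_combination -t 1 * h1 + δ * t 0 * h0 + t 1 * t 2 * v0 + δ * t 0 * t 2 * v1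
    have e3 : (t 1 ^ 2 - δ * t 0 ^ 2) * v 3 = 0 := by
      linear_combination -t 1 * h0 + t 0 * h1 - t 1 * t 2 * v1 - t 0 * t 2 * v0
    have v2 : v 2 = 0 := (mul_eq_zero.1 e2).resolve_left hD'
    have v3 : v 3 = 0 := (mul_eq_zero.1 e3).resolve_left hD'
    apply hv
    ext i
    fin_cases i
    · exact v0
    · exact v1
    · exact v2
    · exact v3
  · intro hD
    by_cases h01 : t 0 = 0 ∧ t 1 = 0
    · refine ⟨Pi.single 2 1, ?_, fun x => ?_⟩
      · intro h
        have := congrFun h 2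
        simp at this
      · simp [h01.1, h01.2]
    · refine ⟨![0, 0, t 1, -t 0], ?_, fun x => ?_⟩
      · intro h
        apply h01
        have h2 := congrFun h 2
        have h3 := congrFun h 3
        simp at h2 h3
        exact ⟨h3, h2⟩
      · simp
        linear_combination (-x 1) * hD

/-- [M7 NU] `netM`: `f01 = t 0, f23 = t 1, f03 = t 2, f12 = - t 2, f02 = f13 = 0`: Pfaffian `t 0 t 1 - t 2 ^ 2`. -/
theorem degSet_netM : degSet (netM (p := p)) = {t | t 0 * t 1 = t 2 ^ 2} := by
  ext t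
  simp only [degSet, Set.mem_ofPred_eq, netM_apply, Fin.sum_univ_three]
  constructor
  · rintro ⟨v, hv, h⟩
    by_contra hD
    have hD' : t 0 * t 1 - t 2 ^ 2 ≠ 0 := sub_ne_zero.2 hD
    have h0 := h (Pi.single 0 1)
    have h1 := h (Pi.single 1 1)
    have h2 := h (Pi.single 2 1)
    have h3 := h (Pi.single 3 1)
    simp at h0 h1 h2 h3
    have e1 : (t 0 * t 1 - t 2 ^ 2) * v 1 = 0 := by linear_combination -t 1 * h0 + t 2 * h2
    have e3 : (t 0 * t 1 - t 2 ^ 2) * v 3 = 0 := by linear_combination -t 0 * h2 + t 2 * h0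
    have e0 : (t 0 * t 1 - t 2 ^ 2) * v 0 = 0 := by linear_combination t 1 * h1 - t 2 * h3
    have e2 : (t 0 * t 1 - t 2 ^ 2) * v 2 = 0 := by linear_combination t 0 * h3 - t 2 * h1
    apply hv
    ext i
    fin_cases i
    · exact (mul_eq_zero.1 e0).resolve_left hD'
    · exact (mul_eq_zero.1 e1).resolve_left hD'
    · exact (mul_eq_zero.1 e2).resolve_left hD'
    · exact (mul_eq_zero.1 e3).resolve_left hD'
  · intro hD
    by_cases h02 : t 0 = 0 ∧ t 2 = 0
    · refine ⟨Pi.single 0 1, ?_, fun x => ?_⟩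
      · intro h
        have := congrFun h 0
        simp at this
      · simp [h02.1, h02.2]
    · refine ⟨![t 2, 0, -t 0, 0], ?_, fun x => ?_⟩
      · intro h
        apply h02
        have h2 := congrFun h 0
        have h3 := congrFun h 2
        simp at h2 h3
        exact ⟨h3, h2⟩
      · simp
        linear_combination (-x 3) * hD

/-- [M7 NU] Equivalent bilinear maps have degeneracy sets which correspond under a linear bijection. PROOF: `h (β u v) = β' (g u) (g v)`, so the form of `t` for `β'` pulled back by `g` is the form of `t ∘ h` (transpose) for `β`. -/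
theorem degSet_eqv {β β' : VV p →ₗ[ZMod p] VV p →ₗ[ZMod p] WW p} (e : EqvBil β β') :
    ∃ s : (Fin 3 → ZMod p) ≃ₗ[ZMod p] (Fin 3 → ZMod p), ∀ t, t ∈ degSet β' ↔ s t ∈ degSet β := by
  obtain ⟨g, h, hh⟩ := e
  let s0 : (Fin 3 → ZMod p) →ₗ[ZMod p] (Fin 3 → ZMod p) :=
    { toFun := fun t j => ∑ k, t k * h (fun i => if j = i then 1 else 0) k
      map_add' := fun t t' => by
        ext j
        simp [add_mul, Finset.sum_add_distrib]
      map_smul' := fun c t => by
        ext j
        simp [Finset.mul_sum, mul_assoc] }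
  have key : ∀ (t : Fin 3 → ZMod p) (w : WW p), ∑ k, t k * h w k = ∑ j, s0 t j * w j := by
    intro t w
    have h1 : h w = ∑ j, w j • h (fun i => if j = i then 1 else 0) :=
      LinearMap.pi_apply_eq_sum_univ h.toLinearMap w
    rw [h1]
    simp only [s0, LinearMap.coe_mk, AddHom.coe_mk, Finset.sum_apply, Pi.smul_apply, smul_eq_mul,
      Finset.mul_sum, Finset.sum_mul]
    rw [Finset.sum_comm]
    refine Finset.sum_congr rfl fun j _ => Finset.sum_congr rfl fun k _ => ?_
    ring
  have hinj : Function.Injective s0 := by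
    rw [injective_iff_map_eq_zero]
    intro t ht
    ext k
    have h2 := key t (h.symm (Pi.single k 1))
    rw [LinearEquiv.apply_symm_apply, ht] at h2
    simpa [Pi.single_apply] using h2
  refine ⟨LinearEquiv.ofInjectiveEndo s0 hinj, fun t => ?_⟩
  rw [LinearEquiv.coe_ofInjectiveEndo]
  constructor
  · rintro ⟨v, hv, h3⟩
    refine ⟨g.symm v, ?_, fun x => ?_⟩
    · intro h4
      apply hv
      have := congrArg g h4
      rwa [LinearEquiv.apply_symm_apply, map_zero] at this
    · rw [← key, hh, LinearEquiv.apply_symm_apply]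
      exact h3 (g x)
  · rintro ⟨v, hv, h3⟩
    refine ⟨g v, ?_, fun x => ?_⟩
    · intro h4
      apply hv
      exact g.map_eq_zero_iff.1 h4
    · have h5 := h3 (g.symm x)
      rw [← key, hh, LinearEquiv.apply_symm_apply] at h5
      exact h5

private def NU_Add (S : Set (Fin 3 → ZMod p)) : Prop := ∀ a ∈ S, ∀ b ∈ S, a + b ∈ S

private theorem NU_transfer {S S' : Set (Fin 3 → ZMod p)}
    (s : (Fin 3 → ZMod p) ≃ₗ[ZMod p] (Fin 3 → ZMod p)) (h : ∀ t, t ∈ S' ↔ s t ∈ S) :
    NU_Add S ↔ NU_Add S' := by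
  constructor
  · intro hS a ha b hb
    rw [h, map_add]
    exact hS _ ((h a).1 ha) _ ((h b).1 hb)
  · intro hS a ha b hb
    have h1 := hS (s.symm a) ((h _).2 (by rwa [LinearEquiv.apply_symm_apply]))
      (s.symm b) ((h _).2 (by rwa [LinearEquiv.apply_symm_apply]))
    rw [h, map_add, LinearEquiv.apply_symm_apply, LinearEquiv.apply_symm_apply] at h1
    exact h1

private theorem NU_M : ¬ NU_Add (degSet (netM (p := p))) := by
  intro h
  rw [degSet_netM] at h
  have h1 := h ![1, 0, 0] (by simp) ![0, 1, 0] (by simp)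
  simp at h1

private theorem NU_K0 : NU_Add (degSet (netK (p := p) 0)) := by
  rw [degSet_netK]
  intro a ha b hb
  simp only [Set.mem_ofPred_eq, zero_mul, Pi.add_apply] at ha hb ⊢
  have ha' : a 1 = 0 := by simpa using ha
  have hb' : b 1 = 0 := by simpa using hb
  rw [ha', hb']
  ring

private theorem NU_ns (ν : ZMod p) (hν : ¬ IsSquare ν) {a : Fin 3 → ZMod p}
    (ha : a ∈ degSet (netK ν)) : a 0 = 0 ∧ a 1 = 0 := by
  rw [degSet_netK] at ha
  simp only [Set.mem_ofPred_eq] at ha
  have h0 : a 0 = 0 := by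
    by_contra h0
    apply hν
    refine ⟨a 1 / a 0, ?_⟩
    field_simp
    linear_combination -ha
  refine ⟨h0, ?_⟩
  rw [h0] at ha
  simpa using ha

private theorem NU_Kn (ν : ZMod p) (hν : ¬ IsSquare ν) : NU_Add (degSet (netK (p := p) ν)) := by
  intro a ha b hb
  obtain ⟨a0, a1⟩ := NU_ns ν hν ha
  obtain ⟨b0, b1⟩ := NU_ns ν hν hb
  rw [degSet_netK]
  simp only [Set.mem_ofPred_eq, Pi.add_apply, a0, a1, b0, b1]
  ring

private theorem NU_K1 (hp : p ≠ 2) : ¬ NU_Add (degSet (netK (p := p) 1)) := by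
  have h2 : (2 : ZMod p) ≠ 0 := by
    intro h
    have h3 : ((2 : ℕ) : ZMod p) = 0 := by exact_mod_cast h
    rw [ZMod.natCast_eq_zero_iff] at h3
    have := (Nat.prime_dvd_prime_iff_eq (Fact.out : p.Prime) Nat.prime_two).1 h3
    exact hp this
  intro h
  rw [degSet_netK] at h
  have h1 := h ![1, 1, 0] (by simp) ![1, -1, 0] (by simp)
  simp only [Set.mem_ofPred_eq] at h1
  have h3 : (2 : ZMod p) ^ 2 = 0 := by
    simp at h1
    linear_combination -h1
  exact h2 (pow_eq_zero_iff (two_ne_zero) |>.1 h3)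

/-- [M7 NU] The four normal forms are pairwise inequivalent. PROOF (by `degSet_eqv`): the set is closed under addition for `netK 0` (`t 1 = 0`) and for `netK ν` (`t 0 = t 1 = 0`, as `ν` is not a square) but not for `netK 1` (`(1,1,0), (1,-1,0)`, `p ≠ 2`) and not for `netM` (`(1,0,0) + (0,1,0)`).
`netK 0` and `netK ν`: `p^2` and `p` elements. `netK 1` contains a two-dimensional subspace (`t 0 = t 1`), `netM` does not: if `t 0 t 1 = t 2 ^ 2` on a plane, ... a plane meets `{t 2 = 0}`; simplest is counting: `netM` has `p^2` elements (`t 0 ≠ 0`: `t 1` determined: `(p-1) p`; `t 0 = 0`: `t 2 = 0`: `p`), `netK 1` has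
`p (2 p - 1)` elements. -/
theorem inequivalent (hp : p ≠ 2) (ν : ZMod p) (hν : ¬ IsSquare ν) :
    ¬ EqvBil (netM (p := p)) (netK 0) ∧ ¬ EqvBil (netM (p := p)) (netK 1) ∧ ¬ EqvBil (netM (p := p)) (netK ν) ∧
      ¬ EqvBil (netK (p := p) 0) (netK 1) ∧ ¬ EqvBil (netK (p := p) 0) (netK ν) ∧
      ¬ EqvBil (netK (p := p) 1) (netK ν) := by
  refine ⟨fun e => ?_, fun e => ?_, fun e => ?_, fun e => ?_, fun e => ?_, fun e => ?_⟩
  · obtain ⟨s, hs⟩ := degSet_eqv e
    exact NU_M ((NU_transfer s hs).2 NU_K0)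
  · obtain ⟨s, hs⟩ := degSet_eqv e
    rw [degSet_netK, degSet_netM] at hs
    simp only [Set.mem_ofPred_eq] at hs
    set a := s ![1, 1, 0] with ha
    set b := s ![0, 0, 1] with hb
    have h1 : a 0 * a 1 = a 2 ^ 2 := (hs ![1, 1, 0]).1 (by simp)
    have h2 : b 0 * b 1 = b 2 ^ 2 := (hs ![0, 0, 1]).1 (by simp)
    have h3 : (a + b) 0 * (a + b) 1 = (a + b) 2 ^ 2 := by
      have h4 := (hs (![1, 1, 0] + ![0, 0, 1])).1 (by simp)
      rwa [map_add] at h4
    simp only [Pi.add_apply] at h3
    have hB : a 0 * b 1 + a 1 * b 0 = 2 * (a 2 * b 2) := by linear_combination h3 - h1 - h2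
    have m02 : a 0 * b 2 = b 0 * a 2 := by
      have : (a 0 * b 2 - b 0 * a 2) ^ 2 = 0 := by
        linear_combination (-a 0 ^ 2) * h2 - b 0 ^ 2 * h1 + a 0 * b 0 * hB
      exact sub_eq_zero.1 ((pow_eq_zero_iff two_ne_zero).1 this)
    have m12 : a 1 * b 2 = b 1 * a 2 := by
      have : (a 1 * b 2 - b 1 * a 2) ^ 2 = 0 := by
        linear_combination (-a 1 ^ 2) * h2 - b 1 ^ 2 * h1 + a 1 * b 1 * hB
      exact sub_eq_zero.1 ((pow_eq_zero_iff two_ne_zero).1 this)
    have m01 : a 0 * b 1 = b 0 * a 1 := by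
      have : (a 0 * b 1 - b 0 * a 1) ^ 2 = 0 := by
        linear_combination (a 0 * b 1 + a 1 * b 0 + 2 * (a 2 * b 2)) * hB
          - 4 * (b 0 * b 1) * h1 - 4 * a 2 ^ 2 * h2
      exact sub_eq_zero.1 ((pow_eq_zero_iff two_ne_zero).1 this)
    have key : ∀ i, a i = 0 := by
      intro i
      have h5 : a i • b = b i • a := by
        ext j
        fin_cases i <;> fin_cases j <;> simp [smul_eq_mul]
        · ring
        · linear_combination m01
        · linear_combination m02
        · linear_combination -m01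
        · ring
        · linear_combination m12
        · linear_combination -m02
        · linear_combination -m12
        · ring
      rw [ha, hb, ← map_smul, ← map_smul] at h5
      have h6 := congrFun (s.injective h5) 2
      simpa using h6
    have h7 : a = 0 := funext key
    rw [ha] at h7
    have h8 := congrFun (s.map_eq_zero_iff.1 h7) 0
    simp at h8
  · obtain ⟨s, hs⟩ := degSet_eqv e
    exact NU_M ((NU_transfer s hs).2 (NU_Kn ν hν))
  · obtain ⟨s, hs⟩ := degSet_eqv e
    exact NU_K1 hp ((NU_transfer s hs).1 NU_K0)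
  · obtain ⟨s, hs⟩ := degSet_eqv e
    have h0 : (![1, 0, 0] : Fin 3 → ZMod p) ∈ degSet (netK (p := p) 0) := by
      rw [degSet_netK]; simp
    have h2 : (![0, 0, 1] : Fin 3 → ZMod p) ∈ degSet (netK (p := p) 0) := by
      rw [degSet_netK]; simp
    have k0 := NU_ns ν hν ((hs (s.symm ![1, 0, 0])).2 (by rwa [LinearEquiv.apply_symm_apply]))
    have k2 := NU_ns ν hν ((hs (s.symm ![0, 0, 1])).2 (by rwa [LinearEquiv.apply_symm_apply]))
    set a := s.symm ![1, 0, 0] with ha
    set b := s.symm ![0, 0, 1] with hb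
    have h5 : b 2 • a = a 2 • b := by
      ext j
      fin_cases j
      · simp [k0.1, k2.1]
      · simp [k0.2, k2.2]
      · simp [mul_comm]
    rw [ha, hb, ← map_smul, ← map_smul] at h5
    have h6 := s.symm.injective h5
    have h7 := congrFun h6 2
    have h8 : a 2 = 0 := by simpa using h7.symm
    have h9 : a = 0 := by
      ext j
      fin_cases j
      · exact k0.1
      · exact k0.2
      · exact h8
    rw [ha] at h9
    have h10 := congrFun (s.symm.map_eq_zero_iff.1 h9) 0
    simp at h10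
  · obtain ⟨s, hs⟩ := degSet_eqv e
    exact NU_K1 hp ((NU_transfer s hs).2 (NU_Kn ν hν))

end MP_02e52a.M7
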