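import Pool.Agent.Lib.MP_02e52a_al.M7.NetDefs

namespace MP_02e52a.M7

/-- [M7 N2] A degenerate nonzero alternating form in dimension 4 is decomposable. PROOF. Scale `y` so that `f x y = 1` for some `x, y`. Put `a u = f u y`, `b u = f x u` (so `a x = 1, a y = 0, b x = 0, b y = 1`). Claim: `f u v = a u * b v - b u * a v`. Both sides agree if
`u, v ∈ {x, y}`. `P⊥ = {w | f x w = 0 ∧ f y w = 0}` has dimension 2 and `V = span (x, y) ⊕ P⊥`; both sides vanish for `u ∈ {x, y}`, `v ∈ P⊥`. On `P⊥` the right side is `0`. The kernel vector `v0 ≠ 0` of `f` lies in `P⊥`, complete it to a basis `v0, w`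
of `P⊥`: `f v0 w = 0`, so `f` vanishes on `P⊥`. -/
theorem decomp {F : Type*} [Field F] {V : Type*} [AddCommGroup V] [Module F V] (hV : Module.finrank F V = 4)
    (f : V →ₗ[F] V →ₗ[F] F) (alt : ∀ v, f v v = 0) (hf : f ≠ 0) (hd : ∃ v : V, v ≠ 0 ∧ ∀ x, f v x = 0) :
    ∃ a b : V →ₗ[F] F, (∀ u v, f u v = a u * b v - b u * a v) ∧ LinearIndependent F ![a, b] := by
  obtain ⟨v0, hv0, hrad⟩ := hd
  have skew : ∀ u v, f u v = - f v u := by
    intro u v
    have h := alt (u + v)
    simp only [map_add, LinearMap.add_apply, alt, zero_add, add_zero] at h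
    exact eq_neg_of_add_eq_zero_right h
  have hxy0 : ∃ x y0, f x y0 ≠ 0 := by
    by_contra hcon
    push Not at hcon
    exact hf (LinearMap.ext fun x => LinearMap.ext fun y => by simpa using hcon x y)
  obtain ⟨x, y0, hxy0⟩ := hxy0
  set y : V := (f x y0)⁻¹ • y0 with hy
  have hxy : f x y = 1 := by
    rw [hy, map_smul, smul_eq_mul, inv_mul_cancel₀ hxy0]
  have hyx : f y x = -1 := by rw [skew, hxy]
  have : Module.Finite F V := Module.finite_of_finrank_pos (by rw [hV]; norm_num)
  have hP : ∀ p q : V, f p y = 0 → f x p = 0 → f q y = 0 → f x q = 0 → f p q = 0 := by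
    intro p q hp1 hp2 hq1 hq2
    have hnl : ¬ LinearIndependent F ![x, y, p, q, v0] := by
      intro hli
      have := hli.fintype_card_le_finrank
      rw [hV] at this
      simp at this
    rw [Fintype.not_linearIndependent_iff] at hnl
    obtain ⟨g, hg, i, hi⟩ := hnl
    simp only [Fin.sum_univ_five, Matrix.cons_val_zero, Matrix.cons_val_one,
      Matrix.cons_val] at hg
    have hv0y : f v0 y = 0 := hrad y
    have hxv0 : f x v0 = 0 := by rw [skew, hrad, neg_zero]
    have g0 : g 0 = 0 := by
      have h := congrArg (fun w => f w y) hg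
      simp only [map_add, map_smul, LinearMap.add_apply, LinearMap.smul_apply, smul_eq_mul, hxy, alt,
        hp1, hq1, hv0y, map_zero, LinearMap.zero_apply] at h
      simpa using h
    have g1 : g 1 = 0 := by
      have h := congrArg (fun w => f x w) hg
      simp only [map_add, map_smul, smul_eq_mul, hxy, alt,
        hp2, hq2, hxv0, map_zero] at h
      simpa using h
    rw [g0, g1, zero_smul, zero_smul, zero_add, zero_add] at hg
    have e1 : g 3 * f q p = 0 := by
      have h := congrArg (fun w => f w p) hg
      simp only [map_add, map_smul, LinearMap.add_apply, LinearMap.smul_apply, smul_eq_mul, alt,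
        hrad, map_zero, LinearMap.zero_apply] at h
      simpa using h
    have e2 : g 2 * f p q = 0 := by
      have h := congrArg (fun w => f w q) hg
      simp only [map_add, map_smul, LinearMap.add_apply, LinearMap.smul_apply, smul_eq_mul, alt,
        hrad, map_zero, LinearMap.zero_apply] at h
      simpa using h
    by_cases h2 : g 2 = 0
    · by_cases h3 : g 3 = 0
      · exfalso
        rw [h2, h3, zero_smul, zero_smul, zero_add, zero_add] at hg
        rcases smul_eq_zero.mp hg with h4 | h4
        · fin_cases i
          · exact hi g0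
          · exact hi g1
          · exact hi h2
          · exact hi h3
          · exact hi h4
        · exact hv0 h4
      · rw [skew, (mul_eq_zero.mp e1).resolve_left h3, neg_zero]
    · exact (mul_eq_zero.mp e2).resolve_left h2
  refine ⟨f.flip y, f x, ?_, ?_⟩
  · intro u v
    simp only [LinearMap.flip_apply]
    have key := hP (u - f u y • x - f x u • y) (v - f v y • x - f x v • y)
      (by simp [hxy, alt]) (by simp [hxy, alt]) (by simp [hxy, alt]) (by simp [hxy, alt])
    simp only [map_sub, map_smul, LinearMap.sub_apply, LinearMap.smul_apply, smul_eq_mul, alt, hxy,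
      hyx] at key
    have h1 := skew u x
    have h2 := skew y v
    rw [h1, h2] at key
    linear_combination key
  · rw [LinearIndependent.pair_iff]
    intro s t hst
    constructor
    · have h := congrArg (fun w => w x) hst
      simpa [hxy, alt] using h
    · have h := congrArg (fun w => w y) hst
      simpa [hxy, alt] using h

end MP_02e52a.M7
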