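import Pool.Agent.Lib.MP_02e52a_al.M7.NetDefs

namespace MP_02e52a.M7

variable {p : ℕ} [Fact p.Prime]

private theorem NH_eqv (β β' : VV p →ₗ[ZMod p] VV p →ₗ[ZMod p] WW p)
    (g : VV p →ₗ[ZMod p] VV p) (hg : ∀ v, g v = 0 → v = 0)
    (h : WW p →ₗ[ZMod p] WW p) (hh : ∀ u v, h (β u v) = β' (g u) (g v))
    (hs : ∀ k : Fin 3, ∃ x y, β' x y = Pi.single k 1) : EqvBil β β' := by
  have hginj : Function.Injective g := (injective_iff_map_eq_zero g).2 hg
  have hgsurj := LinearMap.injective_iff_surjective.1 hginj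
  have hsurj : Function.Surjective h := by
    rw [← LinearMap.range_eq_top, eq_top_iff, ← (Pi.basisFun (ZMod p) (Fin 3)).span_eq,
      Submodule.span_le]
    rintro _ ⟨k, rfl⟩
    obtain ⟨x, y, hxy⟩ := hs k
    obtain ⟨u, rfl⟩ := hgsurj x
    obtain ⟨v, rfl⟩ := hgsurj y
    refine ⟨β u v, ?_⟩
    rw [hh, hxy, Pi.basisFun_apply]
  have hinj := LinearMap.injective_iff_surjective.2 hsurj
  exact ⟨LinearEquiv.ofBijective g ⟨hginj, hgsurj⟩, LinearEquiv.ofBijective h ⟨hinj, hsurj⟩, hh⟩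

private theorem NH_sM (k : Fin 3) : ∃ x y, (netM : VV p →ₗ[ZMod p] VV p →ₗ[ZMod p] WW p) x y =
    Pi.single k 1 := by
  fin_cases k
  · exact ⟨![1, 0, 0, 0], ![0, 1, 0, 0], by ext i; fin_cases i <;> simp⟩
  · exact ⟨![0, 0, 1, 0], ![0, 0, 0, 1], by ext i; fin_cases i <;> simp⟩
  · exact ⟨![1, 0, 0, 0], ![0, 0, 0, 1], by ext i; fin_cases i <;> simp⟩

private theorem NH_sK (k : Fin 3) : ∃ x y, (netK 1 : VV p →ₗ[ZMod p] VV p →ₗ[ZMod p] WW p) x y =
    Pi.single k 1 := by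
  fin_cases k
  · exact ⟨![1, 0, 0, 0], ![0, 0, 1, 0], by ext i; fin_cases i <;> simp⟩
  · exact ⟨![1, 0, 0, 0], ![0, 0, 0, 1], by ext i; fin_cases i <;> simp⟩
  · exact ⟨![1, 0, 0, 0], ![0, 1, 0, 0], by ext i; fin_cases i <;> simp⟩

private theorem NH_two (hp : p ≠ 2) : (2 : ZMod p) ≠ 0 := by
  intro h
  have h1 : ((2 : ℕ) : ZMod p) = 0 := by exact_mod_cast h
  rw [ZMod.natCast_eq_zero_iff] at h1
  exact hp ((Nat.prime_dvd_prime_iff_eq Fact.out Nat.prime_two).1 h1)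

private theorem NH_det (a b : ZMod p) (h : a ≠ 0 ∨ b ≠ 0) : ∃ a' b', a * b' - b * a' = 1 := by
  rcases h with h | h
  · exact ⟨0, a⁻¹, by rw [mul_inv_cancel₀ h]; ring⟩
  · exact ⟨-b⁻¹, 0, by have := mul_inv_cancel₀ h; linear_combination this⟩

private theorem NH_fac (P Q R S : ZMod p) (h : P * S = Q * R)
    (hne : ¬ (P = 0 ∧ Q = 0 ∧ R = 0 ∧ S = 0)) :
    ∃ a b c d : ZMod p, P = a * c ∧ Q = a * d ∧ R = b * c ∧ S = b * d ∧ (a ≠ 0 ∨ b ≠ 0) ∧
      (c ≠ 0 ∨ d ≠ 0) := by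
  by_cases hP : P = 0
  · by_cases hQ : Q = 0
    · refine ⟨0, 1, R, S, by rw [hP]; ring, by rw [hQ]; ring, by ring, by ring,
        Or.inr one_ne_zero, ?_⟩
      by_contra hcon
      push Not at hcon
      exact hne ⟨hP, hQ, hcon.1, hcon.2⟩
    · refine ⟨1, S * Q⁻¹, P, Q, by ring, by ring, ?_, ?_, Or.inl one_ne_zero, Or.inr hQ⟩
      · have h1 := mul_inv_cancel₀ hQ
        linear_combination (-Q⁻¹) * h - R * h1
      · have h1 := mul_inv_cancel₀ hQ
        linear_combination (-S) * h1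
  · refine ⟨1, R * P⁻¹, P, Q, by ring, by ring, ?_, ?_, Or.inl one_ne_zero, Or.inl hP⟩
    · have h1 := mul_inv_cancel₀ hP
      linear_combination (-R) * h1
    · have h1 := mul_inv_cancel₀ hP
      linear_combination P⁻¹ * h - S * h1

private theorem NH_fin (hp : p ≠ 2) (β : VV p →ₗ[ZMod p] VV p →ₗ[ZMod p] WW p)
    (E0 E1 E2 E3 : VV p →ₗ[ZMod p] ZMod p)
    (hinj : ∀ v, E0 v = 0 → E1 v = 0 → E2 v = 0 → E3 v = 0 → v = 0)
    (θ0 θ1 θ2 : WW p →ₗ[ZMod p] ZMod p) (P Q R S : ZMod p)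
    (h0 : ∀ u v, θ0 (β u v) = E0 u * E1 v - E1 u * E0 v)
    (h1 : ∀ u v, θ1 (β u v) = E2 u * E3 v - E3 u * E2 v)
    (h2 : ∀ u v, θ2 (β u v) = P * (E0 u * E2 v - E2 u * E0 v) + Q * (E0 u * E3 v - E3 u * E0 v) +
      R * (E1 u * E2 v - E2 u * E1 v) + S * (E1 u * E3 v - E3 u * E1 v))
    (hne : ¬ (P = 0 ∧ Q = 0 ∧ R = 0 ∧ S = 0)) : EqvBil β netM ∨ EqvBil β (netK 1) := by
  by_cases hdet : P * S - Q * R = 0
  · right
    obtain ⟨a, b, c, d, rfl, rfl, rfl, rfl, hab, hcd⟩ := NH_fac P Q R S (by linear_combination hdet) hne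
    obtain ⟨a', b', D1⟩ := NH_det a b hab
    obtain ⟨c', d', D2⟩ := NH_det c d hcd
    obtain ⟨t, T⟩ : ∃ t : ZMod p, 2 * t = 1 := ⟨2⁻¹, mul_inv_cancel₀ (NH_two hp)⟩
    refine NH_eqv β (netK 1)
      (LinearMap.pi ![t • ((a • E0 + b • E1) + (c • E2 + d • E3)),
        t • ((a • E0 + b • E1) - (c • E2 + d • E3)),
        t • ((a' • E0 + b' • E1) + (c' • E2 + d' • E3)),
        t • ((a' • E0 + b' • E1) - (c' • E2 + d' • E3))]) ?_
      (LinearMap.pi ![t • (θ0 + θ1), t • (θ0 - θ1), -(t • θ2)]) ?_ NH_sK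
    · intro v hv
      have ht : t ≠ 0 := by
        rintro rfl
        simp at T
      have e0 : t * (a * E0 v + b * E1 v + (c * E2 v + d * E3 v)) = 0 := congrFun hv 0
      have e1 : t * (a * E0 v + b * E1 v - (c * E2 v + d * E3 v)) = 0 := congrFun hv 1
      have e2 : t * (a' * E0 v + b' * E1 v + (c' * E2 v + d' * E3 v)) = 0 := congrFun hv 2
      have e3 : t * (a' * E0 v + b' * E1 v - (c' * E2 v + d' * E3 v)) = 0 := congrFun hv 3
      have k0 := (mul_eq_zero.1 e0).resolve_left ht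
      have k1 := (mul_eq_zero.1 e1).resolve_left ht
      have k2 := (mul_eq_zero.1 e2).resolve_left ht
      have k3 := (mul_eq_zero.1 e3).resolve_left ht
      have m0 : a * E0 v + b * E1 v = 0 := by
        linear_combination t * k0 + t * k1 - (a * E0 v + b * E1 v) * T
      have m1 : c * E2 v + d * E3 v = 0 := by
        linear_combination t * k0 - t * k1 - (c * E2 v + d * E3 v) * T
      have m2 : a' * E0 v + b' * E1 v = 0 := by
        linear_combination t * k2 + t * k3 - (a' * E0 v + b' * E1 v) * T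
      have m3 : c' * E2 v + d' * E3 v = 0 := by
        linear_combination t * k2 - t * k3 - (c' * E2 v + d' * E3 v) * T
      refine hinj v ?_ ?_ ?_ ?_
      · linear_combination b' * m0 - b * m2 - E0 v * D1
      · linear_combination a * m2 - a' * m0 - E1 v * D1
      · linear_combination d' * m1 - d * m3 - E2 v * D2
      · linear_combination c * m3 - c' * m1 - E3 v * D2
    · intro u v
      ext i
      fin_cases i
      · simp [h0, h1]
        linear_combination (-t * ((E0 u * E1 v - E1 u * E0 v) + (E2 u * E3 v - E3 u * E2 v))) * T -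
          2 * t ^ 2 * (E0 u * E1 v - E1 u * E0 v) * D1 - 2 * t ^ 2 * (E2 u * E3 v - E3 u * E2 v) * D2
      · simp [h0, h1]
        linear_combination (-t * ((E0 u * E1 v - E1 u * E0 v) - (E2 u * E3 v - E3 u * E2 v))) * T -
          2 * t ^ 2 * (E0 u * E1 v - E1 u * E0 v) * D1 + 2 * t ^ 2 * (E2 u * E3 v - E3 u * E2 v) * D2
      · simp [h2]
        linear_combination (t * (a * c * (E0 u * E2 v - E2 u * E0 v) +
          a * d * (E0 u * E3 v - E3 u * E0 v) + b * c * (E1 u * E2 v - E2 u * E1 v) +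
          b * d * (E1 u * E3 v - E3 u * E1 v))) * T
  · left
    refine NH_eqv β netM (LinearMap.pi ![E0, E1, -(R • E2 + S • E3), P • E2 + Q • E3]) ?_
      (LinearMap.pi ![θ0, (P * S - Q * R) • θ1, θ2]) ?_ NH_sM
    · intro v hv
      have e0 := congrFun hv 0
      have e1 := congrFun hv 1
      have e2 := congrFun hv 2
      have e3 := congrFun hv 3
      simp only [LinearMap.pi_apply, Matrix.cons_val_zero, Matrix.cons_val_one, Matrix.cons_val,
        LinearMap.neg_apply, LinearMap.add_apply, LinearMap.smul_apply, smul_eq_mul,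
        Pi.zero_apply] at e0 e1 e2 e3
      refine hinj v e0 e1 ?_ ?_
      · apply (mul_eq_zero.1 (?_ : (P * S - Q * R) * E2 v = 0)).resolve_left hdet
        linear_combination Q * e2 + S * e3
      · apply (mul_eq_zero.1 (?_ : (P * S - Q * R) * E3 v = 0)).resolve_left hdet
        linear_combination (-P) * e2 - R * e3
    · intro u v
      ext i
      fin_cases i
      · simp [h0]
      · simp [h1]
        ring
      · simp [h2]
        ring

private theorem NH_dual (a b : VV p →ₗ[ZMod p] ZMod p) (hab : LinearIndependent (ZMod p) ![a, b]) :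
    ∃ x, a x = 1 ∧ b x = 0 := by
  have h : ∃ x, b x = 0 ∧ a x ≠ 0 := by
    by_contra hcon
    push Not at hcon
    have h1 := mem_span_of_iInf_ker_le_ker (L := fun _ : Unit => b) (K := a) (by
      intro x hx
      simp only [iInf_const, LinearMap.mem_ker] at hx ⊢
      exact hcon x hx)
    rw [Set.range_const, Submodule.mem_span_singleton] at h1
    obtain ⟨c, hc⟩ := h1
    rw [LinearIndependent.pair_iff] at hab
    have h2 := hab 1 (-c) (by rw [← hc]; module)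
    exact one_ne_zero h2.1
  obtain ⟨x, hx1, hx2⟩ := h
  exact ⟨(a x)⁻¹ • x, by simp [hx2], by simp [hx1]⟩

/-- [M7 NH] Case H. PROOF. `U = ker a0 ∩ ker b0` has dimension 2, `f0 = θ0 ∘ β = a0 ∧ b0`, `f1 = θ1 ∘ β` is nonzero (so nondegenerate) on `U`. `U' = {x | f1 x U = 0}` has dimension 2 and `V = U' ⊕ U`. Choose a basis `x0, x1` of `U'` and `y0, y1` of `U`.
`f0` vanishes when one argument is in `U`; `f0 x0 x1 ≠ 0` (`a0, b0` independent on `U' ≅ V / U`). `f1` has no cross terms `U' × U`; subtracting a multiple of `f0` from `f1` we get `f1'` (still `θ ∘ β`) with `f1' x0 x1 = 0`, so `f1'` vanishes when one argument is in `U'`,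
and `f1' y0 y1 ≠ 0`. `θ0, θ1'` are independent; let `θ2` complete them to a basis of the dual of `W`, and subtract multiples of `θ0, θ1'` so that `f2 = θ2 ∘ β` vanishes on `(x0, x1)` and `(y0, y1)`. `f2 ≠ 0` by `Onto` (`θ2 ≠ 0`). Its cross matrix `X i j = f2 (x i) (y j)` is
nonzero. After scaling `θ0, θ1'`, `f0 = det` on `U'`, `f1' = det` on `U` in the bases below.
* `det X ≠ 0`: replace `y0, y1` by the combination with `f2 x0 y0 = 0, f2 x0 y1 = 1, f2 x1 y0 = -1, f2 x1 y1 = 0`. In the coordinates of the basis `x0, x1, y0, y1`, `(f0, f1', f2)` scaled is `netM`: `EqvBil β netM`.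
* `det X = 0`: `f2 x y = α x * γ y` for functionals `α` on `U'`, `γ` on `U`, both nonzero; choose the bases with `α x0 = 1, α x1 = 0, γ y0 = 1, γ y1 = 0`: `β` is equivalent to `(e0∧e1, e2∧e3, e0∧e2)`, where `e0 ∧ e1` means `u 0 * v 1 - u 1 * v 0`.
  This is equivalent to `netK 1`: the components of `netK 1` are `A = e0∧e2 + e1∧e3`, `B = e0∧e3 + e1∧e2`, `C = e0∧e1`; `A + B = (e0+e1)∧(e2+e3)`, `A - B = (e0-e1)∧(e2-e3)`, `C = -(1/2) (e0+e1)∧(e0-e1)` (`p ≠ 2`). So with the new coordinates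
  `E0 = e0+e1, E1 = e2+e3, E2 = e0-e1, E3 = e2-e3` it is `(E0∧E1, E2∧E3, E0∧E2)` up to `GL(W)`. -/
theorem case_H (hp : p ≠ 2) (β : VV p →ₗ[ZMod p] VV p →ₗ[ZMod p] WW p) (alt : ∀ v, β v v = 0)
    (honto : Submodule.span (ZMod p) {w | ∃ u v, w = β u v} = ⊤)
    (θ0 : WW p →ₗ[ZMod p] ZMod p) (a0 b0 : VV p →ₗ[ZMod p] ZMod p)
    (h0 : ∀ u v, θ0 (β u v) = a0 u * b0 v - b0 u * a0 v) (hab : LinearIndependent (ZMod p) ![a0, b0])
    (θ1 : WW p →ₗ[ZMod p] ZMod p) (u1 v1 : VV p) (hu : a0 u1 = 0 ∧ b0 u1 = 0) (hv : a0 v1 = 0 ∧ b0 v1 = 0)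
    (h1 : θ1 (β u1 v1) ≠ 0) : EqvBil β netM ∨ EqvBil β (netK 1) := by
  classical
  have skew : ∀ x y, β x y = -β y x := by
    intro x y
    have h := alt (x + y)
    simp only [map_add, LinearMap.add_apply, alt, zero_add, add_zero] at h
    exact eq_neg_of_add_eq_zero_right h
  obtain ⟨x0, hx0a, hx0b⟩ := NH_dual a0 b0 hab
  obtain ⟨x1, hx1b, hx1a⟩ := NH_dual b0 a0 (by
    rw [LinearIndependent.pair_iff] at hab ⊢
    intro s t hst
    have := hab t s (by rw [← hst]; module)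
    exact ⟨this.2, this.1⟩)
  -- normalise `θ1`
  obtain ⟨θs, hθs⟩ : ∃ θs : WW p →ₗ[ZMod p] ZMod p, θs (β u1 v1) = 1 :=
    ⟨(θ1 (β u1 v1))⁻¹ • θ1, by simp [h1]⟩
  obtain ⟨E2, hE2⟩ : ∃ E2 : VV p →ₗ[ZMod p] ZMod p, ∀ v, E2 v = θs (β v v1) :=
    ⟨θs.comp (β.flip v1), fun v => rfl⟩
  obtain ⟨E3, hE3⟩ : ∃ E3 : VV p →ₗ[ZMod p] ZMod p, ∀ v, E3 v = θs (β u1 v) :=
    ⟨θs.comp (β u1), fun v => rfl⟩
  have E2u : E2 u1 = 1 := by rw [hE2, hθs]
  have E2v : E2 v1 = 0 := by rw [hE2, alt, map_zero]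
  have E3u : E3 u1 = 0 := by rw [hE3, alt, map_zero]
  have E3v : E3 v1 = 1 := by rw [hE3, hθs]
  obtain ⟨X0, hX0⟩ : ∃ X0, X0 = x0 - E2 x0 • u1 - E3 x0 • v1 := ⟨_, rfl⟩
  obtain ⟨X1, hX1⟩ : ∃ X1, X1 = x1 - E2 x1 • u1 - E3 x1 • v1 := ⟨_, rfl⟩
  have aX0 : a0 X0 = 1 := by rw [hX0]; simp [hx0a, hu.1, hv.1]
  have bX0 : b0 X0 = 0 := by rw [hX0]; simp [hx0b, hu.2, hv.2]
  have cX0 : E2 X0 = 0 := by rw [hX0]; simp [E2u, E2v]
  have dX0 : E3 X0 = 0 := by rw [hX0]; simp [E3u, E3v]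
  have aX1 : a0 X1 = 0 := by rw [hX1]; simp [hx1a, hu.1, hv.1]
  have bX1 : b0 X1 = 1 := by rw [hX1]; simp [hx1b, hu.2, hv.2]
  have cX1 : E2 X1 = 0 := by rw [hX1]; simp [E2u, E2v]
  have dX1 : E3 X1 = 0 := by rw [hX1]; simp [E3u, E3v]
  -- coordinates
  have hsurj : Function.Surjective (LinearMap.pi ![a0, b0, E2, E3]) := by
    intro t
    refine ⟨t 0 • X0 + t 1 • X1 + t 2 • u1 + t 3 • v1, ?_⟩
    ext i
    fin_cases i
    · simp [aX0, aX1, hu.1, hv.1]
    · simp [bX0, bX1, hu.2, hv.2]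
    · simp [cX0, cX1, E2u, E2v]
    · simp [dX0, dX1, E3u, E3v]
  have hinj0 : Function.Injective (LinearMap.pi ![a0, b0, E2, E3]) :=
    LinearMap.injective_iff_surjective.2 hsurj
  have hinj : ∀ v, a0 v = 0 → b0 v = 0 → E2 v = 0 → E3 v = 0 → v = 0 := by
    intro v k0 k1 k2 k3
    apply (injective_iff_map_eq_zero _).1 hinj0
    ext i
    fin_cases i
    · simpa using k0
    · simpa using k1
    · simpa using k2
    · simpa using k3
  have hexp : ∀ v, v = a0 v • X0 + b0 v • X1 + E2 v • u1 + E3 v • v1 := by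
    intro v
    rw [← sub_eq_zero]
    refine hinj _ ?_ ?_ ?_ ?_
    · simp [aX0, aX1, hu.1, hv.1]
    · simp [bX0, bX1, hu.2, hv.2]
    · simp [cX0, cX1, E2u, E2v]
    · simp [dX0, dX1, E3u, E3v]
  have hβ : ∀ u v, β u v = (a0 u * b0 v - b0 u * a0 v) • β X0 X1 +
      (a0 u * E2 v - E2 u * a0 v) • β X0 u1 + (a0 u * E3 v - E3 u * a0 v) • β X0 v1 +
      (b0 u * E2 v - E2 u * b0 v) • β X1 u1 + (b0 u * E3 v - E3 u * b0 v) • β X1 v1 +
      (E2 u * E3 v - E3 u * E2 v) • β u1 v1 := by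
    intro u v
    conv_lhs => rw [hexp u, hexp v]
    simp only [map_add, map_smul, LinearMap.add_apply, LinearMap.smul_apply, alt]
    rw [skew X1 X0, skew u1 X0, skew u1 X1, skew v1 X0, skew v1 X1, skew v1 u1]
    module
  -- values of the functionals
  have s02 : θs (β X0 u1) = 0 := by rw [skew, map_neg, ← hE3, dX0, neg_zero]
  have s03 : θs (β X0 v1) = 0 := by rw [← hE2, cX0]
  have s12 : θs (β X1 u1) = 0 := by rw [skew, map_neg, ← hE3, dX1, neg_zero]
  have s13 : θs (β X1 v1) = 0 := by rw [← hE2, cX1]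
  obtain ⟨θ1', hθ1'⟩ : ∃ θ1' : WW p →ₗ[ZMod p] ZMod p, ∀ w, θ1' w = θs w - θs (β X0 X1) * θ0 w :=
    ⟨θs - θs (β X0 X1) • θ0, fun w => rfl⟩
  have k1 : ∀ u v, θ1' (β u v) = E2 u * E3 v - E3 u * E2 v := by
    intro u v
    rw [hθ1', h0 u v]
    conv_lhs => rw [hβ u v]
    simp only [map_add, map_smul, smul_eq_mul, s02, s03, s12, s13, hθs]
    ring
  obtain ⟨θ, hθ⟩ : ∃ θ : WW p →ₗ[ZMod p] ZMod p, ¬ (θ (β X0 u1) = 0 ∧ θ (β X0 v1) = 0 ∧
      θ (β X1 u1) = 0 ∧ θ (β X1 v1) = 0) := by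
    by_contra hcon
    push Not at hcon
    have z02 : β X0 u1 = 0 := by ext k; exact (hcon (LinearMap.proj k)).1
    have z03 : β X0 v1 = 0 := by ext k; exact (hcon (LinearMap.proj k)).2.1
    have z12 : β X1 u1 = 0 := by ext k; exact (hcon (LinearMap.proj k)).2.2.1
    have z13 : β X1 v1 = 0 := by ext k; exact (hcon (LinearMap.proj k)).2.2.2
    have hle : (⊤ : Submodule (ZMod p) (WW p)) ≤
        Submodule.span (ZMod p) (({β X0 X1, β u1 v1} : Finset (WW p)) : Set (WW p)) := by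
      rw [← honto, Submodule.span_le]
      rintro w ⟨u, v, rfl⟩
      rw [SetLike.mem_coe, hβ u v, z02, z03, z12, z13]
      simp only [smul_zero, add_zero]
      refine Submodule.add_mem _ (Submodule.smul_mem _ _ (Submodule.subset_span ?_))
        (Submodule.smul_mem _ _ (Submodule.subset_span ?_))
      · simp
      · simp
    have hf := Submodule.finrank_mono hle
    have hf2 := finrank_span_finset_le_card (R := ZMod p) ({β X0 X1, β u1 v1} : Finset (WW p))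
    have hf3 : ({β X0 X1, β u1 v1} : Finset (WW p)).card ≤ 2 := Finset.card_le_two
    rw [finrank_top, Module.finrank_fin_fun] at hf
    rw [Set.finrank] at hf2
    omega
  obtain ⟨θ2, hθ2⟩ : ∃ θ2 : WW p →ₗ[ZMod p] ZMod p,
      ∀ w, θ2 w = θ w - θ (β X0 X1) * θ0 w - θ (β u1 v1) * θ1' w :=
    ⟨θ - θ (β X0 X1) • θ0 - θ (β u1 v1) • θ1', fun w => rfl⟩
  refine NH_fin hp β a0 b0 E2 E3 hinj θ0 θ1' θ2 (θ (β X0 u1)) (θ (β X0 v1)) (θ (β X1 u1))
    (θ (β X1 v1)) h0 k1 ?_ hθ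
  intro u v
  rw [hθ2, h0 u v, k1 u v]
  conv_lhs => rw [hβ u v]
  simp only [map_add, map_smul, smul_eq_mul]
  ring

end MP_02e52a.M7
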