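import Pool.Agent.Lib.MP_02e52a_al.M7.NetDefs

namespace MP_02e52a.M7

variable {p : ℕ} [Fact p.Prime]

private theorem nr_skew (β : VV p →ₗ[ZMod p] VV p →ₗ[ZMod p] WW p) (alt : ∀ v, β v v = 0)
    (u v : VV p) : β u v = - β v u := by
  have h := alt (u + v)
  simp only [map_add, LinearMap.add_apply, alt, zero_add, add_zero] at h
  exact eq_neg_of_add_eq_zero_right h

private theorem nr_expand (β : VV p →ₗ[ZMod p] VV p →ₗ[ZMod p] WW p) (alt : ∀ v, β v v = 0)
    (x0 x1 y0 y1 : VV p) (hy : β y0 y1 = 0) (c0 c1 c2 c3 d0 d1 d2 d3 : ZMod p) :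
    β (c0 • x0 + c1 • x1 + c2 • y0 + c3 • y1) (d0 • x0 + d1 • x1 + d2 • y0 + d3 • y1) =
      (c0 * d1 - c1 * d0) • β x0 x1 + (c0 * d2 - c2 * d0) • β x0 y0 +
        (c0 * d3 - c3 * d0) • β x0 y1 + (c1 * d2 - c2 * d1) • β x1 y0 +
        (c1 * d3 - c3 * d1) • β x1 y1 := by
  simp only [map_add, LinearMap.add_apply, map_smul, LinearMap.smul_apply, alt, smul_zero]
  rw [nr_skew β alt x1 x0, nr_skew β alt y0 x0, nr_skew β alt y1 x0, nr_skew β alt y0 x1,
    nr_skew β alt y1 x1, nr_skew β alt y1 y0, hy]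
  module

private theorem nr_asm (β : VV p →ₗ[ZMod p] VV p →ₗ[ZMod p] WW p) (alt : ∀ v, β v v = 0)
    (honto : Submodule.span (ZMod p) {w | ∃ u v, w = β u v} = ⊤) (x0 x1 y0 y1 : VV p) (δ : ZMod p)
    (hy : β y0 y1 = 0)
    (hV : ∀ v : VV p, ∃ c0 c1 c2 c3 : ZMod p, v = c0 • x0 + c1 • x1 + c2 • y0 + c3 • y1)
    (h1 : β x1 y0 = β x0 y1) (h2 : β x1 y1 = δ • β x0 y0) : EqvBil β (netK δ) := by
  apply EqvBil.symm
  let G : VV p →ₗ[ZMod p] VV p :=
    { toFun := fun c => c 0 • x0 + c 1 • x1 + c 2 • y0 + c 3 • y1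
      map_add' := fun c d => by simp only [Pi.add_apply]; module
      map_smul' := fun r c => by
        simp only [Pi.smul_apply, smul_eq_mul, RingHom.id_apply]; module }
  let H : WW p →ₗ[ZMod p] WW p :=
    { toFun := fun c => c 0 • β x0 y0 + c 1 • β x0 y1 + c 2 • β x0 x1
      map_add' := fun c d => by simp only [Pi.add_apply]; module
      map_smul' := fun r c => by
        simp only [Pi.smul_apply, smul_eq_mul, RingHom.id_apply]; module }
  have hG : Function.Surjective G := by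
    intro v
    obtain ⟨c0, c1, c2, c3, h⟩ := hV v
    refine ⟨![c0, c1, c2, c3], ?_⟩
    change (![c0, c1, c2, c3] : VV p) 0 • x0 + (![c0, c1, c2, c3] : VV p) 1 • x1 +
      (![c0, c1, c2, c3] : VV p) 2 • y0 + (![c0, c1, c2, c3] : VV p) 3 • y1 = v
    rw [h]
    simp
  have hkey : ∀ u v, H (netK δ u v) = β (G u) (G v) := by
    intro u v
    change (netK δ u v) 0 • β x0 y0 + (netK δ u v) 1 • β x0 y1 + (netK δ u v) 2 • β x0 x1 =
      β (u 0 • x0 + u 1 • x1 + u 2 • y0 + u 3 • y1) (v 0 • x0 + v 1 • x1 + v 2 • y0 + v 3 • y1)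
    rw [nr_expand β alt x0 x1 y0 y1 hy, h1, h2]
    simp only [netK_apply, Matrix.cons_val_zero, Matrix.cons_val_one, Matrix.cons_val]
    module
  have hH : Function.Surjective H := by
    rw [← LinearMap.range_eq_top, eq_top_iff, ← honto, Submodule.span_le]
    rintro w ⟨u, v, rfl⟩
    obtain ⟨u', rfl⟩ := hG u
    obtain ⟨v', rfl⟩ := hG v
    exact ⟨netK δ u' v', hkey _ _⟩
  have hGi := LinearMap.injective_iff_surjective.2 hG
  have hHi := LinearMap.injective_iff_surjective.2 hH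
  exact ⟨LinearEquiv.ofBijective G ⟨hGi, hG⟩, LinearEquiv.ofBijective H ⟨hHi, hH⟩,
    fun u v => hkey u v⟩

/-- [M7 NR] Case R. PROOF. `U = ker a0 ∩ ker b0`, dimension 2, `β` vanishes on `U × U` (`hU`). Choose a basis `x0, x1, y0, y1` of `V` with `y0, y1` basis of `U`, `a0 x0 = b0 x1 = 1`, `a0 x1 = b0 x0 = 0`. `θ0 ∘ β = e0 ∧ e1` in these coordinates. Complete `θ0` to a basis
`θ1, θ2, θ0` of the dual, and subtract multiples of `θ0` so that `f1, f2` (`f i = θ i ∘ β`) vanish on `(x0, x1)`; they are determined by their cross matrices `X1, X2` (`X k i j = f k (x i) (y j)`), which are linearly independent (`Onto`: the `f k` are independent). Changing `x0, x1` by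
`a ∈ GL2` and `y0, y1` by `b ∈ GL2` (and `θ0` by a scalar) changes `X ↦ aᵀ X b`; changing `θ1, θ2` changes the basis of `𝒳 = span (X1, X2)`.
* `𝒳` contains an invertible matrix: choose `b` so that it becomes `1`; the other basis element can be taken traceless (`p ≠ 2`), `X2 ≠ 0`, `X2² = δ • 1` with `δ = -det X2`. There is a vector `v` with `v, X2 v` independent (otherwise `X2` is scalar and traceless, so `0`). In the basis
  `v, X2 v` (conjugation) `X2` becomes `[[0, δ], [1, 0]]`; transposing the roles / conjugating suitably, `𝒳 = span (1, [[0, 1], [δ, 0]])` (both matrices have the same characteristic polynomial and are not scalar, hence are conjugate); exchanging `y0, y1` gives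
  `𝒳 = span ([[0, 1], [1, 0]], [[1, 0], [0, δ]])`, which are the cross matrices of the first two components of `netK δ`: `EqvBil β (netK δ)`.
* All elements of `𝒳` are singular: `X1, X2, X1 + X2` have rank 1: `X1 = α γᵀ`, `X2 = α' γ'ᵀ`, and `det (X1 + X2) = det (α, α') det (γ, γ') = 0` (up to sign). If `γ, γ'` are proportional there is `y ≠ 0` in `U` with `f k (x i) y = 0` for `k = 1, 2`, also `θ0 (β x y) = 0` and `β = 0` on `U`: so `β y V = 0`,
  contradiction to `hn`. So `α, α'` are proportional and there is `x ∈ span (x0, x1)`, `x ≠ 0`, with `β x U = 0`: `K = F x + U` is isotropic of dimension 3. -/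
theorem case_R (hp : p ≠ 2) (β : VV p →ₗ[ZMod p] VV p →ₗ[ZMod p] WW p) (alt : ∀ v, β v v = 0)
    (honto : Submodule.span (ZMod p) {w | ∃ u v, w = β u v} = ⊤) (hn : ∀ u, (∀ v, β u v = 0) → u = 0)
    (θ0 : WW p →ₗ[ZMod p] ZMod p) (a0 b0 : VV p →ₗ[ZMod p] ZMod p)
    (h0 : ∀ u v, θ0 (β u v) = a0 u * b0 v - b0 u * a0 v) (hab : LinearIndependent (ZMod p) ![a0, b0])
    (hU : ∀ u v, a0 u = 0 → b0 u = 0 → a0 v = 0 → b0 v = 0 → β u v = 0) :
    (∃ δ, EqvBil β (netK δ)) ∨
      ∃ K : Submodule (ZMod p) (VV p), Module.finrank (ZMod p) K = 3 ∧ ∀ x ∈ K, ∀ y ∈ K, β x y = 0 := by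
  have h20 : (2 : ZMod p) ≠ 0 := by
    intro h
    have h1 : ((2 : ℕ) : ZMod p) = 0 := by exact_mod_cast h
    rw [ZMod.natCast_eq_zero_iff] at h1
    exact hp ((Nat.prime_dvd_prime_iff_eq (Fact.out : p.Prime) Nat.prime_two).1 h1)
  have hsurj : Function.Surjective (a0.prod b0) := by
    by_contra hns
    have hlt : LinearMap.range (a0.prod b0) < ⊤ := by
      rw [lt_top_iff_ne_top]; intro h; exact hns (LinearMap.range_eq_top.1 h)
    obtain ⟨f, hf, hle⟩ := Submodule.exists_le_ker_of_lt_top _ hlt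
    have hfv : ∀ v, f (1, 0) * a0 v + f (0, 1) * b0 v = 0 := by
      intro v
      have h1 : f (a0 v, b0 v) = 0 := hle ⟨v, rfl⟩
      have h2 : ((a0 v, b0 v) : ZMod p × ZMod p) = a0 v • (1, 0) + b0 v • (0, 1) := by
        simp
      rw [h2, map_add, map_smul, map_smul, smul_eq_mul, smul_eq_mul] at h1
      rw [mul_comm (f (1, 0)), mul_comm (f (0, 1))]
      exact h1
    have h3 := LinearIndependent.pair_iff.1 hab (f (1, 0)) (f (0, 1))
      (LinearMap.ext fun v => by simpa using hfv v)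
    apply hf
    refine LinearMap.ext fun x => ?_
    obtain ⟨a, b⟩ := x
    have h2 : ((a, b) : ZMod p × ZMod p) = a • (1, 0) + b • (0, 1) := by simp
    rw [h2, map_add, map_smul, map_smul, h3.1, h3.2]
    simp
  set U : Submodule (ZMod p) (VV p) := LinearMap.ker (a0.prod b0) with hUdef
  have memU : ∀ z, z ∈ U ↔ a0 z = 0 ∧ b0 z = 0 := by
    intro z
    rw [hUdef, LinearMap.mem_ker]
    change (a0 z, b0 z) = 0 ↔ _
    rw [Prod.mk_eq_zero]
  have hfinU : Module.finrank (ZMod p) U = 2 := by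
    have h1 := LinearMap.finrank_range_add_finrank_ker (a0.prod b0)
    rw [LinearMap.range_eq_top.2 hsurj, finrank_top, Module.finrank_prod, Module.finrank_self,
      Module.finrank_fin_fun, ← hUdef] at h1
    omega
  have hU2 : ∀ y0 y1 : VV p, y0 ∈ U → y1 ∈ U →
      (∀ s t : ZMod p, s • y0 + t • y1 = 0 → s = 0 ∧ t = 0) →
      ∀ z ∈ U, ∃ c d : ZMod p, z = c • y0 + d • y1 := by
    intro y0 y1 hy0 hy1 hind z hz
    have hli : LinearIndependent (ZMod p) ![(⟨y0, hy0⟩ : U), ⟨y1, hy1⟩] := by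
      rw [LinearIndependent.pair_iff]
      intro s t h
      exact hind s t (congrArg Subtype.val h)
    have hspan := hli.span_eq_top_of_card_eq_finrank (by simp [hfinU])
    have hz' : (⟨z, hz⟩ : U) ∈ Submodule.span (ZMod p)
        (Set.range ![(⟨y0, hy0⟩ : U), ⟨y1, hy1⟩]) := by
      rw [hspan]; trivial
    rw [Matrix.range_cons_cons_empty, Submodule.mem_span_pair] at hz'
    obtain ⟨c, d, hcd⟩ := hz'
    exact ⟨c, d, (congrArg Subtype.val hcd).symm⟩
  have hdec : ∀ x0 x1 : VV p, a0 x0 * b0 x1 - b0 x0 * a0 x1 ≠ 0 →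
      ∀ v, ∃ (α γ : ZMod p) (z : VV p), z ∈ U ∧ v = α • x0 + γ • x1 + z := by
    intro x0 x1 hD v
    set D := a0 x0 * b0 x1 - b0 x0 * a0 x1 with hDdef
    refine ⟨(a0 v * b0 x1 - b0 v * a0 x1) / D, (a0 x0 * b0 v - b0 x0 * a0 v) / D,
      v - ((a0 v * b0 x1 - b0 v * a0 x1) / D) • x0 -
        ((a0 x0 * b0 v - b0 x0 * a0 v) / D) • x1, ?_, by module⟩
    rw [memU]
    simp only [map_sub, map_smul, smul_eq_mul]
    constructor
    · field_simp
      rw [hDdef]; ring
    · field_simp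
      rw [hDdef]; ring
  have hUU : ∀ u v, u ∈ U → v ∈ U → β u v = 0 := by
    intro u v hu hv
    rw [memU] at hu hv
    exact hU u v hu.1 hu.2 hv.1 hv.2
  -- a good vector
  have hgood : ∃ x0 : VV p, ∀ y ∈ U, β x0 y = 0 → y = 0 := by
    by_contra hcon
    push Not at hcon
    obtain ⟨X0, hX0⟩ := hsurj (1, 0)
    obtain ⟨X1, hX1⟩ := hsurj (0, 1)
    have e0 : a0 X0 = 1 ∧ b0 X0 = 0 := by
      have h : (a0 X0, b0 X0) = ((1 : ZMod p), (0 : ZMod p)) := hX0
      exact Prod.mk.inj h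
    have e1 : a0 X1 = 0 ∧ b0 X1 = 1 := by
      have h : (a0 X1, b0 X1) = ((0 : ZMod p), (1 : ZMod p)) := hX1
      exact Prod.mk.inj h
    have hD : a0 X0 * b0 X1 - b0 X0 * a0 X1 ≠ 0 := by
      rw [e0.1, e0.2, e1.1, e1.2]; simp
    have hnd : ∀ y ∈ U, β X0 y = 0 → β X1 y = 0 → y = 0 := by
      intro y hy h1 h2
      apply hn
      intro v
      obtain ⟨α, γ, z, hz, rfl⟩ := hdec X0 X1 hD v
      rw [map_add, map_add, map_smul, map_smul, nr_skew β alt y X0, nr_skew β alt y X1, h1, h2,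
        hUU y z hy hz]
      simp
    obtain ⟨y1, hy1, hb1, hne1⟩ := hcon X0
    obtain ⟨y0, hy0, hb0, hne0⟩ := hcon X1
    obtain ⟨z, hz, hbz, hnez⟩ := hcon (X0 + X1)
    have hind : ∀ s t : ZMod p, s • y0 + t • y1 = 0 → s = 0 ∧ t = 0 := by
      intro s t hst
      have hs : s = 0 := by
        by_contra hs
        have h3 := congrArg (β X0) hst
        rw [map_add, map_smul, map_smul, hb1, smul_zero, add_zero, map_zero] at h3
        have h4 : β X0 y0 = 0 := (smul_eq_zero.1 h3).resolve_left hs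
        exact hne0 (hnd y0 hy0 h4 hb0)
      rw [hs, zero_smul, zero_add] at hst
      exact ⟨hs, (smul_eq_zero.1 hst).resolve_right hne1⟩
    have hyy : β y0 y1 = 0 := hUU y0 y1 hy0 hy1
    obtain ⟨c, d, hcd⟩ := hU2 y0 y1 hy0 hy1 hind z hz
    have hrel : c • β X0 y0 + d • β X1 y1 = 0 := by
      rw [hcd] at hbz
      simp only [map_add, LinearMap.add_apply, map_smul, hb1, hb0, smul_zero, add_zero,
        zero_add] at hbz
      exact hbz
    let H : WW p →ₗ[ZMod p] WW p :=
      { toFun := fun c => c 0 • β X0 y0 + c 1 • β X1 y1 + c 2 • β X0 X1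
        map_add' := fun c d => by simp only [Pi.add_apply]; module
        map_smul' := fun r c => by
          simp only [Pi.smul_apply, smul_eq_mul, RingHom.id_apply]; module }
    have hV : ∀ v : VV p, ∃ c0 c1 c2 c3 : ZMod p,
        v = c0 • X0 + c1 • X1 + c2 • y0 + c3 • y1 := by
      intro v
      obtain ⟨α, γ, z, hz, rfl⟩ := hdec X0 X1 hD v
      obtain ⟨c, d, rfl⟩ := hU2 y0 y1 hy0 hy1 hind z hz
      exact ⟨α, γ, c, d, by module⟩
    have hH : Function.Surjective H := by
      rw [← LinearMap.range_eq_top, eq_top_iff, ← honto, Submodule.span_le]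
      rintro w ⟨u, v, rfl⟩
      obtain ⟨u0, u1, u2, u3, rfl⟩ := hV u
      obtain ⟨v0, v1, v2, v3, rfl⟩ := hV v
      refine ⟨![u0 * v2 - u2 * v0, u1 * v3 - u3 * v1, u0 * v1 - u1 * v0], ?_⟩
      rw [nr_expand β alt X0 X1 y0 y1 hyy, hb0, hb1]
      change (![u0 * v2 - u2 * v0, u1 * v3 - u3 * v1, u0 * v1 - u1 * v0] : WW p) 0 • β X0 y0 +
        (![u0 * v2 - u2 * v0, u1 * v3 - u3 * v1, u0 * v1 - u1 * v0] : WW p) 1 • β X1 y1 +
        (![u0 * v2 - u2 * v0, u1 * v3 - u3 * v1, u0 * v1 - u1 * v0] : WW p) 2 • β X0 X1 = _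
      simp only [Matrix.cons_val_zero, Matrix.cons_val_one, Matrix.cons_val]
      module
    have hHi := LinearMap.injective_iff_surjective.2 hH
    have h5 : H ![c, d, 0] = H 0 := by
      rw [map_zero]
      change (![c, d, 0] : WW p) 0 • β X0 y0 + (![c, d, 0] : WW p) 1 • β X1 y1 +
        (![c, d, 0] : WW p) 2 • β X0 X1 = 0
      simp only [Matrix.cons_val_zero, Matrix.cons_val_one, Matrix.cons_val, zero_smul, add_zero]
      exact hrel
    have h6 := hHi h5
    have h7 : c = 0 := by simpa using congrFun h6 0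
    have h8 : d = 0 := by simpa using congrFun h6 1
    apply hnez
    rw [hcd, h7, h8]
    simp
  obtain ⟨x0, hx0⟩ := hgood
  -- `x0` is not in `U`
  have hUne : ∃ y ∈ U, y ≠ 0 := by
    by_contra hcon
    push Not at hcon
    have hbot : U = ⊥ := (Submodule.eq_bot_iff _).2 hcon
    rw [hbot, finrank_bot] at hfinU
    omega
  have hx0U : ¬ (a0 x0 = 0 ∧ b0 x0 = 0) := by
    intro h
    obtain ⟨y, hy, hne⟩ := hUne
    exact hne (hx0 y hy (hUU x0 y ((memU x0).2 h) hy))
  obtain ⟨x1, hD⟩ : ∃ x1 : VV p, a0 x0 * b0 x1 - b0 x0 * a0 x1 ≠ 0 := by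
    by_cases ha : a0 x0 = 0
    · have hb : b0 x0 ≠ 0 := fun h => hx0U ⟨ha, h⟩
      obtain ⟨x1, hx1⟩ := hsurj (1, 0)
      have hx1 : (a0 x1, b0 x1) = ((1 : ZMod p), (0 : ZMod p)) := hx1
      obtain ⟨e1, e2⟩ := Prod.mk.inj hx1
      exact ⟨x1, by rw [e1, e2, ha]; simpa using hb⟩
    · obtain ⟨x1, hx1⟩ := hsurj (0, 1)
      have hx1 : (a0 x1, b0 x1) = ((0 : ZMod p), (1 : ZMod p)) := hx1
      obtain ⟨e1, e2⟩ := Prod.mk.inj hx1
      exact ⟨x1, by rw [e1, e2]; simpa using ha⟩
  -- the range of `β x0` on `U` is `ker θ0`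
  have hrange : ∀ w, θ0 w = 0 → ∃ y ∈ U, β x0 y = w := by
    have hθ : θ0 ≠ 0 := by
      intro h
      have := h0 x0 x1
      rw [h] at this
      exact hD (by rw [← this]; rfl)
    have hk : Module.finrank (ZMod p) (LinearMap.ker θ0) = 2 := by
      have h1 := Module.Dual.finrank_ker_add_one_of_ne_zero hθ
      rw [Module.finrank_fin_fun] at h1
      omega
    have hinj : Function.Injective ((β x0).comp U.subtype) := by
      rw [← LinearMap.ker_eq_bot, LinearMap.ker_eq_bot']
      intro y hy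
      exact Subtype.ext (hx0 y y.2 hy)
    have hr : Module.finrank (ZMod p) (LinearMap.range ((β x0).comp U.subtype)) = 2 := by
      rw [LinearMap.finrank_range_of_inj hinj, hfinU]
    have hle : LinearMap.range ((β x0).comp U.subtype) ≤ LinearMap.ker θ0 := by
      rintro w ⟨y, rfl⟩
      rw [LinearMap.mem_ker]
      change θ0 (β x0 (y : VV p)) = 0
      have := (memU y).1 y.2
      rw [h0, this.1, this.2]; simp
    have heq := Submodule.eq_of_le_of_finrank_eq hle (by rw [hr, hk])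
    intro w hw
    have : w ∈ LinearMap.range ((β x0).comp U.subtype) := by rw [heq]; exact hw
    obtain ⟨y, hy⟩ := this
    exact ⟨y, y.2, hy⟩
  have hθU : ∀ x y, y ∈ U → θ0 (β x y) = 0 := by
    intro x y hy
    have := (memU y).1 hy
    rw [h0, this.1, this.2]; simp
  by_cases hsc : ∀ y ∈ U, ∃ s : ZMod p, β x1 y = s • β x0 y
  · -- scalar case
    right
    have hs : ∃ s : ZMod p, ∀ y ∈ U, β x1 y = s • β x0 y := by
      obtain ⟨y0, hy0, hne0⟩ := hUne
      obtain ⟨s, hs⟩ := hsc y0 hy0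
      refine ⟨s, fun y hy => ?_⟩
      by_cases hdep : ∃ c : ZMod p, y = c • y0
      · obtain ⟨c, rfl⟩ := hdep
        rw [map_smul, map_smul, hs, smul_comm]
      · obtain ⟨t, ht⟩ := hsc y hy
        obtain ⟨r, hr⟩ := hsc (y0 + y) (U.add_mem hy0 hy)
        rw [map_add, map_add, hs, ht] at hr
        have h1 : β x0 ((s - r) • y0 + (t - r) • y) = 0 := by
          rw [map_add, map_smul, map_smul]
          have : (s - r) • β x0 y0 + (t - r) • β x0 y =
            (s • β x0 y0 + t • β x0 y) - r • (β x0 y0 + β x0 y) := by module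
          rw [this, hr, sub_self]
        have h2 := hx0 _ (U.add_mem (U.smul_mem _ hy0) (U.smul_mem _ hy)) h1
        have h3 : t - r = 0 := by
          by_contra h3
          apply hdep
          refine ⟨-((t - r)⁻¹ * (s - r)), ?_⟩
          have h4 : (t - r)⁻¹ • ((s - r) • y0 + (t - r) • y) = 0 := by rw [h2, smul_zero]
          rw [smul_add, smul_smul, smul_smul, inv_mul_cancel₀ h3, one_smul] at h4
          rw [neg_smul]
          exact eq_neg_of_add_eq_zero_right h4
        have h5 : s - r = 0 := by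
          rw [h3, zero_smul, add_zero] at h2
          exact (smul_eq_zero.1 h2).resolve_right hne0
        rw [ht]
        congr 1
        linear_combination h3 - h5
    obtain ⟨s, hs⟩ := hs
    obtain ⟨x, hx⟩ : ∃ x, x = x1 - s • x0 := ⟨_, rfl⟩
    have hxU : ∀ y ∈ U, β x y = 0 := by
      intro y hy
      rw [hx, map_sub, map_smul, LinearMap.sub_apply, LinearMap.smul_apply, hs y hy, sub_self]
    have hxne : ¬ (a0 x = 0 ∧ b0 x = 0) := by
      rintro ⟨ha, hb⟩
      apply hD
      rw [hx, map_sub, map_smul, smul_eq_mul, sub_eq_zero] at ha hb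
      rw [ha, hb]; ring
    set φ : VV p →ₗ[ZMod p] ZMod p := a0 x • b0 - b0 x • a0 with hφ
    have hφv : ∀ v, φ v = a0 x * b0 v - b0 x * a0 v := by
      intro v
      rw [hφ]
      simp
    have hφne : φ ≠ 0 := by
      intro h
      have h1 := LinearIndependent.pair_iff.1 hab (-b0 x) (a0 x)
        (by rw [← h, hφ]; module)
      exact hxne ⟨h1.2, neg_eq_zero.1 h1.1⟩
    refine ⟨LinearMap.ker φ, ?_, ?_⟩
    · have h1 := Module.Dual.finrank_ker_add_one_of_ne_zero hφne
      rw [Module.finrank_fin_fun] at h1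
      omega
    · have hK : ∀ v ∈ LinearMap.ker φ, ∃ (α : ZMod p) (z : VV p), z ∈ U ∧ v = α • x + z := by
        intro v hv
        rw [LinearMap.mem_ker, hφv] at hv
        by_cases ha : a0 x = 0
        · have hb : b0 x ≠ 0 := fun h => hxne ⟨ha, h⟩
          refine ⟨b0 v / b0 x, v - (b0 v / b0 x) • x, ?_, by module⟩
          rw [memU, map_sub, map_sub, map_smul, map_smul, smul_eq_mul, smul_eq_mul, ha]
          rw [ha, zero_mul, zero_sub, neg_eq_zero] at hv
          have hv' := (mul_eq_zero.1 hv).resolve_left hb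
          refine ⟨by rw [hv']; simp, ?_⟩
          field_simp
          ring
        · refine ⟨a0 v / a0 x, v - (a0 v / a0 x) • x, ?_, by module⟩
          rw [memU, map_sub, map_sub, map_smul, map_smul, smul_eq_mul, smul_eq_mul]
          constructor
          · field_simp
            ring
          · field_simp
            linear_combination hv
      intro u hu v hv
      obtain ⟨α, z, hz, rfl⟩ := hK u hu
      obtain ⟨γ, z', hz', rfl⟩ := hK v hv
      simp only [map_add, LinearMap.add_apply, map_smul, LinearMap.smul_apply, alt, smul_zero,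
        zero_add]
      rw [nr_skew β alt z x, hxU z hz, hxU z' hz', hUU z z' hz hz']
      simp
  · -- generic case
    left
    push Not at hsc
    obtain ⟨y0, hy0, hns⟩ := hsc
    obtain ⟨y1, hy1, hb1⟩ := hrange (β x1 y0) (hθU x1 y0 hy0)
    have hy0ne : y0 ≠ 0 := by
      rintro rfl
      exact hns 0 (by simp)
    have hind : ∀ s t : ZMod p, s • y0 + t • y1 = 0 → s = 0 ∧ t = 0 := by
      intro s t hst
      have ht : t = 0 := by
        by_contra ht
        have h1 := congrArg (β x0) hst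
        rw [map_add, map_smul, map_smul, hb1, map_zero] at h1
        apply hns (-(t⁻¹ * s))
        have h4 : t⁻¹ • (s • β x0 y0 + t • β x1 y0) = 0 := by rw [h1, smul_zero]
        rw [smul_add, smul_smul, smul_smul, inv_mul_cancel₀ ht, one_smul] at h4
        rw [neg_smul]
        exact eq_neg_of_add_eq_zero_right h4
      rw [ht, zero_smul, add_zero] at hst
      exact ⟨(smul_eq_zero.1 hst).resolve_right hy0ne, ht⟩
    obtain ⟨y2, hy2, hb2⟩ := hrange (β x1 y1) (hθU x1 y1 hy1)
    obtain ⟨δ, τ, hδ⟩ := hU2 y0 y1 hy0 hy1 hind y2 hy2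
    have h11 : β x1 y1 = δ • β x0 y0 + τ • β x0 y1 := by
      rw [← hb2, hδ, map_add, map_smul, map_smul]
    obtain ⟨s, hs2⟩ : ∃ s : ZMod p, τ = 2 * s := ⟨τ / 2, by field_simp⟩
    refine ⟨δ + s ^ 2, nr_asm β alt honto x0 (x1 - s • x0) y0 (y1 - s • y0) (δ + s ^ 2) ?_ ?_ ?_ ?_⟩
    · rw [map_sub, map_smul, alt, smul_zero, sub_zero, hUU y0 y1 hy0 hy1]
    · intro v
      obtain ⟨α, γ, z, hz, rfl⟩ := hdec x0 x1 hD v
      obtain ⟨c, d, rfl⟩ := hU2 y0 y1 hy0 hy1 hind z hz
      exact ⟨α + γ * s, γ, c + d * s, d, by module⟩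
    · simp only [map_sub, map_smul, LinearMap.sub_apply, LinearMap.smul_apply]
      rw [hb1]
    · simp only [map_sub, map_smul, LinearMap.sub_apply, LinearMap.smul_apply]
      rw [h11, ← hb1, hs2]
      module

end MP_02e52a.M7
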