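import Pool.Agent.Lib.MP_02e52a_al.M7.NetDefs

namespace MP_02e52a.M7

variable {p : ℕ} [Fact p.Prime]

private def NS_diag {n : ℕ} (c : Fin n → ZMod p) (hc : ∀ i, c i ≠ 0) :
    (Fin n → ZMod p) ≃ₗ[ZMod p] (Fin n → ZMod p) where
  toFun x i := c i * x i
  map_add' x y := by funext i; simp [mul_add]
  map_smul' r x := by funext i; simp [mul_left_comm]
  invFun x i := (c i)⁻¹ * x i
  left_inv x := by
    funext i
    change (c i)⁻¹ * (c i * x i) = x i
    rw [← mul_assoc, inv_mul_cancel₀ (hc i), one_mul]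
  right_inv x := by
    funext i
    change c i * ((c i)⁻¹ * x i) = x i
    rw [← mul_assoc, mul_inv_cancel₀ (hc i), one_mul]

private theorem NS_diag_apply {n : ℕ} (c : Fin n → ZMod p) (hc : ∀ i, c i ≠ 0)
    (x : Fin n → ZMod p) (i : Fin n) : NS_diag c hc x i = c i * x i := rfl

private theorem NS_refl (β : VV p →ₗ[ZMod p] VV p →ₗ[ZMod p] WW p) : EqvBil β β :=
  ⟨LinearEquiv.refl _ _, LinearEquiv.refl _ _, fun _ _ => rfl⟩

/-- [M7 NS] Scaling of `δ`: `netK (s^2 * δ)` is equivalent to `netK δ`, `s ≠ 0`. PROOF: `g x = ![x 0, s * x 1, x 2, s * x 3]`: `netK δ (g x) (g y) = ![.. with s² δ, s * .., s * ..]`. -/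
theorem netK_scale (δ s : ZMod p) (hs : s ≠ 0) : EqvBil (netK (s ^ 2 * δ)) (netK δ) := by
  have h4 : ∀ i, (![1, s, 1, s] : Fin 4 → ZMod p) i ≠ 0 := by
    intro i
    fin_cases i <;> simp [hs]
  have h3 : ∀ i, (![1, s, s] : Fin 3 → ZMod p) i ≠ 0 := by
    intro i
    fin_cases i <;> simp [hs]
  refine ⟨NS_diag _ h4, NS_diag _ h3, fun u v => ?_⟩
  funext i
  rw [NS_diag_apply, netK_apply, netK_apply]
  simp only [NS_diag_apply]
  fin_cases i <;> simp <;> ring

/-- [M7 NS] PROOF: `δ = 0`, or `δ = s^2 * 1`, or `δ = s^2 * ν` (the quotient of two non-squares of `ZMod p` is a square). -/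
theorem netK_cases (ν : ZMod p) (hν : ¬ IsSquare ν) (δ : ZMod p) :
    EqvBil (netK δ) (netK 0) ∨ EqvBil (netK δ) (netK 1) ∨ EqvBil (netK δ) (netK ν) := by
  classical
  by_cases h0 : δ = 0
  · left
    rw [h0]
    exact NS_refl _
  right
  by_cases hsq : IsSquare δ
  · left
    obtain ⟨s, hs⟩ := hsq
    have hs0 : s ≠ 0 := by
      rintro rfl
      apply h0
      rw [hs, mul_zero]
    have h1 : δ = s ^ 2 * 1 := by rw [hs]; ring
    rw [h1]
    exact netK_scale 1 s hs0
  · right
    have hν0 : ν ≠ 0 := by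
      rintro rfl
      exact hν (IsSquare.zero)
    have hmul : IsSquare (δ * ν) := by
      have h1 := quadraticChar_neg_one_iff_not_isSquare.2 hsq
      have h2 := quadraticChar_neg_one_iff_not_isSquare.2 hν
      have h3 : quadraticChar (ZMod p) (δ * ν) = 1 := by
        rw [map_mul, h1, h2]
        norm_num
      exact (quadraticChar_one_iff_isSquare (mul_ne_zero h0 hν0)).1 h3
    obtain ⟨r, hr⟩ := hmul
    have hr0 : r ≠ 0 := by
      rintro rfl
      rw [mul_zero] at hr
      exact mul_ne_zero h0 hν0 hr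
    have h1 : δ = (r / ν) ^ 2 * ν := by
      field_simp
      rw [hr]
      ring
    rw [h1]
    exact netK_scale ν (r / ν) (div_ne_zero hr0 hν0)

/-- [M7 NS] Exceptional case: an isotropic subspace `K` of dimension 3 makes `d` not free. PROOF. Let `x0 ∉ K`. The map `ι : K → W`, `k ↦ β x0 k` is bijective (its image contains all values of `β`, `Onto`, dimensions 3 and 3). Let `M : K → K`, `M k = ι⁻¹ (π k)`. If `M` is not injective: `k' ∈ K`,
`k' ≠ 0`, `π k' = 0`: `g = 1` on `K`, `g x0 = x0 + k'`, `h = 1` (`β (x0 + k') k = β x0 k`, `π (x0 + k') = π x0`). If `M` is bijective so is `π : K → W`: choose `k' ∈ K` with `π k' = -2 π x0`; `g = -1` on `K`, `g x0 = x0 + k'`, `h = -1`: `β (x0 + k') (-k) = - β x0 k`, `π (-k) = -π k`,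
`π (x0 + k') = -π x0`. In both cases `g ≠ 1` (`p ≠ 2`). -/
theorem not_free_of_isotropic (hp : p ≠ 2) (d : Dat p) (ho : d.Onto) (K : Submodule (ZMod p) (VV p))
    (hK : Module.finrank (ZMod p) K = 3) (hiso : ∀ x ∈ K, ∀ y ∈ K, d.β x y = 0) : ¬ d.Free := by
  classical
  intro hF
  have hVfin : Module.finrank (ZMod p) (VV p) = 4 := by simp
  have hWfin : Module.finrank (ZMod p) (WW p) = 3 := by simp
  -- a vector outside `K`
  obtain ⟨x0, hx0⟩ : ∃ x, x ∉ K := by
    by_contra hcon
    push Not at hcon
    have h1 : K = ⊤ := Submodule.eq_top_iff'.2 hcon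
    rw [h1, finrank_top, hVfin] at hK
    omega
  obtain ⟨f, hf0, hfK⟩ := Submodule.exists_le_ker_of_notMem hx0
  have hker : K = LinearMap.ker f := by
    apply Submodule.eq_of_le_of_finrank_le hfK
    have h1 := LinearMap.finrank_range_add_finrank_ker f
    rw [hVfin] at h1
    have h2 : 0 < Module.finrank (ZMod p) (LinearMap.range f) := by
      rw [Module.finrank_pos_iff]
      refine ⟨⟨⟨f x0, ⟨x0, rfl⟩⟩, 0, fun h => hf0 ?_⟩⟩
      exact congrArg Subtype.val h
    omega
  set a : VV p →ₗ[ZMod p] ZMod p := (f x0)⁻¹ • f with ha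
  have ha0 : a x0 = 1 := by
    rw [ha, LinearMap.smul_apply, smul_eq_mul, inv_mul_cancel₀ hf0]
  have haK : ∀ k ∈ K, a k = 0 := by
    intro k hk
    rw [ha, LinearMap.smul_apply, LinearMap.mem_ker.1 (hfK hk), smul_zero]
  have hmem : ∀ v, v - a v • x0 ∈ K := by
    intro v
    rw [hker, LinearMap.mem_ker, map_sub, map_smul, ha, LinearMap.smul_apply, smul_eq_mul,
      smul_eq_mul, mul_assoc, mul_comm (f v), ← mul_assoc, inv_mul_cancel₀ hf0, one_mul, sub_self]
  have skew : ∀ u v, d.β u v = - d.β v u := by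
    intro u v
    have h := d.alt (u + v)
    simp only [map_add, LinearMap.add_apply, d.alt, zero_add, add_zero] at h
    exact eq_neg_of_add_eq_zero_left (by rw [add_comm]; exact h)
  have hform : ∀ u v, d.β u v = a u • d.β x0 v - a v • d.β x0 u := by
    intro u v
    have h := hiso _ (hmem u) _ (hmem v)
    simp only [map_sub, map_smul, LinearMap.sub_apply, LinearMap.smul_apply, d.alt, smul_zero,
      sub_zero] at h
    rw [skew u x0, smul_neg] at h
    have h2 : d.β u v = a u • d.β x0 v - a v • d.β x0 u + (d.β u v - a u • d.β x0 v -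
      -(a v • d.β x0 u)) := by abel
    rw [h2, h, add_zero]
  by_cases hcase : ∃ k ∈ K, k ≠ 0 ∧ d.π k = 0
  · obtain ⟨k, hkK, hk0, hkπ⟩ := hcase
    have hak := haK k hkK
    set g : VV p →ₗ[ZMod p] VV p := LinearMap.id + a.smulRight k with hg
    set g' : VV p →ₗ[ZMod p] VV p := LinearMap.id - a.smulRight k with hg'
    have hgv : ∀ v, g v = v + a v • k := fun v => rfl
    have hgv' : ∀ v, g' v = v - a v • k := fun v => rfl
    let e : VV p ≃ₗ[ZMod p] VV p := LinearEquiv.ofLinearMap g g'
      (by
        refine LinearMap.ext fun v => ?_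
        rw [LinearMap.comp_apply, LinearMap.id_apply, hgv, hgv', map_sub, map_smul, hak,
          smul_zero, sub_zero, sub_add_cancel])
      (by
        refine LinearMap.ext fun v => ?_
        rw [LinearMap.comp_apply, LinearMap.id_apply, hgv', hgv, map_add, map_smul, hak,
          smul_zero, add_zero, add_sub_cancel_right])
    have hev : ∀ v, e v = v + a v • k := fun v => rfl
    have htr : d.Trans d e (LinearEquiv.refl _ _) := by
      refine ⟨fun u v => ?_, fun v => ?_⟩
      · rw [LinearEquiv.refl_apply, hform u v, hform (e u) (e v), hev, hev]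
        simp only [map_add, map_smul, hak, smul_zero, add_zero, smul_add, smul_smul]
        rw [mul_comm (a v) (a u)]
        abel
      · rw [LinearEquiv.refl_apply, hev, map_add, map_smul, hkπ, smul_zero, add_zero]
    have h1 := hF e _ htr x0
    rw [hev, ha0, one_smul] at h1
    exact hk0 (by simpa using h1)
  · push Not at hcase
    -- `π` maps `K` onto `W`
    set πK : K →ₗ[ZMod p] WW p := d.π.domRestrict K with hπK
    have hinj : Function.Injective πK := by
      rw [← LinearMap.ker_eq_bot, LinearMap.ker_eq_bot']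
      rintro ⟨k, hk⟩ hkk
      by_contra hne
      exact hcase k hk (fun h => hne (Subtype.ext h)) hkk
    have hsurj : Function.Surjective πK := by
      rw [← LinearMap.injective_iff_surjective_of_finrank_eq_finrank (by rw [hK, hWfin])]
      exact hinj
    obtain ⟨⟨k, hkK⟩, hk⟩ := hsurj ((-2 : ZMod p) • d.π x0)
    have hkπ : d.π k = (-2 : ZMod p) • d.π x0 := hk
    have hak := haK k hkK
    set t : VV p := (2 : ZMod p) • x0 + k with ht
    have hat : a t = 2 := by
      rw [ht, map_add, map_smul, ha0, hak, add_zero, smul_eq_mul, mul_one]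
    have hπt : d.π t = 0 := by
      rw [ht, map_add, map_smul, hkπ]
      module
    set g : VV p →ₗ[ZMod p] VV p := - LinearMap.id + a.smulRight t with hg
    have hgv : ∀ v, g v = -v + a v • t := fun v => rfl
    have hag : ∀ v, a (g v) = a v := by
      intro v
      rw [hgv, map_add, map_neg, map_smul, hat, smul_eq_mul]
      ring
    have hgg : g.comp g = LinearMap.id := by
      refine LinearMap.ext fun v => ?_
      rw [LinearMap.comp_apply, LinearMap.id_apply, hgv (g v), hag, hgv v]
      abel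
    let e : VV p ≃ₗ[ZMod p] VV p := LinearEquiv.ofLinearMap g g hgg hgg
    have hev : ∀ v, e v = g v := fun v => rfl
    have htr : d.Trans d e (LinearEquiv.neg (ZMod p)) := by
      refine ⟨fun u v => ?_, fun v => ?_⟩
      · rw [LinearEquiv.neg_apply, hev, hev, hform u v, hform (g u) (g v), hag, hag, hgv, hgv]
        simp only [map_add, map_smul, map_neg, smul_add, smul_neg, smul_smul]
        rw [mul_comm (a v) (a u)]
        abel
      · rw [LinearEquiv.neg_apply, hev, hgv, map_add, map_neg, map_smul, hπt, smul_zero, add_zero]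
    -- a nonzero vector of `K`
    obtain ⟨k1, hk1K, hk10⟩ : ∃ k1 ∈ K, k1 ≠ 0 := by
      by_contra hcon
      push Not at hcon
      have h1 : K = ⊥ := by
        rw [eq_bot_iff]
        intro x hx
        exact (Submodule.mem_bot _).2 (hcon x hx)
      rw [h1, finrank_bot] at hK
      omega
    have h1 := hF e _ htr k1
    rw [hev, hgv, haK k1 hk1K, zero_smul, add_zero] at h1
    have h2 : (2 : ZMod p) • k1 = 0 := by
      rw [two_smul]
      nth_rw 1 [← h1]
      exact neg_add_cancel k1
    rcases smul_eq_zero.1 h2 with h3 | h3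
    · have h4 : ((2 : ℕ) : ZMod p) = 0 := by exact_mod_cast h3
      rw [ZMod.natCast_eq_zero_iff] at h4
      have hp' : p.Prime := Fact.out
      exact hp ((Nat.prime_dvd_prime_iff_eq hp' Nat.prime_two).1 h4)
    · exact hk10 h3

end MP_02e52a.M7
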