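import Pool.Agent.Lib.MP_02e52a_al.M7.N1
import Pool.Agent.Lib.MP_02e52a_al.M7.N2
import Pool.Agent.Lib.MP_02e52a_al.M7.NH
import Pool.Agent.Lib.MP_02e52a_al.M7.NR
import Pool.Agent.Lib.MP_02e52a_al.M7.NS

namespace MP_02e52a.M7

variable {p : ℕ} [Fact p.Prime]

/-- [M7 NASM] Normal form. PROOF: `exists_degenerate` gives `θ0`; `θ0 ∘ β ≠ 0` by `Onto`; `decomp`: `θ0 ∘ β = a0 ∧ b0`. If some `β u v ≠ 0` with `u, v ∈ ker a0 ∩ ker b0`, some functional `θ1` does not vanish on it: `case_H`. Otherwise `case_R`; the second alternative is excluded by `not_free_of_isotropic`; then `netK_cases`. -/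
theorem net_normal (hp : p ≠ 2) (ν : ZMod p) (hν : ¬ IsSquare ν) (d : Dat p) (ho : d.Onto) (hn : d.Nondeg)
    (hf : d.Free) : EqvBil d.β netM ∨ EqvBil d.β (netK 0) ∨ EqvBil d.β (netK 1) ∨ EqvBil d.β (netK ν) := by
  obtain ⟨θ0, hθ0, v0, hv0, hk⟩ := exists_degenerate d.β d.alt
  have hne : d.β.compr₂ θ0 ≠ 0 := by
    intro h
    apply hθ0
    have hz : ∀ u v, θ0 (d.β u v) = 0 := fun u v => by
      have := LinearMap.congr_fun (LinearMap.congr_fun h u) v
      simpa using this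
    have hle : (⊤ : Submodule (ZMod p) (WW p)) ≤ LinearMap.ker θ0 := by
      have ho' : Submodule.span (ZMod p) {w | ∃ u v, w = d.β u v} = ⊤ := ho
      rw [← ho', Submodule.span_le]
      rintro _ ⟨u, v, rfl⟩
      exact hz u v
    refine LinearMap.ext fun w => ?_
    have hw : w ∈ LinearMap.ker θ0 := hle trivial
    simpa using hw
  obtain ⟨a, b, hab, hli⟩ := decomp (F := ZMod p) (V := VV p) (by simp) (d.β.compr₂ θ0)
    (fun v => by simp [d.alt v]) hne ⟨v0, hv0, fun x => by simpa using hk x⟩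
  have hab' : ∀ u v, θ0 (d.β u v) = a u * b v - b u * a v := fun u v => by
    have := hab u v
    simpa using this
  by_cases hU : ∃ u v, a u = 0 ∧ b u = 0 ∧ a v = 0 ∧ b v = 0 ∧ d.β u v ≠ 0
  · obtain ⟨u, v, h1, h2, h3, h4, h5⟩ := hU
    obtain ⟨i, hi⟩ := Function.ne_iff.1 h5
    rcases case_H hp d.β d.alt ho θ0 a b hab' hli (LinearMap.proj i) u v ⟨h1, h2⟩ ⟨h3, h4⟩
      (by simpa using hi) with h | h
    · exact Or.inl h
    · exact Or.inr (Or.inr (Or.inl h))
  · push Not at hU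
    rcases case_R hp d.β d.alt ho hn θ0 a b hab' hli (fun u v h1 h2 h3 h4 => hU u v h1 h2 h3 h4)
      with ⟨δ, h⟩ | ⟨K, hK, hiso⟩
    · rcases netK_cases ν hν δ with h' | h' | h'
      · exact Or.inr (Or.inl (h.trans h'))
      · exact Or.inr (Or.inr (Or.inl (h.trans h')))
      · exact Or.inr (Or.inr (Or.inr (h.trans h')))
    · exact absurd hf (not_free_of_isotropic hp d ho K hK hiso)

end MP_02e52a.M7
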