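import Pool.Agent.Lib.MP_02e52a_al.M7.Fin1
import Pool.Agent.Lib.MP_02e52a_al.M7.NetNormal
import Pool.Agent.Lib.MP_02e52a_al.M7.NU
import Pool.Agent.Lib.MP_02e52a_al.M7.EF1
import Pool.Agent.Lib.MP_02e52a_al.M7.EF2
import Pool.Agent.Lib.MP_02e52a_al.M7.ED1
import Pool.Agent.Lib.MP_02e52a_al.M7.ED2
import Pool.Agent.Lib.MP_02e52a_al.M7.EH1
import Pool.Agent.Lib.MP_02e52a_al.M7.EH2
import Pool.Agent.Lib.MP_02e52a_al.M7.EH3
import Pool.Agent.Lib.MP_02e52a_al.M7.EM

/-! # The classification on the level of data -/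

namespace MP_02e52a.M7

variable {p : ℕ} [Fact p.Prime]

theorem Par.nondeg (ν : ZMod p) (x : Par p) : (x.dat ν).Nondeg := by
  cases x
  · exact nondeg_netM _
  · exact nondeg_netK _ _
  · exact nondeg_netK _ _
  · exact nondeg_netH _
  · exact nondeg_netH _
  · exact nondeg_netH _

theorem Par.onto (ν : ZMod p) (x : Par p) : (x.dat ν).Onto := by
  cases x
  · exact onto_netM _
  · exact onto_netK _ _
  · exact onto_netK _ _
  · exact onto_netH _
  · exact onto_netH _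
  · exact onto_netH _

theorem ne_zero_of_nonsquare (ν : ZMod p) (hν : ¬ IsSquare ν) : ν ≠ 0 := by
  rintro rfl
  exact hν ⟨0, by simp⟩

theorem Par.free_iff (hp : p ≠ 2) (ν : ZMod p) (hν : ¬ IsSquare ν) (x : Par p)
    (hx : ∀ α ε φ, x = .D α ε φ → φ ≠ 0) : (x.dat ν).Free ↔ x.Ok := by
  cases x with
  | M π => exact datM_free hp π
  | F A => exact piA_free hp ν (ne_zero_of_nonsquare ν hν) A
  | D α ε φ =>
    have h := hx α ε φ rfl
    rw [Par.Ok, Par.dat, piD_free α ε φ h]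
    simp [h]
  | H1 a b c d => exact piH1_free hp a b c d
  | H2 a b c d => exact piH2_free hp a b c d
  | H3 a b c d s t u => exact piH3_free a b c d s t u

theorem Par.free (hp : p ≠ 2) (ν : ZMod p) (hν : ¬ IsSquare ν) (x : Par p) (hx : x.Ok) : (x.dat ν).Free := by
  rw [Par.free_iff hp ν hν x]
  · exact hx
  · rintro α ε φ rfl
    exact hx.1

theorem dat_normal (hp : p ≠ 2) (ν : ZMod p) (hν : ¬ IsSquare ν) (d : Dat p) (ho : d.Onto) (hn : d.Nondeg)
    (hf : d.Free) : ∃ x : Par p, x.Ok ∧ d.Eqv (x.dat ν) := by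
  have main : ∃ x : Par p, (∀ α ε φ, x = .D α ε φ → φ ≠ 0) ∧ d.Eqv (x.dat ν) := by
    rcases net_normal hp ν hν d ho hn hf with e | e | e | e
    · obtain ⟨π, hπ⟩ := exists_transport d netM (datM 0).alt e
      exact ⟨.M π, by simp, hπ⟩
    · obtain ⟨π, hπ⟩ := exists_transport d (netK 0) (datK 0 0).alt e
      have hπ' : d.Eqv (datK 0 π) := hπ
      obtain ⟨α, ε, φ, hφ, h⟩ := dual_normal hp π (hπ'.free hf)
      refine ⟨.D α ε φ, ?_, hπ'.trans h⟩
      rintro α' ε' φ' h'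
      cases h'
      exact hφ
    · obtain ⟨π, hπ⟩ := exists_transport d netH (datH 0).alt (e.trans (netK_one_eqv hp))
      have hπ' : d.Eqv (datH π) := hπ
      rcases split_normal hp π (hπ'.free hf) with ⟨a, b, c, d', h⟩ | ⟨a, b, c, d', h⟩ |
        ⟨a, b, c, d', s, t, u, _, h⟩
      · exact ⟨.H1 a b c d', by simp, hπ'.trans h⟩
      · exact ⟨.H2 a b c d', by simp, hπ'.trans h⟩
      · exact ⟨.H3 a b c d' s t u, by simp, hπ'.trans h⟩
    · obtain ⟨π, hπ⟩ := exists_transport d (netK ν) (datK ν 0).alt e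
      have hπ' : d.Eqv (datK ν π) := hπ
      obtain ⟨A, h⟩ := field_normal hp ν hν π (hπ'.free hf)
      exact ⟨.F A, by simp, hπ'.trans h⟩
  obtain ⟨x, hx, he⟩ := main
  exact ⟨x, (Par.free_iff hp ν hν x hx).1 (he.free hf), he⟩

theorem par_rel (hp : p ≠ 2) (ν : ZMod p) (hν : ¬ IsSquare ν) (x y : Par p) (hx : x.Ok) (hy : y.Ok) :
    (x.dat ν).Eqv (y.dat ν) ↔ x.Rel y := by
  obtain ⟨i1, i2, i3, i4, i5, i6⟩ := inequivalent hp ν hν
  have hH : EqvBil (netK (1 : ZMod p)) netH := netK_one_eqv hp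
  have kM0 : ∀ π π' : VV p →ₗ[ZMod p] WW p, ¬ (datM π).Eqv (datK 0 π') := fun _ _ h => i1 h.eqvBil
  have kMν : ∀ π π' : VV p →ₗ[ZMod p] WW p, ¬ (datM π).Eqv (datK ν π') := fun _ _ h => i3 h.eqvBil
  have kMH : ∀ π π' : VV p →ₗ[ZMod p] WW p, ¬ (datM π).Eqv (datH π') :=
    fun _ _ h => i2 (h.eqvBil.trans hH.symm)
  have k0ν : ∀ π π' : VV p →ₗ[ZMod p] WW p, ¬ (datK 0 π).Eqv (datK ν π') := fun _ _ h => i5 h.eqvBil
  have k0H : ∀ π π' : VV p →ₗ[ZMod p] WW p, ¬ (datK 0 π).Eqv (datH π') :=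
    fun _ _ h => i4 (h.eqvBil.trans hH.symm)
  have kHν : ∀ π π' : VV p →ₗ[ZMod p] WW p, ¬ (datH π).Eqv (datK ν π') :=
    fun _ _ h => i6 (hH.trans h.eqvBil)
  cases x with
  | M π =>
    cases y with
    | M π' => exact datM_eqv hp π π' hx.1 hy.1
    | F A => simpa [Par.dat, Par.Rel] using kMν _ _
    | D α ε φ => simpa [Par.dat, Par.Rel] using kM0 _ _
    | H1 a b c d => simpa [Par.dat, Par.Rel] using kMH _ _
    | H2 a b c d => simpa [Par.dat, Par.Rel] using kMH _ _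
    | H3 a b c d s t u => simpa [Par.dat, Par.Rel] using kMH _ _
  | F A =>
    cases y with
    | M π' => simpa [Par.dat, Par.Rel] using fun h => kMν _ _ (Dat.Eqv.symm h)
    | F A' => exact piA_eqv hp ν (ne_zero_of_nonsquare ν hν) A A'
    | D α ε φ => simpa [Par.dat, Par.Rel] using fun h => k0ν _ _ (Dat.Eqv.symm h)
    | H1 a b c d => simpa [Par.dat, Par.Rel] using fun h => kHν _ _ (Dat.Eqv.symm h)
    | H2 a b c d => simpa [Par.dat, Par.Rel] using fun h => kHν _ _ (Dat.Eqv.symm h)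
    | H3 a b c d s t u => simpa [Par.dat, Par.Rel] using fun h => kHν _ _ (Dat.Eqv.symm h)
  | D α ε φ =>
    cases y with
    | M π' => simpa [Par.dat, Par.Rel] using fun h => kM0 _ _ (Dat.Eqv.symm h)
    | F A' => simpa [Par.dat, Par.Rel] using k0ν _ _
    | D α' ε' φ' => exact piD_eqv α ε φ α' ε' φ' hx.1
    | H1 a b c d => simpa [Par.dat, Par.Rel] using k0H _ _
    | H2 a b c d => simpa [Par.dat, Par.Rel] using k0H _ _
    | H3 a b c d s t u => simpa [Par.dat, Par.Rel] using k0H _ _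
  | H1 a b c d =>
    cases y with
    | M π' => simpa [Par.dat, Par.Rel] using fun h => kMH _ _ (Dat.Eqv.symm h)
    | F A' => simpa [Par.dat, Par.Rel] using kHν _ _
    | D α' ε' φ' => simpa [Par.dat, Par.Rel] using fun h => k0H _ _ (Dat.Eqv.symm h)
    | H1 a' b' c' d' => exact piH1_eqv hp a b c d a' b' c' d'
    | H2 a' b' c' d' =>
      simpa [Par.dat, Par.Rel] using (split_disjoint hp a b c d a' b' c' d' 0 0 0).1
    | H3 a' b' c' d' s t u =>
      simpa [Par.dat, Par.Rel] using (split_disjoint hp a b c d a' b' c' d' s t u).2.1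
  | H2 a b c d =>
    cases y with
    | M π' => simpa [Par.dat, Par.Rel] using fun h => kMH _ _ (Dat.Eqv.symm h)
    | F A' => simpa [Par.dat, Par.Rel] using kHν _ _
    | D α' ε' φ' => simpa [Par.dat, Par.Rel] using fun h => k0H _ _ (Dat.Eqv.symm h)
    | H1 a' b' c' d' =>
      simpa [Par.dat, Par.Rel] using
        fun h => (split_disjoint hp a' b' c' d' a b c d 0 0 0).1 (Dat.Eqv.symm h)
    | H2 a' b' c' d' => exact piH2_eqv hp a b c d a' b' c' d'
    | H3 a' b' c' d' s t u =>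
      simpa [Par.dat, Par.Rel] using (split_disjoint hp a b c d a' b' c' d' s t u).2.2
  | H3 a b c d s t u =>
    cases y with
    | M π' => simpa [Par.dat, Par.Rel] using fun h => kMH _ _ (Dat.Eqv.symm h)
    | F A' => simpa [Par.dat, Par.Rel] using kHν _ _
    | D α' ε' φ' => simpa [Par.dat, Par.Rel] using fun h => k0H _ _ (Dat.Eqv.symm h)
    | H1 a' b' c' d' =>
      simpa [Par.dat, Par.Rel] using
        fun h => (split_disjoint hp a' b' c' d' a b c d s t u).2.1 (Dat.Eqv.symm h)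
    | H2 a' b' c' d' =>
      simpa [Par.dat, Par.Rel] using
        fun h => (split_disjoint hp a' b' c' d' a b c d s t u).2.2 (Dat.Eqv.symm h)
    | H3 a' b' c' d' s' t' u' => exact piH3_eqv a b c d s t u a' b' c' d' s' t' u'

end MP_02e52a.M7
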