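import Pool.Agent.Lib.MP_02e52a_al.M7.BaerDefs

open scoped commutatorElement

universe u

namespace MP_02e52a.M7

/-- [M7 G0] PROOF: `MulAut.conj x * MulAut.conj y = MulAut.conj y * MulAut.conj x`, so `conj ⁅x, y⁆ = 1`, i.e. `⁅x, y⁆` is central. -/
theorem class_two {G : Type*} [Group G] (h : AutComm G) (x y z : G) : ⁅⁅x, y⁆, z⁆ = 1 := by
  have h1 : MulAut.conj ⁅x, y⁆ = 1 := by
    rw [map_commutatorElement, commutatorElement_eq_one_iff_mul_comm]
    exact h _ _
  have h2 : ⁅x, y⁆ * z * ⁅x, y⁆⁻¹ = z := by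
    have := congrArg (fun e : MulAut G => e z) h1
    rwa [MulAut.conj_apply, MulAut.one_apply] at this
  rw [commutatorElement_def ⁅x, y⁆ z, h2, mul_inv_cancel]

namespace G0

variable {G : Type u} [Group G]

section
variable (h2 : ∀ x y z : G, ⁅⁅x, y⁆, z⁆ = 1)

/-- the commutator, as a central element -/
def B (x y : G) : Subgroup.center G :=
  ⟨⁅x, y⁆, by
    rw [Subgroup.mem_center_iff]
    intro g
    exact (commutatorElement_eq_one_iff_mul_comm.1 (h2 x y g)).symm⟩

theorem B_val (x y : G) : (B h2 x y : G) = ⁅x, y⁆ := rfl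

theorem zc (ζ : Subgroup.center G) (g : G) : (ζ : G) * g = g * ζ :=
  (Subgroup.mem_center_iff.1 ζ.2 g).symm

theorem cz_comm (a b : Subgroup.center G) : a * b = b * a := Subtype.ext (zc a b)

theorem cz_inv (a b : Subgroup.center G) : (a * b)⁻¹ = a⁻¹ * b⁻¹ := by
  rw [mul_inv_rev, cz_comm]

theorem cz_pow (a b : Subgroup.center G) (k : ℕ) : (a * b) ^ k = a ^ k * b ^ k :=
  Commute.mul_pow (cz_comm a b) k

theorem B_mul_left (x y z : G) : B h2 (x * y) z = B h2 x z * B h2 y z := by
  apply Subtype.ext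
  rw [Subgroup.coe_mul, B_val, B_val, commutatorElement_def]
  have h := zc (B h2 y z) (z * x⁻¹ * z⁻¹)
  rw [B_val] at h
  have : x * y * z * (x * y)⁻¹ * z⁻¹ = x * (⁅y, z⁆ * (z * x⁻¹ * z⁻¹)) := by
    rw [commutatorElement_def]; group
  rw [this, h, B_val, commutatorElement_def x z]
  group

theorem B_inv (x y : G) : (B h2 x y)⁻¹ = B h2 y x := by
  apply Subtype.ext
  rw [InvMemClass.coe_inv, B_val, B_val, commutatorElement_inv]

theorem B_mul_right (x y z : G) : B h2 x (y * z) = B h2 x y * B h2 x z := by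
  rw [← B_inv h2 (y * z) x, B_mul_left, cz_inv, B_inv, B_inv]

theorem B_self (x : G) : B h2 x x = 1 := by
  apply Subtype.ext
  rw [B_val, commutatorElement_self]
  rfl

theorem B_cen_left (ζ : Subgroup.center G) (x : G) : B h2 ζ x = 1 := by
  apply Subtype.ext
  rw [B_val, commutatorElement_eq_one_iff_mul_comm.2 (zc ζ x)]
  rfl

theorem B_cen_right (ζ : Subgroup.center G) (x : G) : B h2 x ζ = 1 := by
  rw [← B_inv, B_cen_left, inv_one]

theorem B_swap (x y : G) : x * y = y * x * (B h2 x y : G) := by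
  rw [← zc, B_val, commutatorElement_def]
  group

/-- the sum -/
def add (k : ℕ) (x y : G) : G := x * y * ((B h2 y x) ^ k : Subgroup.center G)

theorem add_assoc' (k : ℕ) (x y z : G) :
    add h2 k (add h2 k x y) z = add h2 k x (add h2 k y z) := by
  unfold add
  rw [B_mul_right, B_mul_right, B_cen_right, mul_one, B_mul_left, B_mul_left, B_cen_left, mul_one,
    mul_assoc (x * y), zc]
  have e : ∀ (g : G) (a b : Subgroup.center G), g * a * b = g * ((a * b : Subgroup.center G)) := by
    intro g a b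
    rw [Subgroup.coe_mul, mul_assoc]
  rw [← mul_assoc (x * y) z, e, ← mul_assoc x (y * z), e, mul_assoc x y z]
  congr 2
  rw [cz_pow, cz_pow, cz_comm (B h2 z x ^ k) (B h2 z y ^ k), ← mul_assoc,
    cz_comm (B h2 y x ^ k) (B h2 z y ^ k), mul_assoc]

theorem add_comm' (k : ℕ) (hk : ∀ c : Subgroup.center G, c ^ (2 * k) = c) (x y : G) :
    add h2 k x y = add h2 k y x := by
  unfold add
  rw [B_swap h2 x y, mul_assoc, ← Subgroup.coe_mul]
  congr 2
  have h := hk (B h2 x y)
  rw [two_mul, pow_add] at h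
  rw [← B_inv h2 x y, inv_pow]
  nth_rewrite 1 [← h]
  rw [mul_assoc, mul_inv_cancel, mul_one]

theorem add_cen (k : ℕ) (x : G) (ζ : Subgroup.center G) : add h2 k x ζ = x * ζ := by
  unfold add
  rw [B_cen_left, one_pow]
  simp

theorem cen_add (k : ℕ) (x : G) (ζ : Subgroup.center G) : add h2 k ζ x = ζ * x := by
  unfold add
  rw [B_cen_right, one_pow]
  simp

/-- the additive group -/
@[reducible]
def acg (k : ℕ) (hk : ∀ c : Subgroup.center G, c ^ (2 * k) = c) : AddCommGroup G :=
  letI : Add G := ⟨add h2 k⟩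
  letI : Zero G := ⟨(1 : G)⟩
  letI : Neg G := ⟨fun x => x⁻¹⟩
  { AddGroup.ofLeftAxioms (G := G) (add_assoc' h2 k)
      (fun x => by
        have := cen_add h2 k x 1
        change add h2 k 1 x = x
        simpa using this)
      (fun x => by
        change add h2 k x⁻¹ x = 1
        unfold add
        have : B h2 x x⁻¹ = 1 := by
          have h := B_mul_right h2 x x⁻¹ x
          rw [B_self, mul_one, inv_mul_cancel] at h
          rw [← h]
          exact B_cen_right h2 1 x
        rw [this, one_pow]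
        simp) with
    add_comm := add_comm' h2 k hk }

end

end G0

/-- [M7 G0] Existence of the Baer correspondence. PROOF: `N = Nat.card G` odd, `k = (N + 1) / 2`, so `2 k = N + 1` and `c^(2k) = c` for all `c : G`. Take `A = G` as a type (or a
structure wrapper) with `x + y := x * y * ⁅y, x⁆ ^ k`, `0 = 1`, `-x = x⁻¹`, bracket `b x y = ⁅x, y⁆`, `φ = id`. All commutators are central and `(x, y) ↦ ⁅x, y⁆` is multiplicative in both variables, does not
change if `x` or `y` is multiplied by a central element. Commutative: `x y ⁅y, x⁆^k = y x ⁅x, y⁆ ⁅y, x⁆^k` (class two: `x y = ⁅x, y⁆ y x`) `= y x ⁅x, y⁆^(1-k)` and `⁅x, y⁆^(1-k) = ⁅x, y⁆^k` because `⁅x,y⁆^(2k) = ⁅x,y⁆`.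
Associative: both `(x + y) + z` and `x + (y + z)` equal `x y z ⁅y,x⁆^k ⁅z,x⁆^k ⁅z,y⁆^k`. `x * y = x + y + k • b x y` because for central `c`, `x + c = x * c` and `n • c = c^n`. -/
theorem exists_baer {G : Type u} [Group G] [Finite G] (hodd : Odd (Nat.card G))
    (h2 : ∀ x y z : G, ⁅⁅x, y⁆, z⁆ = 1) :
    ∃ (A : Type u) (_ : AddCommGroup A) (L : LR A) (φ : G ≃ A) (k : ℕ), IsBaer L φ k := by
  obtain ⟨m, hm⟩ := hodd
  have hk : ∀ c : Subgroup.center G, c ^ (2 * (m + 1)) = c := by
    intro c
    apply Subtype.ext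
    have h : (c : G) ^ Nat.card G = 1 := pow_card_eq_one'
    rw [SubmonoidClass.coe_pow, show 2 * (m + 1) = Nat.card G + 1 by omega, pow_succ, h, one_mul]
  let _ : AddCommGroup G := G0.acg h2 (m + 1) hk
  have hadd : ∀ x y : G, x + y = G0.add h2 (m + 1) x y := fun x y => rfl
  have hadd1 : ∀ (x : G) (ζ : Subgroup.center G), x + (ζ : G) = x * ζ := fun x ζ =>
    G0.add_cen h2 (m + 1) x ζ
  have hns : ∀ (n : ℕ) (ζ : Subgroup.center G), n • (ζ : G) = ((ζ ^ n : Subgroup.center G) : G) := by
    intro n ζ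
    induction n with
    | zero => rw [zero_smul, pow_zero]; rfl
    | succ n ih => rw [succ_nsmul, ih, hadd1, pow_succ, Subgroup.coe_mul]
  let L : LR G :=
    { b := AddMonoidHom.mk' (fun x => AddMonoidHom.mk' (fun y => (G0.B h2 x y : G)) (by
          intro y z
          rw [hadd1, hadd, G0.add, G0.B_mul_right, G0.B_mul_right, G0.B_cen_right, mul_one,
            Subgroup.coe_mul])) (by
          intro x y
          ext z
          change ((G0.B h2 (x + y) z : Subgroup.center G) : G) = (G0.B h2 x z : G) + (G0.B h2 y z : G)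
          rw [hadd1, hadd, G0.add, G0.B_mul_left, G0.B_mul_left, G0.B_cen_left, mul_one,
            Subgroup.coe_mul])
      alt := by
        intro x
        change ((G0.B h2 x x : Subgroup.center G) : G) = 0
        rw [G0.B_self]
        rfl
      nil := by
        intro x y z
        change ((G0.B h2 (G0.B h2 x y : G) z : Subgroup.center G) : G) = 0
        rw [G0.B_cen_left]
        rfl }
  have hb : ∀ x y, L.b x y = (G0.B h2 x y : G) := fun x y => rfl
  refine ⟨G, inferInstance, L, Equiv.refl G, m + 1, ?_, ?_⟩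
  · intro x y
    change x * y = x + y + (m + 1) • L.b x y
    rw [hb, hns, hadd1, hadd, G0.add, mul_assoc, ← Subgroup.coe_mul, ← G0.B_inv h2 x y, inv_pow,
      inv_mul_cancel]
    simp
  · intro x y
    rw [hb, hns, hk]

end MP_02e52a.M7
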