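import Pool.Agent.Lib.MP_02e52a_al.M7.G2

namespace MP_02e52a.M7

open scoped commutatorElement in
private theorem g4_smul {A : Type*} [AddCommGroup A] {k k' : ℕ} {w : A} (h : (2 * k) • w = w)
    (h' : (2 * k') • w = w) : k • w = k' • w := by
  calc k • w = k • ((2 * k') • w) := by rw [h']
    _ = k' • ((2 * k) • w) := by
      rw [← mul_smul, ← mul_smul]
      congr 1
      ring
    _ = k' • w := by rw [h]

/-- [M7 G4] From a Lie isomorphism to a group isomorphism: `f = φ'⁻¹ ∘ e ∘ φ`. PROOF: `φ' (f (x y)) = e (φ x + φ y + k • b) = e (φ x) + e (φ y) + k • b' (e φ x) (e φ y)` and `k • b' = k' • b'` on these values: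
`2 k b' = b'` (transport of `two` by `e`; every value of `b'` is `e` of a value of `b` as `e` is onto) and `2 k' b' = b'` give `k b' = k (2 k' b') = k' (2 k b') = k' b'`. -/
theorem baer_mulEquiv {G G' A A' : Type*} [Group G] [Group G'] [AddCommGroup A] [AddCommGroup A']
    {L : LR A} {L' : LR A'} {φ : G ≃ A} {φ' : G' ≃ A'} {k k' : ℕ} (h : IsBaer L φ k) (h' : IsBaer L' φ' k')
    (e : A ≃+ A') (he : ∀ x y, e (L.b x y) = L'.b (e x) (e y)) :
    ∃ f : G ≃* G', ∀ x, φ' (f x) = e (φ x) := by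
  have key : ∀ x y : A, k • L'.b (e x) (e y) = k' • L'.b (e x) (e y) := by
    intro x y
    apply g4_smul
    · rw [← he, ← map_nsmul, h.two]
    · exact h'.two _ _
  let f0 : G ≃ G' := φ.trans (e.toEquiv.trans φ'.symm)
  have hf0 : ∀ x, φ' (f0 x) = e (φ x) := by
    intro x
    simp [f0]
  refine ⟨MulEquiv.mk f0 ?_, hf0⟩
  intro x y
  apply φ'.injective
  change φ' (f0 (x * y)) = φ' (f0 x * f0 y)
  rw [h'.mul, hf0, hf0, hf0, h.mul, map_add, map_add, map_nsmul, he, key]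

open scoped commutatorElement in
/-- [M7 G4] From a group isomorphism to a Lie isomorphism: `e = φ' ∘ f ∘ φ⁻¹`. PROOF: bracket: `IsBaer.comm` and `f ⁅x, y⁆ = ⁅f x, f y⁆`. Additivity: `φ x + φ y = φ (x y) - k • b (φ x) (φ y)`; applying
`e ∘ φ = φ' ∘ f` to `x y` and to `⁅y, x⁆^k` (central, `IsBaer.mul_center`): `φ x + φ y = φ (x y ⁅y, x⁆^k)`, so `e (φ x + φ y) = φ' (f x f y ⁅f y, f x⁆^k) = φ' (f x) + φ' (f y) + k' • b' - k • b' = φ' (f x) + φ' (f y)`
(`k b' = k' b'` as in the previous theorem). -/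
theorem baer_addEquiv {G G' A A' : Type*} [Group G] [Group G'] [AddCommGroup A] [AddCommGroup A']
    {L : LR A} {L' : LR A'} {φ : G ≃ A} {φ' : G' ≃ A'} {k k' : ℕ} (h : IsBaer L φ k) (h' : IsBaer L' φ' k')
    (f : G ≃* G') :
    ∃ e : A ≃+ A', (∀ x y, e (L.b x y) = L'.b (e x) (e y)) ∧ ∀ x, e (φ x) = φ' (f x) := by
  let e0 : A ≃ A' := φ.symm.trans (f.toEquiv.trans φ')
  have he0 : ∀ x, e0 (φ x) = φ' (f x) := by
    intro x
    simp [e0]
  have hb : ∀ x y : G, e0 (L.b (φ x) (φ y)) = L'.b (φ' (f x)) (φ' (f y)) := by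
    intro x y
    rw [← h.comm, he0, map_commutatorElement, h'.comm]
  have key : ∀ x y : G, k • L'.b (φ' (f x)) (φ' (f y)) = k' • L'.b (φ' (f x)) (φ' (f y)) := by
    intro x y
    apply g4_smul
    · have h1 : ⁅x, y⁆ ^ (2 * k) = ⁅x, y⁆ := by
        apply φ.injective
        rw [h.pow, h.comm, h.two]
      rw [← h'.comm, ← map_commutatorElement, ← h'.pow, ← map_pow, h1]
    · exact h'.two _ _
  have hadd : ∀ x y : G, e0 (φ x + φ y) = e0 (φ x) + e0 (φ y) := by
    intro x y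
    have hz : φ (⁅y, x⁆ ^ k) ∈ L.Z := by
      rw [h.pow, h.comm]
      exact AddSubgroup.nsmul_mem _ (L.b_mem_Z _ _) _
    have hz' : φ' (⁅f y, f x⁆ ^ k) ∈ L'.Z := by
      rw [h'.pow, h'.comm]
      exact AddSubgroup.nsmul_mem _ (L'.b_mem_Z _ _) _
    have h1 : φ x + φ y = φ (x * y * ⁅y, x⁆ ^ k) := by
      rw [h.mul_center _ _ hz, h.mul, h.pow, h.comm, L.skew (φ y) (φ x), smul_neg]
      abel
    rw [h1, he0, he0, he0, map_mul f, map_mul f, map_pow f, map_commutatorElement f,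
      h'.mul_center _ _ hz', h'.mul, h'.pow, h'.comm, L'.skew (φ' (f y)) (φ' (f x)), smul_neg, key]
    abel
  refine ⟨AddEquiv.mk e0 ?_, ?_, he0⟩
  · intro a b
    obtain ⟨x, rfl⟩ := φ.surjective a
    obtain ⟨y, rfl⟩ := φ.surjective b
    exact hadd x y
  · intro a b
    obtain ⟨x, rfl⟩ := φ.surjective a
    obtain ⟨y, rfl⟩ := φ.surjective b
    change e0 (L.b (φ x) (φ y)) = L'.b (e0 (φ x)) (e0 (φ y))
    rw [hb, he0, he0]

/-- [M7 G4] `Aut G` is abelian iff the automorphism group of the Lie ring is commutative. PROOF: the two previous theorems with `G' = G`. -/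
theorem autComm_iff {G A : Type*} [Group G] [AddCommGroup A] {L : LR A} {φ : G ≃ A} {k : ℕ} (h : IsBaer L φ k) :
    AutComm G ↔ L.Comm := by
  constructor
  · intro hc e f he hf a
    obtain ⟨E, hE⟩ := baer_mulEquiv h h e he
    obtain ⟨F, hF⟩ := baer_mulEquiv h h f hf
    obtain ⟨x, rfl⟩ := φ.surjective a
    have h1 : E (F x) = F (E x) := by
      have := DFunLike.congr_fun (hc E F) x
      simpa using this
    rw [← hF, ← hE, ← hE, ← hF, h1]
  · intro hc a b
    obtain ⟨ea, ha, ha'⟩ := baer_addEquiv h h a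
    obtain ⟨eb, hb, hb'⟩ := baer_addEquiv h h b
    ext x
    apply φ.injective
    rw [MulAut.mul_apply, MulAut.mul_apply, ← ha', ← hb', ← hb', ← ha']
    exact hc ea eb ha hb (φ x)

end MP_02e52a.M7
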