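import Pool.Agent.Lib.MP_02e52a_al.M7.ExtHom

namespace MP_02e52a.M7

private lemma LiftIso_basis (p : ℕ) [Fact p.Prime] (V : Type*) [AddCommGroup V] [Finite V]
    [Module (ZMod p) V] : ∃ n, Nonempty (Module.Basis (Fin n) (ZMod p) V) ∧ Nat.card V = p ^ n :=
  ⟨_, ⟨Module.finBasis (ZMod p) V⟩, by
    rw [Module.natCard_eq_pow_finrank (K := ZMod p), Nat.card_zmod]⟩

/-- [M7 X2] Basis modulo the centre: if `p • x ∈ Z` for all `x` (p prime, `A` finite) there are finitely many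
elements `x i` whose classes form a basis of the `ZMod p`-vector space `A ⧸ Z`. PROOF: `A ⧸ Z` is a
`ZMod p`-module (`AddCommGroup.zmodModule`), finite, take a basis (`Module.finBasis`) and lifts. `gen`:
coordinates of the class of `a`, lifted to integers by `ZMod.val`. `ind`: if `∑ k i • x i ∈ Z` then
`∑ (k i : ZMod p) • basis i = 0`, so `(k i : ZMod p) = 0` and `(p : ℤ) ∣ k i`
(`ZMod.intCast_zmod_eq_zero_iff_dvd` or `ZMod.intCast_eq_zero_iff...`). -/
theorem exists_basis_mod {A : Type*} [AddCommGroup A] [Finite A] (p : ℕ) [Fact p.Prime] (S : AddSubgroup A)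
    (hp : ∀ x : A, p • x ∈ S) :
    ∃ (n : ℕ) (x : Fin n → A), (∀ a : A, ∃ k : Fin n → ℤ, a - ∑ i, k i • x i ∈ S) ∧
      (∀ k : Fin n → ℤ, ∑ i, k i • x i ∈ S → ∀ i, (p : ℤ) ∣ k i) ∧ Nat.card (A ⧸ S) = p ^ n := by
  have hV : ∀ v : A ⧸ S, p • v = 0 := by
    intro v
    obtain ⟨a, rfl⟩ := QuotientAddGroup.mk_surjective v
    have h : ((p • a : A) : A ⧸ S) = 0 := (QuotientAddGroup.eq_zero_iff _).2 (hp a)
    rw [QuotientAddGroup.mk_nsmul] at h
    exact h
  have _ : Finite (A ⧸ S) := Finite.of_surjective _ (QuotientAddGroup.mk_surjective (s := S))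
  obtain ⟨M⟩ : Nonempty (Module (ZMod p) (A ⧸ S)) := ⟨AddCommGroup.zmodModule hV⟩
  obtain ⟨n, ⟨bas⟩, hcard⟩ := LiftIso_basis p (A ⧸ S)
  have hsum : ∀ k : Fin n → ℤ,
      ((∑ i, k i • (bas i).out : A) : A ⧸ S) = ∑ i, ((k i : ℤ) : ZMod p) • bas i := by
    intro k
    have h := map_sum (QuotientAddGroup.mk' S) (fun i => k i • (bas i).out) Finset.univ
    simp only [QuotientAddGroup.mk'_apply] at h
    rw [h]
    refine Finset.sum_congr rfl (fun i _ => ?_)
    rw [QuotientAddGroup.mk_zsmul, QuotientAddGroup.out_eq', Int.cast_smul_eq_zsmul]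
  refine ⟨n, fun i => (bas i).out, ?_, ?_, hcard⟩
  · intro a
    refine ⟨fun i => ((bas.repr (a : A ⧸ S) i).val : ℤ), ?_⟩
    rw [← QuotientAddGroup.eq_iff_sub_mem, hsum]
    conv_lhs => rw [← bas.sum_repr (a : A ⧸ S)]
    refine Finset.sum_congr rfl (fun i _ => ?_)
    congr 1
    rw [Int.cast_natCast, ZMod.natCast_zmod_val]
  · intro k hk i
    have h0 : ∑ i, ((k i : ℤ) : ZMod p) • bas i = 0 := by
      rw [← hsum]
      exact (QuotientAddGroup.eq_zero_iff _).2 hk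
    have h1 := Fintype.linearIndependent_iff.1 bas.linearIndependent (fun i => ((k i : ℤ) : ZMod p)) h0 i
    exact (ZMod.intCast_zmod_eq_zero_iff_dvd _ _).1 h1

/-- [M7 X2] Lifting of a compatible pair `(g, c)` to an isomorphism of Lie rings. PROOF: take `x i` from
`exists_basis_mod` for `S = L.Z`. For each `i` choose `y' i` with class `g (x i)`; by `h2` there is
`z i ∈ L'.Z` with `p • y' i - c (p • x i) = p • z i`; put `y i = y' i - z i`: same class and
`p • y i = c (p • x i)`. Apply `ext_hom` (`S = L.Z`, `N i = p`, `f = ` inclusion of `L'.Z` composed with `c`)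
to get `F : A →+ A'` with `F = c` on `L.Z`, `F (x i) = y i`. Then the class of `F a` is `g (class of a)`
(both sides additive in `a`, check on `L.Z`: both classes `0`, and on `x i`). Hence `F` is injective: if
`F a = 0` then `g (a) = 0` so `a ∈ L.Z` and `c a = 0`. Surjective: given `a'`, choose `a` with class
`g⁻¹ (a')`, then `a' - F a ∈ L'.Z = c (L.Z) = F (L.Z)`. Bracket: by `h1` with `x' = F x`, `y' = F y`,
`L'.b (F x) (F y) = c (L.b x y) = F (L.b x y)`. -/
theorem lift_iso {A A' : Type*} [AddCommGroup A] [AddCommGroup A'] [Finite A] [Finite A'] (p : ℕ)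
    [Fact p.Prime] (L : LR A) (L' : LR A')
    (hp : ∀ x, p • x ∈ L.Z)
    (g : (A ⧸ L.Z) ≃+ (A' ⧸ L'.Z)) (c : L.Z ≃+ L'.Z)
    (h1 : ∀ (x y : A) (x' y' : A'), (x' : A' ⧸ L'.Z) = g (x : A ⧸ L.Z) → (y' : A' ⧸ L'.Z) = g (y : A ⧸ L.Z) →
      L'.b x' y' = c ⟨L.b x y, L.b_mem_Z x y⟩)
    (h2 : ∀ (x : A) (x' : A'), (x' : A' ⧸ L'.Z) = g (x : A ⧸ L.Z) →
      ∃ z ∈ L'.Z, p • x' - (c ⟨p • x, hp x⟩ : A') = p • z) :
    ∃ e : A ≃+ A', (∀ x y, e (L.b x y) = L'.b (e x) (e y)) ∧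
      (∀ x, ((e x : A') : A' ⧸ L'.Z) = g (x : A ⧸ L.Z)) ∧ ∀ z : L.Z, e z = c z := by
  classical
  obtain ⟨n, x, gen, ind, -⟩ := exists_basis_mod p L.Z hp
  have hy' : ∀ i, ∃ y : A', (y : A' ⧸ L'.Z) = g (x i : A ⧸ L.Z) ∧
      p • y = (c ⟨p • x i, hp (x i)⟩ : A') := by
    intro i
    obtain ⟨y0, hy0⟩ := QuotientAddGroup.mk_surjective (g (x i : A ⧸ L.Z))
    obtain ⟨z, hz, hz2⟩ := h2 (x i) y0 hy0
    refine ⟨y0 - z, ?_, ?_⟩
    · rw [← hy0, QuotientAddGroup.eq_iff_sub_mem]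
      have : y0 - z - y0 = -z := by abel
      rw [this]
      exact L'.Z.neg_mem hz
    · rw [nsmul_sub, ← hz2]
      abel
  choose y hy1 hy2 using hy'
  obtain ⟨F, hF1, hF2⟩ := ext_hom L.Z x (fun _ => p) (fun i => hp (x i)) gen ind
    (L'.Z.subtype.comp c.toAddMonoidHom) y (fun i => by
      rw [hy2 i]
      rfl)
  have hF1' : ∀ s : L.Z, F s = (c s : A') := fun s => hF1 s
  -- class of F
  have hcls : ∀ a : A, ((F a : A') : A' ⧸ L'.Z) = g (a : A ⧸ L.Z) := by
    intro a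
    obtain ⟨k, hk⟩ := gen a
    have ea : a = (a - ∑ i, k i • x i) + ∑ i, k i • x i := by abel
    have e1 : ((F (a - ∑ i, k i • x i) : A') : A' ⧸ L'.Z) = 0 := by
      have := hF1' ⟨_, hk⟩
      simp only at this
      rw [this]
      exact (QuotientAddGroup.eq_zero_iff _).2 (c ⟨_, hk⟩).2
    have e2 : ((a - ∑ i, k i • x i : A) : A ⧸ L.Z) = 0 := (QuotientAddGroup.eq_zero_iff _).2 hk
    have e3 : ((F (∑ i, k i • x i) : A') : A' ⧸ L'.Z) = ∑ i, k i • g (x i : A ⧸ L.Z) := by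
      rw [map_sum]
      have h := map_sum (QuotientAddGroup.mk' L'.Z) (fun i => F (k i • x i)) Finset.univ
      simp only [QuotientAddGroup.mk'_apply] at h
      rw [h]
      refine Finset.sum_congr rfl (fun i _ => ?_)
      rw [map_zsmul, hF2, QuotientAddGroup.mk_zsmul, hy1]
    have e4 : g ((∑ i, k i • x i : A) : A ⧸ L.Z) = ∑ i, k i • g (x i : A ⧸ L.Z) := by
      have h := map_sum (QuotientAddGroup.mk' L.Z) (fun i => k i • x i) Finset.univ
      simp only [QuotientAddGroup.mk'_apply] at h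
      rw [h, map_sum]
      refine Finset.sum_congr rfl (fun i _ => ?_)
      rw [QuotientAddGroup.mk_zsmul, map_zsmul]
    conv_lhs => rw [ea]
    conv_rhs => rw [ea]
    rw [map_add, QuotientAddGroup.mk_add, e1, e3, QuotientAddGroup.mk_add, e2, map_add, map_zero, e4]
  have hinj : Function.Injective F := by
    rw [injective_iff_map_eq_zero]
    intro a ha
    have h := hcls a
    rw [ha, QuotientAddGroup.mk_zero] at h
    have h3 : (a : A ⧸ L.Z) = 0 := (map_eq_zero_iff g g.injective).1 h.symm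
    have haZ : a ∈ L.Z := (QuotientAddGroup.eq_zero_iff _).1 h3
    have h4 := hF1' ⟨a, haZ⟩
    simp only at h4
    rw [ha] at h4
    have h5 : c ⟨a, haZ⟩ = 0 := Subtype.ext h4.symm
    have h6 : (⟨a, haZ⟩ : L.Z) = 0 := (map_eq_zero_iff c c.injective).1 h5
    exact congrArg Subtype.val h6
  have hsurj : Function.Surjective F := by
    intro a'
    obtain ⟨a, ha⟩ := QuotientAddGroup.mk_surjective (g.symm (a' : A' ⧸ L'.Z))
    have h := hcls a
    rw [ha, AddEquiv.apply_symm_apply, eq_comm, QuotientAddGroup.eq_iff_sub_mem] at h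
    obtain ⟨z, hz⟩ := c.surjective ⟨_, h⟩
    refine ⟨z + a, ?_⟩
    rw [map_add, hF1' z, hz]
    simp
  refine ⟨AddEquiv.ofBijective F ⟨hinj, hsurj⟩, ?_, ?_, ?_⟩
  · intro u v
    simp only [AddEquiv.ofBijective_apply]
    rw [h1 u v (F u) (F v) (hcls u) (hcls v)]
    exact hF1' ⟨L.b u v, L.b_mem_Z u v⟩
  · intro u
    exact hcls u
  · intro z
    exact hF1' z

end MP_02e52a.M7
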