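import Pool.Agent.Lib.MP_02e52a_al.M7.G2
import Pool.Agent.Lib.MP_02e52a_al.M7.LiftIso

namespace MP_02e52a.M7

private lemma G6_theta (p : ℕ) [Fact p.Prime] (V : Type*) [AddCommGroup V] [Finite V]
    (hV : ∀ v : V, p • v = 0) (hcard : Nat.card V = p ^ 3) : Nonempty (WW p ≃+ V) := by
  obtain ⟨M⟩ : Nonempty (Module (ZMod p) V) := ⟨AddCommGroup.zmodModule hV⟩
  have h1 : Nat.card V = p ^ Module.finrank (ZMod p) V := by
    rw [Module.natCard_eq_pow_finrank (K := ZMod p), Nat.card_zmod]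
  have h2 : Module.finrank (ZMod p) V = 3 := by
    rw [hcard] at h1
    exact (Nat.pow_right_injective (Fact.out : p.Prime).two_le h1).symm
  have h3 : Module.finrank (ZMod p) (WW p) = Module.finrank (ZMod p) V := by
    rw [h2]; simp
  exact ⟨(LinearEquiv.ofFinrankEq (WW p) V h3).toAddEquiv⟩

private lemma G6_val_smul {p : ℕ} [Fact p.Prime] {W : Type*} [AddCommGroup W] [Module (ZMod p) W]
    (c : ZMod p) (w : W) : c • w = c.val • w := by
  conv_lhs => rw [← ZMod.natCast_zmod_val c]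
  rw [Nat.cast_smul_eq_nsmul]

/-- [M7 G6] From the structure theorem to the groups `Grp d`. PROOF. `|A ⧸ Z| = p^4`; take `x : Fin 4 → A` from `exists_basis_mod` (`n = 4` by cardinality) and an isomorphism `θ : WW p ≃+ L.Z` (`L.Z` is a `ZMod p`-space of
order `p^3`). Let `d.π (Pi.single i 1) = θ⁻¹ (p • x i)` and `d.β (Pi.single i 1) (Pi.single j 1) = θ⁻¹ (b (x i) (x j))` (extended (bi)linearly; alternating). Define `Φ : Grp d → A`, `Φ (v, w) = ∑ (v i).val • x i + θ w`: a bijection (`gen`, `ind`).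
`b (Φ X) (Φ Y) = θ (d.β X.v Y.v)`. `(v i + v' i).val = (v i).val + (v' i).val - p * (carry ..)` gives `Φ (X * Y) = Φ X + Φ Y + θ ((2⁻¹ : ZMod p) • β X.v Y.v)`, and `k • b (Φ X) (Φ Y) = θ (k • β ..)` with `(k : ZMod p) = 2⁻¹` when some
value of the bracket is nonzero (`two`: `2 k b = b` with `b` of order `p`); so `Φ (X * Y) = Φ X + Φ Y + k • b (Φ X) (Φ Y)` and `φ⁻¹ ∘ Φ` is an isomorphism `Grp d ≃* G`. `Onto` from `L.D = L.Z`, `Nondeg` because `Φ (v, 0) ∈ Z` only if `v = 0`. -/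
theorem exists_grp {G A : Type*} [Group G] [AddCommGroup A] [Finite A] (p : ℕ) [Fact p.Prime] (hp : p ≠ 2)
    {L : LR A} {φ : G ≃ A} {k : ℕ} (h : IsBaer L φ k) (hA : Nat.card A = p ^ 7)
    (h1 : ∀ x, p • x ∈ L.Z) (h2 : ∀ z ∈ L.Z, p • z = 0) (h3 : Nat.card L.Z = p ^ 3) (h4 : L.D = L.Z) :
    ∃ d : Dat p, d.Onto ∧ d.Nondeg ∧ Nonempty (G ≃* Grp d) := by
  classical
  have hpp : p.Prime := Fact.out
  obtain ⟨n, x, gen, ind, hcard⟩ := exists_basis_mod p L.Z h1
  have hn : n = 4 := by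
    have h5 := AddSubgroup.card_eq_card_quotient_mul_card_addSubgroup L.Z
    rw [hA, hcard, h3, ← pow_add] at h5
    have := Nat.pow_right_injective hpp.two_le h5
    omega
  subst hn
  obtain ⟨θ⟩ := G6_theta p L.Z (fun v => Subtype.ext (by
    rw [AddSubgroup.coe_nsmul, h2 _ v.2]; rfl)) h3
  -- θ as a map to A
  have θadd : ∀ w w' : WW p, ((θ (w + w') : L.Z) : A) = θ w + θ w' := by
    intro w w'; rw [map_add]; rfl
  have θnsmul : ∀ (m : ℕ) (w : WW p), ((θ (m • w) : L.Z) : A) = m • (θ w : A) := by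
    intro m w; rw [map_nsmul]; rfl
  have θsmul : ∀ (c : ZMod p) (w : WW p), ((θ (c • w) : L.Z) : A) = c.val • (θ w : A) := by
    intro c w; rw [G6_val_smul, θnsmul]
  have θsum : ∀ (f : Fin 4 → WW p), ((θ (∑ i, f i) : L.Z) : A) = ∑ i, (θ (f i) : A) := by
    intro f
    have := map_sum (L.Z.subtype.comp θ.toAddMonoidHom) f Finset.univ
    simpa using this
  have θinj : ∀ w w' : WW p, (θ w : A) = θ w' → w = w' := by
    intro w w' hw
    exact θ.injective (Subtype.ext hw)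
  have θsurj : ∀ a ∈ L.Z, ∃ w : WW p, (θ w : A) = a := by
    intro a ha
    obtain ⟨w, hw⟩ := θ.surjective ⟨a, ha⟩
    exact ⟨w, by rw [hw]⟩
  have θZ : ∀ w : WW p, (θ w : A) ∈ L.Z := fun w => (θ w).2
  -- structure constants
  obtain ⟨B, hB⟩ : ∃ B : Fin 4 → Fin 4 → WW p, ∀ i j, (θ (B i j) : A) = L.b (x i) (x j) := by
    choose B hB using fun i j => θsurj _ (L.b_mem_Z (x i) (x j))
    exact ⟨B, hB⟩
  obtain ⟨P, hP⟩ : ∃ P : Fin 4 → WW p, ∀ i, (θ (P i) : A) = p • x i := by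
    choose P hP using fun i => θsurj _ (h1 (x i))
    exact ⟨P, hP⟩
  -- lift
  let lft : VV p → A := fun v => ∑ i, (v i).val • x i
  have hlft : ∀ v, lft v = ∑ i, (v i).val • x i := fun _ => rfl
  let β : VV p →ₗ[ZMod p] VV p →ₗ[ZMod p] WW p :=
    LinearMap.mk₂ (ZMod p) (fun u v => ∑ i, u i • ∑ j, v j • B i j)
      (by intro u u' v; simp only [Pi.add_apply, add_smul, Finset.sum_add_distrib])
      (by intro c u v; simp only [Pi.smul_apply, smul_eq_mul, mul_smul, Finset.smul_sum])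
      (by intro u v v'; simp only [Pi.add_apply, add_smul, Finset.sum_add_distrib, smul_add])
      (by
        intro c u v
        simp only [Pi.smul_apply, smul_eq_mul, mul_smul, Finset.smul_sum]
        refine Finset.sum_congr rfl fun i _ => Finset.sum_congr rfl fun j _ => ?_
        rw [smul_comm])
  have hβ : ∀ u v, β u v = ∑ i, u i • ∑ j, v j • B i j := fun _ _ => rfl
  have K1 : ∀ u v : VV p, L.b (lft u) (lft v) = θ (β u v) := by
    intro u v
    rw [hβ, θsum, hlft u, map_sum L.b, AddMonoidHom.finsetSum_apply]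
    refine Finset.sum_congr rfl fun i _ => ?_
    rw [hlft v]
    rw [θsmul, θsum, map_nsmul, AddMonoidHom.nsmul_apply, map_sum]
    congr 1
    refine Finset.sum_congr rfl fun j _ => ?_
    rw [θsmul, hB, map_nsmul]
  let π : VV p →ₗ[ZMod p] WW p := Fintype.linearCombination (ZMod p) P
  have hπ : ∀ v, π v = ∑ i, v i • P i := fun v => Fintype.linearCombination_apply _ _ _
  let d : Dat p := ⟨β, by
    intro v
    apply θinj
    rw [← K1, L.alt, map_zero]; rfl, π⟩
  have hdβ : d.β = β := rfl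
  have hdπ : d.π = π := rfl
  have K2 : ∀ u v : VV p, lft (u + v) + θ (π (carry u v)) = lft u + lft v := by
    intro u v
    rw [hπ, θsum, hlft, hlft, hlft, ← Finset.sum_add_distrib, ← Finset.sum_add_distrib]
    refine Finset.sum_congr rfl fun i _ => ?_
    have hpos : 0 < p := hpp.pos
    have ha := (u i).val_lt
    have hb := (v i).val_lt
    rw [Pi.add_apply, ZMod.val_add, ← add_smul]
    by_cases hc : p ≤ (u i).val + (v i).val
    · have e1 : carry u v i = 1 := by simp [carry, hc]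
      rw [e1, one_smul, hP, Nat.mod_eq_sub_mod hc, Nat.mod_eq_of_lt (by omega), ← add_smul,
        Nat.sub_add_cancel hc]
    · have e1 : carry u v i = 0 := by simp [carry, hc]
      rw [e1, zero_smul, map_zero, Nat.mod_eq_of_lt (by omega)]
      simp
  let Φ : Grp d → A := fun X => lft X.v + θ X.w
  have hΦ : ∀ X, Φ X = lft X.v + θ X.w := fun _ => rfl
  have K3 : ∀ X Y : Grp d, L.b (Φ X) (Φ Y) = θ (β X.v Y.v) := by
    intro X Y
    rw [hΦ, hΦ, map_add, L.mem_Z'.1 (θZ Y.w), add_zero, map_add,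
      AddMonoidHom.add_apply, L.mem_Z.1 (θZ X.w), add_zero, K1]
  have h20 : (2 : ZMod p) ≠ 0 := by
    intro h0
    have : ((2 : ℕ) : ZMod p) = 0 := by exact_mod_cast h0
    rw [ZMod.natCast_eq_zero_iff] at this
    exact hp ((Nat.prime_dvd_prime_iff_eq hpp Nat.prime_two).1 this)
  have K4 : ∀ X Y : Grp d, Φ (X * Y) = Φ X + Φ Y + k • L.b (Φ X) (Φ Y) := by
    intro X Y
    have e1 : (2 : ZMod p)⁻¹ • β X.v Y.v = k • β X.v Y.v := by
      have e2 : (2 * k) • β X.v Y.v = β X.v Y.v := by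
        apply θinj
        rw [θnsmul, ← K3, h.two]
      rw [mul_smul, ← Nat.cast_smul_eq_nsmul (ZMod p) 2] at e2
      conv_lhs => rw [← e2]
      rw [smul_smul, Nat.cast_ofNat, inv_mul_cancel₀ h20, one_smul]
    rw [K3, ← θnsmul, ← e1, hΦ, hΦ, hΦ, Grp.mul_v, Grp.mul_w, hdβ, hdπ, θadd, θadd, θadd]
    have e3 : lft (X.v + Y.v) = lft X.v + lft Y.v - θ (π (carry X.v Y.v)) := by
      rw [← K2 X.v Y.v]; abel
    rw [e3]
    abel
  have hsurj : Function.Surjective Φ := by
    intro a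
    obtain ⟨m, hm⟩ := gen a
    obtain ⟨w, hw⟩ : ∃ w : WW p, (θ w : A) = a - lft (fun i => (m i : ZMod p)) := by
      apply θsurj
      have e1 : a - lft (fun i => (m i : ZMod p)) =
          (a - ∑ i, m i • x i) + ∑ i, (m i - (((m i : ZMod p)).val : ℤ)) • x i := by
        rw [hlft]
        simp only [sub_smul, Finset.sum_sub_distrib, natCast_zsmul]
        abel
      rw [e1]
      refine L.Z.add_mem hm (L.Z.sum_mem fun i _ => ?_)
      have e2 : (p : ℤ) ∣ (m i - (((m i : ZMod p)).val : ℤ)) := by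
        rw [← ZMod.intCast_zmod_eq_zero_iff_dvd]
        push_cast
        rw [ZMod.natCast_zmod_val, sub_self]
      obtain ⟨c, hc⟩ := e2
      rw [hc, mul_comm, mul_smul, natCast_zsmul]
      exact L.Z.zsmul_mem (h1 _) _
    refine ⟨⟨fun i => (m i : ZMod p), w⟩, ?_⟩
    rw [hΦ]
    simp only
    rw [hw]
    abel
  let eG : Grp d ≃ VV p × WW p := ⟨fun X => (X.v, X.w), fun q => ⟨q.1, q.2⟩, fun _ => rfl, fun _ => rfl⟩
  have hfin : Finite (Grp d) := Finite.of_equiv _ eG.symm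
  have hcardG : Nat.card (Grp d) = p ^ 7 := by
    rw [Nat.card_congr eG, Nat.card_prod]
    simp only [VV, WW]
    rw [Nat.card_fun, Nat.card_fun, Nat.card_zmod, Nat.card_fin, Nat.card_fin, ← pow_add]
  have hbij : Function.Bijective Φ :=
    hsurj.bijective_of_nat_card_le (by rw [hcardG, hA])
  refine ⟨d, ?_, ?_, ⟨?_⟩⟩
  · -- Onto
    rw [Dat.Onto, Submodule.eq_top_iff']
    intro w
    set S := Submodule.span (ZMod p) {w | ∃ u v, w = d.β u v} with hS
    let T : AddSubgroup A := S.toAddSubgroup.map (L.Z.subtype.comp θ.toAddMonoidHom)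
    have hT : L.D ≤ T := by
      unfold LR.D
      rw [AddSubgroup.closure_le]
      rintro z ⟨a, a', rfl⟩
      obtain ⟨X, rfl⟩ := hsurj a
      obtain ⟨Y, rfl⟩ := hsurj a'
      rw [K3]
      exact ⟨β X.v Y.v, Submodule.subset_span ⟨X.v, Y.v, rfl⟩, rfl⟩
    have hw : (θ w : A) ∈ L.D := by rw [h4]; exact θZ w
    obtain ⟨w', hw', hw''⟩ := hT hw
    have : w' = w := θinj _ _ hw''
    rw [← this]
    exact hw'
  · -- Nondeg
    intro u hu
    have e1 : lft u ∈ L.Z := by
      rw [L.mem_Z]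
      intro a
      obtain ⟨Y, rfl⟩ := hsurj a
      have e2 := K3 ⟨u, 0⟩ Y
      rw [← hdβ, hu, map_zero] at e2
      have e3 : Φ ⟨u, 0⟩ = lft u := by
        rw [hΦ]
        simp
      rw [e3] at e2
      rw [e2]; rfl
    have e4 := ind (fun i => ((u i).val : ℤ)) (by
      have e5 : ∑ i, (((u i).val : ℤ)) • x i = lft u := by
        rw [hlft]
        simp only [natCast_zsmul]
      rw [e5]; exact e1)
    funext i
    have e6 := e4 i
    simp only [Int.natCast_dvd_natCast] at e6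
    have e7 := Nat.eq_zero_of_dvd_of_lt e6 (u i).val_lt
    exact (ZMod.val_eq_zero _).1 e7
  · -- the isomorphism
    refine MulEquiv.symm ⟨(Equiv.ofBijective Φ hbij).trans φ.symm, ?_⟩
    intro X Y
    simp only [Equiv.trans_apply, Equiv.ofBijective_apply, Equiv.toFun_as_coe]
    rw [Equiv.symm_apply_eq, h.mul, Equiv.apply_symm_apply, Equiv.apply_symm_apply, K4]

end MP_02e52a.M7
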