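import Pool.Agent.Lib.MP_02e52a_al.M7.Structure
import Pool.Agent.Lib.MP_02e52a_al.M7.G0
import Pool.Agent.Lib.MP_02e52a_al.M7.G4
import Pool.Agent.Lib.MP_02e52a_al.M7.G6
import Pool.Agent.Lib.MP_02e52a_al.M7.G9

namespace MP_02e52a.M7

private theorem main1_congr {G H : Type*} [Group G] [Group H] (e : G ≃* H) (h : AutComm G) :
    AutComm H := by
  intro a b
  obtain ⟨a', rfl⟩ := (MulAut.congr e).surjective a
  obtain ⟨b', rfl⟩ := (MulAut.congr e).surjective b
  rw [← map_mul, ← map_mul, h a' b']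

open scoped commutatorElement in
private theorem main1_nonab {p : ℕ} [Fact p.Prime] (hp : p ≠ 2) (d : Dat p) (ho : d.Onto) :
    ¬ ∀ x y : Grp d, x * y = y * x := by
  intro hc
  have hz : ∀ u v, d.β u v = 0 := by
    intro u v
    have h1 := (grp_comm hp d ⟨u, 0⟩ ⟨v, 0⟩).2
    have h2 : (⁅(⟨u, 0⟩ : Grp d), (⟨v, 0⟩ : Grp d)⁆ : Grp d) = 1 := by
      rw [commutatorElement_eq_one_iff_mul_comm]
      exact hc _ _
    rw [h2] at h1
    exact h1.symm
  have h3 : Submodule.span (ZMod p) {w | ∃ u v, w = d.β u v} = ⊥ := by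
    rw [Submodule.span_eq_bot]
    rintro w ⟨u, v, rfl⟩
    exact hz u v
  have h4 : (⊥ : Submodule (ZMod p) (WW p)) = ⊤ := by
    rw [← h3]
    exact ho
  exact bot_ne_top h4

/-- [M7 MAIN1] PROOF. (→) `class_two`, `exists_baer` (`Nat.card G = p^7` is odd), `autComm_iff`, `IsBaer.abelian`, `structure_LR`, `exists_grp`; `AutComm` is invariant under isomorphism, so `d.Free` by `autComm_iff_free`. (←) `card_grp`, `Grp d` is not abelian (`grp_comm`, `Onto`),
`autComm_iff_free`. -/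
theorem miller_iff (p : ℕ) [Fact p.Prime] (hp : p ≠ 2) (G : Type*) [Group G] (hG : Nat.card G = p ^ 7) :
    ((¬ ∀ x y : G, x * y = y * x) ∧ AutComm G) ↔
      ∃ d : Dat p, d.Onto ∧ d.Nondeg ∧ d.Free ∧ Nonempty (G ≃* Grp d) := by
  have hpp : p.Prime := Fact.out
  constructor
  · rintro ⟨hnc, haut⟩
    have hfin : Finite G := by
      apply Nat.finite_of_card_ne_zero
      rw [hG]
      exact pow_ne_zero _ hpp.ne_zero
    have hodd : Odd (Nat.card G) := by
      rw [hG]
      exact (hpp.odd_of_ne_two hp).pow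
    obtain ⟨A, _, L, φ, k, hB⟩ := exists_baer hodd (class_two haut)
    have hfA : Finite A := Finite.of_equiv G φ
    have hA : Nat.card A = p ^ 7 := by rw [← hG]; exact Nat.card_congr φ.symm
    have hb : ∃ x y, L.b x y ≠ 0 := by
      by_contra hcon
      push Not at hcon
      exact hnc (hB.abelian.2 hcon)
    obtain ⟨h1, h2, h3, h4⟩ := structure_LR p hp L ((autComm_iff hB).1 haut) hA hb
    obtain ⟨d, ho, hn, ⟨e⟩⟩ := exists_grp p hp hB hA h1 h2 h3 h4
    exact ⟨d, ho, hn, (autComm_iff_free hp d ho hn).1 (main1_congr e haut), ⟨e⟩⟩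
  · rintro ⟨d, ho, hn, hf, ⟨e⟩⟩
    refine ⟨?_, main1_congr e.symm ((autComm_iff_free hp d ho hn).2 hf)⟩
    intro hc
    apply main1_nonab hp d ho
    intro x y
    obtain ⟨x', rfl⟩ := e.surjective x
    obtain ⟨y', rfl⟩ := e.surjective y
    rw [← map_mul, ← map_mul, hc x' y']

end MP_02e52a.M7
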