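import Pool.Agent.Lib.MP_02e52a_al.M7.Fin2
import Pool.Agent.Lib.MP_02e52a_al.M7.Main1

/-! # The classification of the groups -/

namespace MP_02e52a.M7

open scoped commutatorElement

variable {p : ℕ} [Fact p.Prime]

theorem classification (hp : p ≠ 2) (ν : ZMod p) (hν : ¬ IsSquare ν) (G : Type*) [Group G]
    (hG : Nat.card G = p ^ 7) :
    ((¬ ∀ x y : G, x * y = y * x) ∧ AutComm G) ↔
      ∃ x : Par p, x.Ok ∧ Nonempty (G ≃* Grp (x.dat ν)) := by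
  rw [miller_iff p hp G hG]
  constructor
  · rintro ⟨d, ho, hn, hf, ⟨e⟩⟩
    obtain ⟨x, hx, he⟩ := dat_normal hp ν hν d ho hn hf
    obtain ⟨f⟩ := (grp_iso_iff hp d (x.dat ν) hn (x.nondeg ν)).2 he
    exact ⟨x, hx, ⟨e.trans f⟩⟩
  · rintro ⟨x, hx, he⟩
    exact ⟨x.dat ν, x.onto ν, x.nondeg ν, x.free hp ν hν hx, he⟩

theorem iso_iff (hp : p ≠ 2) (ν : ZMod p) (hν : ¬ IsSquare ν) (x y : Par p) (hx : x.Ok) (hy : y.Ok) :
    Nonempty (Grp (x.dat ν) ≃* Grp (y.dat ν)) ↔ x.Rel y := by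
  rw [grp_iso_iff hp _ _ (x.nondeg ν) (y.nondeg ν)]
  exact par_rel hp ν hν x y hx hy

/-- properties of the groups in the list -/
theorem grp_props (hp : p ≠ 2) (ν : ZMod p) (hν : ¬ IsSquare ν) (x : Par p) (hx : x.Ok) :
    Nat.card (Grp (x.dat ν)) = p ^ 7 ∧
      (∀ a : MulAut (Grp (x.dat ν)), a ^ p = 1) ∧ Nat.card (MulAut (Grp (x.dat ν))) = p ^ 12 := by
  refine ⟨card_grp _, ?_⟩
  exact aut_free hp _ (x.onto ν) (x.nondeg ν) (x.free hp ν hν hx)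

end MP_02e52a.M7
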