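import Pool.Agent.Lib.MP_02e52a_al.M7.TypeDefs

/-! # Parameters of the classification -/

namespace MP_02e52a.M7

variable {p : ℕ} [Fact p.Prime]

/-- the two `3 × 2` matrices of `π`: `T_j k i` = coefficient of `x (2 i + j)` in the `k`-th component of `π` -/
def TM (π : VV p →ₗ[ZMod p] WW p) (j : Fin 2) : Matrix (Fin 3) (Fin 2) (ZMod p) :=
  fun k i => π (Pi.single (finProdFinEquiv (i, j)) 1) k

/-- the subspace of `3 × 2` matrices spanned by `T_0, T_1` -/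
def planeM (π : VV p →ₗ[ZMod p] WW p) : Submodule (ZMod p) (Matrix (Fin 3) (Fin 2) (ZMod p)) :=
  Submodule.span (ZMod p) (Set.range (TM π))

/-- the second symmetric power of a `2 × 2` matrix in the coordinates of `netM` -/
def sq (a : Matrix (Fin 2) (Fin 2) (ZMod p)) : Matrix (Fin 3) (Fin 3) (ZMod p) :=
  !![a 0 0 ^ 2, a 0 1 ^ 2, a 0 0 * a 0 1; a 1 0 ^ 2, a 1 1 ^ 2, a 1 0 * a 1 1;
    2 * a 0 0 * a 1 0, 2 * a 0 1 * a 1 1, a 0 0 * a 1 1 + a 0 1 * a 1 0]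

/-- the action of `a ∈ GL2` on the space of `3 × 2` matrices (up to scalars): `T ↦ sq a * T * adj a` -/
def actM (a : Matrix (Fin 2) (Fin 2) (ZMod p)) :
    Matrix (Fin 3) (Fin 2) (ZMod p) →ₗ[ZMod p] Matrix (Fin 3) (Fin 2) (ZMod p) where
  toFun T := sq a * T * a.adjugate
  map_add' := by intro x y; rw [Matrix.mul_add, Matrix.add_mul]
  map_smul' := by intro c x; simp

/-- parameters -/
inductive Par (p : ℕ)
  | M (π : VV p →ₗ[ZMod p] WW p)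
  | F (A : Matrix (Fin 2) (Fin 2) (ZMod p))
  | D (α ε φ : ZMod p)
  | H1 (a b c d : ZMod p)
  | H2 (a b c d : ZMod p)
  | H3 (a b c d s t u : ZMod p)

/-- the datum of a parameter (`ν` is a fixed non-square) -/
def Par.dat (ν : ZMod p) : Par p → Dat p
  | .M π => datM π
  | .F A => datK ν (piA A)
  | .D α ε φ => datK 0 (piD α ε φ)
  | .H1 a b c d => datH (piH1 a b c d)
  | .H2 a b c d => datH (piH2 a b c d)
  | .H3 a b c d s t u => datH (piH3 a b c d s t u)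

/-- admissible parameters -/
def Par.Ok : Par p → Prop
  | .M π => LinearIndependent (ZMod p) (TM π) ∧
      ∀ a : Matrix (Fin 2) (Fin 2) (ZMod p), a.det ≠ 0 → (planeM π).map (actM a) = planeM π →
        a 0 1 = 0 ∧ a 1 0 = 0 ∧ a 0 0 = a 1 1
  | .F A => A 0 0 ≠ 0 ∨ A 1 1 ≠ 0
  | .D α ε φ => φ ≠ 0 ∧ (α ≠ 0 ∨ ε ≠ 0 ∨ ∀ r : ZMod p, r ^ 3 = 1 → r = 1)
  | .H1 a b c d => a + d ≠ 0 ∨ b + c ≠ 0
  | .H2 a _ _ d => a ≠ 0 ∨ d ≠ 0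
  | .H3 a b c d s t u => (t ≠ 0 ∨ u ≠ 0) ∧
      ∀ a1 a2 c2 : ZMod p, a1 ≠ 0 → a2 ≠ 0 → c2 ≠ 0 → a1 * a2 * a = a → a1 * s = s → a2 * u = u →
        a1 ^ 2 * a2 * t = c2 * t → a2 * c2 * c = a1 * c → a1 ^ 2 * a2 * (b * u - d * t) = b * u - d * t →
        a1 = 1 ∧ a2 = 1 ∧ c2 = 1

/-- equivalence of parameters -/
def Par.Rel : Par p → Par p → Prop
  | .M π, .M π' => ∃ a : Matrix (Fin 2) (Fin 2) (ZMod p), a.det ≠ 0 ∧ (planeM π).map (actM a) = planeM π'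
  | .F A, .F A' => A' = A ∨ A' = !![-A 0 0, A 0 1; A 1 0, -A 1 1]
  | .D α ε φ, .D α' ε' φ' => ∃ r : ZMod p, r ≠ 0 ∧ α' = r ^ 2 * α ∧ ε' = r ^ 4 * ε ∧ φ' = r ^ 3 * φ
  | .H1 a b c d, .H1 a' b' c' d' =>
      (a' = a ∧ b' = b ∧ c' = c ∧ d' = d) ∨ (a' = -d ∧ b' = -c ∧ c' = -b ∧ d' = -a)
  | .H2 a b c d, .H2 a' b' c' d' => ∃ r : ZMod p, r ≠ 0 ∧ a' = r * a ∧ b' = r ^ 2 * b ∧ c' = c ∧ d' = r * d
  | .H3 a b c d s t u, .H3 a' b' c' d' s' t' u' =>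
      ∃ a1 a2 c2 r : ZMod p, a1 ≠ 0 ∧ a2 ≠ 0 ∧ c2 ≠ 0 ∧ a' = a1 * a2 * a ∧ s' = a1 * s ∧ u' = a2 * u ∧
        c2 * t' = a1 ^ 2 * a2 * t ∧ a1 * c' = a2 * c2 * c ∧ a2 * b' + t' * r = a1 ^ 2 * a2 * b ∧
        a2 * d' + u' * r = a2 * c2 * d
  | _, _ => False

end MP_02e52a.M7
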