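import Pool.Agent.Lib.MP_02e52a_al.M7.BaerDefs

open scoped commutatorElement

namespace MP_02e52a.M7

variable {G A : Type*} [Group G] [AddCommGroup A] {L : LR A} {φ : G ≃ A} {k : ℕ}

/-- [M7 G2] `φ 1 = 0` (from `φ (1 * 1)`: `x = φ 1` satisfies `x = x + x + k • b x x`). -/
theorem IsBaer.one (h : IsBaer L φ k) : φ 1 = 0 := by
  have h1 := h.mul 1 1
  rw [mul_one, L.alt, smul_zero, add_zero] at h1
  simpa using h1

/-- [M7 G2] `b (φ x) (φ x) = 0`, induction. -/
theorem IsBaer.pow (h : IsBaer L φ k) (x : G) (n : ℕ) : φ (x ^ n) = n • φ x := by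
  induction n with
  | zero => rw [pow_zero, zero_smul]; exact h.one
  | succ n ih =>
    rw [pow_succ, h.mul, ih, map_nsmul, AddMonoidHom.nsmul_apply, L.alt, smul_zero, smul_zero,
      add_zero, succ_nsmul]

/-- [M7 G2] inverse -/
theorem IsBaer.inv (h : IsBaer L φ k) (x : G) : φ x⁻¹ = - φ x := by
  have h1 := h.mul x⁻¹ x
  rw [inv_mul_cancel, h.one] at h1
  have h2 : φ x⁻¹ = - φ x - k • L.b (φ x⁻¹) (φ x) := by
    rw [eq_sub_iff_add_eq, eq_neg_iff_add_eq_zero, h1]
    abel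
  have h3 : L.b (φ x⁻¹) (φ x) = 0 := by
    rw [h2, map_sub, map_neg, map_nsmul, AddMonoidHom.sub_apply, AddMonoidHom.neg_apply,
      AddMonoidHom.nsmul_apply, L.alt, L.nil, smul_zero, neg_zero, sub_zero]
  rw [h3, smul_zero, sub_zero] at h2
  exact h2

/-- [M7 G2] `⁅x, y⁆ = (x y) (y x)⁻¹`, `φ (x y) - φ (y x) = 2 k • b (φ x) (φ y) = b (φ x) (φ y)`, and the correction term
`k • b (φ (x y)) (- φ (y x)) = 0` since both are `φ x + φ y` up to central elements. -/
theorem IsBaer.comm (h : IsBaer L φ k) (x y : G) : φ ⁅x, y⁆ = L.b (φ x) (φ y) := by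
  have h0 : ⁅x, y⁆ * (y * x) = x * y := by
    rw [commutatorElement_def]; group
  have h1 := h.mul ⁅x, y⁆ (y * x)
  rw [h0, h.mul x y, h.mul y x] at h1
  have h2 := h.two (φ x) (φ y)
  rw [mul_smul, two_smul] at h2
  have h3 := L.skew (φ y) (φ x)
  rw [h3, smul_neg] at h1
  set c := φ ⁅x, y⁆ with hc
  set B := L.b (φ x) (φ y) with hB
  set d := φ y + φ x + -(k • B) with hd
  have h4 : c = B - k • L.b c d := by
    have h5 : c = (φ x + φ y + k • B) - d - k • L.b c d := by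
      rw [h1]; abel
    have h6 : φ x + φ y + k • B - d = B := by
      rw [hd]
      conv_rhs => rw [← h2]
      abel
    rwa [h6] at h5
  have h7 : L.b c d = 0 := by
    rw [h4, map_sub, map_nsmul, AddMonoidHom.sub_apply, AddMonoidHom.nsmul_apply, hB, L.nil, L.nil,
      smul_zero, sub_zero]
  rw [h7, smul_zero, sub_zero] at h4
  exact h4

/-- [M7 G2] `x` is central iff all commutators `⁅x, y⁆` are `1` iff `b (φ x) a = 0` for all `a`. -/
theorem IsBaer.center (h : IsBaer L φ k) (x : G) : x ∈ Subgroup.center G ↔ φ x ∈ L.Z := by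
  rw [Subgroup.mem_center_iff, L.mem_Z]
  constructor
  · intro hx a
    obtain ⟨y, rfl⟩ := φ.surjective a
    rw [← h.comm, (commutatorElement_eq_one_iff_mul_comm (g₁ := x) (g₂ := y)).2 (hx y).symm, h.one]
  · intro hx y
    have h1 := h.comm x y
    rw [hx, ← h.one, EmbeddingLike.apply_eq_iff_eq] at h1
    exact ((commutatorElement_eq_one_iff_mul_comm (g₁ := x) (g₂ := y)).1 h1).symm

/-- [M7 G2] if `φ y` is central then `φ (x y) = φ x + φ y`. -/
theorem IsBaer.mul_center (h : IsBaer L φ k) (x y : G) (hy : φ y ∈ L.Z) : φ (x * y) = φ x + φ y := by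
  rw [h.mul, L.mem_Z'.1 hy, smul_zero, add_zero]

/-- [M7 G2] `b = 0` iff `G` is abelian. -/
theorem IsBaer.abelian (h : IsBaer L φ k) : (∀ x y : G, x * y = y * x) ↔ ∀ x y, L.b x y = 0 := by
  constructor
  · intro hG a b
    obtain ⟨x, rfl⟩ := φ.surjective a
    obtain ⟨y, rfl⟩ := φ.surjective b
    rw [← h.comm, (commutatorElement_eq_one_iff_mul_comm (g₁ := x) (g₂ := y)).2 (hG x y), h.one]
  · intro hb x y
    have h1 := h.comm x y
    rw [hb, ← h.one, EmbeddingLike.apply_eq_iff_eq] at h1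
    exact (commutatorElement_eq_one_iff_mul_comm (g₁ := x) (g₂ := y)).1 h1

end MP_02e52a.M7
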