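import Pool.Agent.Lib.MP_02e52a_al.M7.GrpDefs

open scoped commutatorElement

namespace MP_02e52a.M7

variable {p : ℕ} [Fact p.Prime] (hp2 : p ≠ 2) (d : Dat p)

/-- [M7 G7] order -/
theorem card_grp : Nat.card (Grp d) = p ^ 7 := by
  let e : Grp d ≃ VV p × WW p :=
    { toFun := fun x => (x.v, x.w)
      invFun := fun y => ⟨y.1, y.2⟩
      left_inv := fun _ => rfl
      right_inv := fun _ => rfl }
  rw [Nat.card_congr e, Nat.card_prod, Nat.card_eq_fintype_card, Nat.card_eq_fintype_card,
    Fintype.card_fun, Fintype.card_fun, Fintype.card_fin, Fintype.card_fin, ZMod.card, ← pow_add]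

private theorem g7_div (n a p : ℕ) (ha : a < p) :
    n * a / p + (if p ≤ n * a % p + a then 1 else 0) = (n + 1) * a / p := by
  have hp : 0 < p := by omega
  have h1 : (n + 1) * a = p * (n * a / p) + (n * a % p + a) := by
    have := Nat.div_add_mod (n * a) p
    rw [add_mul, one_mul]
    omega
  have h2 := Nat.mod_lt (n * a) hp
  rw [h1, Nat.mul_add_div hp]
  congr 1
  split_ifs with h
  · symm
    rw [Nat.div_eq_iff hp]
    omega
  · symm
    apply Nat.div_eq_of_lt
    omega

private theorem g7_pow (x : Grp d) (n : ℕ) : (x ^ n).v = n • x.v ∧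
    (x ^ n).w = n • x.w + d.π (fun i => ((n * (x.v i).val / p : ℕ) : ZMod p)) := by
  induction n with
  | zero =>
    refine ⟨by simp, ?_⟩
    have : (fun i => ((0 * (x.v i).val / p : ℕ) : ZMod p)) = (0 : VV p) := by
      funext i
      simp
    rw [this, map_zero]
    simp
  | succ n ih =>
    obtain ⟨h1, h2⟩ := ih
    have hb : d.β (n • x.v) x.v = 0 := by
      rw [map_nsmul, LinearMap.smul_apply, d.alt, smul_zero]
    have hc : (fun i => (((n + 1) * (x.v i).val / p : ℕ) : ZMod p)) =
        (fun i => ((n * (x.v i).val / p : ℕ) : ZMod p)) + carry (n • x.v) x.v := by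
      funext i
      rw [Pi.add_apply]
      unfold carry
      have h3 : ((n • x.v) i).val = n * (x.v i).val % p := by
        rw [Pi.smul_apply, nsmul_eq_mul, ZMod.val_mul, ZMod.val_natCast, Nat.mod_mul_mod]
      rw [h3, ← g7_div n _ p (ZMod.val_lt _)]
      push_cast
      rfl
    constructor
    · rw [pow_succ, Grp.mul_v, h1, succ_nsmul]
    · rw [pow_succ, Grp.mul_w, h1, h2, hb, hc, map_add, smul_zero, succ_nsmul]
      abel

/-- [M7 G7] powers: `x^p = (0, π x.v)`. PROOF: more generally `(x^n).v = n • x.v` and `(x^n).w = n • x.w + π (i ↦ ((n * (x.v i).val) / p : ℕ))` (natural number division), by induction on `n`: the carry of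
`n • v i` and `v i` is `1` iff `(n * (v i).val) % p + (v i).val ≥ p`. For `n = p` the quotient is `(x.v i).val`. -/
theorem grp_pow (x : Grp d) : (x ^ p).v = 0 ∧ (x ^ p).w = d.π x.v := by
  obtain ⟨h1, h2⟩ := g7_pow d x p
  have hpos : 0 < p := (Fact.out : p.Prime).pos
  constructor
  · rw [h1]
    funext i
    simp
  · rw [h2]
    have : (fun i => ((p * (x.v i).val / p : ℕ) : ZMod p)) = x.v := by
      funext i
      rw [Nat.mul_div_cancel_left _ hpos, ZMod.natCast_zmod_val]
    rw [this]
    have h3 : p • x.w = 0 := by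
      funext i
      simp
    rw [h3, zero_add]

private theorem g7_skew (u v : VV p) : d.β u v = - d.β v u := by
  have h := d.alt (u + v)
  simp only [map_add, LinearMap.add_apply, d.alt, zero_add, add_zero] at h
  exact eq_neg_of_add_eq_zero_right h

include hp2 in
private theorem g7_two : (2 : ZMod p)⁻¹ + (2 : ZMod p)⁻¹ = 1 := by
  have h2 : (2 : ZMod p) ≠ 0 := by
    have h3 : (2 : ZMod p) = ((2 : ℕ) : ZMod p) := by norm_num
    rw [h3, Ne, ZMod.natCast_eq_zero_iff]
    intro h
    exact hp2 ((Nat.prime_dvd_prime_iff_eq (Fact.out : p.Prime) Nat.prime_two).1 h)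
  field_simp
  norm_num

include hp2 in
/-- [M7 G7] commutators: `⁅x, y⁆ = (0, β x.v y.v)`. PROOF: `x * y = ⁅x, y⁆ * (y * x)`: check that `(0, β x.v y.v) * (y * x) = x * y`, using `β y x = - β x y`, `2⁻¹ + 2⁻¹ = 1`, `carry` symmetric. -/
theorem grp_comm (x y : Grp d) : (⁅x, y⁆ : Grp d).v = 0 ∧ (⁅x, y⁆ : Grp d).w = d.β x.v y.v := by
  have key : (⟨0, d.β x.v y.v⟩ : Grp d) * (y * x) = x * y := by
    ext1
    · rw [Grp.mul_v, Grp.mul_v, Grp.mul_v, zero_add, add_comm]
    · rw [Grp.mul_w, Grp.mul_w, Grp.mul_w, carry_zero_left, map_zero, map_zero,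
        LinearMap.zero_apply, smul_zero, carry_comm y.v x.v, g7_skew d y.v x.v, smul_neg]
      change d.β x.v y.v + _ + _ + _ = _
      have h1 : d.β x.v y.v = (2 : ZMod p)⁻¹ • d.β x.v y.v + (2 : ZMod p)⁻¹ • d.β x.v y.v := by
        rw [← add_smul, g7_two hp2, one_smul]
      nth_rewrite 1 [h1]
      abel
  have h2 : (⁅x, y⁆ : Grp d) = ⟨0, d.β x.v y.v⟩ := by
    rw [commutatorElement_def, ← key]
    group
  rw [h2]
  exact ⟨rfl, rfl⟩

include hp2 in
/-- [M7 G7] centre (for nondegenerate `β`) -/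
theorem grp_center (hn : d.Nondeg) (x : Grp d) : x ∈ Subgroup.center (Grp d) ↔ x.v = 0 := by
  rw [Subgroup.mem_center_iff]
  have h1 : ∀ g : Grp d, g * x = x * g ↔ d.β x.v g.v = 0 := by
    intro g
    rw [← commutatorElement_eq_one_iff_mul_comm]
    obtain ⟨h2, h3⟩ := grp_comm hp2 d g x
    constructor
    · intro h
      rw [h, Grp.one_w] at h3
      rw [g7_skew, ← h3, neg_zero]
    · intro h
      ext1
      · exact h2
      · rw [h3, g7_skew, h, neg_zero, Grp.one_w]
  constructor
  · intro h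
    exact hn _ fun v => (h1 ⟨v, 0⟩).1 (h ⟨v, 0⟩)
  · intro h g
    rw [h1, h]
    simp

end MP_02e52a.M7
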