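import Pool.Agent.Lib.MP_02e52a_al.M7.G7

open scoped commutatorElement

namespace MP_02e52a.M7

variable {p : ℕ} [Fact p.Prime]

/-- [M7 G8a] An isomorphism induces `(g, h)`. PROOF. `f` maps the centre `{x | x.v = 0}` onto the centre. `g v = (f (v, 0)).v`: additive since `(v, 0) * (v', 0) = (v + v', _)` and elements with equal `v` differ by a central factor
`(0, w)`; bijective; additive maps between `ZMod p`-modules are linear. `h w = (f (0, w)).w`, additive bijective. `β`: apply `f` to `⁅x, y⁆ = (0, β x.v y.v)` (`grp_comm`). `π`: apply `f` to `x ^ p` (`grp_pow`). -/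
theorem trans_of_mulEquiv (hp2 : p ≠ 2) (d d' : Dat p) (hn : d.Nondeg) (hn' : d'.Nondeg) (f : Grp d ≃* Grp d') :
    ∃ g h, d.Trans d' g h ∧ (∀ x, (f x).v = g x.v) ∧ ∀ w, f ⟨0, w⟩ = ⟨0, h w⟩ := by
  have hcz : ∀ v : VV p, carry v 0 = 0 := fun v => by rw [carry_comm, carry_zero_left]
  have hcen : ∀ x : Grp d, x.v = 0 ↔ (f x).v = 0 := by
    intro x
    rw [← grp_center hp2 d hn x, ← grp_center hp2 d' hn' (f x)]
    constructor
    · intro hx
      rw [Subgroup.mem_center_iff] at hx ⊢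
      intro y
      obtain ⟨z, rfl⟩ := f.surjective y
      rw [← map_mul, ← map_mul, hx z]
    · intro hx
      rw [Subgroup.mem_center_iff] at hx ⊢
      intro y
      apply f.injective
      rw [map_mul, map_mul, hx (f y)]
  have hdec : ∀ x : Grp d, x = (⟨x.v, 0⟩ : Grp d) * ⟨0, x.w⟩ := by
    intro x
    ext1
    · simp
    · simp [hcz]
  have hv0 : ∀ w, (f ⟨0, w⟩).v = 0 := fun w => (hcen ⟨0, w⟩).1 rfl
  have hfv : ∀ x, (f x).v = (f ⟨x.v, 0⟩).v := by
    intro x
    conv_lhs => rw [hdec x]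
    rw [map_mul, Grp.mul_v, hv0, add_zero]
  let g0 : VV p →+ VV p :=
    { toFun := fun v => (f ⟨v, 0⟩).v
      map_zero' := hv0 0
      map_add' := by
        intro u v
        rw [← Grp.mul_v, ← map_mul, hfv ((⟨u, 0⟩ : Grp d) * ⟨v, 0⟩)]
        rfl }
  let h0 : WW p →+ WW p :=
    { toFun := fun w => (f ⟨0, w⟩).w
      map_zero' := by
        have : (⟨0, 0⟩ : Grp d) = 1 := rfl
        rw [this, map_one]
        rfl
      map_add' := by
        intro w w'
        have e : (⟨0, w + w'⟩ : Grp d) = ⟨0, w⟩ * ⟨0, w'⟩ := by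
          ext1
          · simp
          · simp [carry_zero_left]
        rw [e, map_mul, Grp.mul_w, hv0, hv0]
        simp [carry_zero_left] }
  have hg0 : ∀ v, g0 v = (f ⟨v, 0⟩).v := fun _ => rfl
  have hh0 : ∀ w, h0 w = (f ⟨0, w⟩).w := fun _ => rfl
  have hfw : ∀ w, f ⟨0, w⟩ = ⟨0, h0 w⟩ := by
    intro w
    ext1
    · exact hv0 w
    · rfl
  have hginj : Function.Injective g0 := by
    rw [injective_iff_map_eq_zero]
    intro v hv
    exact (hcen ⟨v, 0⟩).2 hv
  have hhinj : Function.Injective h0 := by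
    rw [injective_iff_map_eq_zero]
    intro w hw
    have h1 : f ⟨0, w⟩ = f 1 := by
      rw [hfw, hw, map_one]
      rfl
    have h2 := f.injective h1
    exact congrArg Grp.w h2
  let g1 : VV p →ₗ[ZMod p] VV p := g0.toZModLinearMap p
  let h1 : WW p →ₗ[ZMod p] WW p := h0.toZModLinearMap p
  have hg1 : Function.Bijective g1 :=
    ⟨hginj, Finite.surjective_of_injective (f := g1) hginj⟩
  have hh1 : Function.Bijective h1 :=
    ⟨hhinj, Finite.surjective_of_injective (f := h1) hhinj⟩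
  refine ⟨LinearEquiv.ofBijective g1 hg1, LinearEquiv.ofBijective h1 hh1, ⟨?_, ?_⟩, hfv, hfw⟩
  · intro u v
    have c1 := grp_comm hp2 d (⟨u, 0⟩ : Grp d) ⟨v, 0⟩
    have c2 := grp_comm hp2 d' (f ⟨u, 0⟩) (f ⟨v, 0⟩)
    have e : (⁅(⟨u, 0⟩ : Grp d), ⟨v, 0⟩⁆ : Grp d) = ⟨0, d.β u v⟩ := by
      ext1
      · exact c1.1
      · exact c1.2
    have e2 : f ⟨0, d.β u v⟩ = ⁅f ⟨u, 0⟩, f ⟨v, 0⟩⁆ := by
      rw [← e, map_commutatorElement]
    have e3 := congrArg Grp.w e2
    rw [c2.2] at e3
    exact e3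
  · intro v
    have c1 := grp_pow d (⟨v, 0⟩ : Grp d)
    have c2 := grp_pow d' (f ⟨v, 0⟩)
    have e : ((⟨v, 0⟩ : Grp d) ^ p) = ⟨0, d.π v⟩ := by
      ext1
      · exact c1.1
      · exact c1.2
    have e2 : f ⟨0, d.π v⟩ = (f ⟨v, 0⟩) ^ p := by
      rw [← e, map_pow]
    have e3 := congrArg Grp.w e2
    rw [c2.2] at e3
    exact e3

private lemma G8_val (a b : ZMod p) : a.val + b.val =
    (a + b).val + p * (if p ≤ a.val + b.val then 1 else 0) := by
  have ha := a.val_lt
  have hb := b.val_lt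
  rw [ZMod.val_add]
  split_ifs with h
  · rw [Nat.mod_eq_sub_mod h, Nat.mod_eq_of_lt (by omega)]
    omega
  · rw [Nat.mod_eq_of_lt (by omega)]
    omega

/-- the integral part of the multiplication by the matrix of `g` -/
private def G8_N (g : VV p →ₗ[ZMod p] VV p) (v : VV p) (i : Fin 4) : ℕ :=
  ∑ j, (g (fun k => if j = k then 1 else 0) i).val * (v j).val

private lemma G8_N_cast (g : VV p →ₗ[ZMod p] VV p) (v : VV p) (i : Fin 4) :
    ((G8_N g v i : ℕ) : ZMod p) = g v i := by
  rw [LinearMap.pi_apply_eq_sum_univ g v, Finset.sum_apply, G8_N]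
  push_cast
  refine Finset.sum_congr rfl fun j _ => ?_
  rw [ZMod.natCast_zmod_val, ZMod.natCast_zmod_val, Pi.smul_apply, smul_eq_mul, mul_comm]

private lemma G8_N_eq (g : VV p →ₗ[ZMod p] VV p) (v : VV p) (i : Fin 4) :
    G8_N g v i = p * (G8_N g v i / p) + (g v i).val := by
  rw [← G8_N_cast g v i, ZMod.val_natCast]
  exact (Nat.div_add_mod _ _).symm

private lemma G8_key (g : VV p →ₗ[ZMod p] VV p) (u v : VV p) :
    (fun i => ((G8_N g u i / p : ℕ) : ZMod p)) + (fun i => ((G8_N g v i / p : ℕ) : ZMod p)) +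
      carry (g u) (g v) =
    (fun i => ((G8_N g (u + v) i / p : ℕ) : ZMod p)) + g (carry u v) := by
  funext i
  have hp : 0 < p := (Fact.out : p.Prime).pos
  have h1 := G8_N_eq g u i
  have h2 := G8_N_eq g v i
  have h3 := G8_N_eq g (u + v) i
  have h4 := G8_val (g u i) (g v i)
  set c : Fin 4 → ℕ := fun j => if p ≤ (u j).val + (v j).val then 1 else 0 with hc
  set c' : ℕ := if p ≤ (g u i).val + (g v i).val then 1 else 0 with hc'
  set D : ℕ := ∑ j, (g (fun k => if j = k then 1 else 0) i).val * c j with hD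
  have h5 : G8_N g u i + G8_N g v i = G8_N g (u + v) i + p * D := by
    rw [G8_N, G8_N, G8_N, hD, Finset.mul_sum, ← Finset.sum_add_distrib, ← Finset.sum_add_distrib]
    refine Finset.sum_congr rfl fun j _ => ?_
    rw [← mul_add, G8_val (u j) (v j), Pi.add_apply]
    ring
  have h6 : (g (u + v)) i = g u i + g v i := by rw [map_add]; rfl
  rw [h6] at h3
  have h7 : p * (G8_N g u i / p + G8_N g v i / p + c') = p * (G8_N g (u + v) i / p + D) := by
    have e : ∀ a b x y s t r z : ℕ, a = x + s → b = y + t → s + t = r + z →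
        ∀ A B w : ℕ, A = w + r → a + b = A + B → x + y + z = w + B := by
      intros; omega
    have := e _ _ _ _ _ _ _ _ h1 h2 h4 _ _ _ h3 h5
    rw [mul_add, mul_add, mul_add]
    exact this
  have h8 := Nat.eq_of_mul_eq_mul_left hp h7
  have h9 := congrArg (fun n : ℕ => (n : ZMod p)) h8
  simp only [Nat.cast_add] at h9
  have h10 : (c' : ZMod p) = carry (g u) (g v) i := by
    simp only [hc', carry]
    split_ifs <;> simp
  have h11 : (D : ZMod p) = g (carry u v) i := by
    rw [LinearMap.pi_apply_eq_sum_univ g (carry u v), Finset.sum_apply, hD]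
    push_cast
    refine Finset.sum_congr rfl fun j _ => ?_
    rw [ZMod.natCast_zmod_val, Pi.smul_apply, smul_eq_mul, mul_comm]
    congr 1
    simp only [hc, carry]
    split_ifs <;> simp
  rw [h10, h11] at h9
  exact h9

/-- [M7 G8b] `(g, h)` lifts to an isomorphism. PROOF. Let `M i j ∈ ℕ` be the representatives of the matrix entries of `g` (`g (Pi.single j 1) i = M i j`), and
`κ v i = ((∑ j, M i j * (v j).val) / p : ℕ)` (quotient; `(∑ j, M i j (v j).val) % p = (g v i).val`), `κ v ∈ ℕ^4` cast to `VV p`. Define `f (v, w) = (g v, h w + d'.π (κ v))`... (with the sign that works, see below).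
Over `ℤ`: `∑ j M i j ((u j).val + (v j).val - p carry_j) = ∑ j M i j ((u + v) j).val`, hence `p κ(u)_i + (g u i).val + p κ(v)_i + (g v i).val - p (M carry)_i = p κ(u+v)_i + (g (u+v) i).val`, and
`(g u i).val + (g v i).val = (g (u+v) i).val + p carry (g u) (g v) i`, so in `VV p`: `κ u + κ v + carry (g u) (g v) = κ (u+v) + g (carry u v)`. Then
`f (u, w) * f (v, w')` has second component `h w + h w' + π'(κ u + κ v) + 2⁻¹ β' (g u) (g v) + π' (carry (g u) (g v))`, and `f ((u,w) * (v,w'))` has `h w + h w' + 2⁻¹ h β u v + h π (carry u v) + π' (κ (u+v))` and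
`h π (carry u v) = π' (g (carry u v))`: equal. So `f` is a homomorphism, bijective as `g, h` are. -/
theorem mulEquiv_of_trans (d d' : Dat p) (g : VV p ≃ₗ[ZMod p] VV p) (h : WW p ≃ₗ[ZMod p] WW p)
    (ht : d.Trans d' g h) : ∃ f : Grp d ≃* Grp d', ∀ x, (f x).v = g x.v := by
  let κ : VV p → VV p := fun v i => ((G8_N (g : VV p →ₗ[ZMod p] VV p) v i / p : ℕ) : ZMod p)
  have hκ : ∀ u v, κ u + κ v + carry (g u) (g v) = κ (u + v) + g (carry u v) := fun u v =>
    G8_key (g : VV p →ₗ[ZMod p] VV p) u v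
  let F : Grp d → Grp d' := fun x => ⟨g x.v, h x.w + d'.π (κ x.v)⟩
  let F' : Grp d' → Grp d := fun y => ⟨g.symm y.v, h.symm (y.w - d'.π (κ (g.symm y.v)))⟩
  have hmul : ∀ x y, F (x * y) = F x * F y := by
    intro x y
    ext1
    · simp [F]
    · have h1 := congrArg d'.π (hκ x.v y.v)
      simp only [map_add] at h1
      simp only [F, Grp.mul_v, Grp.mul_w, map_add, map_smul, ht.1, ht.2]
      have h2 : d'.π (κ (x.v + y.v)) = d'.π (κ x.v) + d'.π (κ y.v) +
          d'.π (carry (g x.v) (g y.v)) - d'.π (g (carry x.v y.v)) := by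
        rw [h1]; abel
      rw [h2]
      abel
  refine ⟨MulEquiv.mk' ⟨F, F', ?_, ?_⟩ hmul, fun x => rfl⟩
  · intro x
    ext1
    · simp [F, F']
    · simp [F, F']
  · intro y
    ext1
    · simp [F, F']
    · simp [F, F']

end MP_02e52a.M7
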