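import Pool.Agent.Lib.MP_02e52a_al.M7.Defs

namespace MP_02e52a.M7

open Module

variable {F : Type*} [Field F] {V W : Type*} [AddCommGroup V] [Module F V] [AddCommGroup W] [Module F W]

private theorem L1_aux (β : V →ₗ[F] V →ₗ[F] W) (alt : ∀ v, β v v = 0) (k0 k1 k2 : V)
    (hk : ∀ r s t : F, r • k0 + s • k1 + t • k2 = 0 → r = 0 ∧ s = 0 ∧ t = 0) (a0 a1 a2 : F)
    (h0 : a0 ≠ 0) (hrel : a0 • β k1 k2 + a1 • β k2 k0 + a2 • β k0 k1 = 0) :
    ∃ x y : V, LinearIndependent F ![x, y] ∧ β x y = 0 := by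
  have anti : ∀ u v : V, β u v = -β v u := by
    intro u v
    have h := alt (u + v)
    simp only [map_add, LinearMap.add_apply, alt, zero_add, add_zero] at h
    exact eq_neg_of_add_eq_zero_right h
  refine ⟨-(a1 • k0) + a0 • k1, -(a2 • k0) + a0 • k2, ?_, ?_⟩
  · rw [LinearIndependent.pair_iff]
    intro s t hst
    have h1 : (-(s * a1) - t * a2) • k0 + (s * a0) • k1 + (t * a0) • k2 = 0 := by
      rw [← hst]; module
    obtain ⟨-, h2, h3⟩ := hk _ _ _ h1
    exact ⟨(mul_eq_zero.1 h2).resolve_right h0, (mul_eq_zero.1 h3).resolve_right h0⟩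
  · have h1 : β (-(a1 • k0) + a0 • k1) (-(a2 • k0) + a0 • k2)
        = a0 • (a0 • β k1 k2 + a1 • β k2 k0 + a2 • β k0 k1) := by
      simp only [map_add, map_neg, map_smul, LinearMap.add_apply, LinearMap.neg_apply,
        LinearMap.smul_apply, alt, anti k0 k2, anti k1 k0]
      module
    rw [h1, hrel, smul_zero]

/-- [M7 L1] Isotropic plane in dimension three. PROOF: let `k 0, k 1, k 2` be a basis of `V` (dimension 3) and
`c 0 = β (k 1) (k 2)`, `c 1 = β (k 2) (k 0)`, `c 2 = β (k 0) (k 1)`, three vectors of a space `S` of dimension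
`≤ 2`: there is `a ≠ 0` in `Fin 3 → F` with `∑ a i • c i = 0`. For `x = ∑ x i k i`, `y = ∑ y i k i` one has
`β x y = ∑ (x × y) i • c i` (cross product). If `a 0 ≠ 0` take `x = -a 1 k 0 + a 0 k 1`,
`y = -a 2 k 0 + a 0 k 2`: `x × y = a 0 • a`, so `β x y = 0`, and `x, y` are independent. The other two cases
are cyclic permutations. -/
theorem exists_isotropic_three (hV : finrank F V = 3) (S : Submodule F W) [FiniteDimensional F S]
    (hS : finrank F S ≤ 2)
    (β : V →ₗ[F] V →ₗ[F] W) (alt : ∀ v, β v v = 0) (hβ : ∀ u v, β u v ∈ S) :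
    ∃ x y : V, LinearIndependent F ![x, y] ∧ β x y = 0 := by
  have : Module.Finite F V := Module.finite_of_finrank_pos (by omega)
  let k : Basis (Fin 3) F V := finBasisOfFinrankEq F V hV
  have hk : ∀ r s t : F, r • k 0 + s • k 1 + t • k 2 = 0 → r = 0 ∧ s = 0 ∧ t = 0 := by
    intro r s t h
    have h1 := Fintype.linearIndependent_iff.1 k.linearIndependent ![r, s, t]
      (by simpa [Fin.sum_univ_three] using h)
    exact ⟨h1 0, h1 1, h1 2⟩
  have hk1 : ∀ r s t : F, r • k 1 + s • k 2 + t • k 0 = 0 → r = 0 ∧ s = 0 ∧ t = 0 := by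
    intro r s t h
    obtain ⟨h1, h2, h3⟩ := hk t r s (by rw [← h]; abel)
    exact ⟨h2, h3, h1⟩
  have hk2 : ∀ r s t : F, r • k 2 + s • k 0 + t • k 1 = 0 → r = 0 ∧ s = 0 ∧ t = 0 := by
    intro r s t h
    obtain ⟨h1, h2, h3⟩ := hk s t r (by rw [← h]; abel)
    exact ⟨h3, h1, h2⟩
  let c : Fin 3 → S := ![⟨β (k 1) (k 2), hβ _ _⟩, ⟨β (k 2) (k 0), hβ _ _⟩, ⟨β (k 0) (k 1), hβ _ _⟩]
  have hc : ¬ LinearIndependent F c := by
    intro h
    have := h.fintype_card_le_finrank
    simp only [Fintype.card_fin] at this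
    omega
  obtain ⟨a, ha, i, hi⟩ := Fintype.not_linearIndependent_iff.1 hc
  have hrel : a 0 • β (k 1) (k 2) + a 1 • β (k 2) (k 0) + a 2 • β (k 0) (k 1) = 0 := by
    have h := congrArg (fun w : S => (w : W)) ha
    simpa [c, Fin.sum_univ_three] using h
  by_cases h0 : a 0 = 0
  · by_cases h1 : a 1 = 0
    · have h2 : a 2 ≠ 0 := by
        intro h2
        apply hi
        fin_cases i
        · exact h0
        · exact h1
        · exact h2
      exact L1_aux β alt (k 2) (k 0) (k 1) hk2 (a 2) (a 0) (a 1) h2 (by rw [← hrel]; abel)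
    · exact L1_aux β alt (k 1) (k 2) (k 0) hk1 (a 1) (a 2) (a 0) h1 (by rw [← hrel]; abel)
  · exact L1_aux β alt (k 0) (k 1) (k 2) hk (a 0) (a 1) (a 2) h0 hrel

omit [AddCommGroup V] in
private theorem L1_range2 (x y : V) : Set.range (![x, y] : Fin 2 → V) = {x, y} := by
  ext v
  simp only [Set.mem_range, Fin.exists_fin_two, Matrix.cons_val_zero, Matrix.cons_val_one,
    Set.mem_insert_iff, Set.mem_singleton_iff]
  constructor
  · rintro (h | h)
    · exact Or.inl h.symm
    · exact Or.inr h.symm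
  · rintro (h | h)
    · exact Or.inl h.symm
    · exact Or.inr h.symm

omit [AddCommGroup V] in
private theorem L1_range3 (x y z : V) : Set.range (![x, y, z] : Fin 3 → V) = {x, y, z} := by
  ext v
  simp only [Set.mem_range, Set.mem_insert_iff, Set.mem_singleton_iff]
  constructor
  · rintro ⟨i, rfl⟩
    fin_cases i
    · exact Or.inl rfl
    · exact Or.inr (Or.inl rfl)
    · exact Or.inr (Or.inr rfl)
  · rintro (h | h | h)
    · exact ⟨0, h.symm⟩
    · exact ⟨1, h.symm⟩
    · exact ⟨2, h.symm⟩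

private theorem L1_notMem (hV : finrank F V = 3) (x y z : V) (h : LinearIndependent F ![x, y])
    (hz : z ∉ Submodule.span F {x, y}) :
    LinearIndependent F ![x, y, z] ∧ Submodule.span F {x, y, z} = ⊤ := by
  have : Module.Finite F V := Module.finite_of_finrank_pos (by omega)
  have e : (![x, y, z] : Fin 3 → V) = Fin.snoc (α := fun _ => V) ![x, y] z := by
    ext i
    fin_cases i <;> rfl
  have hli : LinearIndependent F ![x, y, z] := by
    rw [e, linearIndependent_finSnoc, L1_range2]
    exact ⟨h, hz⟩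
  refine ⟨hli, ?_⟩
  rw [← L1_range3]
  exact hli.span_eq_top_of_card_eq_finrank' (by simp [hV])

/-- [M7 L1] Two independent vectors in a three-dimensional space extend to a basis. -/
theorem exists_basis_three (hV : finrank F V = 3) (x y : V) (h : LinearIndependent F ![x, y]) :
    ∃ z : V, LinearIndependent F ![x, y, z] ∧ Submodule.span F {x, y, z} = ⊤ := by
  have : Module.Finite F V := Module.finite_of_finrank_pos (by omega)
  have hne : Submodule.span F {x, y} ≠ ⊤ := by
    intro ht
    have h1 : finrank F (Submodule.span F (Set.range (![x, y] : Fin 2 → V))) ≤ 2 := by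
      have h2 := finrank_range_le_card (R := F) (![x, y] : Fin 2 → V)
      rw [Fintype.card_fin] at h2
      exact h2
    rw [L1_range2, ht, finrank_top, hV] at h1
    omega
  obtain ⟨z, -, hz⟩ := SetLike.exists_of_lt (lt_top_iff_ne_top.2 hne)
  exact ⟨z, L1_notMem hV x y z h hz⟩

/-- [M7 L1] Every vector outside a plane completes a basis (dimension three): if `x, y` are independent and
`z ∉ span {x, y}` then `x, y, z` is a basis. -/
theorem basis_three_of_notMem (hV : finrank F V = 3) (x y z : V) (h : LinearIndependent F ![x, y])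
    (hz : z ∉ Submodule.span F {x, y}) :
    LinearIndependent F ![x, y, z] ∧ Submodule.span F {x, y, z} = ⊤ :=
  L1_notMem hV x y z h hz

end MP_02e52a.M7
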