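import Pool.Agent.Lib.MP_02e52a_al.M7.L1

namespace MP_02e52a.M7

open Module

variable {F : Type*} [Field F] {V W : Type*} [AddCommGroup V] [Module F V] [AddCommGroup W] [Module F W]

/-- an alternating form in dimension five has a nonzero kernel vector -/
private lemma L2_ker (h2 : (2 : F) ≠ 0) (hV : finrank F V = 5) (f : V →ₗ[F] V →ₗ[F] F)
    (alt : ∀ v, f v v = 0) : ∃ v : V, v ≠ 0 ∧ ∀ x, f x v = 0 := by
  have : FiniteDimensional F V := FiniteDimensional.of_finrank_pos (by omega)
  have hanti : ∀ x y, f x y = - f y x := by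
    intro x y
    have h := alt (x + y)
    simp only [map_add, LinearMap.add_apply, alt, zero_add, add_zero] at h
    exact eq_neg_of_add_eq_zero_left (by rw [add_comm]; exact h)
  let b : Basis (Fin 5) F V := Module.finBasisOfFinrankEq F V hV
  let M : Matrix (Fin 5) (Fin 5) F := Matrix.of fun i j => f (b i) (b j)
  have hM : M.transpose = -M := by
    ext i j
    simp only [Matrix.transpose_apply, Matrix.neg_apply, M, Matrix.of_apply]
    exact hanti _ _
  have hdet : M.det = 0 := by
    have h1 : M.det = - M.det := by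
      calc M.det = M.transpose.det := (Matrix.det_transpose M).symm
        _ = (-M).det := by rw [hM]
        _ = - M.det := by
            rw [Matrix.det_neg]
            simp [Fintype.card_fin, Odd.neg_one_pow (show Odd 5 by decide)]
    have h3 : (2 : F) * M.det = 0 := by
      rw [two_mul]
      nth_rewrite 1 [h1]
      exact neg_add_cancel _
    rcases mul_eq_zero.mp h3 with h | h
    · exact absurd h h2
    · exact h
  obtain ⟨c, hc, hMc⟩ := Matrix.exists_mulVec_eq_zero_iff.mpr hdet
  refine ⟨∑ j, c j • b j, ?_, ?_⟩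
  · intro h0
    apply hc
    have hli := Fintype.linearIndependent_iff.mp b.linearIndependent c h0
    funext i
    exact hli i
  · have hb : ∀ i, f (b i) (∑ j, c j • b j) = 0 := by
      intro i
      have h := congrFun hMc i
      rw [Matrix.mulVec, dotProduct] at h
      simp only [map_sum, map_smul, smul_eq_mul]
      simp only [M, Matrix.of_apply, Pi.zero_apply] at h
      rw [← h]
      exact Finset.sum_congr rfl fun j _ => mul_comm _ _
    intro x
    have hx : x = ∑ i, b.repr x i • b i := (b.sum_repr x).symm
    rw [hx]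
    simp only [map_sum, map_smul, LinearMap.sum_apply, LinearMap.smul_apply] at hb ⊢
    have : ∀ i, ∑ j, c j • f (b i) (b j) = 0 := hb
    calc _ = ∑ j, c j • ∑ i, b.repr x i • f (b i) (b j) := by rfl
      _ = ∑ i, b.repr x i • ∑ j, c j • f (b i) (b j) := by
          simp only [Finset.smul_sum]
          rw [Finset.sum_comm]
          refine Finset.sum_congr rfl fun i _ => Finset.sum_congr rfl fun j _ => ?_
          rw [smul_comm]
      _ = 0 := Finset.sum_eq_zero fun i _ => by rw [this i, smul_zero]

/-- [M7 L2] Isotropic three-space in dimension five for a pair of alternating forms. PROOF: let `S` contain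
the values, `finrank S ≤ 2`; take two functionals on `S` (extended to `W`), i.e. two alternating forms
`f1 f2 : V → V → F` such that `f1 u v = f2 u v = 0 → β u v = 0` (if `finrank S = 2` use dual basis
coordinates; if smaller, easier). `dim V = 5` is odd so `f1` has a kernel vector `v ≠ 0`
(`f1 v = 0`). [Proof that an alternating form on a space of odd dimension is degenerate: the matrix `M` satisfies
`Mᵀ = -M`, so `det M = (-1)^5 det M`, `2 det M = 0`, use `h2`; or by induction.] `H = {x | f2 v x = 0}` has
dimension `≥ 4` and contains `v`; choose a subspace `K ≤ H` of dimension 3 with `v ∉ K` and apply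
`exists_isotropic_three` to `K`: independent `x, y ∈ K` with `β x y = 0`. Then `v, x, y` are
independent and isotropic: `f1 v x = 0`, `f2 v x = 0`. -/
theorem exists_isotropic_five (h2 : (2 : F) ≠ 0) (hV : finrank F V = 5) (S : Submodule F W)
    [FiniteDimensional F S] (hS : finrank F S ≤ 2)
    (β : V →ₗ[F] V →ₗ[F] W) (alt : ∀ v, β v v = 0) (hβ : ∀ u v, β u v ∈ S) :
    ∃ A : Submodule F V, finrank F A = 3 ∧ ∀ x ∈ A, ∀ y ∈ A, β x y = 0 := by
  have : FiniteDimensional F V := FiniteDimensional.of_finrank_pos (by omega)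
  have hanti : ∀ x y, β x y = - β y x := by
    intro x y
    have h := alt (x + y)
    simp only [map_add, LinearMap.add_apply, alt, zero_add, add_zero] at h
    exact eq_neg_of_add_eq_zero_left (by rw [add_comm]; exact h)
  -- a functional on S with small kernel
  obtain ⟨φ, hφ⟩ : ∃ φ : S →ₗ[F] F, finrank F (LinearMap.ker φ) ≤ 1 := by
    by_cases h0 : finrank F S = 0
    · refine ⟨0, ?_⟩
      have := Submodule.finrank_le (LinearMap.ker (0 : S →ₗ[F] F))
      omega
    · have : Nontrivial S := Module.nontrivial_of_finrank_pos (R := F) (by omega)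
      obtain ⟨s, hs⟩ := exists_ne (0 : S)
      have : ∃ φ : Module.Dual F S, φ s ≠ 0 := by
        by_contra hcon
        push Not at hcon
        exact hs ((Module.forall_dual_apply_eq_zero_iff F s).mp hcon)
      obtain ⟨φ, hφ⟩ := this
      have hne : φ ≠ 0 := by
        rintro rfl; exact hφ rfl
      refine ⟨φ, ?_⟩
      have := Module.Dual.finrank_ker_add_one_of_ne_zero hne
      omega
  -- the form with values in `S`
  let βS : V →ₗ[F] V →ₗ[F] S := LinearMap.mk₂ F (fun u v => (⟨β u v, hβ u v⟩ : S))
    (fun _ _ _ => Subtype.ext (by simp)) (fun _ _ _ => Subtype.ext (by simp))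
    (fun _ _ _ => Subtype.ext (by simp)) (fun _ _ _ => Subtype.ext (by simp))
  have hβS : ∀ u v, ((βS u v : S) : W) = β u v := fun _ _ => rfl
  obtain ⟨v, hv0, hv⟩ := L2_ker h2 hV (βS.compr₂ φ) (fun v => by
    rw [LinearMap.compr₂_apply]
    have : βS v v = 0 := Subtype.ext (by rw [hβS]; simp [alt])
    rw [this, map_zero])
  have hrange : finrank F (LinearMap.range (βS v)) ≤ 1 := by
    refine le_trans (Submodule.finrank_mono ?_) hφ
    rintro _ ⟨x, rfl⟩
    rw [LinearMap.mem_ker]
    have h1 := hv x
    rw [LinearMap.compr₂_apply] at h1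
    have h3 : βS v x = - βS x v := Subtype.ext (by
      rw [Submodule.coe_neg, hβS, hβS]; exact hanti _ _)
    rw [h3, map_neg, h1, neg_zero]
  have hker : 4 ≤ finrank F (LinearMap.ker (βS v)) := by
    have := LinearMap.finrank_range_add_finrank_ker (βS v)
    omega
  obtain ⟨ψ, hψ⟩ : ∃ ψ : Module.Dual F V, ψ v ≠ 0 := by
    by_contra hcon
    push Not at hcon
    exact hv0 ((Module.forall_dual_apply_eq_zero_iff F v).mp hcon)
  have hψ0 : ψ ≠ 0 := by
    rintro rfl; exact hψ rfl
  have hkψ := Module.Dual.finrank_ker_add_one_of_ne_zero hψ0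
  have hK3 : 3 ≤ finrank F (LinearMap.ker (βS v) ⊓ LinearMap.ker ψ : Submodule F V) := by
    have h1 := Submodule.finrank_sup_add_finrank_inf_eq (LinearMap.ker (βS v)) (LinearMap.ker ψ)
    have h3 := Submodule.finrank_le (LinearMap.ker (βS v) ⊔ LinearMap.ker ψ)
    omega
  set K'' : Submodule F V := LinearMap.ker (βS v) ⊓ LinearMap.ker ψ with hK''
  -- three independent vectors in `K''`
  obtain ⟨g, hg, hgK⟩ : ∃ g : Fin 3 → V, LinearIndependent F g ∧ ∀ i, g i ∈ K'' := by
    let b := Module.finBasis F K''
    refine ⟨fun i => (b (Fin.castLE hK3 i) : V), ?_, fun i => (b (Fin.castLE hK3 i)).2⟩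
    have h1 : LinearIndependent F (fun i => b (Fin.castLE hK3 i)) :=
      b.linearIndependent.comp _ (Fin.castLE_injective hK3)
    exact h1.map' K''.subtype (Submodule.ker_subtype K'')
  set K : Submodule F V := Submodule.span F (Set.range g) with hK
  have hKf : finrank F K = 3 := by
    rw [hK, finrank_span_eq_card hg, Fintype.card_fin]
  have hKle : K ≤ K'' := by
    rw [hK, Submodule.span_le]
    rintro _ ⟨i, rfl⟩
    exact hgK i
  obtain ⟨x, y, hxy, hβxy⟩ := exists_isotropic_three (V := K) hKf S hS (β.domRestrict₁₂ K K)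
    (fun w => by rw [LinearMap.domRestrict₁₂_apply]; exact alt _)
    (fun u w => by rw [LinearMap.domRestrict₁₂_apply]; exact hβ _ _)
  have hxy' : β (x : V) (y : V) = 0 := by
    rw [LinearMap.domRestrict₁₂_apply] at hβxy; exact hβxy
  have hvx : β v (x : V) = 0 := by
    have h1 : (x : V) ∈ LinearMap.ker (βS v) := (hKle x.2).1
    rw [LinearMap.mem_ker] at h1
    rw [← hβS, h1]; rfl
  have hvy : β v (y : V) = 0 := by
    have h1 : (y : V) ∈ LinearMap.ker (βS v) := (hKle y.2).1
    rw [LinearMap.mem_ker] at h1
    rw [← hβS, h1]; rfl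
  have hψx : ψ (x : V) = 0 := (hKle x.2).2
  have hψy : ψ (y : V) = 0 := (hKle y.2).2
  have hli : LinearIndependent F ![(v : V), (x : V), (y : V)] := by
    rw [LinearIndependent.pair_iff] at hxy
    rw [Fintype.linearIndependent_iff]
    intro c hc
    rw [Fin.sum_univ_three] at hc
    simp only [Matrix.cons_val_zero, Matrix.cons_val_one, Matrix.cons_val] at hc
    have h1 := congrArg ψ hc
    rw [map_add, map_add, map_smul, map_smul, map_smul, hψx, hψy, smul_zero, smul_zero, add_zero,
      add_zero, map_zero, smul_eq_mul] at h1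
    have hc0 : c 0 = 0 := by
      rcases mul_eq_zero.mp h1 with h | h
      · exact h
      · exact absurd h hψ
    rw [hc0, zero_smul, zero_add] at hc
    have h3 := hxy (c 1) (c 2) (Subtype.ext (by simpa using hc))
    intro i
    fin_cases i
    · exact hc0
    · exact h3.1
    · exact h3.2
  refine ⟨Submodule.span F (Set.range ![(v : V), (x : V), (y : V)]), ?_, ?_⟩
  · rw [finrank_span_eq_card hli, Fintype.card_fin]
  · have hset : Set.range ![(v : V), (x : V), (y : V)] = {v, (x : V), (y : V)} := by
      ext z
      simp only [Set.mem_range, Set.mem_insert_iff, Set.mem_singleton_iff]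
      constructor
      · rintro ⟨i, rfl⟩
        fin_cases i <;> simp
      · rintro (rfl | rfl | rfl)
        · exact ⟨0, rfl⟩
        · exact ⟨1, rfl⟩
        · exact ⟨2, rfl⟩
    rw [hset]
    have hxv : β (x : V) v = 0 := by rw [hanti, hvx, neg_zero]
    have hyv : β (y : V) v = 0 := by rw [hanti, hvy, neg_zero]
    have hyx : β (y : V) (x : V) = 0 := by rw [hanti, hxy', neg_zero]
    intro p hp q hq
    rw [Submodule.mem_span_triple] at hp hq
    obtain ⟨a, b, c, rfl⟩ := hp
    obtain ⟨a', b', c', rfl⟩ := hq
    simp [alt, hvx, hvy, hxv, hyv, hxy', hyx]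

end MP_02e52a.M7
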