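import Pool.Agent.Lib.MP_02e52a_al.M7.L1
import Pool.Agent.Lib.MP_02e52a_al.M7.L3

namespace MP_02e52a.M7

open Module

variable {F : Type*} [Field F] {V Z : Type*} [AddCommGroup V] [Module F V] [AddCommGroup Z] [Module F Z]

/-- [M7 L4] Duality in dimension three. `dim V = 3` and the values of `β` span a space `D` of dimension 3.
For every basis `k1 k2 k3` the vectors `β k1 k2, β k1 k3, β k2 k3` form a basis of `D` (they span `D`, three of
them). Statement: every subspace `U ≤ D` of dimension `≤ 2` is contained in `β v0 V` for some `v0 ≠ 0`. PROOF: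
let `θ` be a functional on `Z` with `θ = 0` on `U` and `θ ≠ 0` on `D` (exists since `U ≠ D`). `θ ∘ β` is an alternating
form on `V`, by `exists_ker_three` there is `v0 ≠ 0` with `θ (β v0 x) = 0` for all `x`. Complete `v0` to a basis
`v0, x, y`: `β v0 x, β v0 y, β x y` is a basis of `D`, `θ` kills the first two, so (being nonzero on `D`) it does not kill
`β x y`, so `ker θ ∩ D = span (β v0 x, β v0 y) ⊇ U`. -/
theorem exists_dual_vector (hV : finrank F V = 3)
    (β : V →ₗ[F] V →ₗ[F] Z) (alt : ∀ v, β v v = 0)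
    (D : Submodule F Z) (hD : finrank F D = 3) (hspan : Submodule.span F {w | ∃ u v, w = β u v} = D)
    (U : Submodule F Z) (hUD : U ≤ D) (hU : finrank F U ≤ 2) :
    ∃ v0 : V, v0 ≠ 0 ∧ ∀ w ∈ U, ∃ x, w = β v0 x := by
  classical
  -- an element of `D` outside `U`
  obtain ⟨d, hdD, hdU⟩ : ∃ d ∈ D, d ∉ U := by
    by_contra hcon
    push Not at hcon
    have h : U = D := le_antisymm hUD hcon
    rw [h, hD] at hU
    omega
  obtain ⟨θ, hθd, hθU⟩ := Submodule.exists_le_ker_of_notMem hdU
  have hθU' : ∀ w ∈ U, θ w = 0 := fun w hw => LinearMap.mem_ker.1 (hθU hw)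
  have skew : ∀ u v, β u v = - β v u := by
    intro u v
    have h := alt (u + v)
    simp only [map_add, LinearMap.add_apply, alt, zero_add, add_zero] at h
    exact eq_neg_of_add_eq_zero_left (by rw [add_comm]; exact h)
  obtain ⟨v0, hv0, hker⟩ := exists_ker_three hV (β.compr₂ θ) (fun v => by
    rw [LinearMap.compr₂_apply, alt, map_zero])
  simp only [LinearMap.compr₂_apply] at hker
  -- complete to a basis
  obtain ⟨x, hx⟩ : ∃ x, x ∉ Submodule.span F {v0} := by
    by_contra hcon
    push Not at hcon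
    have h1 : Submodule.span F {v0} = ⊤ := Submodule.eq_top_iff'.2 hcon
    have h2 := finrank_span_singleton (K := F) hv0
    rw [h1, finrank_top, hV] at h2
    omega
  have hli : LinearIndependent F ![v0, x] := by
    rw [LinearIndependent.pair_iff' hv0]
    intro a ha
    exact hx (ha ▸ Submodule.smul_mem _ a (Submodule.mem_span_singleton_self v0))
  obtain ⟨y, -, hy⟩ := exists_basis_three hV v0 x hli
  -- the values of `β`
  have hval : ∀ u v, ∃ a b c : F, β u v = a • β v0 x + b • β v0 y + c • β x y := by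
    intro u v
    have hu : u ∈ Submodule.span F {v0, x, y} := by rw [hy]; trivial
    have hv : v ∈ Submodule.span F {v0, x, y} := by rw [hy]; trivial
    obtain ⟨a1, a2, a3, rfl⟩ := Submodule.mem_span_triple.1 hu
    obtain ⟨b1, b2, b3, rfl⟩ := Submodule.mem_span_triple.1 hv
    refine ⟨a1 * b2 - a2 * b1, a1 * b3 - a3 * b1, a2 * b3 - a3 * b2, ?_⟩
    simp only [map_add, map_smul, LinearMap.add_apply, LinearMap.smul_apply, alt,
      skew x v0, skew y v0, skew y x, smul_zero, smul_neg]
    module
  have hDval : ∀ w ∈ D, ∃ a b c : F, w = a • β v0 x + b • β v0 y + c • β x y := by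
    intro w hw
    have h1 : D ≤ Submodule.span F {β v0 x, β v0 y, β x y} := by
      rw [← hspan, Submodule.span_le]
      rintro _ ⟨u, v, rfl⟩
      obtain ⟨a, b, c, h⟩ := hval u v
      rw [SetLike.mem_coe, Submodule.mem_span_triple]
      exact ⟨a, b, c, h.symm⟩
    obtain ⟨a, b, c, h⟩ := Submodule.mem_span_triple.1 (h1 hw)
    exact ⟨a, b, c, h.symm⟩
  have hθxy : θ (β x y) ≠ 0 := by
    intro h0
    obtain ⟨a, b, c, h⟩ := hDval d hdD
    apply hθd
    rw [h, map_add, map_add, map_smul, map_smul, map_smul, hker, hker, h0]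
    simp
  refine ⟨v0, hv0, fun w hw => ?_⟩
  obtain ⟨a, b, c, h⟩ := hDval w (hUD hw)
  have h1 := hθU' w hw
  rw [h, map_add, map_add, map_smul, map_smul, map_smul, hker, hker, smul_zero, smul_zero,
    zero_add, zero_add, smul_eq_mul] at h1
  have hc : c = 0 := (mul_eq_zero.1 h1).resolve_right hθxy
  refine ⟨a • x + b • y, ?_⟩
  rw [h, hc, zero_smul, add_zero, map_add, map_smul, map_smul]

end MP_02e52a.M7
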