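import Pool.Agent.Lib.MP_02e52a_al.M7.L1
import Pool.Agent.Lib.MP_02e52a_al.M7.L2
import Pool.Agent.Lib.MP_02e52a_al.M7.L3
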