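import Pool.Agent.Lib.MP_02e52a_al.M7.NetDefs

namespace MP_02e52a.M7

variable {p : ℕ} [Fact p.Prime]

/-- the standard basis vectors -/
private def N1e (n : ℕ) (i : Fin n) : Fin n → ZMod p := fun j => if i = j then 1 else 0

private theorem N1_expand (φ : (Fin 4 → ZMod p) →ₗ[ZMod p] (Fin 4 → ZMod p) →ₗ[ZMod p] ZMod p)
    (v x : Fin 4 → ZMod p) :
    φ v x = ∑ j, x j * ∑ i, v i * φ (N1e 4 i) (N1e 4 j) := by
  rw [LinearMap.pi_apply_eq_sum_univ (φ v) x]
  refine Finset.sum_congr rfl fun j _ => ?_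
  rw [smul_eq_mul]
  congr 1
  have h := LinearMap.pi_apply_eq_sum_univ (φ.flip (N1e 4 j)) v
  simp only [LinearMap.flip_apply, smul_eq_mul] at h
  exact h

private theorem N1_skew (φ : (Fin 4 → ZMod p) →ₗ[ZMod p] (Fin 4 → ZMod p) →ₗ[ZMod p] ZMod p)
    (alt : ∀ v, φ v v = 0) (x y : Fin 4 → ZMod p) : φ x y = - φ y x := by
  have h := alt (x + y)
  simp only [map_add, LinearMap.add_apply, alt, zero_add, add_zero] at h
  exact eq_neg_of_add_eq_zero_right h

/-- an alternating form with Pfaffian zero is degenerate -/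
private theorem N1_pf (φ : (Fin 4 → ZMod p) →ₗ[ZMod p] (Fin 4 → ZMod p) →ₗ[ZMod p] ZMod p)
    (alt : ∀ v, φ v v = 0)
    (pf : φ (N1e 4 0) (N1e 4 1) * φ (N1e 4 2) (N1e 4 3) -
      φ (N1e 4 0) (N1e 4 2) * φ (N1e 4 1) (N1e 4 3) +
      φ (N1e 4 0) (N1e 4 3) * φ (N1e 4 1) (N1e 4 2) = 0) :
    ∃ v : Fin 4 → ZMod p, v ≠ 0 ∧ ∀ x, φ v x = 0 := by
  have s10 := N1_skew φ alt (N1e 4 1) (N1e 4 0)
  have s20 := N1_skew φ alt (N1e 4 2) (N1e 4 0)
  have s30 := N1_skew φ alt (N1e 4 3) (N1e 4 0)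
  have s21 := N1_skew φ alt (N1e 4 2) (N1e 4 1)
  have s31 := N1_skew φ alt (N1e 4 3) (N1e 4 1)
  have s32 := N1_skew φ alt (N1e 4 3) (N1e 4 2)
  have a0 := alt (N1e 4 0)
  have a1 := alt (N1e 4 1)
  have a2 := alt (N1e 4 2)
  have a3 := alt (N1e 4 3)
  have key : ∀ v x, φ v x = ∑ j, x j * ∑ i, v i * φ (N1e 4 i) (N1e 4 j) := N1_expand φ
  simp only [Fin.sum_univ_four, s10, s20, s30, s21, s31, s32, a0, a1, a2, a3] at key
  generalize φ (N1e 4 0) (N1e 4 1) = f01 at *
  generalize φ (N1e 4 0) (N1e 4 2) = f02 at *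
  generalize φ (N1e 4 0) (N1e 4 3) = f03 at *
  generalize φ (N1e 4 1) (N1e 4 2) = f12 at *
  generalize φ (N1e 4 1) (N1e 4 3) = f13 at *
  generalize φ (N1e 4 2) (N1e 4 3) = f23 at *
  by_cases h : f01 = 0 ∧ f02 = 0 ∧ f03 = 0 ∧ f12 = 0 ∧ f13 = 0 ∧ f23 = 0
  · obtain ⟨rfl, rfl, rfl, rfl, rfl, rfl⟩ := h
    refine ⟨![1, 0, 0, 0], ?_, fun x => ?_⟩
    · intro h0
      have := congrFun h0 0
      simp at this
    · rw [key]
      simp
  · by_cases h1 : f12 = 0 ∧ f13 = 0 ∧ f23 = 0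
    · -- one of `f01`, `f02`, `f03` is nonzero
      obtain ⟨rfl, rfl, rfl⟩ := h1
      by_cases h2 : f01 = 0 ∧ f02 = 0
      · obtain ⟨rfl, rfl⟩ := h2
        refine ⟨![0, f03, 0, 0], ?_, fun x => ?_⟩
        · intro h0
          have := congrFun h0 1
          simp at this
          exact h ⟨rfl, rfl, this, rfl, rfl, rfl⟩
        · rw [key]
          simp
      · refine ⟨![0, -f02, f01, 0], ?_, fun x => ?_⟩
        · intro h0
          have e1 := congrFun h0 1
          have e2 := congrFun h0 2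
          simp at e1 e2
          exact h2 ⟨e2, e1⟩
        · rw [key]
          simp only [Matrix.cons_val]
          ring
    · refine ⟨![0, f23, -f13, f12], ?_, fun x => ?_⟩
      · intro h0
        have e1 := congrFun h0 1
        have e2 := congrFun h0 2
        have e3 := congrFun h0 3
        simp at e1 e2 e3
        exact h1 ⟨e3, e2, e1⟩
      · rw [key]
        simp only [Matrix.cons_val]
        linear_combination (-x 0) * pf

private theorem N1_deg (c : Fin 3 → ZMod p) :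
    (∑ k, MvPolynomial.C (c k) * MvPolynomial.X k : MvPolynomial (Fin 3) (ZMod p)).totalDegree ≤ 1 := by
  refine MvPolynomial.totalDegree_finsetSum_le fun k _ => ?_
  refine (MvPolynomial.totalDegree_mul _ _).trans ?_
  simp

private theorem N1_eval (c t : Fin 3 → ZMod p) :
    MvPolynomial.eval t (∑ k, MvPolynomial.C (c k) * MvPolynomial.X k) = ∑ k, c k * t k := by
  simp

/-- Chevalley-Warning for one ternary quadratic form -/
private theorem N1_cw (a b c d e f : Fin 3 → ZMod p) : ∃ t : Fin 3 → ZMod p, t ≠ 0 ∧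
    (∑ k, a k * t k) * (∑ k, b k * t k) - (∑ k, c k * t k) * (∑ k, d k * t k) +
      (∑ k, e k * t k) * (∑ k, f k * t k) = 0 := by
  classical
  let P : (Fin 3 → ZMod p) → MvPolynomial (Fin 3) (ZMod p) :=
    fun c => ∑ k, MvPolynomial.C (c k) * MvPolynomial.X k
  have hP : ∀ c, (P c).totalDegree ≤ 1 := N1_deg
  have hPP : ∀ c d, (P c * P d).totalDegree ≤ 2 := fun c d =>
    (MvPolynomial.totalDegree_mul _ _).trans (by have := hP c; have := hP d; omega)
  have hdeg : (P a * P b - P c * P d + P e * P f).totalDegree < Fintype.card (Fin 3) := by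
    rw [Fintype.card_fin]
    have h1 := MvPolynomial.totalDegree_add (P a * P b - P c * P d) (P e * P f)
    have h2 := MvPolynomial.totalDegree_sub (P a * P b) (P c * P d)
    have h3 := hPP a b
    have h4 := hPP c d
    have h5 := hPP e f
    have h6 := max_le h3 h4
    have h7 := max_le (h2.trans h6) h5
    omega
  have hcw := char_dvd_card_solutions p hdeg
  have hpos : 0 < Fintype.card {x : Fin 3 → ZMod p //
      MvPolynomial.eval x (P a * P b - P c * P d + P e * P f) = 0} := by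
    apply Fintype.card_pos_iff.2
    exact ⟨⟨0, by simp [P]⟩⟩
  have hlt : 1 < Fintype.card {x : Fin 3 → ZMod p //
      MvPolynomial.eval x (P a * P b - P c * P d + P e * P f) = 0} :=
    lt_of_lt_of_le (Fact.out : p.Prime).one_lt (Nat.le_of_dvd hpos hcw)
  obtain ⟨⟨t, ht⟩, hne⟩ := Fintype.exists_ne_of_one_lt_card hlt ⟨0, by simp [P]⟩
  refine ⟨t, fun h0 => hne (Subtype.ext h0), ?_⟩
  simpa [P] using ht

/-- [M7 N1] A degenerate form in the net. PROOF. For `t : Fin 3 → ZMod p` let `f_t u v = ∑ t k * β u v k` with matrix entries `f_t i j = f_t (e i) (e j)` (linear in `t`), and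
`Q t = f_t 0 1 * f_t 2 3 - f_t 0 2 * f_t 1 3 + f_t 0 3 * f_t 1 2`, a homogeneous quadratic polynomial in the 3 variables `t`. By Chevalley-Warning (`char_dvd_card_solutions` in Mathlib, degree `2 < 3` variables; or by a direct argument for ternary
quadratic forms) there is `t ≠ 0` with `Q t = 0`. If `f_t = 0` any `v ≠ 0` works. Otherwise the alternating matrix `M = (f_t i j)` with Pfaffian `0` satisfies `M * M' = 0` where `M'` is the Pfaffian adjoint: the four vectors
`(0, f23, -f13, f12)`, `(-f23, 0, f03, -f02)`, `(f13, -f03, 0, f01)`, `(-f12, f02, -f01, 0)` are killed by `f_t` (check: e.g. for the first, `f_t (e 0) v = f01 f23 - f02 f13 + f03 f12 = 0`,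
`f_t (e 1) v = f12 * (-f13) + f13 * f12 = 0`), and one of them is nonzero. `θ w = ∑ t k * w k`. -/
theorem exists_degenerate (β : VV p →ₗ[ZMod p] VV p →ₗ[ZMod p] WW p) (alt : ∀ v, β v v = 0) :
    ∃ θ : WW p →ₗ[ZMod p] ZMod p, θ ≠ 0 ∧ ∃ v : VV p, v ≠ 0 ∧ ∀ x, θ (β v x) = 0 := by
  obtain ⟨t, ht0, ht⟩ := N1_cw (fun k => β (N1e 4 0) (N1e 4 1) k) (fun k => β (N1e 4 2) (N1e 4 3) k)
    (fun k => β (N1e 4 0) (N1e 4 2) k) (fun k => β (N1e 4 1) (N1e 4 3) k)
    (fun k => β (N1e 4 0) (N1e 4 3) k) (fun k => β (N1e 4 1) (N1e 4 2) k)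
  let θ : WW p →ₗ[ZMod p] ZMod p := ∑ k, t k • LinearMap.proj k
  have hθ : ∀ w, θ w = ∑ k, w k * t k := by
    intro w
    simp [θ, mul_comm]
  refine ⟨θ, ?_, ?_⟩
  · intro h
    apply ht0
    ext k
    have h1 := hθ (Pi.single k 1)
    rw [h] at h1
    simp [Pi.single_apply] at h1
    exact h1.symm
  · obtain ⟨v, hv, hv'⟩ := N1_pf (β.compr₂ θ) (by intro v; simp [alt]) (by
      simp only [LinearMap.compr₂_apply, hθ]
      exact ht)
    exact ⟨v, hv, fun x => by simpa using hv' x⟩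

end MP_02e52a.M7
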