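import Pool.Agent.Lib.MP_02e52a_al.M7.Defs

namespace MP_02e52a.M7

private lemma ND_aux0 (p : ℕ) [Fact p.Prime] {M : Type*} [AddCommGroup M] [Module (ZMod p) M]
    (z : M) (hz : z ≠ 0) (hs : ∃ m : M, ∀ n : ℕ, n • z ≠ m) :
    ∃ φ φ' : M →+ ZMod p, φ z = 1 ∧ φ' z = 0 ∧ ∃ m, φ' m ≠ 0 := by
  have hNe : NeZero p := ⟨(Fact.out : p.Prime).ne_zero⟩
  obtain ⟨φ, hφ⟩ : ∃ φ : M →ₗ[ZMod p] ZMod p, φ z ≠ 0 := by
    by_contra hh
    push Not at hh
    exact hz ((Module.forall_dual_apply_eq_zero_iff (ZMod p) _).1 hh)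
  have hlt : Submodule.span (ZMod p) {z} < ⊤ := by
    rw [lt_top_iff_ne_top]
    intro htop
    obtain ⟨m, hm⟩ := hs
    have h1 : m ∈ Submodule.span (ZMod p) {z} := by
      rw [htop]; exact Submodule.mem_top
    obtain ⟨c, hc⟩ := Submodule.mem_span_singleton.1 h1
    apply hm c.val
    rw [← hc]
    conv_rhs => rw [← ZMod.natCast_zmod_val c]
    rw [Nat.cast_smul_eq_nsmul]
  obtain ⟨φ', hφ'0, hφ'⟩ := Submodule.exists_le_ker_of_lt_top _ hlt
  have hφ'z : φ' z = 0 := hφ' (Submodule.mem_span_singleton_self _)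
  refine ⟨((φ z)⁻¹ • φ).toAddMonoidHom, φ'.toAddMonoidHom, ?_, hφ'z, ?_⟩
  · show (φ z)⁻¹ * φ z = 1
    exact inv_mul_cancel₀ hφ
  · by_contra hh
    push Not at hh
    exact hφ'0 (LinearMap.ext hh)

private lemma ND_aux (p : ℕ) [Fact p.Prime] {M : Type*} [AddCommGroup M] (hM : ∀ m : M, p • m = 0)
    (z : M) (hz : z ≠ 0) (hs : ∃ m : M, ∀ n : ℕ, n • z ≠ m) :
    ∃ φ φ' : M →+ ZMod p, φ z = 1 ∧ φ' z = 0 ∧ ∃ m, φ' m ≠ 0 :=
  @ND_aux0 p _ M _ (AddCommGroup.zmodModule hM) z hz hs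

/-- [M7 ND] PROOF. Suppose not. Let `N = D + p A` (a subgroup; `z ∉ N`), `M = A ⧸ N`, a `ZMod p`-vector space in which the class of
`z` is not `0`. `M` is not spanned by the class of `z`: otherwise `A = ℤ z + D + p A ⊆ L.Z` (by `hpZ`), so `b = 0`, contradicting `hb`. So there are additive maps
`χ, χ' : A → ZMod p` vanishing on `N` with `χ z = 1`, `χ' z = 0`, `χ' ≠ 0` (linear functionals on `M`). Put
`e x = x + (χ x).val • z` and `e' x = x + (χ' x).val • z`: additive because `p • z = 0`; injective (if `x = -(χ x) z` then `χ x = - χ x`, so `χ x = 0`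
as `p ≠ 2`; if `x = -(χ' x) z` then `χ' x = 0`), hence bijective (finite); they preserve the bracket (`z` is central and `χ, χ'` vanish on `D`).
`e (e' x) = x + χ x z + 2 χ' x z`, `e' (e x) = x + χ' x z + χ x z`. `L.Comm` gives `χ' x • z = 0` for all `x`, a contradiction
(`p • z = 0`, `z ≠ 0`, `χ' x ≠ 0` for some `x`). -/
theorem nd {A : Type*} [AddCommGroup A] [Finite A] (p : ℕ) [Fact p.Prime] (hp : p ≠ 2) (L : LR A)
    (hc : L.Comm) (hpZ : ∀ x, p • x ∈ L.Z) (hb : ∃ x y, L.b x y ≠ 0) (z : A) (hz : z ∈ L.Z) (hpz : p • z = 0) :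
    ∃ d ∈ L.D, ∃ a, z = d + p • a := by
  classical
  have hpp : p.Prime := Fact.out
  have hNe : NeZero p := ⟨hpp.ne_zero⟩
  by_contra hcon
  let h : A →+ A := nsmulAddMonoidHom p
  let N : AddSubgroup A := L.D ⊔ h.range
  have hzN : z ∉ N := by
    intro hzN
    obtain ⟨d, hd, y, hy, hdy⟩ := AddSubgroup.mem_sup.1 hzN
    obtain ⟨a, rfl⟩ := AddMonoidHom.mem_range.1 hy
    exact hcon ⟨d, hd, a, hdy.symm⟩
  have hDN : L.D ≤ N := le_sup_left
  have hNZ : N ≤ L.Z := by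
    refine sup_le L.D_le_Z ?_
    rintro y ⟨a, rfl⟩
    exact hpZ a
  have hMp : ∀ m : A ⧸ N, p • m = 0 := by
    intro m
    obtain ⟨a, rfl⟩ := QuotientAddGroup.mk_surjective m
    have : (p • (a : A ⧸ N)) = ((p • a : A) : A ⧸ N) := rfl
    rw [this, QuotientAddGroup.eq_zero_iff]
    exact (le_sup_right : h.range ≤ N) ⟨a, rfl⟩
  have hzM : ((z : A) : A ⧸ N) ≠ 0 := fun h0 => hzN ((QuotientAddGroup.eq_zero_iff z).1 h0)
  obtain ⟨φ, φ', hφ, hφ'z, m0, hm0⟩ := ND_aux p hMp ((z : A) : A ⧸ N) hzM (by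
    by_contra hh
    push Not at hh
    obtain ⟨x, y, hxy⟩ := hb
    apply hxy
    have hall : ∀ a : A, a ∈ L.Z := by
      intro a
      obtain ⟨c, hc⟩ := hh ((a : A) : A ⧸ N)
      have h3 := QuotientAddGroup.eq.1 (show ((c • z : A) : A ⧸ N) = ((a : A) : A ⧸ N) from hc)
      have h4 : a = c • z + (-(c • z) + a) := by abel
      rw [h4]
      exact L.Z.add_mem (L.Z.nsmul_mem hz _) (hNZ h3)
    exact hall x y)
  let χ : A →+ ZMod p := φ.comp (QuotientAddGroup.mk' N)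
  let χ' : A →+ ZMod p := φ'.comp (QuotientAddGroup.mk' N)
  have hχN : ∀ d ∈ N, χ d = 0 := by
    intro d hd
    show φ ((d : A) : A ⧸ N) = 0
    rw [(QuotientAddGroup.eq_zero_iff d).2 hd, map_zero]
  have hχ'N : ∀ d ∈ N, χ' d = 0 := by
    intro d hd
    show φ' ((d : A) : A ⧸ N) = 0
    rw [(QuotientAddGroup.eq_zero_iff d).2 hd, map_zero]
  have hχz : χ z = 1 := hφ
  have hχ'z : χ' z = 0 := hφ'z
  let ℓ : ZMod p →+ A := ZMod.lift p ⟨zmultiplesHom A z, by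
    show ((p : ℕ) : ℤ) • z = 0
    rw [natCast_zsmul]; exact hpz⟩
  have hℓi : ∀ n : ℤ, ℓ (n : ZMod p) = n • z := fun n => by
    simp only [ℓ, ZMod.lift_coe]; rfl
  have hℓ : ∀ m : ZMod p, ℓ m = m.val • z := by
    intro m
    conv_lhs => rw [← ZMod.natCast_zmod_val m]
    have := hℓi (m.val : ℤ)
    push_cast at this
    rw [this, natCast_zsmul]
  have hℓZ : ∀ m, ℓ m ∈ L.Z := fun m => by rw [hℓ]; exact L.Z.nsmul_mem hz _
  have hχℓ : ∀ m, χ (ℓ m) = m := by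
    intro m
    rw [hℓ, map_nsmul, hχz, nsmul_eq_mul, mul_one, ZMod.natCast_zmod_val]
  have hχ'ℓ : ∀ m, χ' (ℓ m) = 0 := by
    intro m
    rw [hℓ, map_nsmul, hχ'z, smul_zero]
  have hmk : ∀ (ψ : A →+ ZMod p), (∀ d ∈ N, ψ d = 0) → (∀ x, x + ℓ (ψ x) = 0 → ψ x = 0) →
      ∃ e : A ≃+ A, L.IsAut e ∧ ∀ x, e x = x + ℓ (ψ x) := by
    intro ψ hψN hψi
    let E : A →+ A := AddMonoidHom.id A + ℓ.comp ψ
    have hE : ∀ x, E x = x + ℓ (ψ x) := fun x => rfl
    have hinj : Function.Injective E := by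
      rw [injective_iff_map_eq_zero]
      intro x hx
      rw [hE] at hx
      have h1 := hψi x hx
      rw [h1, map_zero, add_zero] at hx
      exact hx
    let e : A ≃+ A := AddEquiv.ofBijective E ⟨hinj, Finite.surjective_of_injective hinj⟩
    have he : ∀ x, e x = x + ℓ (ψ x) := fun x => hE x
    refine ⟨e, ?_, he⟩
    intro x y
    rw [he, he, he, hψN _ (hDN (L.b_mem_D x y)), map_zero, add_zero]
    have h1 : ∀ v, L.b (ℓ (ψ x)) v = 0 := fun v => hℓZ _ v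
    have h2 : ∀ v, L.b v (ℓ (ψ y)) = 0 := fun v => (L.mem_Z'.1 (hℓZ _)) v
    simp only [map_add, AddMonoidHom.add_apply, h1, h2, add_zero]
  obtain ⟨e, heA, he⟩ := hmk χ hχN (by
    intro x hx
    have h1 := congrArg χ hx
    rw [map_add, hχℓ, map_zero] at h1
    have h2 : (2 : ZMod p) * χ x = 0 := by rw [two_mul]; exact h1
    rcases mul_eq_zero.1 h2 with h3 | h3
    · exfalso
      have h4 : ((2 : ℕ) : ZMod p) = 0 := by exact_mod_cast h3
      have h5 : p ∣ 2 := (ZMod.natCast_eq_zero_iff _ _).1 h4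
      exact hp ((Nat.prime_dvd_prime_iff_eq hpp Nat.prime_two).1 h5)
    · exact h3)
  obtain ⟨e', he'A, he'⟩ := hmk χ' hχ'N (by
    intro x hx
    have h1 := congrArg χ' hx
    rw [map_add, hχ'ℓ, map_zero, add_zero] at h1
    exact h1)
  have hz0 : z ≠ 0 := fun h0 => hzN (by rw [h0]; exact N.zero_mem)
  have hℓ0 : ∀ m, ℓ m = 0 → m = 0 := by
    intro m hm
    have := congrArg χ hm
    rwa [hχℓ, map_zero] at this
  have hχ'0 : ∀ x, χ' x = 0 := by
    intro x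
    have h1 := hc e e' heA he'A x
    rw [he', he, he, he'] at h1
    simp only [map_add, hχℓ, hχ'ℓ, add_zero, map_zero] at h1
    apply hℓ0
    have h2 : x + ℓ (χ' x) + (ℓ (χ x) + ℓ (χ' x)) = (x + ℓ (χ x) + ℓ (χ' x)) + ℓ (χ' x) := by abel
    rw [h2] at h1
    exact add_eq_left.1 h1
  apply hm0
  obtain ⟨a, rfl⟩ := QuotientAddGroup.mk_surjective m0
  exact hχ'0 a

end MP_02e52a.M7
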