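import Pool.Agent.Lib.MP_02e52a_al.M7.GrpDefs

/-! # The four normal forms of the alternating map -/

namespace MP_02e52a.M7

variable {p : ℕ} [Fact p.Prime]

/-- `netM x y = (row1 ∧ row1', row2 ∧ row2', row1 ∧ row2' + row2 ∧ row1')` for the `2 × 2` matrices with rows
`(x 0, x 1)`, `(x 2, x 3)`; i.e. the symmetric matrix `X J Yᵀ - Y J Xᵀ` up to factors `2` on the diagonal. -/
def netM : VV p →ₗ[ZMod p] VV p →ₗ[ZMod p] WW p :=
  LinearMap.mk₂ (ZMod p)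
    (fun x y => ![x 0 * y 1 - x 1 * y 0, x 2 * y 3 - x 3 * y 2, x 0 * y 3 - x 3 * y 0 - (x 1 * y 2 - x 2 * y 1)])
    (by intro x x' y; ext i; fin_cases i <;> simp <;> ring)
    (by intro c x y; ext i; fin_cases i <;> simp <;> ring)
    (by intro x y y'; ext i; fin_cases i <;> simp <;> ring)
    (by intro c x y; ext i; fin_cases i <;> simp <;> ring)

/-- `netK δ x y = (Re, Im, ω)`: for `K = F[τ] / (τ² - δ)`, `x = (x 0 + x 1 τ, x 2 + x 3 τ) ∈ K²`, `Re + Im τ` is the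
determinant `x₁ y₂ - x₂ y₁ ∈ K`, and `ω = x 0 * y 1 - x 1 * y 0`. -/
def netK (δ : ZMod p) : VV p →ₗ[ZMod p] VV p →ₗ[ZMod p] WW p :=
  LinearMap.mk₂ (ZMod p)
    (fun x y => ![x 0 * y 2 - x 2 * y 0 + δ * (x 1 * y 3 - x 3 * y 1),
      x 0 * y 3 - x 3 * y 0 + (x 1 * y 2 - x 2 * y 1), x 0 * y 1 - x 1 * y 0])
    (by intro x x' y; ext i; fin_cases i <;> simp <;> ring)
    (by intro c x y; ext i; fin_cases i <;> simp <;> ring)
    (by intro x y y'; ext i; fin_cases i <;> simp <;> ring)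
    (by intro c x y; ext i; fin_cases i <;> simp <;> ring)

@[simp] theorem netM_apply (x y : VV p) : netM x y =
    ![x 0 * y 1 - x 1 * y 0, x 2 * y 3 - x 3 * y 2, x 0 * y 3 - x 3 * y 0 - (x 1 * y 2 - x 2 * y 1)] := rfl

@[simp] theorem netK_apply (δ : ZMod p) (x y : VV p) : netK δ x y =
    ![x 0 * y 2 - x 2 * y 0 + δ * (x 1 * y 3 - x 3 * y 1),
      x 0 * y 3 - x 3 * y 0 + (x 1 * y 2 - x 2 * y 1), x 0 * y 1 - x 1 * y 0] := rfl

/-- two bilinear maps are equivalent -/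
def EqvBil (β β' : VV p →ₗ[ZMod p] VV p →ₗ[ZMod p] WW p) : Prop :=
  ∃ (g : VV p ≃ₗ[ZMod p] VV p) (h : WW p ≃ₗ[ZMod p] WW p), ∀ u v, h (β u v) = β' (g u) (g v)

theorem EqvBil.symm {β β' : VV p →ₗ[ZMod p] VV p →ₗ[ZMod p] WW p} (e : EqvBil β β') : EqvBil β' β := by
  obtain ⟨g, h, hh⟩ := e
  refine ⟨g.symm, h.symm, fun u v => ?_⟩
  have := hh (g.symm u) (g.symm v)
  simp only [LinearEquiv.apply_symm_apply] at this
  rw [← this, LinearEquiv.symm_apply_apply]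

theorem EqvBil.trans {β β' β'' : VV p →ₗ[ZMod p] VV p →ₗ[ZMod p] WW p} (e : EqvBil β β') (e' : EqvBil β' β'') :
    EqvBil β β'' := by
  obtain ⟨g, h, hh⟩ := e
  obtain ⟨g', h', hh'⟩ := e'
  refine ⟨g.trans g', h.trans h', fun u v => ?_⟩
  simp only [LinearEquiv.trans_apply]
  rw [hh, hh']

end MP_02e52a.M7
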