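import Pool.Agent.Lib.MP_02e52a_al.M7.Defs

namespace MP_02e52a.M7

private lemma PD_left {A : Type*} [AddCommGroup A] (L : LR A) {a a' : A} (h : -a + a' ∈ L.Z)
    (c : A) : L.b a c = L.b a' c := by
  have h1 := h c
  rw [map_add, map_neg, AddMonoidHom.add_apply, AddMonoidHom.neg_apply] at h1
  exact (neg_add_eq_zero.1 h1)

private lemma PD_right {A : Type*} [AddCommGroup A] (L : LR A) {a a' : A} (h : -a + a' ∈ L.Z)
    (c : A) : L.b c a = L.b c a' := by
  rw [L.skew c a, L.skew c a', PD_left L h c]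

/-- [M7 PD] `D` not cyclic and `|A| = p^7` imply `p D = 0`. PROOF. `D` is generated by the values; if `p D ≠ 0` some value `b x0 y0` has order `p^e`, `e ≥ 2`. The map
`(i, j) ↦ i x0 + j y0` from `ZMod (p^e) × ZMod (p^e)` to... more precisely: if `i x0 + j y0 ∈ Z` then `p^e ∣ i`, `p^e ∣ j` (bracket with `y0`, `x0`); so `|A ⧸ Z| ≥ p^(2e)`. `D` is not
cyclic, so `|D| > p^e`, i.e. `|D| ≥ p^(e+1)`, `|Z| ≥ p^(e+1)`. So `3 e + 1 ≤ 7`, `e = 2`, and `|A ⧸ Z| = p^4`, `|Z| = p^3` exactly. Hence the classes of `i x0 + j y0` exhaust `A ⧸ Z`, `A = Z + ℤ x0 + ℤ y0`,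
all brackets are multiples of `b x0 y0`, `D = ℤ b x0 y0` is cyclic: contradiction. -/
theorem pD_eq_zero {A : Type*} [AddCommGroup A] [Finite A] (p : ℕ) [Fact p.Prime] (L : LR A)
    (hA : Nat.card A = p ^ 7) (hcyc : ¬ IsAddCyclic L.D) : ∀ d ∈ L.D, p • d = 0 := by
  have hp : p.Prime := Fact.out
  have hp1 : 1 < p := hp.one_lt
  -- enough: `p • b x y = 0`
  suffices hval : ∀ x y, p • L.b x y = 0 by
    intro d hd
    induction hd using AddSubgroup.closure_induction with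
    | mem w hw =>
      obtain ⟨x, y, rfl⟩ := hw
      exact hval x y
    | zero => simp
    | add x y _ _ hx hy => rw [smul_add, hx, hy, add_zero]
    | neg x _ hx => rw [smul_neg, hx, neg_zero]
  by_contra hcon
  push Not at hcon
  obtain ⟨x0, y0, hxy⟩ := hcon
  set z0 : A := L.b x0 y0 with hz0
  -- the order
  have hordA : addOrderOf z0 ∣ p ^ 7 := by
    rw [← hA]
    exact addOrderOf_dvd_natCard z0
  obtain ⟨e, -, he⟩ := (Nat.dvd_prime_pow hp).1 hordA
  have he2 : 2 ≤ e := by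
    by_contra hlt
    apply hxy
    apply addOrderOf_dvd_iff_nsmul_eq_zero.1
    rw [he]
    have : e ≤ 1 := by omega
    calc p ^ e ∣ p ^ 1 := pow_dvd_pow p this
      _ = p := pow_one p
  -- the size of `D`
  have hzD : z0 ∈ L.D := L.b_mem_D x0 y0
  have hzmD : AddSubgroup.zmultiples z0 ≤ L.D := by
    rw [AddSubgroup.zmultiples_le]
    exact hzD
  have hne : AddSubgroup.zmultiples z0 ≠ L.D := by
    intro h
    apply hcyc
    rw [← h]
    infer_instance
  have hDA : Nat.card L.D ∣ p ^ 7 := by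
    rw [← hA]
    exact AddSubgroup.card_addSubgroup_dvd_card L.D
  obtain ⟨m, -, hm⟩ := (Nat.dvd_prime_pow hp).1 hDA
  have hzc : Nat.card (AddSubgroup.zmultiples z0) = p ^ e := by
    rw [Nat.card_zmultiples, he]
  have hem : e + 1 ≤ m := by
    have h1 : Nat.card (AddSubgroup.zmultiples z0) ∣ Nat.card L.D := AddSubgroup.card_dvd_of_le hzmD
    rw [hzc, hm] at h1
    have h2 : e ≤ m := (Nat.pow_dvd_pow_iff_le_right hp1).1 h1
    rcases Nat.lt_or_ge e m with h3 | h3
    · exact h3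
    · exfalso
      apply hne
      apply AddSubgroup.eq_of_le_of_card_ge hzmD
      rw [hzc, hm]
      exact Nat.pow_le_pow_right hp.pos h3
  have hZ : p ^ (e + 1) ≤ Nat.card L.Z := by
    have h1 : Nat.card L.D ∣ Nat.card L.Z := AddSubgroup.card_dvd_of_le L.D_le_Z
    have h2 := Nat.le_of_dvd Nat.card_pos h1
    rw [hm] at h2
    exact (Nat.pow_le_pow_right hp.pos hem).trans h2
  -- the map to the quotient
  have hval1 : ∀ i j : ℕ, L.b (i • x0 + j • y0) y0 = i • z0 := by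
    intro i j
    rw [map_add, AddMonoidHom.add_apply, map_nsmul, map_nsmul, AddMonoidHom.nsmul_apply,
      AddMonoidHom.nsmul_apply, L.alt, smul_zero, add_zero]
  have hval2 : ∀ i j : ℕ, L.b x0 (i • x0 + j • y0) = j • z0 := by
    intro i j
    rw [map_add, map_nsmul, map_nsmul, L.alt, smul_zero, zero_add]
  have hinjN : ∀ i i' : Fin (p ^ e), (i : ℕ) • z0 = (i' : ℕ) • z0 → i = i' := by
    intro i i' h
    apply Fin.ext
    have h1 := nsmul_inj_mod.1 h
    rw [he, Nat.mod_eq_of_lt i.2, Nat.mod_eq_of_lt i'.2] at h1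
    first | exact h1 | exact h1.symm
  set f : Fin (p ^ e) × Fin (p ^ e) → A ⧸ L.Z := fun q =>
    (((q.1 : ℕ) • x0 + (q.2 : ℕ) • y0 : A) : A ⧸ L.Z) with hf
  have hfinj : Function.Injective f := by
    rintro ⟨i, j⟩ ⟨i', j'⟩ h
    simp only [hf] at h
    rw [QuotientAddGroup.eq] at h
    have h1 := PD_left L h y0
    have h2 := PD_right L h x0
    rw [hval1, hval1] at h1
    rw [hval2, hval2] at h2
    rw [hinjN i i' h1, hinjN j j' h2]
  have hcardf : Nat.card (Fin (p ^ e) × Fin (p ^ e)) = p ^ (2 * e) := by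
    rw [Nat.card_prod, Nat.card_fin, ← pow_add]
    congr 1
    ring
  have hQ : p ^ (2 * e) ≤ Nat.card (A ⧸ L.Z) := by
    rw [← hcardf]
    exact Nat.card_le_card_of_injective f hfinj
  have hmul : Nat.card (A ⧸ L.Z) * Nat.card L.Z = p ^ 7 := by
    rw [← hA]
    exact (AddSubgroup.card_eq_card_quotient_mul_card_addSubgroup L.Z).symm
  have h3e : p ^ (2 * e + (e + 1)) ≤ p ^ 7 := by
    rw [pow_add, ← hmul]
    exact Nat.mul_le_mul hQ hZ
  have h3e' : 2 * e + (e + 1) ≤ 7 := (Nat.pow_le_pow_iff_right hp1).1 h3e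
  have he' : e = 2 := by omega
  -- surjectivity
  have hQle : Nat.card (A ⧸ L.Z) ≤ p ^ (2 * e) := by
    have h1 : Nat.card (A ⧸ L.Z) * p ^ (e + 1) ≤ p ^ (2 * e) * p ^ (e + 1) := by
      calc Nat.card (A ⧸ L.Z) * p ^ (e + 1) ≤ Nat.card (A ⧸ L.Z) * Nat.card L.Z :=
            Nat.mul_le_mul_left _ hZ
        _ = p ^ 7 := hmul
        _ = p ^ (2 * e) * p ^ (e + 1) := by rw [← pow_add, he']
    exact Nat.le_of_mul_le_mul_right h1 (pow_pos hp.pos _)
  have hbij : Function.Bijective f := by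
    rw [Nat.bijective_iff_injective_and_card]
    exact ⟨hfinj, by rw [hcardf]; exact le_antisymm hQ hQle⟩
  have hrep : ∀ a : A, ∃ i j : ℕ, -a + (i • x0 + j • y0) ∈ L.Z := by
    intro a
    obtain ⟨⟨i, j⟩, hij⟩ := hbij.2 (a : A ⧸ L.Z)
    refine ⟨i, j, ?_⟩
    rw [← QuotientAddGroup.eq]
    exact hij.symm
  -- `D` is cyclic
  apply hne
  apply le_antisymm hzmD
  unfold LR.D
  rw [AddSubgroup.closure_le]
  rintro w ⟨a, c, rfl⟩
  obtain ⟨i, j, hij⟩ := hrep a
  obtain ⟨k, l, hkl⟩ := hrep c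
  rw [SetLike.mem_coe, PD_left L hij c, PD_right L hkl]
  have hyx : L.b y0 x0 = - z0 := by rw [L.skew, hz0]
  have hexp : L.b (i • x0 + j • y0) (k • x0 + l • y0) = (i * l : ℕ) • z0 - (j * k : ℕ) • z0 := by
    rw [map_add, map_add, AddMonoidHom.add_apply, AddMonoidHom.add_apply, map_nsmul L.b i x0,
      map_nsmul L.b j y0, AddMonoidHom.nsmul_apply, AddMonoidHom.nsmul_apply,
      AddMonoidHom.nsmul_apply, AddMonoidHom.nsmul_apply, map_nsmul, map_nsmul, map_nsmul,
      map_nsmul, L.alt, L.alt, hyx, ← hz0, smul_smul, smul_neg, smul_neg, smul_smul]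
    simp only [smul_zero, zero_add, add_zero]
    rw [sub_eq_add_neg, add_comm, smul_smul]
  rw [hexp]
  exact AddSubgroup.sub_mem _ (AddSubgroup.nsmul_mem _ (AddSubgroup.mem_zmultiples z0) _)
    (AddSubgroup.nsmul_mem _ (AddSubgroup.mem_zmultiples z0) _)

end MP_02e52a.M7
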