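import Pool.Agent.Lib.MP_02e52a_al.M7.AddTools

namespace MP_02e52a.M7

open Module

private lemma T32a_smul {p : ℕ} [Fact p.Prime] {V : Type*} [AddCommGroup V] [Module (ZMod p) V]
    (a : ZMod p) (x : V) : a • x = a.val • x := by
  rw [← Nat.cast_smul_eq_nsmul (ZMod p) a.val x, ZMod.natCast_zmod_val]

private lemma T32a_pi0 {p : ℕ} {V Z : Type*} [AddCommGroup V] [AddCommGroup Z] (t : TD p V Z) :
    ∃ z, t.π 0 = p • z := by
  obtain ⟨z, hz⟩ := t.add 0 0
  refine ⟨-z, ?_⟩
  rw [add_zero, sub_self, zero_sub] at hz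
  rw [smul_neg, ← hz, neg_neg]

private lemma T32a_neg {p : ℕ} {V Z : Type*} [AddCommGroup V] [AddCommGroup Z] (t : TD p V Z)
    (a : V) : ∃ z, t.π (-a) + t.π a = p • z := by
  obtain ⟨z, hz⟩ := t.add a (-a)
  obtain ⟨z0, hz0⟩ := T32a_pi0 t
  rw [add_neg_cancel, hz0] at hz
  refine ⟨z0 - z, ?_⟩
  rw [smul_sub, ← hz]
  abel

private lemma T32a_top {p : ℕ} [Fact p.Prime] {V : Type*} [AddCommGroup V] [Module (ZMod p) V]
    (hV : finrank (ZMod p) V = 3) (k : Fin 3 → V) (hk : LinearIndependent (ZMod p) k) :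
    Submodule.span (ZMod p) (Set.range k) = ⊤ := by
  have : FiniteDimensional (ZMod p) V := FiniteDimensional.of_finrank_pos (by rw [hV]; norm_num)
  exact hk.span_eq_top_of_card_eq_finrank' (by rw [hV, Fintype.card_fin])

/-- [M7 T32a] `dim V = 3`, `|D| ≤ p^2` and some `v ≠ 0` with `π v ∈ p Z`. PROOF. By `exists_isotropic_add` (`E = ⊥`) there are
independent `a1, a2` with `β a1 a2 = 0`; `A = span (a1, a2)` is isotropic. Let `χ : V →ₗ ZMod p` be a functional with kernel `A`.
* `v ∈ A`: `g u = u + χ u • v` (inverse `u - χ u • v`, `χ v = 0`), `c = 1`. `β (g u) (g u') = β u u' + χ u β v u' + χ u' β u v` and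
  `χ u β v u' = χ u' β v u` (choose `b` with `χ b = 1`; `u' - χ u' • b ∈ A` gives `β v u' = χ u' β v b`). `π (g u) - π u ∈ π (χ u • v) + p Z = p Z`.
  (Or use `nonFree_of_basis` with the basis `v, a', b`.)
* `v ∉ A`: basis `a1, a2, v`. `g a i = -a i`, `g v = v`, `c = -1` (`AddEquiv.neg`). `β (-a i) v = - β (a i) v`, `β (-a1) (-a2) = 0`;
  `π (-a) + π a ∈ p Z`; `π v + π v ∈ p Z`. `g ≠ 1` since `p ≠ 2`. Use `nonFree_of_basis`. -/
theorem T32a (p : ℕ) [Fact p.Prime] (hp : p ≠ 2) {V Z : Type*} [AddCommGroup V] [AddCommGroup Z] [Finite Z]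
    [Module (ZMod p) V] (hV : finrank (ZMod p) V = 3) (t : TD p V Z)
    (hD : Nat.card t.D ≤ p ^ 2) (v : V) (hv : v ≠ 0) (hπ : ∃ z, t.π v = p • z) : t.NonFree := by
  have : FiniteDimensional (ZMod p) V := FiniteDimensional.of_finrank_pos (by rw [hV]; norm_num)
  let k0 : Basis (Fin 3) (ZMod p) V := finBasisOfFinrankEq (ZMod p) V hV
  obtain ⟨a1, -, a2, -, hli, hb⟩ := exists_isotropic_add p t k0 k0.linearIndependent ⊥ (by
    have : 1 ≤ Nat.card (t.D ⊓ ⊥ : AddSubgroup Z) := Nat.card_pos
    exact hD.trans (Nat.le_mul_of_pos_right _ this))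
  have hb0 : t.β a1 a2 = 0 := (AddSubgroup.mem_bot).1 hb
  have hb1 : t.β a2 a1 = 0 := by rw [t.skew, hb0, neg_zero]
  rw [LinearIndependent.pair_iff] at hli
  obtain ⟨zv, hzv⟩ := hπ
  by_cases hvA : v ∈ Submodule.span (ZMod p) {a1, a2}
  · -- `v ∈ A`
    obtain ⟨a', hind, hβ⟩ : ∃ a' : V, LinearIndependent (ZMod p) ![v, a'] ∧ t.β v a' = 0 := by
      obtain ⟨s, r, rfl⟩ := Submodule.mem_span_pair.1 hvA
      by_cases hs : s = 0
      · subst hs
        have hr : r ≠ 0 := by
          rintro rfl
          simp at hv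
        refine ⟨a1, ?_, ?_⟩
        · rw [LinearIndependent.pair_iff]
          intro x y hxy
          have h1 := hli y (x * r) (by
            rw [← hxy, zero_smul, zero_add, smul_smul, add_comm])
          have hx : x = 0 := (mul_eq_zero.1 h1.2).resolve_right hr
          exact ⟨hx, h1.1⟩
        · rw [zero_smul, zero_add, T32a_smul, map_nsmul, AddMonoidHom.nsmul_apply, hb1, smul_zero]
      · refine ⟨a2, ?_, ?_⟩
        · rw [LinearIndependent.pair_iff]
          intro x y hxy
          have h1 := hli (x * s) (x * r + y) (by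
            rw [← hxy, smul_add, smul_smul, smul_smul, add_smul, add_assoc])
          have hx : x = 0 := (mul_eq_zero.1 h1.1).resolve_right hs
          refine ⟨hx, ?_⟩
          have h2 := h1.2
          rwa [hx, zero_mul, zero_add] at h2
        · rw [T32a_smul s, T32a_smul r, map_add, AddMonoidHom.add_apply, map_nsmul, map_nsmul,
            AddMonoidHom.nsmul_apply, AddMonoidHom.nsmul_apply, hb0, t.alt, smul_zero, smul_zero,
            add_zero]
    have hβ' : t.β a' v = 0 := by rw [t.skew, hβ, neg_zero]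
    obtain ⟨b, hb⟩ : ∃ b : V, b ∉ Submodule.span (ZMod p) (Set.range ![v, a']) := by
      by_contra hcon
      push Not at hcon
      have htop : Submodule.span (ZMod p) (Set.range ![v, a']) = ⊤ := by
        rw [eq_top_iff]
        exact fun x _ => hcon x
      have h1 := finrank_span_eq_card hind
      rw [htop, finrank_top, hV, Fintype.card_fin] at h1
      omega
    have hk : LinearIndependent (ZMod p) ![b, v, a'] := by
      have := (linearIndependent_finCons (K := ZMod p) (x := b) (v := ![v, a'])).2 ⟨hind, hb⟩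
      exact this
    obtain ⟨g, hg⟩ := exists_equiv_three p hV ![b, v, a'] hk
      !![1, 1, 0; 0, 1, 0; 0, 0, 1] (by simp [Matrix.det_fin_three])
    have hg0 : g b = b + v := by simpa [Fin.sum_univ_three] using hg 0
    have hg1 : g v = v := by simpa [Fin.sum_univ_three] using hg 1
    have hg2 : g a' = a' := by simpa [Fin.sum_univ_three] using hg 2
    refine nonFree_of_basis p t ![b, v, a'] (T32a_top hV _ hk) g (AddEquiv.refl Z)
      ⟨b, by rw [hg0]; simpa using hv⟩ ?_ ?_
    · intro i j
      rw [AddEquiv.refl_apply]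
      fin_cases i <;> fin_cases j <;>
        simp [hg0, hg1, hg2, t.alt, hβ, hβ']
      rw [t.skew v b, add_neg_cancel]
    · intro i
      rw [AddEquiv.refl_apply]
      fin_cases i
      · obtain ⟨z, hz⟩ := t.add b v
        refine ⟨z + zv, ?_⟩
        change t.π (g b) - t.π b = _
        rw [hg0, smul_add, ← hz, ← hzv]
        abel
      · exact ⟨0, by change t.π (g v) - t.π v = _; rw [hg1, sub_self, smul_zero]⟩
      · exact ⟨0, by change t.π (g a') - t.π a' = _; rw [hg2, sub_self, smul_zero]⟩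
  · -- `v ∉ A`
    have hk : LinearIndependent (ZMod p) ![v, a1, a2] := by
      refine (linearIndependent_finCons (K := ZMod p) (x := v) (v := ![a1, a2])).2 ⟨?_, ?_⟩
      · rw [LinearIndependent.pair_iff]; exact hli
      · rw [Matrix.range_cons, Matrix.range_cons, Matrix.range_empty, Set.union_empty]
        exact hvA
    obtain ⟨g, hg⟩ := exists_equiv_three p hV ![v, a1, a2] hk
      !![1, 0, 0; 0, -1, 0; 0, 0, -1] (by simp [Matrix.det_fin_three])
    have hg0 : g v = v := by simpa [Fin.sum_univ_three] using hg 0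
    have hg1 : g a1 = -a1 := by simpa [Fin.sum_univ_three] using hg 1
    have hg2 : g a2 = -a2 := by simpa [Fin.sum_univ_three] using hg 2
    have ha1 : a1 ≠ 0 := by
      rintro rfl
      have := hli 1 0 (by simp)
      exact one_ne_zero this.1
    refine nonFree_of_basis p t ![v, a1, a2] (T32a_top hV _ hk) g (AddEquiv.neg Z)
      ⟨a1, ?_⟩ ?_ ?_
    · rw [hg1]
      intro h
      apply ha1
      have h2 : (2 : ZMod p) • a1 = 0 := by
        rw [two_smul]
        nth_rewrite 1 [← h]
        exact neg_add_cancel a1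
      have h3 : (2 : ZMod p) ≠ 0 := by
        intro h0
        have h4 : ((2 : ℕ) : ZMod p) = 0 := by exact_mod_cast h0
        rw [ZMod.natCast_eq_zero_iff] at h4
        exact hp ((Nat.prime_dvd_prime_iff_eq (Fact.out (p := p.Prime)) Nat.prime_two).1 h4)
      exact (smul_eq_zero.1 h2).resolve_left h3
    · intro i j
      rw [AddEquiv.neg_apply]
      fin_cases i <;> fin_cases j <;>
        simp [hg0, hg1, hg2, t.alt, hb0, hb1]
    · intro i
      rw [AddEquiv.neg_apply, sub_neg_eq_add]
      fin_cases i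
      · refine ⟨zv + zv, ?_⟩
        change t.π (g v) + t.π v = _
        rw [hg0, smul_add, ← hzv]
      · change ∃ z, t.π (g a1) + t.π a1 = _
        rw [hg1]
        exact T32a_neg t a1
      · change ∃ z, t.π (g a2) + t.π a2 = _
        rw [hg2]
        exact T32a_neg t a2

end MP_02e52a.M7
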