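import Pool.Agent.Lib.MP_02e52a_al.M7.LinTools

namespace MP_02e52a.M7

open Module

variable {F : Type*} [Field F] {V Z : Type*} [AddCommGroup V] [Module F V] [AddCommGroup Z] [Module F Z]

/-- Unipotent maps of order two. -/
private def T32e_unip {M : Type*} [AddCommGroup M] [Module F M] (N : M →ₗ[F] M)
    (h : ∀ v, N (N v) = 0) : M ≃ₗ[F] M :=
  LinearEquiv.ofLinearMap (LinearMap.id + N) (LinearMap.id - N)
    (by ext v; simp [h]) (by ext v; simp [h])

private theorem T32e_unip_apply {M : Type*} [AddCommGroup M] [Module F M] (N : M →ₗ[F] M)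
    (h : ∀ v, N (N v) = 0) (v : M) : T32e_unip N h v = v + N v := rfl

private theorem T32e_coords3 (x y z : V) (hli : LinearIndependent F ![x, y, z])
    (hsp : Submodule.span F {x, y, z} = ⊤) :
    ∃ f₁ f₂ f₃ : V →ₗ[F] F, f₁ x = 1 ∧ f₁ y = 0 ∧ f₁ z = 0 ∧ f₂ x = 0 ∧ f₂ y = 1 ∧ f₂ z = 0 ∧
      f₃ x = 0 ∧ f₃ y = 0 ∧ f₃ z = 1 ∧ ∀ v, v = f₁ v • x + f₂ v • y + f₃ v • z := by
  have hr : Set.range ![x, y, z] = {x, y, z} := by
    ext v
    simp only [Set.mem_range, Set.mem_insert_iff, Set.mem_singleton_iff, Fin.exists_fin_succ]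
    simp [eq_comm]
  let B := Basis.mk hli (by rw [hr, hsp])
  have h0 : B 0 = x := by simp [B]
  have h1 : B 1 = y := by simp [B]
  have h2 : B 2 = z := by simp [B]
  have hc : ∀ i j, B.coord i (B j) = if i = j then 1 else 0 := by
    intro i j
    rw [Basis.coord_apply, Basis.repr_self, Finsupp.single_apply]
    simp [eq_comm]
  refine ⟨B.coord 0, B.coord 1, B.coord 2, ?_, ?_, ?_, ?_, ?_, ?_, ?_, ?_, ?_, ?_⟩
  · rw [← h0, hc]; simp
  · rw [← h1, hc]; simp
  · rw [← h2, hc]; simp
  · rw [← h0, hc]; simp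
  · rw [← h1, hc]; simp
  · rw [← h2, hc]; simp
  · rw [← h0, hc]; simp
  · rw [← h1, hc]; simp
  · rw [← h2, hc]; simp
  · intro v
    have h := B.sum_repr v
    rw [Fin.sum_univ_three, h0, h1, h2] at h
    exact h.symm

private theorem T32e_coords4 (hZ : finrank F Z = 4) (x y z t : Z)
    (hsp : ⊤ ≤ Submodule.span F {x, y, z, t}) :
    ∃ f₂ f₄ : Z →ₗ[F] F, f₂ x = 0 ∧ f₂ y = 1 ∧ f₂ z = 0 ∧ f₂ t = 0 ∧
      f₄ x = 0 ∧ f₄ y = 0 ∧ f₄ z = 0 ∧ f₄ t = 1 := by
  have hr : Set.range ![x, y, z, t] = {x, y, z, t} := by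
    ext v
    simp only [Set.mem_range, Set.mem_insert_iff, Set.mem_singleton_iff, Fin.exists_fin_succ]
    simp [eq_comm]
  have hfin : FiniteDimensional F Z := Module.finite_of_finrank_pos (by omega)
  let B := basisOfTopLeSpanOfCardEqFinrank ![x, y, z, t] (by rw [hr]; exact hsp)
    (by rw [hZ]; simp)
  have h0 : B 0 = x := by simp [B]
  have h1 : B 1 = y := by simp [B]
  have h2 : B 2 = z := by simp [B]
  have h3 : B 3 = t := by simp [B]
  have hc : ∀ i j, B.coord i (B j) = if i = j then 1 else 0 := by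
    intro i j
    rw [Basis.coord_apply, Basis.repr_self, Finsupp.single_apply]
    simp [eq_comm]
  refine ⟨B.coord 1, B.coord 3, ?_, ?_, ?_, ?_, ?_, ?_, ?_, ?_⟩
  · rw [← h0, hc]; simp
  · rw [← h1, hc]; simp
  · rw [← h2, hc]; simp
  · rw [← h3, hc]; simp
  · rw [← h0, hc]; simp
  · rw [← h1, hc]; simp
  · rw [← h2, hc]; simp
  · rw [← h3, hc]; simp

private theorem T32e_anti (β : V →ₗ[F] V →ₗ[F] Z) (alt : ∀ v, β v v = 0) (u v : V) :
    β u v = -β v u := by
  have h := alt (u + v)
  simp only [map_add, LinearMap.add_apply, alt, zero_add, add_zero] at h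
  exact eq_neg_of_add_eq_zero_right h

/-- The values of `β` in coordinates, for an isotropic pair `x, y`. -/
private theorem T32e_val (β : V →ₗ[F] V →ₗ[F] Z) (alt : ∀ v, β v v = 0) (x y z : V)
    (hxy : β x y = 0) (a₁ a₂ a₃ b₁ b₂ b₃ : F) :
    β (a₁ • x + a₂ • y + a₃ • z) (b₁ • x + b₂ • y + b₃ • z) =
      (a₁ * b₃ - a₃ * b₁) • β x z + (a₂ * b₃ - a₃ * b₂) • β y z := by
  have hyx : β y x = 0 := by rw [T32e_anti β alt, hxy, neg_zero]
  simp only [map_add, map_smul, LinearMap.add_apply, LinearMap.smul_apply, alt, hxy, hyx,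
    T32e_anti β alt z x, T32e_anti β alt z y, smul_zero, add_zero, zero_add]
  module

/-- Case `ρ = 0`. -/
private theorem T32e_neg (h2 : (2 : F) ≠ 0) (β : V →ₗ[F] V →ₗ[F] Z) (alt : ∀ v, β v v = 0)
    (π : V →ₗ[F] Z) (x y k : V) (hli : LinearIndependent F ![x, y, k])
    (hsp : Submodule.span F {x, y, k} = ⊤) (hxy : β x y = 0) (hk : π k = 0) :
    ∃ (g : V ≃ₗ[F] V) (c : Z ≃ₗ[F] Z), (∃ v, g v ≠ v) ∧ (∀ u v, c (β u v) = β (g u) (g v)) ∧
      ∀ v, π (g v) = c (π v) := by
  obtain ⟨f₁, f₂, f₃, e11, e12, e13, e21, e22, e23, e31, e32, e33, hv⟩ :=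
    T32e_coords3 x y k hli hsp
  let G : V →ₗ[F] V := (2 : F) • f₃.smulRight k - LinearMap.id
  have hG : ∀ v, G v = (2 : F) • f₃ v • k - v := fun v => rfl
  have hGG : Function.Involutive G := by
    intro v
    rw [hG, hG, map_sub, map_smul, map_smul, e33]
    module
  refine ⟨LinearEquiv.ofInvolutive G hGG, LinearEquiv.neg F, ⟨x, ?_⟩, ?_, ?_⟩
  · rw [LinearEquiv.coe_ofInvolutive, hG, e31]
    intro h
    have hx : (2 : F) • x = 0 := by
      have h' : (2 : F) • x = -(((2 : F) • (0 : F) • k - x) - x) + (2 : F) • (0 : F) • k := by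
        module
      rw [h', h]
      module
    have hx0 : x = 0 := (smul_eq_zero.1 hx).resolve_left h2
    exact hli.ne_zero 0 (by simpa using hx0)
  · intro u v
    rw [LinearEquiv.coe_ofInvolutive, hG, hG, LinearEquiv.neg_apply]
    have hgu : (2 : F) • f₃ u • k - u = (-f₁ u) • x + (-f₂ u) • y + (f₃ u) • k := by
      conv_lhs => rw [hv u]
      rw [map_add, map_add, map_smul, map_smul, map_smul, e31, e32, e33]
      simp only [smul_eq_mul, mul_zero, mul_one, zero_add]
      module
    have hgv : (2 : F) • f₃ v • k - v = (-f₁ v) • x + (-f₂ v) • y + (f₃ v) • k := by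
      conv_lhs => rw [hv v]
      rw [map_add, map_add, map_smul, map_smul, map_smul, e31, e32, e33]
      simp only [smul_eq_mul, mul_zero, mul_one, zero_add]
      module
    rw [hgu, hgv, T32e_val β alt x y k hxy]
    conv_lhs => rw [hv u, hv v, T32e_val β alt x y k hxy]
    module
  · intro v
    rw [LinearEquiv.coe_ofInvolutive, hG, LinearEquiv.neg_apply, map_sub, map_smul, map_smul, hk]
    simp

/-- Case `ρ ≠ 0`. -/
private theorem T32e_trans (hZ : finrank F Z = 4) (β : V →ₗ[F] V →ₗ[F] Z)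
    (alt : ∀ v, β v v = 0) (π : V →ₗ[F] Z) (D : Submodule F Z)
    (hspan : Submodule.span F {w | ∃ u v, w = β u v} = D)
    (hND : ∀ z : Z, ∃ d ∈ D, ∃ v, z = d + π v) (x y k : V)
    (hli : LinearIndependent F ![x, y, k])
    (hsp : Submodule.span F {x, y, k} = ⊤) (hxy : β x y = 0) (hk : π k = β x k) :
    ∃ (g : V ≃ₗ[F] V) (c : Z ≃ₗ[F] Z), (∃ v, g v ≠ v) ∧ (∀ u v, c (β u v) = β (g u) (g v)) ∧
      ∀ v, π (g v) = c (π v) := by
  obtain ⟨f₁, f₂, f₃, e11, e12, e13, e21, e22, e23, e31, e32, e33, hv⟩ :=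
    T32e_coords3 x y k hli hsp
  have hx0 : x ≠ 0 := by
    have := hli.ne_zero 0
    simpa using this
  have hspZ : ⊤ ≤ Submodule.span F {β x k, β y k, π x, π y} := by
    intro z _
    obtain ⟨d, hd, v, rfl⟩ := hND z
    have hDle : D ≤ Submodule.span F {β x k, β y k, π x, π y} := by
      rw [← hspan, Submodule.span_le]
      rintro w ⟨u, v, rfl⟩
      rw [hv u, hv v, T32e_val β alt x y k hxy]
      refine Submodule.add_mem _ (Submodule.smul_mem _ _ (Submodule.subset_span ?_))
        (Submodule.smul_mem _ _ (Submodule.subset_span ?_))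
      · simp
      · simp
    refine Submodule.add_mem _ (hDle hd) ?_
    rw [hv v, map_add, map_add, map_smul, map_smul, map_smul, hk]
    refine Submodule.add_mem _ (Submodule.add_mem _ ?_ ?_) ?_
    · exact Submodule.smul_mem _ _ (Submodule.subset_span (by simp))
    · exact Submodule.smul_mem _ _ (Submodule.subset_span (by simp))
    · exact Submodule.smul_mem _ _ (Submodule.subset_span (by simp))
  obtain ⟨l, m, l1, l2, l3, l4, m1, m2, m3, m4⟩ := T32e_coords4 hZ _ _ _ _ hspZ
  let N : V →ₗ[F] V := f₂.smulRight x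
  have hN : ∀ v, N v = f₂ v • x := fun v => rfl
  let N' : Z →ₗ[F] Z := l.smulRight (β x k) + m.smulRight (π x)
  have hN' : ∀ z, N' z = l z • β x k + m z • π x := fun z => rfl
  have hNN : ∀ v, N (N v) = 0 := by
    intro v
    rw [hN, hN, map_smul, e21, smul_zero, zero_smul]
  have hNN' : ∀ z, N' (N' z) = 0 := by
    intro z
    rw [hN', hN', map_add, map_add, map_smul, map_smul, map_smul, map_smul, l1, l3, m1, m3]
    simp
  refine ⟨T32e_unip N hNN, T32e_unip N' hNN', ⟨y, ?_⟩, ?_, ?_⟩
  · rw [T32e_unip_apply, hN, e22, one_smul]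
    intro h
    exact hx0 (by simpa using h)
  · intro u v
    rw [T32e_unip_apply, T32e_unip_apply, T32e_unip_apply, hN, hN, hN']
    have hgu : u + f₂ u • x = (f₁ u + f₂ u) • x + f₂ u • y + f₃ u • k := by
      conv_lhs => rw [hv u]
      rw [map_add, map_add, map_smul, map_smul, map_smul, e21, e22, e23]
      simp only [smul_eq_mul, mul_zero, mul_one, zero_add, add_zero]
      module
    have hgv : v + f₂ v • x = (f₁ v + f₂ v) • x + f₂ v • y + f₃ v • k := by
      conv_lhs => rw [hv v]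
      rw [map_add, map_add, map_smul, map_smul, map_smul, e21, e22, e23]
      simp only [smul_eq_mul, mul_zero, mul_one, zero_add, add_zero]
      module
    rw [hgu, hgv, T32e_val β alt x y k hxy]
    have huv : β u v = (f₁ u * f₃ v - f₃ u * f₁ v) • β x k + (f₂ u * f₃ v - f₃ u * f₂ v) • β y k := by
      conv_lhs => rw [hv u, hv v, T32e_val β alt x y k hxy]
    rw [huv, map_add, map_add, map_smul, map_smul, map_smul, map_smul, l1, l2, m1, m2]
    simp only [smul_eq_mul, mul_zero, mul_one, zero_add, add_zero]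
    module
  · intro v
    rw [T32e_unip_apply, T32e_unip_apply, hN, hN']
    have hpv : π v = f₁ v • π x + f₂ v • π y + f₃ v • β x k := by
      conv_lhs => rw [hv v, map_add, map_add, map_smul, map_smul, map_smul, hk]
    rw [map_add, map_smul, hpv]
    simp only [map_add, map_smul, l1, l3, l4, m1, m3, m4, smul_eq_mul, mul_zero, mul_one, zero_add,
      add_zero]
    module

/-- [M7 T32e] `dim V = 3`, `dim Z = 4`, span of `β` = `D` of dimension 2, `D + π (V) = Z`. PROOF. Let `a1, a2` be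
independent with `β a1 a2 = 0` (`exists_isotropic_three`), `A = span (a1, a2)` (isotropic). The map
`V → Z ⧸ D`, `v ↦ π v` is onto (`hND`), `dim (Z ⧸ D) = 2`, so there is `k ≠ 0` with `π k ∈ D`, and
`π v ∈ D` only for `v ∈ F k`.
* `k ∈ A`: let `χ : V →ₗ F` have kernel `A`. `g u = u + χ u • k` (`χ k = 0`, inverse `u - χ u • k`).
  `χ` factors: there is `χ' : Z →ₗ F` with `χ' = 0` on `D` and `χ' (π v) = χ v` (because
  `π v ∈ D → v ∈ F k → χ v = 0`). `c z = z + χ' z • π k` (`χ' (π k) = 0`). `β (g u) (g v) = β u v + χ u • β k v + χ v • β u k`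
  and `χ u • β k v = χ v • β k u` because, choosing `b` with `χ b = 1`, `β k v = χ v • β k b` (as `v - χ v • b ∈ A`).
  `c = 1` on `D`. `π (g u) = π u + χ u • π k = c (π u)`.
* `k ∉ A`: `V = A ⊕ F k`. `a ↦ β a k` is a linear bijection `A → D` (surjective: `β (a + s k) (a' + s' k) =
  β (s' • a - s • a') k`, and equal dimension 2). Let `ρ ∈ A`, `β ρ k = π k`. Choose `h : A ≃ₗ A`, `h ≠ 1`, `h ρ = ρ`: if
  `ρ = 0` take `-1` (`h2`), else choose `σ ∈ A` independent of `ρ` and `h ρ = ρ`, `h σ = σ + ρ`. `g = h` on `A`, `g k = k`.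
  `Z = D ⊕ π (A)` and `π` is injective on `A`. `c (β a k) = β (h a) k`, `c (π a) = π (h a)`. Then
  `c (β u v) = β (g u) (g v)`: check on `A × A` (`0`) and `(a, k)`. `c (π k) = c (β ρ k) = β (h ρ) k = π k = π (g k)`. -/
theorem T32e (h2 : (2 : F) ≠ 0) (hV : finrank F V = 3) (hZ : finrank F Z = 4)
    (β : V →ₗ[F] V →ₗ[F] Z) (alt : ∀ v, β v v = 0) (π : V →ₗ[F] Z)
    (D : Submodule F Z) (hD : finrank F D = 2) (hspan : Submodule.span F {w | ∃ u v, w = β u v} = D)
    (hND : ∀ z : Z, ∃ d ∈ D, ∃ v, z = d + π v) :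
    ∃ (g : V ≃ₗ[F] V) (c : Z ≃ₗ[F] Z), (∃ v, g v ≠ v) ∧ (∀ u v, c (β u v) = β (g u) (g v)) ∧
      ∀ v, π (g v) = c (π v) := by
  classical
  have hfZ : FiniteDimensional F Z := Module.finite_of_finrank_pos (by omega)
  have hfV : FiniteDimensional F V := Module.finite_of_finrank_pos (by omega)
  have hβ : ∀ u v, β u v ∈ D := fun u v => hspan ▸ Submodule.subset_span ⟨u, v, rfl⟩
  obtain ⟨x, y, hxyli, hxy⟩ := exists_isotropic_three hV D hD.le β alt hβ
  -- the map to the quotient
  let p : V →ₗ[F] (Z ⧸ D) := D.mkQ ∘ₗ π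
  have hp : ∀ v, p v = 0 ↔ π v ∈ D := fun v => by
    simp only [p, LinearMap.comp_apply, Submodule.mkQ_apply, Submodule.Quotient.mk_eq_zero]
  have hsurj : Function.Surjective p := by
    intro q
    obtain ⟨z, rfl⟩ := Submodule.mkQ_surjective D q
    obtain ⟨d, hd, v, rfl⟩ := hND z
    refine ⟨v, ?_⟩
    simp only [p, LinearMap.comp_apply, map_add]
    have hd0 : D.mkQ d = 0 := (Submodule.Quotient.mk_eq_zero D).2 hd
    rw [hd0, zero_add]
  have hker : finrank F (LinearMap.ker p) = 1 := by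
    have h1 := LinearMap.finrank_range_add_finrank_ker p
    have h3 := Submodule.finrank_quotient_add_finrank D
    rw [LinearMap.range_eq_top.2 hsurj, finrank_top] at h1
    omega
  obtain ⟨⟨k, hkker⟩, hk0, hkall⟩ := finrank_eq_one_iff'.1 hker
  have hkD : π k ∈ D := (hp k).1 hkker
  have hkne : k ≠ 0 := fun h => hk0 (by ext; exact h)
  have hall : ∀ v, π v ∈ D → ∃ c : F, v = c • k := by
    intro v hv
    obtain ⟨c, hc⟩ := hkall ⟨v, (hp v).2 hv⟩
    exact ⟨c, by rw [Subtype.ext_iff] at hc; exact hc.symm⟩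
  by_cases hkA : k ∈ Submodule.span F {x, y}
  · -- `k ∈ A`
    obtain ⟨b, hbli, hbsp⟩ := exists_basis_three hV x y hxyli
    obtain ⟨f₁, f₂, f₃, e11, e12, e13, e21, e22, e23, e31, e32, e33, hv⟩ :=
      T32e_coords3 x y b hbli hbsp
    have hχk : f₃ k = 0 := by
      obtain ⟨s, t, hst⟩ := Submodule.mem_span_pair.1 hkA
      rw [← hst, map_add, map_smul, map_smul, e31, e32]
      simp
    obtain ⟨sec, hsec⟩ := LinearMap.exists_rightInverse_of_surjective p
      (LinearMap.range_eq_top.2 hsurj)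
    have hsec' : ∀ q, p (sec q) = q := fun q => by
      have := LinearMap.congr_fun hsec q
      simpa using this
    let χ' : Z →ₗ[F] F := f₃ ∘ₗ sec ∘ₗ D.mkQ
    have hχ'D : ∀ d ∈ D, χ' d = 0 := by
      intro d hd
      have : D.mkQ d = 0 := (Submodule.Quotient.mk_eq_zero D).2 hd
      simp only [χ', LinearMap.comp_apply, this, map_zero]
    have hχ'π : ∀ v, χ' (π v) = f₃ v := by
      intro v
      have h1 : p (sec (p v) - v) = 0 := by rw [map_sub, hsec', sub_self]
      obtain ⟨c, hc⟩ := hall _ ((hp _).1 h1)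
      have h3 : f₃ (sec (p v) - v) = 0 := by rw [hc, map_smul, hχk, smul_zero]
      rw [map_sub, sub_eq_zero] at h3
      exact h3
    let N : V →ₗ[F] V := f₃.smulRight k
    have hN : ∀ v, N v = f₃ v • k := fun v => rfl
    let N' : Z →ₗ[F] Z := χ'.smulRight (π k)
    have hN' : ∀ z, N' z = χ' z • π k := fun z => rfl
    have hNN : ∀ v, N (N v) = 0 := by
      intro v
      rw [hN, hN, map_smul, hχk, smul_zero, zero_smul]
    have hNN' : ∀ z, N' (N' z) = 0 := by
      intro z
      rw [hN', hN', map_smul, hχ'π, hχk, smul_zero, zero_smul]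
    refine ⟨T32e_unip N hNN, T32e_unip N' hNN', ⟨b, ?_⟩, ?_, ?_⟩
    · rw [T32e_unip_apply, hN, e33, one_smul]
      intro h
      exact hkne (by simpa using h)
    · intro u v
      rw [T32e_unip_apply, T32e_unip_apply, T32e_unip_apply, hN, hN, hN', hχ'D _ (hβ u v),
        zero_smul, add_zero]
      obtain ⟨s, t, hst⟩ := Submodule.mem_span_pair.1 hkA
      have hk' : k = s • x + t • y + (0 : F) • b := by rw [← hst]; module
      have hku : ∀ w, w + f₃ w • k = (f₁ w + f₃ w * s) • x + (f₂ w + f₃ w * t) • y + f₃ w • b := by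
        intro w
        rw [hk']
        conv_lhs => rw [hv w]
        rw [map_add, map_add, map_smul, map_smul, map_smul, e31, e32, e33]
        simp only [smul_eq_mul, mul_zero, mul_one, zero_add]
        module
      rw [hku u, hku v, T32e_val β alt x y b hxy]
      conv_lhs => rw [hv u, hv v, T32e_val β alt x y b hxy]
      module
    · intro v
      rw [T32e_unip_apply, T32e_unip_apply, hN, hN', hχ'π, map_add, map_smul]
  · -- `k ∉ A`
    obtain ⟨hli, hsp⟩ := basis_three_of_notMem hV x y k hxyli hkA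
    obtain ⟨f₁, f₂, f₃, e11, e12, e13, e21, e22, e23, e31, e32, e33, hv⟩ :=
      T32e_coords3 x y k hli hsp
    -- `π k = β ρ k`
    have hDspan : D ≤ Submodule.span F {β x k, β y k} := by
      rw [← hspan, Submodule.span_le]
      rintro w ⟨u, v, rfl⟩
      rw [hv u, hv v, T32e_val β alt x y k hxy]
      exact Submodule.mem_span_pair.2 ⟨_, _, rfl⟩
    obtain ⟨s, t, hst⟩ := Submodule.mem_span_pair.1 (hDspan hkD)
    by_cases hs : s = 0
    · by_cases ht : t = 0
      · refine T32e_neg h2 β alt π x y k hli hsp hxy ?_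
        rw [← hst, hs, ht]
        simp
      · -- `ρ = t y`, swap
        have hyx : β (t • y) x = 0 := by
          rw [map_smul, LinearMap.smul_apply, T32e_anti β alt, hxy, neg_zero, smul_zero]
        have hli2 : LinearIndependent F ![t • y, x] := by
          rw [LinearIndependent.pair_iff]
          intro a b hab
          rw [LinearIndependent.pair_iff] at hxyli
          obtain ⟨h3, h4⟩ := hxyli b (a * t) (by rw [← hab]; module)
          exact ⟨(mul_eq_zero.1 h4).resolve_right ht, h3⟩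
        have hkn : k ∉ Submodule.span F {t • y, x} := by
          intro hk
          apply hkA
          obtain ⟨a, b, hab⟩ := Submodule.mem_span_pair.1 hk
          exact Submodule.mem_span_pair.2 ⟨b, a * t, by rw [← hab]; module⟩
        obtain ⟨h3, h4⟩ := basis_three_of_notMem hV (t • y) x k hli2 hkn
        refine T32e_trans hZ β alt π D hspan hND (t • y) x k h3 h4 hyx ?_
        rw [← hst, hs, map_smul, LinearMap.smul_apply]
        simp
    · -- `ρ = s x + t y`
      have hρy : β (s • x + t • y) y = 0 := by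
        rw [map_add, map_smul, map_smul, LinearMap.add_apply, LinearMap.smul_apply,
          LinearMap.smul_apply, hxy, alt]
        simp
      have hli2 : LinearIndependent F ![s • x + t • y, y] := by
        rw [LinearIndependent.pair_iff]
        intro a b hab
        rw [LinearIndependent.pair_iff] at hxyli
        obtain ⟨h3, h4⟩ := hxyli (a * s) (a * t + b) (by rw [← hab]; module)
        have ha : a = 0 := (mul_eq_zero.1 h3).resolve_right hs
        refine ⟨ha, ?_⟩
        rw [ha, zero_mul, zero_add] at h4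
        exact h4
      have hkn : k ∉ Submodule.span F {s • x + t • y, y} := by
        intro hk
        apply hkA
        obtain ⟨a, b, hab⟩ := Submodule.mem_span_pair.1 hk
        exact Submodule.mem_span_pair.2 ⟨a * s, a * t + b, by rw [← hab]; module⟩
      obtain ⟨h3, h4⟩ := basis_three_of_notMem hV (s • x + t • y) y k hli2 hkn
      refine T32e_trans hZ β alt π D hspan hND (s • x + t • y) y k h3 h4 hρy ?_
      rw [← hst, map_add, map_smul, map_smul, LinearMap.add_apply, LinearMap.smul_apply,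
        LinearMap.smul_apply]

end MP_02e52a.M7
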