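import Pool.Agent.Lib.MP_02e52a_al.M7.AddTools
import Pool.Agent.Lib.MP_02e52a_al.M7.A8

namespace MP_02e52a.M7

open Module

/-! ### helper lemmas, also used in T32z2 and T32n -/

theorem T32z_nsmul_congr (p : ℕ) [Fact p.Prime] {Z : Type*} [AddCommGroup Z] (x : Z) (hx : p • x = 0)
    (n m : ℕ) (h : (n : ZMod p) = (m : ZMod p)) : n • x = m • x := by
  have h1 : ∀ a : ℕ, a • x = (a % p) • x := by
    intro a
    conv_lhs => rw [← Nat.mod_add_div a p]
    rw [add_smul, mul_comm p, mul_smul, hx, smul_zero, add_zero]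
  rw [h1 n, h1 m, (ZMod.natCast_eq_natCast_iff' n m p).1 h]

theorem T32z_smul_val (p : ℕ) [Fact p.Prime] {V : Type*} [AddCommGroup V] [Module (ZMod p) V]
    (a : ZMod p) (v : V) : a • v = a.val • v := by
  conv_lhs => rw [← ZMod.natCast_zmod_val a]
  rw [Nat.cast_smul_eq_nsmul]

/-- the subgroup `p Z` -/
def T32z_pZ (p : ℕ) (Z : Type*) [AddCommGroup Z] : AddSubgroup Z := (nsmulAddMonoidHom (α := Z) p).range

theorem T32z_mem_pZ {p : ℕ} {Z : Type*} [AddCommGroup Z] {x : Z} :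
    x ∈ T32z_pZ p Z ↔ ∃ w, x = p • w := by
  unfold T32z_pZ
  rw [AddMonoidHom.mem_range]
  constructor
  · rintro ⟨w, hw⟩
    exact ⟨w, hw.symm⟩
  · rintro ⟨w, hw⟩
    exact ⟨w, hw.symm⟩

/-- `π` modulo `p Z` -/
def T32z_πQ {p : ℕ} {V Z : Type*} [AddCommGroup V] [AddCommGroup Z] (t : TD p V Z) :
    V →+ Z ⧸ T32z_pZ p Z where
  toFun v := (t.π v : Z ⧸ T32z_pZ p Z)
  map_zero' := by
    rw [QuotientAddGroup.eq_zero_iff, T32z_mem_pZ]
    obtain ⟨w, hw⟩ := t.add 0 0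
    refine ⟨-w, ?_⟩
    rw [add_zero, sub_self, zero_sub] at hw
    rw [smul_neg, ← hw, neg_neg]
  map_add' := by
    intro u v
    rw [← QuotientAddGroup.mk_add, QuotientAddGroup.eq, T32z_mem_pZ]
    obtain ⟨w, hw⟩ := t.add u v
    refine ⟨-w, ?_⟩
    rw [smul_neg, ← hw]
    abel

theorem T32z_πQ_apply {p : ℕ} {V Z : Type*} [AddCommGroup V] [AddCommGroup Z] (t : TD p V Z) (v : V) :
    T32z_πQ t v = (t.π v : Z ⧸ T32z_pZ p Z) := rfl

theorem T32z_mk_eq {p : ℕ} {Z : Type*} [AddCommGroup Z] {x y : Z} :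
    (x : Z ⧸ T32z_pZ p Z) = (y : Z ⧸ T32z_pZ p Z) ↔ ∃ w, x - y = p • w := by
  rw [QuotientAddGroup.eq, T32z_mem_pZ]
  constructor
  · rintro ⟨w, hw⟩
    refine ⟨-w, ?_⟩
    rw [smul_neg, ← hw]
    abel
  · rintro ⟨w, hw⟩
    refine ⟨-w, ?_⟩
    rw [smul_neg, ← hw]
    abel

/-- The criterion with the pairs `(0,1)`, `(0,2)`, `(1,2)` only. -/
theorem T32z_nonFree3 (p : ℕ) [Fact p.Prime] {V Z : Type*} [AddCommGroup V] [AddCommGroup Z]
    [Module (ZMod p) V] (hV : finrank (ZMod p) V = 3) (t : TD p V Z) (e : Fin 3 → V)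
    (he : LinearIndependent (ZMod p) e) (g : V ≃+ V) (c : Z ≃+ Z)
    (hg : ∃ v, g v ≠ v)
    (h01 : c (t.β (e 0) (e 1)) = t.β (g (e 0)) (g (e 1)))
    (h02 : c (t.β (e 0) (e 2)) = t.β (g (e 0)) (g (e 2)))
    (h12 : c (t.β (e 1) (e 2)) = t.β (g (e 1)) (g (e 2)))
    (h : ∀ i, (t.π (g (e i)) : Z ⧸ T32z_pZ p Z) = (c (t.π (e i)) : Z ⧸ T32z_pZ p Z)) :
    t.NonFree := by
  have hfin : FiniteDimensional (ZMod p) V := Module.finite_of_finrank_pos (by omega)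
  have hspan : Submodule.span (ZMod p) (Set.range e) = ⊤ :=
    he.span_eq_top_of_card_eq_finrank (by rw [hV]; simp)
  refine nonFree_of_basis p t e hspan g c hg ?_ (fun i => T32z_mk_eq.1 (h i))
  intro i j
  have hsk : ∀ a b, c (t.β (e a) (e b)) = t.β (g (e a)) (g (e b)) →
      c (t.β (e b) (e a)) = t.β (g (e b)) (g (e a)) := by
    intro a b hab
    rw [t.skew, map_neg, hab, t.skew (g (e b))]
  have hd : ∀ a, c (t.β (e a) (e a)) = t.β (g (e a)) (g (e a)) := by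
    intro a
    rw [t.alt, t.alt, map_zero]
  fin_cases i <;> fin_cases j
  · exact hd 0
  · exact h01
  · exact h02
  · exact hsk 0 1 h01
  · exact hd 1
  · exact h12
  · exact hsk 0 2 h02
  · exact hsk 1 2 h12
  · exact hd 2

theorem T32z_pβ (p : ℕ) [Fact p.Prime] {V Z : Type*} [AddCommGroup V] [AddCommGroup Z]
    [Module (ZMod p) V] (t : TD p V Z) (u v : V) : p • t.β u v = 0 := by
  have h : p • u = 0 := by
    have := Nat.cast_smul_eq_nsmul (ZMod p) p u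
    rw [← this, ZMod.natCast_self, zero_smul]
  rw [← AddMonoidHom.nsmul_apply, ← map_nsmul, h, map_zero, AddMonoidHom.zero_apply]

/-- The general construction for z1. -/
private theorem T32n_z1_core (p : ℕ) [Fact p.Prime] {V Z : Type*} [AddCommGroup V] [AddCommGroup Z]
    [Finite Z]
    [Module (ZMod p) V] (hV : finrank (ZMod p) V = 3) (t : TD p V Z) (hZ : Nat.card Z = p ^ 4)
    (e : Fin 3 → V) (he : LinearIndependent (ZMod p) e) (ζ z l : Z)
    (hπ0 : ∃ s, t.π (e 0) = z + p • s) (hπ1 : ∃ s, t.π (e 1) = ζ + p • s) (hπ2 : ∃ s, t.π (e 2) = l + p • s)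
    (hζ : (p ^ 2) • ζ = 0) (hz : p • z = 0) (hl : p • l = 0)
    (gen : ∀ x : Z, ∃ i j k : ℤ, x = i • ζ + j • z + k • l)
    (h01 : t.β (e 0) (e 1) = 0) (γ1 γ2 α1 α2 : ZMod p)
    (h02 : t.β (e 0) (e 2) = γ1.val • (p • ζ) + γ2.val • l)
    (h12 : t.β (e 1) (e 2) = α1.val • (p • ζ) + α2.val • l)
    (hww huu hwu s τ : ZMod p) (nw : hww ≠ 0) (nu : huu ≠ 0) (ns : s ≠ 0)
    (E1 : γ1 * huu + γ2 * τ = s * hww * γ1) (E2 : γ2 * s = s * hww * γ2)
    (E3 : α1 * huu + α2 * τ = s * (huu * α1 + hwu * γ1)) (E4 : α2 * s = s * (huu * α2 + hwu * γ2))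
    (hne : hww ≠ 1 ∨ huu ≠ 1 ∨ hwu ≠ 0 ∨ s ≠ 1) : t.NonFree := by
  obtain ⟨g, hg⟩ := exists_equiv_three p hV e he !![hww, 0, 0; hwu, huu, 0; 0, 0, s] (by
    rw [Matrix.det_fin_three]
    simp [nw, nu, ns])
  have hg0 : g (e 0) = hww • e 0 := by rw [hg 0]; simp [Fin.sum_univ_three]
  have hg1 : g (e 1) = hwu • e 0 + huu • e 1 := by rw [hg 1]; simp [Fin.sum_univ_three]
  have hg2 : g (e 2) = s • e 2 := by rw [hg 2]; simp [Fin.sum_univ_three]
  obtain ⟨c, hcζ, hcz, hcl⟩ := exists_aut_Z p hZ ζ z l hζ hz hl gen huu hwu hww s τ 0 nu nw ns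
  rw [ZMod.val_zero, zero_smul, add_zero] at hcl
  have hpζ : p • (p • ζ) = 0 := by rw [smul_smul, ← pow_two]; exact hζ
  have hcpζ : c (p • ζ) = huu.val • (p • ζ) := by
    rw [map_nsmul, hcζ, smul_add, smul_comm p hwu.val z, hz, smul_zero, add_zero, smul_comm]
  have ne01 : e 0 ≠ 0 := he.ne_zero 0
  have key : ∀ (n₁ n₂ m₁ m₂ : ℕ), (n₁ : ZMod p) = m₁ → (n₂ : ZMod p) = m₂ →
      n₁ • (p • ζ) + n₂ • l = m₁ • (p • ζ) + m₂ • l := by
    intro n₁ n₂ m₁ m₂ h1 h2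
    rw [T32z_nsmul_congr p _ hpζ n₁ m₁ h1, T32z_nsmul_congr p _ hl n₂ m₂ h2]
  refine T32z_nonFree3 p hV t e he g c ?_ ?_ ?_ ?_ ?_
  · by_contra hall
    push Not at hall
    have a0 := hall (e 0)
    have a1 := hall (e 1)
    have a2 := hall (e 2)
    rw [hg0] at a0
    rw [hg1] at a1
    rw [hg2] at a2
    have hli := Fintype.linearIndependent_iff.1 he
    have b0 := hli ![hww - 1, 0, 0] (by
      simp only [Fin.sum_univ_three, Matrix.cons_val_zero, Matrix.cons_val_one, Matrix.cons_val]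
      rw [sub_smul, a0]; simp) 0
    have b1 := hli ![hwu, huu - 1, 0] (by
      simp only [Fin.sum_univ_three, Matrix.cons_val_zero, Matrix.cons_val_one, Matrix.cons_val]
      rw [sub_smul, ← add_sub_assoc, a1]; simp)
    have b10 := b1 0
    have b11 := b1 1
    have b2 := hli ![0, 0, s - 1] (by
      simp only [Fin.sum_univ_three, Matrix.cons_val_zero, Matrix.cons_val_one, Matrix.cons_val]
      rw [sub_smul, a2]; simp) 2
    simp only [Matrix.cons_val_zero, Matrix.cons_val_one, Matrix.cons_val] at b0 b10 b11 b2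
    rcases hne with h | h | h | h
    · exact h (sub_eq_zero.1 b0)
    · exact h (sub_eq_zero.1 b11)
    · exact h b10
    · exact h (sub_eq_zero.1 b2)
  · rw [h01, map_zero, hg0, hg1, T32z_smul_val, T32z_smul_val, T32z_smul_val]
    simp only [map_add, map_nsmul, AddMonoidHom.nsmul_apply, t.alt, h01, smul_zero, add_zero]
  · rw [h02, map_add, map_nsmul c γ1.val, map_nsmul c γ2.val, hcpζ, hcl, hg0, hg2, T32z_smul_val, T32z_smul_val]
    simp only [map_nsmul, AddMonoidHom.nsmul_apply, h02]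
    have h := key (γ1.val * huu.val + γ2.val * τ.val) (γ2.val * s.val)
      (s.val * (hww.val * γ1.val)) (s.val * (hww.val * γ2.val))
      (by
        push_cast
        simp only [ZMod.natCast_val, ZMod.cast_id', id_eq]
        linear_combination E1)
      (by
        push_cast
        simp only [ZMod.natCast_val, ZMod.cast_id', id_eq]
        linear_combination E2)
    simp only [add_smul, mul_smul, smul_add] at h ⊢
    rw [← h]
    abel
  · rw [h12, map_add, map_nsmul c α1.val, map_nsmul c α2.val, hcpζ, hcl, hg1, hg2, T32z_smul_val, T32z_smul_val,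
      T32z_smul_val]
    simp only [map_add, map_nsmul, AddMonoidHom.nsmul_apply, AddMonoidHom.add_apply, h02, h12]
    have h := key (α1.val * huu.val + α2.val * τ.val) (α2.val * s.val)
      (s.val * (hwu.val * γ1.val) + s.val * (huu.val * α1.val))
      (s.val * (hwu.val * γ2.val) + s.val * (huu.val * α2.val))
      (by
        push_cast
        simp only [ZMod.natCast_val, ZMod.cast_id', id_eq]
        linear_combination E3)
      (by
        push_cast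
        simp only [ZMod.natCast_val, ZMod.cast_id', id_eq]
        linear_combination E4)
    simp only [add_smul, mul_smul, smul_add] at h ⊢
    have h' : α1.val • huu.val • p • ζ + (α2.val • s.val • l + α2.val • τ.val • p • ζ) =
        α1.val • huu.val • p • ζ + α2.val • τ.val • p • ζ + α2.val • s.val • l := by abel
    rw [h', h]
    abel
  · intro i
    have hq : ∀ (x w : Z), ((x + p • w : Z) : Z ⧸ T32z_pZ p Z) = (x : Z ⧸ T32z_pZ p Z) := by
      intro x w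
      exact T32z_mk_eq.2 ⟨w, by abel⟩
    obtain ⟨s0, hs0⟩ := hπ0
    obtain ⟨s1, hs1⟩ := hπ1
    obtain ⟨s2, hs2⟩ := hπ2
    have π0 : T32z_πQ t (e 0) = (z : Z ⧸ T32z_pZ p Z) := by rw [T32z_πQ_apply, hs0, hq]
    have π1 : T32z_πQ t (e 1) = (ζ : Z ⧸ T32z_pZ p Z) := by rw [T32z_πQ_apply, hs1, hq]
    have π2 : T32z_πQ t (e 2) = (l : Z ⧸ T32z_pZ p Z) := by rw [T32z_πQ_apply, hs2, hq]
    fin_cases i
    · change (t.π (g (e 0)) : Z ⧸ T32z_pZ p Z) = (c (t.π (e 0)) : Z ⧸ T32z_pZ p Z)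
      rw [← T32z_πQ_apply, hg0, T32z_smul_val, map_nsmul, π0, hs0, map_add, map_nsmul c p, hq, hcz]
      rfl
    · change (t.π (g (e 1)) : Z ⧸ T32z_pZ p Z) = (c (t.π (e 1)) : Z ⧸ T32z_pZ p Z)
      rw [← T32z_πQ_apply, hg1, T32z_smul_val, T32z_smul_val, map_add, map_nsmul, map_nsmul, π0, π1,
        hs1, map_add, map_nsmul c p, hq, hcζ, add_comm]
      rfl
    · change (t.π (g (e 2)) : Z ⧸ T32z_pZ p Z) = (c (t.π (e 2)) : Z ⧸ T32z_pZ p Z)
      rw [← T32z_πQ_apply, hg2, T32z_smul_val, map_nsmul, π2, hs2, map_add, map_nsmul c p, hq, hcl,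
        smul_comm τ.val p, hq]
      rfl

/-- [M7 T32n-z1] Here `e 0 = a_w`, `e 1 = a_u`, `e 2 = b`. PROOF: look for
`g (e 0) = hww e 0`, `g (e 1) = huu e 1 + hwu e 0`, `g (e 2) = s e 2` and `c` (from `exists_aut_Z`) with
`c ζ = huu ζ + hwu z`, `c z = hww z`, `c l = s l + τ (p ζ)` (so `c (p ζ) = huu (p ζ)`). `π`-conditions modulo `p Z` hold on the basis.
`β`-conditions (in the `ZMod p`-independent elements `p ζ, l`): for `(e 0, e 2)`: `c (γ1 pζ + γ2 l) = s hww (γ1 pζ + γ2 l)`, i.e.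
`γ1 huu + γ2 τ = s hww γ1`, `γ2 s = s hww γ2`; for `(e 1, e 2)`: `c (α1 pζ + α2 l) = s huu (α1 pζ + α2 l) + s hwu (γ1 pζ + γ2 l)`, i.e.
`α1 huu + α2 τ = s (huu α1 + hwu γ1)`, `α2 s = s (huu α2 + hwu γ2)`; `(e 0, e 1)`: `0 = 0`.
* `γ2 ≠ 0`: `s = 1`, `huu = -1`, `hww = 1`, `hwu = 2 α2 / γ2`, `τ = 2 γ1 / γ2` (check the third:
  `-α1 + 2 α2 γ1 / γ2 = -α1 + 2 α2 γ1 / γ2`).
* `γ2 = 0` (so `γ1 ≠ 0`, `α2 ≠ 0`): `s = huu = hww = 1`, `hwu = 1`, `τ = γ1 / α2`.
In both cases `g ≠ 1` (`p ≠ 2`). Tools: `exists_equiv_three`, `exists_aut_Z`, `nonFree_of_basis`. -/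
theorem T32n_z1 (p : ℕ) [Fact p.Prime] (hp : p ≠ 2) {V Z : Type*} [AddCommGroup V] [AddCommGroup Z] [Finite Z]
    [Module (ZMod p) V] (hV : finrank (ZMod p) V = 3) (t : TD p V Z) (hZ : Nat.card Z = p ^ 4)
    (e : Fin 3 → V) (he : LinearIndependent (ZMod p) e) (ζ z l : Z)
    (hπ0 : ∃ s, t.π (e 0) = z + p • s) (hπ1 : ∃ s, t.π (e 1) = ζ + p • s) (hπ2 : ∃ s, t.π (e 2) = l + p • s)
    (hζ : (p ^ 2) • ζ = 0) (hz : p • z = 0) (hl : p • l = 0)
    (gen : ∀ x : Z, ∃ i j k : ℤ, x = i • ζ + j • z + k • l)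
    (h01 : t.β (e 0) (e 1) = 0) (γ1 γ2 α1 α2 : ZMod p)
    (h02 : t.β (e 0) (e 2) = γ1.val • (p • ζ) + γ2.val • l)
    (h12 : t.β (e 1) (e 2) = α1.val • (p • ζ) + α2.val • l)
    (hdet : γ1 * α2 - γ2 * α1 ≠ 0) : t.NonFree := by
  have h2 : (2 : ZMod p) ≠ 0 := by
    intro h
    have h3 : ((2 : ℕ) : ZMod p) = 0 := by exact_mod_cast h
    have h4 := (ZMod.natCast_eq_zero_iff 2 p).1 h3
    have h5 := (Nat.prime_dvd_prime_iff_eq (Fact.out : p.Prime) Nat.prime_two).1 h4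
    exact hp h5
  by_cases hγ2 : γ2 = 0
  · have hα2 : α2 ≠ 0 := by
      rintro rfl
      apply hdet
      rw [hγ2]
      ring
    refine T32n_z1_core p hV t hZ e he ζ z l hπ0 hπ1 hπ2 hζ hz hl gen h01 γ1 γ2 α1 α2 h02 h12
      1 1 1 1 (γ1 / α2) one_ne_zero one_ne_zero one_ne_zero ?_ ?_ ?_ ?_ (Or.inr (Or.inr (Or.inl one_ne_zero)))
    · rw [hγ2]; ring
    · rw [hγ2]; ring
    · field_simp
    · rw [hγ2]; ring
  · refine T32n_z1_core p hV t hZ e he ζ z l hπ0 hπ1 hπ2 hζ hz hl gen h01 γ1 γ2 α1 α2 h02 h12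
      1 (-1) (2 * α2 / γ2) 1 (2 * γ1 / γ2) one_ne_zero (neg_ne_zero.2 one_ne_zero) one_ne_zero
      ?_ ?_ ?_ ?_ (Or.inr (Or.inl ?_))
    · field_simp
      ring
    · ring
    · field_simp
      try ring
    · field_simp
      try ring
    · intro h
      apply h2
      linear_combination -h

end MP_02e52a.M7
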