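import Pool.Agent.Lib.MP_02e52a_al.M7.AddTools
import Pool.Agent.Lib.MP_02e52a_al.M7.A8
import Pool.Agent.Lib.MP_02e52a_al.M7.T32z1

namespace MP_02e52a.M7

open Module

/-- The general construction for z2. -/
private theorem T32n_z2_core (p : ℕ) [Fact p.Prime] {V Z : Type*} [AddCommGroup V] [AddCommGroup Z]
    [Finite Z]
    [Module (ZMod p) V] (hV : finrank (ZMod p) V = 3) (t : TD p V Z) (hZ : Nat.card Z = p ^ 4)
    (e : Fin 3 → V) (he : LinearIndependent (ZMod p) e) (ζ lw lb : Z)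
    (hπ0 : ∃ s, t.π (e 0) = lw + p • s) (hπ1 : ∃ s, t.π (e 1) = ζ + p • s) (hπ2 : ∃ s, t.π (e 2) = lb + p • s)
    (hζ : (p ^ 2) • ζ = 0) (hw : p • lw = 0) (hb : p • lb = 0)
    (gen : ∀ x : Z, ∃ i j k : ℤ, x = i • ζ + j • lw + k • lb)
    (h01 : t.β (e 0) (e 1) = 0) (γ0 γ1 α0 α1 : ZMod p)
    (h02 : t.β (e 0) (e 2) = γ0.val • lb + γ1.val • lw)
    (h12 : t.β (e 1) (e 2) = α0.val • lb + α1.val • lw)
    (hww huu hwu s r : ZMod p) (nw : hww ≠ 0) (nu : huu ≠ 0) (ns : s ≠ 0)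
    (E1 : γ0 * s = s * hww * γ0) (E2 : γ0 * r + γ1 * hww = s * hww * γ1)
    (E3 : α0 * s = s * (huu * α0 + hwu * γ0)) (E4 : α0 * r + α1 * hww = s * (huu * α1 + hwu * γ1))
    (hne : huu ≠ 1 ∨ hwu ≠ 0) : t.NonFree := by
  obtain ⟨g, hg⟩ := exists_equiv_three p hV e he !![hww, 0, 0; hwu, huu, 0; r, 0, s] (by
    rw [Matrix.det_fin_three]
    simp [nw, nu, ns])
  have hg0 : g (e 0) = hww • e 0 := by rw [hg 0]; simp [Fin.sum_univ_three]
  have hg1 : g (e 1) = hwu • e 0 + huu • e 1 := by rw [hg 1]; simp [Fin.sum_univ_three]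
  have hg2 : g (e 2) = r • e 0 + s • e 2 := by rw [hg 2]; simp [Fin.sum_univ_three]
  obtain ⟨c, hcζ, hcw, hcb⟩ := exists_aut_Z p hZ ζ lw lb hζ hw hb gen huu hwu hww s 0 r nu nw ns
  rw [ZMod.val_zero, zero_smul, add_zero] at hcb
  have h10 : t.β (e 1) (e 0) = 0 := by rw [t.skew, h01, neg_zero]
  have key : ∀ (n₁ n₂ m₁ m₂ : ℕ), (n₁ : ZMod p) = m₁ → (n₂ : ZMod p) = m₂ →
      n₁ • lb + n₂ • lw = m₁ • lb + m₂ • lw := by
    intro n₁ n₂ m₁ m₂ h1 h2
    rw [T32z_nsmul_congr p _ hb n₁ m₁ h1, T32z_nsmul_congr p _ hw n₂ m₂ h2]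
  refine T32z_nonFree3 p hV t e he g c ?_ ?_ ?_ ?_ ?_
  · refine ⟨e 1, fun a1 => ?_⟩
    rw [hg1] at a1
    have hli := Fintype.linearIndependent_iff.1 he
    have b1 := hli ![hwu, huu - 1, 0] (by
      simp only [Fin.sum_univ_three, Matrix.cons_val_zero, Matrix.cons_val_one, Matrix.cons_val]
      rw [sub_smul, ← add_sub_assoc, a1]; simp)
    have b10 := b1 0
    have b11 := b1 1
    simp only [Matrix.cons_val_zero, Matrix.cons_val_one, Matrix.cons_val] at b10 b11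
    rcases hne with h | h
    · exact h (sub_eq_zero.1 b11)
    · exact h b10
  · rw [h01, map_zero, hg0, hg1, T32z_smul_val, T32z_smul_val, T32z_smul_val]
    simp only [map_add, map_nsmul, AddMonoidHom.nsmul_apply, t.alt, h01, smul_zero, add_zero]
  · rw [h02, map_add, map_nsmul c γ0.val, map_nsmul c γ1.val, hcw, hcb, hg0, hg2, T32z_smul_val,
      T32z_smul_val, T32z_smul_val]
    simp only [map_add, map_nsmul, AddMonoidHom.nsmul_apply, h02, t.alt, smul_zero, zero_add]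
    have h := key (γ0.val * s.val) (γ0.val * r.val + γ1.val * hww.val)
      (s.val * (hww.val * γ0.val)) (s.val * (hww.val * γ1.val))
      (by
        push_cast
        simp only [ZMod.natCast_val, ZMod.cast_id', id_eq]
        linear_combination E1)
      (by
        push_cast
        simp only [ZMod.natCast_val, ZMod.cast_id', id_eq]
        linear_combination E2)
    simp only [add_smul, mul_smul, smul_add] at h ⊢
    rw [← h]
    abel
  · rw [h12, map_add, map_nsmul c α0.val, map_nsmul c α1.val, hcw, hcb, hg1, hg2, T32z_smul_val,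
      T32z_smul_val, T32z_smul_val, T32z_smul_val]
    simp only [map_add, map_nsmul, AddMonoidHom.nsmul_apply, AddMonoidHom.add_apply, h02, h12, h10,
      t.alt, smul_zero, zero_add, add_zero]
    have h := key (α0.val * s.val) (α0.val * r.val + α1.val * hww.val)
      (s.val * (hwu.val * γ0.val) + s.val * (huu.val * α0.val))
      (s.val * (hwu.val * γ1.val) + s.val * (huu.val * α1.val))
      (by
        push_cast
        simp only [ZMod.natCast_val, ZMod.cast_id', id_eq]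
        linear_combination E3)
      (by
        push_cast
        simp only [ZMod.natCast_val, ZMod.cast_id', id_eq]
        linear_combination E4)
    simp only [add_smul, mul_smul, smul_add] at h ⊢
    have h' : α0.val • s.val • lb + α0.val • r.val • lw + α1.val • hww.val • lw =
        α0.val • s.val • lb + (α0.val • r.val • lw + α1.val • hww.val • lw) := by abel
    rw [h', h]
    abel
  · intro i
    have hq : ∀ (x w : Z), ((x + p • w : Z) : Z ⧸ T32z_pZ p Z) = (x : Z ⧸ T32z_pZ p Z) := by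
      intro x w
      exact T32z_mk_eq.2 ⟨w, by abel⟩
    obtain ⟨s0, hs0⟩ := hπ0
    obtain ⟨s1, hs1⟩ := hπ1
    obtain ⟨s2, hs2⟩ := hπ2
    have π0 : T32z_πQ t (e 0) = (lw : Z ⧸ T32z_pZ p Z) := by rw [T32z_πQ_apply, hs0, hq]
    have π1 : T32z_πQ t (e 1) = (ζ : Z ⧸ T32z_pZ p Z) := by rw [T32z_πQ_apply, hs1, hq]
    have π2 : T32z_πQ t (e 2) = (lb : Z ⧸ T32z_pZ p Z) := by rw [T32z_πQ_apply, hs2, hq]
    fin_cases i
    · change (t.π (g (e 0)) : Z ⧸ T32z_pZ p Z) = (c (t.π (e 0)) : Z ⧸ T32z_pZ p Z)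
      rw [← T32z_πQ_apply, hg0, T32z_smul_val, map_nsmul, π0, hs0, map_add, map_nsmul c p, hq, hcw]
      rfl
    · change (t.π (g (e 1)) : Z ⧸ T32z_pZ p Z) = (c (t.π (e 1)) : Z ⧸ T32z_pZ p Z)
      rw [← T32z_πQ_apply, hg1, T32z_smul_val, T32z_smul_val, map_add, map_nsmul, map_nsmul, π0, π1,
        hs1, map_add, map_nsmul c p, hq, hcζ, add_comm]
      rfl
    · change (t.π (g (e 2)) : Z ⧸ T32z_pZ p Z) = (c (t.π (e 2)) : Z ⧸ T32z_pZ p Z)
      rw [← T32z_πQ_apply, hg2, T32z_smul_val, T32z_smul_val, map_add, map_nsmul, map_nsmul, π0, π2,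
        hs2, map_add, map_nsmul c p, hq, hcb, add_comm]
      rfl

/-- [M7 T32n-z2] Here `e 0 = a_w`, `e 1 = a_u`, `e 2 = b`. PROOF: look for
`g (e 0) = hww e 0`, `g (e 1) = huu e 1 + hwu e 0`, `g (e 2) = s e 2 + r e 0` and `c` (from `exists_aut_Z`) with
`c ζ = huu ζ + hwu lw`, `c lw = hww lw`, `c lb = s lb + r lw`. `π`-conditions modulo `p Z` hold on the basis. `β`-conditions:
`(e 0, e 2)`: `c (γ0 lb + γ1 lw) = s hww (γ0 lb + γ1 lw)`: `γ0 s = s hww γ0`, `γ0 r + γ1 hww = s hww γ1`;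
`(e 1, e 2)`: `c (α0 lb + α1 lw) = s huu (α0 lb + α1 lw) + s hwu (γ0 lb + γ1 lw)`: `α0 s = s (huu α0 + hwu γ0)`,
`α0 r + α1 hww = s (huu α1 + hwu γ1)`; `(e 0, e 1)`: `0 = 0`.
* `γ0 ≠ 0`: `s = huu = -1`, `hww = 1`, `r = -2 γ1 / γ0`, `hwu = 2 α0 / γ0` (check the last: `-2 α0 γ1 / γ0 + α1 = α1 - 2 α0 γ1 / γ0`).
* `γ0 = 0` (so `γ1 ≠ 0`, `α0 ≠ 0`): `s = huu = hww = 1`, `hwu = 1`, `r = γ1 / α0`.
In both cases `g ≠ 1` (`p ≠ 2`). Tools: `exists_equiv_three`, `exists_aut_Z`, `nonFree_of_basis`. -/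
theorem T32n_z2 (p : ℕ) [Fact p.Prime] (hp : p ≠ 2) {V Z : Type*} [AddCommGroup V] [AddCommGroup Z] [Finite Z]
    [Module (ZMod p) V] (hV : finrank (ZMod p) V = 3) (t : TD p V Z) (hZ : Nat.card Z = p ^ 4)
    (e : Fin 3 → V) (he : LinearIndependent (ZMod p) e) (ζ lw lb : Z)
    (hπ0 : ∃ s, t.π (e 0) = lw + p • s) (hπ1 : ∃ s, t.π (e 1) = ζ + p • s) (hπ2 : ∃ s, t.π (e 2) = lb + p • s)
    (hζ : (p ^ 2) • ζ = 0) (hw : p • lw = 0) (hb : p • lb = 0)
    (gen : ∀ x : Z, ∃ i j k : ℤ, x = i • ζ + j • lw + k • lb)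
    (h01 : t.β (e 0) (e 1) = 0) (γ0 γ1 α0 α1 : ZMod p)
    (h02 : t.β (e 0) (e 2) = γ0.val • lb + γ1.val • lw)
    (h12 : t.β (e 1) (e 2) = α0.val • lb + α1.val • lw)
    (hdet : γ0 * α1 - γ1 * α0 ≠ 0) : t.NonFree := by
  have h2 : (2 : ZMod p) ≠ 0 := by
    intro h
    have h3 : ((2 : ℕ) : ZMod p) = 0 := by exact_mod_cast h
    have h4 := (ZMod.natCast_eq_zero_iff 2 p).1 h3
    have h5 := (Nat.prime_dvd_prime_iff_eq (Fact.out : p.Prime) Nat.prime_two).1 h4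
    exact hp h5
  by_cases hγ0 : γ0 = 0
  · have hα0 : α0 ≠ 0 := by
      rintro rfl
      apply hdet
      rw [hγ0]
      ring
    refine T32n_z2_core p hV t hZ e he ζ lw lb hπ0 hπ1 hπ2 hζ hw hb gen h01 γ0 γ1 α0 α1 h02 h12
      1 1 1 1 (γ1 / α0) one_ne_zero one_ne_zero one_ne_zero ?_ ?_ ?_ ?_ (Or.inr one_ne_zero)
    · rw [hγ0]; ring
    · rw [hγ0]; ring
    · rw [hγ0]; ring
    · field_simp
      try ring
  · refine T32n_z2_core p hV t hZ e he ζ lw lb hπ0 hπ1 hπ2 hζ hw hb gen h01 γ0 γ1 α0 α1 h02 h12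
      1 (-1) (2 * α0 / γ0) (-1) (-2 * γ1 / γ0) one_ne_zero (neg_ne_zero.2 one_ne_zero)
      (neg_ne_zero.2 one_ne_zero) ?_ ?_ ?_ ?_ (Or.inl ?_)
    · ring
    · field_simp
      try ring
    · field_simp
      try ring
    · field_simp
      try ring
    · intro h
      apply h2
      linear_combination -h

end MP_02e52a.M7
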