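import Pool.Agent.Lib.MP_02e52a_al.M7.T32eps
import Pool.Agent.Lib.MP_02e52a_al.M7.T32z1
import Pool.Agent.Lib.MP_02e52a_al.M7.T32z2

namespace MP_02e52a.M7

open Module

section

variable (p : ℕ) [Fact p.Prime] {V Z : Type*} [AddCommGroup V] [AddCommGroup Z] [Finite Z]
  [Module (ZMod p) V]

private theorem T32n_killD (t : TD p V Z) : ∀ d ∈ t.D, p • d = 0 := by
  intro d hd
  unfold TD.D at hd
  refine AddSubgroup.closure_induction (p := fun d _ => p • d = 0) ?_ ?_ ?_ ?_ hd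
  · rintro w ⟨u, v, rfl⟩
    exact T32z_pβ p t u v
  · simp
  · intro x y _ _ hx hy
    rw [smul_add, hx, hy, add_zero]
  · intro x _ hx
    rw [smul_neg, hx, neg_zero]

private theorem T32n_pV (v : V) : p • v = 0 := by
  rw [← Nat.cast_smul_eq_nsmul (ZMod p) p v, ZMod.natCast_self, zero_smul]

/-- a nonzero vector of a plane with `p • π a = 0` -/
private theorem T32n_aw (hV : finrank (ZMod p) V = 3) (t : TD p V Z) (hcard : Nat.card (T32z_pZ p Z) = p)
    (hpp : ∀ z : Z, p • (p • z) = 0) (a1 a2 : V) (ha : LinearIndependent (ZMod p) ![a1, a2]) :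
    ∃ x y : ZMod p, x • a1 + y • a2 ≠ 0 ∧ p • t.π (x • a1 + y • a2) = 0 := by
  have hp : p.Prime := Fact.out
  by_contra hcon
  push Not at hcon
  let lin : (ZMod p × ZMod p) →+ V :=
    AddMonoidHom.mk' (fun q => q.1 • a1 + q.2 • a2) (by
      intro q q'
      simp only [Prod.fst_add, Prod.snd_add, add_smul]
      abel)
  let ν : (ZMod p × ZMod p) →+ Z := (T32_mu t hpp).comp lin
  have hν : ∀ q : ZMod p × ZMod p, ν q = p • t.π (q.1 • a1 + q.2 • a2) := fun q => rfl
  have hνi : Function.Injective ν := by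
    rw [injective_iff_map_eq_zero]
    intro q hq
    by_contra hq0
    rw [LinearIndependent.pair_iff] at ha
    refine hcon q.1 q.2 (fun h => hq0 ?_) (by rw [← hν]; exact hq)
    obtain ⟨h1, h2⟩ := ha _ _ h
    exact Prod.ext h1 h2
  have hνm : ∀ x, ν x ∈ T32z_pZ p Z := fun x => T32z_mem_pZ.2 ⟨t.π _, rfl⟩
  have h1 : Nat.card (ZMod p × ZMod p) ≤ Nat.card (T32z_pZ p Z) :=
    Nat.card_le_card_of_injective (fun x => (⟨ν x, hνm x⟩ : T32z_pZ p Z))
      (fun x y hxy => hνi (congrArg Subtype.val hxy))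
  rw [Nat.card_prod, Nat.card_zmod, hcard] at h1
  have h3 : p * 1 < p * p := Nat.mul_lt_mul_of_pos_left hp.one_lt hp.pos
  omega

/-- integral relations -/
private theorem T32n_int (e : Fin 3 → V) (he : LinearIndependent (ZMod p) e) (i k : ℤ)
    (h : i • e 0 + k • e 2 = 0) : (p : ℤ) ∣ i ∧ (p : ℤ) ∣ k := by
  rw [← Int.cast_smul_eq_zsmul (ZMod p), ← Int.cast_smul_eq_zsmul (ZMod p)] at h
  have hli := Fintype.linearIndependent_iff.1 he ![(i : ZMod p), 0, (k : ZMod p)] (by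
    simp only [Fin.sum_univ_three, Matrix.cons_val_zero, Matrix.cons_val_one, Matrix.cons_val]
    rw [zero_smul, add_zero]
    exact h)
  have h0 := hli 0
  have h2 := hli 2
  simp only [Matrix.cons_val_zero, Matrix.cons_val] at h0 h2
  exact ⟨(ZMod.intCast_zmod_eq_zero_iff_dvd _ _).1 h0, (ZMod.intCast_zmod_eq_zero_iff_dvd _ _).1 h2⟩

private theorem T32n_dvd_smul (i : ℤ) (x : Z) (hx : p • x = 0) (hi : (p : ℤ) ∣ i) : i • x = 0 := by
  obtain ⟨m, rfl⟩ := hi
  rw [mul_comm, mul_smul, natCast_zsmul, hx, smul_zero]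

/-- coordinates in `D` -/
private theorem T32n_coordD (D : AddSubgroup Z) (u v : Z) (hu : u ∈ D) (hv : v ∈ D)
    (hind : ∀ i k : ℤ, i • u + k • v = 0 → (p : ℤ) ∣ i ∧ (p : ℤ) ∣ k) (hD : Nat.card D = p ^ 2) :
    ∀ d ∈ D, ∃ x y : ZMod p, d = x.val • u + y.val • v := by
  have hval : ∀ x y : ZMod p, (p : ℤ) ∣ (x.val : ℤ) - y.val → x = y := by
    intro x y h
    have h1 := (ZMod.intCast_zmod_eq_zero_iff_dvd _ _).2 h
    push_cast at h1
    simp only [ZMod.natCast_val, ZMod.cast_id', id_eq] at h1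
    exact sub_eq_zero.1 h1
  let f : ZMod p × ZMod p → D := fun q =>
    ⟨q.1.val • u + q.2.val • v, D.add_mem (D.nsmul_mem hu _) (D.nsmul_mem hv _)⟩
  have hf : Function.Injective f := by
    intro q q' h
    have h1 : q.1.val • u + q.2.val • v = q'.1.val • u + q'.2.val • v := congrArg Subtype.val h
    have h2 : ((q.1.val : ℤ) - q'.1.val) • u + ((q.2.val : ℤ) - q'.2.val) • v = 0 := by
      simp only [sub_smul, natCast_zsmul]
      have h3 : q.1.val • u - q'.1.val • u + (q.2.val • v - q'.2.val • v) =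
          (q.1.val • u + q.2.val • v) - (q'.1.val • u + q'.2.val • v) := by abel
      rw [h3, h1, sub_self]
    obtain ⟨h3, h4⟩ := hind _ _ h2
    exact Prod.ext (hval _ _ h3) (hval _ _ h4)
  have hbij : Function.Bijective f := (Nat.bijective_iff_injective_and_card f).2
    ⟨hf, by rw [Nat.card_prod, Nat.card_zmod, hD, pow_two]⟩
  intro d hd
  obtain ⟨q, hq⟩ := hbij.2 ⟨d, hd⟩
  exact ⟨q.1, q.2, (congrArg Subtype.val hq).symm⟩

/-- `β` is nondegenerate on the plane -/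
private theorem T32n_inj (hV : finrank (ZMod p) V = 3) (t : TD p V Z) (e : Fin 3 → V)
    (he : LinearIndependent (ZMod p) e) (h01 : t.β (e 0) (e 1) = 0) (hD : Nat.card t.D = p ^ 2) :
    ∀ x y : ZMod p, t.β (x • e 0 + y • e 1) (e 2) = 0 → x = 0 ∧ y = 0 := by
  obtain ⟨f, hf, hv⟩ := T32_coords hV e he
  have h10 : t.β (e 1) (e 0) = 0 := by rw [t.skew, h01, neg_zero]
  let lin : (ZMod p × ZMod p) →+ V :=
    AddMonoidHom.mk' (fun q => q.1 • e 0 + q.2 • e 1) (by
      intro q q'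
      simp only [Prod.fst_add, Prod.snd_add, add_smul]
      abel)
  let F : (ZMod p × ZMod p) →+ Z := (t.β.flip (e 2)).comp lin
  have hF : ∀ q, F q = t.β (q.1 • e 0 + q.2 • e 1) (e 2) := fun q => rfl
  have hle : t.D ≤ F.range := by
    unfold TD.D
    rw [AddSubgroup.closure_le]
    rintro w ⟨u, v, rfl⟩
    refine ⟨(f 0 u * f 2 v - f 2 u * f 0 v, f 1 u * f 2 v - f 2 u * f 1 v), ?_⟩
    rw [hF]
    have hs : ∀ (a : ZMod p) (u v : V), t.β (a • u) v = a.val • t.β u v := by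
      intro a u v
      rw [T32z_smul_val, map_nsmul, AddMonoidHom.nsmul_apply]
    have hs' : ∀ (a : ZMod p) (u v : V), t.β u (a • v) = a.val • t.β u v := by
      intro a u v
      rw [T32z_smul_val, map_nsmul]
    have h20 : t.β (e 2) (e 0) = - t.β (e 0) (e 2) := t.skew _ _
    have h21 : t.β (e 2) (e 1) = - t.β (e 1) (e 2) := t.skew _ _
    conv_rhs => rw [hv u, hv v]
    simp only [map_add, AddMonoidHom.add_apply, hs, hs', t.alt, h01, h10, smul_zero, add_zero,
      zero_add, h20, h21, smul_neg]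
    -- compare coefficients
    have c1 : ∀ a b c d : ZMod p, (a * b - c * d).val • t.β (e 0) (e 2) =
        b.val • a.val • t.β (e 0) (e 2) - c.val • d.val • t.β (e 0) (e 2) := by
      intro a b c d
      have h1 : (a * b - c * d).val • t.β (e 0) (e 2) + (c.val * d.val) • t.β (e 0) (e 2) =
          (b.val * a.val) • t.β (e 0) (e 2) := by
        rw [← add_smul]
        refine T32z_nsmul_congr p _ (T32z_pβ p t _ _) _ _ ?_
        push_cast
        simp only [ZMod.natCast_val, ZMod.cast_id', id_eq]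
        ring
      rw [eq_sub_iff_add_eq, ← mul_smul, ← mul_smul, h1]
    have c2 : ∀ a b c d : ZMod p, (a * b - c * d).val • t.β (e 1) (e 2) =
        b.val • a.val • t.β (e 1) (e 2) - c.val • d.val • t.β (e 1) (e 2) := by
      intro a b c d
      have h1 : (a * b - c * d).val • t.β (e 1) (e 2) + (c.val * d.val) • t.β (e 1) (e 2) =
          (b.val * a.val) • t.β (e 1) (e 2) := by
        rw [← add_smul]
        refine T32z_nsmul_congr p _ (T32z_pβ p t _ _) _ _ ?_
        push_cast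
        simp only [ZMod.natCast_val, ZMod.cast_id', id_eq]
        ring
      rw [eq_sub_iff_add_eq, ← mul_smul, ← mul_smul, h1]
    rw [c1, c2]
    have e1 : ∀ a b : ℕ, ∀ x : Z, a • b • x = b • a • x := fun a b x => smul_comm a b x
    rw [e1 (f 2 v).val (f 0 u).val, e1 (f 2 v).val (f 1 u).val, e1 (f 2 u).val (f 0 v).val,
      e1 (f 2 u).val (f 1 v).val]
    abel_nf
    try simp only [e1]
  have hsurj : Function.Surjective F.rangeRestrict := F.rangeRestrict_surjective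
  have hfinr : Finite F.range := Finite.of_surjective _ hsurj
  have h1 : Nat.card (ZMod p × ZMod p) = Nat.card F.range := by
    refine le_antisymm ?_ (Nat.card_le_card_of_surjective _ hsurj)
    have h2 : Nat.card t.D ≤ Nat.card F.range :=
      Nat.card_le_card_of_injective _ (AddSubgroup.inclusion_injective hle)
    rw [hD] at h2
    rw [Nat.card_prod, Nat.card_zmod, ← pow_two]
    exact h2
  have hbij := (Nat.bijective_iff_surjective_and_card F.rangeRestrict).2 ⟨hsurj, h1⟩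
  intro x y hxy
  have h3 : F.rangeRestrict (x, y) = F.rangeRestrict 0 := by
    apply Subtype.ext
    rw [map_zero]
    exact hxy
  have h4 := hbij.1 h3
  exact ⟨congrArg Prod.fst h4, congrArg Prod.snd h4⟩

/-- the determinant -/
private theorem T32n_det (t : TD p V Z) (e : Fin 3 → V)
    (hinj : ∀ x y : ZMod p, t.β (x • e 0 + y • e 1) (e 2) = 0 → x = 0 ∧ y = 0)
    (u v : Z) (hu : p • u = 0) (hv : p • v = 0) (γ1 γ2 α1 α2 : ZMod p)
    (h02 : t.β (e 0) (e 2) = γ1.val • u + γ2.val • v)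
    (h12 : t.β (e 1) (e 2) = α1.val • u + α2.val • v) : γ1 * α2 - γ2 * α1 ≠ 0 := by
  intro hdet
  have hF : ∀ x y : ZMod p, x * γ1 + y * α1 = 0 → x * γ2 + y * α2 = 0 → x = 0 ∧ y = 0 := by
    intro x y h1 h2
    apply hinj
    rw [map_add, AddMonoidHom.add_apply, T32z_smul_val, T32z_smul_val, map_nsmul, map_nsmul,
      AddMonoidHom.nsmul_apply, AddMonoidHom.nsmul_apply, h02, h12]
    have h3 : x.val • (γ1.val • u + γ2.val • v) + y.val • (α1.val • u + α2.val • v) =
        (x.val * γ1.val + y.val * α1.val) • u + (x.val * γ2.val + y.val * α2.val) • v := by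
      simp only [add_smul, mul_smul, smul_add]
      abel
    rw [h3, T32z_nsmul_congr p u hu _ 0 (by
      push_cast
      simp only [ZMod.natCast_val, ZMod.cast_id', id_eq]
      exact h1), T32z_nsmul_congr p v hv _ 0 (by
      push_cast
      simp only [ZMod.natCast_val, ZMod.cast_id', id_eq]
      exact h2)]
    simp
  obtain ⟨a1, a2⟩ := hF α2 (-γ2) (by linear_combination hdet) (by ring)
  obtain ⟨b1, b2⟩ := hF α1 (-γ1) (by ring) (by linear_combination -hdet)
  obtain ⟨c1, -⟩ := hF 1 0 (by linear_combination -b2) (by linear_combination -a2)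
  exact one_ne_zero c1

/-- generators -/
private theorem T32n_gen (hV : finrank (ZMod p) V = 3) (t : TD p V Z) (e : Fin 3 → V)
    (he : LinearIndependent (ZMod p) e) (hbij : Function.Bijective (T32z_πQ t)) (ζ z l : Z)
    (h0 : ∃ s, t.π (e 0) = z + p • s) (h1 : ∃ s, t.π (e 1) = ζ + p • s)
    (h2 : ∃ s, t.π (e 2) = l + p • s) (hpζ : ∀ w : Z, ∃ i : ℤ, p • w = i • (p • ζ)) :
    ∀ x : Z, ∃ i j k : ℤ, x = i • ζ + j • z + k • l := by
  obtain ⟨f, hf, hv⟩ := T32_coords hV e he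
  obtain ⟨s0, hs0⟩ := h0
  obtain ⟨s1, hs1⟩ := h1
  obtain ⟨s2, hs2⟩ := h2
  have hq : ∀ (x w : Z), ((x + p • w : Z) : Z ⧸ T32z_pZ p Z) = (x : Z ⧸ T32z_pZ p Z) := by
    intro x w
    exact T32z_mk_eq.2 ⟨w, by abel⟩
  have π0 : T32z_πQ t (e 0) = (z : Z ⧸ T32z_pZ p Z) := by rw [T32z_πQ_apply, hs0, hq]
  have π1 : T32z_πQ t (e 1) = (ζ : Z ⧸ T32z_pZ p Z) := by rw [T32z_πQ_apply, hs1, hq]
  have π2 : T32z_πQ t (e 2) = (l : Z ⧸ T32z_pZ p Z) := by rw [T32z_πQ_apply, hs2, hq]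
  intro x
  obtain ⟨v, hvx⟩ := hbij.2 (x : Z ⧸ T32z_pZ p Z)
  rw [hv v, map_add, map_add, T32z_smul_val, T32z_smul_val, T32z_smul_val, map_nsmul, map_nsmul,
    map_nsmul, π0, π1, π2] at hvx
  have h3 : ((((f 0 v).val • z + (f 1 v).val • ζ + (f 2 v).val • l : Z)) : Z ⧸ T32z_pZ p Z) =
      (x : Z ⧸ T32z_pZ p Z) := by
    rw [← hvx]
    rfl
  obtain ⟨w, hw⟩ := T32z_mk_eq.1 h3.symm
  obtain ⟨i, hi⟩ := hpζ w
  refine ⟨(f 1 v).val + i * p, (f 0 v).val, (f 2 v).val, ?_⟩
  rw [hi] at hw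
  rw [add_smul, mul_smul, natCast_zsmul, natCast_zsmul, natCast_zsmul, natCast_zsmul]
  have h4 : x = (x - ((f 0 v).val • z + (f 1 v).val • ζ + (f 2 v).val • l)) +
      ((f 0 v).val • z + (f 1 v).val • ζ + (f 2 v).val • l) := by abel
  rw [h4, hw]
  abel

/-- independence modulo `p Z` -/
private theorem T32n_ind (t : TD p V Z) (e : Fin 3 → V)
    (he : LinearIndependent (ZMod p) e) (hbij : Function.Bijective (T32z_πQ t)) (z l : Z)
    (h0 : ∃ s, t.π (e 0) = z + p • s) (h2 : ∃ s, t.π (e 2) = l + p • s) (i k : ℤ) (w : Z)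
    (h : i • z + k • l = p • w) : (p : ℤ) ∣ i ∧ (p : ℤ) ∣ k := by
  obtain ⟨s0, hs0⟩ := h0
  obtain ⟨s2, hs2⟩ := h2
  have hq : ∀ (x w : Z), ((x + p • w : Z) : Z ⧸ T32z_pZ p Z) = (x : Z ⧸ T32z_pZ p Z) := by
    intro x w
    exact T32z_mk_eq.2 ⟨w, by abel⟩
  have π0 : T32z_πQ t (e 0) = (z : Z ⧸ T32z_pZ p Z) := by rw [T32z_πQ_apply, hs0, hq]
  have π2 : T32z_πQ t (e 2) = (l : Z ⧸ T32z_pZ p Z) := by rw [T32z_πQ_apply, hs2, hq]
  refine T32n_int p e he i k ?_
  apply hbij.1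
  rw [map_zero, map_add, map_zsmul, map_zsmul, π0, π2]
  have h3 : ((i • z + k • l : Z) : Z ⧸ T32z_pZ p Z) = 0 := by
    rw [h, QuotientAddGroup.eq_zero_iff]
    exact T32z_mem_pZ.2 ⟨w, rfl⟩
  rw [← h3]
  rfl

end

/-- [M7 T32n-0] Assembly. PROOF. As in T32n-eps: `|Z ⧸ p Z| = p^3`, `|p Z| = p`, `π` induces a bijection `V → Z ⧸ p Z`, `p^2 Z = 0`,
`|Z[p]| = p^3`, `p Z ≤ Z[p]`, `D ≤ Z[p]`. Take independent `a1, a2` with `β a1 a2 = 0` (`exists_isotropic_add`, `E = ⊥`), `A = span (a1, a2)`.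
If `D ⊆ π (A) + p Z`: T32n-eps. Otherwise let `l0 ∈ D`, `l0 ∉ π (A) + p Z`, and `b ∈ V` with `π b ∈ l0 + p Z`; `b ∉ A`. Let
`U = Z[p] ⧸ p Z` (order `p^2`) in `Z ⧸ p Z`; it is not the image of `π (A)` since it contains the class of `l0`, so the intersection with the image of
`π (A)` has order `p`: there is `aw ∈ A`, `aw ≠ 0`, and `z ∈ Z[p]` with `π aw ∈ z + p Z`; choose `au ∈ A` independent of `aw`; then
`ζ = π au ∉ Z[p]` modulo `p Z`, so `p ζ ≠ 0`, `p ζ` generates `p Z`. `e = (aw, au, b)` is a basis of `V`; `β aw au = 0`.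
* `p Z ≤ D`: `l = l0`; `D = ℤ (p ζ) + ℤ l` (`|D| = p^2`), `Z` is generated by `ζ, z, l` (their classes are the images of the basis in
  `Z ⧸ p Z`, and `p Z = ℤ p ζ`). `β aw b, β au b ∈ D` have coordinates `γ, α`, and since they generate `D` (`β` vanishes on `A`)
  `γ1 α2 - γ2 α1 ≠ 0`: T32n-z1.
* `p Z ⊄ D`: then `p Z ∩ D = 0` (`p Z` has prime order), `D → Z ⧸ p Z` is injective with image in `U`, so its image is `U` (both of order
  `p^2`). So there is `lw ∈ D` with `π aw ∈ lw + p Z`; `lb = l0`. `D = ℤ lw + ℤ lb`. As before T32n-z2. -/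
theorem T32n (p : ℕ) [Fact p.Prime] (hp : p ≠ 2) {V Z : Type*} [AddCommGroup V] [AddCommGroup Z] [Finite Z]
    [Module (ZMod p) V] (hV : finrank (ZMod p) V = 3) (t : TD p V Z) (hZ : Nat.card Z = p ^ 4)
    (hD : Nat.card t.D = p ^ 2) (hpZ : ∃ z : Z, p • z ≠ 0) (hinj : ∀ v, (∃ z, t.π v = p • z) → v = 0) :
    t.NonFree := by
  have hpr : p.Prime := Fact.out
  have hfin : FiniteDimensional (ZMod p) V := Module.finite_of_finrank_pos (by omega)
  obtain ⟨hbij, hcard, hpp⟩ := T32_basic p hV t hZ hpZ hinj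
  have hkD := T32n_killD p t
  -- an isotropic plane
  obtain ⟨k, hk⟩ : ∃ k : Fin 3 → V, LinearIndependent (ZMod p) k := by
    let B := Module.finBasisOfFinrankEq (ZMod p) V hV
    exact ⟨B, B.linearIndependent⟩
  obtain ⟨a1, -, a2, -, ha, hiso⟩ := exists_isotropic_add p t k hk ⊥ (by
    rw [inf_bot_eq, AddSubgroup.card_bot, mul_one, hD])
  rw [AddSubgroup.mem_bot] at hiso
  by_cases hsub : ∀ d ∈ t.D, ∃ a ∈ Submodule.span (ZMod p) {a1, a2}, ∃ z, d = t.π a + p • z
  · exact T32n_eps p hV t hZ hpZ hinj a1 a2 ha hiso hsub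
  push Not at hsub
  obtain ⟨l0, hl0, hl0'⟩ := hsub
  have hpl0 := hkD l0 hl0
  obtain ⟨b, hb⟩ := hbij.2 (l0 : Z ⧸ T32z_pZ p Z)
  rw [T32z_πQ_apply] at hb
  obtain ⟨sb, hsb⟩ := T32z_mk_eq.1 hb
  have hπb : t.π b = l0 + p • sb := by rw [← hsb]; abel
  have hbA : b ∉ Submodule.span (ZMod p) {a1, a2} := by
    intro h
    exact hl0' b h (-sb) (by rw [hπb, smul_neg]; abel)
  obtain ⟨x, y, hxy0, hxyp⟩ := T32n_aw p hV t hcard hpp a1 a2 ha
  have hiso' : t.β a2 a1 = 0 := by rw [t.skew, hiso, neg_zero]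
  -- choose `au`
  obtain ⟨au, hspan, hli⟩ : ∃ au : V, t.β (x • a1 + y • a2) au = 0 ∧
      LinearIndependent (ZMod p) ![x • a1 + y • a2, au, b] := by
    have hab : ∀ (au : V), au ∈ Submodule.span (ZMod p) {a1, a2} →
        LinearIndependent (ZMod p) ![x • a1 + y • a2, au] →
        LinearIndependent (ZMod p) ![x • a1 + y • a2, au, b] := by
      intro au hau hli
      have hle : Submodule.span (ZMod p) {x • a1 + y • a2, au} ≤
          Submodule.span (ZMod p) {a1, a2} := by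
        rw [Submodule.span_le]
        intro v hv
        rcases hv with rfl | hv
        · exact Submodule.mem_span_pair.2 ⟨x, y, rfl⟩
        · rw [Set.mem_singleton_iff] at hv
          rw [hv]
          exact hau
      have hs : (Fin.snoc ![x • a1 + y • a2, au] b : Fin 3 → V) = ![x • a1 + y • a2, au, b] := by
        ext i
        fin_cases i <;> rfl
      rw [← hs, linearIndependent_finSnoc]
      refine ⟨hli, fun h => hbA (hle ?_)⟩
      have hr : Set.range ![x • a1 + y • a2, au] = {x • a1 + y • a2, au} := by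
        simp [Matrix.range_cons, Set.pair_comm]
      rw [hr] at h
      exact h
    by_cases hx : x = 0
    · have hy : y ≠ 0 := by
        rintro rfl
        apply hxy0
        rw [hx]
        simp
      refine ⟨a1, ?_, hab a1 (Submodule.subset_span (by simp)) ?_⟩
      · rw [hx, zero_smul, zero_add, T32z_smul_val, map_nsmul, AddMonoidHom.nsmul_apply, hiso',
          smul_zero]
      · rw [LinearIndependent.pair_iff] at ha ⊢
        intro s r hsr
        obtain ⟨h1, h2⟩ := ha r (s * y) (by rw [← hsr, hx]; module)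
        exact ⟨(mul_eq_zero.1 h2).resolve_right hy, h1⟩
    · refine ⟨a2, ?_, hab a2 (Submodule.subset_span (by simp)) ?_⟩
      · rw [map_add, AddMonoidHom.add_apply, T32z_smul_val, map_nsmul, AddMonoidHom.nsmul_apply,
          hiso, smul_zero, zero_add, T32z_smul_val, map_nsmul, AddMonoidHom.nsmul_apply, t.alt,
          smul_zero]
      · rw [LinearIndependent.pair_iff] at ha ⊢
        intro s r hsr
        obtain ⟨h1, h2⟩ := ha (s * x) (s * y + r) (by rw [← hsr]; module)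
        have hs : s = 0 := (mul_eq_zero.1 h1).resolve_right hx
        rw [hs, zero_mul, zero_add] at h2
        exact ⟨hs, h2⟩
  set aw := x • a1 + y • a2 with haw
  set e : Fin 3 → V := ![aw, au, b] with he
  have e0 : e 0 = aw := rfl
  have e1 : e 1 = au := rfl
  have e2 : e 2 = b := rfl
  obtain ⟨f, hf, hv⟩ := T32_coords hV e hli
  -- `p • π au ≠ 0`
  have hμ : ∀ v, T32_mu t hpp v = p • t.π v := fun v => rfl
  have hμaw : T32_mu t hpp aw = 0 := hxyp
  have hμb : T32_mu t hpp b = 0 := by rw [hμ, hπb, smul_add, hpl0, hpp, add_zero]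
  have hμv : ∀ v, T32_mu t hpp v = (f 1 v).val • (p • t.π au) := by
    intro v
    conv_lhs => rw [hv v, e0, e1, e2]
    rw [map_add, map_add, T32z_smul_val, T32z_smul_val, T32z_smul_val, map_nsmul, map_nsmul,
      map_nsmul, hμaw, hμb, smul_zero, smul_zero, zero_add, add_zero, hμ]
  have hζ0 : p • t.π au ≠ 0 := by
    intro h
    obtain ⟨z, hz⟩ := hpZ
    apply hz
    obtain ⟨v, hvz⟩ := hbij.2 (z : Z ⧸ T32z_pZ p Z)
    rw [T32z_πQ_apply] at hvz
    obtain ⟨w, hw⟩ := T32z_mk_eq.1 hvz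
    have h1 : z = t.π v - p • w := by rw [← hw]; abel
    rw [h1, smul_sub, hpp, sub_zero, ← hμ, hμv, h, smul_zero]
  set ζ := t.π au with hζdef
  have hpζ2 : (p ^ 2) • ζ = 0 := by rw [pow_two, mul_smul, hpp]
  have hgenpZ : ∀ w : Z, ∃ i : ℤ, p • w = i • (p • ζ) := by
    intro w
    have h1 : (⟨p • w, T32z_mem_pZ.2 ⟨w, rfl⟩⟩ : T32z_pZ p Z) ∈
        AddSubgroup.zmultiples (⟨p • ζ, T32z_mem_pZ.2 ⟨ζ, rfl⟩⟩ : T32z_pZ p Z) :=
      mem_zmultiples_of_prime_card hcard (fun h => hζ0 (congrArg Subtype.val h))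
    obtain ⟨i, hi⟩ := AddSubgroup.mem_zmultiples_iff.1 h1
    exact ⟨i, (congrArg Subtype.val hi).symm⟩
  have hordζ : ∀ i : ℤ, i • (p • ζ) = 0 → (p : ℤ) ∣ i := by
    intro i hi
    have h1 : addOrderOf (p • ζ) = p := addOrderOf_eq_prime (hpp ζ) hζ0
    rw [← h1]
    exact addOrderOf_dvd_iff_zsmul_eq_zero.2 hi
  have hπ0 : ∃ s, t.π (e 0) = t.π aw + p • s := ⟨0, by rw [smul_zero, add_zero, e0]⟩
  have hπ1 : ∃ s, t.π (e 1) = ζ + p • s := ⟨0, by rw [smul_zero, add_zero, e1]⟩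
  have hπ2 : ∃ s, t.π (e 2) = l0 + p • s := ⟨sb, by rw [e2, hπb]⟩
  have hβinj := T32n_inj p hV t e hli hspan hD
  by_cases hcase : p • ζ ∈ t.D
  · -- `p Z ≤ D`
    have hcoord := T32n_coordD p t.D (p • ζ) l0 hcase hl0 (by
      intro i k hik
      have h1 : (0 : ℤ) • t.π aw + k • l0 = p • (-(i • ζ)) := by
        rw [zero_smul, zero_add, smul_neg, smul_comm p i ζ]
        exact eq_neg_of_add_eq_zero_right hik
      obtain ⟨-, h2⟩ := T32n_ind p t e hli hbij (t.π aw) l0 hπ0 hπ2 0 k _ h1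
      rw [T32n_dvd_smul p k l0 hpl0 h2, add_zero] at hik
      exact ⟨hordζ i hik, h2⟩) hD
    obtain ⟨γ1, γ2, h02⟩ := hcoord _ (t.β_mem_D (e 0) (e 2))
    obtain ⟨α1, α2, h12⟩ := hcoord _ (t.β_mem_D (e 1) (e 2))
    exact T32n_z1 p hp hV t hZ e hli ζ (t.π aw) l0 hπ0 hπ1 hπ2 hpζ2 hxyp hpl0
      (T32n_gen p hV t e hli hbij ζ (t.π aw) l0 hπ0 hπ1 hπ2 hgenpZ) hspan γ1 γ2 α1 α2 h02 h12
      (T32n_det p t e hβinj (p • ζ) l0 (hpp ζ) hpl0 γ1 γ2 α1 α2 h02 h12)
  · -- `p Z ∩ D = 0`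
    have hdis : ∀ w : Z, p • w ∈ t.D → p • w = 0 := by
      intro w hw
      obtain ⟨i, hi⟩ := hgenpZ w
      rw [hi] at hw ⊢
      by_contra h0
      have hnd : ¬ (p : ℤ) ∣ i := fun h => h0 (T32n_dvd_smul p i (p • ζ) (hpp ζ) h)
      have hcop : IsCoprime i (p : ℤ) :=
        ((Nat.prime_iff_prime_int.1 hpr).coprime_iff_not_dvd.2 hnd).symm
      obtain ⟨u, v, huv⟩ := hcop
      apply hcase
      have h1 : p • ζ = u • (i • (p • ζ)) + v • ((p : ℤ) • (p • ζ)) := by
        rw [← mul_smul, ← mul_smul, ← add_smul, huv, one_smul]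
      rw [h1, natCast_zsmul, hpp, smul_zero, add_zero]
      exact t.D.zsmul_mem hw u
    -- the class of `aw` comes from `D`
    obtain ⟨lw, hlwD, hlw⟩ : ∃ lw ∈ t.D, ∃ s, t.π aw = lw + p • s := by
      choose vd hvd using fun d : t.D => hbij.2 ((d : Z) : Z ⧸ T32z_pZ p Z)
      have hvd1 : ∀ d : t.D, f 1 (vd d) = 0 := by
        intro d
        have h1 := hvd d
        rw [T32z_πQ_apply] at h1
        obtain ⟨w, hw⟩ := T32z_mk_eq.1 h1
        have h2 : t.π (vd d) = d + p • w := by rw [← hw]; abel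
        have h3 : T32_mu t hpp (vd d) = 0 := by
          rw [hμ, h2, smul_add, hkD d d.2, hpp, add_zero]
        rw [hμv] at h3
        have h4 := hordζ ((f 1 (vd d)).val : ℤ) (by rw [natCast_zsmul]; exact h3)
        have h5 := (ZMod.intCast_zmod_eq_zero_iff_dvd _ _).2 h4
        push_cast at h5
        simpa using h5
      let F : t.D → ZMod p × ZMod p := fun d => (f 0 (vd d), f 2 (vd d))
      have hFi : Function.Injective F := by
        intro d d' hdd
        have h0 : f 0 (vd d) = f 0 (vd d') := congrArg Prod.fst hdd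
        have h2 : f 2 (vd d) = f 2 (vd d') := congrArg Prod.snd hdd
        have h3 : vd d = vd d' := by
          rw [hv (vd d), hv (vd d'), h0, h2, hvd1, hvd1]
        have h4 := hvd d
        rw [h3, hvd d'] at h4
        obtain ⟨w, hw⟩ := T32z_mk_eq.1 h4.symm
        have h5 : p • w = 0 := hdis w (by rw [← hw]; exact t.D.sub_mem d.2 d'.2)
        rw [h5, sub_eq_zero] at hw
        exact Subtype.ext hw
      have hFb : Function.Bijective F := (Nat.bijective_iff_injective_and_card F).2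
        ⟨hFi, by rw [Nat.card_prod, Nat.card_zmod, hD, pow_two]⟩
      obtain ⟨d, hd⟩ := hFb.2 (1, 0)
      have h0 : f 0 (vd d) = 1 := congrArg Prod.fst hd
      have h2 : f 2 (vd d) = 0 := congrArg Prod.snd hd
      have h3 : vd d = aw := by
        rw [hv (vd d), h0, h2, hvd1, e0]
        simp
      have h4 := hvd d
      rw [h3, T32z_πQ_apply] at h4
      obtain ⟨w, hw⟩ := T32z_mk_eq.1 h4
      exact ⟨d, d.2, w, by rw [← hw]; abel⟩
    have hplw := hkD lw hlwD
    have hπ0' : ∃ s, t.π (e 0) = lw + p • s := by rw [e0]; exact hlw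
    have hcoord := T32n_coordD p t.D l0 lw hl0 hlwD (by
      intro i k hik
      obtain ⟨h1, h2⟩ := T32n_ind p t e hli hbij lw l0 hπ0' hπ2 k i 0 (by
        rw [smul_zero, add_comm]; exact hik)
      exact ⟨h2, h1⟩) hD
    obtain ⟨γ0, γ1, h02⟩ := hcoord _ (t.β_mem_D (e 0) (e 2))
    obtain ⟨α0, α1, h12⟩ := hcoord _ (t.β_mem_D (e 1) (e 2))
    exact T32n_z2 p hp hV t hZ e hli ζ lw l0 hπ0' hπ1 hπ2 hpζ2 hplw hpl0
      (T32n_gen p hV t e hli hbij ζ lw l0 hπ0' hπ1 hπ2 hgenpZ) hspan γ0 γ1 α0 α1 h02 h12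
      (T32n_det p t e hβinj l0 lw hpl0 hplw γ0 γ1 α0 α1 h02 h12)

end MP_02e52a.M7
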