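import Pool.Agent.Lib.MP_02e52a_al.M7.AddTools

namespace MP_02e52a.M7

open Module

private lemma T33n2_ind {p : ℕ} [Fact p.Prime] {V : Type*} [AddCommGroup V] [Module (ZMod p) V]
    (k : Fin 3 → V) (hspan : Submodule.span (ZMod p) (Set.range k) = ⊤) (P : V → Prop)
    (h0 : P 0) (hadd : ∀ u v, P u → P v → P (u + v)) (hk : ∀ i, P (k i)) : ∀ v, P v := by
  intro v
  have hv : v ∈ Submodule.span (ZMod p) (Set.range k) := by rw [hspan]; trivial
  have hn : ∀ (m : ℕ) (x : V), P x → P (m • x) := by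
    intro m x hx
    induction m with
    | zero => rw [zero_smul]; exact h0
    | succ m ih => rw [succ_nsmul]; exact hadd _ _ ih hx
  induction hv using Submodule.span_induction with
  | mem x hx =>
    obtain ⟨i, rfl⟩ := hx
    exact hk i
  | zero => exact h0
  | add x y _ _ hx hy => exact hadd x y hx hy
  | smul a x _ hx =>
    have h : a • x = a.val • x := by
      rw [← Nat.cast_smul_eq_nsmul (ZMod p) a.val x, ZMod.natCast_zmod_val]
    rw [h]
    exact hn _ _ hx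

private lemma T33n2_kill {p : ℕ} [Fact p.Prime] {V Z : Type*} [AddCommGroup V] [AddCommGroup Z]
    [Module (ZMod p) V] (t : TD p V Z) : ∀ d ∈ t.D, p • d = 0 := by
  have hker : ∀ x : V, p • x = 0 := fun x => by
    rw [← Nat.cast_smul_eq_nsmul (ZMod p), CharP.cast_eq_zero, zero_smul]
  intro d hd
  unfold TD.D at hd
  induction hd using AddSubgroup.closure_induction with
  | mem x hx =>
    obtain ⟨u, v, rfl⟩ := hx
    rw [← AddMonoidHom.nsmul_apply, ← map_nsmul, hker, map_zero, AddMonoidHom.zero_apply]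
  | zero => exact smul_zero _
  | add x y _ _ hx hy => rw [smul_add, hx, hy, add_zero]
  | neg x _ hx => rw [smul_neg, hx, neg_zero]

private lemma T33n2_gen {p : ℕ} [Fact p.Prime] {V Z : Type*} [AddCommGroup V] [AddCommGroup Z]
    [Module (ZMod p) V] (t : TD p V Z) (e : Fin 3 → V)
    (hspan : Submodule.span (ZMod p) (Set.range e) = ⊤) :
    AddSubgroup.closure (Set.range ![t.β (e 1) (e 2), t.β (e 2) (e 0), t.β (e 0) (e 1)]) = t.D := by
  set S := AddSubgroup.closure (Set.range ![t.β (e 1) (e 2), t.β (e 2) (e 0), t.β (e 0) (e 1)])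
    with hS
  apply le_antisymm
  · rw [hS, AddSubgroup.closure_le]
    rintro _ ⟨i, rfl⟩
    fin_cases i
    · exact t.β_mem_D _ _
    · exact t.β_mem_D _ _
    · exact t.β_mem_D _ _
  · have h0 : t.β (e 1) (e 2) ∈ S := AddSubgroup.subset_closure ⟨0, rfl⟩
    have h1 : t.β (e 2) (e 0) ∈ S := AddSubgroup.subset_closure ⟨1, rfl⟩
    have h2 : t.β (e 0) (e 1) ∈ S := AddSubgroup.subset_closure ⟨2, rfl⟩
    have key : ∀ i j : Fin 3, t.β (e i) (e j) ∈ S := by
      intro i j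
      fin_cases i <;> fin_cases j
      · change t.β (e 0) (e 0) ∈ S
        rw [t.alt]; exact S.zero_mem
      · exact h2
      · change t.β (e 0) (e 2) ∈ S
        rw [t.skew]; exact S.neg_mem h1
      · change t.β (e 1) (e 0) ∈ S
        rw [t.skew]; exact S.neg_mem h2
      · change t.β (e 1) (e 1) ∈ S
        rw [t.alt]; exact S.zero_mem
      · exact h0
      · exact h1
      · change t.β (e 2) (e 1) ∈ S
        rw [t.skew]; exact S.neg_mem h0
      · change t.β (e 2) (e 2) ∈ S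
        rw [t.alt]; exact S.zero_mem
    have key2 : ∀ u v, t.β u v ∈ S := by
      intro u
      refine T33n2_ind e hspan (fun v => t.β u v ∈ S) ?_ ?_ ?_
      · rw [map_zero]; exact S.zero_mem
      · intro x y hx hy
        rw [map_add]; exact S.add_mem hx hy
      · intro j
        revert u
        refine T33n2_ind e hspan (fun u => t.β u (e j) ∈ S) ?_ ?_ ?_
        · rw [map_zero]; exact S.zero_mem
        · intro x y hx hy
          rw [map_add]; exact S.add_mem hx hy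
        · intro i
          exact key i j
    unfold TD.D
    rw [AddSubgroup.closure_le]
    rintro _ ⟨u, v, rfl⟩
    exact key2 u v

private lemma T33n2_neg {p : ℕ} [Fact p.Prime] {Z : Type*} [AddCommGroup Z] (x : Z)
    (hx : p • x = 0) : (-1 : ZMod p).val • x = -x := by
  rw [eq_neg_iff_add_eq_zero]
  have h1 : (-1 : ZMod p).val • x + x = ((-1 : ZMod p).val + 1) • x := by
    rw [add_smul, one_smul]
  have h2 : p ∣ (-1 : ZMod p).val + 1 := by
    rw [← ZMod.natCast_eq_zero_iff]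
    push_cast
    rw [ZMod.natCast_val, ZMod.cast_id', id, neg_add_cancel]
  obtain ⟨m, hm⟩ := h2
  rw [h1, hm, mul_comm, mul_smul, hx, smul_zero]

/-- [M7 T33n-2] all `π v ∈ D`, basis `e` with `β (e 0) (e 1) ∈ p Z` and `π (e 0) ∈ p Z`. PROOF: `g (e 0) = e 0`,
`g (e 1) = e 1`, `g (e 2) = e 2 + e 0`; `c` on `D`: `β (e 0) (e 1)`, `β (e 0) (e 2)` fixed,
`β (e 1) (e 2) ↦ β (e 1) (e 2) + β (e 1) (e 0)`; `c ζ = ζ` (`c (p • ζ) = p • ζ` since `p • ζ` is a multiple of `β (e 0) (e 1)`).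
For `d ∈ D`: `c d - d ∈ ℤ β (e 0) (e 1) = p Z`. So `π (e i) - c (π (e i)) ∈ p Z` for `i = 0, 1`, and
`π (e 2 + e 0) - c (π (e 2)) ∈ π (e 2) + π (e 0) - π (e 2) + p Z = p Z`. -/
theorem T33n_2 (p : ℕ) [Fact p.Prime] {V Z : Type*} [AddCommGroup V] [AddCommGroup Z] [Finite Z]
    [Module (ZMod p) V] (hV : finrank (ZMod p) V = 3) (t : TD p V Z) (hZ : Nat.card Z = p ^ 4)
    (hD : Nat.card t.D = p ^ 3) (hpZ : ∃ z : Z, p • z ≠ 0) (h0 : ∀ v, t.π v ∈ t.D)
    (e : Fin 3 → V) (he : LinearIndependent (ZMod p) e) (h1 : ∃ z, t.β (e 0) (e 1) = p • z)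
    (h2 : ∃ z, t.π (e 0) = p • z) : t.NonFree := by
  have hpp : p.Prime := Fact.out
  have : FiniteDimensional (ZMod p) V := FiniteDimensional.of_finrank_pos (by rw [hV]; norm_num)
  have hspan : Submodule.span (ZMod p) (Set.range e) = ⊤ :=
    he.span_eq_top_of_card_eq_finrank' (by rw [hV, Fintype.card_fin])
  have hDp := T33n2_kill t
  have hgen := T33n2_gen t e hspan
  set d : Fin 3 → Z := ![t.β (e 1) (e 2), t.β (e 2) (e 0), t.β (e 0) (e 1)] with hd
  have hdD : ∀ i, d i ∈ t.D := by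
    intro i
    rw [← hgen]
    exact AddSubgroup.subset_closure ⟨i, rfl⟩
  -- `d 2 ≠ 0`
  have hd2 : d 2 ≠ 0 := by
    intro hz
    obtain ⟨cD, hcD⟩ := exists_aut_three p t.D hDp hD d hdD hgen
      !![0, 1, 0; 0, 0, 1; 1, 0, 0] (by simp [Matrix.det_fin_three])
    have e2 : (cD ⟨d 2, hdD 2⟩ : Z) = d 0 := by
      rw [hcD 2]; simp [Fin.sum_univ_three, ZMod.val_one]
    have e0 : (cD ⟨d 0, hdD 0⟩ : Z) = d 1 := by
      rw [hcD 0]; simp [Fin.sum_univ_three, ZMod.val_one]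
    have z0 : d 0 = 0 := by
      rw [← e2]
      have : (⟨d 2, hdD 2⟩ : t.D) = 0 := Subtype.ext hz
      rw [this, map_zero]; rfl
    have z1 : d 1 = 0 := by
      rw [← e0]
      have : (⟨d 0, hdD 0⟩ : t.D) = 0 := Subtype.ext z0
      rw [this, map_zero]; rfl
    have hbot : t.D = ⊥ := by
      rw [← hgen, AddSubgroup.closure_eq_bot_iff]
      rintro _ ⟨i, rfl⟩
      fin_cases i
      · exact z0
      · exact z1
      · exact hz
    rw [hbot, AddSubgroup.card_bot] at hD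
    have : 1 < p ^ 3 := Nat.one_lt_pow (by norm_num) hpp.one_lt
    omega
  obtain ⟨φ, hφD, ⟨ζ, hζ⟩, hφp, hφζ⟩ := exists_phi p t.D hDp (by rw [hZ, hD]; ring) hpZ
  obtain ⟨hpζ0, hpζD, hpz⟩ := hφζ ζ hζ
  obtain ⟨z1, hz1⟩ := h1
  obtain ⟨z2, hz2⟩ := h2
  -- `p ζ` is a multiple of `d 2`
  have hd2z : d 2 = (φ z1).val • (p • ζ) := by rw [← hpz z1, ← hz1]; rfl
  have hφz1 : φ z1 ≠ 0 := by
    intro h
    rw [h, ZMod.val_zero, zero_smul] at hd2z
    exact hd2 hd2z
  have hinv : p • ζ = ((φ z1)⁻¹).val • d 2 := by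
    rw [hd2z, smul_smul]
    have h3 : ((((φ z1)⁻¹).val * (φ z1).val : ℕ) : ZMod p) = ((1 : ℕ) : ZMod p) := by
      push_cast
      rw [ZMod.natCast_val, ZMod.natCast_val, ZMod.cast_id', id, id, inv_mul_cancel₀ hφz1]
    rw [ZMod.natCast_eq_natCast_iff] at h3
    have h4 : ∀ a b : ℕ, a ≡ b [MOD p] → a • (p • ζ) = b • (p • ζ) := by
      intro a b hab
      rw [← Nat.mod_add_div a p, ← Nat.mod_add_div b p, hab]
      simp only [add_smul, mul_comm p, mul_smul, hDp _ hpζD, smul_zero]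
    rw [h4 _ _ h3, one_smul]
  -- the map `g`
  obtain ⟨g, hg⟩ := exists_equiv_three p hV e he
    !![1, 0, 0; 0, 1, 0; 1, 0, 1] (by simp [Matrix.det_fin_three])
  have hg0 : g (e 0) = e 0 := by simpa [Fin.sum_univ_three] using hg 0
  have hg1 : g (e 1) = e 1 := by simpa [Fin.sum_univ_three] using hg 1
  have hg2 : g (e 2) = e 0 + e 2 := by simpa [Fin.sum_univ_three] using hg 2
  -- the map `cD`
  obtain ⟨cD, hcD⟩ := exists_aut_three p t.D hDp hD d hdD hgen
      !![1, 0, -1; 0, 1, 0; 0, 0, 1] (by simp [Matrix.det_fin_three])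
  have hc0 : (cD ⟨d 0, hdD 0⟩ : Z) = d 0 - d 2 := by
    rw [hcD 0]
    simp only [Fin.sum_univ_three, Matrix.of_apply, Matrix.cons_val_zero, Matrix.cons_val_one,
      Matrix.cons_val, ZMod.val_one, ZMod.val_zero, one_smul, zero_smul, add_zero]
    rw [T33n2_neg _ (hDp _ (hdD 2)), sub_eq_add_neg]
  have hc1 : (cD ⟨d 1, hdD 1⟩ : Z) = d 1 := by
    rw [hcD 1]; simp [Fin.sum_univ_three, ZMod.val_one]
  have hc2 : (cD ⟨d 2, hdD 2⟩ : Z) = d 2 := by
    rw [hcD 2]; simp [Fin.sum_univ_three, ZMod.val_one]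
  have hpζc : p • ζ = (cD ⟨p • ζ, hpζD⟩ : Z) := by
    have h3 : (⟨p • ζ, hpζD⟩ : t.D) = ((φ z1)⁻¹).val • (⟨d 2, hdD 2⟩ : t.D) := by
      apply Subtype.ext
      rw [AddSubgroup.coe_nsmul]
      exact hinv
    rw [h3, map_nsmul, AddSubgroup.coe_nsmul, hc2]
    exact hinv
  obtain ⟨c, hc, hcζ⟩ := exists_extend p t.D φ hφD ζ hζ hpζD cD ζ (by rw [hζ]; exact one_ne_zero)
    hpζc
  have hcc0 : c (t.β (e 1) (e 2)) = t.β (e 1) (e 2) - t.β (e 0) (e 1) := by
    have := hc ⟨d 0, hdD 0⟩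
    rw [hc0] at this
    exact this
  have hcc1 : c (t.β (e 2) (e 0)) = t.β (e 2) (e 0) := by
    have := hc ⟨d 1, hdD 1⟩
    rw [hc1] at this
    exact this
  have hcc2 : c (t.β (e 0) (e 1)) = t.β (e 0) (e 1) := by
    have := hc ⟨d 2, hdD 2⟩
    rw [hc2] at this
    exact this
  -- `c x - x` is in `p Z` for `x ∈ D`
  have hcD' : ∀ x ∈ t.D, ∃ z, x - c x = p • z := by
    intro x hx
    rw [← hgen] at hx
    induction hx using AddSubgroup.closure_induction with
    | mem x hx =>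
      obtain ⟨i, rfl⟩ := hx
      fin_cases i
      · refine ⟨z1, ?_⟩
        change t.β (e 1) (e 2) - c (t.β (e 1) (e 2)) = _
        rw [hcc0, sub_sub_cancel, hz1]
      · refine ⟨0, ?_⟩
        change t.β (e 2) (e 0) - c (t.β (e 2) (e 0)) = _
        rw [hcc1, sub_self, smul_zero]
      · refine ⟨0, ?_⟩
        change t.β (e 0) (e 1) - c (t.β (e 0) (e 1)) = _
        rw [hcc2, sub_self, smul_zero]
    | zero => exact ⟨0, by rw [map_zero, sub_self, smul_zero]⟩
    | add x y _ _ hx hy =>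
      obtain ⟨a, ha⟩ := hx
      obtain ⟨b, hb⟩ := hy
      refine ⟨a + b, ?_⟩
      rw [smul_add, ← ha, ← hb, map_add]
      abel
    | neg x _ hx =>
      obtain ⟨a, ha⟩ := hx
      refine ⟨-a, ?_⟩
      rw [smul_neg, ← ha, map_neg]
      abel
  refine nonFree_of_basis p t e hspan g c ⟨e 2, ?_⟩ ?_ ?_
  · rw [hg2]
    intro h
    have : e 0 = 0 := by simpa using h
    exact he.ne_zero 0 this
  · intro i j
    fin_cases i <;> fin_cases j
    · change c (t.β (e 0) (e 0)) = t.β (g (e 0)) (g (e 0))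
      rw [t.alt, t.alt, map_zero]
    · change c (t.β (e 0) (e 1)) = t.β (g (e 0)) (g (e 1))
      rw [hcc2, hg0, hg1]
    · change c (t.β (e 0) (e 2)) = t.β (g (e 0)) (g (e 2))
      rw [t.skew, map_neg, hcc1, hg0, hg2, map_add, t.alt, zero_add, ← t.skew]
    · change c (t.β (e 1) (e 0)) = t.β (g (e 1)) (g (e 0))
      rw [t.skew, map_neg, hcc2, hg0, hg1, ← t.skew]
    · change c (t.β (e 1) (e 1)) = t.β (g (e 1)) (g (e 1))
      rw [t.alt, t.alt, map_zero]
    · change c (t.β (e 1) (e 2)) = t.β (g (e 1)) (g (e 2))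
      rw [hcc0, hg1, hg2, map_add, t.skew (e 1) (e 0)]
      abel
    · change c (t.β (e 2) (e 0)) = t.β (g (e 2)) (g (e 0))
      rw [hcc1, hg2, hg0, map_add, AddMonoidHom.add_apply, t.alt, zero_add]
    · change c (t.β (e 2) (e 1)) = t.β (g (e 2)) (g (e 1))
      rw [t.skew (e 2) (e 1), map_neg, hcc0, hg2, hg1, map_add, AddMonoidHom.add_apply,
        t.skew (e 2) (e 1)]
      abel
    · change c (t.β (e 2) (e 2)) = t.β (g (e 2)) (g (e 2))
      rw [t.alt, t.alt, map_zero]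
  · intro i
    fin_cases i
    · change ∃ z, t.π (g (e 0)) - c (t.π (e 0)) = p • z
      rw [hg0]
      exact hcD' _ (h0 _)
    · change ∃ z, t.π (g (e 1)) - c (t.π (e 1)) = p • z
      rw [hg1]
      exact hcD' _ (h0 _)
    · change ∃ z, t.π (g (e 2)) - c (t.π (e 2)) = p • z
      obtain ⟨a, ha⟩ := hcD' _ (h0 (e 2))
      obtain ⟨b, hb⟩ := t.add (e 0) (e 2)
      refine ⟨z2 + a + b, ?_⟩
      rw [hg2, smul_add, smul_add, ← ha, ← hb, ← hz2]
      abel

end MP_02e52a.M7
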