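import Pool.Agent.Lib.MP_02e52a_al.M7.AddTools

namespace MP_02e52a.M7

open Module

private theorem T33n3_pV (p : ℕ) [Fact p.Prime] {V : Type*} [AddCommGroup V] [Module (ZMod p) V]
    (u : V) : p • u = 0 := by
  have h := Nat.cast_smul_eq_nsmul (ZMod p) p u
  rw [← h]; simp

private theorem T33n3_pD (p : ℕ) [Fact p.Prime] {V Z : Type*} [AddCommGroup V] [AddCommGroup Z]
    [Module (ZMod p) V] (t : TD p V Z) : ∀ d ∈ t.D, p • d = 0 := by
  intro z hz
  unfold TD.D at hz
  induction hz using AddSubgroup.closure_induction with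
  | mem x hx =>
    obtain ⟨u, v, rfl⟩ := hx
    have h1 : t.β (p • u) v = p • t.β u v := by
      rw [map_nsmul]; rfl
    rw [← h1, T33n3_pV p u]; simp
  | zero => simp
  | add x y _ _ hx hy => rw [nsmul_add, hx, hy, add_zero]
  | neg x _ hx => rw [smul_neg, hx, neg_zero]

private theorem T33n3_pi_nsmul (p : ℕ) {V Z : Type*} [AddCommGroup V] [AddCommGroup Z]
    (t : TD p V Z) (n : ℕ) (v : V) : ∃ z, t.π (n • v) = n • t.π v + p • z := by
  induction n with
  | zero =>
    obtain ⟨z, hz⟩ := t.add 0 0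
    refine ⟨-z, ?_⟩
    rw [add_zero, sub_self, zero_sub] at hz
    rw [zero_smul, zero_smul, zero_add, smul_neg, ← hz, neg_neg]
  | succ n ih =>
    obtain ⟨z, hz⟩ := ih
    obtain ⟨z', hz'⟩ := t.add (n • v) v
    refine ⟨z + z', ?_⟩
    have : t.π (n • v + v) = p • z' + t.π v + t.π (n • v) := by
      rw [← hz']; abel
    rw [succ_nsmul, this, hz, succ_nsmul, smul_add]
    abel

/-- the span of a linearly independent triple in dimension three, pushed to `β` -/
private theorem T33n3_gen (p : ℕ) [Fact p.Prime] {V Z : Type*} [AddCommGroup V] [AddCommGroup Z]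
    [Module (ZMod p) V] (t : TD p V Z) (k : Fin 3 → V)
    (hspan : Submodule.span (ZMod p) (Set.range k) = ⊤) (E : AddSubgroup Z)
    (h01 : t.β (k 0) (k 1) ∈ E) (h02 : t.β (k 0) (k 2) ∈ E) (h12 : t.β (k 1) (k 2) ∈ E) :
    t.D ≤ E := by
  have hind : ∀ (P : V → Prop), P 0 → (∀ u v, P u → P v → P (u + v)) → (∀ i, P (k i)) → ∀ v, P v := by
    intro P h0 hadd hk v
    have hv : v ∈ Submodule.span (ZMod p) (Set.range k) := by rw [hspan]; trivial
    have hn : ∀ (m : ℕ) (x : V), P x → P (m • x) := by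
      intro m x hx
      induction m with
      | zero => rw [zero_smul]; exact h0
      | succ m ih => rw [succ_nsmul]; exact hadd _ _ ih hx
    induction hv using Submodule.span_induction with
    | mem x hx =>
      obtain ⟨i, rfl⟩ := hx
      exact hk i
    | zero => exact h0
    | add x y _ _ hx hy => exact hadd x y hx hy
    | smul a x _ hx =>
      have h : a • x = a.val • x := by
        rw [← Nat.cast_smul_eq_nsmul (ZMod p) a.val x, ZMod.natCast_zmod_val]
      rw [h]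
      exact hn _ _ hx
  have hb : ∀ i j, t.β (k i) (k j) ∈ E := by
    intro i j
    fin_cases i <;> fin_cases j <;>
      simp only [Fin.zero_eta, Fin.mk_one, Fin.reduceFinMk, Fin.isValue]
    · rw [t.alt]; exact E.zero_mem
    · exact h01
    · exact h02
    · rw [t.skew]; exact E.neg_mem h01
    · rw [t.alt]; exact E.zero_mem
    · exact h12
    · rw [t.skew]; exact E.neg_mem h02
    · rw [t.skew]; exact E.neg_mem h12
    · rw [t.alt]; exact E.zero_mem
  have h1 : ∀ u, ∀ j, t.β u (k j) ∈ E := by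
    refine hind _ ?_ ?_ ?_
    · intro j; simp
    · intro u v hu hv j
      rw [map_add]; exact E.add_mem (hu j) (hv j)
    · intro i j; exact hb i j
  have h2 : ∀ v, ∀ u, t.β u v ∈ E := by
    refine hind _ ?_ ?_ ?_
    · intro u; simp
    · intro v w hv hw u
      rw [map_add]; exact E.add_mem (hv u) (hw u)
    · intro j u; exact h1 u j
  unfold TD.D
  rw [AddSubgroup.closure_le]
  rintro w ⟨u, v, rfl⟩
  exact h2 v u

/-- [M7 T33n-3] basis `e` with `β (e 0) (e 1) ∈ p Z`, `π (e 0) ∈ D`, `π (e 1) ∈ D`, `π (e 2) ∉ D`. PROOF: let `φ` be as in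
`exists_phi`; scaling `e 2` (replace `e 2` by `n • e 2`) we may assume `φ (π (e 2)) = 1`; put `ζ = π (e 2)`.
`g (e 0) = e 0`, `g (e 1) = e 1`, `g (e 2) = e 2 + e 0`; `c` on `D` as in T33n-2 (`c d - d ∈ p Z`, `c (p • ζ) = p • ζ`);
`c ζ = ζ + π (e 0)` (allowed: `p • (ζ + π (e 0)) = p • ζ`, `φ (ζ + π (e 0)) = 1`). Then
`π (e 2 + e 0) - c (π (e 2)) ∈ π (e 2) + π (e 0) - ζ - π (e 0) + p Z = p Z`, and on `e 0, e 1` as before. -/
theorem T33n_3 (p : ℕ) [Fact p.Prime] {V Z : Type*} [AddCommGroup V] [AddCommGroup Z] [Finite Z]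
    [Module (ZMod p) V] (hV : finrank (ZMod p) V = 3) (t : TD p V Z) (hZ : Nat.card Z = p ^ 4)
    (hD : Nat.card t.D = p ^ 3) (hpZ : ∃ z : Z, p • z ≠ 0)
    (e : Fin 3 → V) (he : LinearIndependent (ZMod p) e) (h1 : ∃ z, t.β (e 0) (e 1) = p • z)
    (h2 : t.π (e 0) ∈ t.D) (h3 : t.π (e 1) ∈ t.D) (h4 : t.π (e 2) ∉ t.D) : t.NonFree := by
  have hp : p.Prime := Fact.out
  have hpD := T33n3_pD p t
  obtain ⟨φ, hφD, -, -, hφζ⟩ := exists_phi p t.D hpD (by rw [hZ, hD]; ring) hpZ
  have hφp : ∀ z, φ (p • z) = 0 := fun z => by rw [map_nsmul]; simp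
  -- scaling
  set a : ZMod p := φ (t.π (e 2)) with ha
  have ha0 : a ≠ 0 := fun h => h4 ((hφD _).1 h)
  set n : ℕ := (a⁻¹).val with hn
  obtain ⟨z2, hz2⟩ := T33n3_pi_nsmul p t n (e 2)
  set ζ : Z := t.π (n • e 2) with hζdef
  have hφζ1 : φ ζ = 1 := by
    rw [hz2, map_add, hφp, add_zero, map_nsmul, ← ha, nsmul_eq_mul, hn, ZMod.natCast_zmod_val,
      inv_mul_cancel₀ ha0]
  obtain ⟨hq0, hqD, hqz⟩ := hφζ ζ hφζ1
  set q : Z := p • ζ with hq
  set k : Fin 3 → V := ![e 0, e 1, n • e 2] with hk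
  have hk0 : k 0 = e 0 := rfl
  have hk1 : k 1 = e 1 := rfl
  have hk2 : k 2 = n • e 2 := rfl
  have hkli : LinearIndependent (ZMod p) k := by
    have hu : ∀ i : Fin 3, IsUnit ((![1, 1, a⁻¹] : Fin 3 → ZMod p) i) := by
      intro i
      fin_cases i
      · exact isUnit_one
      · exact isUnit_one
      · exact isUnit_iff_ne_zero.2 (inv_ne_zero ha0)
    have h5 := he.units_smul (fun i => (hu i).unit)
    convert h5 using 1
    funext i
    fin_cases i
    · show e 0 = ((hu 0).unit : ZMod p) • e 0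
      simp
    · show e 1 = ((hu 1).unit : ZMod p) • e 1
      simp
    · show n • e 2 = ((hu 2).unit : ZMod p) • e 2
      rw [IsUnit.unit_spec, ← Nat.cast_smul_eq_nsmul (ZMod p) n (e 2), hn, ZMod.natCast_zmod_val]
      rfl
  have hfin : Module.Finite (ZMod p) V := Module.finite_of_finrank_pos (by omega)
  have hspan : Submodule.span (ZMod p) (Set.range k) = ⊤ :=
    hkli.span_eq_top_of_card_eq_finrank' (by simp [hV])
  -- the automorphism of V
  obtain ⟨g, hg⟩ := exists_equiv_three p hV k hkli !![1, 0, 0; 0, 1, 0; 1, 0, 1]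
    (by simp [Matrix.det_fin_three])
  have hg0 : g (k 0) = k 0 := by
    rw [hg]; simp [Fin.sum_univ_three]
  have hg1 : g (k 1) = k 1 := by
    rw [hg]; simp [Fin.sum_univ_three]
  have hg2 : g (k 2) = k 2 + k 0 := by
    rw [hg]; simp [Fin.sum_univ_three]; abel
  -- the automorphism of D
  set d0 := t.β (k 0) (k 1) with hd0
  set d1 := t.β (k 0) (k 2) with hd1
  set d2 := t.β (k 1) (k 2) with hd2
  have hdm : ∀ i, (![d0, d1, d2] : Fin 3 → Z) i ∈ t.D := by
    intro i
    fin_cases i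
    · exact t.β_mem_D _ _
    · exact t.β_mem_D _ _
    · exact t.β_mem_D _ _
  have hgen : AddSubgroup.closure (Set.range (![d0, d1, d2] : Fin 3 → Z)) = t.D := by
    apply le_antisymm
    · rw [AddSubgroup.closure_le]
      rintro w ⟨i, rfl⟩
      exact hdm i
    · apply T33n3_gen p t k hspan
      · exact AddSubgroup.subset_closure ⟨0, rfl⟩
      · exact AddSubgroup.subset_closure ⟨1, rfl⟩
      · exact AddSubgroup.subset_closure ⟨2, rfl⟩
  obtain ⟨cD, hcD⟩ := exists_aut_three p t.D hpD hD ![d0, d1, d2] hdm hgen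
    !![1, 0, 0; 0, 1, 0; -1, 0, 1] (by simp [Matrix.det_fin_three])
  have hneg : ∀ d ∈ t.D, ((-1 : ZMod p)).val • d = -d := by
    intro d hd
    have h5 : (((-1 : ZMod p)).val + 1) • d = 0 := by
      have h6 : (((( -1 : ZMod p)).val + 1 : ℕ) : ZMod p) = 0 := by
        push_cast
        rw [ZMod.natCast_zmod_val]; ring
      rw [ZMod.natCast_eq_zero_iff] at h6
      obtain ⟨m, hm⟩ := h6
      rw [hm, mul_comm, mul_smul, hpD d hd, smul_zero]
    rw [succ_nsmul] at h5
    exact eq_neg_of_add_eq_zero_left h5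
  have hone : ∀ d ∈ t.D, ((1 : ZMod p)).val • d = d := by
    intro d hd
    rw [ZMod.val_one, one_smul]
  have hc0 : (cD ⟨d0, hdm 0⟩ : Z) = d0 := by
    have := hcD 0
    simp [Fin.sum_univ_three] at this
    rw [this]
    have h := hone d0 (hdm 0)
    simpa using h
  have hc1 : (cD ⟨d1, hdm 1⟩ : Z) = d1 := by
    have := hcD 1
    simp [Fin.sum_univ_three] at this
    rw [this]
    have h := hone d1 (hdm 1)
    simpa using h
  have hc2 : (cD ⟨d2, hdm 2⟩ : Z) = d2 - d0 := by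
    have := hcD 2
    simp only [Fin.sum_univ_three] at this
    have h5 : (cD ⟨d2, hdm 2⟩ : Z) = ((-1 : ZMod p)).val • d0 + ((0 : ZMod p)).val • d1 +
        ((1 : ZMod p)).val • d2 := this
    rw [h5, hneg d0 (hdm 0), hone d2 (hdm 2), ZMod.val_zero, zero_smul, add_zero]
    abel
  -- `cD d - d` is a multiple of `d0`
  have hcd : ∀ d : t.D, ∃ m : ℤ, (cD d : Z) = d + m • d0 := by
    have h5 : ∀ z (hz : z ∈ AddSubgroup.closure (Set.range (![d0, d1, d2] : Fin 3 → Z))),
        ∃ m : ℤ, (cD ⟨z, by rw [← hgen]; exact hz⟩ : Z) = z + m • d0 := by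
      intro z hz
      induction hz using AddSubgroup.closure_induction with
      | mem x hx =>
        obtain ⟨i, rfl⟩ := hx
        fin_cases i
        · exact ⟨0, by rw [zero_smul, add_zero]; exact hc0⟩
        · exact ⟨0, by rw [zero_smul, add_zero]; exact hc1⟩
        · exact ⟨-1, by rw [neg_smul, one_smul, ← sub_eq_add_neg]; exact hc2⟩
      | zero =>
        refine ⟨0, ?_⟩
        have : (⟨0, by rw [← hgen]; exact AddSubgroup.zero_mem _⟩ : t.D) = 0 := rfl
        rw [this, map_zero]; simp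
      | add x y hx hy ihx ihy =>
        obtain ⟨m, hm⟩ := ihx
        obtain ⟨m', hm'⟩ := ihy
        refine ⟨m + m', ?_⟩
        have : (⟨x + y, by rw [← hgen]; exact AddSubgroup.add_mem _ hx hy⟩ : t.D) =
            ⟨x, by rw [← hgen]; exact hx⟩ + ⟨y, by rw [← hgen]; exact hy⟩ := rfl
        rw [this, map_add, AddSubgroup.coe_add, hm, hm', add_smul]
        abel
      | neg x hx ihx =>
        obtain ⟨m, hm⟩ := ihx
        refine ⟨-m, ?_⟩
        have : (⟨-x, by rw [← hgen]; exact AddSubgroup.neg_mem _ hx⟩ : t.D) =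
            -⟨x, by rw [← hgen]; exact hx⟩ := rfl
        rw [this, map_neg, AddSubgroup.coe_neg, hm, neg_smul]
        abel
    intro d
    exact h5 d.1 (by rw [hgen]; exact d.2)
  obtain ⟨z1, hz1⟩ := h1
  have hd0q : d0 = (φ z1).val • q := by
    rw [hd0, hk0, hk1, hz1]; exact hqz z1
  have hpq : p • q = 0 := hpD q hqD
  have hcq : (cD ⟨q, hqD⟩ : Z) = q := by
    by_cases hb : φ z1 = 0
    · obtain ⟨m, hm⟩ := hcd ⟨q, hqD⟩
      rw [hm, hd0q, hb, ZMod.val_zero, zero_smul, smul_zero, add_zero]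
    · have h5 : q = ((φ z1)⁻¹).val • d0 := by
        rw [hd0q, ← mul_smul]
        have h6 : ((((φ z1)⁻¹).val * (φ z1).val : ℕ) : ZMod p) = ((1 : ℕ) : ZMod p) := by
          push_cast
          rw [ZMod.natCast_zmod_val, ZMod.natCast_zmod_val, inv_mul_cancel₀ hb]
        rw [ZMod.natCast_eq_natCast_iff] at h6
        have h7 : ∀ i j : ℕ, i ≡ j [MOD p] → i • q = j • q := by
          intro i j hij
          have h8 : ∀ i : ℕ, i • q = (i % p) • q := by
            intro i
            conv_lhs => rw [← Nat.mod_add_div i p, add_smul, mul_comm, mul_smul, hpq, smul_zero, add_zero]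
          rw [h8 i, h8 j, hij]
        rw [h7 _ _ h6, one_smul]
      have h6 : (⟨q, hqD⟩ : t.D) = ((φ z1)⁻¹).val • ⟨d0, hdm 0⟩ := Subtype.ext h5
      rw [h6, map_nsmul, AddSubgroup.coe_nsmul, hc0, ← h5]
  -- the automorphism of Z
  obtain ⟨c, hcc, hcζ⟩ := exists_extend p t.D φ hφD ζ hφζ1 hqD cD (ζ + t.π (e 0))
    (by rw [map_add, hφζ1, (hφD _).2 h2, add_zero]; exact one_ne_zero)
    (by rw [smul_add, hpD _ h2, add_zero]; exact hcq.symm)
  have hc0' : c d0 = d0 := (hcc ⟨d0, hdm 0⟩).trans hc0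
  have hc1' : c d1 = d1 := (hcc ⟨d1, hdm 1⟩).trans hc1
  have hc2' : c d2 = d2 - d0 := (hcc ⟨d2, hdm 2⟩).trans hc2
  have e01 : t.β (g (k 0)) (g (k 1)) = d0 := by rw [hg0, hg1]
  have e02 : t.β (g (k 0)) (g (k 2)) = d1 := by
    rw [hg0, hg2, map_add, t.alt, add_zero]
  have e12 : t.β (g (k 1)) (g (k 2)) = d2 - d0 := by
    rw [hg1, hg2, map_add, t.skew (k 1) (k 0), ← sub_eq_add_neg]
  have hπ : ∀ d ∈ t.D, ∃ z, d - c d = p • z := by
    intro d hd
    obtain ⟨m, hm⟩ := hcd ⟨d, hd⟩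
    have h5 : c d = d + m • d0 := (hcc ⟨d, hd⟩).trans hm
    refine ⟨-(m • z1), ?_⟩
    have h6 : d0 = p • z1 := by rw [hd0, hk0, hk1, hz1]
    rw [h5, h6, smul_neg, smul_comm p m z1]
    abel
  refine nonFree_of_basis p t k hspan g c ⟨k 2, ?_⟩ ?_ ?_
  · rw [hg2]
    intro h
    have h5 : k 0 = 0 := by
      have := add_eq_left.1 h
      exact this
    exact hkli.ne_zero 0 h5
  · intro i j
    fin_cases i <;> fin_cases j <;>
      simp only [Fin.zero_eta, Fin.mk_one, Fin.reduceFinMk, Fin.isValue]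
    · rw [t.alt, t.alt, map_zero]
    · rw [e01]; exact hc0'
    · rw [e02]; exact hc1'
    · rw [t.skew (k 1), t.skew (g (k 1)), map_neg, e01]; exact congrArg _ hc0'
    · rw [t.alt, t.alt, map_zero]
    · rw [e12]; exact hc2'
    · rw [t.skew (k 2), t.skew (g (k 2)), map_neg, e02]; exact congrArg _ hc1'
    · rw [t.skew (k 2), t.skew (g (k 2)), map_neg, e12]; exact congrArg _ hc2'
    · rw [t.alt, t.alt, map_zero]
  · intro i
    fin_cases i <;>
      simp only [Fin.zero_eta, Fin.mk_one, Fin.reduceFinMk, Fin.isValue]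
    · rw [hg0]; exact hπ _ h2
    · rw [hg1]; exact hπ _ h3
    · rw [hg2]
      obtain ⟨z, hz⟩ := t.add (k 2) (k 0)
      refine ⟨z, ?_⟩
      have h5 : c (t.π (k 2)) = ζ + t.π (e 0) := hcζ
      rw [h5, ← hz, hk0, hk2]
      abel

end MP_02e52a.M7
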