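import Pool.Agent.Lib.MP_02e52a_al.M7.AddTools

namespace MP_02e52a.M7

open Module

private theorem T33n4_val {p : ℕ} [Fact p.Prime] {M : Type*} [AddCommGroup M] [Module (ZMod p) M]
    (a : ZMod p) (m : M) : a.val • m = a • m := by
  rw [← Nat.cast_smul_eq_nsmul (ZMod p), ZMod.natCast_zmod_val]

private theorem T33n4_main (p : ℕ) [Fact p.Prime] (hp : p ≠ 2) {V Z : Type*} [AddCommGroup V]
    [AddCommGroup Z] [Finite Z] [Module (ZMod p) V] (hV : finrank (ZMod p) V = 3) (t : TD p V Z)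
    (hD : Nat.card t.D = p ^ 3)
    [Module (ZMod p) t.D] [Module (ZMod p) (Z ⧸ (nsmulAddMonoidHom p : Z →+ Z).range)]
    (hDp : ∀ d ∈ t.D, p • d = 0)
    (φ : Z →+ ZMod p) (hφD : ∀ z, φ z = 0 ↔ z ∈ t.D)
    (hφζ : ∀ ζ, φ ζ = 1 → p • ζ ≠ 0 ∧ p • ζ ∈ t.D ∧ ∀ z, p • z = (φ z).val • (p • ζ))
    (e : Fin 3 → V) (he : LinearIndependent (ZMod p) e) (h1 : ∃ z, t.β (e 0) (e 1) = p • z)
    (h2 : t.π (e 0) ∈ t.D) (h3 : t.π (e 2) ∈ t.D) (h4 : φ (t.π (e 1)) = 1) : t.NonFree := by
  classical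
  have hfin : Module.Finite (ZMod p) V := Module.finite_of_finrank_pos (by rw [hV]; norm_num)
  have hcardF : Fintype.card (Fin 3) = finrank (ZMod p) V := by rw [hV, Fintype.card_fin]
  have hspan : Submodule.span (ZMod p) (Set.range e) = ⊤ :=
    he.span_eq_top_of_card_eq_finrank' hcardF
  -- the linear versions of the maps
  obtain ⟨B, hB⟩ : ∃ B : V →ₗ[ZMod p] V →ₗ[ZMod p] t.D, ∀ u v, ((B u v : t.D) : Z) = t.β u v :=
    ⟨AddMonoidHom.toZModLinearMap p (AddMonoidHom.mk' (fun u =>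
      AddMonoidHom.toZModLinearMap p (AddMonoidHom.mk'
        (fun v => (⟨t.β u v, t.β_mem_D u v⟩ : t.D))
        (fun v v' => Subtype.ext (by
          change t.β u (v + v') = t.β u v + t.β u v'
          rw [map_add]))))
      (fun u u' => by
        ext v
        change t.β (u + u') v = t.β u v + t.β u' v
        rw [map_add, AddMonoidHom.add_apply])), fun u v => rfl⟩
  have hBalt : ∀ u, B u u = 0 := fun u => Subtype.ext (by rw [hB, t.alt]; rfl)
  have hBskew : ∀ u v, B u v = - B v u := fun u v => Subtype.ext (by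
    rw [hB, t.skew]
    change - t.β v u = - ((B v u : t.D) : Z)
    rw [hB])
  let mk : Z →+ (Z ⧸ (nsmulAddMonoidHom p : Z →+ Z).range) := QuotientAddGroup.mk' _
  have hmkp : ∀ z, mk (p • z) = 0 := fun z => (QuotientAddGroup.eq_zero_iff _).2 ⟨z, rfl⟩
  have hmkeq : ∀ a b, mk a = mk b → ∃ z, a - b = p • z := by
    intro a b h
    have h5 : mk (a - b) = 0 := by rw [map_sub, h, sub_self]
    obtain ⟨z, hz⟩ := (QuotientAddGroup.eq_zero_iff _).1 h5
    exact ⟨z, hz.symm⟩
  let mkD : t.D →ₗ[ZMod p] (Z ⧸ (nsmulAddMonoidHom p : Z →+ Z).range) :=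
    AddMonoidHom.toZModLinearMap p (mk.comp t.D.subtype)
  have hmkD : ∀ d : t.D, mkD d = mk (d : Z) := fun d => rfl
  let pb : V →ₗ[ZMod p] (Z ⧸ (nsmulAddMonoidHom p : Z →+ Z).range) :=
    AddMonoidHom.toZModLinearMap p (AddMonoidHom.mk' (fun v => mk (t.π v)) (by
      intro u v
      obtain ⟨z, hz⟩ := t.add u v
      have h5 : t.π (u + v) = p • z + t.π v + t.π u := by
        rw [← hz]
        abel
      rw [h5, map_add, map_add, hmkp, zero_add, add_comm]))
  have hpb : ∀ v, pb v = mk (t.π v) := fun v => rfl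
  -- the basis of `D`
  set d01 : t.D := B (e 0) (e 1) with hd01
  set d02 : t.D := B (e 0) (e 2) with hd02
  set d12 : t.D := B (e 1) (e 2) with hd12
  set S : Submodule (ZMod p) t.D := Submodule.span (ZMod p) (Set.range ![d01, d02, d12]) with hS
  have hSd : d01 ∈ S ∧ d02 ∈ S ∧ d12 ∈ S :=
    ⟨Submodule.subset_span ⟨0, rfl⟩, Submodule.subset_span ⟨1, rfl⟩, Submodule.subset_span ⟨2, rfl⟩⟩
  have hSe : ∀ i j, B (e i) (e j) ∈ S := by
    intro i j
    fin_cases i <;> fin_cases j
    · change B (e 0) (e 0) ∈ S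
      rw [hBalt]; exact S.zero_mem
    · exact hSd.1
    · exact hSd.2.1
    · change B (e 1) (e 0) ∈ S
      rw [hBskew]; exact S.neg_mem hSd.1
    · change B (e 1) (e 1) ∈ S
      rw [hBalt]; exact S.zero_mem
    · exact hSd.2.2
    · change B (e 2) (e 0) ∈ S
      rw [hBskew]; exact S.neg_mem hSd.2.1
    · change B (e 2) (e 1) ∈ S
      rw [hBskew]; exact S.neg_mem hSd.2.2
    · change B (e 2) (e 2) ∈ S
      rw [hBalt]; exact S.zero_mem
  have hSall : ∀ u v, B u v ∈ S := by
    have h5 : ∀ i v, B (e i) v ∈ S := by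
      intro i
      have h6 : (⊤ : Submodule (ZMod p) V) ≤ S.comap (B (e i)) := by
        rw [← hspan, Submodule.span_le]
        rintro _ ⟨j, rfl⟩
        exact hSe i j
      exact fun v => h6 trivial
    intro u v
    have h6 : (⊤ : Submodule (ZMod p) V) ≤ S.comap (B.flip v) := by
      rw [← hspan, Submodule.span_le]
      rintro _ ⟨j, rfl⟩
      exact h5 j v
    exact h6 (x := u) trivial
  have hStop : ∀ d : t.D, d ∈ S := by
    have h5 : ∀ z (hz : z ∈ t.D), (⟨z, hz⟩ : t.D) ∈ S := by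
      intro z hz
      have hz' : z ∈ AddSubgroup.closure {w | ∃ u v, w = t.β u v} := hz
      induction hz' using AddSubgroup.closure_induction with
      | mem x hx =>
        obtain ⟨u, v, rfl⟩ := hx
        have h6 := hSall u v
        have h7 : B u v = ⟨t.β u v, hz⟩ := Subtype.ext (hB u v)
        rwa [h7] at h6
      | zero => exact S.zero_mem
      | add x y hx hy ihx ihy => exact S.add_mem (ihx hx) (ihy hy)
      | neg x hx ihx => exact S.neg_mem (ihx hx)
    exact fun d => h5 d d.2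
  have hcomb : ∀ d : t.D, ∃ c0 c1 c2 : ZMod p, d = c0 • d01 + c1 • d02 + c2 • d12 := by
    intro d
    obtain ⟨c, hc⟩ := (Submodule.mem_span_range_iff_exists_fun (ZMod p)).1 (hStop d)
    refine ⟨c 0, c 1, c 2, ?_⟩
    rw [← hc, Fin.sum_univ_three]
    rfl
  have hvalD : ∀ (a : ZMod p) (d : t.D), ((a • d : t.D) : Z) = a.val • (d : Z) := by
    intro a d
    rw [← T33n4_val]
    rfl
  -- the tools for `D`
  let dd : Fin 3 → Z := ![(d01 : Z), (d02 : Z), (d12 : Z)]
  have hdd : ∀ i, dd i ∈ t.D := by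
    intro i
    fin_cases i
    · exact d01.2
    · exact d02.2
    · exact d12.2
  have hgen : AddSubgroup.closure (Set.range dd) = t.D := by
    apply le_antisymm
    · rw [AddSubgroup.closure_le]
      rintro _ ⟨i, rfl⟩
      exact hdd i
    · intro z hz
      obtain ⟨c0, c1, c2, hc⟩ := hcomb ⟨z, hz⟩
      have h5 : z = c0.val • (d01 : Z) + c1.val • (d02 : Z) + c2.val • (d12 : Z) := by
        have := congrArg Subtype.val hc
        rw [← hvalD, ← hvalD, ← hvalD]
        exact this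
      rw [h5]
      refine AddSubgroup.add_mem _ (AddSubgroup.add_mem _ ?_ ?_) ?_
      · exact AddSubgroup.nsmul_mem _ (AddSubgroup.subset_closure
          (show (d01 : Z) ∈ Set.range dd from ⟨0, rfl⟩)) _
      · exact AddSubgroup.nsmul_mem _ (AddSubgroup.subset_closure
          (show (d02 : Z) ∈ Set.range dd from ⟨1, rfl⟩)) _
      · exact AddSubgroup.nsmul_mem _ (AddSubgroup.subset_closure
          (show (d12 : Z) ∈ Set.range dd from ⟨2, rfl⟩)) _
  -- `p ζ` is a multiple of `d01`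
  set ζ : Z := t.π (e 1) with hζ
  obtain ⟨hω0, hωD, hωz⟩ := hφζ ζ h4
  have hd01ne : d01 ≠ 0 := by
    intro h
    have h5 : finrank (ZMod p) t.D = 3 := by
      have h6 := Module.natCard_eq_pow_finrank (K := ZMod p) (V := t.D)
      rw [hD, Nat.card_zmod] at h6
      exact (Nat.pow_right_injective (Fact.out : p.Prime).two_le h6).symm
    have h7 : LinearIndependent (ZMod p) ![d01, d02, d12] := by
      apply linearIndependent_of_top_le_span_of_card_eq_finrank
      · intro d _
        exact hStop d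
      · rw [h5, Fintype.card_fin]
    exact h7.ne_zero 0 h
  have hd01z : ∃ k : ZMod p, (⟨p • ζ, hωD⟩ : t.D) = k • d01 := by
    obtain ⟨z, hz⟩ := h1
    have h5 : d01 = (φ z) • (⟨p • ζ, hωD⟩ : t.D) := by
      apply Subtype.ext
      rw [hvalD, hd01, hB, hz, hωz z]
    have h6 : φ z ≠ 0 := by
      intro h
      rw [h, zero_smul] at h5
      exact hd01ne h5
    refine ⟨(φ z)⁻¹, ?_⟩
    rw [h5, smul_smul, inv_mul_cancel₀ h6, one_smul]
  obtain ⟨k, hk⟩ := hd01z
  have hmk01 : mkD d01 = 0 := by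
    rw [hmkD, hd01, hB]
    obtain ⟨z, hz⟩ := h1
    rw [hz, hmkp]
  obtain ⟨C1, B1, A1, hx0⟩ := hcomb ⟨t.π (e 0), h2⟩
  obtain ⟨C3, B3, A3, hx2⟩ := hcomb ⟨t.π (e 2), h3⟩
  set D02 := mkD d02 with hD02
  set D12 := mkD d12 with hD12
  have hpb0 : pb (e 0) = B1 • D02 + A1 • D12 := by
    have : pb (e 0) = mkD ⟨t.π (e 0), h2⟩ := rfl
    rw [this, hx0, map_add, map_add, map_smul, map_smul, map_smul, hmk01, smul_zero, zero_add]
  have hpb2 : pb (e 2) = B3 • D02 + A3 • D12 := by
    have : pb (e 2) = mkD ⟨t.π (e 2), h3⟩ := rfl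
    rw [this, hx2, map_add, map_add, map_smul, map_smul, map_smul, hmk01, smul_zero, zero_add]
  -- the construction
  have key : ∀ b c x y : ZMod p, b ≠ 0 → c ≠ 0 → A1 * b * c = A1 → A1 * x * c + B1 * c = B1 →
      A3 * b * c = c * A3 + y * A1 → A3 * x * c + B3 * c = c * B3 + y * B1 →
      ¬ (b = 1 ∧ c = 1 ∧ x = 0 ∧ y = 0) → t.NonFree := by
    intro b c x y hb hc E1 E2 E3 E4 hne
    obtain ⟨g, hg⟩ := exists_equiv_three p hV e he !![1, 0, 0; x, b, 0; y, 0, c] (by
      rw [Matrix.det_fin_three]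
      simp [hb, hc])
    have hg0 : g (e 0) = e 0 := by
      rw [hg, Fin.sum_univ_three]
      simp
    have hg1 : g (e 1) = x • e 0 + b • e 1 := by
      rw [hg, Fin.sum_univ_three]
      simp
    have hg2 : g (e 2) = y • e 0 + c • e 2 := by
      rw [hg, Fin.sum_univ_three]
      simp
    obtain ⟨cD, hcD⟩ := exists_aut_three p t.D hDp hD dd hdd hgen
      !![b, 0, 0; 0, c, 0; -(b * y), x * c, b * c] (by
      rw [Matrix.det_fin_three]
      simp [hb, hc])
    have hcD01 : cD d01 = b • d01 := by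
      apply Subtype.ext
      have := hcD 0
      rw [Fin.sum_univ_three] at this
      simp only [Matrix.cons_val_zero, Matrix.of_apply, Matrix.cons_val_one, Matrix.cons_val,
        ZMod.val_zero, zero_smul, add_zero] at this
      rw [hvalD]
      exact this
    have hcD02 : cD d02 = c • d02 := by
      apply Subtype.ext
      have := hcD 1
      rw [Fin.sum_univ_three] at this
      simp only [Matrix.cons_val_zero, Matrix.of_apply, Matrix.cons_val_one, Matrix.cons_val,
        ZMod.val_zero, zero_smul, add_zero, zero_add] at this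
      rw [hvalD]
      exact this
    have hcD12 : cD d12 = (-(b * y)) • d01 + (x * c) • d02 + (b * c) • d12 := by
      apply Subtype.ext
      have := hcD 2
      rw [Fin.sum_univ_three] at this
      simp only [Matrix.cons_val_zero, Matrix.of_apply, Matrix.cons_val_one, Matrix.cons_val]
        at this
      change ((cD d12 : t.D) : Z) = (((-(b * y)) • d01 : t.D) : Z) + (((x * c) • d02 : t.D) : Z) +
        (((b * c) • d12 : t.D) : Z)
      rw [hvalD, hvalD, hvalD]
      exact this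
    have hcDs : ∀ (a : ZMod p) (d : t.D), cD (a • d) = a • cD d := fun a d =>
      ZMod.map_smul (cD : t.D →+ t.D) a d
    have hcDc : ∀ c0 c1 c2 : ZMod p, cD (c0 • d01 + c1 • d02 + c2 • d12) =
        c0 • b • d01 + c1 • c • d02 +
          c2 • ((-(b * y)) • d01 + (x * c) • d02 + (b * c) • d12) := by
      intro c0 c1 c2
      rw [map_add, map_add, hcDs, hcDs, hcDs, hcD01, hcD02, hcD12]
    have hφ0 : φ (t.π (e 0)) = 0 := (hφD _).2 h2
    obtain ⟨c', hc'D, hc'ζ⟩ := exists_extend p t.D φ hφD ζ h4 hωD cD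
      (b.val • ζ + x.val • t.π (e 0))
      (by
        rw [map_add, map_nsmul, map_nsmul, hφ0, h4, smul_zero, add_zero, T33n4_val, smul_eq_mul,
          mul_one]
        exact hb)
      (by
        have h5 : cD ⟨p • ζ, hωD⟩ = b • (⟨p • ζ, hωD⟩ : t.D) := by
          rw [hk, hcDs, hcD01, smul_comm]
        rw [h5, hvalD, smul_add, smul_comm p b.val, smul_comm p x.val, hDp _ h2, smul_zero,
          add_zero])
    refine nonFree_of_basis p t e hspan g c' ?_ ?_ ?_
    · by_contra hcon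
      push Not at hcon
      apply hne
      rw [Fintype.linearIndependent_iff] at he
      have e1 := hcon (e 1)
      rw [hg1] at e1
      have e1' := he ![x, b - 1, 0] (by
        rw [Fin.sum_univ_three]
        simp only [Matrix.cons_val_zero, Matrix.cons_val_one, Matrix.cons_val, zero_smul, add_zero,
          sub_smul, one_smul]
        rw [← add_sub_assoc, e1, sub_self])
      have e2 := hcon (e 2)
      rw [hg2] at e2
      have e2' := he ![y, 0, c - 1] (by
        rw [Fin.sum_univ_three]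
        simp only [Matrix.cons_val_zero, Matrix.cons_val_one, Matrix.cons_val, zero_smul, add_zero,
          sub_smul, one_smul]
        rw [← add_sub_assoc, e2, sub_self])
      exact ⟨sub_eq_zero.1 (e1' 1), sub_eq_zero.1 (e2' 2), e1' 0, e2' 0⟩
    · have hc'B : ∀ u v, c' (t.β u v) = (cD (B u v) : Z) := by
        intro u v
        rw [← hB, hc'D]
      have hlift : ∀ i j, cD (B (e i) (e j)) = B (g (e i)) (g (e j)) →
          c' (t.β (e i) (e j)) = t.β (g (e i)) (g (e j)) := by
        intro i j h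
        rw [hc'B, h, hB]
      have q01 : cD (B (e 0) (e 1)) = B (g (e 0)) (g (e 1)) := by
        rw [← hd01, hcD01, hg0, hg1, map_add, map_smul, map_smul, hBalt, smul_zero, zero_add]
      have q02 : cD (B (e 0) (e 2)) = B (g (e 0)) (g (e 2)) := by
        rw [← hd02, hcD02, hg0, hg2, map_add, map_smul, map_smul, hBalt, smul_zero, zero_add]
      have q12 : cD (B (e 1) (e 2)) = B (g (e 1)) (g (e 2)) := by
        rw [← hd12, hcD12, hg1, hg2]
        simp only [map_add, map_smul, LinearMap.add_apply, LinearMap.smul_apply, hBalt]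
        rw [hBskew (e 1) (e 0), ← hd01, ← hd02, ← hd12]
        module
      have qs : ∀ i j, cD (B (e i) (e j)) = B (g (e i)) (g (e j)) →
          cD (B (e j) (e i)) = B (g (e j)) (g (e i)) := by
        intro i j h
        rw [hBskew (e j) (e i), map_neg, h, hBskew (g (e j)) (g (e i))]
      have qd : ∀ i, cD (B (e i) (e i)) = B (g (e i)) (g (e i)) := by
        intro i
        rw [hBalt, hBalt, map_zero]
      intro i j
      apply hlift
      fin_cases i <;> fin_cases j
      · exact qd 0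
      · exact q01
      · exact q02
      · exact qs 0 1 q01
      · exact qd 1
      · exact q12
      · exact qs 0 2 q02
      · exact qs 1 2 q12
      · exact qd 2
    · intro i
      apply hmkeq
      fin_cases i
      · change mk (t.π (g (e 0))) = mk (c' (t.π (e 0)))
        have h5 : c' (t.π (e 0)) = (cD ⟨t.π (e 0), h2⟩ : Z) := (hc'D ⟨t.π (e 0), h2⟩)
        rw [h5, ← hmkD, hg0, ← hpb, hpb0, hx0, hcDc]
        simp only [map_add, map_smul, hmk01, smul_zero, zero_add]
        rw [← hD02, ← hD12]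
        have h6 : B1 • c • D02 + A1 • ((x * c) • D02 + (b * c) • D12) =
            (A1 * x * c + B1 * c) • D02 + (A1 * b * c) • D12 := by module
        rw [h6, E1, E2]
      · change mk (t.π (g (e 1))) = mk (c' (t.π (e 1)))
        rw [← hζ, hc'ζ, ← hpb, hg1, map_add, map_smul, map_smul, map_add, map_nsmul, map_nsmul,
          T33n4_val, T33n4_val]
        exact add_comm _ _
      · change mk (t.π (g (e 2))) = mk (c' (t.π (e 2)))
        have h5 : c' (t.π (e 2)) = (cD ⟨t.π (e 2), h3⟩ : Z) := (hc'D ⟨t.π (e 2), h3⟩)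
        rw [h5, ← hmkD, hg2, ← hpb, map_add, map_smul, map_smul, hpb0, hpb2, hx2, hcDc]
        simp only [map_add, map_smul, hmk01, smul_zero, zero_add]
        rw [← hD02, ← hD12]
        have h6 : B3 • c • D02 + A3 • ((x * c) • D02 + (b * c) • D12) =
            (A3 * x * c + B3 * c) • D02 + (A3 * b * c) • D12 := by module
        rw [h6, E3, E4]
        module
  have h20 : (2 : ZMod p) ≠ 0 := by
    intro h
    have h5 : ((2 : ℕ) : ZMod p) = 0 := by exact_mod_cast h
    rw [ZMod.natCast_eq_zero_iff] at h5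
    exact hp ((Nat.prime_dvd_prime_iff_eq Fact.out Nat.prime_two).1 h5)
  by_cases hA1 : A1 = 0
  · by_cases hBA : B1 = 0 ∧ A3 = 0
    · refine key 1 1 1 0 one_ne_zero one_ne_zero (by ring) (by rw [hA1]; ring)
        (by rw [hBA.2]; ring) (by rw [hBA.2]; ring) ?_
      rintro ⟨-, -, h, -⟩
      exact one_ne_zero h
    · refine key 1 1 B1 A3 one_ne_zero one_ne_zero (by ring) (by rw [hA1]; ring)
        (by rw [hA1]; ring) (by ring) ?_
      rintro ⟨-, -, h, h'⟩
      exact hBA ⟨h, h'⟩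
  · refine key (-1) (-1) (-2 * B1 / A1) (2 * A3 / A1) (neg_ne_zero.2 one_ne_zero)
      (neg_ne_zero.2 one_ne_zero) (by ring) (by field_simp; ring) (by field_simp; ring)
      (by field_simp; ring) ?_
    rintro ⟨h, -⟩
    apply h20
    have h5 : (2 : ZMod p) = 1 - (-1) := by norm_num
    rw [h5, h, sub_self]

/-- [M7 T33n-4] basis `e` with `β (e 0) (e 1) ∈ p Z`, `π (e 0) ∈ D`, `π (e 2) ∈ D`, `π (e 1) ∉ D`. PROOF: scaling `e 1` we may
assume `φ (π (e 1)) = 1`, `ζ = π (e 1)`. Write `d01 = β (e 0) (e 1)` (generates `p Z`), `d02`, `d12` similarly; modulo `p Z = ℤ d01`: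
`π (e 0) = A1 d12 + B1 d02`, `π (e 2) = A3 d12 + B3 d02` with `A1, B1, A3, B3 ∈ F = ZMod p`. For `b, c, x, y ∈ F`, `b, c ≠ 0`, let
`g (e 0) = e 0`, `g (e 1) = b e 1 + x e 0`, `g (e 2) = c e 2 + y e 0`; on `D`: `d01 ↦ b d01`, `d02 ↦ c d02`,
`d12 ↦ β (b e 1 + x e 0) (c e 2 + y e 0) = b c d12 + x c d02 - b y d01`; `ζ ↦ b.val • ζ + x.val • π (e 0)`
(allowed: `p •` of it is `b.val • (p • ζ)`, and `p • ζ ∈ ℤ d01` is multiplied by `b`). Conditions modulo `p Z`:
`e 0`: `A1 (b c d12 + x c d02) + B1 c d02 = A1 d12 + B1 d02`, i.e. `A1 b c = A1` and `A1 x c + B1 c = B1`;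
`e 2`: `A3 (b c d12 + x c d02) + B3 c d02 = c (A3 d12 + B3 d02) + y (A1 d12 + B1 d02)`, i.e. `A3 b c = c A3 + y A1` and
`A3 x c = y B1`; `e 1`: `π (b e 1 + x e 0) = b ζ + x π (e 0)` modulo `p Z`: holds.
If `A1 ≠ 0`: `b = c = -1`, `x = -2 B1 / A1`, `y = 2 A3 / A1` solves all four (check: `A1 x c + B1 c = 2 B1 - B1 = B1`;
`c A3 + y A1 = -A3 + 2 A3 = A3`; `A3 x c = 2 A3 B1 / A1 = y B1`); `g ≠ 1` as `p ≠ 2`. If `A1 = 0`: `b = c = 1` and
`(x, y) = (B1, A3)` if this is not `(0, 0)`, else `(x, y) = (1, 0)`: the conditions reduce to `A3 x = y B1`. -/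
theorem T33n_4 (p : ℕ) [Fact p.Prime] (hp : p ≠ 2) {V Z : Type*} [AddCommGroup V] [AddCommGroup Z] [Finite Z]
    [Module (ZMod p) V] (hV : finrank (ZMod p) V = 3) (t : TD p V Z) (hZ : Nat.card Z = p ^ 4)
    (hD : Nat.card t.D = p ^ 3) (hpZ : ∃ z : Z, p • z ≠ 0)
    (e : Fin 3 → V) (he : LinearIndependent (ZMod p) e) (h1 : ∃ z, t.β (e 0) (e 1) = p • z)
    (h2 : t.π (e 0) ∈ t.D) (h3 : t.π (e 2) ∈ t.D) (h4 : t.π (e 1) ∉ t.D) : t.NonFree := by
  classical
  have hpV : ∀ v : V, p • v = 0 := by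
    intro v
    rw [← Nat.cast_smul_eq_nsmul (ZMod p), ZMod.natCast_self, zero_smul]
  have hDp : ∀ d ∈ t.D, p • d = 0 := by
    intro d hd
    unfold TD.D at hd
    induction hd using AddSubgroup.closure_induction with
    | mem x hx =>
      obtain ⟨u, v, rfl⟩ := hx
      rw [← AddMonoidHom.nsmul_apply, ← map_nsmul, hpV, map_zero, AddMonoidHom.zero_apply]
    | zero => exact smul_zero _
    | add x y _ _ hx hy => rw [smul_add, hx, hy, add_zero]
    | neg x _ hx => rw [smul_neg, hx, neg_zero]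
  obtain ⟨φ, hφD, -, hφp, hφζ⟩ := exists_phi p t.D hDp (by rw [hZ, hD]; ring) hpZ
  have hφpz : ∀ z, φ (p • z) = 0 := by
    intro z
    rw [map_nsmul, nsmul_eq_mul, ZMod.natCast_self, zero_mul]
  let f : V →ₗ[ZMod p] ZMod p := AddMonoidHom.toZModLinearMap p
    (AddMonoidHom.mk' (fun v => φ (t.π v)) (by
      intro u v
      obtain ⟨z, hz⟩ := t.add u v
      have h1 : t.π (u + v) = p • z + t.π v + t.π u := by
        rw [← hz]
        abel
      rw [h1, map_add, map_add, hφpz, zero_add, add_comm]))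
  have hf : ∀ v, f v = φ (t.π v) := fun v => rfl
  set s : ZMod p := f (e 1) with hs
  have hs0 : s ≠ 0 := by
    intro h
    apply h4
    rw [← hφD, ← hf]
    exact h
  have _i1 : Module (ZMod p) t.D := AddCommGroup.zmodModule (n := p) (by
    intro d
    apply Subtype.ext
    exact hDp d d.2)
  have _i2 : Module (ZMod p) (Z ⧸ (nsmulAddMonoidHom p : Z →+ Z).range) :=
    AddCommGroup.zmodModule (n := p) (by
      intro d
      obtain ⟨z, rfl⟩ := QuotientAddGroup.mk_surjective d
      rw [← QuotientAddGroup.mk_nsmul, QuotientAddGroup.eq_zero_iff]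
      exact ⟨z, rfl⟩)
  have he' : LinearIndependent (ZMod p) ![e 0, s⁻¹ • e 1, e 2] := by
    have h5 := he.units_smul ![1, (Units.mk0 s⁻¹ (inv_ne_zero hs0)), 1]
    convert h5 using 1
    funext i
    fin_cases i
    · change e 0 = (1 : (ZMod p)ˣ) • e 0
      rw [one_smul]
    · rfl
    · change e 2 = (1 : (ZMod p)ˣ) • e 2
      rw [one_smul]
  refine T33n4_main p hp hV t hD hDp φ hφD hφζ ![e 0, s⁻¹ • e 1, e 2] he' ?_ h2 h3 ?_
  · obtain ⟨z, hz⟩ := h1
    refine ⟨(s⁻¹).val • z, ?_⟩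
    change t.β (e 0) (s⁻¹ • e 1) = p • (s⁻¹).val • z
    rw [← T33n4_val, map_nsmul, hz, smul_comm]
  · change f (s⁻¹ • e 1) = 1
    rw [map_smul, ← hs, smul_eq_mul, inv_mul_cancel₀ hs0]

end MP_02e52a.M7
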