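import Pool.Agent.Lib.MP_02e52a_al.M7.T33n1
import Pool.Agent.Lib.MP_02e52a_al.M7.T33n2
import Pool.Agent.Lib.MP_02e52a_al.M7.T33n3
import Pool.Agent.Lib.MP_02e52a_al.M7.T33n4

namespace MP_02e52a.M7

open Module

private theorem T33n_range2 {V : Type*} (x y : V) : Set.range ![x, y] = {x, y} := by
  rw [Matrix.range_cons, Matrix.range_cons, Matrix.range_empty, Set.union_empty]
  rfl

private theorem T33n_lin3 {F V : Type*} [Field F] [AddCommGroup V] [Module F V] {x y z : V}
    (h : LinearIndependent F ![x, y]) (hz : z ∉ Submodule.span F ({x, y} : Set V)) :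
    LinearIndependent F ![x, y, z] := by
  have h1 : (![x, y, z] : Fin 3 → V) = Fin.snoc (α := fun _ => V) ![x, y] z := by
    funext i
    fin_cases i <;> rfl
  rw [h1]
  refine linearIndependent_finSnoc.2 ⟨h, ?_⟩
  rw [T33n_range2]
  exact hz

/-- a second vector of a plane -/
private theorem T33n_second {F V : Type*} [Field F] [AddCommGroup V] [Module F V]
    [Module.Finite F V] {P : Submodule F V} (hP : finrank F P = 2) {v : V} (hv : v ∈ P)
    (hv0 : v ≠ 0) : ∃ w ∈ P, LinearIndependent F ![v, w] ∧ P = Submodule.span F ({v, w} : Set V) := by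
  have h1 : ∃ w ∈ P, w ∉ Submodule.span F ({v} : Set V) := by
    by_contra hc
    push Not at hc
    have h2 : P ≤ Submodule.span F ({v} : Set V) := hc
    have h3 := Submodule.finrank_mono h2
    rw [hP, finrank_span_singleton hv0] at h3
    omega
  obtain ⟨w, hw, hwv⟩ := h1
  have h4 : LinearIndependent F ![v, w] := by
    rw [LinearIndependent.pair_iff' hv0]
    intro a ha
    exact hwv (by rw [← ha]; exact Submodule.smul_mem _ _ (Submodule.mem_span_singleton_self v))
  refine ⟨w, hw, h4, ?_⟩
  symm
  apply Submodule.eq_of_le_of_finrank_eq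
  · rw [Submodule.span_le]
    rintro u (rfl | rfl)
    · exact hv
    · exact hw
  · rw [← T33n_range2, finrank_span_eq_card h4, Fintype.card_fin, hP]

private theorem T33n_pig {X Y : Type*} [AddCommGroup X] [AddCommGroup Y] [Finite X] [Finite Y]
    (M : X →+ Y) (h : Nat.card Y < Nat.card X) : ∃ x, x ≠ 0 ∧ M x = 0 := by
  by_contra hc
  push Not at hc
  have hinj : Function.Injective M := by
    rw [injective_iff_map_eq_zero]
    intro x hx
    by_contra hne
    exact hc x hne hx
  have := Nat.card_le_card_of_injective M hinj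
  omega

/-- [M7 T33n-0] Assembly: `dim V = 3`, `|Z| = p^4`, `|D| = p^3`, `p Z ≠ 0`. PROOF. Let `ω = p • ζ` generate `p Z` (order `p`,
`≤ D`). By `exists_isotropic_add` with `E = ` the subgroup `p Z` (`|D| = p^3 ≤ p^2 |p Z|`) there are independent `x, y ∈ V` with
`β x y ∈ p Z`; `P = span (x, y)`. `f = φ ∘ π : V → ZMod p` is additive.
* `f = 0`: all `π v ∈ D`. The map `V → D ⧸ p Z` induced by `π` is additive from order `p^3` to order `p^2`: there is
  `v0 ≠ 0` with `π v0 ∈ p Z`. If `v0 ∉ P`: T33n-1 with `e = (x, y, v0)`. If `v0 ∈ P`: choose `y' ∈ P` independent of `v0`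
  (`β v0 y'` is a multiple of `β x y`, in `p Z`) and `e 2 ∉ P`: T33n-2 with `e = (v0, y', e 2)`.
* `f ≠ 0`: `K = ker f` has dimension 2. If `P = K`: T33n-3 with `e = (x, y, anything outside P)`. If `P ≠ K`: `P ∩ K` is a line
  `F e0`, `P = span (e0, e1)`, `K = span (e0, e2)`, `e0, e1, e2` is a basis, `π e0, π e2 ∈ D`, `π e1 ∉ D`,
  `β e0 e1 ∈ p Z`: T33n-4. -/
theorem T33n (p : ℕ) [Fact p.Prime] (hp : p ≠ 2) {V Z : Type*} [AddCommGroup V] [AddCommGroup Z] [Finite Z]
    [Module (ZMod p) V] (hV : finrank (ZMod p) V = 3) (t : TD p V Z) (hZ : Nat.card Z = p ^ 4)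
    (hD : Nat.card t.D = p ^ 3) (hpZ : ∃ z : Z, p • z ≠ 0) : t.NonFree := by
  classical
  have hp0 : 0 < p := (Fact.out : p.Prime).pos
  have hp1 : 1 < p := (Fact.out : p.Prime).one_lt
  have hfin : Module.Finite (ZMod p) V := Module.finite_of_finrank_pos (by rw [hV]; norm_num)
  have hVfin : Finite V := Module.finite_of_finite (ZMod p)
  have hpV : ∀ v : V, p • v = 0 := by
    intro v
    rw [← Nat.cast_smul_eq_nsmul (ZMod p), ZMod.natCast_self, zero_smul]
  have hDp : ∀ d ∈ t.D, p • d = 0 := by
    intro d hd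
    unfold TD.D at hd
    induction hd using AddSubgroup.closure_induction with
    | mem x hx =>
      obtain ⟨u, v, rfl⟩ := hx
      rw [← AddMonoidHom.nsmul_apply, ← map_nsmul, hpV, map_zero, AddMonoidHom.zero_apply]
    | zero => exact smul_zero _
    | add x y _ _ hx hy => rw [smul_add, hx, hy, add_zero]
    | neg x _ hx => rw [smul_neg, hx, neg_zero]
  obtain ⟨φ, hφD, -, hφp, -⟩ := exists_phi p t.D hDp (by rw [hZ, hD]; ring) hpZ
  have hφpz : ∀ z, φ (p • z) = 0 := by
    intro z
    rw [map_nsmul, nsmul_eq_mul, ZMod.natCast_self, zero_mul]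
  -- the functional `f`
  let f : V →ₗ[ZMod p] ZMod p := AddMonoidHom.toZModLinearMap p
    (AddMonoidHom.mk' (fun v => φ (t.π v)) (by
      intro u v
      obtain ⟨z, hz⟩ := t.add u v
      have h1 : t.π (u + v) = p • z + t.π v + t.π u := by
        rw [← hz]
        abel
      rw [h1, map_add, map_add, hφpz, zero_add, add_comm]))
  have hf : ∀ v, f v = φ (t.π v) := fun v => rfl
  have hfD : ∀ v, f v = 0 ↔ t.π v ∈ t.D := fun v => by rw [hf, hφD]
  -- the subgroup `pZ`
  let pm : Z →+ Z := nsmulAddMonoidHom p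
  have hpm : ∀ z, pm z = p • z := fun z => rfl
  have hrangeD : pm.range ≤ t.D := by
    rintro _ ⟨z, rfl⟩
    rw [← hφD, hpm, hφpz]
  have hker : pm.ker = t.D := by
    ext z
    rw [AddMonoidHom.mem_ker, hpm, ← hφp, hφD]
  have hcardR : Nat.card pm.range = p := by
    have h2 : Nat.card pm.range * Nat.card pm.ker = Nat.card Z := by
      have := AddSubgroup.index_ker pm
      rw [← this, mul_comm]
      exact AddSubgroup.card_mul_index pm.ker
    rw [hker, hD, hZ] at h2
    have h3 : Nat.card pm.range * p ^ 3 = p * p ^ 3 := by rw [h2]; ring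
    exact Nat.eq_of_mul_eq_mul_right (by positivity) h3
  -- the isotropic plane
  let bV : Basis (Fin 3) (ZMod p) V := finBasisOfFinrankEq _ _ hV
  obtain ⟨x, -, y, -, hxy, hβ⟩ := exists_isotropic_add p t bV bV.linearIndependent pm.range
    (by
      rw [hD, inf_eq_right.2 hrangeD, hcardR]
      exact le_of_eq (by ring))
  set P : Submodule (ZMod p) V := Submodule.span (ZMod p) ({x, y} : Set V) with hP
  have hPr : finrank (ZMod p) P = 2 := by
    rw [hP, ← T33n_range2, finrank_span_eq_card hxy, Fintype.card_fin]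
  have hsm : ∀ (x : ZMod p) (u v : V), t.β (x • u) v = x.val • t.β u v := by
    intro x u v
    have h1 : x • u = x.val • u := by
      rw [← Nat.cast_smul_eq_nsmul (ZMod p), ZMod.natCast_zmod_val]
    rw [h1, map_nsmul, AddMonoidHom.nsmul_apply]
  have hsm' : ∀ (x : ZMod p) (u v : V), t.β u (x • v) = x.val • t.β u v := by
    intro x u v
    have h1 : x • v = x.val • v := by
      rw [← Nat.cast_smul_eq_nsmul (ZMod p), ZMod.natCast_zmod_val]
    rw [h1, map_nsmul]
  have hPP : ∀ a ∈ P, ∀ b ∈ P, t.β a b ∈ pm.range := by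
    intro a ha b hb
    rw [hP, Submodule.mem_span_pair] at ha hb
    obtain ⟨s, s', rfl⟩ := ha
    obtain ⟨r, r', rfl⟩ := hb
    have h21 : t.β y x ∈ pm.range := by
      rw [t.skew]
      exact pm.range.neg_mem hβ
    simp only [map_add, AddMonoidHom.add_apply, hsm, hsm', t.alt, smul_zero, zero_add, add_zero]
    exact pm.range.add_mem (pm.range.nsmul_mem (pm.range.nsmul_mem h21 _) _)
      (pm.range.nsmul_mem (pm.range.nsmul_mem hβ _) _)
  have hPPz : ∀ a ∈ P, ∀ b ∈ P, ∃ z, t.β a b = p • z := by
    intro a ha b hb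
    obtain ⟨z, hz⟩ := hPP a ha b hb
    exact ⟨z, hz.symm⟩
  have hxP : x ∈ P := Submodule.subset_span (by simp)
  have hyP : y ∈ P := Submodule.subset_span (by simp)
  have hout : ∃ u, u ∉ P := by
    by_contra hc
    push Not at hc
    have : P = ⊤ := by
      rw [eq_top_iff]
      intro u _
      exact hc u
    rw [this, finrank_top] at hPr
    omega
  by_cases hf0 : f = 0
  · -- all `π v` in `D`
    have hall : ∀ v, t.π v ∈ t.D := fun v => by
      rw [← hfD, hf0, LinearMap.zero_apply]
    set N : AddSubgroup t.D := pm.range.addSubgroupOf t.D with hN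
    have hcardN : Nat.card N = p :=
      (Nat.card_congr (AddSubgroup.addSubgroupOfEquivOfLe hrangeD).toEquiv).trans hcardR
    have hcardQ : Nat.card (t.D ⧸ N) = p ^ 2 := by
      have h1 := AddSubgroup.card_eq_card_quotient_mul_card_addSubgroup N
      rw [hcardN, hD] at h1
      have h3 : Nat.card (t.D ⧸ N) * p = p ^ 2 * p := by rw [← h1]; ring
      exact Nat.eq_of_mul_eq_mul_right hp0 h3
    let q : V →+ (t.D ⧸ N) := AddMonoidHom.mk'
      (fun a => QuotientAddGroup.mk (⟨t.π a, hall a⟩ : t.D)) (by
        intro a b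
        rw [← QuotientAddGroup.mk_add]
        symm
        rw [QuotientAddGroup.eq, hN, AddSubgroup.mem_addSubgroupOf]
        obtain ⟨z, hz⟩ := t.add a b
        refine ⟨z, ?_⟩
        rw [hpm, ← hz]
        change t.π (a + b) - t.π a - t.π b = -(t.π a + t.π b) + t.π (a + b)
        abel)
    obtain ⟨v0, hv0, hq⟩ := T33n_pig q (by
      rw [hcardQ, Module.natCard_eq_pow_finrank (K := ZMod p), hV, Nat.card_zmod]
      exact Nat.pow_lt_pow_right hp1 (by norm_num))
    have hv0z : ∃ z, t.π v0 = p • z := by
      have h1 : (QuotientAddGroup.mk (⟨t.π v0, hall v0⟩ : t.D) : t.D ⧸ N) = 0 := hq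
      rw [QuotientAddGroup.eq_zero_iff, hN, AddSubgroup.mem_addSubgroupOf] at h1
      obtain ⟨z, hz⟩ := h1
      exact ⟨z, hz.symm⟩
    by_cases hvP : v0 ∈ P
    · obtain ⟨y', hy', hind, hPe⟩ := T33n_second hPr hvP hv0
      obtain ⟨u, hu⟩ := hout
      exact T33n_2 p hV t hZ hD hpZ hall ![v0, y', u]
        (T33n_lin3 hind (by rw [← hPe]; exact hu)) (hPPz v0 hvP y' hy') hv0z
    · exact T33n_1 p hp hV t hZ hD hpZ hall ![x, y, v0] (T33n_lin3 hxy hvP)
        (hPPz x hxP y hyP) hv0z
  · have hK : finrank (ZMod p) (LinearMap.ker f) = 2 := by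
      have h1 := LinearMap.finrank_range_add_finrank_ker f
      have h2 : finrank (ZMod p) (LinearMap.range f) = 1 := by
        have h3 : LinearMap.range f = ⊤ := LinearMap.range_eq_top.2 (LinearMap.surjective hf0)
        rw [h3, finrank_top, finrank_self]
      omega
    by_cases hPK : P = LinearMap.ker f
    · obtain ⟨u, hu⟩ := hout
      refine T33n_3 p hV t hZ hD hpZ ![x, y, u] (T33n_lin3 hxy hu) (hPPz x hxP y hyP) ?_ ?_ ?_
      · change t.π x ∈ t.D
        rw [← hfD]
        rw [hPK] at hxP
        exact hxP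
      · change t.π y ∈ t.D
        rw [← hfD]
        rw [hPK] at hyP
        exact hyP
      · change t.π u ∉ t.D
        rw [← hfD]
        rw [hPK] at hu
        exact hu
    · -- the line `P ∩ K`
      have hsup : finrank (ZMod p) (P ⊔ LinearMap.ker f : Submodule (ZMod p) V) = 3 := by
        have h1 : finrank (ZMod p) (P ⊔ LinearMap.ker f : Submodule (ZMod p) V) ≤ 3 := by
          rw [← hV]
          exact Submodule.finrank_le _
        have h2 : 2 < finrank (ZMod p) (P ⊔ LinearMap.ker f : Submodule (ZMod p) V) := by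
          rw [← hPr]
          refine Submodule.finrank_lt_finrank_of_lt (lt_of_le_of_ne le_sup_left ?_)
          intro h
          apply hPK
          symm
          apply Submodule.eq_of_le_of_finrank_eq
          · rw [h]
            exact le_sup_right
          · rw [hK, hPr]
        omega
      have hinf : finrank (ZMod p) (P ⊓ LinearMap.ker f : Submodule (ZMod p) V) = 1 := by
        have := Submodule.finrank_sup_add_finrank_inf_eq P (LinearMap.ker f)
        omega
      obtain ⟨⟨e0, he0⟩, he00, -⟩ := finrank_eq_one_iff'.1 hinf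
      have he0' : e0 ≠ 0 := by
        intro h
        apply he00
        exact Subtype.ext h
      obtain ⟨e1, he1, hind1, hPe⟩ := T33n_second hPr he0.1 he0'
      obtain ⟨e2, he2, hind2, hKe⟩ := T33n_second hK he0.2 he0'
      have he2P : e2 ∉ P := by
        intro h
        apply hPK
        symm
        apply Submodule.eq_of_le_of_finrank_eq
        · rw [hKe, Submodule.span_le]
          rintro u (rfl | rfl)
          · exact he0.1
          · exact h
        · rw [hK, hPr]
      have he1K : e1 ∉ LinearMap.ker f := by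
        intro h
        apply hPK
        apply Submodule.eq_of_le_of_finrank_eq
        · rw [hPe, Submodule.span_le]
          rintro u (rfl | rfl)
          · exact he0.2
          · exact h
        · rw [hK, hPr]
      refine T33n_4 p hp hV t hZ hD hpZ ![e0, e1, e2] (T33n_lin3 hind1 (by rw [← hPe]; exact he2P))
        (hPPz e0 he0.1 e1 he1) ?_ ?_ ?_
      · change t.π e0 ∈ t.D
        rw [← hfD]
        exact he0.2
      · change t.π e2 ∈ t.D
        rw [← hfD]
        exact he2
      · change t.π e1 ∉ t.D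
        rw [← hfD]
        exact he1K

end MP_02e52a.M7
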