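import Pool.Agent.Lib.MP_02e52a_al.M7.T33e
import Pool.Agent.Lib.MP_02e52a_al.M7.T33n
import Pool.Agent.Lib.MP_02e52a_al.M7.T32e
import Pool.Agent.Lib.MP_02e52a_al.M7.T32a
import Pool.Agent.Lib.MP_02e52a_al.M7.T32n

namespace MP_02e52a.M7

open Module

private theorem TD3_lin (p : ℕ) [Fact p.Prime] {V Z : Type*} [AddCommGroup V] [AddCommGroup Z]
    [Finite Z] [Module (ZMod p) V] [Module (ZMod p) Z] (d : ℕ) (t : TD p V Z) (hZ : Nat.card Z = p ^ 4)
    (hD : Nat.card t.D = p ^ d)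
    (hND : ∀ z : Z, p • z = 0 → ∃ d ∈ t.D, ∃ v, ∃ z', z = d + t.π v + p • z')
    (h0 : ∀ z : Z, p • z = 0)
    (H : finrank (ZMod p) Z = 4 →
      ∀ (β : V →ₗ[ZMod p] V →ₗ[ZMod p] Z), (∀ v, β v v = 0) → ∀ (π : V →ₗ[ZMod p] Z)
      (D : Submodule (ZMod p) Z), finrank (ZMod p) D = d →
      Submodule.span (ZMod p) {w | ∃ u v, w = β u v} = D →
      (∀ z : Z, ∃ d ∈ D, ∃ v, z = d + π v) →
      ∃ (g : V ≃ₗ[ZMod p] V) (c : Z ≃ₗ[ZMod p] Z), (∃ v, g v ≠ v) ∧
        (∀ u v, c (β u v) = β (g u) (g v)) ∧ ∀ v, π (g v) = c (π v)) : t.NonFree := by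
  have hp1 : 1 < p := (Fact.out : p.Prime).one_lt
  have hfr : finrank (ZMod p) Z = 4 := by
    have h1 := Module.natCard_eq_pow_finrank (K := ZMod p) (V := Z)
    rw [hZ, Nat.card_zmod] at h1
    exact (Nat.pow_right_injective hp1 h1).symm
  have hadd : ∀ u v, t.π (u + v) = t.π u + t.π v := by
    intro u v
    obtain ⟨z, hz⟩ := t.add u v
    rw [h0 z] at hz
    have : t.π (u + v) - (t.π u + t.π v) = 0 := by rw [← hz]; abel
    exact sub_eq_zero.1 this
  let π0 : V →+ Z := AddMonoidHom.mk' t.π hadd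
  let π1 : V →ₗ[ZMod p] Z := π0.toZModLinearMap p
  have hπ1 : ∀ v, π1 v = t.π v := fun v => rfl
  let β1 : V →ₗ[ZMod p] V →ₗ[ZMod p] Z := LinearMap.mk₂ (ZMod p) (fun u v => t.β u v)
    (fun u u' v => by simp) (fun c u v => ZMod.map_smul (t.β.flip v) c u)
    (fun u v v' => by simp) (fun c u v => ZMod.map_smul (t.β u) c v)
  have hβ1 : ∀ u v, β1 u v = t.β u v := fun u v => rfl
  let D1 : Submodule (ZMod p) Z := AddSubgroup.toZModSubmodule p t.D
  have hD1 : ∀ z, z ∈ D1 ↔ z ∈ t.D := fun z => AddSubgroup.mem_toZModSubmodule p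
  have hcard : Nat.card D1 = Nat.card t.D := Nat.card_congr (Equiv.subtypeEquivRight hD1)
  have hfrD : finrank (ZMod p) D1 = d := by
    have h1 := Module.natCard_eq_pow_finrank (K := ZMod p) (V := D1)
    rw [hcard, hD, Nat.card_zmod] at h1
    exact (Nat.pow_right_injective hp1 h1).symm
  have hspan : Submodule.span (ZMod p) {w | ∃ u v, w = β1 u v} = D1 := by
    apply le_antisymm
    · rw [Submodule.span_le]
      rintro w ⟨u, v, rfl⟩
      exact (hD1 _).2 (t.β_mem_D u v)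
    · intro z hz
      have h1 : t.D ≤ (Submodule.span (ZMod p) {w | ∃ u v, w = β1 u v}).toAddSubgroup := by
        unfold TD.D
        rw [AddSubgroup.closure_le]
        rintro w ⟨u, v, rfl⟩
        exact Submodule.subset_span ⟨u, v, rfl⟩
      exact h1 ((hD1 z).1 hz)
  obtain ⟨g, c, hg, hc1, hc2⟩ := H hfr β1 (fun v => t.alt v) π1 D1 hfrD hspan (fun z => by
    obtain ⟨d, hd, v, z', hz⟩ := hND z (h0 z)
    refine ⟨d, (hD1 d).2 hd, v, ?_⟩
    rw [hz, h0 z', add_zero, hπ1])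
  refine ⟨g.toAddEquiv, c.toAddEquiv, hg, fun u v => ?_, fun v => ⟨0, ?_⟩⟩
  · exact hc1 u v
  · rw [smul_zero, sub_eq_zero]
    exact hc2 v

/-- [M7 TD3] PROOF. `|D| = p^3`: if `p Z ≠ 0` use `T33n`; if `p Z = 0` then `Z` is a `ZMod p`-module of dimension 4, `π` is linear,
`D` a submodule of dimension 3 which is the span of the values; `T33e`. `|D| = p^2`: if `p Z = 0` use `T32e`. If `p Z ≠ 0`: if some
`v ≠ 0` has `π v ∈ p Z` use `T32a`, otherwise `T32n`. -/
theorem TD3 (p : ℕ) [Fact p.Prime] (hp : p ≠ 2) {V Z : Type*} [AddCommGroup V] [AddCommGroup Z] [Finite Z]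
    [Module (ZMod p) V] (hV : finrank (ZMod p) V = 3) (t : TD p V Z) (hZ : Nat.card Z = p ^ 4)
    (hD : Nat.card t.D = p ^ 2 ∨ Nat.card t.D = p ^ 3)
    (hND : ∀ z : Z, p • z = 0 → ∃ d ∈ t.D, ∃ v, ∃ z', z = d + t.π v + p • z') : t.NonFree := by
  have h2 : (2 : ZMod p) ≠ 0 := by
    intro h
    have h3 : ((2 : ℕ) : ZMod p) = 0 := by exact_mod_cast h
    rw [ZMod.natCast_eq_zero_iff] at h3
    have := (Nat.prime_dvd_prime_iff_eq (Fact.out : p.Prime) Nat.prime_two).1 h3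
    exact hp this
  by_cases h0 : ∃ z : Z, p • z ≠ 0
  · rcases hD with hD | hD
    · by_cases hv : ∃ v : V, v ≠ 0 ∧ ∃ z, t.π v = p • z
      · obtain ⟨v, hv, hπ⟩ := hv
        exact T32a p hp hV t hD.le v hv hπ
      · push Not at hv
        refine T32n p hp hV t hZ hD h0 fun v hz => ?_
        by_contra hne
        obtain ⟨z, hz⟩ := hz
        exact hv v hne z hz
    · exact T33n p hp hV t hZ hD h0
  · push Not at h0
    have hmod : Nonempty (Module (ZMod p) Z) := ⟨AddCommGroup.zmodModule h0⟩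
    obtain ⟨hmod⟩ := hmod
    rcases hD with hD | hD
    · exact TD3_lin p 2 t hZ hD hND h0 (fun hZ' β alt π D hD' hspan hND' =>
        T32e h2 hV hZ' β alt π D hD' hspan hND')
    · exact TD3_lin p 3 t hZ hD hND h0 (fun hZ' β alt π D hD' hspan hND' =>
        T33e h2 hV hZ' β alt π D hD' hspan hND')

end MP_02e52a.M7
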