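import Pool.Agent.Lib.MP_02e52a_al.M7.AddTools

namespace MP_02e52a.M7

open Module

section
variable {F : Type*} [Field F] {V W : Type*} [AddCommGroup V] [Module F V] [AddCommGroup W] [Module F W]

private lemma T42na_skew (β : V →ₗ[F] V →ₗ[F] W) (alt : ∀ v, β v v = 0) (x y : V) :
    β x y = - β y x := by
  have h := alt (x + y)
  simp only [map_add, LinearMap.add_apply, alt, zero_add, add_zero] at h
  exact eq_neg_of_add_eq_zero_left (by rw [add_comm]; exact h)

private lemma T42na_build (k : Basis (Fin 4) F V) (β : V →ₗ[F] V →ₗ[F] W) (alt : ∀ v, β v v = 0)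
    (lam : V →ₗ[F] F) (h23 : β (k 2) (k 3) = 0) (s : F) (hs : s * s = 1) (t1 t2 : V)
    (x0 x1 x2 x3 : F) (ht1 : t1 = x0 • k 2 + x1 • k 3) (ht2 : t2 = x2 • k 2 + x3 • k 3)
    (hb : β t1 (k 1) + β (k 0) t2 = (s - 1) • β (k 0) (k 1))
    (hl1 : lam t1 = (s - 1) * lam (k 0)) (hl2 : lam t2 = (s - 1) * lam (k 1)) :
    ∃ g : V ≃ₗ[F] V, g (k 0) = k 0 + t1 ∧ g (k 1) = k 1 + t2 ∧ g (k 2) = s • k 2 ∧
      g (k 3) = s • k 3 ∧ (∀ u v, β (g u) (g v) = s • β u v) ∧ ∀ v, lam (g v) = s * lam v := by
  let G : V →ₗ[F] V := k.constr F ![k 0 + t1, k 1 + t2, s • k 2, s • k 3]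
  let G' : V →ₗ[F] V := k.constr F ![k 0 - s • t1, k 1 - s • t2, s • k 2, s • k 3]
  have G0 : G (k 0) = k 0 + t1 := k.constr_basis F _ 0
  have G1 : G (k 1) = k 1 + t2 := k.constr_basis F _ 1
  have G2 : G (k 2) = s • k 2 := k.constr_basis F _ 2
  have G3 : G (k 3) = s • k 3 := k.constr_basis F _ 3
  have G0' : G' (k 0) = k 0 - s • t1 := k.constr_basis F _ 0
  have G1' : G' (k 1) = k 1 - s • t2 := k.constr_basis F _ 1
  have G2' : G' (k 2) = s • k 2 := k.constr_basis F _ 2
  have G3' : G' (k 3) = s • k 3 := k.constr_basis F _ 3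
  have Gt1 : G t1 = s • t1 := by
    rw [ht1, map_add, map_smul, map_smul, G2, G3]; module
  have Gt2 : G t2 = s • t2 := by
    rw [ht2, map_add, map_smul, map_smul, G2, G3]; module
  have Gt1' : G' t1 = s • t1 := by
    rw [ht1, map_add, map_smul, map_smul, G2', G3']; module
  have Gt2' : G' t2 = s • t2 := by
    rw [ht2, map_add, map_smul, map_smul, G2', G3']; module
  have hGG' : G.comp G' = LinearMap.id := by
    apply k.ext
    intro i
    rw [LinearMap.comp_apply, LinearMap.id_apply]
    fin_cases i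
    · change G (G' (k 0)) = k 0
      rw [G0', map_sub, map_smul, G0, Gt1, smul_smul, hs, one_smul]; abel
    · change G (G' (k 1)) = k 1
      rw [G1', map_sub, map_smul, G1, Gt2, smul_smul, hs, one_smul]; abel
    · change G (G' (k 2)) = k 2
      rw [G2', map_smul, G2, smul_smul, hs, one_smul]
    · change G (G' (k 3)) = k 3
      rw [G3', map_smul, G3, smul_smul, hs, one_smul]
  have hG'G : G'.comp G = LinearMap.id := by
    apply k.ext
    intro i
    rw [LinearMap.comp_apply, LinearMap.id_apply]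
    fin_cases i
    · change G' (G (k 0)) = k 0
      rw [G0, map_add, G0', Gt1']; abel
    · change G' (G (k 1)) = k 1
      rw [G1, map_add, G1', Gt2']; abel
    · change G' (G (k 2)) = k 2
      rw [G2, map_smul, G2', smul_smul, hs, one_smul]
    · change G' (G (k 3)) = k 3
      rw [G3, map_smul, G3', smul_smul, hs, one_smul]
  have h32 : β (k 3) (k 2) = 0 := by rw [T42na_skew β alt, h23, neg_zero]
  have ht2a : ∀ i : Fin 4, (i = 2 ∨ i = 3) → β t1 (k i) = 0 ∧ β t2 (k i) = 0 := by
    intro i hi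
    rcases hi with rfl | rfl
    · constructor
      · rw [ht1]; simp [alt, h32]
      · rw [ht2]; simp [alt, h32]
    · constructor
      · rw [ht1]; simp [alt, h23]
      · rw [ht2]; simp [alt, h23]
  have ht12 : β t1 t2 = 0 := by
    rw [ht2, map_add, map_smul, map_smul, (ht2a 2 (Or.inl rfl)).1, (ht2a 3 (Or.inr rfl)).1,
      smul_zero, smul_zero, add_zero]
  have hB : ∀ u v, β (G u) (G v) = s • β u v := by
    have : β.compl₁₂ G G = s • β := by
      apply k.ext
      intro i
      apply k.ext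
      intro j
      rw [LinearMap.compl₁₂_apply, LinearMap.smul_apply, LinearMap.smul_apply]
      -- upper triangular cases are enough
      have key : ∀ a b : V, β (G a) (G b) = s • β a b → β (G b) (G a) = s • β b a := by
        intro a b hab
        rw [T42na_skew β alt, hab, T42na_skew β alt a b, smul_neg, neg_neg]
      have c01 : β (G (k 0)) (G (k 1)) = s • β (k 0) (k 1) := by
        rw [G0, G1, map_add, map_add, LinearMap.add_apply, LinearMap.add_apply, ht12, add_zero]
        have : β (k 0) (k 1) + β t1 (k 1) + β (k 0) t2 = β (k 0) (k 1) + (s - 1) • β (k 0) (k 1) := by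
          rw [← hb]; abel
        rw [this]; module
      have c02 : β (G (k 0)) (G (k 2)) = s • β (k 0) (k 2) := by
        rw [G0, G2, map_smul, map_add, LinearMap.add_apply, (ht2a 2 (Or.inl rfl)).1, add_zero]
      have c03 : β (G (k 0)) (G (k 3)) = s • β (k 0) (k 3) := by
        rw [G0, G3, map_smul, map_add, LinearMap.add_apply, (ht2a 3 (Or.inr rfl)).1, add_zero]
      have c12 : β (G (k 1)) (G (k 2)) = s • β (k 1) (k 2) := by
        rw [G1, G2, map_smul, map_add, LinearMap.add_apply, (ht2a 2 (Or.inl rfl)).2, add_zero]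
      have c13 : β (G (k 1)) (G (k 3)) = s • β (k 1) (k 3) := by
        rw [G1, G3, map_smul, map_add, LinearMap.add_apply, (ht2a 3 (Or.inr rfl)).2, add_zero]
      have c23 : β (G (k 2)) (G (k 3)) = s • β (k 2) (k 3) := by
        rw [G2, G3, map_smul, map_smul, LinearMap.smul_apply, h23, smul_zero, smul_zero]
      have cd : ∀ a : V, β (G a) (G a) = s • β a a := by
        intro a; rw [alt, alt, smul_zero]
      fin_cases i <;> fin_cases j
      · exact cd _
      · exact c01
      · exact c02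
      · exact c03
      · exact key _ _ c01
      · exact cd _
      · exact c12
      · exact c13
      · exact key _ _ c02
      · exact key _ _ c12
      · exact cd _
      · exact c23
      · exact key _ _ c03
      · exact key _ _ c13
      · exact key _ _ c23
      · exact cd _
    intro u v
    have h := congrArg (fun f => f u v) this
    simpa using h
  have hL : ∀ v, lam (G v) = s * lam v := by
    have : lam.comp G = s • lam := by
      apply k.ext
      intro i
      rw [LinearMap.comp_apply, LinearMap.smul_apply, smul_eq_mul]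
      fin_cases i
      · change lam (G (k 0)) = s * lam (k 0)
        rw [G0, map_add, hl1]; ring
      · change lam (G (k 1)) = s * lam (k 1)
        rw [G1, map_add, hl2]; ring
      · change lam (G (k 2)) = s * lam (k 2)
        rw [G2, map_smul, smul_eq_mul]
      · change lam (G (k 3)) = s * lam (k 3)
        rw [G3, map_smul, smul_eq_mul]
    intro v
    have h := congrArg (fun f => f v) this
    simpa using h
  exact ⟨LinearEquiv.ofLinearMap G G' hGG' hG'G, G0, G1, G2, G3, hB, hL⟩

private lemma T42na_lin (h2 : (2 : F) ≠ 0) (hV : finrank F V = 4) (hW : finrank F W = 2)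
    (β : V →ₗ[F] V →ₗ[F] W) (alt : ∀ v, β v v = 0) (lam : V →ₗ[F] F) :
    ∃ (g : V ≃ₗ[F] V) (s : F), (s = 1 ∨ s = -1) ∧ (∃ v, g v ≠ v) ∧
      (∀ u v, β (g u) (g v) = s • β u v) ∧ ∀ v, lam (g v) = s * lam v := by
  have : FiniteDimensional F V := FiniteDimensional.of_finrank_pos (by omega)
  have : FiniteDimensional F W := FiniteDimensional.of_finrank_pos (by omega)
  have : Nontrivial V := Module.nontrivial_of_finrank_pos (R := F) (by omega)
  obtain ⟨a1, ha1⟩ := exists_ne (0 : V)
  have hker : 2 ≤ finrank F (LinearMap.ker (β a1)) := by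
    have h1 := LinearMap.finrank_range_add_finrank_ker (β a1)
    have h3 := Submodule.finrank_le (LinearMap.range (β a1))
    omega
  obtain ⟨a2, ha2, ha2'⟩ : ∃ a2 ∈ LinearMap.ker (β a1), a2 ∉ Submodule.span F {a1} := by
    by_contra hcon
    push Not at hcon
    have h1 : LinearMap.ker (β a1) ≤ Submodule.span F {a1} := hcon
    have h3 := Submodule.finrank_mono h1
    rw [finrank_span_singleton ha1] at h3
    omega
  have hli2 : LinearIndependent F ![a1, a2] := by
    rw [LinearIndependent.pair_iff' ha1]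
    intro a h
    exact ha2' (Submodule.mem_span_singleton.mpr ⟨a, h⟩)
  obtain ⟨b2, hli3⟩ := exists_linearIndependent_cons_of_lt_finrank hli2 (by omega)
  obtain ⟨b1, hli4⟩ := exists_linearIndependent_cons_of_lt_finrank hli3 (by omega)
  let k := basisOfLinearIndependentOfCardEqFinrank hli4 (by simp [hV])
  have k2 : k 2 = a1 := by
    simp only [k, coe_basisOfLinearIndependentOfCardEqFinrank]; rfl
  have k3 : k 3 = a2 := by
    simp only [k, coe_basisOfLinearIndependentOfCardEqFinrank]; rfl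
  have h23 : β (k 2) (k 3) = 0 := by
    rw [k2, k3]; exact LinearMap.mem_ker.mp ha2
  -- the linear map `M`
  let M : (Fin 4 → F) →ₗ[F] W × F × F :=
    { toFun := fun x => (β (x 0 • k 2 + x 1 • k 3) (k 1) + β (k 0) (x 2 • k 2 + x 3 • k 3),
        lam (x 0 • k 2 + x 1 • k 3), lam (x 2 • k 2 + x 3 • k 3))
      map_add' := by
        intro x y
        ext
        · simp [add_smul]; abel
        · simp [add_mul]; ring
        · simp [add_mul]; ring
      map_smul' := by
        intro c x
        ext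
        · simp [mul_smul]
        · simp; ring
        · simp; ring }
  have hM : ∀ x, M x = (β (x 0 • k 2 + x 1 • k 3) (k 1) + β (k 0) (x 2 • k 2 + x 3 • k 3),
        lam (x 0 • k 2 + x 1 • k 3), lam (x 2 • k 2 + x 3 • k 3)) := fun _ => rfl
  have hdim : finrank F (Fin 4 → F) = finrank F (W × F × F) := by
    simp [hW]
  by_cases hinj : Function.Injective M
  · have hsurj := (LinearMap.injective_iff_surjective_of_finrank_eq_finrank hdim).mp hinj
    obtain ⟨x, hx⟩ := hsurj (((-1 : F) - 1) • β (k 0) (k 1), ((-1 : F) - 1) * lam (k 0),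
      ((-1 : F) - 1) * lam (k 1))
    rw [hM, Prod.mk.injEq, Prod.mk.injEq] at hx
    obtain ⟨g, g0, g1, g2, g3, hB, hL⟩ := T42na_build k β alt lam h23 (-1) (by ring) _ _ _ _ _ _
      rfl rfl hx.1 hx.2.1 hx.2.2
    refine ⟨g, -1, Or.inr rfl, ⟨k 2, ?_⟩, hB, hL⟩
    rw [g2]
    intro h
    have h3 : (2 : F) • k 2 = 0 := by
      rw [two_smul]
      nth_rewrite 1 [← h]
      rw [neg_smul, one_smul, neg_add_cancel]
    rcases smul_eq_zero.mp h3 with h4 | h4
    · exact h2 h4
    · exact k.ne_zero 2 h4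
  · have hker : LinearMap.ker M ≠ ⊥ := fun h => hinj (LinearMap.ker_eq_bot.mp h)
    obtain ⟨x, hx, hx0⟩ := (Submodule.ne_bot_iff _).mp hker
    rw [LinearMap.mem_ker, hM, Prod.mk_eq_zero, Prod.mk_eq_zero] at hx
    obtain ⟨g, g0, g1, g2, g3, hB, hL⟩ := T42na_build k β alt lam h23 1 (by ring) _ _ _ _ _ _
      rfl rfl (by rw [hx.1, sub_self, zero_smul]) (by rw [hx.2.1, sub_self, zero_mul])
      (by rw [hx.2.2, sub_self, zero_mul])
    refine ⟨g, 1, Or.inl rfl, ?_, hB, hL⟩
    by_contra hcon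
    push Not at hcon
    apply hx0
    have e0 := hcon (k 0)
    have e1 := hcon (k 1)
    rw [g0, add_eq_left] at e0
    rw [g1, add_eq_left] at e1
    have hli : LinearIndependent F ![k 2, k 3] := by rw [k2, k3]; exact hli2
    rw [LinearIndependent.pair_iff] at hli
    have f0 := hli _ _ e0
    have f1 := hli _ _ e1
    funext i
    fin_cases i
    · exact f0.1
    · exact f0.2
    · exact f1.1
    · exact f1.2

end

private lemma T42na_quot (p : ℕ) [Fact p.Prime] {D : Type*} [AddCommGroup D] [Finite D]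
    [Module (ZMod p) D] (hD : Nat.card D = p ^ 2) (ω : D) (hω : ω ≠ 0) :
    finrank (ZMod p) D = 2 ∧ ∃ lam : D →ₗ[ZMod p] ZMod p, ∀ d, lam d = 0 ↔ ∃ a : ZMod p, a • ω = d := by
  have : Fintype D := Fintype.ofFinite _
  have hDf : finrank (ZMod p) D = 2 := by
    have h1 := Module.card_eq_pow_finrank (K := ZMod p) (V := D)
    rw [ZMod.card, ← Nat.card_eq_fintype_card, hD] at h1
    exact (Nat.pow_right_injective (Fact.out : p.Prime).two_le h1).symm
  refine ⟨hDf, ?_⟩
  have : FiniteDimensional (ZMod p) D := FiniteDimensional.of_finrank_pos (by omega)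
  let U : Submodule (ZMod p) D := Submodule.span (ZMod p) {ω}
  have hU : finrank (ZMod p) U = 1 := finrank_span_singleton hω
  have hQ : finrank (ZMod p) (D ⧸ U) = finrank (ZMod p) (ZMod p) := by
    have h1 := Submodule.finrank_quotient_add_finrank U
    rw [Module.finrank_self]
    omega
  let e := LinearEquiv.ofFinrankEq (D ⧸ U) (ZMod p) hQ
  refine ⟨e.toLinearMap.comp U.mkQ, fun d => ?_⟩
  change e (U.mkQ d) = 0 ↔ _
  rw [LinearEquiv.map_eq_zero_iff, Submodule.mkQ_apply, Submodule.Quotient.mk_eq_zero]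
  exact Submodule.mem_span_singleton

private lemma T42na_core (p : ℕ) [Fact p.Prime] (hp : p ≠ 2) {V Z : Type*} [AddCommGroup V]
    [AddCommGroup Z] [Module (ZMod p) V] (hV : finrank (ZMod p) V = 4) (t : TD p V Z)
    {D : Type*} [AddCommGroup D] [Finite D] [Module (ZMod p) D] (hD : Nat.card D = p ^ 2)
    (ι : D →+ Z) (hι : Function.Injective ι) (ζ : Z) (ω : D) (hω : ι ω = p • ζ) (hω0 : ω ≠ 0)
    (hpz : ∀ z : Z, ∃ n : ℕ, p • z = n • (p • ζ)) (B : V → V → D) (hB : ∀ u v, ι (B u v) = t.β u v)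
    (P : V → D) (hP : ∀ v, ι (P v) = t.π v) : t.NonFree := by
  obtain ⟨hDf, lam, hlam⟩ := T42na_quot p hD ω hω0
  have hval : ∀ {M : Type _} [AddCommGroup M] [Module (ZMod p) M] (a : ZMod p) (d : M),
      a • d = a.val • d := by
    intro M _ _ a d
    rw [← Nat.cast_smul_eq_nsmul (ZMod p), ZMod.natCast_zmod_val]
  have hval' : ∀ {M : Type _} [AddCommGroup M] [Module (ZMod p) M] (a : ZMod p) (d : M),
      a • d = a.val • d := by
    intro M _ _ a d
    rw [← Nat.cast_smul_eq_nsmul (ZMod p), ZMod.natCast_zmod_val]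
  have hUz : ∀ d : D, lam d = 0 → ∃ z, ι d = p • z := by
    intro d hd
    obtain ⟨a, rfl⟩ := (hlam d).mp hd
    refine ⟨a.val • ζ, ?_⟩
    rw [hval, map_nsmul, hω, smul_comm]
  have hpzU : ∀ (z : Z) (d : D), ι d = p • z → lam d = 0 := by
    intro z d hd
    obtain ⟨n, hn⟩ := hpz z
    refine (hlam _).mpr ⟨(n : ZMod p), hι ?_⟩
    rw [Nat.cast_smul_eq_nsmul, map_nsmul, hω, ← hn, hd]
  let βD : V →ₗ[ZMod p] V →ₗ[ZMod p] D := LinearMap.mk₂ (ZMod p) B
    (fun u v w => hι (by rw [map_add, hB, hB, hB, map_add, AddMonoidHom.add_apply]))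
    (fun a u v => hι (by rw [hval' a u, hval a (B u v), map_nsmul, hB, hB, map_nsmul,
      AddMonoidHom.nsmul_apply]))
    (fun u v w => hι (by rw [map_add, hB, hB, hB, map_add]))
    (fun a u v => hι (by rw [hval' a v, hval a (B u v), map_nsmul, hB, hB, map_nsmul]))
  have hβD : ∀ u v, ι (βD u v) = t.β u v := hB
  let LA : V →+ ZMod p :=
    { toFun := fun v => lam (P v)
      map_zero' := by
        obtain ⟨z, hz⟩ := t.add 0 0
        rw [add_zero, sub_self, zero_sub] at hz
        apply hpzU (-z)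
        rw [hP, smul_neg, ← hz, neg_neg]
      map_add' := by
        intro u v
        obtain ⟨z, hz⟩ := t.add u v
        rw [← sub_eq_zero, ← sub_sub, ← map_sub, ← map_sub]
        apply hpzU z
        rw [map_sub, map_sub, hP, hP, hP, hz] }
  have h2 : (2 : ZMod p) ≠ 0 := by
    intro h
    have h1 : ((2 : ℕ) : ZMod p) = 0 := by exact_mod_cast h
    rw [ZMod.natCast_eq_zero_iff] at h1
    exact hp ((Nat.prime_dvd_prime_iff_eq (Fact.out : p.Prime) Nat.prime_two).mp h1)
  obtain ⟨g, s, hs, hg, hgB, hgL⟩ := T42na_lin h2 hV hDf βD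
    (fun v => hι (by rw [hβD, t.alt, map_zero])) (LA.toZModLinearMap p)
  rcases hs with rfl | rfl
  · refine ⟨g.toAddEquiv, AddEquiv.refl Z, hg, ?_, ?_⟩
    · intro u v
      have h := congrArg ι (hgB u v)
      rw [one_smul, hβD, hβD] at h
      exact h.symm
    · intro v
      have h := hgL v
      rw [one_mul] at h
      change lam (P (g v)) = lam (P v) at h
      rw [← sub_eq_zero, ← map_sub] at h
      obtain ⟨z, hz⟩ := hUz _ h
      refine ⟨z, ?_⟩
      rw [← hz, map_sub, hP, hP]
      rfl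
  · refine ⟨g.toAddEquiv, AddEquiv.neg Z, hg, ?_, ?_⟩
    · intro u v
      have h := congrArg ι (hgB u v)
      rw [neg_smul, one_smul, map_neg, hβD, hβD] at h
      exact h.symm
    · intro v
      have h := hgL v
      rw [neg_mul, one_mul] at h
      change lam (P (g v)) = - lam (P v) at h
      rw [← sub_eq_zero, sub_neg_eq_add, ← map_add] at h
      obtain ⟨z, hz⟩ := hUz _ h
      refine ⟨z, ?_⟩
      rw [← hz, map_add, hP, hP]
      change t.π (g v) - (- t.π v) = t.π (g v) + t.π v
      rw [sub_neg_eq_add]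

/-- [M7 T42n-a] `dim V = 4`, `|Z| = p^3`, `|D| = p^2`, `p Z ≠ 0`, and `π v ∈ D` for all `v`. PROOF. `p D = 0`. By
`exists_phi`: `φ, ζ`; `ω = p • ζ` generates `p Z`, `ω ∈ D`. Let `λ : t.D →+ ZMod p` be a functional of the plane `D` with
kernel `p Z = ℤ ω` (`D` is a `ZMod p`-vector space of dimension 2). Take `a1 ≠ 0` in `V`; the map `V → D`, `y ↦ β a1 y`
has kernel of dimension `≥ 2`, so there is `a2` independent of `a1` with `β a1 a2 = 0`; complete to a basis
`a1, a2, b1, b2` of `V`; `A = span (a1, a2)`. `M : A × A → D × F × F` (`F = ZMod p`),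
`M (t1, t2) = (β t1 b2 + β b1 t2, λ (π t1), λ (π t2))` is additive (`π` is additive modulo `p Z = ker λ`) between spaces of
the same order `p^4`.
* Not injective: `(t1, t2) ≠ 0` in the kernel: `g = 1` on `A`, `g (b i) = b i + t i`, `c = 1`. Use `nonFree_of_basis`:
  `β (b1 + t1) (b2 + t2) = β b1 b2 + 0`, `β a (b i + t i) = β a (b i)`; `π (b i + t i) - π (b i) ∈ π (t i) + p Z = p Z` as
  `λ (π t i) = 0`.
* Injective, so surjective: choose `M (t1, t2) = (-2) (β b1 b2, λ π b1, λ π b2)`; `g = -1` on `A`, `g (b i) = b i + t i`,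
  `c = -1`. `β (b1 + t1) (b2 + t2) = β b1 b2 - 2 β b1 b2`; `π (-a) + π a ∈ p Z`; `π (b i + t i) + π (b i) ∈ p Z` because `λ`
  of it is `0`. `g ≠ 1` since `p ≠ 2`. -/
theorem T42n_a (p : ℕ) [Fact p.Prime] (hp : p ≠ 2) {V Z : Type*} [AddCommGroup V] [AddCommGroup Z] [Finite Z]
    [Module (ZMod p) V] (hV : finrank (ZMod p) V = 4) (t : TD p V Z) (hZ : Nat.card Z = p ^ 3)
    (hD : Nat.card t.D = p ^ 2) (hpZ : ∃ z : Z, p • z ≠ 0) (h0 : ∀ v, t.π v ∈ t.D) : t.NonFree := by
  have hpD : ∀ d ∈ t.D, p • d = 0 := by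
    have hle : t.D ≤ (nsmulAddMonoidHom (α := Z) p).ker := by
      unfold TD.D
      rw [AddSubgroup.closure_le]
      rintro w ⟨u, v, rfl⟩
      change p • t.β u v = 0
      have h1 : p • u = 0 := by
        rw [← Nat.cast_smul_eq_nsmul (ZMod p), CharP.cast_eq_zero, zero_smul]
      rw [← AddMonoidHom.nsmul_apply, ← map_nsmul, h1, map_zero, AddMonoidHom.zero_apply]
    intro d hd
    exact hle hd
  obtain ⟨φ, hφD, ⟨ζ, hζ⟩, hφp, hφζ⟩ := exists_phi p t.D hpD (by rw [hZ, hD]; ring) hpZ
  obtain ⟨hω0, hωD, hpz⟩ := hφζ ζ hζ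
  exact @T42na_core p _ hp V Z _ _ _ hV t t.D _ _
    (AddCommGroup.zmodModule (n := p) (G := t.D)
      (fun x => Subtype.ext (by rw [AddSubgroup.coe_nsmul]; exact hpD x x.2)))
    hD t.D.subtype (AddSubgroup.subtype_injective _) ζ ⟨p • ζ, hωD⟩ rfl
    (fun h => hω0 (congrArg Subtype.val h)) (fun z => ⟨_, hpz z⟩)
    (fun u v => ⟨t.β u v, t.β_mem_D u v⟩) (fun _ _ => rfl) (fun v => ⟨t.π v, h0 v⟩) (fun _ => rfl)

end MP_02e52a.M7
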