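import Pool.Agent.Lib.MP_02e52a_al.M7.AddTools

namespace MP_02e52a.M7

open Module

/-- a non-injective homomorphism has a nonzero element in its kernel -/
private theorem T42nb_pig {X Y : Type*} [AddCommGroup X] [AddCommGroup Y] [Finite X] [Finite Y]
    (M : X →+ Y) (h : Nat.card Y < Nat.card X) : ∃ x, x ≠ 0 ∧ M x = 0 := by
  by_contra hc
  push Not at hc
  have hinj : Function.Injective M := by
    rw [injective_iff_map_eq_zero]
    intro x hx
    by_contra hne
    exact hc x hne hx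
  have := Nat.card_le_card_of_injective M hinj
  omega

/-- [M7 T42n-b] `dim V = 4`, `|Z| = p^3`, `|D| = p^2`, `p Z ≠ 0`, and `π v ∉ D` for some `v`. PROOF. `φ, ζ, ω = p • ζ` from
`exists_phi`, `λ : t.D →+ ZMod p` with kernel `p Z = ℤ ω`. `f = φ ∘ π : V → ZMod p` is additive (`φ (p • z) = 0`), `f ≠ 0`,
`K = ker f` has dimension 3; by `exists_isotropic_add` (with `E = ⊥`: `|D| ≤ p^2`) there are independent `a1, a2 ∈ K` with
`β a1 a2 = 0`; complete to a basis `a1, a2, b1, b2` of `V`; `A = span (a1, a2)`. The additive map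
`M : A × A × F → D × F × F`, `M (t1, t2, s) = (β t1 b2 + β b1 t2, λ (π t1) - s f b1, λ (π t2) - s f b2)` goes from a group of order
`p^5` to one of order `p^4`: there is `(t1, t2, s) ≠ 0` in its kernel. If `t1 = t2 = 0` then `s f b1 = s f b2 = 0`, but `f ≠ 0`
vanishes on `A`, so `s = 0`: contradiction. So `(t1, t2) ≠ 0`. Choose `l ∈ D` with `λ l = s`, `c z = z + φ z • l`
(`exists_transvection`; `c = 1` on `D`), `g = 1` on `A`, `g (b i) = b i + t i`. `nonFree_of_basis`: on `a i`:
`π a i - c (π a i) = 0` as `φ (π a i) = 0`; on `b i`: `π (b i + t i) - c (π (b i)) ∈ π (t i) - (f (b i)).val • l + p Z = p Z`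
because `λ` of it is `0`. -/
theorem T42n_b (p : ℕ) [Fact p.Prime] (hp : p ≠ 2) {V Z : Type*} [AddCommGroup V] [AddCommGroup Z] [Finite Z]
    [Module (ZMod p) V] (hV : finrank (ZMod p) V = 4) (t : TD p V Z) (hZ : Nat.card Z = p ^ 3)
    (hD : Nat.card t.D = p ^ 2) (hpZ : ∃ z : Z, p • z ≠ 0) (h0 : ∃ v, t.π v ∉ t.D) : t.NonFree := by
  classical
  have hp0 : 0 < p := (Fact.out : p.Prime).pos
  have hp1 : 1 < p := (Fact.out : p.Prime).one_lt
  have hfin : Module.Finite (ZMod p) V := Module.finite_of_finrank_pos (by rw [hV]; norm_num)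
  have hVfin : Finite V := Module.finite_of_finite (ZMod p)
  have hpV : ∀ v : V, p • v = 0 := by
    intro v
    rw [← Nat.cast_smul_eq_nsmul (ZMod p), ZMod.natCast_self, zero_smul]
  have hDp : ∀ d ∈ t.D, p • d = 0 := by
    intro d hd
    unfold TD.D at hd
    induction hd using AddSubgroup.closure_induction with
    | mem x hx =>
      obtain ⟨u, v, rfl⟩ := hx
      rw [← AddMonoidHom.nsmul_apply, ← map_nsmul, hpV, map_zero, AddMonoidHom.zero_apply]
    | zero => exact smul_zero _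
    | add x y _ _ hx hy => rw [smul_add, hx, hy, add_zero]
    | neg x _ hx => rw [smul_neg, hx, neg_zero]
  obtain ⟨φ, hφD, -, hφp, -⟩ := exists_phi p t.D hDp (by rw [hZ, hD]; ring) hpZ
  have hφpz : ∀ z, φ (p • z) = 0 := by
    intro z
    rw [map_nsmul, nsmul_eq_mul, ZMod.natCast_self, zero_mul]
  -- the functional `f`
  let f : V →ₗ[ZMod p] ZMod p := AddMonoidHom.toZModLinearMap p
    (AddMonoidHom.mk' (fun v => φ (t.π v)) (by
      intro u v
      obtain ⟨z, hz⟩ := t.add u v
      have h1 : t.π (u + v) = p • z + t.π v + t.π u := by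
        rw [← hz]
        abel
      rw [h1, map_add, map_add, hφpz, zero_add, add_comm]))
  have hf : ∀ v, f v = φ (t.π v) := fun v => rfl
  have hfD : ∀ v, f v = 0 ↔ t.π v ∈ t.D := fun v => by rw [hf, hφD]
  have hf0 : f ≠ 0 := by
    intro h
    obtain ⟨v, hv⟩ := h0
    apply hv
    rw [← hfD, h, LinearMap.zero_apply]
  have hK : finrank (ZMod p) (LinearMap.ker f) = 3 := by
    have h1 := LinearMap.finrank_range_add_finrank_ker f
    have h2 : finrank (ZMod p) (LinearMap.range f) = 1 := by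
      have h3 : LinearMap.range f = ⊤ := LinearMap.range_eq_top.2 (LinearMap.surjective hf0)
      rw [h3, finrank_top, finrank_self]
    omega
  -- the isotropic plane
  let bK : Basis (Fin 3) (ZMod p) (LinearMap.ker f) := finBasisOfFinrankEq _ _ hK
  have hkind : LinearIndependent (ZMod p) (fun i => (bK i : V)) :=
    bK.linearIndependent.map' (LinearMap.ker f).subtype (Submodule.ker_subtype _)
  obtain ⟨a1, ha1, a2, ha2, haind, hab⟩ := exists_isotropic_add p t (fun i => (bK i : V)) hkind ⊥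
    (by
      rw [hD, inf_bot_eq]
      simp)
  have hspanK : Submodule.span (ZMod p) (Set.range fun i => (bK i : V)) ≤ LinearMap.ker f := by
    rw [Submodule.span_le]
    rintro _ ⟨i, rfl⟩
    exact (bK i).2
  have hfa1 : f a1 = 0 := hspanK ha1
  have hfa2 : f a2 = 0 := hspanK ha2
  have hab0 : t.β a1 a2 = 0 := by simpa using hab
  -- the plane `A` and a complement
  set A : Submodule (ZMod p) V := Submodule.span (ZMod p) (Set.range ![a1, a2]) with hA
  have hAr : finrank (ZMod p) A = 2 := by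
    rw [hA, finrank_span_eq_card haind, Fintype.card_fin]
  have hAf : ∀ a ∈ A, f a = 0 := by
    intro a ha
    have : A ≤ LinearMap.ker f := by
      rw [hA, Submodule.span_le]
      rintro _ ⟨i, rfl⟩
      fin_cases i
      · exact hfa1
      · exact hfa2
    exact this ha
  have hAcomb : ∀ a ∈ A, ∃ x y : ZMod p, a = x • a1 + y • a2 := by
    intro a ha
    have h1 : Set.range ![a1, a2] = {a1, a2} := by
      rw [Matrix.range_cons, Matrix.range_cons, Matrix.range_empty, Set.union_empty]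
      rfl
    rw [hA, h1, Submodule.mem_span_pair] at ha
    obtain ⟨x, y, h⟩ := ha
    exact ⟨x, y, h.symm⟩
  have hsm : ∀ (x : ZMod p) (u v : V), t.β (x • u) v = x.val • t.β u v := by
    intro x u v
    have h1 : x • u = x.val • u := by
      rw [← Nat.cast_smul_eq_nsmul (ZMod p), ZMod.natCast_zmod_val]
    rw [h1, map_nsmul, AddMonoidHom.nsmul_apply]
  have hsm' : ∀ (x : ZMod p) (u v : V), t.β u (x • v) = x.val • t.β u v := by
    intro x u v
    have h1 : x • v = x.val • v := by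
      rw [← Nat.cast_smul_eq_nsmul (ZMod p), ZMod.natCast_zmod_val]
    rw [h1, map_nsmul]
  have hAA : ∀ a ∈ A, ∀ b ∈ A, t.β a b = 0 := by
    intro a ha b hb
    obtain ⟨x, y, rfl⟩ := hAcomb a ha
    obtain ⟨x', y', rfl⟩ := hAcomb b hb
    have h21 : t.β a2 a1 = 0 := by rw [t.skew, hab0, neg_zero]
    simp only [map_add, AddMonoidHom.add_apply, hsm, hsm', t.alt, hab0, h21, smul_zero, add_zero]
  obtain ⟨B, hB⟩ := Submodule.exists_isCompl A
  have hBr : finrank (ZMod p) B = 2 := by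
    have := Submodule.finrank_add_eq_of_isCompl hB
    omega
  let bB : Basis (Fin 2) (ZMod p) B := finBasisOfFinrankEq _ _ hBr
  let bA : Basis (Fin 2) (ZMod p) A := finBasisOfFinrankEq _ _ hAr
  set b1 : V := (bB 0 : V) with hb1
  set b2 : V := (bB 1 : V) with hb2
  -- the coordinates of the component in `B`
  let P : V →ₗ[ZMod p] B := Submodule.projectionOnto B A hB.symm
  have hPA : ∀ a ∈ A, P a = 0 := fun a ha => by
    have : P (⟨a, ha⟩ : A) = 0 := Submodule.projectionOnto_apply_right hB.symm ⟨a, ha⟩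
    exact this
  have hPB : ∀ b : B, P b = b := fun b => Submodule.projectionOnto_apply_left hB.symm b
  let c1 : V →ₗ[ZMod p] ZMod p := (bB.coord 0).comp P
  let c2 : V →ₗ[ZMod p] ZMod p := (bB.coord 1).comp P
  have hc1A : ∀ a ∈ A, c1 a = 0 := fun a ha => by
    change bB.coord 0 (P a) = 0
    rw [hPA a ha, map_zero]
  have hc2A : ∀ a ∈ A, c2 a = 0 := fun a ha => by
    change bB.coord 1 (P a) = 0
    rw [hPA a ha, map_zero]
  have hc11 : c1 b1 = 1 := by
    change bB.coord 0 (P (bB 0)) = 1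
    rw [hPB]; simp
  have hc12 : c1 b2 = 0 := by
    change bB.coord 0 (P (bB 1)) = 0
    rw [hPB]; simp
  have hc21 : c2 b1 = 0 := by
    change bB.coord 1 (P (bB 0)) = 0
    rw [hPB]; simp
  have hc22 : c2 b2 = 1 := by
    change bB.coord 1 (P (bB 1)) = 1
    rw [hPB]; simp
  -- spanning
  have hspan : Submodule.span (ZMod p) (Set.range ![a1, a2, b1, b2]) = ⊤ := by
    rw [eq_top_iff, ← hB.sup_eq_top]
    refine sup_le ?_ ?_
    · rw [hA, Submodule.span_le]
      rintro _ ⟨i, rfl⟩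
      fin_cases i
      · exact Submodule.subset_span ⟨0, rfl⟩
      · exact Submodule.subset_span ⟨1, rfl⟩
    · intro b hb
      have h1 : (⟨b, hb⟩ : B) = ∑ i, bB.repr ⟨b, hb⟩ i • bB i := (bB.sum_repr _).symm
      have h2 : b = (bB.repr ⟨b, hb⟩ 0) • b1 + (bB.repr ⟨b, hb⟩ 1) • b2 := by
        have := congrArg (Subtype.val) h1
        rw [Fin.sum_univ_two] at this
        exact this
      rw [h2]
      exact Submodule.add_mem _
        (Submodule.smul_mem _ _ (Submodule.subset_span ⟨2, rfl⟩))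
        (Submodule.smul_mem _ _ (Submodule.subset_span ⟨3, rfl⟩))
  -- the group `D / pZ`
  let pm : Z →+ Z := nsmulAddMonoidHom p
  have hpm : ∀ z, pm z = p • z := fun z => rfl
  set N : AddSubgroup t.D := pm.range.addSubgroupOf t.D with hN
  have hrangeD : pm.range ≤ t.D := by
    rintro _ ⟨z, rfl⟩
    rw [← hφD, hpm, hφpz]
  have hker : pm.ker = t.D := by
    ext z
    rw [AddMonoidHom.mem_ker, hpm, ← hφp, hφD]
  have hcardN : Nat.card N = p := by
    have h1 : Nat.card N = Nat.card pm.range :=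
      Nat.card_congr (AddSubgroup.addSubgroupOfEquivOfLe hrangeD).toEquiv
    have h2 : Nat.card pm.range * Nat.card pm.ker = Nat.card Z := by
      have := AddSubgroup.index_ker pm
      rw [← this, mul_comm]
      exact AddSubgroup.card_mul_index pm.ker
    rw [hker, hD, hZ] at h2
    rw [h1]
    have h3 : Nat.card pm.range * p ^ 2 = p * p ^ 2 := by rw [h2]; ring
    exact Nat.eq_of_mul_eq_mul_right (by positivity) h3
  have hcardQ : Nat.card (t.D ⧸ N) = p := by
    have h1 := AddSubgroup.card_eq_card_quotient_mul_card_addSubgroup N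
    rw [hcardN, hD] at h1
    have h3 : Nat.card (t.D ⧸ N) * p = p * p := by rw [← h1]; ring
    exact Nat.eq_of_mul_eq_mul_right hp0 h3
  -- the map `q`
  let q : A →+ (t.D ⧸ N) := AddMonoidHom.mk'
    (fun a => QuotientAddGroup.mk (⟨t.π a, (hfD a).1 (hAf a a.2)⟩ : t.D)) (by
      intro a b
      rw [← QuotientAddGroup.mk_add]
      symm
      rw [QuotientAddGroup.eq, hN, AddSubgroup.mem_addSubgroupOf]
      obtain ⟨z, hz⟩ := t.add a b
      refine ⟨z, ?_⟩
      rw [hpm, ← hz]
      change t.π ((a + b : A) : V) - t.π a - t.π b = -(t.π a + t.π b) + t.π ((a + b : A) : V)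
      abel)
  -- the map `M`
  let M : (A × A × (t.D ⧸ N)) →+ (t.D × (t.D ⧸ N) × (t.D ⧸ N)) := AddMonoidHom.mk'
    (fun x => (⟨t.β (x.1 : V) b2 + t.β b1 (x.2.1 : V),
        t.D.add_mem (t.β_mem_D _ _) (t.β_mem_D _ _)⟩,
      q x.1 - (f b1).val • x.2.2, q x.2.1 - (f b2).val • x.2.2)) (by
      intro x y
      refine Prod.ext ?_ (Prod.ext ?_ ?_)
      · apply Subtype.ext
        change t.β ((x.1 : V) + (y.1 : V)) b2 + t.β b1 ((x.2.1 : V) + (y.2.1 : V)) =
          (t.β (x.1 : V) b2 + t.β b1 (x.2.1 : V)) + (t.β (y.1 : V) b2 + t.β b1 (y.2.1 : V))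
        rw [map_add, map_add, AddMonoidHom.add_apply]
        abel
      · change q (x.1 + y.1) - (f b1).val • (x.2.2 + y.2.2) =
          (q x.1 - (f b1).val • x.2.2) + (q y.1 - (f b1).val • y.2.2)
        rw [map_add, nsmul_add]
        abel
      · change q (x.2.1 + y.2.1) - (f b2).val • (x.2.2 + y.2.2) =
          (q x.2.1 - (f b2).val • x.2.2) + (q y.2.1 - (f b2).val • y.2.2)
        rw [map_add, nsmul_add]
        abel)
  have hcardA : Nat.card A = p ^ 2 := by
    rw [Module.natCard_eq_pow_finrank (K := ZMod p), hAr, Nat.card_zmod]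
  obtain ⟨x, hx0, hMx⟩ := T42nb_pig M (by
    rw [Nat.card_prod, Nat.card_prod, Nat.card_prod, Nat.card_prod, hcardA, hcardQ, hD]
    have h1 : p ^ 2 * (p * p) = p ^ 4 := by ring
    have h2 : p ^ 2 * (p ^ 2 * p) = p ^ 5 := by ring
    rw [h1, h2]
    exact Nat.pow_lt_pow_right hp1 (by norm_num))
  obtain ⟨⟨t1, ht1⟩, ⟨t2, ht2⟩, l'⟩ := x
  obtain ⟨l, rfl⟩ := QuotientAddGroup.mk_surjective l'
  have hM1 : t.β t1 b2 + t.β b1 t2 = 0 := congrArg (fun y => (y.1 : Z)) hMx
  have hM2 : q ⟨t1, ht1⟩ - (f b1).val • (QuotientAddGroup.mk l : t.D ⧸ N) = 0 :=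
    congrArg (fun y => y.2.1) hMx
  have hM3 : q ⟨t2, ht2⟩ - (f b2).val • (QuotientAddGroup.mk l : t.D ⧸ N) = 0 :=
    congrArg (fun y => y.2.2) hMx
  have hcon : ∀ (a : V) (ha : a ∈ A) (m : ℕ),
      q ⟨a, ha⟩ - m • (QuotientAddGroup.mk l : t.D ⧸ N) = 0 → ∃ z, t.π a - m • (l : Z) = p • z := by
    intro a ha m h
    have h1 : (QuotientAddGroup.mk (⟨t.π a, (hfD a).1 (hAf a ha)⟩ - m • l : t.D) : t.D ⧸ N) = 0 := by
      rw [QuotientAddGroup.mk_sub, QuotientAddGroup.mk_nsmul]
      exact h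
    rw [QuotientAddGroup.eq_zero_iff, hN, AddSubgroup.mem_addSubgroupOf] at h1
    obtain ⟨z, hz⟩ := h1
    exact ⟨z, hz.symm⟩
  obtain ⟨z1, hz1⟩ := hcon t1 ht1 _ hM2
  obtain ⟨z2, hz2⟩ := hcon t2 ht2 _ hM3
  -- `(t1, t2) ≠ 0`
  have ht : ¬ (t1 = 0 ∧ t2 = 0) := by
    rintro ⟨rfl, rfl⟩
    have hq0 : ∀ h : (0 : V) ∈ A, q ⟨0, h⟩ = 0 := fun h => map_zero q
    rw [hq0, zero_sub, neg_eq_zero] at hM2 hM3
    have hl0 : (QuotientAddGroup.mk l : t.D ⧸ N) ≠ 0 := by
      intro h
      apply hx0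
      rw [h]
      rfl
    have hval : ∀ y : ZMod p, y.val • (QuotientAddGroup.mk l : t.D ⧸ N) = 0 → y = 0 := by
      intro y hy
      have h1 : addOrderOf (QuotientAddGroup.mk l : t.D ⧸ N) = p := by
        have h2 : addOrderOf (QuotientAddGroup.mk l : t.D ⧸ N) ∣ p :=
          (addOrderOf_dvd_natCard _).trans (dvd_of_eq hcardQ)
        rcases (Nat.dvd_prime Fact.out).1 h2 with h3 | h3
        · exact absurd (AddMonoid.addOrderOf_eq_one_iff.1 h3) hl0
        · exact h3
      have h2 := addOrderOf_dvd_of_nsmul_eq_zero hy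
      rw [h1] at h2
      have h3 := ZMod.val_lt y
      have h4 : y.val = 0 := Nat.eq_zero_of_dvd_of_lt h2 h3
      exact (ZMod.val_eq_zero y).1 h4
    have hfb1 : f b1 = 0 := hval _ hM2
    have hfb2 : f b2 = 0 := hval _ hM3
    apply hf0
    have h5 : (⊤ : Submodule (ZMod p) V) ≤ LinearMap.ker f := by
      rw [← hspan, Submodule.span_le]
      rintro _ ⟨i, rfl⟩
      fin_cases i
      · exact hfa1
      · exact hfa2
      · exact hfb1
      · exact hfb2
    exact LinearMap.ker_eq_top.1 (eq_top_iff.2 h5)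
  -- the automorphism of `V`
  let T : V →ₗ[ZMod p] V := c1.smulRight t1 + c2.smulRight t2
  have hT : ∀ v, T v = c1 v • t1 + c2 v • t2 := fun v => rfl
  have hTA : ∀ a ∈ A, T a = 0 := fun a ha => by
    rw [hT, hc1A a ha, hc2A a ha, zero_smul, zero_smul, add_zero]
  have hTmem : ∀ v, T v ∈ A := fun v => by
    rw [hT]
    exact A.add_mem (A.smul_mem _ ht1) (A.smul_mem _ ht2)
  have hTT : ∀ v, T (T v) = 0 := fun v => hTA _ (hTmem v)
  have hTb1 : T b1 = t1 := by rw [hT, hc11, hc21, one_smul, zero_smul, add_zero]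
  have hTb2 : T b2 = t2 := by rw [hT, hc12, hc22, one_smul, zero_smul, zero_add]
  let g : V ≃+ V :=
    { toFun := fun v => v + T v
      invFun := fun v => v - T v
      left_inv := fun v => by
        change (v + T v) - T (v + T v) = v
        rw [map_add, hTT]
        abel
      right_inv := fun v => by
        change (v - T v) + T (v - T v) = v
        rw [map_sub, hTT]
        abel
      map_add' := fun u v => by
        change (u + v) + T (u + v) = (u + T u) + (v + T v)
        rw [map_add]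
        abel }
  have hg : ∀ v, g v = v + T v := fun v => rfl
  have ha1A : a1 ∈ A := Submodule.subset_span ⟨0, rfl⟩
  have ha2A : a2 ∈ A := Submodule.subset_span ⟨1, rfl⟩
  have hga1 : g a1 = a1 := by rw [hg, hTA _ ha1A, add_zero]
  have hga2 : g a2 = a2 := by rw [hg, hTA _ ha2A, add_zero]
  have hgb1 : g b1 = b1 + t1 := by rw [hg, hTb1]
  have hgb2 : g b2 = b2 + t2 := by rw [hg, hTb2]
  -- the automorphism of `Z`
  obtain ⟨c, hc⟩ := exists_transvection p φ (l : Z) (hDp _ l.2) ((hφD _).2 l.2)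
  have hcD : ∀ z ∈ t.D, c z = z := by
    intro z hz
    rw [hc, (hφD z).2 hz, ZMod.val_zero, zero_smul, add_zero]
  have hcβ : ∀ u v, c (t.β u v) = t.β u v := fun u v => hcD _ (t.β_mem_D u v)
  refine nonFree_of_basis p t ![a1, a2, b1, b2] hspan g c ?_ ?_ ?_
  · by_contra hne
    push Not at hne
    apply ht
    constructor
    · have := hne b1
      rw [hgb1] at this
      simpa using this
    · have := hne b2
      rw [hgb2] at this
      simpa using this
  · have hab1 : ∀ a ∈ A, t.β a (b1 + t1) = t.β a b1 := fun a ha => by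
      rw [map_add, hAA a ha _ ht1, add_zero]
    have hab2 : ∀ a ∈ A, t.β a (b2 + t2) = t.β a b2 := fun a ha => by
      rw [map_add, hAA a ha _ ht2, add_zero]
    have hba1 : ∀ a ∈ A, t.β (b1 + t1) a = t.β b1 a := fun a ha => by
      rw [t.skew, hab1 a ha, ← t.skew]
    have hba2 : ∀ a ∈ A, t.β (b2 + t2) a = t.β b2 a := fun a ha => by
      rw [t.skew, hab2 a ha, ← t.skew]
    have hbb : t.β (b1 + t1) (b2 + t2) = t.β b1 b2 := by
      have e1 : t.β (b1 + t1) (b2 + t2) =
          t.β b1 b2 + (t.β t1 b2 + t.β b1 t2) + t.β t1 t2 := by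
        simp only [map_add, AddMonoidHom.add_apply]
        abel
      rw [e1, hAA t1 ht1 t2 ht2, hM1, add_zero, add_zero]
    have hbb' : t.β (b2 + t2) (b1 + t1) = t.β b2 b1 := by
      rw [t.skew, hbb, ← t.skew]
    intro i j
    rw [hcβ]
    fin_cases i <;> fin_cases j
    · change t.β a1 a1 = t.β (g a1) (g a1)
      rw [t.alt, t.alt]
    · change t.β a1 a2 = t.β (g a1) (g a2)
      rw [hga1, hga2]
    · change t.β a1 b1 = t.β (g a1) (g b1)
      rw [hga1, hgb1, hab1 _ ha1A]
    · change t.β a1 b2 = t.β (g a1) (g b2)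
      rw [hga1, hgb2, hab2 _ ha1A]
    · change t.β a2 a1 = t.β (g a2) (g a1)
      rw [hga1, hga2]
    · change t.β a2 a2 = t.β (g a2) (g a2)
      rw [t.alt, t.alt]
    · change t.β a2 b1 = t.β (g a2) (g b1)
      rw [hga2, hgb1, hab1 _ ha2A]
    · change t.β a2 b2 = t.β (g a2) (g b2)
      rw [hga2, hgb2, hab2 _ ha2A]
    · change t.β b1 a1 = t.β (g b1) (g a1)
      rw [hga1, hgb1, hba1 _ ha1A]
    · change t.β b1 a2 = t.β (g b1) (g a2)
      rw [hga2, hgb1, hba1 _ ha2A]
    · change t.β b1 b1 = t.β (g b1) (g b1)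
      rw [t.alt, t.alt]
    · change t.β b1 b2 = t.β (g b1) (g b2)
      rw [hgb1, hgb2, hbb]
    · change t.β b2 a1 = t.β (g b2) (g a1)
      rw [hga1, hgb2, hba2 _ ha1A]
    · change t.β b2 a2 = t.β (g b2) (g a2)
      rw [hga2, hgb2, hba2 _ ha2A]
    · change t.β b2 b1 = t.β (g b2) (g b1)
      rw [hgb1, hgb2, hbb']
    · change t.β b2 b2 = t.β (g b2) (g b2)
      rw [t.alt, t.alt]
  · have hpa : ∀ a ∈ A, ∃ z, t.π a - c (t.π a) = p • z := by
      intro a ha
      refine ⟨0, ?_⟩
      rw [hcD _ ((hfD a).1 (hAf a ha)), sub_self, smul_zero]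
    have hpb : ∀ (b s : V) (z' : Z), t.π s - (f b).val • (l : Z) = p • z' →
        ∃ z, t.π (b + s) - c (t.π b) = p • z := by
      intro b s z' hz'
      obtain ⟨z, hz⟩ := t.add b s
      refine ⟨z + z', ?_⟩
      rw [smul_add, ← hz, ← hz', hc, ← hf]
      abel
    intro i
    fin_cases i
    · change ∃ z, t.π (g a1) - c (t.π a1) = p • z
      rw [hga1]
      exact hpa _ ha1A
    · change ∃ z, t.π (g a2) - c (t.π a2) = p • z
      rw [hga2]
      exact hpa _ ha2A
    · change ∃ z, t.π (g b1) - c (t.π b1) = p • z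
      rw [hgb1]
      exact hpb _ _ _ hz1
    · change ∃ z, t.π (g b2) - c (t.π b2) = p • z
      rw [hgb2]
      exact hpb _ _ _ hz2

end MP_02e52a.M7
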