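import Pool.Agent.Lib.MP_02e52a_al.M7.T42e
import Pool.Agent.Lib.MP_02e52a_al.M7.T42na
import Pool.Agent.Lib.MP_02e52a_al.M7.T42nb

namespace MP_02e52a.M7

open Module

private theorem td4_finrank (p n : ℕ) [Fact p.Prime] {Z : Type*} [AddCommGroup Z] [Finite Z]
    [Module (ZMod p) Z] (h : Nat.card Z = p ^ n) : finrank (ZMod p) Z = n := by
  have h1 := Module.natCard_eq_pow_finrank (K := ZMod p) (V := Z)
  rw [h, Nat.card_zmod] at h1
  exact (Nat.pow_right_injective (Fact.out (p := p.Prime)).two_le h1).symm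

/-- [M7 TD4] PROOF: if `p Z ≠ 0` use `T42n_a` or `T42n_b` according to whether all `π v ∈ D`. If `p Z = 0`, `Z` is a `ZMod p`-module
of dimension 3, `π` is additive, hence linear; `D` is a submodule of dimension 2 (an additive subgroup is a
`ZMod p`-submodule, `AddSubgroup.toZModSubmodule`); `hND` gives `D + π (V) = Z`; apply `T42e`. -/
theorem TD4 (p : ℕ) [Fact p.Prime] (hp : p ≠ 2) {V Z : Type*} [AddCommGroup V] [AddCommGroup Z] [Finite Z]
    [Module (ZMod p) V] (hV : finrank (ZMod p) V = 4) (t : TD p V Z) (hZ : Nat.card Z = p ^ 3)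
    (hD : Nat.card t.D = p ^ 2)
    (hND : ∀ z : Z, p • z = 0 → ∃ d ∈ t.D, ∃ v, ∃ z', z = d + t.π v + p • z') : t.NonFree := by
  by_cases hpZ : ∃ z : Z, p • z ≠ 0
  · by_cases h0 : ∀ v, t.π v ∈ t.D
    · exact T42n_a p hp hV t hZ hD hpZ h0
    · push Not at h0
      exact T42n_b p hp hV t hZ hD hpZ h0
  · push Not at hpZ
    have hmod : Module (ZMod p) Z := AddCommGroup.zmodModule hpZ
    have h2 : (2 : ZMod p) ≠ 0 := by
      intro h
      have h1 : ((2 : ℕ) : ZMod p) = 0 := by exact_mod_cast h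
      rw [ZMod.natCast_eq_zero_iff] at h1
      exact hp ((Nat.prime_dvd_prime_iff_eq Fact.out Nat.prime_two).1 h1)
    have hsm : ∀ (c : ZMod p) (u v : V), t.β (c • u) v = c • t.β u v := fun c u v =>
      ZMod.map_smul (t.β.flip v) c u
    obtain ⟨β, hβ⟩ : ∃ β : V →ₗ[ZMod p] V →ₗ[ZMod p] Z, ∀ u v : V, (β u) v = t.β u v :=
      ⟨LinearMap.mk₂ (ZMod p) (fun u v => t.β u v) (fun u u' v => by rw [map_add]; rfl)
        hsm (fun u v v' => by rw [map_add]) (fun c u v => ZMod.map_smul (t.β u) c v),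
        fun _ _ => rfl⟩
    have hadd : ∀ u v, t.π (u + v) = t.π u + t.π v := by
      intro u v
      obtain ⟨z, hz⟩ := t.add u v
      rw [hpZ z, sub_sub, sub_eq_zero] at hz
      exact hz
    obtain ⟨π, hπ⟩ : ∃ π : V →ₗ[ZMod p] Z, ∀ v, π v = t.π v :=
      ⟨(AddMonoidHom.mk' t.π hadd).toZModLinearMap p, fun _ => rfl⟩
    obtain ⟨D, hDm⟩ : ∃ D : Submodule (ZMod p) Z, ∀ z, z ∈ D ↔ z ∈ t.D :=
      ⟨AddSubgroup.toZModSubmodule p t.D, fun _ => Iff.rfl⟩
    have hDc : Nat.card D = p ^ 2 := by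
      rw [← hD]
      exact Nat.card_congr (Equiv.subtypeEquivRight hDm)
    obtain ⟨g, c, h3, h4, h5⟩ := T42e h2 hV (td4_finrank p 3 hZ) β
      (fun v => by rw [hβ, t.alt]) π D (td4_finrank p 2 hDc)
      (fun u v => by rw [hβ, hDm]; exact t.β_mem_D u v) (fun z => by
        obtain ⟨d, hd, v, z', h⟩ := hND z (hpZ z)
        exact ⟨d, (hDm d).2 hd, v, by rw [hπ, h, hpZ z', add_zero]⟩)
    refine ⟨g.toAddEquiv, c.toAddEquiv, h3, fun u v => ?_, fun v => ⟨0, ?_⟩⟩
    · have := h4 u v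
      rw [hβ, hβ] at this
      exact this
    · have := h5 v
      rw [hπ, hπ] at this
      rw [smul_zero, sub_eq_zero]
      exact this

end MP_02e52a.M7
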