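import Pool.Agent.Lib.MP_02e52a_al.M7.T52

namespace MP_02e52a.M7

open Module

private theorem TD5_aux (p : ℕ) [Fact p.Prime] (hp : p ≠ 2) {V Z : Type*} [AddCommGroup V]
    [AddCommGroup Z] [Finite Z] [Module (ZMod p) V] [Module (ZMod p) Z]
    (hV : finrank (ZMod p) V = 5) (t : TD p V Z) (hZ : Nat.card Z = p ^ 2)
    (hpZ : ∀ z : Z, p • z = 0) : t.NonFree := by
  have hW : finrank (ZMod p) Z = 2 := by
    have h1 := Module.natCard_eq_pow_finrank (K := ZMod p) (V := Z)
    rw [hZ, Nat.card_zmod] at h1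
    exact (Nat.pow_right_injective (Fact.out : p.Prime).two_le h1).symm
  have h2 : (2 : ZMod p) ≠ 0 := by
    intro h
    have h' : ((2 : ℕ) : ZMod p) = 0 := by exact_mod_cast h
    rw [ZMod.natCast_eq_zero_iff] at h'
    exact hp ((Nat.prime_dvd_prime_iff_eq (Fact.out : p.Prime) Nat.prime_two).1 h')
  have hadd : ∀ u v, t.π (u + v) = t.π u + t.π v := by
    intro u v
    obtain ⟨z, hz⟩ := t.add u v
    rw [hpZ z] at hz
    have := sub_eq_zero.1 hz
    rw [← this]; abel
  let πa : V →+ Z := AddMonoidHom.mk' t.π hadd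
  let B : V →ₗ[ZMod p] V →ₗ[ZMod p] Z := AddMonoidHom.toZModLinearMap p
    (AddMonoidHom.mk' (fun u => AddMonoidHom.toZModLinearMap p (t.β u))
      (by
        intro u u'
        apply LinearMap.ext
        intro v
        show t.β (u + u') v = t.β u v + t.β u' v
        rw [map_add]; rfl))
  have hB : ∀ u v, B u v = t.β u v := fun u v => rfl
  obtain ⟨g, c, hne, hgc, hπ⟩ := T52 (F := ZMod p) h2 hV hW B (fun v => by rw [hB]; exact t.alt v)
    (AddMonoidHom.toZModLinearMap p πa)
  refine ⟨g.toAddEquiv, c.toAddEquiv, hne, ?_, ?_⟩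
  · intro u v
    have := hgc u v
    rw [hB, hB] at this
    exact this
  · intro v
    refine ⟨0, ?_⟩
    have h3 : t.π (g v) = c (t.π v) := hπ v
    rw [smul_zero, sub_eq_zero]
    exact h3

/-- [M7 TD5] PROOF: `Z = D` (same order), so `p Z = 0` (`p • β u v = β (p • u) v = 0`), `Z` is a `ZMod p`-module
(`AddCommGroup.zmodModule`), of dimension 2; `π` is additive because `p • z = 0`; additive maps are linear
(`AddMonoidHom.toZModLinearMap`). Apply `T52` over `ZMod p` (`2 ≠ 0` as `p ≠ 2`) and forget linearity. -/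
theorem TD5 (p : ℕ) [Fact p.Prime] (hp : p ≠ 2) {V Z : Type*} [AddCommGroup V] [AddCommGroup Z] [Finite Z]
    [Module (ZMod p) V] (hV : finrank (ZMod p) V = 5) (t : TD p V Z) (hZ : Nat.card Z = p ^ 2)
    (hD : Nat.card t.D = p ^ 2) : t.NonFree := by
  have hpV : ∀ u : V, p • u = 0 := fun u => by
    have h := Nat.cast_smul_eq_nsmul (ZMod p) p u
    rw [← h]; simp
  have hDtop : t.D = ⊤ := by
    apply AddSubgroup.eq_top_of_card_eq
    rw [hD, hZ]
  have hpZ : ∀ z : Z, p • z = 0 := by
    intro z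
    have hz : z ∈ t.D := by rw [hDtop]; trivial
    unfold TD.D at hz
    induction hz using AddSubgroup.closure_induction with
    | mem x hx =>
      obtain ⟨u, v, rfl⟩ := hx
      have h1 : t.β (p • u) v = p • t.β u v := by
        rw [map_nsmul]; rfl
      rw [← h1, hpV u]; simp
    | zero => simp
    | add x y _ _ hx hy => rw [nsmul_add, hx, hy, add_zero]
    | neg x _ hx => rw [smul_neg, hx, neg_zero]
  letI : Module (ZMod p) Z := AddCommGroup.zmodModule hpZ
  exact TD5_aux p hp hV t hZ hpZ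

end MP_02e52a.M7
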