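import Pool.Agent.Lib.MP_02e52a_al.M7.Bridge
import Pool.Agent.Lib.MP_02e52a_al.M7.ND
import Pool.Agent.Lib.MP_02e52a_al.M7.CY4
import Pool.Agent.Lib.MP_02e52a_al.M7.PD
import Pool.Agent.Lib.MP_02e52a_al.M7.CNT
import Pool.Agent.Lib.MP_02e52a_al.M7.TD3
import Pool.Agent.Lib.MP_02e52a_al.M7.TD4
import Pool.Agent.Lib.MP_02e52a_al.M7.TD5

namespace MP_02e52a.M7

private theorem STR_D {A : Type*} [AddCommGroup A] (p : ℕ) (L : LR A) (t : TD p (A ⧸ L.Z) L.Z)
    (hβ : ∀ x y : A, ((t.β (x : A ⧸ L.Z) (y : A ⧸ L.Z) : L.Z) : A) = L.b x y) :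
    t.D.map L.Z.subtype = L.D := by
  unfold TD.D LR.D
  rw [AddMonoidHom.map_closure]
  congr 1
  ext w
  constructor
  · rintro ⟨_, ⟨u, v, rfl⟩, rfl⟩
    obtain ⟨x, rfl⟩ := QuotientAddGroup.mk_surjective u
    obtain ⟨y, rfl⟩ := QuotientAddGroup.mk_surjective v
    exact ⟨x, y, hβ x y⟩
  · rintro ⟨x, y, rfl⟩
    exact ⟨_, ⟨_, _, rfl⟩, hβ x y⟩

/-- [M7 STR] Structure theorem. PROOF. `rig_of_comm`, `not_cyclic`, `pD_eq_zero`, `counting` give `n, m`. Take `t` from `exists_td`; `not_nonFree` says `¬ t.NonFree`. `V = A ⧸ Z` is a `ZMod p`-module (`AddCommGroup.zmodModule`) of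
`finrank` `n` (from its cardinality). `t.D` corresponds to `L.D` (the image of `t.D` in `A` is `L.D`), so `Nat.card t.D = p^m`. The condition `hND` of `TD3`, `TD4` follows from `nd` and `hπ`. If `n = 5`: `m = 2`, `TD5`. If `n = 4`: `m = 2`
contradicts `TD4`, so `m = 3`. If `n = 3`: `m = 2` or `3`, `TD3`. So `n = 4`, `m = 3`, `|Z| = p^3 = |D|`, `D ≤ Z` so `D = Z` and `p Z = p D = 0`. -/
theorem structure_LR {A : Type*} [AddCommGroup A] [Finite A] (p : ℕ) [Fact p.Prime] (hp : p ≠ 2) (L : LR A)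
    (hc : L.Comm) (hA : Nat.card A = p ^ 7) (hb : ∃ x y, L.b x y ≠ 0) :
    (∀ x, p • x ∈ L.Z) ∧ (∀ z ∈ L.Z, p • z = 0) ∧ Nat.card L.Z = p ^ 3 ∧ L.D = L.Z := by
  have hr := rig_of_comm L hc
  have hcyc := not_cyclic p L hr hA hb
  have hpD := pD_eq_zero p L hA hcyc
  obtain ⟨hpZ, n, m, hn, hZ, hDm, hm2, hm7, hn3, hn5, hn3m⟩ := counting p L hA hcyc hpD
  obtain ⟨t, hβ, hπ⟩ := exists_td p L hpZ
  have hNF := not_nonFree p L hpZ hr t hβ hπ
  have hDD := STR_D p L t hβ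
  letI : Module (ZMod p) (A ⧸ L.Z) := AddCommGroup.zmodModule (n := p) (by
    intro x
    obtain ⟨a, rfl⟩ := QuotientAddGroup.mk_surjective x
    exact (QuotientAddGroup.eq_zero_iff (p • a)).2 (hpZ a))
  have : Finite (A ⧸ L.Z) := inferInstance
  have hfr : Module.finrank (ZMod p) (A ⧸ L.Z) = n := by
    letI : Fintype (A ⧸ L.Z) := Fintype.ofFinite _
    have h1 := Module.card_eq_pow_finrank (K := ZMod p) (V := A ⧸ L.Z)
    rw [ZMod.card, ← Nat.card_eq_fintype_card, hn] at h1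
    exact (Nat.pow_right_injective (Fact.out : p.Prime).two_le h1).symm
  have htD : Nat.card t.D = p ^ m := by
    rw [← hDm, ← hDD]
    exact Nat.card_congr (AddSubgroup.equivMapOfInjective t.D L.Z.subtype
      L.Z.subtype_injective).toEquiv
  have hND : ∀ z : L.Z, p • z = 0 → ∃ d ∈ t.D, ∃ v, ∃ z', z = d + t.π v + p • z' := by
    intro z hz
    obtain ⟨d, hd, a, h1⟩ := nd p hp L hc hpZ hb (z : A) z.2 (by
      have := congrArg (fun w : L.Z => (w : A)) hz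
      simpa using this)
    rw [← hDD] at hd
    obtain ⟨d', hd', rfl⟩ := hd
    obtain ⟨z', hz', h2⟩ := hπ a
    refine ⟨d', hd', (a : A ⧸ L.Z), ⟨z', hz'⟩, Subtype.ext ?_⟩
    rw [h1]
    change (d' : A) + p • a = (d' : A) + ((t.π (a : A ⧸ L.Z) : L.Z) : A) + p • z'
    rw [← h2]
    abel
  have hcases : n = 3 ∨ n = 4 ∨ n = 5 := by omega
  rcases hcases with rfl | rfl | rfl
  · exfalso
    refine hNF (TD3 p hp hfr t hZ ?_ hND)
    have h1 := hn3m rfl
    have : m = 2 ∨ m = 3 := by omega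
    rcases this with rfl | rfl
    · exact Or.inl htD
    · exact Or.inr htD
  · have : m = 2 ∨ m = 3 := by omega
    rcases this with rfl | rfl
    · exact absurd (TD4 p hp hfr t hZ htD hND) hNF
    · have hDZ : L.D = L.Z := by
        have : Finite L.Z := inferInstance
        exact AddSubgroup.eq_of_le_of_card_ge L.D_le_Z (by rw [hZ, hDm])
      refine ⟨hpZ, ?_, hZ, hDZ⟩
      rw [← hDZ]
      exact hpD
  · exfalso
    have : m = 2 := by omega
    subst this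
    exact hNF (TD5 p hp hfr t hZ htD)

end MP_02e52a.M7
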