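import Pool.Agent.Lib.MP_02e52a_al.M7.AddTools
import Pool.Agent.Lib.MP_02e52a_al.M7.T32z1

namespace MP_02e52a.M7

open Module

/-- The basic orders. -/
theorem T32_basic (p : ℕ) [Fact p.Prime] {V Z : Type*} [AddCommGroup V] [AddCommGroup Z] [Finite Z]
    [Module (ZMod p) V] (hV : finrank (ZMod p) V = 3) (t : TD p V Z) (hZ : Nat.card Z = p ^ 4)
    (hpZ : ∃ z : Z, p • z ≠ 0) (hinj : ∀ v, (∃ z, t.π v = p • z) → v = 0) :
    Function.Bijective (T32z_πQ t) ∧ Nat.card (T32z_pZ p Z) = p ∧ ∀ z : Z, p • (p • z) = 0 := by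
  have hp : p.Prime := Fact.out
  have hfin : FiniteDimensional (ZMod p) V := Module.finite_of_finrank_pos (by omega)
  have hVf : Finite V := Module.finite_of_finite (ZMod p)
  have hVc : Nat.card V = p ^ 3 := by
    rw [Module.natCard_eq_pow_finrank (K := ZMod p), hV, Nat.card_zmod]
  have hI : Function.Injective (T32z_πQ t) := by
    rw [injective_iff_map_eq_zero]
    intro v hv
    rw [T32z_πQ_apply, QuotientAddGroup.eq_zero_iff, T32z_mem_pZ] at hv
    exact hinj v hv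
  have hle : p ^ 3 ≤ Nat.card (Z ⧸ T32z_pZ p Z) := by
    rw [← hVc]
    exact Nat.card_le_card_of_injective _ hI
  have hmul := AddSubgroup.card_eq_card_quotient_mul_card_addSubgroup (T32z_pZ p Z)
  rw [hZ] at hmul
  have hdvd : Nat.card (T32z_pZ p Z) ∣ p ^ 4 := ⟨_, by rw [hmul, mul_comm]⟩
  obtain ⟨j, -, hj⟩ := (Nat.dvd_prime_pow hp).1 hdvd
  have hj1 : j ≠ 0 := by
    rintro rfl
    rw [pow_zero] at hj
    obtain ⟨z, hz⟩ := hpZ
    have h1 := (AddSubgroup.card_eq_one).1 hj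
    have h3 : p • z ∈ T32z_pZ p Z := T32z_mem_pZ.2 ⟨z, rfl⟩
    rw [h1, AddSubgroup.mem_bot] at h3
    exact hz h3
  have hj2 : j ≤ 1 := by
    by_contra h
    push Not at h
    have h1 : p ^ 3 * p ^ 2 ≤ p ^ 4 := by
      calc p ^ 3 * p ^ 2 ≤ p ^ 3 * p ^ j := Nat.mul_le_mul_left _ (Nat.pow_le_pow_right hp.pos h)
        _ ≤ Nat.card (Z ⧸ T32z_pZ p Z) * p ^ j := Nat.mul_le_mul_right _ hle
        _ = p ^ 4 := by rw [hmul, hj]
    rw [← pow_add] at h1
    have := (Nat.pow_le_pow_iff_right hp.one_lt).1 h1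
    omega
  have hj3 : j = 1 := by omega
  rw [hj3, pow_one] at hj
  have hQ : Nat.card (Z ⧸ T32z_pZ p Z) = p ^ 3 := by
    rw [hj] at hmul
    have h1 : p ^ 3 * p = Nat.card (Z ⧸ T32z_pZ p Z) * p := by rw [← hmul]; ring
    exact (Nat.eq_of_mul_eq_mul_right hp.pos h1).symm
  refine ⟨(Nat.bijective_iff_injective_and_card _).2 ⟨hI, by rw [hVc, hQ]⟩, hj, ?_⟩
  intro z
  have h1 : Nat.card (T32z_pZ p Z) • (⟨p • z, T32z_mem_pZ.2 ⟨z, rfl⟩⟩ : T32z_pZ p Z) = 0 :=
    card_nsmul_eq_zero'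
  rw [hj] at h1
  exact congrArg Subtype.val h1

/-- The additive map `v ↦ p • π v`. -/
def T32_mu {p : ℕ} {V Z : Type*} [AddCommGroup V] [AddCommGroup Z] (t : TD p V Z)
    (h : ∀ z : Z, p • (p • z) = 0) : V →+ Z where
  toFun v := p • t.π v
  map_zero' := by
    obtain ⟨w, hw⟩ := t.add 0 0
    have h1 : t.π 0 = -(p • w) := by
      rw [← hw]
      simp
    rw [h1, smul_neg, h, neg_zero]
  map_add' := by
    intro u v
    obtain ⟨w, hw⟩ := t.add u v
    have h1 : t.π (u + v) = t.π u + t.π v + p • w := by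
      rw [← hw]
      abel
    rw [h1, smul_add, h, add_zero, smul_add]

/-- Coordinates for a basis of three vectors. -/
theorem T32_coords {K V : Type*} [Field K] [AddCommGroup V] [Module K V] (hV : finrank K V = 3)
    (e : Fin 3 → V) (he : LinearIndependent K e) :
    ∃ f : Fin 3 → (V →ₗ[K] K), (∀ i j, f i (e j) = if i = j then 1 else 0) ∧
      ∀ v, v = f 0 v • e 0 + f 1 v • e 1 + f 2 v • e 2 := by
  have hfin : FiniteDimensional K V := Module.finite_of_finrank_pos (by omega)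
  have hspan : Submodule.span K (Set.range e) = ⊤ :=
    he.span_eq_top_of_card_eq_finrank (by rw [hV]; simp)
  let B := Basis.mk he hspan.ge
  have hB : ∀ i, B i = e i := fun i => by simp [B]
  refine ⟨fun i => B.coord i, ?_, ?_⟩
  · intro i j
    rw [← hB j, Basis.coord_apply, Basis.repr_self, Finsupp.single_apply]
    simp [eq_comm]
  · intro v
    have h := B.sum_repr v
    rw [Fin.sum_univ_three, hB, hB, hB] at h
    exact h.symm

/-- Two independent vectors extend to a basis. -/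
theorem T32_extend {K V : Type*} [Field K] [AddCommGroup V] [Module K V] (hV : finrank K V = 3)
    (x y : V) (h : LinearIndependent K ![x, y]) : ∃ z, LinearIndependent K ![x, y, z] := by
  have hfin : FiniteDimensional K V := Module.finite_of_finrank_pos (by omega)
  obtain ⟨z, hz⟩ := exists_linearIndependent_snoc_of_lt_finrank h (by rw [hV]; norm_num)
  have hs : (Fin.snoc ![x, y] z : Fin 3 → V) = ![x, y, z] := by
    ext i
    fin_cases i <;> rfl
  exact ⟨z, hs ▸ hz⟩

/-- [M7 T32n-eps] PROOF. `π` induces an additive injective map `V → Z ⧸ p Z` (`hinj`), so `|Z ⧸ p Z| ≥ p^3`; as `p Z ≠ 0` and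
`|Z| = p^4`: `|Z ⧸ p Z| = p^3`, `|p Z| = p`, the map is bijective, `p (p Z) = 0`, and `Z[p] = {z | p z = 0}` has order
`|Z ⧸ p Z| = p^3` (it is the kernel of `z ↦ p z`) and contains `p Z`. Let `A = span (a1, a2)`. In `Z ⧸ p Z` (order `p^3`) the
image of `Z[p]` has order `p^2` and the image of `π (A)` has order `p^2`, so they meet non-trivially: there are `a ∈ A`, `a ≠ 0`, and `y`
with `p y = 0`, `π a - y ∈ p Z`. The subgroup `E = π (A) + p Z` (it is a subgroup) has order `p^3`, index `p`; let `χ : Z →+ ZMod p` be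
onto with kernel `E`. `χ y = χ (π a) = 0`; `χ = 0` on `D` by `hsub`. `χV v = χ (π v)` is additive with kernel `A` (if
`π v ∈ π a' + p Z`, `a' ∈ A`, then `π (v - a') ∈ p Z`, `v = a'`). Put `g u = u + χV u • a`, `c z = z + (χ z).val • y` (`exists_transvection`).
`c = 1` on `D`; `β (g u) (g v) = β u v + χV u β a v + χV v β u a = β u v` because (choose `b`, `χV b = 1`) `β a v = χV v β a b` as `A` is isotropic.
`π (g u) - c (π u) ∈ χV u • π a - χV u • y + p Z = p Z`. `g b = b + a ≠ b`. -/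
theorem T32n_eps (p : ℕ) [Fact p.Prime] {V Z : Type*} [AddCommGroup V] [AddCommGroup Z] [Finite Z]
    [Module (ZMod p) V] (hV : finrank (ZMod p) V = 3) (t : TD p V Z) (hZ : Nat.card Z = p ^ 4)
    (hpZ : ∃ z : Z, p • z ≠ 0) (hinj : ∀ v, (∃ z, t.π v = p • z) → v = 0)
    (a1 a2 : V) (ha : LinearIndependent (ZMod p) ![a1, a2]) (hiso : t.β a1 a2 = 0)
    (hsub : ∀ d ∈ t.D, ∃ a ∈ Submodule.span (ZMod p) {a1, a2}, ∃ z, d = t.π a + p • z) : t.NonFree := by
  have hp : p.Prime := Fact.out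
  have hfin : FiniteDimensional (ZMod p) V := Module.finite_of_finrank_pos (by omega)
  obtain ⟨hbij, hcard, hpp⟩ := T32_basic p hV t hZ hpZ hinj
  obtain ⟨b, hb⟩ := T32_extend hV a1 a2 ha
  obtain ⟨f, hf, hv⟩ := T32_coords hV ![a1, a2, b] hb
  have f21 : f 2 a1 = 0 := by simpa using hf 2 0
  have f22 : f 2 a2 = 0 := by simpa using hf 2 1
  have f23 : f 2 b = 1 := by simpa using hf 2 2
  have hpV : ∀ v : V, p • v = 0 := by
    intro v
    rw [← Nat.cast_smul_eq_nsmul (ZMod p) p v, ZMod.natCast_self, zero_smul]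
  -- a nonzero `a ∈ A` with `p • π a = 0`
  obtain ⟨a, haA, ha0, hpa⟩ : ∃ a ∈ Submodule.span (ZMod p) {a1, a2}, a ≠ 0 ∧ p • t.π a = 0 := by
    set A := Submodule.span (ZMod p) {a1, a2} with hA
    have hAc : Nat.card A = p ^ 2 := by
      have h1 : finrank (ZMod p) A = 2 := by
        have h3 := finrank_span_eq_card ha
        have hr : Set.range ![a1, a2] = {a1, a2} := by
          simp [Matrix.range_cons, Set.pair_comm]
        rw [hr] at h3
        simpa using h3
      rw [Module.natCard_eq_pow_finrank (K := ZMod p), h1, Nat.card_zmod]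
    let ν : A →+ Z := (T32_mu t hpp).comp A.subtype.toAddMonoidHom
    have hν : ∀ x : A, ν x = p • t.π x := fun x => rfl
    by_contra hcon
    push Not at hcon
    have hνi : Function.Injective ν := by
      rw [injective_iff_map_eq_zero]
      intro x hx
      by_contra hx0
      exact hcon x x.2 (fun h => hx0 (Subtype.ext h)) (by rw [← hν]; exact hx)
    have hνm : ∀ x, ν x ∈ T32z_pZ p Z := fun x => T32z_mem_pZ.2 ⟨t.π x, rfl⟩
    have h1 : Nat.card A ≤ Nat.card (T32z_pZ p Z) :=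
      Nat.card_le_card_of_injective (fun x => (⟨ν x, hνm x⟩ : T32z_pZ p Z))
        (fun x y hxy => hνi (congrArg Subtype.val hxy))
    rw [hAc, hcard] at h1
    have h3 : p ^ 1 < p ^ 2 := Nat.pow_lt_pow_right hp.one_lt (by norm_num)
    rw [pow_one] at h3
    omega
  obtain ⟨s, r, hsr⟩ := Submodule.mem_span_pair.1 haA
  have f2a : f 2 a = 0 := by rw [← hsr, map_add, map_smul, map_smul, f21, f22]; simp
  -- the functional on `Z`
  let eQ : V ≃+ Z ⧸ T32z_pZ p Z := AddEquiv.ofBijective (T32z_πQ t) hbij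
  let χ : Z →+ ZMod p := ((f 2).toAddMonoidHom.comp eQ.symm.toAddMonoidHom).comp
    (QuotientAddGroup.mk' (T32z_pZ p Z))
  have hχπ : ∀ v, χ (t.π v) = f 2 v := by
    intro v
    change f 2 (eQ.symm (t.π v : Z ⧸ T32z_pZ p Z)) = f 2 v
    have h1 : (t.π v : Z ⧸ T32z_pZ p Z) = eQ v := rfl
    rw [h1, AddEquiv.symm_apply_apply]
  have hχp : ∀ z, χ (p • z) = 0 := by
    intro z
    rw [map_nsmul, nsmul_eq_mul, ZMod.natCast_self, zero_mul]
  have hχD : ∀ d ∈ t.D, χ d = 0 := by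
    intro d hd
    obtain ⟨a', ha', z, rfl⟩ := hsub d hd
    obtain ⟨s', r', hsr'⟩ := Submodule.mem_span_pair.1 ha'
    rw [map_add, hχp, hχπ, ← hsr', map_add, map_smul, map_smul, f21, f22]
    simp
  obtain ⟨g, hg⟩ := exists_transvection p (f 2).toAddMonoidHom a (hpV a) f2a
  obtain ⟨c, hc⟩ := exists_transvection p χ (t.π a) hpa (by rw [hχπ, f2a])
  have hg' : ∀ v, g v = v + (f 2 v).val • a := hg
  have hone : (1 : ZMod p).val = 1 := by
    have : Fact (1 < p) := ⟨hp.one_lt⟩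
    exact ZMod.val_one p
  have hga1 : g a1 = a1 := by rw [hg', f21]; simp
  have hga2 : g a2 = a2 := by rw [hg', f22]; simp
  have hgb : g b = b + a := by rw [hg', f23, hone, one_smul]
  have hiso' : t.β a2 a1 = 0 := by rw [t.skew, hiso, neg_zero]
  have hβa : t.β a1 a = 0 ∧ t.β a2 a = 0 := by
    rw [← hsr, T32z_smul_val, T32z_smul_val]
    simp [t.alt, hiso, hiso']
  have hcβ : ∀ u v, c (t.β u v) = t.β u v := by
    intro u v
    rw [hc, hχD _ (t.β_mem_D u v)]
    simp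
  refine T32z_nonFree3 p hV t ![a1, a2, b] hb g c ⟨b, ?_⟩ ?_ ?_ ?_ ?_
  · rw [hgb]
    intro h
    exact ha0 (by simpa using h)
  · change c (t.β a1 a2) = t.β (g a1) (g a2)
    rw [hcβ, hga1, hga2]
  · change c (t.β a1 b) = t.β (g a1) (g b)
    rw [hcβ, hga1, hgb, map_add, hβa.1, add_zero]
  · change c (t.β a2 b) = t.β (g a2) (g b)
    rw [hcβ, hga2, hgb, map_add, hβa.2, add_zero]
  · intro i
    fin_cases i
    · change (t.π (g a1) : Z ⧸ T32z_pZ p Z) = (c (t.π a1) : Z ⧸ T32z_pZ p Z)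
      rw [hga1, hc, hχπ, f21]
      simp
    · change (t.π (g a2) : Z ⧸ T32z_pZ p Z) = (c (t.π a2) : Z ⧸ T32z_pZ p Z)
      rw [hga2, hc, hχπ, f22]
      simp
    · change (t.π (g b) : Z ⧸ T32z_pZ p Z) = (c (t.π b) : Z ⧸ T32z_pZ p Z)
      rw [hgb, hc, hχπ, f23, hone, one_smul, ← T32z_πQ_apply, map_add]
      rfl

end MP_02e52a.M7
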