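import Pool.Agent.Lib.MP_02e52a_al.M7.L4

namespace MP_02e52a.M7

open Module

variable {F : Type*} [Field F] {V Z : Type*} [AddCommGroup V] [Module F V] [AddCommGroup Z] [Module F Z]

private theorem T33e_span (β : V →ₗ[F] V →ₗ[F] Z) (alt : ∀ v, β v v = 0) (π : V →ₗ[F] Z)
    (D : Submodule F Z) (hspan : Submodule.span F {w | ∃ u v, w = β u v} = D)
    (hND : ∀ z : Z, ∃ d ∈ D, ∃ v, z = d + π v) (b : Basis (Fin 3) F V)
    (h0 : π (b 0) ∈ D) (h1 : π (b 1) ∈ D) :
    ⊤ ≤ Submodule.span F (Set.range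
      ![β (b 0) (b 1), β (b 0) (b 2), β (b 1) (b 2), π (b 2)]) := by
  set S := Submodule.span F (Set.range
      ![β (b 0) (b 1), β (b 0) (b 2), β (b 1) (b 2), π (b 2)]) with hS
  have anti : ∀ u v : V, β v u = -β u v := by
    intro u v
    have h := alt (u + v)
    simp only [map_add, LinearMap.add_apply, alt, zero_add, add_zero] at h
    exact eq_neg_of_add_eq_zero_left h
  have m0 : β (b 0) (b 1) ∈ S := Submodule.subset_span ⟨0, rfl⟩
  have m1 : β (b 0) (b 2) ∈ S := Submodule.subset_span ⟨1, rfl⟩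
  have m2 : β (b 1) (b 2) ∈ S := Submodule.subset_span ⟨2, rfl⟩
  have m3 : π (b 2) ∈ S := Submodule.subset_span ⟨3, rfl⟩
  have hb : ∀ i j : Fin 3, β (b i) (b j) ∈ S := by
    intro i j
    fin_cases i <;> fin_cases j
    · simp [alt]
    · exact m0
    · exact m1
    · show β (b 1) (b 0) ∈ S
      rw [anti (b 0) (b 1)]
      exact S.neg_mem m0
    · simp [alt]
    · exact m2
    · show β (b 2) (b 0) ∈ S
      rw [anti (b 0) (b 2)]
      exact S.neg_mem m1
    · show β (b 2) (b 1) ∈ S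
      rw [anti (b 1) (b 2)]
      exact S.neg_mem m2
    · simp [alt]
  have hu : ∀ (u : V) (j : Fin 3), β u (b j) ∈ S := by
    intro u j
    rw [← b.sum_repr u, map_sum, LinearMap.sum_apply]
    refine S.sum_mem fun i _ => ?_
    rw [map_smul, LinearMap.smul_apply]
    exact S.smul_mem _ (hb i j)
  have huv : ∀ u v : V, β u v ∈ S := by
    intro u v
    rw [← b.sum_repr v, map_sum]
    refine S.sum_mem fun i _ => ?_
    rw [map_smul]
    exact S.smul_mem _ (hu u i)
  have hDS : D ≤ S := by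
    rw [← hspan, Submodule.span_le]
    rintro w ⟨u, v, rfl⟩
    exact huv u v
  have hπ : ∀ v, π v ∈ S := by
    intro v
    rw [← b.sum_repr v, map_sum]
    refine S.sum_mem fun i _ => ?_
    rw [map_smul]
    refine S.smul_mem _ ?_
    fin_cases i
    · exact hDS h0
    · exact hDS h1
    · exact m3
  intro z _
  obtain ⟨d, hd, v, rfl⟩ := hND z
  exact S.add_mem (hDS hd) (hπ v)

private theorem T33e_aux (hZ : finrank F Z = 4)
    (β : V →ₗ[F] V →ₗ[F] Z) (alt : ∀ v, β v v = 0) (π : V →ₗ[F] Z)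
    (D : Submodule F Z) (hspan : Submodule.span F {w | ∃ u v, w = β u v} = D)
    (hND : ∀ z : Z, ∃ d ∈ D, ∃ v, z = d + π v) (b : Basis (Fin 3) F V) (g : V ≃ₗ[F] V)
    (h0 : π (b 0) ∈ D) (h1 : π (b 1) ∈ D) (g0 : π (g (b 0)) ∈ D) (g1 : π (g (b 1)) ∈ D) :
    ∃ c : Z ≃ₗ[F] Z, (∀ u v, c (β u v) = β (g u) (g v)) ∧ c (π (b 2)) = π (g (b 2)) := by
  have anti : ∀ u v : V, β v u = -β u v := by
    intro u v
    have h := alt (u + v)
    simp only [map_add, LinearMap.add_apply, alt, zero_add, add_zero] at h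
    exact eq_neg_of_add_eq_zero_left h
  have s1 := T33e_span β alt π D hspan hND b h0 h1
  have s2 := T33e_span β alt π D hspan hND (b.map g) (by simpa using g0) (by simpa using g1)
  let B := basisOfTopLeSpanOfCardEqFinrank _ s1 (by simp [hZ])
  let B' := basisOfTopLeSpanOfCardEqFinrank _ s2 (by simp [hZ])
  let c := B.equiv B' (Equiv.refl _)
  have hc : ∀ i, c (B i) = B' i := fun i => by simp [c]
  have e0 : c (β (b 0) (b 1)) = β (g (b 0)) (g (b 1)) := by
    have := hc 0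
    simpa [B, B'] using this
  have e1 : c (β (b 0) (b 2)) = β (g (b 0)) (g (b 2)) := by
    have := hc 1
    simpa [B, B'] using this
  have e2 : c (β (b 1) (b 2)) = β (g (b 1)) (g (b 2)) := by
    have := hc 2
    simpa [B, B'] using this
  have e3 : c (π (b 2)) = π (g (b 2)) := by
    have := hc 3
    simpa [B, B'] using this
  refine ⟨c, ?_, e3⟩
  have key : β.compr₂ (c : Z →ₗ[F] Z) = β.compl₁₂ (g : V →ₗ[F] V) (g : V →ₗ[F] V) := by
    refine LinearMap.ext_basis b b fun i j => ?_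
    show c (β (b i) (b j)) = β (g (b i)) (g (b j))
    fin_cases i <;> fin_cases j
    · simp [alt]
    · exact e0
    · exact e1
    · show c (β (b 1) (b 0)) = β (g (b 1)) (g (b 0))
      rw [anti (b 0) (b 1), anti (g (b 0)) (g (b 1)), map_neg, e0]
    · simp [alt]
    · exact e2
    · show c (β (b 2) (b 0)) = β (g (b 2)) (g (b 0))
      rw [anti (b 0) (b 2), anti (g (b 0)) (g (b 2)), map_neg, e1]
    · show c (β (b 2) (b 1)) = β (g (b 2)) (g (b 1))
      rw [anti (b 1) (b 2), anti (g (b 1)) (g (b 2)), map_neg, e2]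
    · simp [alt]
  intro u v
  exact LinearMap.congr_fun (LinearMap.congr_fun key u) v

private theorem T33e_ker {W : Type*} [AddCommGroup W] [Module F W] [FiniteDimensional F W]
    (f : W →ₗ[F] F) (hf : f ≠ 0) : finrank F (LinearMap.ker f) + 1 = finrank F W := by
  have h := f.finrank_range_add_finrank_ker
  rw [LinearMap.range_eq_top.2 (LinearMap.surjective hf), finrank_top, finrank_self] at h
  omega

/-- the map `g` -/
private theorem T33e_g (h2 : (2 : F) ≠ 0) (β : V →ₗ[F] V →ₗ[F] Z) (alt : ∀ v, β v v = 0)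
    (ψ : V →ₗ[F] F) (v0 w k : V) (hv0 : v0 ≠ 0) (hw : ψ w ≠ 0) (hk : ψ k = 0) (hk0 : k ≠ 0) :
    ∃ (g : V ≃ₗ[F] V) (ε : F), (∃ v, g v ≠ v) ∧ g v0 = v0 ∧ (∀ k, ψ k = 0 → g k = ε • k) ∧
      ∀ x, β v0 (g x) = ε • β v0 x := by
  by_cases h : ψ v0 = 0
  · let f : V →ₗ[F] V := LinearMap.id + ψ.smulRight v0
    let f' : V →ₗ[F] V := LinearMap.id - ψ.smulRight v0
    have e1 : f ∘ₗ f' = LinearMap.id := by
      ext x
      simp [f, f', h]
    have e2 : f' ∘ₗ f = LinearMap.id := by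
      ext x
      simp [f, f', h]
    refine ⟨LinearEquiv.ofLinearMap f f' e1 e2, 1, ⟨w, ?_⟩, ?_, ?_, ?_⟩
    · show w + ψ w • v0 ≠ w
      intro h3
      have h4 : ψ w • v0 = 0 := by simpa using h3
      rcases smul_eq_zero.1 h4 with h5 | h5
      · exact hw h5
      · exact hv0 h5
    · show v0 + ψ v0 • v0 = v0
      rw [h, zero_smul, add_zero]
    · intro k hk
      show k + ψ k • v0 = (1 : F) • k
      rw [hk, zero_smul, add_zero, one_smul]
    · intro x
      show β v0 (x + ψ x • v0) = (1 : F) • β v0 x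
      rw [map_add, map_smul, alt, smul_zero, add_zero, one_smul]
  · let f : V →ₗ[F] V := -LinearMap.id + (2 / ψ v0) • ψ.smulRight v0
    have hf : ∀ x, f x = -x + (2 / ψ v0) • (ψ x • v0) := fun x => rfl
    have hψ : ∀ x, ψ (f x) = ψ x := by
      intro x
      rw [hf, map_add, map_neg, map_smul, map_smul, smul_eq_mul, smul_eq_mul]
      field_simp
      ring
    have hinv : Function.Involutive f := by
      intro x
      rw [hf (f x), hψ, hf x]
      abel
    refine ⟨LinearEquiv.ofInvolutive f hinv, -1, ⟨k, ?_⟩, ?_, ?_, ?_⟩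
    · show f k ≠ k
      rw [hf, hk, zero_smul, smul_zero, add_zero]
      intro h3
      have h4 : (2 : F) • k = 0 := by
        rw [two_smul]
        nth_rewrite 1 [← h3]
        exact neg_add_cancel k
      rcases smul_eq_zero.1 h4 with h5 | h5
      · exact h2 h5
      · exact hk0 h5
    · show f v0 = v0
      rw [hf, smul_smul, div_mul_cancel₀ _ h, two_smul]
      abel
    · intro k hk
      show f k = (-1 : F) • k
      rw [hf, hk, zero_smul, smul_zero, add_zero, neg_smul, one_smul]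
    · intro x
      show β v0 (f x) = (-1 : F) • β v0 x
      rw [hf, map_add, map_neg, map_smul, map_smul, alt, smul_zero, smul_zero, add_zero,
        neg_smul, one_smul]

/-- [M7 T33e] `dim V = 3`, `dim Z = 4`, span of `β` = `D` of dimension 3, `D + π (V) = Z`. PROOF. Let `φ` be a
functional on `Z` with kernel `D`; `φ ∘ π ≠ 0`, `K = ker (φ ∘ π)` has dimension 2, `π (K) ≤ D` has dimension `≤ 2`,
so by `exists_dual_vector` there is `v0 ≠ 0` with `π (K) ⊆ β v0 V`.
* `v0 ∉ K`: `V = K ⊕ F v0`, `K = span (k1, k2)`. `g = -1` on `K`, `g v0 = v0`. `D` has basis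
  `β k1 k2, β k1 v0, β k2 v0`; `Z = D ⊕ F • π v0` (`φ (π v0) ≠ 0`). `c`: `β k1 k2 ↦ β k1 k2`, `β k i v0 ↦ - β k i v0`,
  `π v0 ↦ π v0`. Then `c (β u v) = β (g u) (g v)` (check on the basis), `c (π x) = - π x = π (g x)` for `x ∈ K` because
  `π x ∈ β v0 V = span (β k1 v0, β k2 v0)`, and `c (π v0) = π v0`. `g ≠ 1` by `h2`.
* `v0 ∈ K`: `K = span (k1, v0)`, choose `v1 ∉ K`. `g = 1` on `K`, `g v1 = v1 + v0`. `D` has basis
  `β k1 v0, β v0 v1, β k1 v1`; `Z = D ⊕ F • π v1`. `c`: identity on `β k1 v0, β v0 v1`, `β k1 v1 ↦ β k1 v1 + β k1 v0`,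
  `π v1 ↦ π v1 + π v0`. `c` is identity on `β v0 V = span (β k1 v0, β v0 v1) ⊇ π (K)`, so `c (π x) = π x = π (g x)` on `K`. -/
theorem T33e (h2 : (2 : F) ≠ 0) (hV : finrank F V = 3) (hZ : finrank F Z = 4)
    (β : V →ₗ[F] V →ₗ[F] Z) (alt : ∀ v, β v v = 0) (π : V →ₗ[F] Z)
    (D : Submodule F Z) (hD : finrank F D = 3) (hspan : Submodule.span F {w | ∃ u v, w = β u v} = D)
    (hND : ∀ z : Z, ∃ d ∈ D, ∃ v, z = d + π v) :
    ∃ (g : V ≃ₗ[F] V) (c : Z ≃ₗ[F] Z), (∃ v, g v ≠ v) ∧ (∀ u v, c (β u v) = β (g u) (g v)) ∧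
      ∀ v, π (g v) = c (π v) := by
  have : FiniteDimensional F V := FiniteDimensional.of_finrank_pos (by omega)
  have : FiniteDimensional F Z := FiniteDimensional.of_finrank_pos (by omega)
  have hDtop : D < ⊤ := by
    rw [lt_top_iff_ne_top]
    rintro rfl
    rw [finrank_top] at hD
    omega
  obtain ⟨φ, hφ0, hφD⟩ := Submodule.exists_le_ker_of_lt_top D hDtop
  have hφker : LinearMap.ker φ = D := by
    symm
    refine Submodule.eq_of_le_of_finrank_eq hφD ?_
    have := T33e_ker φ hφ0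
    omega
  set ψ : V →ₗ[F] F := φ ∘ₗ π with hψ
  have hmem : ∀ v, ψ v = 0 → π v ∈ D := by
    intro v hv
    rw [← hφker]
    exact hv
  have hψ0 : ψ ≠ 0 := by
    intro h0
    apply hDtop.ne
    rw [eq_top_iff]
    intro z _
    obtain ⟨d, hd, v, rfl⟩ := hND z
    exact D.add_mem hd (hmem v (by rw [h0]; rfl))
  have hK : finrank F (LinearMap.ker ψ) = 2 := by
    have := T33e_ker ψ hψ0
    omega
  set U : Submodule F Z := (LinearMap.ker ψ).map π with hU
  have hUD : U ≤ D := by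
    rintro _ ⟨k, hk, rfl⟩
    exact hmem k hk
  have hUf : finrank F U ≤ 2 := by
    rw [← hK]
    exact Submodule.finrank_map_le π (LinearMap.ker ψ)
  obtain ⟨v0, hv0, hUv⟩ := exists_dual_vector hV β alt D hD hspan U hUD hUf
  obtain ⟨w, hw⟩ : ∃ w, ψ w ≠ 0 := by
    by_contra hcon
    push Not at hcon
    exact hψ0 (LinearMap.ext hcon)
  let Kb : Basis (Fin 2) F (LinearMap.ker ψ) := finBasisOfFinrankEq F _ hK
  have hk1 : ψ (Kb 0 : V) = 0 := (Kb 0).2
  have hk2 : ψ (Kb 1 : V) = 0 := (Kb 1).2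
  have hli2 : LinearIndependent F ![(Kb 0 : V), (Kb 1 : V)] := by
    have h := Kb.linearIndependent.map' (LinearMap.ker ψ).subtype (Submodule.ker_subtype _)
    have e : ((LinearMap.ker ψ).subtype ∘ Kb) = ![(Kb 0 : V), (Kb 1 : V)] := by
      funext i
      fin_cases i <;> rfl
    rwa [e] at h
  have hwn : w ∉ Submodule.span F {(Kb 0 : V), (Kb 1 : V)} := by
    intro h
    apply hw
    have hle : Submodule.span F {(Kb 0 : V), (Kb 1 : V)} ≤ LinearMap.ker ψ := by
      rw [Submodule.span_le]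
      intro x hx
      rcases hx with rfl | hx
      · exact hk1
      · rw [Set.mem_singleton_iff] at hx
        rw [hx]
        exact hk2
    exact hle h
  obtain ⟨hli, -⟩ := basis_three_of_notMem hV (Kb 0 : V) (Kb 1 : V) w hli2 hwn
  let b : Basis (Fin 3) F V := basisOfLinearIndependentOfCardEqFinrank hli (by simp [hV])
  have hb0 : b 0 = (Kb 0 : V) := by simp [b]
  have hb1 : b 1 = (Kb 1 : V) := by simp [b]
  have hk0 : (Kb 0 : V) ≠ 0 := by
    have := hli2.ne_zero 0
    simpa using this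
  obtain ⟨g, ε, hg1, hgv0, hgk, hgβ⟩ := T33e_g h2 β alt ψ v0 w (Kb 0 : V) hv0 hw hk1 hk0
  have hψb0 : ψ (b 0) = 0 := by rw [hb0]; exact hk1
  have hψb1 : ψ (b 1) = 0 := by rw [hb1]; exact hk2
  have hgD : ∀ k, ψ k = 0 → π (g k) ∈ D := by
    intro k hk
    rw [hgk k hk, map_smul]
    exact D.smul_mem _ (hmem k hk)
  obtain ⟨c, hc, hc2⟩ := T33e_aux hZ β alt π D hspan hND b g (hmem _ hψb0) (hmem _ hψb1)
    (hgD _ hψb0) (hgD _ hψb1)
  have hkc : ∀ k, ψ k = 0 → π (g k) = c (π k) := by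
    intro k hk
    obtain ⟨x, hx⟩ := hUv (π k) ⟨k, hk, rfl⟩
    rw [hgk k hk, map_smul, hx, hc, hgv0, hgβ]
  refine ⟨g, c, hg1, hc, ?_⟩
  have key : π ∘ₗ (g : V →ₗ[F] V) = (c : Z →ₗ[F] Z) ∘ₗ π := by
    refine b.ext fun i => ?_
    show π (g (b i)) = c (π (b i))
    fin_cases i
    · exact hkc _ hψb0
    · exact hkc _ hψb1
    · exact hc2.symm
  intro v
  exact LinearMap.congr_fun key v

end MP_02e52a.M7
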