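import Pool.Agent.Lib.MP_02e52a_al.M7.AddTools

namespace MP_02e52a.M7

open Module

private lemma T33n1_pD {p : ℕ} [Fact p.Prime] {V Z : Type*} [AddCommGroup V] [AddCommGroup Z]
    [Module (ZMod p) V] (t : TD p V Z) : ∀ d ∈ t.D, p • d = 0 := by
  intro d hd
  induction hd using AddSubgroup.closure_induction with
  | mem x hx =>
    obtain ⟨u, v, rfl⟩ := hx
    have h : p • u = 0 := by
      rw [← Nat.cast_smul_eq_nsmul (ZMod p)]; simp
    rw [← AddMonoidHom.nsmul_apply, ← map_nsmul, h, map_zero, AddMonoidHom.zero_apply]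
  | zero => simp
  | add x y _ _ hx hy => rw [smul_add, hx, hy, add_zero]
  | neg x _ hx => rw [smul_neg, hx, neg_zero]

private lemma T33n1_val {p : ℕ} [Fact p.Prime] {Z : Type*} [AddCommGroup Z] (x : Z)
    (hx : p • x = 0) : (-1 : ZMod p).val • x = -x := by
  have hp : p.Prime := Fact.out
  have : Fact (1 < p) := ⟨hp.one_lt⟩
  have h1 : (((-1 : ZMod p).val + 1 : ℕ) : ZMod p) = 0 := by
    push_cast
    rw [ZMod.natCast_zmod_val]; simp
  rw [ZMod.natCast_eq_zero_iff] at h1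
  obtain ⟨k, hk⟩ := h1
  have h2 : ((-1 : ZMod p).val + 1) • x = 0 := by
    rw [hk, mul_comm, mul_smul, hx, smul_zero]
  rw [add_smul, one_smul] at h2
  exact eq_neg_of_add_eq_zero_left h2

/-- [M7 T33n-1] all `π v ∈ D`, basis `e` with `β (e 0) (e 1) ∈ p Z` and `π (e 2) ∈ p Z`. PROOF: `g (e 0) = -e 0`,
`g (e 1) = -e 1`, `g (e 2) = e 2`; `c` on `D`: `β (e 0) (e 1)` fixed, `β (e i) (e 2) ↦ -β (e i) (e 2)` (`i = 0, 1`); `c ζ = ζ` where
`φ ζ = 1` (`exists_extend`; `p • ζ` is a multiple of `β (e 0) (e 1)`, because `β (e 0) (e 1) ≠ 0` generates `p Z` of order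
`p`, so `c (p • ζ) = p • ζ`). `π`: for `x = e 0, e 1`: `π x ∈ D`, `c (π x) ∈ -π x + p Z` (as `c d + d ∈ ℤ β (e 0) (e 1) = p Z` for
`d ∈ D`), `π (-x) ∈ -π x + p Z`. For `e 2`: `π (e 2) ∈ p Z` and `c` preserves `p Z`. `g ≠ 1` since `p ≠ 2`. -/
theorem T33n_1 (p : ℕ) [Fact p.Prime] (hp : p ≠ 2) {V Z : Type*} [AddCommGroup V] [AddCommGroup Z] [Finite Z]
    [Module (ZMod p) V] (hV : finrank (ZMod p) V = 3) (t : TD p V Z) (hZ : Nat.card Z = p ^ 4)
    (hD : Nat.card t.D = p ^ 3) (hpZ : ∃ z : Z, p • z ≠ 0) (h0 : ∀ v, t.π v ∈ t.D)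
    (e : Fin 3 → V) (he : LinearIndependent (ZMod p) e) (h1 : ∃ z, t.β (e 0) (e 1) = p • z)
    (h2 : ∃ z, t.π (e 2) = p • z) : t.NonFree := by
  have hpp : p.Prime := Fact.out
  have hNe : NeZero p := ⟨hpp.ne_zero⟩
  have hlt : Fact (1 < p) := ⟨hpp.one_lt⟩
  have hpD := T33n1_pD t
  have hspan : Submodule.span (ZMod p) (Set.range e) = ⊤ :=
    he.span_eq_top_of_card_eq_finrank (by simp [hV])
  obtain ⟨φ, hφD, ⟨ζ, hζ⟩, -, hφ3⟩ := exists_phi p t.D hpD (by rw [hZ, hD]; ring) hpZ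
  obtain ⟨hζ0, hζD, hζp⟩ := hφ3 ζ hζ
  -- generators of `D`
  let d : Fin 3 → Z := ![t.β (e 0) (e 1), t.β (e 0) (e 2), t.β (e 1) (e 2)]
  have hd : ∀ i, d i ∈ t.D := by
    intro i
    fin_cases i <;> exact t.β_mem_D _ _
  have hgen1 : ∀ i j, t.β (e i) (e j) ∈ AddSubgroup.closure (Set.range d) := by
    have m0 : t.β (e 0) (e 1) ∈ AddSubgroup.closure (Set.range d) :=
      AddSubgroup.subset_closure ⟨0, rfl⟩
    have m1 : t.β (e 0) (e 2) ∈ AddSubgroup.closure (Set.range d) :=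
      AddSubgroup.subset_closure ⟨1, rfl⟩
    have m2 : t.β (e 1) (e 2) ∈ AddSubgroup.closure (Set.range d) :=
      AddSubgroup.subset_closure ⟨2, rfl⟩
    intro i j
    fin_cases i <;> fin_cases j
    · simp only [Fin.zero_eta, t.alt]; exact zero_mem _
    · exact m0
    · exact m1
    · have := t.skew (e 1) (e 0); simp only [Fin.zero_eta, Fin.mk_one]; rw [this]
      exact neg_mem m0
    · simp only [Fin.mk_one, t.alt]; exact zero_mem _
    · exact m2
    · have := t.skew (e 2) (e 0); simp only [Fin.zero_eta, Fin.reduceFinMk]; rw [this]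
      exact neg_mem m1
    · have := t.skew (e 2) (e 1); simp only [Fin.mk_one, Fin.reduceFinMk]; rw [this]
      exact neg_mem m2
    · simp only [Fin.reduceFinMk, t.alt]; exact zero_mem _
  -- span induction in an additive form
  have hind : ∀ P : V → Prop, P 0 → (∀ u v, P u → P v → P (u + v)) → (∀ i, P (e i)) → ∀ v, P v := by
    intro P hP0 hPa hPe v
    have hv : v ∈ Submodule.span (ZMod p) (Set.range e) := by rw [hspan]; trivial
    have hsm : ∀ (n : ℕ) (x : V), P x → P (n • x) := by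
      intro n x hx
      induction n with
      | zero => simpa using hP0
      | succ n ih => rw [add_smul, one_smul]; exact hPa _ _ ih hx
    induction hv using Submodule.span_induction with
    | mem x hx => obtain ⟨i, rfl⟩ := hx; exact hPe i
    | zero => exact hP0
    | add x y _ _ hx hy => exact hPa _ _ hx hy
    | smul a x _ hx =>
      have : a • x = a.val • x := by
        rw [← Nat.cast_smul_eq_nsmul (ZMod p), ZMod.natCast_zmod_val]
      rw [this]; exact hsm _ _ hx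
  have hgen2 : ∀ u v, t.β u v ∈ AddSubgroup.closure (Set.range d) := by
    intro u
    refine hind _ ?_ ?_ ?_
    · rw [map_zero]; exact zero_mem _
    · intro v w hv hw
      rw [map_add]; exact add_mem hv hw
    · intro j
      revert u
      refine hind _ ?_ ?_ ?_
      · rw [map_zero, AddMonoidHom.zero_apply]; exact zero_mem _
      · intro v w hv hw
        rw [map_add, AddMonoidHom.add_apply]; exact add_mem hv hw
      · intro i; exact hgen1 i j
  have gen : AddSubgroup.closure (Set.range d) = t.D := by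
    apply le_antisymm
    · rw [AddSubgroup.closure_le]
      rintro _ ⟨i, rfl⟩
      exact hd i
    · unfold TD.D
      rw [AddSubgroup.closure_le]
      rintro _ ⟨u, v, rfl⟩
      exact hgen2 u v
  have hone : (1 : ZMod p).val = 1 := ZMod.val_one p
  -- `β (e 0) (e 1) ≠ 0`
  have hb : t.β (e 0) (e 1) ≠ 0 := by
    intro hb
    have hd0 : d 0 = 0 := hb
    have hall : ∀ i, d i = 0 := by
      intro i
      fin_cases i
      · exact hd0
      · obtain ⟨cD, hcD⟩ := exists_aut_three p t.D hpD hD d hd gen !![0, 1, 0; 1, 0, 0; 0, 0, 1]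
          (by simp [Matrix.det_fin_three])
        have h := hcD 0
        have hz : (⟨d 0, hd 0⟩ : t.D) = 0 := Subtype.ext hd0
        rw [hz, map_zero] at h
        simpa [Fin.sum_univ_three, hone] using h.symm
      · obtain ⟨cD, hcD⟩ := exists_aut_three p t.D hpD hD d hd gen !![0, 0, 1; 0, 1, 0; 1, 0, 0]
          (by simp [Matrix.det_fin_three])
        have h := hcD 0
        have hz : (⟨d 0, hd 0⟩ : t.D) = 0 := Subtype.ext hd0
        rw [hz, map_zero] at h
        simpa [Fin.sum_univ_three, hone] using h.symm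
    have hbot : t.D = ⊥ := by
      rw [← gen, AddSubgroup.closure_eq_bot_iff]
      rintro _ ⟨i, rfl⟩
      exact hall i
    rw [hbot] at hD
    simp only [AddSubgroup.card_bot] at hD
    exact absurd hD (Nat.one_lt_pow (by norm_num) hpp.one_lt).ne
  obtain ⟨z1, hz1⟩ := h1
  obtain ⟨z2, hz2⟩ := h2
  have hb2 : t.β (e 0) (e 1) = (φ z1).val • (p • ζ) := by rw [hz1]; exact hζp z1
  have hφz1 : φ z1 ≠ 0 := by
    intro h
    rw [h, ZMod.val_zero, zero_smul] at hb2
    exact hb hb2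
  have hζb : p • ζ = ((φ z1)⁻¹).val • t.β (e 0) (e 1) := by
    rw [hb2, smul_smul]
    have h3 : ((((φ z1)⁻¹).val * (φ z1).val : ℕ) : ZMod p) = ((1 : ℕ) : ZMod p) := by
      push_cast
      rw [ZMod.natCast_zmod_val, ZMod.natCast_zmod_val, inv_mul_cancel₀ hφz1]
    rw [ZMod.natCast_eq_natCast_iff] at h3
    have hpζ0 : p • (p • ζ) = 0 := hpD _ hζD
    have h4 : ∀ a b : ℕ, a ≡ b [MOD p] → a • (p • ζ) = b • (p • ζ) := by
      intro a b hab
      have key : ∀ a : ℕ, a • (p • ζ) = (a % p) • (p • ζ) := by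
        intro a
        conv_lhs => rw [← Nat.mod_add_div a p]
        rw [add_smul, mul_comm, mul_smul, hpζ0, smul_zero, add_zero]
      rw [key a, key b, hab]
    rw [h4 _ _ h3, one_smul]
  -- the automorphism of `D`
  obtain ⟨cD, hcD⟩ := exists_aut_three p t.D hpD hD d hd gen !![1, 0, 0; 0, -1, 0; 0, 0, -1]
    (by simp [Matrix.det_fin_three])
  have hc0 : (cD ⟨d 0, hd 0⟩ : Z) = d 0 := by
    have h := hcD 0
    simpa [Fin.sum_univ_three, hone] using h
  have hc1 : (cD ⟨d 1, hd 1⟩ : Z) = - d 1 := by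
    have h := hcD 1
    have h' := T33n1_val (d 1) (hpD _ (hd 1))
    simpa [Fin.sum_univ_three, hone, h'] using h
  have hc2 : (cD ⟨d 2, hd 2⟩ : Z) = - d 2 := by
    have h := hcD 2
    have h' := T33n1_val (d 2) (hpD _ (hd 2))
    simpa [Fin.sum_univ_three, hone, h'] using h
  have hfix : p • ζ = (cD ⟨p • ζ, hζD⟩ : Z) := by
    have h5 : (⟨p • ζ, hζD⟩ : t.D) = ((φ z1)⁻¹).val • (⟨d 0, hd 0⟩ : t.D) := by
      apply Subtype.ext
      rw [AddSubgroup.coe_nsmul]
      exact hζb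
    rw [h5, map_nsmul, AddSubgroup.coe_nsmul, hc0]
    exact hζb
  obtain ⟨c, hcc, hcζ⟩ := exists_extend p t.D φ hφD ζ hζ hζD cD ζ (by rw [hζ]; exact one_ne_zero) hfix
  have k0 : c (t.β (e 0) (e 1)) = t.β (e 0) (e 1) := (hcc ⟨d 0, hd 0⟩).trans hc0
  have k1 : c (t.β (e 0) (e 2)) = - t.β (e 0) (e 2) := (hcc ⟨d 1, hd 1⟩).trans hc1
  have k2 : c (t.β (e 1) (e 2)) = - t.β (e 1) (e 2) := (hcc ⟨d 2, hd 2⟩).trans hc2
  -- the automorphism of `V`
  obtain ⟨g, hg⟩ := exists_equiv_three p hV e he !![-1, 0, 0; 0, -1, 0; 0, 0, 1]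
    (by simp [Matrix.det_fin_three])
  have g0 : g (e 0) = - e 0 := by
    have h := hg 0
    simpa [Fin.sum_univ_three] using h
  have g1 : g (e 1) = - e 1 := by
    have h := hg 1
    simpa [Fin.sum_univ_three] using h
  have g2 : g (e 2) = e 2 := by
    have h := hg 2
    simpa [Fin.sum_univ_three] using h
  -- `c d + d ∈ p Z` on `D`
  have hQ : ∀ x ∈ t.D, ∃ z, c x + x = p • z := by
    intro x hx
    rw [← gen] at hx
    induction hx using AddSubgroup.closure_induction with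
    | mem x hx =>
      obtain ⟨i, rfl⟩ := hx
      fin_cases i
      · refine ⟨z1 + z1, ?_⟩
        change c (t.β (e 0) (e 1)) + t.β (e 0) (e 1) = _
        rw [k0, smul_add, ← hz1]
      · refine ⟨0, ?_⟩
        change c (t.β (e 0) (e 2)) + t.β (e 0) (e 2) = _
        rw [k1, smul_zero, neg_add_cancel]
      · refine ⟨0, ?_⟩
        change c (t.β (e 1) (e 2)) + t.β (e 1) (e 2) = _
        rw [k2, smul_zero, neg_add_cancel]
    | zero => exact ⟨0, by simp⟩
    | add x y _ _ hx hy =>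
      obtain ⟨a, ha⟩ := hx
      obtain ⟨b, hb⟩ := hy
      exact ⟨a + b, by rw [map_add, smul_add, ← ha, ← hb]; abel⟩
    | neg x _ hx =>
      obtain ⟨a, ha⟩ := hx
      exact ⟨-a, by rw [map_neg, smul_neg, ← ha]; abel⟩
  -- `π (-x) ∈ -π x + p Z`
  have hneg : ∀ x, ∃ z, t.π (-x) + t.π x = p • z := by
    intro x
    obtain ⟨a, ha⟩ := t.add x (-x)
    obtain ⟨b, hb⟩ := t.add 0 0
    rw [add_neg_cancel] at ha
    rw [add_zero, sub_self, zero_sub] at hb
    refine ⟨-a - b, ?_⟩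
    rw [smul_sub, smul_neg, ← ha, ← hb]
    abel
  have hx : ∀ x, g x = - x → ∃ z, t.π (g x) - c (t.π x) = p • z := by
    intro x hx
    obtain ⟨a, ha⟩ := hneg x
    obtain ⟨b, hb⟩ := hQ (t.π x) (h0 x)
    refine ⟨a - b, ?_⟩
    rw [hx, smul_sub, ← ha, ← hb]
    abel
  refine nonFree_of_basis p t e hspan g c ⟨e 0, ?_⟩ ?_ ?_
  · rw [g0]
    intro h
    have h3 : (2 : ZMod p) • e 0 = 0 := by
      rw [two_smul]
      nth_rewrite 1 [← h]
      simp
    have h4 : (2 : ZMod p) ≠ 0 := by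
      intro h5
      have h6 : ((2 : ℕ) : ZMod p) = 0 := by exact_mod_cast h5
      rw [ZMod.natCast_eq_zero_iff] at h6
      exact hp ((Nat.prime_dvd_prime_iff_eq hpp Nat.prime_two).1 h6)
    exact he.ne_zero 0 ((smul_eq_zero.1 h3).resolve_left h4)
  · have k0' : c (t.β (e 1) (e 0)) = t.β (e 1) (e 0) := by
      rw [t.skew (e 1) (e 0), map_neg, k0]
    have k1' : c (t.β (e 2) (e 0)) = - t.β (e 2) (e 0) := by
      rw [t.skew (e 2) (e 0), map_neg, k1]
    have k2' : c (t.β (e 2) (e 1)) = - t.β (e 2) (e 1) := by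
      rw [t.skew (e 2) (e 1), map_neg, k2]
    intro i j
    fin_cases i <;> fin_cases j <;>
      simp [g0, g1, g2, k0, k1, k2, k0', k1', k2', t.alt, map_neg, AddMonoidHom.neg_apply]
  · intro i
    fin_cases i
    · exact hx (e 0) g0
    · exact hx (e 1) g1
    · refine ⟨z2 - c z2, ?_⟩
      change t.π (g (e 2)) - c (t.π (e 2)) = _
      rw [g2, hz2, map_nsmul, smul_sub]

end MP_02e52a.M7
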