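import Pool.Agent.Lib.MP_02e52a_al.M7.LinTools

namespace MP_02e52a.M7

open Module


section aux

variable {F : Type*} [Field F] {V Z : Type*} [AddCommGroup V] [Module F V] [AddCommGroup Z] [Module F Z]

/-- coordinates with respect to a two-dimensional complement -/
private theorem T42e_coords [FiniteDimensional F V] (A : Submodule F V) (hA : finrank F A + 2 = finrank F V) :
    ∃ (b1 b2 : V) (f1 f2 : V →ₗ[F] F), (∀ a ∈ A, f1 a = 0 ∧ f2 a = 0) ∧ f1 b1 = 1 ∧ f1 b2 = 0 ∧
      f2 b1 = 0 ∧ f2 b2 = 1 ∧ ∀ v, ∃ a ∈ A, v = a + f1 v • b1 + f2 v • b2 := by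
  obtain ⟨B, hB⟩ := Submodule.exists_isCompl A
  have hfB : finrank F B = 2 := by
    have := Submodule.finrank_add_eq_of_isCompl hB
    omega
  let bB := finBasisOfFinrankEq F B hfB
  refine ⟨bB 0, bB 1, (bB.coord 0).comp (Submodule.projectionOnto B A hB.symm),
    (bB.coord 1).comp (Submodule.projectionOnto B A hB.symm), ?_, ?_, ?_, ?_, ?_, ?_⟩
  · intro a ha
    have h0 : Submodule.projectionOnto B A hB.symm a = 0 :=
      (Submodule.projectionOnto_apply_eq_zero_iff hB.symm).2 ha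
    constructor
    · rw [LinearMap.comp_apply, h0, map_zero]
    · rw [LinearMap.comp_apply, h0, map_zero]
  · rw [LinearMap.comp_apply, Submodule.projectionOnto_apply_left]; simp
  · rw [LinearMap.comp_apply, Submodule.projectionOnto_apply_left]; simp
  · rw [LinearMap.comp_apply, Submodule.projectionOnto_apply_left]; simp
  · rw [LinearMap.comp_apply, Submodule.projectionOnto_apply_left]; simp
  · intro v
    refine ⟨v - Submodule.projectionOnto B A hB.symm v, ?_, ?_⟩
    · rw [← Submodule.projectionOnto_apply_eq_zero_iff hB.symm, map_sub,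
        Submodule.projectionOnto_apply_left, sub_self]
    · have h1 := bB.sum_repr (Submodule.projectionOnto B A hB.symm v)
      rw [Fin.sum_univ_two] at h1
      have h2 := congrArg (Submodule.subtype B) h1
      simp only [map_add, map_smul, Submodule.subtype_apply] at h2
      simp only [LinearMap.comp_apply, Basis.coord_apply]
      rw [add_assoc, h2, sub_add_cancel]

/-- the map `s` on `A`, `b i ↦ b i + t i` -/
private theorem T42e_g (A : Submodule F V) (b1 b2 : V) (f1 f2 : V →ₗ[F] F)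
    (hA : ∀ a ∈ A, f1 a = 0 ∧ f2 a = 0) (h11 : f1 b1 = 1) (h12 : f1 b2 = 0) (h21 : f2 b1 = 0)
    (h22 : f2 b2 = 1) (s : F) (hs : s * s = 1) (t1 t2 : V) (ht1 : t1 ∈ A) (ht2 : t2 ∈ A) :
    ∃ g : V ≃ₗ[F] V, (∀ a ∈ A, g a = s • a) ∧ g b1 = b1 + t1 ∧ g b2 = b2 + t2 := by
  let G : V → V → (V →ₗ[F] V) := fun x y => s • LinearMap.id + f1.smulRight (b1 + x - s • b1) +
    f2.smulRight (b2 + y - s • b2)
  have hG : ∀ x y v, G x y v = s • v + f1 v • (b1 + x - s • b1) + f2 v • (b2 + y - s • b2) := by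
    intro x y v; simp [G]
  have hGA : ∀ x y, ∀ a ∈ A, G x y a = s • a := by
    intro x y a ha
    rw [hG, (hA a ha).1, (hA a ha).2, zero_smul, zero_smul, add_zero, add_zero]
  have hG1 : ∀ x y, G x y b1 = b1 + x := by
    intro x y; rw [hG, h11, h21, one_smul, zero_smul]; abel
  have hG2 : ∀ x y, G x y b2 = b2 + y := by
    intro x y; rw [hG, h12, h22, one_smul, zero_smul]; abel
  have hcomp : ∀ x ∈ A, ∀ y ∈ A, ∀ v, G x y (G (-(s • x)) (-(s • y)) v) = v := by
    intro x hx y hy v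
    rw [hG (-(s • x)) (-(s • y)) v]
    simp only [map_add, map_sub, map_smul, map_neg, hG1, hG2, hGA x y x hx, hGA x y y hy]
    rw [hG x y v]
    simp only [smul_add, smul_sub, smul_smul, smul_neg, ← mul_assoc, hs, mul_comm s (f1 v), mul_comm s (f2 v)]
    simp only [mul_assoc, hs, mul_one, one_smul]
    abel
  have hneg : ∀ x : V, -(s • -(s • x)) = x := by
    intro x; rw [smul_neg, neg_neg, smul_smul, hs, one_smul]
  have hcomp' : ∀ x ∈ A, ∀ y ∈ A, ∀ v, G (-(s • x)) (-(s • y)) (G x y v) = v := by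
    intro x hx y hy v
    have := hcomp (-(s • x)) (A.neg_mem (A.smul_mem s hx)) (-(s • y)) (A.neg_mem (A.smul_mem s hy)) v
    rwa [hneg, hneg] at this
  refine ⟨LinearEquiv.ofLinearMap (G t1 t2) (G (-(s • t1)) (-(s • t2))) ?_ ?_, ?_, ?_, ?_⟩
  · ext v; simpa using hcomp t1 ht1 t2 ht2 v
  · ext v; simpa using hcomp' t1 ht1 t2 ht2 v
  · intro a ha; simpa using hGA t1 t2 a ha
  · simpa using hG1 t1 t2
  · simpa using hG2 t1 t2

/-- the map `z ↦ s z + φ z w`, `φ w = 1 - s` -/
private theorem T42e_c (φ : Z →ₗ[F] F) (s : F) (hs : s * s = 1) (w : Z) (hw : φ w = 1 - s) :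
    ∃ c : Z ≃ₗ[F] Z, ∀ z, c z = s • z + φ z • w := by
  let C : Z → (Z →ₗ[F] Z) := fun x => s • LinearMap.id + φ.smulRight x
  have hC : ∀ x z, C x z = s • z + φ z • x := by intro x z; simp [C]
  have hφ : ∀ x z, φ x = 1 - s → φ (C x z) = φ z := by
    intro x z hx
    rw [hC, map_add, map_smul, map_smul, smul_eq_mul, smul_eq_mul, hx]; ring
  have hcomp : ∀ x, φ x = 1 - s → ∀ z, C x (C (-(s • x)) z) = z := by
    intro x hx z
    have hx' : φ (-(s • x)) = 1 - s := by
      rw [map_neg, map_smul, smul_eq_mul, hx]; linear_combination hs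
    rw [hC x, hφ _ _ hx', hC]
    simp only [smul_add, smul_smul, smul_neg, hs, one_smul, ← mul_assoc, mul_comm s (φ z)]
    rw [mul_assoc, hs, mul_one]; abel
  have hneg : ∀ x : Z, -(s • -(s • x)) = x := by
    intro x; rw [smul_neg, neg_neg, smul_smul, hs, one_smul]
  have hw' : φ (-(s • w)) = 1 - s := by
    rw [map_neg, map_smul, smul_eq_mul, hw]; linear_combination hs
  refine ⟨LinearEquiv.ofLinearMap (C w) (C (-(s • w))) ?_ ?_, ?_⟩
  · ext z; simpa using hcomp w hw z
  · ext z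
    have := hcomp _ hw' z
    rw [hneg] at this
    simpa using this
  · intro z; simpa using hC w z

/-- an alternating form which vanishes on `A`, `A × b i` and `(b 1, b 2)` is zero -/
private theorem T42e_alt (A : Submodule F V) (b1 b2 : V) (f1 f2 : V →ₗ[F] F)
    (hdec : ∀ v, ∃ a ∈ A, v = a + f1 v • b1 + f2 v • b2) (γ : V →ₗ[F] V →ₗ[F] Z)
    (alt : ∀ v, γ v v = 0) (hAA : ∀ a ∈ A, ∀ a' ∈ A, γ a a' = 0) (hA1 : ∀ a ∈ A, γ a b1 = 0)
    (hA2 : ∀ a ∈ A, γ a b2 = 0) (h12 : γ b1 b2 = 0) : ∀ u v, γ u v = 0 := by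
  have skew : ∀ x y, γ x y = - γ y x := by
    intro x y
    have h := alt (x + y)
    simp only [map_add, LinearMap.add_apply, alt, zero_add, add_zero] at h
    exact eq_neg_of_add_eq_zero_right h
  intro u v
  obtain ⟨a, ha, hu⟩ := hdec u
  obtain ⟨a', ha', hv⟩ := hdec v
  rw [hu, hv]
  simp only [map_add, map_smul, LinearMap.add_apply, LinearMap.smul_apply, hAA a ha a' ha', hA1 a ha,
    hA2 a ha, h12, alt, smul_zero, add_zero, zero_add]
  rw [skew b1 a', skew b2 a', hA1 a' ha', hA2 a' ha', skew b2 b1, h12]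
  simp

end aux

/-- [M7 T42e] `dim V = 4`, `dim Z = 3`, `D ≤ Z` of dimension 2 containing the values of `β`, and `D + π (V) = Z`.
PROOF. Let `φ : Z →ₗ F` be a functional with kernel `D` (exists as `dim Z / D = 1`), `u ∈ Z` with `φ u = 1`;
`φ ∘ π ≠ 0` by `hND`, `K = ker (φ ∘ π)` has dimension 3. By `exists_isotropic_three` applied to `K` there is a
plane `A ≤ K` with `β = 0` on `A`. Let `b1, b2` span a complement of `A` in `V`. Consider
`M : A × A × D → D × D × D`, `M (t1, t2, l) = (β t1 b2 + β b1 t2, π t1 - φ(π b1) • l, π t2 - φ(π b2) • l)`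
(`π t ∈ D` for `t ∈ A ≤ K`); both sides have dimension 6.
* `M` not injective: `(t1, t2, l) ≠ 0` in the kernel. If `t1 = t2 = 0` then `φ(π b1) • l = φ(π b2) • l = 0`, and
  one of `φ (π b i)` is nonzero (else `φ ∘ π = 0`), so `l = 0`: contradiction. So `(t1, t2) ≠ 0`. Take
  `g = 1` on `A`, `g (b i) = b i + t i`, `c z = z + φ z • l` (`φ l = 0`, inverse `z - φ z • l`). `c = 1` on `D`;
  `β (g u) (g v) = β u v` as in T52. `π (g b i) = π b i + π t i = π b i + φ(π b i) • l = c (π b i)`; for `a ∈ A`: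
  `c (π a) = π a`.
* `M` injective, hence surjective: take `(t1, t2, l)` with
  `M (t1,t2,l) = (-2) • (β b1 b2, P b1, P b2)` where `P v = π v - φ(π v) • u ∈ D`. Let `g = -1` on `A`,
  `g (b i) = b i + t i`, and `c` = the linear map with `c d = -d` on `D`, `c u = u + l`, i.e.
  `c z = φ z • (u + l) - (z - φ z • u)`. Checks: `β (-a) (b i + t i) = -β a (b i)`;
  `β (b1+t1) (b2+t2) = β b1 b2 - 2 β b1 b2`; `π (-a) = -π a = c (π a)` (`π a ∈ D`);
  `π (b i + t i) = φ(π b i) • u + P b i + (φ(π b i) • l - 2 P b i) = φ(π b i) • (u + l) - P b i = c (π b i)`.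
  `g ≠ 1` on `A` by `h2`. -/
theorem T42e {F : Type*} [Field F] {V Z : Type*} [AddCommGroup V] [Module F V] [AddCommGroup Z]
    [Module F Z] (h2 : (2 : F) ≠ 0) (hV : finrank F V = 4) (hZ : finrank F Z = 3)
    (β : V →ₗ[F] V →ₗ[F] Z) (alt : ∀ v, β v v = 0) (π : V →ₗ[F] Z)
    (D : Submodule F Z) (hD : finrank F D = 2) (hβ : ∀ u v, β u v ∈ D)
    (hND : ∀ z : Z, ∃ d ∈ D, ∃ v, z = d + π v) :
    ∃ (g : V ≃ₗ[F] V) (c : Z ≃ₗ[F] Z), (∃ v, g v ≠ v) ∧ (∀ u v, c (β u v) = β (g u) (g v)) ∧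
      ∀ v, π (g v) = c (π v) := by
  classical
  have : FiniteDimensional F V := Module.finite_of_finrank_pos (by omega)
  have : FiniteDimensional F Z := Module.finite_of_finrank_pos (by omega)
  have hss : (-1 : F) * (-1) = 1 := by ring
  -- the functional `φ`
  obtain ⟨u0, hu0⟩ : ∃ u, u ∉ D := by
    by_contra hcon
    push Not at hcon
    have : D = ⊤ := by rw [eq_top_iff]; exact fun z _ => hcon z
    rw [this, finrank_top] at hD
    omega
  obtain ⟨φ0, hφ0, hφD0⟩ := Submodule.exists_dual_map_eq_bot_of_notMem hu0 inferInstance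
  obtain ⟨φ, u, hφu, hφD⟩ : ∃ (φ : Z →ₗ[F] F) (u : Z), φ u = 1 ∧ ∀ z, φ z = 0 ↔ z ∈ D := by
    have hle : D ≤ LinearMap.ker φ0 := by
      intro d hd
      have h1 : φ0 d ∈ Submodule.map φ0 D := ⟨d, hd, rfl⟩
      rw [hφD0] at h1
      exact (Submodule.mem_bot F).1 h1
    have hker : LinearMap.ker φ0 = D := by
      symm
      apply Submodule.eq_of_le_of_finrank_eq hle
      have h1 := LinearMap.finrank_range_add_finrank_ker φ0
      have h2 : finrank F (LinearMap.range φ0) = 1 := by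
        have : LinearMap.range φ0 = ⊤ := by
          rw [LinearMap.range_eq_top]
          apply LinearMap.surjective
          intro h
          exact hφ0 (by rw [h]; rfl)
        rw [this, finrank_top, finrank_self]
      omega
    refine ⟨φ0, (φ0 u0)⁻¹ • u0, ?_, ?_⟩
    · rw [map_smul, smul_eq_mul, inv_mul_cancel₀ hφ0]
    · intro z
      rw [← hker, LinearMap.mem_ker]
  have hφβ : ∀ x y, φ (β x y) = 0 := fun x y => (hφD _).2 (hβ x y)
  -- `φ ∘ π ≠ 0`
  have hπ : ∃ v, φ (π v) ≠ 0 := by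
    by_contra hcon
    push Not at hcon
    obtain ⟨d, hd, v, hv⟩ := hND u
    have := congrArg φ hv
    rw [map_add, (hφD d).2 hd, hcon v, hφu] at this
    simp at this
  -- `K = ker (φ ∘ π)`
  have hK : finrank F (LinearMap.ker (φ.comp π)) = 3 := by
    have h1 := LinearMap.finrank_range_add_finrank_ker (φ.comp π)
    have h2 : finrank F (LinearMap.range (φ.comp π)) = 1 := by
      have : LinearMap.range (φ.comp π) = ⊤ := by
        rw [LinearMap.range_eq_top]
        apply LinearMap.surjective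
        intro h
        obtain ⟨v, hv⟩ := hπ
        apply hv
        have := LinearMap.congr_fun h v
        simpa using this
      rw [this, finrank_top, finrank_self]
    omega
  obtain ⟨x, y, hxy, hβxy⟩ := exists_isotropic_three hK D (by omega)
    (β.domRestrict₁₂ (LinearMap.ker (φ.comp π)) (LinearMap.ker (φ.comp π)))
    (fun v => alt (v : V)) (fun u v => hβ (u : V) (v : V))
  have hβxy' : β (x : V) (y : V) = 0 := hβxy
  have hind : LinearIndependent F ![(x : V), (y : V)] := by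
    rw [LinearIndependent.pair_iff] at hxy ⊢
    intro r t h
    exact hxy r t (Subtype.ext (by simpa using h))
  set A : Submodule F V := Submodule.span F (Set.range ![(x : V), (y : V)]) with hAdef
  have hAfr : finrank F A = 2 := by
    rw [hAdef, finrank_span_eq_card hind]; simp
  have hskew : ∀ x y, β x y = - β y x := by
    intro x y
    have h := alt (x + y)
    simp only [map_add, LinearMap.add_apply, alt, zero_add, add_zero] at h
    exact eq_neg_of_add_eq_zero_right h
  have hAmem : ∀ a ∈ A, ∃ r t : F, a = r • (x : V) + t • (y : V) := by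
    intro a ha
    rw [hAdef, Submodule.mem_span_range_iff_exists_fun] at ha
    obtain ⟨c, hc⟩ := ha
    refine ⟨c 0, c 1, ?_⟩
    rw [← hc, Fin.sum_univ_two]; rfl
  have hAK : ∀ a ∈ A, φ (π a) = 0 := by
    intro a ha
    obtain ⟨r, t, rfl⟩ := hAmem a ha
    have hx : φ (π (x : V)) = 0 := x.2
    have hy : φ (π (y : V)) = 0 := y.2
    simp [map_add, map_smul, hx, hy]
  have hAA : ∀ a ∈ A, ∀ a' ∈ A, β a a' = 0 := by
    intro a ha a' ha'
    obtain ⟨r, t, rfl⟩ := hAmem a ha
    obtain ⟨r', t', rfl⟩ := hAmem a' ha'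
    simp only [map_add, map_smul, LinearMap.add_apply, LinearMap.smul_apply, alt, hβxy',
      hskew (y : V) (x : V)]
    simp
  have hAx : ∃ a ∈ A, a ≠ 0 := by
    refine ⟨x, Submodule.subset_span ⟨0, rfl⟩, ?_⟩
    exact hind.ne_zero 0
  obtain ⟨b1, b2, f1, f2, hfA, h11, h12, h21, h22, hdec⟩ := T42e_coords A (by omega)
  have hπb : ¬ (φ (π b1) = 0 ∧ φ (π b2) = 0) := by
    rintro ⟨h1, h2'⟩
    obtain ⟨v, hv⟩ := hπ
    apply hv
    obtain ⟨a, ha, hva⟩ := hdec v
    rw [hva]
    simp [map_add, map_smul, hAK a ha, h1, h2']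
  -- the checks
  have hcheck : ∀ (s : F) (g : V ≃ₗ[F] V) (c : Z ≃ₗ[F] Z) (t1 t2 : V), s * s = 1 → t1 ∈ A → t2 ∈ A →
      (∀ a ∈ A, g a = s • a) → g b1 = b1 + t1 → g b2 = b2 + t2 → (∀ d ∈ D, c d = s • d) →
      s • β b1 b2 = β b1 b2 + (β t1 b2 + β b1 t2) →
      ∀ u v, c (β u v) = β (g u) (g v) := by
    intro s g c t1 t2 hs ht1 ht2 hgA hg1 hg2 hcD hM u v
    have key := T42e_alt A b1 b2 f1 f2 hdec
      (β.compl₁₂ (g : V →ₗ[F] V) (g : V →ₗ[F] V) - β.compr₂ (c : Z →ₗ[F] Z)) ?_ ?_ ?_ ?_ ?_ u v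
    · simp only [LinearMap.sub_apply, LinearMap.compl₁₂_apply, LinearMap.compr₂_apply,
        LinearEquiv.coe_coe] at key
      exact (sub_eq_zero.1 key).symm
    · intro v
      simp [alt]
    · intro a ha a' ha'
      simp only [LinearMap.sub_apply, LinearMap.compl₁₂_apply, LinearMap.compr₂_apply,
        LinearEquiv.coe_coe]
      rw [hgA a ha, hgA a' ha', map_smul, map_smul, LinearMap.smul_apply, hAA a ha a' ha']
      simp
    · intro a ha
      simp only [LinearMap.sub_apply, LinearMap.compl₁₂_apply, LinearMap.compr₂_apply,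
        LinearEquiv.coe_coe]
      rw [hgA a ha, hg1, hcD _ (hβ _ _), map_add, map_smul, LinearMap.smul_apply, LinearMap.smul_apply,
        hAA a ha t1 ht1]
      simp
    · intro a ha
      simp only [LinearMap.sub_apply, LinearMap.compl₁₂_apply, LinearMap.compr₂_apply,
        LinearEquiv.coe_coe]
      rw [hgA a ha, hg2, hcD _ (hβ _ _), map_add, map_smul, LinearMap.smul_apply, LinearMap.smul_apply,
        hAA a ha t2 ht2]
      simp
    · simp only [LinearMap.sub_apply, LinearMap.compl₁₂_apply, LinearMap.compr₂_apply,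
        LinearEquiv.coe_coe]
      rw [hg1, hg2, hcD _ (hβ _ _), hM]
      simp only [map_add, LinearMap.add_apply, hAA t1 ht1 t2 ht2]
      abel
  have hcheckπ : ∀ (s : F) (g : V ≃ₗ[F] V) (c : Z ≃ₗ[F] Z),
      (∀ a ∈ A, g a = s • a) → (∀ d ∈ D, c d = s • d) → π (g b1) = c (π b1) →
      π (g b2) = c (π b2) → ∀ v, π (g v) = c (π v) := by
    intro s g c hgA hcD h1 h2' v
    obtain ⟨a, ha, hva⟩ := hdec v
    rw [hva]
    simp only [map_add, map_smul, h1, h2']
    rw [hgA a ha, map_smul, hcD _ ((hφD _).1 (hAK a ha))]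
  -- the linear map `M`
  let M : (A × A × D) →ₗ[F] (D × D × D) :=
    { toFun := fun p => (⟨β (p.1 : V) b2 + β b1 (p.2.1 : V), D.add_mem (hβ _ _) (hβ _ _)⟩,
        ⟨π (p.1 : V) - φ (π b1) • (p.2.2 : Z), D.sub_mem ((hφD _).1 (hAK _ p.1.2)) (D.smul_mem _ p.2.2.2)⟩,
        ⟨π (p.2.1 : V) - φ (π b2) • (p.2.2 : Z), D.sub_mem ((hφD _).1 (hAK _ p.2.1.2)) (D.smul_mem _ p.2.2.2)⟩)
      map_add' := by
        intro p q
        ext
        · simp only [Prod.fst_add, Prod.snd_add, Submodule.coe_add, map_add, LinearMap.add_apply]; abel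
        · simp only [Prod.fst_add, Prod.snd_add, Submodule.coe_add, map_add, smul_add]; abel
        · simp only [Prod.fst_add, Prod.snd_add, Submodule.coe_add, map_add, smul_add]; abel
      map_smul' := by
        intro r p
        ext
        · simp only [Prod.smul_fst, Prod.smul_snd, Submodule.coe_smul, map_smul, LinearMap.smul_apply,
            RingHom.id_apply, smul_add]
        · simp only [Prod.smul_fst, Prod.smul_snd, Submodule.coe_smul, map_smul, RingHom.id_apply,
            smul_sub, smul_comm r (φ (π b1))]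
        · simp only [Prod.smul_fst, Prod.smul_snd, Submodule.coe_smul, map_smul, RingHom.id_apply,
            smul_sub, smul_comm r (φ (π b2))] }
  have hMdef : ∀ p, M p = (⟨β (p.1 : V) b2 + β b1 (p.2.1 : V), D.add_mem (hβ _ _) (hβ _ _)⟩,
        ⟨π (p.1 : V) - φ (π b1) • (p.2.2 : Z), D.sub_mem ((hφD _).1 (hAK _ p.1.2)) (D.smul_mem _ p.2.2.2)⟩,
        ⟨π (p.2.1 : V) - φ (π b2) • (p.2.2 : Z), D.sub_mem ((hφD _).1 (hAK _ p.2.1.2)) (D.smul_mem _ p.2.2.2)⟩) :=
    fun p => rfl
  have hdim : finrank F (A × A × D) = finrank F (D × D × D) := by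
    simp only [finrank_prod, hAfr, hD]
  by_cases hinj : Function.Injective M
  · -- surjective
    have hsur := (LinearMap.injective_iff_surjective_of_finrank_eq_finrank hdim).1 hinj
    have hP : ∀ v, π v - φ (π v) • u ∈ D := by
      intro v
      rw [← hφD, map_sub, map_smul, hφu, smul_eq_mul, mul_one, sub_self]
    obtain ⟨⟨t1, t2, l⟩, hM⟩ := hsur (⟨(-2 : F) • β b1 b2, D.smul_mem _ (hβ _ _)⟩,
      ⟨(-2 : F) • (π b1 - φ (π b1) • u), D.smul_mem _ (hP b1)⟩,
      ⟨(-2 : F) • (π b2 - φ (π b2) • u), D.smul_mem _ (hP b2)⟩)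
    rw [hMdef] at hM
    simp only [Prod.mk.injEq, Subtype.mk.injEq] at hM
    obtain ⟨hM1, hM2, hM3⟩ := hM
    obtain ⟨g, hgA, hg1, hg2⟩ := T42e_g A b1 b2 f1 f2 hfA h11 h12 h21 h22 (-1) hss t1 t2 t1.2 t2.2
    have hφl : φ (l : Z) = 0 := (hφD _).2 l.2
    obtain ⟨c, hc⟩ := T42e_c φ (-1) hss ((2 : F) • u + l) (by
      rw [map_add, map_smul, hφu, hφl, smul_eq_mul]; ring)
    have hcD : ∀ d ∈ D, c d = (-1 : F) • d := by
      intro d hd
      rw [hc, (hφD d).2 hd, zero_smul, add_zero]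
    refine ⟨g, c, ?_, ?_, ?_⟩
    · obtain ⟨a, ha, ha0⟩ := hAx
      refine ⟨a, ?_⟩
      rw [hgA a ha]
      intro h
      apply ha0
      have h3 : (2 : F) • a = 0 := by
        rw [two_smul]
        nth_rewrite 1 [← h]
        simp
      exact (smul_eq_zero.1 h3).resolve_left h2
    · apply hcheck (-1) g c t1 t2 hss t1.2 t2.2 hgA hg1 hg2 hcD
      rw [hM1]
      rw [← one_smul F (β b1 b2), smul_smul, smul_smul, ← add_smul]
      congr 1; ring
    · apply hcheckπ (-1) g c hgA hcD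
      · rw [hg1, hc, map_add]
        have h4 : π (t1 : V) = φ (π b1) • (l : Z) + (-2 : F) • (π b1 - φ (π b1) • u) := by
          rw [← hM2]; abel
        rw [h4]
        module
      · rw [hg2, hc, map_add]
        have h4 : π (t2 : V) = φ (π b2) • (l : Z) + (-2 : F) • (π b2 - φ (π b2) • u) := by
          rw [← hM3]; abel
        rw [h4]
        module
  · -- not injective
    rw [injective_iff_map_eq_zero] at hinj
    push Not at hinj
    obtain ⟨⟨t1, t2, l⟩, hM, hne⟩ := hinj
    rw [hMdef] at hM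
    simp only [Prod.mk_eq_zero, Submodule.mk_eq_zero] at hM
    obtain ⟨hM1, hM2, hM3⟩ := hM
    have hφl : φ (l : Z) = 0 := (hφD _).2 l.2
    obtain ⟨g, hgA, hg1, hg2⟩ := T42e_g A b1 b2 f1 f2 hfA h11 h12 h21 h22 1 (one_mul 1) t1 t2 t1.2 t2.2
    obtain ⟨c, hc⟩ := T42e_c φ 1 (one_mul 1) (l : Z) (by rw [hφl, sub_self])
    have hcD : ∀ d ∈ D, c d = (1 : F) • d := by
      intro d hd
      rw [hc, (hφD d).2 hd, zero_smul, add_zero]
    refine ⟨g, c, ?_, ?_, ?_⟩
    · by_contra hcon
      push Not at hcon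
      have e1 : (t1 : V) = 0 := by
        have := hcon b1; rw [hg1] at this; simpa using this
      have e2 : (t2 : V) = 0 := by
        have := hcon b2; rw [hg2] at this; simpa using this
      rw [e1, map_zero, zero_sub, neg_eq_zero, smul_eq_zero] at hM2
      rw [e2, map_zero, zero_sub, neg_eq_zero, smul_eq_zero] at hM3
      have e3 : (l : Z) = 0 := by
        by_contra hl
        exact hπb ⟨hM2.resolve_right hl, hM3.resolve_right hl⟩
      apply hne
      ext
      · simpa using e1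
      · simpa using e2
      · simpa using e3
    · apply hcheck 1 g c t1 t2 (one_mul 1) t1.2 t2.2 hgA hg1 hg2 hcD
      rw [hM1, one_smul, add_zero]
    · apply hcheckπ 1 g c hgA hcD
      · rw [hg1, hc, map_add, one_smul, ← sub_eq_zero.1 hM2]
      · rw [hg2, hc, map_add, one_smul, ← sub_eq_zero.1 hM3]

end MP_02e52a.M7
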