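import Pool.Agent.Lib.MP_02e52a_al.M7.LinTools

namespace MP_02e52a.M7

open Module

private theorem T52_core {F : Type*} [Field F] {V W : Type*} [AddCommGroup V] [Module F V]
    [AddCommGroup W] [Module F W] [FiniteDimensional F V]
    (β : V →ₗ[F] V →ₗ[F] W) (alt : ∀ v, β v v = 0) (π : V →ₗ[F] W)
    (ε : F) (hε : ε ≠ 0) (A : Submodule F V) (hiso : ∀ x ∈ A, ∀ y ∈ A, β x y = 0)
    (P : V →ₗ[F] V) (hP : ∀ v, P v ∈ A) (r s : V →ₗ[F] F) (b1 b2 t1 t2 : V)
    (dec : ∀ v, v = P v + r v • b1 + s v • b2) (ht1 : t1 ∈ A) (ht2 : t2 ∈ A)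
    (hrA : ∀ a ∈ A, r a = 0) (hsA : ∀ a ∈ A, s a = 0) (hrb1 : r b1 = 1) (hrb2 : r b2 = 0)
    (hsb1 : s b1 = 0) (hsb2 : s b2 = 1)
    (h1 : β t1 b2 + β b1 t2 = (ε - 1) • β b1 b2) (h2 : π t1 = (ε - 1) • π b1)
    (h3 : π t2 = (ε - 1) • π b2) :
    ∃ g : V ≃ₗ[F] V, (∀ v, g v = ε • P v + r v • (b1 + t1) + s v • (b2 + t2)) ∧
      (∀ u v, ε • β u v = β (g u) (g v)) ∧ ∀ v, π (g v) = ε • π v := by
  have anti : ∀ u v : V, β u v = -β v u := by
    intro u v
    have h := alt (u + v)
    simp only [map_add, LinearMap.add_apply, alt, zero_add, add_zero] at h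
    exact eq_neg_of_add_eq_zero_right h
  let g0 : V →ₗ[F] V := ε • P + r.smulRight (b1 + t1) + s.smulRight (b2 + t2)
  have hg0 : ∀ v, g0 v = ε • P v + r v • (b1 + t1) + s v • (b2 + t2) := fun v => rfl
  have hinj : Function.Injective g0 := by
    rw [← LinearMap.ker_eq_bot, LinearMap.ker_eq_bot']
    intro v hv
    have hr : r v = 0 := by
      have h := congrArg r hv
      rw [hg0] at h
      simpa [hrA _ (hP v), hrb1, hrb2, hrA t1 ht1, hrA t2 ht2] using h
    have hs : s v = 0 := by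
      have h := congrArg s hv
      rw [hg0] at h
      simpa [hsA _ (hP v), hsb1, hsb2, hsA t1 ht1, hsA t2 ht2] using h
    rw [hg0, hr, hs, zero_smul, zero_smul, add_zero, add_zero, smul_eq_zero] at hv
    rw [dec v, hr, hs, hv.resolve_left hε]
    simp
  refine ⟨LinearEquiv.ofInjectiveEndo g0 hinj, hg0, ?_, ?_⟩
  · intro u v
    change ε • β u v = β (g0 u) (g0 v)
    have e1 : β b1 t2 = (ε - 1) • β b1 b2 - β t1 b2 := by rw [← h1]; abel
    have e : ε • β u v = ε • β (P u + r u • b1 + s u • b2) (P v + r v • b1 + s v • b2) := by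
      rw [← dec u, ← dec v]
    rw [e, hg0, hg0]
    simp only [map_add, map_smul, LinearMap.add_apply, LinearMap.smul_apply, alt,
      hiso _ (hP u) _ (hP v), hiso _ (hP u) _ ht1, hiso _ (hP u) _ ht2, hiso _ ht1 _ (hP v),
      hiso _ ht2 _ (hP v), hiso _ ht1 _ ht2, hiso _ ht2 _ ht1]
    rw [anti b2 t1, anti b2 b1, anti t2 b1, anti b1 t1, anti t2 b2, e1]
    module
  · intro v
    change π (g0 v) = ε • π v
    have e : ε • π v = ε • π (P v + r v • b1 + s v • b2) := by rw [← dec v]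
    rw [e, hg0]
    simp only [map_add, map_smul, h2, h3]
    module

/-- [M7 T52] PROOF. By `exists_isotropic_five` (with `S = ⊤`) take an isotropic `A ≤ V`, `dim A = 3`, and a
complement `B` (`Submodule.exists_isCompl`), `dim B = 2`, basis `b1, b2` of `B`. Consider the linear map
`M : A × A → W × W × W`, `M (t1, t2) = (β t1 b2 + β b1 t2, π t1, π t2)`; both sides have dimension 6.
* If `M` is not injective: `(t1, t2) ≠ 0` in the kernel. Let `g` be the linear map with `g a = a` on `A`,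
  `g b1 = b1 + t1`, `g b2 = b2 + t2` (i.e. `g = 1 + T`, `T` vanishes on `A` and has values in `A`, inverse `1 - T`),
  `c = 1`. `β (g u) (g v) = β u v + β (T u) v + β u (T v) + 0` and `β (T u) v + β u (T v)` is alternating in
  `u, v`, vanishes if `u ∈ A` (isotropy), and for `u = b1, v = b2` it is `0`: so it vanishes. `π (T v) = 0`.
* If `M` is injective it is surjective: choose `(t1, t2)` with `M (t1, t2) = (-2) • (β b1 b2, π b1, π b2)`. Let
  `g a = -a` on `A`, `g b1 = b1 + t1`, `g b2 = b2 + t2`, `c = -1`. Check: `u, v ∈ A`: `0 = 0`; `u = a, v = b i`: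
  `β (-a) (b i + t i) = - β a (b i)`; `u = b1, v = b2`: `β b1 b2 + (β t1 b2 + β b1 t2) = - β b1 b2`;
  `π (-a) = - π a`; `π (b i + t i) = π (b i) - 2 π (b i) = - π (b i)`. `g ≠ 1` as `-a ≠ a` for `a ≠ 0`
  (`h2`); `g` is invertible (`g` is triangular; e.g. it is injective: write `v = a + b`). -/
theorem T52 {F : Type*} [Field F] {V W : Type*} [AddCommGroup V] [Module F V] [AddCommGroup W]
    [Module F W] (h2 : (2 : F) ≠ 0) (hV : finrank F V = 5) (hW : finrank F W = 2)
    (β : V →ₗ[F] V →ₗ[F] W) (alt : ∀ v, β v v = 0) (π : V →ₗ[F] W) :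
    ∃ (g : V ≃ₗ[F] V) (c : W ≃ₗ[F] W), (∃ v, g v ≠ v) ∧ (∀ u v, c (β u v) = β (g u) (g v)) ∧
      ∀ v, π (g v) = c (π v) := by
  have : FiniteDimensional F V := FiniteDimensional.of_finrank_pos (by rw [hV]; norm_num)
  have : FiniteDimensional F W := FiniteDimensional.of_finrank_pos (by rw [hW]; norm_num)
  obtain ⟨A, hA, hiso⟩ := exists_isotropic_five h2 hV (⊤ : Submodule F W)
    (by rw [finrank_top, hW]) β alt (fun _ _ => Submodule.mem_top)
  obtain ⟨B, hB⟩ := A.exists_isCompl
  have hB2 : finrank F B = 2 := by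
    have := Submodule.finrank_add_eq_of_isCompl hB
    omega
  let b : Basis (Fin 2) F B := finBasisOfFinrankEq F B hB2
  let P : V →ₗ[F] V := A.subtype ∘ₗ (A.projectionOnto B hB)
  let Q : V →ₗ[F] B := B.projectionOnto A hB.symm
  let r : V →ₗ[F] F := (b.coord 0) ∘ₗ Q
  let s : V →ₗ[F] F := (b.coord 1) ∘ₗ Q
  have hP : ∀ v, P v ∈ A := fun v => (A.projectionOnto B hB v).2
  have hQ : ∀ v, (Q v : V) = r v • (b 0 : V) + s v • (b 1 : V) := by
    intro v
    have h := b.sum_repr (Q v)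
    rw [Fin.sum_univ_two] at h
    have h' := congrArg (fun x : B => (x : V)) h
    simp only [Submodule.coe_add, Submodule.coe_smul] at h'
    exact h'.symm
  have dec : ∀ v, v = P v + r v • (b 0 : V) + s v • (b 1 : V) := by
    intro v
    rw [add_assoc, ← hQ v]
    exact (Submodule.projection_add_projection_eq_self hB v).symm
  have hQA : ∀ a ∈ A, Q a = 0 := fun a ha =>
    (Submodule.projectionOnto_apply_eq_zero_iff hB.symm).2 ha
  have hQB : ∀ x : B, Q x = x := fun x => Submodule.projectionOnto_apply_left hB.symm x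
  have hrA : ∀ a ∈ A, r a = 0 := fun a ha => by
    change b.coord 0 (Q a) = 0
    rw [hQA a ha, map_zero]
  have hsA : ∀ a ∈ A, s a = 0 := fun a ha => by
    change b.coord 1 (Q a) = 0
    rw [hQA a ha, map_zero]
  have hr1 : r (b 0) = 1 := by
    change b.coord 0 (Q (b 0)) = 1
    rw [hQB]; simp
  have hr2 : r (b 1) = 0 := by
    change b.coord 0 (Q (b 1)) = 0
    rw [hQB]; simp
  have hs1 : s (b 0) = 0 := by
    change b.coord 1 (Q (b 0)) = 0
    rw [hQB]; simp
  have hs2 : s (b 1) = 1 := by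
    change b.coord 1 (Q (b 1)) = 1
    rw [hQB]; simp
  let M : (A × A) →ₗ[F] W × W × W :=
    (((β.flip (b 1)) ∘ₗ A.subtype ∘ₗ LinearMap.fst F A A) +
      ((β (b 0)) ∘ₗ A.subtype ∘ₗ LinearMap.snd F A A)).prod
    ((π ∘ₗ A.subtype ∘ₗ LinearMap.fst F A A).prod (π ∘ₗ A.subtype ∘ₗ LinearMap.snd F A A))
  have hM : ∀ t : A × A, M t = (β t.1 (b 1) + β (b 0) t.2, π t.1, π t.2) := fun t => rfl
  by_cases hinj : Function.Injective M
  · have hsur : Function.Surjective M := by
      rwa [← LinearMap.injective_iff_surjective_of_finrank_eq_finrank]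
      rw [finrank_prod, finrank_prod, finrank_prod, hA, hW]
    obtain ⟨t, ht⟩ := hsur (((-1 : F) - 1) • β (b 0) (b 1), ((-1 : F) - 1) • π (b 0),
      ((-1 : F) - 1) • π (b 1))
    rw [hM, Prod.mk.injEq, Prod.mk.injEq] at ht
    obtain ⟨g, hg1, hg2, hg3⟩ := T52_core β alt π (-1) (by simp) A hiso P hP r s (b 0) (b 1) t.1 t.2
      dec t.1.2 t.2.2 hrA hsA hr1 hr2 hs1 hs2 ht.1 ht.2.1 ht.2.2
    refine ⟨g, LinearEquiv.neg F, ?_, ?_, ?_⟩
    · have : ∃ a : A, a ≠ 0 := by
        have : Nontrivial A := nontrivial_of_finrank_pos (R := F) (by rw [hA]; norm_num)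
        exact exists_ne 0
      obtain ⟨a, ha⟩ := this
      refine ⟨a, fun h => ?_⟩
      have h4 : g (a : V) = -(a : V) := by
        have h5 := dec (a : V)
        rw [hrA _ a.2, hsA _ a.2, zero_smul, zero_smul, add_zero, add_zero] at h5
        rw [hg1, hrA _ a.2, hsA _ a.2, zero_smul, zero_smul, add_zero, add_zero, ← h5, neg_one_smul]
      rw [h4] at h
      have h6 : (2 : F) • (a : V) = 0 := by
        rw [two_smul]
        nth_rewrite 1 [← h]
        rw [neg_add_cancel]
      rcases smul_eq_zero.1 h6 with h7 | h7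
      · exact h2 h7
      · exact ha (Subtype.ext h7)
    · intro u v
      rw [← hg2, neg_one_smul]
      rfl
    · intro v
      rw [hg3, neg_one_smul]
      rfl
  · have : ∃ t : A × A, t ≠ 0 ∧ M t = 0 := by
      by_contra hcon
      push Not at hcon
      apply hinj
      rw [← LinearMap.ker_eq_bot, LinearMap.ker_eq_bot']
      intro t ht
      by_contra h0
      exact hcon t h0 ht
    obtain ⟨t, ht0, ht⟩ := this
    rw [hM, Prod.mk_eq_zero, Prod.mk_eq_zero] at ht
    obtain ⟨g, hg1, hg2, hg3⟩ := T52_core β alt π 1 one_ne_zero A hiso P hP r s (b 0) (b 1) t.1 t.2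
      dec t.1.2 t.2.2 hrA hsA hr1 hr2 hs1 hs2 (by rw [ht.1, sub_self, zero_smul])
      (by rw [ht.2.1, sub_self, zero_smul]) (by rw [ht.2.2, sub_self, zero_smul])
    refine ⟨g, LinearEquiv.refl F W, ?_, ?_, ?_⟩
    · by_contra hcon
      push Not at hcon
      apply ht0
      have hPb : ∀ x : B, P x = 0 := by
        intro x
        change ((A.projectionOnto B hB x : A) : V) = 0
        rw [(Submodule.projectionOnto_apply_eq_zero_iff hB).2 x.2]
        rfl
      have e1 := hcon (b 0)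
      have e2 := hcon (b 1)
      rw [hg1, hr1, hs1, hPb, smul_zero, zero_smul, one_smul, zero_add, add_zero,
        add_eq_left] at e1
      rw [hg1, hr2, hs2, hPb, smul_zero, zero_smul, one_smul, zero_add, zero_add,
        add_eq_left] at e2
      exact Prod.ext (Subtype.ext e1) (Subtype.ext e2)
    · intro u v
      rw [← hg2, one_smul]
      rfl
    · intro v
      rw [hg3, one_smul]
      rfl

end MP_02e52a.M7
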