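import Pool.Agent.Lib.MP_02e52a_al.M7.NetDefs

namespace MP_02e52a.M7

variable {p : ℕ} [Fact p.Prime]

/-- the datum `(netM, π)` -/
def datM (π : VV p →ₗ[ZMod p] WW p) : Dat p where
  β := netM
  alt v := by ext i; fin_cases i <;> simp <;> ring
  π := π

/-- the datum `(netK δ, π)` -/
def datK (δ : ZMod p) (π : VV p →ₗ[ZMod p] WW p) : Dat p where
  β := netK δ
  alt v := by ext i; fin_cases i <;> simp <;> ring
  π := π

/-- equivalence of data -/
def Dat.Eqv (d d' : Dat p) : Prop := ∃ g h, d.Trans d' g h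

/-- linear maps `V → W` from three rows of coefficients -/
def mkπ (M : Matrix (Fin 3) (Fin 4) (ZMod p)) : VV p →ₗ[ZMod p] WW p := M.mulVecLin

/-- `π_A (x) = (A (x 0, x 1) + (x 2, x 3), x 2)` -/
def piA (A : Matrix (Fin 2) (Fin 2) (ZMod p)) : VV p →ₗ[ZMod p] WW p :=
  mkπ !![A 0 0, A 0 1, 1, 0; A 1 0, A 1 1, 0, 1; 0, 0, 1, 0]

/-- `π (x) = (α x 0 + x 1, ε x 0 + φ x 2, x 3)` -/
def piD (α ε φ : ZMod p) : VV p →ₗ[ZMod p] WW p :=
  mkπ !![α, 1, 0, 0; ε, 0, φ, 0; 0, 0, 0, 1]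

/-- the split net in the coordinates `(x 0 ∧ x 1, x 2 ∧ x 3, x 0 ∧ x 2)` -/
def netH : VV p →ₗ[ZMod p] VV p →ₗ[ZMod p] WW p :=
  LinearMap.mk₂ (ZMod p)
    (fun x y => ![x 0 * y 1 - x 1 * y 0, x 2 * y 3 - x 3 * y 2, x 0 * y 2 - x 2 * y 0])
    (by intro x x' y; ext i; fin_cases i <;> simp <;> ring)
    (by intro c x y; ext i; fin_cases i <;> simp <;> ring)
    (by intro x y y'; ext i; fin_cases i <;> simp <;> ring)
    (by intro c x y; ext i; fin_cases i <;> simp <;> ring)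

@[simp] theorem netH_apply (x y : VV p) : netH x y =
    ![x 0 * y 1 - x 1 * y 0, x 2 * y 3 - x 3 * y 2, x 0 * y 2 - x 2 * y 0] := rfl

/-- the datum `(netH, π)` -/
def datH (π : VV p →ₗ[ZMod p] WW p) : Dat p where
  β := netH
  alt v := by ext i; fin_cases i <;> simp <;> ring
  π := π

/-- first split family -/
def piH1 (a b c d : ZMod p) : VV p →ₗ[ZMod p] WW p := mkπ !![a, 1, b, 0; c, 0, d, 1; 0, 1, 0, 1]

/-- second split family -/
def piH2 (a b c d : ZMod p) : VV p →ₗ[ZMod p] WW p := mkπ !![a, 0, b, 0; c, 0, d, 1; 0, 1, 0, 1]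

/-- third split family -/
def piH3 (a b c d s t u : ZMod p) : VV p →ₗ[ZMod p] WW p := mkπ !![a, s, b, t; c, 0, d, u; 0, 1, 0, 0]

end MP_02e52a.M7
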